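import Pool.Agent.Lib.Fermi.OpBasic

/-!
# Chunk D6: reduction to finitely many sites, diagonal dominance
-/

open scoped BigOperators Topology
open Set Filter

noncomputable section

namespace Fermi

variable {d : ℕ} {μ : ℂ} {w : Zd d → ℂ} {c : ℝ}

/-- matrix entries of the Green function of the symbol regularised on `S` -/
def gS (w : Zd d → ℂ) (c : ℝ) (μ : ℂ) (S : Finset (Zd d)) (k : Cd d) (n m : Zd d) : ℂ :=
  (grn w (DS c μ S k) (dlt m)) n

/-! ### Auxiliary facts -/

lemma blk_dlt_apply (m n : Zd d) : (dlt m : H2 d) n = if n = m then 1 else 0 := by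
  unfold dlt
  split_ifs with h
  · subst h
    rw [lp.single_apply_self]
  · rw [lp.single_apply_ne _ _ _ h]

lemma blk_sum_dlt (S : Finset (Zd d)) (a : Zd d → ℂ) (n : Zd d) :
    (∑ m ∈ S, a m • dlt m : H2 d) n = if n ∈ S then a n else 0 := by
  rw [lp.coeFn_sum, Finset.sum_apply]
  simp only [lp.coeFn_smul, Pi.smul_apply, blk_dlt_apply, smul_eq_mul, mul_ite, mul_one, mul_zero]
  rw [Finset.sum_ite_eq]

lemma blk_sol_change {D D' : Zd d → ℂ} (S : Finset (Zd d)) (hDD : ∀ n, n ∉ S → D n = D' n)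
    (f u : H2 d) :
    Sol w D f u ↔ Sol w D' (f + ∑ m ∈ S, ((D' m - D m) * u m) • dlt m) u := by
  unfold Sol
  refine forall_congr' fun n => ?_
  have h1 : (f + ∑ m ∈ S, ((D' m - D m) * u m) • dlt m : H2 d) n =
      f n + if n ∈ S then (D' n - D n) * u n else 0 := by
    rw [lp.coeFn_add, Pi.add_apply, blk_sum_dlt S (fun m => (D' m - D m) * u m)]
  rw [h1]
  split_ifs with h
  · constructor
    · intro h2
      rw [← h2]
      ring
    · intro h2
      have h3 : D n * u n + ∑' m, w (n - m) * u m =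
          (D' n * u n + ∑' m, w (n - m) * u m) - (D' n - D n) * u n := by ring
      rw [h3, h2]
      ring
  · rw [hDD n h, add_zero]

lemma blk_sol_zero (D : Zd d → ℂ) : Sol w D 0 0 := by
  intro n
  simp

lemma blk_sol_sum (hw : Summable fun n => ‖w n‖) {D : Zd d → ℂ} (S : Finset (Zd d)) (a : Zd d → ℂ)
    {f u : Zd d → H2 d} (h : ∀ m ∈ S, Sol w D (f m) (u m)) :
    Sol w D (∑ m ∈ S, a m • f m) (∑ m ∈ S, a m • u m) := by
  classical
  induction S using Finset.induction with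
  | empty => simpa using blk_sol_zero D
  | insert m S hm ih =>
    rw [Finset.sum_insert hm, Finset.sum_insert hm]
    exact (((h m (Finset.mem_insert_self _ _)).smul (a m)).add hw
      (ih fun x hx => h x (Finset.mem_insert_of_mem hx)))

lemma Inv.unique (hw : Summable fun n => ‖w n‖) {D : Zd d → ℂ} {C : ℝ} (h : Inv w D C)
    {f u v : H2 d} (hu : Sol w D f u) (hv : Sol w D f v) : u = v := by
  have h1 : Sol w D (f + (-1 : ℂ) • f) (u + (-1 : ℂ) • v) := hu.add hw (hv.smul _)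
  have h2 := h.2.2 _ _ h1
  have h3 : (f + (-1 : ℂ) • f : H2 d) = 0 := by rw [neg_one_smul, add_neg_cancel]
  rw [h3, norm_zero, mul_zero] at h2
  have h4 : (u + (-1 : ℂ) • v : H2 d) = 0 := norm_le_zero_iff.1 h2
  rw [neg_one_smul, add_neg_eq_zero] at h4
  exact h4

lemma Inv.grn_spec {D : Zd d → ℂ} {C : ℝ} (h : Inv w D C) (f : H2 d) :
    Sol w D f (grn w D f) := by
  have h1 := h.2.1 f
  unfold grn
  rw [dif_pos h1]
  exact h1.choose_spec

lemma blk_apply {S : Finset (Zd d)} {k : Cd d} (h : Adm w c (DS c μ S k)) (T : Finset (Zd d)) (a : Zd d → ℂ) {f u : H2 d}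
    (hu : Sol w (DS c μ S k) (f + ∑ m ∈ T, a m • dlt m) u) (n : Zd d) :
    u n = (grn w (DS c μ S k) f) n + ∑ m ∈ T, a m * gS w c μ S k n m := by
  have h1 : Sol w (DS c μ S k) (f + ∑ m ∈ T, a m • dlt m)
      (grn w (DS c μ S k) f + ∑ m ∈ T, a m • grn w (DS c μ S k) (dlt m)) :=
    (h.grn_spec f).add h.hw (blk_sol_sum h.hw T a fun m _ => h.grn_spec (dlt m))
  have h2 := h.unique hu h1
  rw [h2, lp.coeFn_add, Pi.add_apply, lp.coeFn_sum, Finset.sum_apply]
  rfl

/-- passing from the symbol `q` to the symbol regularised on `S` -/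
lemma blk_fs {S : Finset (Zd d)} {k : Cd d} {u : H2 d}
    (hu : ∀ n, q μ k n * u n + ∑' m, w (n - m) * u m = 0) :
    Sol w (DS c μ S k) (0 + ∑ m ∈ S, ((DS c μ S k m - q μ k m) * u m) • dlt m) u := by
  refine (blk_sol_change (D := q μ k) (D' := DS c μ S k) S (fun n hn => ?_) 0 u).1 ?_
  · simp [DS, hn]
  · intro n
    rw [hu n]
    rfl

/-- if the diagonal entries of `1 + (q - c) G` on `S` are large and the off diagonal entries of
`G` are tiny then `k ∉ F` -/
theorem notmem_of_large (S : Finset (Zd d)) (k : Cd d) (h : Adm w c (DS c μ S k))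
    {η ε₀ b : ℝ} (hε0 : 0 ≤ ε₀) (hb : ∀ n ∈ S, ‖q μ k n - c‖ ≤ b)
    (hη : ∀ n ∈ S, η ≤ ‖1 + (q μ k n - c) * gS w c μ S k n n‖)
    (hoff : ∀ n ∈ S, ∀ m ∈ S, n ≠ m → ‖gS w c μ S k n m‖ ≤ ε₀)
    (hsmall : S.card * (b * ε₀) < η) : k ∉ FS μ w := by
  classical
  rintro ⟨u, hu0, hu⟩
  have hsol := blk_fs (c := c) (S := S) hu
  have happ : ∀ n, u n = ∑ m ∈ S, (((c : ℂ) - q μ k m) * u m) * gS w c μ S k n m := by
    intro n
    have h1 := blk_apply h S (fun m => (DS c μ S k m - q μ k m) * u m) hsol n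
    have h2 : grn w (DS c μ S k) 0 = 0 := h.grn_eq (blk_sol_zero _)
    rw [h2] at h1
    rw [h1, lp.coeFn_zero, Pi.zero_apply, zero_add]
    refine Finset.sum_congr rfl fun m hm => ?_
    simp [DS, hm]
  by_cases hS : S.Nonempty
  · obtain ⟨n, hn, hmax⟩ := S.exists_max_image (fun n => ‖u n‖) hS
    have hb0 : 0 ≤ b := le_trans (norm_nonneg _) (hb n hn)
    have h1 : (1 + (q μ k n - c) * gS w c μ S k n n) * u n =
        ∑ m ∈ S.erase n, (((c : ℂ) - q μ k m) * u m) * gS w c μ S k n m := by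
      have h2 := happ n
      rw [← Finset.add_sum_erase S _ hn] at h2
      linear_combination h2
    have h3 : η * ‖u n‖ ≤ S.card * (b * ε₀) * ‖u n‖ := by
      calc η * ‖u n‖ ≤ ‖1 + (q μ k n - c) * gS w c μ S k n n‖ * ‖u n‖ :=
            mul_le_mul_of_nonneg_right (hη n hn) (norm_nonneg _)
        _ = ‖∑ m ∈ S.erase n, (((c : ℂ) - q μ k m) * u m) * gS w c μ S k n m‖ := by
            rw [← norm_mul, h1]
        _ ≤ ∑ m ∈ S.erase n, ‖(((c : ℂ) - q μ k m) * u m) * gS w c μ S k n m‖ := norm_sum_le _ _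
        _ ≤ ∑ m ∈ S.erase n, b * ‖u n‖ * ε₀ := by
            refine Finset.sum_le_sum fun m hm => ?_
            obtain ⟨hmn, hmS⟩ := Finset.mem_erase.1 hm
            rw [norm_mul, norm_mul, ← norm_neg ((c : ℂ) - q μ k m), neg_sub]
            have h4 := hb m hmS
            have h5 := hmax m hmS
            have h6 := hoff n hn m hmS (Ne.symm hmn)
            gcongr
        _ = (S.erase n).card * (b * ‖u n‖ * ε₀) := by rw [Finset.sum_const, nsmul_eq_mul]
        _ ≤ S.card * (b * ‖u n‖ * ε₀) := by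
            have h7 : 0 ≤ b * ‖u n‖ * ε₀ := by positivity
            have h8 : ((S.erase n).card : ℝ) ≤ S.card := by
              exact_mod_cast Finset.card_le_card (Finset.erase_subset _ _)
            gcongr
        _ = S.card * (b * ε₀) * ‖u n‖ := by ring
    have h9 : u n = 0 := by
      by_contra hne
      have h10 : 0 < ‖u n‖ := norm_pos_iff.2 hne
      have h11 := le_of_mul_le_mul_right h3 h10
      linarith
    apply hu0
    ext j
    rw [happ j, lp.coeFn_zero, Pi.zero_apply]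
    refine Finset.sum_eq_zero fun m hm => ?_
    have h12 := hmax m hm
    simp only at h12
    rw [h9, norm_zero] at h12
    rw [norm_le_zero_iff.1 h12, mul_zero, zero_mul]
  · rw [Finset.not_nonempty_iff_eq_empty] at hS
    apply hu0
    ext j
    rw [happ j, hS, Finset.sum_empty, lp.coeFn_zero, Pi.zero_apply]

/-! ### Reduction to one site -/

section onesite

variable {S : Finset (Zd d)} {k : Cd d} {n₀ : Zd d} {η ε₀ b : ℝ}

/-- row-wise diagonal dominance on `S \ {n₀}` -/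
lemma blk_dom [DecidableEq (Zd d)] (hη0 : 0 < η) (hε0 : 0 ≤ ε₀) (hb1 : 1 ≤ b)
    (hb : ∀ n ∈ S, ‖q μ k n - c‖ ≤ b)
    (hη : ∀ n ∈ S, n ≠ n₀ → η ≤ ‖1 + (q μ k n - c) * gS w c μ S k n n‖)
    (hoff : ∀ n ∈ S, ∀ m ∈ S, n ≠ m → ‖gS w c μ S k n m‖ ≤ ε₀)
    (hsmall : 2 * S.card * (b * ε₀) ≤ η) (x y : Zd d → ℂ)
    (hxy : ∀ n ∈ S.erase n₀, x n = y n +
      ∑ m ∈ S.erase n₀, (((c : ℂ) - q μ k m) * x m) * gS w c μ S k n m) {Y : ℝ}
    (hY : ∀ n ∈ S.erase n₀, ‖y n‖ ≤ Y) : ∀ n ∈ S.erase n₀, ‖x n‖ ≤ 2 / η * Y := by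
  rcases (S.erase n₀).eq_empty_or_nonempty with hS | hS
  · intro n hn
    rw [hS] at hn
    exact absurd hn (Finset.notMem_empty _)
  obtain ⟨n, hn, hmax⟩ := (S.erase n₀).exists_max_image (fun n => ‖x n‖) hS
  obtain ⟨hnn, hnS⟩ := Finset.mem_erase.1 hn
  have h1 : (1 + (q μ k n - c) * gS w c μ S k n n) * x n = y n +
      ∑ m ∈ (S.erase n₀).erase n, (((c : ℂ) - q μ k m) * x m) * gS w c μ S k n m := by
    have h2 := hxy n hn
    rw [← Finset.add_sum_erase _ _ hn] at h2
    linear_combination h2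
  have h3 : η * ‖x n‖ ≤ Y + η / 2 * ‖x n‖ := by
    calc η * ‖x n‖ ≤ ‖1 + (q μ k n - c) * gS w c μ S k n n‖ * ‖x n‖ :=
          mul_le_mul_of_nonneg_right (hη n hnS hnn) (norm_nonneg _)
      _ = ‖y n + ∑ m ∈ (S.erase n₀).erase n,
            (((c : ℂ) - q μ k m) * x m) * gS w c μ S k n m‖ := by
          rw [← norm_mul, h1]
      _ ≤ ‖y n‖ + ∑ m ∈ (S.erase n₀).erase n,
            ‖(((c : ℂ) - q μ k m) * x m) * gS w c μ S k n m‖ :=
          (norm_add_le _ _).trans (add_le_add_right (norm_sum_le _ _) _)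
      _ ≤ Y + ∑ m ∈ (S.erase n₀).erase n, b * ‖x n‖ * ε₀ := by
          refine add_le_add (hY n hn) (Finset.sum_le_sum fun m hm => ?_)
          obtain ⟨hmn, hm'⟩ := Finset.mem_erase.1 hm
          obtain ⟨-, hmS⟩ := Finset.mem_erase.1 hm'
          rw [norm_mul, norm_mul, ← norm_neg ((c : ℂ) - q μ k m), neg_sub]
          have h4 := hb m hmS
          have h5 := hmax m hm'
          have h6 := hoff n hnS m hmS (Ne.symm hmn)
          gcongr
      _ = Y + ((S.erase n₀).erase n).card * (b * ‖x n‖ * ε₀) := by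
          rw [Finset.sum_const, nsmul_eq_mul]
      _ ≤ Y + S.card * (b * ‖x n‖ * ε₀) := by
          have h7 : 0 ≤ b * ‖x n‖ * ε₀ := by positivity
          have h8 : (((S.erase n₀).erase n).card : ℝ) ≤ S.card := by
            exact_mod_cast Finset.card_le_card
              ((Finset.erase_subset _ _).trans (Finset.erase_subset _ _))
          gcongr
      _ = Y + S.card * (b * ε₀) * ‖x n‖ := by ring
      _ ≤ Y + η / 2 * ‖x n‖ := by
          have h9 : S.card * (b * ε₀) ≤ η / 2 := by linarith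
          gcongr
  have h10 : ‖x n‖ ≤ 2 / η * Y := by
    rw [div_mul_eq_mul_div, le_div_iff₀ hη0]
    linarith
  intro m hm
  exact (hmax m hm).trans h10

/-- the finite system on `S \\ {n₀}` is solvable -/
lemma blk_solve [DecidableEq (Zd d)] (hη0 : 0 < η) (hε0 : 0 ≤ ε₀) (hb1 : 1 ≤ b)
    (hb : ∀ n ∈ S, ‖q μ k n - c‖ ≤ b)
    (hη : ∀ n ∈ S, n ≠ n₀ → η ≤ ‖1 + (q μ k n - c) * gS w c μ S k n n‖)
    (hoff : ∀ n ∈ S, ∀ m ∈ S, n ≠ m → ‖gS w c μ S k n m‖ ≤ ε₀)
    (hsmall : 2 * S.card * (b * ε₀) ≤ η) (y : Zd d → ℂ) :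
    ∃ x : Zd d → ℂ, ∀ n ∈ S.erase n₀, x n = y n +
      ∑ m ∈ S.erase n₀, (((c : ℂ) - q μ k m) * x m) * gS w c μ S k n m := by
  classical
  set E : (S.erase n₀ → ℂ) →ₗ[ℂ] (Zd d → ℂ) :=
    { toFun := fun x m => if h : m ∈ S.erase n₀ then x ⟨m, h⟩ else 0
      map_add' := fun x y => by
        funext m
        by_cases h : m ∈ S.erase n₀ <;> simp only [h, dite_true, dite_false, Pi.add_apply, add_zero]
      map_smul' := fun a x => by
        funext m
        by_cases h : m ∈ S.erase n₀ <;>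
          simp only [h, dite_true, dite_false, Pi.smul_apply, smul_zero, RingHom.id_apply] } with hE
  have hEm : ∀ (x : S.erase n₀ → ℂ) (n : S.erase n₀), E x n = x n := by
    intro x n
    simp only [hE, LinearMap.coe_mk, AddHom.coe_mk, n.2, dite_true]
  set T : (S.erase n₀ → ℂ) →ₗ[ℂ] (S.erase n₀ → ℂ) :=
    { toFun := fun x n => x n -
        ∑ m ∈ S.erase n₀, (((c : ℂ) - q μ k m) * E x m) * gS w c μ S k n m
      map_add' := fun x y => by
        funext n
        simp only [Pi.add_apply, map_add, mul_add, add_mul, Finset.sum_add_distrib]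
        ring
      map_smul' := fun a x => by
        funext n
        simp only [Pi.smul_apply, map_smul, smul_eq_mul, RingHom.id_apply, mul_sub, Finset.mul_sum]
        congr 1
        refine Finset.sum_congr rfl fun m _ => ?_
        ring } with hT
  have hinj : Function.Injective T := by
    rw [← LinearMap.ker_eq_bot, LinearMap.ker_eq_bot']
    intro x hx
    have h1 := blk_dom hη0 hε0 hb1 hb hη hoff hsmall (E x) 0 (fun n hn => by
      have h2 := congrFun hx ⟨n, hn⟩
      simp only [hT, LinearMap.coe_mk, AddHom.coe_mk, Pi.zero_apply] at h2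
      rw [hEm x ⟨n, hn⟩, Pi.zero_apply, zero_add]
      exact sub_eq_zero.1 h2) (Y := 0) (fun n _ => by simp)
    funext n
    have h3 := h1 n n.2
    rw [mul_zero, hEm] at h3
    exact norm_le_zero_iff.1 h3
  have hsurj : Function.Surjective T := LinearMap.injective_iff_surjective.1 hinj
  obtain ⟨x, hx⟩ := hsurj fun n => y n
  refine ⟨E x, fun n hn => ?_⟩
  have h2 := congrFun hx ⟨n, hn⟩
  simp only [hT, LinearMap.coe_mk, AddHom.coe_mk] at h2
  rw [hEm x ⟨n, hn⟩]
  linear_combination h2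

end onesite

/-- reduction to the site `n₀` -/
theorem onesite (S : Finset (Zd d)) (k : Cd d) (h : Adm w c (DS c μ S k)) {n₀ : Zd d}
    (hn₀ : n₀ ∈ S) {η ε₀ b : ℝ} (hη0 : 0 < η) (hε0 : 0 ≤ ε₀) (hb1 : 1 ≤ b)
    (hb : ∀ n ∈ S, ‖q μ k n - c‖ ≤ b)
    (hη : ∀ n ∈ S, n ≠ n₀ → η ≤ ‖1 + (q μ k n - c) * gS w c μ S k n n‖)
    (hoff : ∀ n ∈ S, ∀ m ∈ S, n ≠ m → ‖gS w c μ S k n m‖ ≤ ε₀)
    (hsmall : 2 * S.card * (b * ε₀) ≤ η) :
    (∃ C, Inv w (DS c μ {n₀} k) C) ∧
    (k ∈ FS μ w ↔ 1 + (q μ k n₀ - c) * gS w c μ {n₀} k n₀ n₀ = 0) ∧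
    ‖gS w c μ {n₀} k n₀ n₀ - gS w c μ S k n₀ n₀‖ ≤ 2 * S.card * b * ε₀ ^ 2 / η := by
  classical
  have hc0 : 0 < c := by
    have h1 : 0 ≤ ∑' n, ‖w n‖ := tsum_nonneg fun _ => norm_nonneg _
    have h2 := h.hc
    linarith
  have hch : ∀ n, n ∉ S.erase n₀ → DS c μ {n₀} k n = DS c μ S k n := by
    intro n hn
    unfold DS
    by_cases hnn : n = n₀
    · simp [hnn, hn₀]
    · have hnS : n ∉ S := fun h' => hn (Finset.mem_erase.2 ⟨hnn, h'⟩)
      simp [hnn, hnS]
  have hdiff : ∀ m ∈ S.erase n₀, DS c μ S k m - DS c μ {n₀} k m = c - q μ k m := by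
    intro m hm
    obtain ⟨hmn, hmS⟩ := Finset.mem_erase.1 hm
    simp [DS, hmn, hmS]
  have hsumeq : ∀ x : Zd d → ℂ,
      (∑ m ∈ S.erase n₀, ((DS c μ S k m - DS c μ {n₀} k m) * x m) • dlt m : H2 d) =
      ∑ m ∈ S.erase n₀, (((c : ℂ) - q μ k m) * x m) • dlt m := by
    intro x
    refine Finset.sum_congr rfl fun m hm => ?_
    rw [hdiff m hm]
  -- entries of a solution
  have hent : ∀ f u : H2 d, Sol w (DS c μ {n₀} k) f u → ∀ n, u n = (grn w (DS c μ S k) f) n +
      ∑ m ∈ S.erase n₀, (((c : ℂ) - q μ k m) * u m) * gS w c μ S k n m := by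
    intro f u hu n
    have h1 := (blk_sol_change (D' := DS c μ S k) (S.erase n₀) hch f u).1 hu
    rw [hsumeq] at h1
    exact blk_apply h (S.erase n₀) (fun m => ((c : ℂ) - q μ k m) * u m) h1 n
  have hbound : ∀ f u : H2 d, Sol w (DS c μ {n₀} k) f u → ∀ n ∈ S.erase n₀,
      ‖u n‖ ≤ 2 / η * (2 / c * ‖f‖) := by
    intro f u hu
    refine blk_dom hη0 hε0 hb1 hb hη hoff hsmall u (grn w (DS c μ S k) f)
      (fun n _ => hent f u hu n) (fun n _ => ?_)
    exact (lp.norm_apply_le_norm (by norm_num) _ n).trans (h.norm_grn f)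
  have hinv : Inv w (DS c μ {n₀} k) (2 / c * (1 + S.card * (b * (2 / η * (2 / c))))) := by
    refine ⟨by positivity, fun f => ?_, fun f u hu => ?_⟩
    · obtain ⟨x, hx⟩ := blk_solve hη0 hε0 hb1 hb hη hoff hsmall (grn w (DS c μ S k) f)
      set g : H2 d := f + ∑ m ∈ S.erase n₀, (((c : ℂ) - q μ k m) * x m) • dlt m with hg
      refine ⟨grn w (DS c μ S k) g, ?_⟩
      have h1 : Sol w (DS c μ S k) g (grn w (DS c μ S k) g) := h.grn_spec g
      have h2 : ∀ n ∈ S.erase n₀, (grn w (DS c μ S k) g) n = x n := by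
        intro n hn
        have h3 := blk_apply h (S.erase n₀) (fun m => ((c : ℂ) - q μ k m) * x m)
          (f := f) (u := grn w (DS c μ S k) g) h1 n
        rw [h3, hx n hn]
      rw [blk_sol_change (D' := DS c μ S k) (S.erase n₀) hch, hsumeq]
      have h4 : (∑ m ∈ S.erase n₀, (((c : ℂ) - q μ k m) * (grn w (DS c μ S k) g) m) • dlt m
          : H2 d) = ∑ m ∈ S.erase n₀, (((c : ℂ) - q μ k m) * x m) • dlt m :=
        Finset.sum_congr rfl fun m hm => by rw [h2 m hm]
      rw [h4]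
      exact h1
    · have h1 := (blk_sol_change (D' := DS c μ S k) (S.erase n₀) hch f u).1 hu
      rw [hsumeq] at h1
      have h2 := h.bound h1
      have h3 : ‖(∑ m ∈ S.erase n₀, (((c : ℂ) - q μ k m) * u m) • dlt m : H2 d)‖ ≤
          S.card * (b * (2 / η * (2 / c * ‖f‖))) := by
        calc ‖(∑ m ∈ S.erase n₀, (((c : ℂ) - q μ k m) * u m) • dlt m : H2 d)‖ ≤
            ∑ m ∈ S.erase n₀, ‖((((c : ℂ) - q μ k m) * u m) • dlt m : H2 d)‖ := norm_sum_le _ _
          _ ≤ ∑ m ∈ S.erase n₀, b * (2 / η * (2 / c * ‖f‖)) := by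
            refine Finset.sum_le_sum fun m hm => ?_
            have h4 : ‖(dlt m : H2 d)‖ = 1 := by
              unfold dlt
              rw [lp.norm_single (by norm_num), norm_one]
            rw [norm_smul, h4, mul_one, norm_mul, ← norm_neg ((c : ℂ) - q μ k m), neg_sub]
            have h5 := hb m (Finset.mem_erase.1 hm).2
            have h6 := hbound f u hu m hm
            gcongr
          _ = (S.erase n₀).card * (b * (2 / η * (2 / c * ‖f‖))) := by
            rw [Finset.sum_const, nsmul_eq_mul]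
          _ ≤ S.card * (b * (2 / η * (2 / c * ‖f‖))) := by
            have h8 : ((S.erase n₀).card : ℝ) ≤ S.card := by
              exact_mod_cast Finset.card_le_card (Finset.erase_subset _ _)
            have h9 : 0 ≤ b * (2 / η * (2 / c * ‖f‖)) := by positivity
            gcongr
      calc ‖u‖ ≤ 2 / c * ‖f + ∑ m ∈ S.erase n₀, (((c : ℂ) - q μ k m) * u m) • dlt m‖ := h2
        _ ≤ 2 / c * (‖f‖ + S.card * (b * (2 / η * (2 / c * ‖f‖)))) := by
          have h5 : 0 ≤ 2 / c := by positivity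
          exact mul_le_mul_of_nonneg_left
            ((norm_add_le _ _).trans (add_le_add_right h3 _)) h5
        _ = 2 / c * (1 + S.card * (b * (2 / η * (2 / c)))) * ‖f‖ := by ring
  refine ⟨⟨_, hinv⟩, ?_, ?_⟩
  · set g := grn w (DS c μ {n₀} k) (dlt n₀) with hg
    have hgsol : Sol w (DS c μ {n₀} k) (dlt n₀) g := hinv.grn_spec _
    have hgn : gS w c μ {n₀} k n₀ n₀ = g n₀ := rfl
    rw [hgn]
    constructor
    · rintro ⟨u, hu0, hu⟩
      have h1 := blk_fs (c := c) (S := {n₀}) hu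
      rw [Finset.sum_singleton, zero_add] at h1
      have h2 : DS c μ {n₀} k n₀ = c := by simp [DS]
      rw [h2] at h1
      have h3 : u = (((c : ℂ) - q μ k n₀) * u n₀) • g :=
        hinv.unique h.hw h1 (hgsol.smul _)
      have h4 : u n₀ = (((c : ℂ) - q μ k n₀) * u n₀) * g n₀ := by
        conv_lhs => rw [h3]
        rfl
      have h5 : u n₀ ≠ 0 := by
        intro h6
        rw [h6, mul_zero, zero_smul] at h3
        exact hu0 h3
      have h6 : u n₀ * (1 + (q μ k n₀ - c) * g n₀) = 0 := by linear_combination h4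
      exact (mul_eq_zero.1 h6).resolve_left h5
    · intro h1
      refine ⟨g, ?_, fun n => ?_⟩
      · intro h2
        rw [h2, lp.coeFn_zero, Pi.zero_apply, mul_zero, add_zero] at h1
        exact one_ne_zero h1
      · have h2 := hgsol n
        rw [blk_dlt_apply] at h2
        by_cases hn : n = n₀
        · subst hn
          simp only [DS, Finset.mem_singleton, if_true] at h2
          linear_combination h2 + h1
        · simp only [DS, Finset.mem_singleton, hn, if_false] at h2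
          exact h2
  · set g := grn w (DS c μ {n₀} k) (dlt n₀) with hg
    have hgsol : Sol w (DS c μ {n₀} k) (dlt n₀) g := hinv.grn_spec _
    have h1 := hent _ _ hgsol
    have h2 : ∀ n ∈ S.erase n₀, ‖g n‖ ≤ 2 / η * ε₀ := by
      refine blk_dom hη0 hε0 hb1 hb hη hoff hsmall g (grn w (DS c μ S k) (dlt n₀))
        (fun n _ => h1 n) (fun n hn => ?_)
      exact hoff n (Finset.mem_erase.1 hn).2 n₀ hn₀ (Finset.mem_erase.1 hn).1
    have h3 : gS w c μ {n₀} k n₀ n₀ - gS w c μ S k n₀ n₀ =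
        ∑ m ∈ S.erase n₀, (((c : ℂ) - q μ k m) * g m) * gS w c μ S k n₀ m := by
      have h4 := h1 n₀
      have h5 : gS w c μ {n₀} k n₀ n₀ = g n₀ := rfl
      have h6 : gS w c μ S k n₀ n₀ = (grn w (DS c μ S k) (dlt n₀)) n₀ := rfl
      rw [h5, h6, h4]
      ring
    rw [h3]
    calc ‖∑ m ∈ S.erase n₀, (((c : ℂ) - q μ k m) * g m) * gS w c μ S k n₀ m‖ ≤
        ∑ m ∈ S.erase n₀, ‖(((c : ℂ) - q μ k m) * g m) * gS w c μ S k n₀ m‖ := norm_sum_le _ _
      _ ≤ ∑ m ∈ S.erase n₀, b * (2 / η * ε₀) * ε₀ := by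
        refine Finset.sum_le_sum fun m hm => ?_
        obtain ⟨hmn, hmS⟩ := Finset.mem_erase.1 hm
        rw [norm_mul, norm_mul, ← norm_neg ((c : ℂ) - q μ k m), neg_sub]
        have h4 := hb m hmS
        have h5 := h2 m hm
        have h6 := hoff n₀ hn₀ m hmS (Ne.symm hmn)
        gcongr
      _ = (S.erase n₀).card * (b * (2 / η * ε₀) * ε₀) := by rw [Finset.sum_const, nsmul_eq_mul]
      _ ≤ S.card * (b * (2 / η * ε₀) * ε₀) := by
        have h8 : ((S.erase n₀).card : ℝ) ≤ S.card := by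
          exact_mod_cast Finset.card_le_card (Finset.erase_subset _ _)
        have h9 : 0 ≤ b * (2 / η * ε₀) * ε₀ := by positivity
        gcongr
      _ = 2 * S.card * b * ε₀ ^ 2 / η := by ring

end Fermi
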