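import Pool.Agent.Lib.Fermi.OpBasic

/-!
# Chunk D4: decoupling of far sites
-/

open scoped BigOperators Topology
open Set Filter

noncomputable section

namespace Fermi

variable {d : ℕ} {w : Zd d → ℂ} {c : ℝ} {D D' : Zd d → ℂ} {L ρ J : ℕ} {ε : ℝ}

/-- near part of the potential -/
private def wn (w : Zd d → ℂ) (ρ : ℕ) : Zd d → ℂ := fun n => if (ρ : ℝ) < ‖n‖ then 0 else w n

/-- far part of the potential -/
private def wf (w : Zd d → ℂ) (ρ : ℕ) : Zd d → ℂ := fun n => if (ρ : ℝ) < ‖n‖ then w n else 0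

private lemma wn_le (w : Zd d → ℂ) (ρ : ℕ) (n : Zd d) : ‖wn w ρ n‖ ≤ ‖w n‖ := by
  unfold wn
  split_ifs
  · simp
  · exact le_rfl

private lemma wf_le (w : Zd d → ℂ) (ρ : ℕ) (n : Zd d) : ‖wf w ρ n‖ ≤ ‖w n‖ := by
  unfold wf
  split_ifs
  · exact le_rfl
  · simp

private lemma wn_add_wf (w : Zd d → ℂ) (ρ : ℕ) (n : Zd d) : wn w ρ n + wf w ρ n = w n := by
  unfold wn wf
  split_ifs <;> simp

private lemma hwn (hw : Summable fun n => ‖w n‖) (ρ : ℕ) : Summable fun n => ‖wn w ρ n‖ :=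
  Summable.of_nonneg_of_le (fun _ => norm_nonneg _) (wn_le w ρ) hw

private lemma hwf (hw : Summable fun n => ‖w n‖) (ρ : ℕ) : Summable fun n => ‖wf w ρ n‖ :=
  Summable.of_nonneg_of_le (fun _ => norm_nonneg _) (wf_le w ρ) hw

private lemma adm_near (h : Adm w c D) (ρ : ℕ) : Adm (wn w ρ) c D := by
  refine ⟨hwn h.hw ρ, ?_, h.hD⟩
  have h1 : ∑' n, ‖wn w ρ n‖ ≤ ∑' n, ‖w n‖ := (hwn h.hw ρ).tsum_le_tsum (wn_le w ρ) h.hw
  linarith [h.hc]

private lemma sum_far (hε2 : ∑' n, (if (ρ : ℝ) < ‖n‖ then ‖w n‖ else 0) ≤ ε) :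
    ∑' n, ‖wf w ρ n‖ ≤ ε := by
  refine le_trans (le_of_eq ?_) hε2
  congr 1
  funext n
  unfold wf
  split_ifs <;> simp

private lemma c_ge (h : Adm w c D) : 8 ≤ c := by
  have h1 : 0 ≤ ∑' n, ‖w n‖ := tsum_nonneg fun _ => norm_nonneg _
  linarith [h.hc]

private lemma norm_dlt (n : Zd d) : ‖(dlt n : H2 d)‖ = 1 := by
  unfold dlt
  rw [lp.norm_single (by norm_num)]
  simp

private lemma dlt_apply_ne {n m : Zd d} (h : m ≠ n) : (dlt n : H2 d) m = 0 := by
  unfold dlt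
  rw [lp.single_apply_ne]
  exact h

private lemma inv_bdd (h : Adm w c D) (n : Zd d) : ‖(D n)⁻¹‖ ≤ 1 / c := by
  have h8 := c_ge h
  rw [norm_inv, ← one_div]
  exact one_div_le_one_div_of_le (by linarith) (h.hD n)

private lemma D_ne (h : Adm w c D) (n : Zd d) : D n ≠ 0 := by
  have h8 := c_ge h
  have h1 := h.hD n
  intro h0
  rw [h0, norm_zero] at h1
  linarith

/-- truncation of the potential -/
private lemma near_cmp (h : Adm w c D) (n₀ : Zd d)
    (hε2 : ∑' n, (if (ρ : ℝ) < ‖n‖ then ‖w n‖ else 0) ≤ ε) :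
    ‖grn w D (dlt n₀) - grn (wn w ρ) D (dlt n₀)‖ ≤ ε / 16 := by
  have h8 := c_ge h
  have hn := adm_near h ρ
  set u := grn w D (dlt n₀) with hu
  set v := grn (wn w ρ) D (dlt n₀) with hv
  have hsu : Sol w D (dlt n₀) u := h.grn_spec _
  have hsv : Sol (wn w ρ) D (dlt n₀) v := hn.grn_spec _
  have hsu' : Sol (wn w ρ) D (dlt n₀ - Wop (wf w ρ) (hwf h.hw ρ) u) u := by
    intro n
    have h1 := hsu n
    have h2 : ∑' m, w (n - m) * u m = ∑' m, wn w ρ (n - m) * u m +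
        ∑' m, wf w ρ (n - m) * u m := by
      rw [← (summable_conv (hwn h.hw ρ) u n).tsum_add (summable_conv (hwf h.hw ρ) u n)]
      congr 1
      funext m
      rw [← add_mul, wn_add_wf]
    have h3 : (dlt n₀ - Wop (wf w ρ) (hwf h.hw ρ) u : H2 d) n =
        (dlt n₀ : H2 d) n - Wop (wf w ρ) (hwf h.hw ρ) u n := rfl
    rw [h3, Wop_apply]
    rw [h2] at h1
    linear_combination h1
  have hdiff : Sol (wn w ρ) D (-(Wop (wf w ρ) (hwf h.hw ρ) u)) (u - v) := by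
    have h1 := Sol.add (hwn h.hw ρ) hsu' (Sol.smul (-1) hsv)
    have e1 : u + (-1 : ℂ) • v = u - v := by rw [neg_one_smul, ← sub_eq_add_neg]
    have e2 : dlt n₀ - Wop (wf w ρ) (hwf h.hw ρ) u + (-1 : ℂ) • dlt n₀ =
        -(Wop (wf w ρ) (hwf h.hw ρ) u) := by
      rw [neg_one_smul]
      abel
    rw [e1, e2] at h1
    exact h1
  have hb := hn.bound hdiff
  have hub := h.bound hsu
  rw [norm_dlt, mul_one] at hub
  have hW : ‖Wop (wf w ρ) (hwf h.hw ρ) u‖ ≤ ε * (2 / c) := by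
    have hε0 : 0 ≤ ε := le_trans (tsum_nonneg fun _ => norm_nonneg _) (sum_far hε2)
    refine (ContinuousLinearMap.le_opNorm _ _).trans ?_
    exact mul_le_mul ((norm_Wop_le _).trans (sum_far hε2)) hub (norm_nonneg _) hε0
  rw [norm_neg] at hb
  have hε0 : 0 ≤ ε := le_trans (tsum_nonneg fun _ => norm_nonneg _) (sum_far hε2)
  have h2c : 2 / c ≤ 1 / 4 := by
    rw [div_le_iff₀ (by linarith)]
    linarith
  have h2c0 : 0 ≤ 2 / c := by positivity
  calc ‖u - v‖ ≤ 2 / c * ‖Wop (wf w ρ) (hwf h.hw ρ) u‖ := hb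
    _ ≤ 1 / 4 * (ε * (1 / 4)) := by
        apply mul_le_mul h2c _ (norm_nonneg _) (by norm_num)
        exact hW.trans (mul_le_mul_of_nonneg_left h2c hε0)
    _ = ε / 16 := by ring

/-- Picard iterates -/
private def itr (h : Adm w c D) (n₀ : Zd d) : ℕ → H2 d
  | 0 => 0
  | j + 1 => Dg (fun n => (D n)⁻¹) ⟨1 / c, inv_bdd h⟩ (dlt n₀ - Wop w h.hw (itr h n₀ j))

private lemma itr_apply (h : Adm w c D) (n₀ : Zd d) (j : ℕ) (n : Zd d) :
    itr h n₀ (j + 1) n = (D n)⁻¹ * ((dlt n₀ : H2 d) n - ∑' m, w (n - m) * itr h n₀ j m) := by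
  rw [itr, Dg_apply]
  have h3 : (dlt n₀ - Wop w h.hw (itr h n₀ j) : H2 d) n =
      (dlt n₀ : H2 d) n - Wop w h.hw (itr h n₀ j) n := rfl
  rw [h3, Wop_apply]

/-- convergence of the iterates -/
private lemma itr_close (h : Adm w c D) (n₀ : Zd d) (j : ℕ) :
    ‖grn w D (dlt n₀) - itr h n₀ j‖ ≤ 1 / 4 * (1 / 4) ^ j := by
  have h8 := c_ge h
  have hsv : Sol w D (dlt n₀) (grn w D (dlt n₀)) := h.grn_spec _
  set v := grn w D (dlt n₀) with hv
  induction j with
  | zero =>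
    rw [itr, sub_zero, pow_zero, mul_one]
    have hub := h.bound hsv
    rw [norm_dlt, mul_one] at hub
    refine hub.trans ?_
    rw [div_le_iff₀ (by linarith)]
    linarith
  | succ j ih =>
    have hfix : v = Dg (fun n => (D n)⁻¹) ⟨1 / c, inv_bdd h⟩ (dlt n₀ - Wop w h.hw v) := by
      ext n
      rw [Dg_apply]
      have h3 : (dlt n₀ - Wop w h.hw v : H2 d) n = (dlt n₀ : H2 d) n - Wop w h.hw v n := rfl
      rw [h3, Wop_apply]
      have h4 := hsv n
      have h5 := D_ne h n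
      rw [← h4]
      field_simp
      ring
    have h1 : v - itr h n₀ (j + 1) =
        -(Dg (fun n => (D n)⁻¹) ⟨1 / c, inv_bdd h⟩ (Wop w h.hw (v - itr h n₀ j))) := by
      rw [itr]
      conv_lhs => rw [hfix]
      rw [← map_sub, ← map_neg]
      congr 1
      rw [map_sub]
      abel
    rw [h1, norm_neg]
    have h2 : ‖Dg (fun n => (D n)⁻¹) ⟨1 / c, inv_bdd h⟩‖ ≤ 1 / c :=
      norm_Dg_le _ _ (by positivity) (inv_bdd h)
    have h3 : ‖Wop w h.hw‖ ≤ ∑' n, ‖w n‖ := norm_Wop_le _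
    have h4 : 0 ≤ ∑' n, ‖w n‖ := tsum_nonneg fun _ => norm_nonneg _
    calc ‖Dg (fun n => (D n)⁻¹) ⟨1 / c, inv_bdd h⟩ (Wop w h.hw (v - itr h n₀ j))‖
        ≤ 1 / c * ((∑' n, ‖w n‖) * ‖v - itr h n₀ j‖) := by
          refine (ContinuousLinearMap.le_opNorm _ _).trans ?_
          refine mul_le_mul h2 ?_ (norm_nonneg _) (by positivity)
          refine (ContinuousLinearMap.le_opNorm _ _).trans ?_
          exact mul_le_mul_of_nonneg_right h3 (norm_nonneg _)
      _ = (1 / c * ∑' n, ‖w n‖) * ‖v - itr h n₀ j‖ := by ring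
      _ ≤ 1 / 4 * (1 / 4 * (1 / 4) ^ j) := by
          apply mul_le_mul _ ih (norm_nonneg _) (by norm_num)
          rw [one_div, inv_mul_le_iff₀ (by linarith)]
          linarith [h.hc]
      _ = 1 / 4 * (1 / 4) ^ (j + 1) := by ring

/-- support of the iterates -/
private lemma itr_supp (h : Adm w c D) (hr : ∀ n, (ρ : ℝ) < ‖n‖ → w n = 0) (n₀ : Zd d) (j : ℕ)
    (n : Zd d) (hn : (j : ℝ) * ρ < ‖n - n₀‖) : itr h n₀ (j + 1) n = 0 := by
  induction j generalizing n with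
  | zero =>
    rw [itr_apply]
    have h1 : n ≠ n₀ := by
      intro he
      rw [he, sub_self, norm_zero] at hn
      simp at hn
    rw [dlt_apply_ne h1]
    simp only [itr]
    simp
  | succ j ih =>
    rw [itr_apply]
    have h0 : (0 : ℝ) ≤ ((j + 1 : ℕ) : ℝ) * ρ := by positivity
    have h1 : n ≠ n₀ := by
      intro he
      rw [he, sub_self, norm_zero] at hn
      linarith
    rw [dlt_apply_ne h1]
    have h2 : ∀ m, w (n - m) * itr h n₀ (j + 1) m = 0 := by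
      intro m
      by_cases hm : (ρ : ℝ) < ‖n - m‖
      · rw [hr _ hm, zero_mul]
      · rw [ih m, mul_zero]
        have h3 : ‖n - n₀‖ ≤ ‖n - m‖ + ‖m - n₀‖ := by
          have : n - n₀ = (n - m) + (m - n₀) := by abel
          rw [this]
          exact norm_add_le _ _
        push_cast at hn
        nlinarith [not_lt.1 hm]
    simp only [h2]
    simp

/-- the iterates only see the symbol near `n₀` -/
private lemma itr_eq (h : Adm w c D) (h' : Adm w c D') (hr : ∀ n, (ρ : ℝ) < ‖n‖ → w n = 0)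
    (n₀ : Zd d) (hag : ∀ m, ‖m - n₀‖ ≤ L → D m = D' m) (j : ℕ) (hj : j * ρ ≤ L) :
    itr h n₀ j = itr h' n₀ j := by
  induction j with
  | zero => rfl
  | succ j ih =>
    have hj' : j * ρ ≤ L := le_trans (Nat.mul_le_mul_right _ (Nat.le_succ j)) hj
    have hjr : ((j : ℝ)) * ρ ≤ L := by exact_mod_cast hj'
    ext n
    by_cases hn : (j : ℝ) * ρ < ‖n - n₀‖
    · rw [itr_supp h hr n₀ j n hn, itr_supp h' hr n₀ j n hn]
    · rw [itr_apply, itr_apply, ih hj', hag n ((not_lt.1 hn).trans hjr)]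

private lemma pow_quarter_le (hε1 : (1 / 2 : ℝ) ^ J ≤ ε) : (1 / 4 : ℝ) ^ J ≤ ε :=
  (pow_le_pow_left₀ (by norm_num) (by norm_num) J).trans hε1

/-- two symbols which agree on the ball of radius `L` around `n₀` -/
theorem col_cmp (h : Adm w c D) (h' : Adm w c D') (n₀ : Zd d)
    (hag : ∀ m, ‖m - n₀‖ ≤ L → D m = D' m) (hJ : J * ρ ≤ L) (hε1 : (1 / 2 : ℝ) ^ J ≤ ε)
    (hε2 : ∑' n, (if (ρ : ℝ) < ‖n‖ then ‖w n‖ else 0) ≤ ε) :
    ‖grn w D (dlt n₀) - grn w D' (dlt n₀)‖ ≤ 4 * ε := by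
  have hn := adm_near h ρ
  have hn' := adm_near h' ρ
  have hr : ∀ n, (ρ : ℝ) < ‖n‖ → wn w ρ n = 0 := by
    intro n hn
    unfold wn
    rw [if_pos hn]
  have h1 := near_cmp h n₀ hε2
  have h2 := near_cmp h' n₀ hε2
  have h3 := itr_close hn n₀ J
  have h4 := itr_close hn' n₀ J
  rw [← itr_eq hn hn' hr n₀ hag J hJ] at h4
  have h5 := pow_quarter_le hε1
  have hε0 : 0 ≤ ε := le_trans (by positivity) h5
  set u := grn w D (dlt n₀)
  set u' := grn w D' (dlt n₀)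
  set v := grn (wn w ρ) D (dlt n₀)
  set v' := grn (wn w ρ) D' (dlt n₀)
  set x := itr hn n₀ J
  have e : u - u' = (u - v) + (v - x) - (v' - x) - (u' - v') := by abel
  rw [e]
  have t1 := norm_sub_le ((u - v) + (v - x) - (v' - x)) (u' - v')
  have t2 := norm_sub_le ((u - v) + (v - x)) (v' - x)
  have t3 := norm_add_le (u - v) (v - x)
  linarith

/-- decay -/
theorem col_far (h : Adm w c D) (n₀ m : Zd d) (hm : (L : ℝ) < ‖m - n₀‖) (hJ : J * ρ ≤ L)
    (hε1 : (1 / 2 : ℝ) ^ J ≤ ε)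
    (hε2 : ∑' n, (if (ρ : ℝ) < ‖n‖ then ‖w n‖ else 0) ≤ ε) :
    ‖(grn w D (dlt n₀)) m‖ ≤ 4 * ε := by
  have hn := adm_near h ρ
  have hr : ∀ n, (ρ : ℝ) < ‖n‖ → wn w ρ n = 0 := by
    intro n hn
    unfold wn
    rw [if_pos hn]
  have h1 := near_cmp h n₀ hε2
  have h3 := itr_close hn n₀ J
  have h5 := pow_quarter_le hε1
  have hε0 : 0 ≤ ε := le_trans (by positivity) h5
  have hx : itr hn n₀ J m = 0 := by
    cases J with
    | zero => simp only [itr]; rfl
    | succ j =>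
      apply itr_supp hn hr
      have hj' : j * ρ ≤ L := le_trans (Nat.mul_le_mul_right _ (Nat.le_succ j)) hJ
      have hjr : ((j : ℝ)) * ρ ≤ L := by exact_mod_cast hj'
      linarith
  set u := grn w D (dlt n₀)
  set v := grn (wn w ρ) D (dlt n₀)
  set x := itr hn n₀ J
  have e : u m = (u - x) m := by
    have : (u - x) m = u m - x m := rfl
    rw [this, hx, sub_zero]
  rw [e]
  refine (lp.norm_apply_le_norm (by norm_num) (u - x) m).trans ?_
  have e2 : u - x = (u - v) + (v - x) := by abel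
  rw [e2]
  have t3 := norm_add_le (u - v) (v - x)
  linarith

end Fermi
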