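import Pool.Agent.Lib.Fermi.OpAn
import Pool.Agent.Lib.Fermi.OpProp

/-!
# Chunk D5: the self energy `Hh` and the effective sheet function near clean sites
-/

open scoped BigOperators Topology
open Set Filter

noncomputable section

namespace Fermi

/-! ### Cauchy estimates on lines -/

theorem cauchy1 {E : Type*} [NormedAddCommGroup E] [NormedSpace ℂ E] {F : E → ℂ} {x0 : E} {R B : ℝ}
    (hR : 0 < R) (hF : AnalyticOnNhd ℂ F (Metric.ball x0 R))
    (hB : ∀ x ∈ Metric.ball x0 R, ‖F x‖ ≤ B) {p : E} (hp : dist p x0 ≤ R / 2) :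
    ‖fderiv ℂ F p‖ ≤ 4 * B / R := by
  have hpm : p ∈ Metric.ball x0 R := by rw [Metric.mem_ball]; linarith
  have hB0 : 0 ≤ B := le_trans (norm_nonneg _) (hB p hpm)
  refine ContinuousLinearMap.opNorm_le_bound _ (by positivity) (fun v => ?_)
  by_cases hv : v = 0
  · subst hv; simp
  have hv0 : 0 < ‖v‖ := norm_pos_iff.2 hv
  set ρ : ℝ := R / (4 * ‖v‖) with hρ
  have hρ0 : 0 < ρ := by positivity
  have hin : ∀ τ : ℂ, ‖τ‖ ≤ ρ → p + τ • v ∈ Metric.ball x0 R := by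
    intro τ hτ
    rw [Metric.mem_ball, dist_eq_norm]
    have h1 : p + τ • v - x0 = (p - x0) + τ • v := by abel
    rw [h1]
    have h2 : ‖τ • v‖ ≤ R / 4 := by
      rw [norm_smul]
      calc ‖τ‖ * ‖v‖ ≤ ρ * ‖v‖ := by gcongr
        _ = R / 4 := by rw [hρ]; field_simp
    have h3 := norm_add_le (p - x0) (τ • v)
    rw [dist_eq_norm] at hp
    linarith
  set h : ℂ → ℂ := fun τ => F (p + τ • v) with hh
  have hd : ∀ τ : ℂ, ‖τ‖ ≤ ρ → HasDerivAt h (fderiv ℂ F (p + τ • v) v) τ := by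
    intro τ hτ
    have h1 : HasFDerivAt F (fderiv ℂ F (p + τ • v)) (p + τ • v) :=
      (hF _ (hin τ hτ)).differentiableAt.hasFDerivAt
    have h2 : HasDerivAt (fun τ : ℂ => p + τ • v) v τ := by
      have := ((hasDerivAt_id τ).smul_const v).const_add p
      simpa using this
    exact h1.comp_hasDerivAt τ h2
  have hd0 : deriv h 0 = fderiv ℂ F p v := by
    have := (hd 0 (by rw [norm_zero]; exact hρ0.le)).deriv
    rw [this]; simp
  rw [← hd0]
  have hdc : DiffContOnCl ℂ h (Metric.ball 0 ρ) := by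
    apply DifferentiableOn.diffContOnCl
    rw [closure_ball _ hρ0.ne']
    intro τ hτ
    rw [mem_closedBall_zero_iff] at hτ
    exact (hd τ hτ).differentiableAt.differentiableWithinAt
  have := Complex.norm_deriv_le_of_forall_mem_sphere_norm_le hρ0 hdc (C := B) (fun z hz => by
    rw [mem_sphere_zero_iff_norm] at hz
    exact hB _ (hin z hz.le))
  refine le_trans this (le_of_eq ?_)
  rw [hρ]; field_simp

/-- two points of a disc -/
theorem line_lip {h : ℂ → ℂ} {T B : ℝ} (hT : 2 ≤ T) (hF : AnalyticOnNhd ℂ h (Metric.ball 0 T))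
    (hB : ∀ x ∈ Metric.ball 0 T, ‖h x‖ ≤ B) : ‖h 1 - h 0‖ ≤ 4 * B / T := by
  have h1 := (convex_closedBall (0 : ℂ) (T / 2)).norm_image_sub_le_of_norm_fderiv_le (𝕜 := ℂ) (f := h)
    (C := 4 * B / T) (x := 0) (y := 1)
    (fun x hx => (hF x (by
      rw [Metric.mem_closedBall] at hx
      rw [Metric.mem_ball]; linarith)).differentiableAt)
    (fun x hx => cauchy1 (by linarith) hF hB (by
      rw [Metric.mem_closedBall] at hx
      exact hx)) (by simp; linarith) (by simp; linarith)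
  simpa using h1

/-- Lipschitz bound for the derivative. -/
theorem cauchy2 {E : Type*} [NormedAddCommGroup E] [NormedSpace ℂ E] {F : E → ℂ} {x0 : E}
    {R B : ℝ} (hR : 0 < R) (hF : AnalyticOnNhd ℂ F (Metric.ball x0 R))
    (hB : ∀ x ∈ Metric.ball x0 R, ‖F x‖ ≤ B) {p : E} (hp : dist p x0 ≤ R / 4) :
    ‖fderiv ℂ F p - fderiv ℂ F x0‖ ≤ 32 * B / R ^ 2 * ‖p - x0‖ := by
  have hB0 : 0 ≤ B := le_trans (norm_nonneg _) (hB x0 (Metric.mem_ball_self hR))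
  refine ContinuousLinearMap.opNorm_le_bound _ (by positivity) (fun v => ?_)
  rw [_root_.sub_apply]
  set g : E → ℂ := fun x => fderiv ℂ F x v with hg
  have hgan : AnalyticOnNhd ℂ g (Metric.ball x0 (R / 2)) := by
    intro x hx
    have h1 : AnalyticAt ℂ F x := hF x (by rw [Metric.mem_ball] at hx ⊢; linarith)
    have h2 : AnalyticAt ℂ (fderiv ℂ F) x := h1.fderiv
    exact ((ContinuousLinearMap.apply ℂ ℂ v).analyticAt _).comp h2
  have hgB : ∀ x ∈ Metric.ball x0 (R / 2), ‖g x‖ ≤ 4 * B / R * ‖v‖ := by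
    intro x hx
    rw [Metric.mem_ball] at hx
    exact le_trans ((fderiv ℂ F x).le_opNorm v)
      (mul_le_mul_of_nonneg_right (cauchy1 hR hF hB hx.le) (norm_nonneg v))
  have h1 := (convex_closedBall x0 (R / 4)).norm_image_sub_le_of_norm_fderiv_le (𝕜 := ℂ) (f := g)
    (C := 4 * (4 * B / R * ‖v‖) / (R / 2)) (x := x0) (y := p)
    (fun x hx => (hgan x (by
      rw [Metric.mem_closedBall] at hx
      rw [Metric.mem_ball]; linarith)).differentiableAt)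
    (fun x hx => cauchy1 (by positivity) hgan hgB (by
      rw [Metric.mem_closedBall] at hx
      linarith)) (by simp; linarith) (by rw [Metric.mem_closedBall]; exact hp)
  refine le_trans h1 (le_of_eq ?_)
  field_simp
  ring

variable {d : ℕ} {μ : ℂ} {w : Zd d → ℂ}

/-- the neighbours of the site are large, at level `g` -/
def Cl (P : Sc d μ w) (g : ℝ) (z : ℂ) (κ : Cd d) : Prop :=
  ∀ m : Zd d, m ≠ 0 → ‖m‖ ≤ P.L → g ≤ ‖z + 2 * bil κ (zc m) + bil (zc m) (zc m)‖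

/-! ### elementary facts on the scale -/

theorem Sc.om_nonneg (_P : Sc d μ w) : 0 ≤ ∑' n, ‖w n‖ := tsum_nonneg (fun _ => norm_nonneg _)

theorem Sc.c_ge (P : Sc d μ w) : 8 ≤ P.c := by
  have h1 := P.hc
  have h2 := P.om_nonneg
  linarith

theorem Sc.Λ_pos (P : Sc d μ w) : 0 < P.Λ := by
  have := P.hΛ
  linarith [show (0 : ℝ) < 10 ^ 7 by norm_num]

theorem Sc.Λ_ge (P : Sc d μ w) : 10000000 ≤ P.Λ := by
  have := P.hΛ
  norm_num at this
  exact this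

theorem Sc.G_pos (P : Sc d μ w) : 0 < P.G := pow_pos P.Λ_pos 5

theorem Sc.two_c_le (P : Sc d μ w) : 4 * P.c ≤ P.G := by
  have h1 := P.hcΛ
  have h2 := P.Λ_ge
  have h3 : P.Λ ^ 2 ≤ P.Λ ^ 5 := pow_le_pow_right₀ (by linarith) (by norm_num)
  unfold Sc.G
  nlinarith

theorem Cl.adm {P : Sc d μ w} {z : ℂ} {κ : Cd d} (h : Cl P (P.G / 2) z κ) :
    Adm w P.c (Dloc P.c P.L z κ) where
  hw := P.hw
  hc := P.hc
  hD := by
    intro n
    have hc := P.c_ge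
    have hcn : P.c ≤ ‖((P.c : ℝ) : ℂ)‖ := by
      rw [Complex.norm_real, Real.norm_of_nonneg (by linarith)]
    unfold Dloc
    split_ifs with h1 h2
    · exact hcn
    · have := h n h1 h2
      have h4 := P.two_c_le
      linarith
    · exact hcn

theorem dlt_self : (dlt (0 : Zd d)) 0 = 1 := by
  unfold dlt
  exact lp.single_apply_self 2 0 1

theorem dlt_ne {m : Zd d} (hm : m ≠ 0) : (dlt (0 : Zd d)) m = 0 := by
  unfold dlt
  exact lp.single_apply_ne 2 0 1 hm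

theorem norm_dlt (n : Zd d) : ‖dlt n‖ = 1 := by
  unfold dlt
  rw [lp.norm_single (by norm_num)]
  exact norm_one

/-- the equation at the site `0` and the elementary bounds -/
theorem gam_aux (P : Sc d μ w) {z : ℂ} {κ : Cd d} (h : Cl P (P.G / 2) z κ) :
    ‖grn w (Dloc P.c P.L z κ) (dlt 0)‖ ≤ 2 / P.c ∧
    (P.c : ℂ) * gam P z κ + ∑' m, w (0 - m) * (grn w (Dloc P.c P.L z κ) (dlt 0)) m = 1 := by
  have hadm := h.adm
  refine ⟨?_, ?_⟩
  · have := hadm.norm_grn (dlt 0)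
    rwa [norm_dlt, mul_one] at this
  · have h1 := hadm.grn_spec (dlt 0) 0
    rw [dlt_self] at h1
    have h2 : Dloc P.c P.L z κ 0 = (P.c : ℂ) := by
      unfold Dloc
      rw [if_pos rfl]
    rw [h2] at h1
    exact h1

theorem gam_bounds (P : Sc d μ w) {z : ℂ} {κ : Cd d} (h : Cl P (P.G / 2) z κ) :
    1 / (2 * P.c) ≤ ‖gam P z κ‖ ∧ ‖gam P z κ‖ ≤ 2 / P.c := by
  obtain ⟨h1, h2⟩ := gam_aux P h
  have hc := P.c_ge
  have hc0 : 0 < P.c := by linarith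
  set u := grn w (Dloc P.c P.L z κ) (dlt 0) with hu
  have hg : gam P z κ = u 0 := rfl
  constructor
  · have h3 := norm_conv_le P.hw u 0
    have h4 : (∑' n, ‖w n‖) * ‖u‖ ≤ 1 / 2 := by
      have h5 : (∑' n, ‖w n‖) ≤ P.c / 4 := by
        have := P.hc
        linarith
      calc (∑' n, ‖w n‖) * ‖u‖ ≤ (P.c / 4) * (2 / P.c) :=
            mul_le_mul h5 h1 (norm_nonneg _) (by positivity)
        _ = 1 / 2 := by field_simp; norm_num
    have h6 : (1 : ℝ) ≤ P.c * ‖gam P z κ‖ + 1 / 2 := by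
      have h7 : ‖(1 : ℂ)‖ ≤ ‖(P.c : ℂ) * gam P z κ‖ + ‖∑' m, w (0 - m) * u m‖ := by
        rw [← h2]; exact norm_add_le _ _
      rw [norm_one, norm_mul, Complex.norm_real, Real.norm_of_nonneg hc0.le] at h7
      linarith
    rw [div_le_iff₀ (by positivity)]
    linarith
  · rw [hg]
    exact le_trans (lp.norm_apply_le_norm (by norm_num) u 0) h1

theorem gam_ne (P : Sc d μ w) {z : ℂ} {κ : Cd d} (h : Cl P (P.G / 2) z κ) : gam P z κ ≠ 0 := by
  intro h0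
  have h1 := (gam_bounds P h).1
  rw [h0, norm_zero] at h1
  have hc := P.c_ge
  have : 0 < 1 / (2 * P.c) := by positivity
  linarith

theorem Sc.eps_bound (P : Sc d μ w) : 8 * P.ε * P.Λ ^ 5 ≤ 1 ∧ 0 ≤ P.ε := by
  have h0 : 0 ≤ P.ε := le_trans (by positivity) P.hε1
  refine ⟨?_, h0⟩
  have h1 := P.hε
  have h2 := P.Λ_ge
  have h3 : P.Λ ^ 6 ≤ P.Λ ^ P.p := pow_le_pow_right₀ (by linarith) (by have := P.hp; omega)
  have h4 : P.ε * P.Λ ^ 6 ≤ 1 := le_trans (mul_le_mul_of_nonneg_left h3 h0) h1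
  have h5 : 8 * P.Λ ^ 5 ≤ P.Λ ^ 6 := by
    have : 0 ≤ P.Λ ^ 5 := pow_nonneg (by linarith) 5
    rw [pow_succ]
    nlinarith
  calc 8 * P.ε * P.Λ ^ 5 = P.ε * (8 * P.Λ ^ 5) := by ring
    _ ≤ P.ε * P.Λ ^ 6 := mul_le_mul_of_nonneg_left h5 h0
    _ ≤ 1 := h4

/-- the strong form of the bound -/
theorem Hh_bound3 (P : Sc d μ w) {z : ℂ} {κ : Cd d} (h : Cl P (P.G / 2) z κ) :
    ‖Hh P z κ‖ ≤ (P.Λ ^ 3)⁻¹ := by
  obtain ⟨h1, h2⟩ := gam_aux P h
  have hadm := h.adm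
  have hc := P.c_ge
  have hc0 : 0 < P.c := by linarith
  have hΛ := P.Λ_ge
  have hΛ0 := P.Λ_pos
  have hgb := gam_bounds P h
  have hgne := gam_ne P h
  obtain ⟨he1, he0⟩ := P.eps_bound
  have hG := P.G_pos
  set u := grn w (Dloc P.c P.L z κ) (dlt 0) with hu
  have hg : gam P z κ = u 0 := rfl
  -- pointwise bounds
  have hum : ∀ m : Zd d, m ≠ 0 → ‖u m‖ ≤ 1 / P.G + 4 * P.ε := by
    intro m hm
    by_cases hml : ‖m‖ ≤ P.L
    · have h3 := hadm.grn_spec (dlt 0) m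
      rw [dlt_ne hm] at h3
      have h4 : Dloc P.c P.L z κ m = z + 2 * bil κ (zc m) + bil (zc m) (zc m) := by
        unfold Dloc
        rw [if_neg hm, if_pos hml]
      rw [h4] at h3
      have h5 := h m hm hml
      have h6 := norm_conv_le P.hw u m
      have h7 : (∑' n, ‖w n‖) * ‖u‖ ≤ 1 / 2 := by
        have h5 : (∑' n, ‖w n‖) ≤ P.c / 4 := by
          have := P.hc
          linarith
        calc (∑' n, ‖w n‖) * ‖u‖ ≤ (P.c / 4) * (2 / P.c) :=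
              mul_le_mul h5 h1 (norm_nonneg _) (by positivity)
          _ = 1 / 2 := by field_simp; norm_num
      have h8 : ‖(z + 2 * bil κ (zc m) + bil (zc m) (zc m)) * u m‖ ≤ 1 / 2 := by
        have h9 : (z + 2 * bil κ (zc m) + bil (zc m) (zc m)) * u m = -∑' n, w (m - n) * u n :=
          eq_neg_of_add_eq_zero_left h3
        rw [h9, norm_neg]
        linarith
      rw [norm_mul] at h8
      have h10 : P.G / 2 * ‖u m‖ ≤ 1 / 2 :=
        le_trans (mul_le_mul_of_nonneg_right h5 (norm_nonneg _)) h8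
      have h11 : ‖u m‖ ≤ 1 / P.G := by
        rw [le_div_iff₀ hG]
        linarith
      linarith
    · have h3 := col_far hadm 0 m (by rw [sub_zero]; exact not_le.1 hml) P.hJ P.hε1 P.hε2
      have h4 : 0 < 1 / P.G := by positivity
      linarith
  -- split off the site 0
  have hsum := summable_conv P.hw u 0
  have hsplit := hsum.tsum_eq_add_tsum_ite 0
  rw [hsplit] at h2
  set T : ℂ := ∑' m, ite (m = (0 : Zd d)) 0 (w (0 - m) * u m) with hT
  have hTb : ‖T‖ ≤ (∑' n, ‖w n‖) * (1 / P.G + 4 * P.ε) := by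
    have hs1 : Summable fun m : Zd d => ‖w (0 - m)‖ :=
      (Equiv.subLeft (0 : Zd d)).summable_iff.2 P.hw
    have hs2 : ∑' m : Zd d, ‖w (0 - m)‖ = ∑' m, ‖w m‖ :=
      (Equiv.subLeft (0 : Zd d)).tsum_eq (fun m => ‖w m‖)
    have hs3 : HasSum (fun m : Zd d => ‖w (0 - m)‖ * (1 / P.G + 4 * P.ε))
        ((∑' n, ‖w n‖) * (1 / P.G + 4 * P.ε)) := by
      rw [← hs2]
      exact hs1.hasSum.mul_right _
    refine tsum_of_norm_bounded hs3 (fun m => ?_)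
    split_ifs with h0
    · rw [norm_zero]; positivity
    · rw [norm_mul]
      exact mul_le_mul_of_nonneg_left (hum m h0) (norm_nonneg _)
  have hHh : Hh P z κ = T / gam P z κ := by
    unfold Hh
    rw [eq_div_iff hgne]
    rw [sub_zero] at h2
    rw [← hg] at h2
    have h12 : 1 / gam P z κ * gam P z κ = 1 := by field_simp
    calc (1 / gam P z κ - P.c - w 0) * gam P z κ
        = 1 / gam P z κ * gam P z κ - (P.c * gam P z κ + w 0 * gam P z κ) := by ring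
      _ = T := by
          rw [h12, ← h2]; ring
  rw [hHh, norm_div]
  have hom : (∑' n, ‖w n‖) ≤ P.Λ / 4 := by
    have := P.hc
    have := P.hcΛ
    linarith
  have hG5 : P.G = P.Λ ^ 5 := rfl
  have hK : 1 / P.G + 4 * P.ε ≤ 3 / 2 / P.Λ ^ 5 := by
    rw [hG5, le_div_iff₀ (by positivity)]
    have : (1 / P.Λ ^ 5 + 4 * P.ε) * P.Λ ^ 5 = 1 + (8 * P.ε * P.Λ ^ 5) / 2 := by
      field_simp
      ring
    rw [this]
    linarith
  have hT2 : ‖T‖ ≤ P.Λ / 4 * (3 / 2 / P.Λ ^ 5) :=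
    le_trans hTb (mul_le_mul hom hK (by positivity) (by positivity))
  rw [div_le_iff₀ (norm_pos_iff.2 hgne)]
  have h13 : 1 / (2 * P.Λ) ≤ ‖gam P z κ‖ := by
    refine le_trans ?_ hgb.1
    have := P.hcΛ
    gcongr
  calc ‖T‖ ≤ P.Λ / 4 * (3 / 2 / P.Λ ^ 5) := hT2
    _ ≤ (P.Λ ^ 3)⁻¹ * (1 / (2 * P.Λ)) := by
        have e1 : P.Λ / 4 * (3 / 2 / P.Λ ^ 5) = 3 / 8 * (P.Λ ^ 4)⁻¹ := by
          field_simp; norm_num
        have e2 : (P.Λ ^ 3)⁻¹ * (1 / (2 * P.Λ)) = 1 / 2 * (P.Λ ^ 4)⁻¹ := by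
          field_simp
        rw [e1, e2]
        exact mul_le_mul_of_nonneg_right (by norm_num) (by positivity)
    _ ≤ (P.Λ ^ 3)⁻¹ * ‖gam P z κ‖ := by gcongr

theorem Hh_bound (P : Sc d μ w) {z : ℂ} {κ : Cd d} (h : Cl P (P.G / 2) z κ) :
    ‖Hh P z κ‖ ≤ (P.Λ ^ 2)⁻¹ := by
  refine le_trans (Hh_bound3 P h) ?_
  have hΛ := P.Λ_ge
  have hΛ0 := P.Λ_pos
  exact inv_anti₀ (by positivity) (pow_le_pow_right₀ (by linarith) (by norm_num))

theorem Hh_analytic (P : Sc d μ w) {z : ℂ} {κ : Cd d} (h : Cl P (P.G / 2) z κ) :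
    AnalyticAt ℂ (fun x : ℂ × Cd d => Hh P x.1 x.2) (z, κ) := by
  have h1 : AnalyticAt ℂ (fun x : ℂ × Cd d => gam P x.1 x.2) (z, κ) := by
    apply Dloc_analytic P.L z κ h.adm
    intro m hm hml
    have h2 := h m hm hml
    have h3 := P.two_c_le
    have h4 := P.c_ge
    linarith
  unfold Hh
  have h2 : AnalyticAt ℂ (fun x : ℂ × Cd d => 1 / gam P x.1 x.2) (z, κ) :=
    analyticAt_const.div h1 (gam_ne P h)
  exact (h2.sub analyticAt_const).sub analyticAt_const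

/-! ### stability of `Cl` -/

theorem norm_bil_zc_le (a : Cd d) (m : Zd d) {L : ℝ} (hm : ‖m‖ ≤ L) : ‖bil a (zc m)‖ ≤ d * L * ‖a‖ := by
  unfold bil zc
  have hL : 0 ≤ L := le_trans (norm_nonneg _) hm
  calc ‖∑ j, a j * (m j : ℂ)‖ ≤ ∑ j, ‖a j * (m j : ℂ)‖ := norm_sum_le _ _
    _ ≤ ∑ _j : Fin d, ‖a‖ * L := by
        apply Finset.sum_le_sum
        intro j _
        rw [norm_mul]
        have h1 : ‖a j‖ ≤ ‖a‖ := norm_le_pi_norm a j
        have h2 : ‖(m j : ℂ)‖ ≤ L := by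
          rw [Complex.norm_intCast]
          refine le_trans (le_of_eq ?_) (le_trans (norm_le_pi_norm m j) hm)
          rw [Int.norm_eq_abs]
        exact mul_le_mul h1 h2 (norm_nonneg _) (norm_nonneg _)
    _ = d * L * ‖a‖ := by
        rw [Finset.sum_const, Finset.card_univ, Fintype.card_fin, nsmul_eq_mul]; ring

theorem bil_add_left (a b c : Cd d) : bil (a + b) c = bil a c + bil b c := by
  unfold bil
  rw [← Finset.sum_add_distrib]
  apply Finset.sum_congr rfl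
  intro j _
  rw [Pi.add_apply]; ring

theorem bil_smul_left (t : ℂ) (b c : Cd d) : bil (t • b) c = t * bil b c := by
  unfold bil
  rw [Finset.mul_sum]
  apply Finset.sum_congr rfl
  intro j _
  rw [Pi.smul_apply, smul_eq_mul]; ring

theorem bil_comm (a b : Cd d) : bil a b = bil b a := by
  unfold bil
  apply Finset.sum_congr rfl
  intro j _
  ring

theorem Cl.move {P : Sc d μ w} {g g' : ℝ} {z z' : ℂ} {κ κ' : Cd d} (h : Cl P g z κ)
    (hg : g' + ‖z' - z‖ + 2 * (d * P.L * ‖κ' - κ‖) ≤ g) : Cl P g' z' κ' := by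
  intro m hm hml
  have h1 := h m hm hml
  have h2 : z' + 2 * bil κ' (zc m) + bil (zc m) (zc m) =
      (z + 2 * bil κ (zc m) + bil (zc m) (zc m)) + ((z' - z) + 2 * bil (κ' - κ) (zc m)) := by
    have : bil κ' (zc m) = bil κ (zc m) + bil (κ' - κ) (zc m) := by
      rw [← bil_add_left]; congr 1; abel
    rw [this]; ring
  have h3 := norm_bil_zc_le (κ' - κ) m hml
  have h4 : ‖(z' - z) + 2 * bil (κ' - κ) (zc m)‖ ≤ ‖z' - z‖ + 2 * (d * P.L * ‖κ' - κ‖) := by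
    refine le_trans (norm_add_le _ _) ?_
    rw [norm_mul]
    have : ‖(2 : ℂ)‖ = 2 := by simp
    rw [this]
    linarith
  rw [h2]
  have h5 := norm_sub_le_norm_add (z + 2 * bil κ (zc m) + bil (zc m) (zc m)) ((z' - z) + 2 * bil (κ' - κ) (zc m))
  linarith

theorem Sc.dL (P : Sc d μ w) : 100 * ((d : ℝ) * P.L) ≤ P.Λ ∧ 90 ≤ (d : ℝ) * P.L := by
  have h1 : (3 : ℝ) ≤ d := by exact_mod_cast P.hd
  have h2 : (10 : ℝ) * d ≤ P.L := by exact_mod_cast P.hL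
  have h3 := P.hLΛ
  have h4 : 90 ≤ (d : ℝ) * P.L := by nlinarith
  refine ⟨?_, h4⟩
  have h5 : 100 * (d : ℝ) ^ 2 * (P.L : ℝ) ^ 2 = 100 * ((d : ℝ) * P.L) ^ 2 := by ring
  rw [h5] at h3
  nlinarith

/-- the self energy is Lipschitz with a small constant; `ζ = δz`, `δ = δκ` -/
theorem Hh_lip (P : Sc d μ w) {z : ℂ} {κ : Cd d} (h : Cl P (3 / 4 * P.G) z κ) {z' : ℂ}
    {κ' : Cd d} (hz : ‖z' - z‖ ≤ P.G / 32) (hκ : ‖κ' - κ‖ ≤ 1) :
    ‖Hh P z' κ' - Hh P z κ‖ ≤ (P.Λ ^ 6)⁻¹ * ‖z' - z‖ + (P.Λ ^ 2)⁻¹ * ‖κ' - κ‖ := by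
  have hΛ := P.Λ_ge
  have hΛ0 := P.Λ_pos
  have hG := P.G_pos
  obtain ⟨hdL, hdL2⟩ := P.dL
  have hG5 : P.G = P.Λ ^ 5 := rfl
  set A : ℝ := (d : ℝ) * P.L with hA
  have hA0 : 0 ≤ A := by linarith
  -- 16 A ≤ G / 4
  have hAG : 64 * A ≤ P.G := by
    have : P.Λ ^ 1 ≤ P.Λ ^ 5 := pow_le_pow_right₀ (by linarith) (by norm_num)
    rw [pow_one] at this
    linarith [hG5]
  set m : ℝ := 8 * ‖z' - z‖ / P.G + 16 * A * ‖κ' - κ‖ / P.G with hm
  have hm0 : 0 ≤ m := by positivity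
  by_cases hmz : m = 0
  · -- the points agree
    have h1 : 8 * ‖z' - z‖ / P.G = 0 := by
      have h2 : 0 ≤ 8 * ‖z' - z‖ / P.G := by positivity
      have h3 : 0 ≤ 16 * A * ‖κ' - κ‖ / P.G := by positivity
      linarith
    have h2 : 16 * A * ‖κ' - κ‖ / P.G = 0 := by
      rw [hm, h1, zero_add] at hmz
      exact hmz
    have h3 : ‖z' - z‖ = 0 := by
      rw [div_eq_zero_iff] at h1
      rcases h1 with h1 | h1
      · linarith
      · exact absurd h1 hG.ne'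
    have h4 : ‖κ' - κ‖ = 0 := by
      rw [div_eq_zero_iff] at h2
      rcases h2 with h2 | h2
      · have : A ≠ 0 := by
          intro h0
          rw [h0] at hdL2
          linarith
        rcases mul_eq_zero.1 h2 with h5 | h5
        · exfalso; apply this; linarith
        · exact h5
      · exact absurd h2 hG.ne'
    have h5 : z' = z := by
      rw [norm_eq_zero, sub_eq_zero] at h3; exact h3
    have h6 : κ' = κ := by
      rw [norm_eq_zero, sub_eq_zero] at h4; exact h4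
    rw [h5, h6, sub_self, norm_zero]
    positivity
  have hmp : 0 < m := lt_of_le_of_ne hm0 (Ne.symm hmz)
  have hm2 : m ≤ 1 / 2 := by
    have h1 : 8 * ‖z' - z‖ / P.G ≤ 1 / 4 := by
      rw [div_le_iff₀ hG]; linarith
    have h2 : 16 * A * ‖κ' - κ‖ / P.G ≤ 1 / 4 := by
      rw [div_le_iff₀ hG]
      have : A * ‖κ' - κ‖ ≤ A * 1 := mul_le_mul_of_nonneg_left hκ hA0
      linarith
    linarith
  set T : ℝ := 1 / m with hT
  have hT2 : 2 ≤ T := by
    rw [hT, le_div_iff₀ hmp]; linarith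
  have hTz : T * ‖z' - z‖ ≤ P.G / 8 := by
    rw [hT, one_div, inv_mul_le_iff₀ hmp]
    have h3 : 0 ≤ 16 * A * ‖κ' - κ‖ / P.G := by positivity
    have h4 : 8 * ‖z' - z‖ / P.G ≤ m := by linarith
    rw [div_le_iff₀ hG] at h4
    linarith
  have hTk : T * (2 * (A * ‖κ' - κ‖)) ≤ P.G / 8 := by
    rw [hT, one_div, inv_mul_le_iff₀ hmp]
    have h3 : 0 ≤ 8 * ‖z' - z‖ / P.G := by positivity
    have h4 : 16 * A * ‖κ' - κ‖ / P.G ≤ m := by linarith
    rw [div_le_iff₀ hG] at h4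
    linarith
  -- the line
  set ℓ : ℂ → ℂ × Cd d := fun t => (z + t * (z' - z), κ + t • (κ' - κ)) with hℓ
  have hcl : ∀ t : ℂ, t ∈ Metric.ball (0 : ℂ) T → Cl P (P.G / 2) (ℓ t).1 (ℓ t).2 := by
    intro t ht
    rw [mem_ball_zero_iff] at ht
    apply h.move
    rw [hℓ]
    simp only
    have e1 : z + t * (z' - z) - z = t * (z' - z) := by ring
    have e2 : κ + t • (κ' - κ) - κ = t • (κ' - κ) := by abel
    rw [e1, e2, norm_mul, norm_smul]
    have h1 : ‖t‖ * ‖z' - z‖ ≤ T * ‖z' - z‖ := mul_le_mul_of_nonneg_right ht.le (norm_nonneg _)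
    have h2 : 2 * (A * (‖t‖ * ‖κ' - κ‖)) ≤ T * (2 * (A * ‖κ' - κ‖)) := by
      have : ‖t‖ * (2 * (A * ‖κ' - κ‖)) ≤ T * (2 * (A * ‖κ' - κ‖)) :=
        mul_le_mul_of_nonneg_right ht.le (by positivity)
      linarith
    linarith
  have hℓa : ∀ t : ℂ, AnalyticAt ℂ ℓ t := by
    intro t
    apply AnalyticAt.prod
    · exact analyticAt_const.add (analyticAt_id.mul analyticAt_const)
    · exact analyticAt_const.add (analyticAt_id.smul analyticAt_const)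
  have hline := line_lip (h := fun t => Hh P (ℓ t).1 (ℓ t).2) (B := (P.Λ ^ 3)⁻¹) hT2
    (fun t ht => (Hh_analytic P (hcl t ht)).comp_of_eq (hℓa t) rfl)
    (fun t ht => Hh_bound3 P (hcl t ht))
  have e1 : ℓ 1 = (z', κ') := by
    rw [hℓ]; simp
  have e0 : ℓ 0 = (z, κ) := by
    rw [hℓ]; simp
  simp only [e1, e0] at hline
  refine le_trans hline ?_
  have e3 : 4 * (P.Λ ^ 3)⁻¹ / T = 32 / P.Λ ^ 8 * ‖z' - z‖ + 64 * A / P.Λ ^ 8 * ‖κ' - κ‖ := by
    rw [hT, hm, hG5]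
    field_simp
    ring
  rw [e3]
  have h8 : 32 / P.Λ ^ 8 ≤ (P.Λ ^ 6)⁻¹ := by
    rw [div_le_iff₀ (by positivity)]
    have : (P.Λ ^ 6)⁻¹ * P.Λ ^ 8 = P.Λ ^ 2 := by field_simp
    rw [this]
    nlinarith
  have h9 : 64 * A / P.Λ ^ 8 ≤ (P.Λ ^ 2)⁻¹ := by
    rw [div_le_iff₀ (by positivity)]
    have : (P.Λ ^ 2)⁻¹ * P.Λ ^ 8 = P.Λ ^ 6 := by field_simp
    rw [this]
    have : P.Λ ^ 1 ≤ P.Λ ^ 6 := pow_le_pow_right₀ (by linarith) (by norm_num)
    rw [pow_one] at this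
    linarith
  exact add_le_add (mul_le_mul_of_nonneg_right h8 (norm_nonneg _))
    (mul_le_mul_of_nonneg_right h9 (norm_nonneg _))

/-- first order expansion with explicit bounds for the coefficients -/
theorem Hh_taylor (P : Sc d μ w) {z : ℂ} {κ : Cd d} (h : Cl P P.G z κ) :
    ∃ (α : ℂ) (β : Cd d), ‖α‖ ≤ (P.Λ ^ 6)⁻¹ ∧ ‖β‖ ≤ (P.Λ ^ 2)⁻¹ ∧
      ∀ (z₁ z₂ : ℂ) (κ₁ κ₂ : Cd d) (t : ℝ), 0 ≤ t → t ≤ 1 → ‖z₁ - z‖ ≤ t → ‖z₂ - z‖ ≤ t →
        ‖κ₁ - κ‖ ≤ t → ‖κ₂ - κ‖ ≤ t →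
        ‖Hh P z₁ κ₁ - Hh P z₂ κ₂ - α * (z₁ - z₂) - bil β (κ₁ - κ₂)‖ ≤
          t * (‖z₁ - z₂‖ + ‖κ₁ - κ₂‖) := by
  have hΛ := P.Λ_ge
  have hΛ0 := P.Λ_pos
  have hG := P.G_pos
  obtain ⟨hdL, hdL2⟩ := P.dL
  have hG5 : P.G = P.Λ ^ 5 := rfl
  set A : ℝ := (d : ℝ) * P.L with hA
  have hA0 : 0 ≤ A := by linarith
  set F : ℂ × Cd d → ℂ := fun x => Hh P x.1 x.2 with hF
  set x0 : ℂ × Cd d := (z, κ) with hx0
  set R : ℝ := P.Λ ^ 4 with hR
  have hR0 : 0 < R := by positivity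
  set B : ℝ := (P.Λ ^ 3)⁻¹ with hB
  have hcl : ∀ x ∈ Metric.ball x0 R, Cl P (P.G / 2) x.1 x.2 := by
    intro x hx
    apply h.move
    rw [Metric.mem_ball, dist_eq_norm] at hx
    have h1 : ‖x.1 - z‖ ≤ R := le_trans (norm_fst_le (x - x0)) hx.le
    have h2 : ‖x.2 - κ‖ ≤ R := le_trans (norm_snd_le (x - x0)) hx.le
    have h3 : A * ‖x.2 - κ‖ ≤ A * R := mul_le_mul_of_nonneg_left h2 hA0
    have h4 : R + 2 * (A * R) ≤ P.G / 2 := by
      have : P.G = P.Λ * R := by rw [hG5, hR]; ring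
      rw [this]
      nlinarith
    linarith
  have hFa : AnalyticOnNhd ℂ F (Metric.ball x0 R) := fun x hx => Hh_analytic P (hcl x hx)
  have hFB : ∀ x ∈ Metric.ball x0 R, ‖F x‖ ≤ B := fun x hx => Hh_bound3 P (hcl x hx)
  set D := fderiv ℂ F x0 with hD
  have hDn : ‖D‖ ≤ (P.Λ ^ 6)⁻¹ := by
    refine le_trans (cauchy1 hR0 hFa hFB (p := x0) (by rw [dist_self]; positivity)) ?_
    rw [hB, hR, div_le_iff₀ (by positivity)]
    have e1 : (P.Λ ^ 6)⁻¹ * P.Λ ^ 4 = P.Λ * (P.Λ ^ 3)⁻¹ := by field_simp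
    rw [e1]
    have : 0 < (P.Λ ^ 3)⁻¹ := by positivity
    nlinarith
  refine ⟨D (1, 0), fun j => D (0, Pi.single j 1), ?_, ?_, ?_⟩
  · refine le_trans (D.le_opNorm _) ?_
    have : ‖((1 : ℂ), (0 : Cd d))‖ = 1 := by
      rw [Prod.norm_def]; simp
    rw [this, mul_one]
    exact hDn
  · rw [pi_norm_le_iff_of_nonneg (by positivity)]
    intro j
    refine le_trans (D.le_opNorm _) ?_
    have h1 : ‖((0 : ℂ), (Pi.single j 1 : Cd d))‖ ≤ 1 := by
      rw [Prod.norm_def]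
      simp only [norm_zero]
      apply max_le (by norm_num)
      rw [pi_norm_le_iff_of_nonneg (by norm_num)]
      intro i
      by_cases hij : i = j
      · subst hij; simp
      · rw [Pi.single_eq_of_ne hij]; simp
    have h2 : (P.Λ ^ 6)⁻¹ ≤ (P.Λ ^ 2)⁻¹ :=
      inv_anti₀ (by positivity) (pow_le_pow_right₀ (by linarith) (by norm_num))
    calc ‖D‖ * ‖((0 : ℂ), (Pi.single j 1 : Cd d))‖ ≤ (P.Λ ^ 6)⁻¹ * 1 :=
          mul_le_mul hDn h1 (norm_nonneg _) (by positivity)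
      _ ≤ (P.Λ ^ 2)⁻¹ := by rw [mul_one]; exact h2
  · intro z₁ z₂ κ₁ κ₂ t ht0 ht1 hz1 hz2 hk1 hk2
    have hlin : ∀ (ζ : ℂ) (δ : Cd d), D (ζ, δ) = D (1, 0) * ζ + bil (fun j => D (0, Pi.single j 1)) δ := by
      intro ζ δ
      have e1 : ((ζ, δ) : ℂ × Cd d) = ζ • ((1 : ℂ), (0 : Cd d)) + ∑ j, δ j • ((0 : ℂ), (Pi.single j 1 : Cd d)) := by
        apply Prod.ext
        · simp [Prod.fst_sum]
        · rw [Prod.snd_add, Prod.snd_sum]
          simp only [Prod.smul_snd, smul_zero, zero_add]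
          funext i
          rw [Finset.sum_apply]
          simp [Pi.single_apply]
      rw [e1, map_add, map_smul, map_sum]
      unfold bil
      rw [smul_eq_mul, mul_comm]
      congr 1
      apply Finset.sum_congr rfl
      intro j _
      rw [map_smul, smul_eq_mul, mul_comm]
    have hin : ∀ (z' : ℂ) (κ' : Cd d), ‖z' - z‖ ≤ t → ‖κ' - κ‖ ≤ t → (z', κ') ∈ Metric.closedBall x0 t := by
      intro z' κ' h1 h2
      rw [Metric.mem_closedBall, dist_eq_norm, Prod.norm_def]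
      exact max_le h1 h2
    have hR4 : 1 ≤ R / 4 := by
      have : P.Λ ^ 1 ≤ P.Λ ^ 4 := pow_le_pow_right₀ (by linarith) (by norm_num)
      rw [pow_one] at this
      linarith
    have hmv := (convex_closedBall x0 t).norm_image_sub_le_of_norm_fderiv_le' (𝕜 := ℂ) (f := F)
      (C := t) (φ := D) (x := (z₂, κ₂)) (y := (z₁, κ₁))
      (fun x hx => (hFa x (by
        rw [Metric.mem_closedBall] at hx
        rw [Metric.mem_ball]; linarith)).differentiableAt)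
      (fun x hx => by
        rw [Metric.mem_closedBall] at hx
        refine le_trans (cauchy2 hR0 hFa hFB (by linarith)) ?_
        rw [dist_eq_norm] at hx
        have h1 : 32 * B / R ^ 2 ≤ 1 := by
          rw [div_le_one (by positivity)]
          have h2 : B ≤ 1 := inv_le_one_of_one_le₀ (one_le_pow₀ (by linarith))
          have h4 : 32 ≤ R := by
            have : P.Λ ^ 1 ≤ P.Λ ^ 4 := pow_le_pow_right₀ (by linarith) (by norm_num)
            rw [pow_one] at this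
            linarith
          nlinarith
        have h3 : 0 ≤ 32 * B / R ^ 2 := by positivity
        calc 32 * B / R ^ 2 * ‖x - x0‖ ≤ 1 * t := mul_le_mul h1 hx (norm_nonneg _) (by norm_num)
          _ = t := one_mul t)
      (hin z₂ κ₂ hz2 hk2) (hin z₁ κ₁ hz1 hk1)
    have e2 : (z₁, κ₁) - (z₂, κ₂) = (z₁ - z₂, κ₁ - κ₂) := rfl
    rw [e2, hlin] at hmv
    have e3 : Hh P z₁ κ₁ - Hh P z₂ κ₂ - D (1, 0) * (z₁ - z₂) -
        bil (fun j => D (0, Pi.single j 1)) (κ₁ - κ₂) =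
        F (z₁, κ₁) - F (z₂, κ₂) - (D (1, 0) * (z₁ - z₂) + bil (fun j => D (0, Pi.single j 1)) (κ₁ - κ₂)) := by
      rw [hF]; ring
    rw [e3]
    refine le_trans hmv (mul_le_mul_of_nonneg_left ?_ ht0)
    rw [Prod.norm_def]
    exact max_le (le_add_of_nonneg_right (norm_nonneg _)) (le_add_of_nonneg_left (norm_nonneg _))

/-! ### the effective sheet function -/

theorem q_eq (κ : Cd d) (m : Zd d) :
    q μ κ m = q μ κ 0 + 2 * bil κ (zc m) + bil (zc m) (zc m) := by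
  have h0 : κ + zc (0 : Zd d) = κ := by
    funext j; simp [zc]
  unfold q
  rw [h0, bil_add_left, bil_comm κ (κ + zc m), bil_add_left, bil_comm (zc m) (κ + zc m), bil_add_left,
    bil_comm (zc m) κ]
  ring

theorem Thick.cl {P : Sc d μ w} {b : Cd d} (hb : Thick P b) : Cl P P.G (q μ b 0) b := by
  intro m hm hml
  have := hb.2.2 m hm hml
  rwa [q_eq] at this

theorem nsq_nonneg (b : Cd d) : 0 ≤ nsq b := Finset.sum_nonneg (fun _ _ => by positivity)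

theorem norm_sq_le_nsq (b : Cd d) (j : Fin d) : ‖b j‖ ^ 2 ≤ nsq b :=
  Finset.single_le_sum (f := fun i => ‖b i‖ ^ 2) (fun _ _ => by positivity) (Finset.mem_univ j)

theorem bil_cb (b : Cd d) (hb : 0 < nsq b) : bil b (cb b) = 1 := by
  unfold bil cb
  have h1 : ∀ j, b j * ((starRingEnd ℂ) (b j) / ((nsq b : ℝ) : ℂ)) = ((‖b j‖ ^ 2 : ℝ) : ℂ) / ((nsq b : ℝ) : ℂ) := by
    intro j
    rw [mul_div_assoc', Complex.mul_conj, Complex.normSq_eq_norm_sq]
  rw [Finset.sum_congr rfl (fun j _ => h1 j), ← Finset.sum_div, ← Complex.ofReal_sum]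
  have h2 : (∑ i, ‖b i‖ ^ 2 : ℝ) = nsq b := rfl
  rw [h2, div_self]
  exact_mod_cast hb.ne'

theorem norm_cb_apply_sq (b : Cd d) (hb : 0 < nsq b) (j : Fin d) : ‖cb b j‖ ^ 2 ≤ 1 / nsq b := by
  unfold cb
  rw [norm_div, RCLike.norm_conj, Complex.norm_real, Real.norm_of_nonneg hb.le, div_pow,
    div_le_div_iff₀ (by positivity) hb]
  have := norm_sq_le_nsq b j
  nlinarith

theorem norm_bil_cb_cb (b : Cd d) (hb : 0 < nsq b) : ‖bil (cb b) (cb b)‖ ≤ 1 / nsq b := by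
  unfold bil
  calc ‖∑ j, cb b j * cb b j‖ ≤ ∑ j, ‖cb b j * cb b j‖ := norm_sum_le _ _
    _ = ∑ j, ‖b j‖ ^ 2 / nsq b ^ 2 := by
        apply Finset.sum_congr rfl
        intro j _
        unfold cb
        rw [norm_mul, norm_div, RCLike.norm_conj, Complex.norm_real, Real.norm_of_nonneg hb.le]
        ring
    _ = 1 / nsq b := by
        rw [← Finset.sum_div]
        have h2 : (∑ i, ‖b i‖ ^ 2 : ℝ) = nsq b := rfl
        rw [h2]
        field_simp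

theorem norm_cb_le (P : Sc d μ w) {b : Cd d} (hb : Thick P b) : ‖cb b‖ ≤ (P.Λ ^ 4)⁻¹ := by
  have hΛ0 := P.Λ_pos
  have hn : 0 < nsq b := lt_of_lt_of_le (by positivity) hb.1
  rw [pi_norm_le_iff_of_nonneg (by positivity)]
  intro j
  have h1 := norm_cb_apply_sq b hn j
  have h2 : 1 / nsq b ≤ ((P.Λ ^ 4)⁻¹) ^ 2 := by
    have : ((P.Λ ^ 4)⁻¹) ^ 2 = 1 / P.Λ ^ 8 := by field_simp
    rw [this]
    exact one_div_le_one_div_of_le (by positivity) hb.1
  exact (sq_le_sq₀ (norm_nonneg _) (by positivity)).1 (le_trans h1 h2)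

theorem q_line (P : Sc d μ w) {b : Cd d} (hb : Thick P b) (z₁ : ℂ) :
    q μ (b + z₁ • cb b) 0 = q μ b 0 + 2 * z₁ + z₁ ^ 2 * bil (cb b) (cb b) := by
  have hΛ0 := P.Λ_pos
  have hn : 0 < nsq b := lt_of_lt_of_le (by positivity) hb.1
  have h0 : ∀ κ : Cd d, κ + zc (0 : Zd d) = κ := by
    intro κ
    funext j; simp [zc]
  unfold q
  rw [h0, h0, bil_add_left, bil_comm b (b + _), bil_add_left, bil_smul_left, bil_comm (cb b) b, bil_smul_left,
    bil_comm (cb b) (b + _), bil_add_left, bil_smul_left, bil_cb b hn]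
  ring

theorem q_line_small (P : Sc d μ w) {b : Cd d} (hb : Thick P b) : ‖bil (cb b) (cb b)‖ ≤ (P.Λ ^ 8)⁻¹ := by
  have hΛ0 := P.Λ_pos
  have hn : 0 < nsq b := lt_of_lt_of_le (by positivity) hb.1
  refine le_trans (norm_bil_cb_cb b hn) ?_
  rw [← one_div]
  exact one_div_le_one_div_of_le (by positivity) hb.1

theorem q_line_sub (P : Sc d μ w) {b : Cd d} (hb : Thick P b) {z₁ z₂ : ℂ} (h₁ : ‖z₁‖ ≤ 1) (h₂ : ‖z₂‖ ≤ 1) :
    ‖q μ (b + z₁ • cb b) 0 - q μ (b + z₂ • cb b) 0 - 2 * (z₁ - z₂)‖ ≤ 1 / 100 * ‖z₁ - z₂‖ := by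
  rw [q_line P hb, q_line P hb]
  have e1 : q μ b 0 + 2 * z₁ + z₁ ^ 2 * bil (cb b) (cb b) - (q μ b 0 + 2 * z₂ + z₂ ^ 2 * bil (cb b) (cb b)) -
      2 * (z₁ - z₂) = (z₁ - z₂) * ((z₁ + z₂) * bil (cb b) (cb b)) := by ring
  rw [e1, norm_mul, mul_comm]
  apply mul_le_mul_of_nonneg_right _ (norm_nonneg _)
  rw [norm_mul]
  have h3 := q_line_small P hb
  have h4 : ‖z₁ + z₂‖ ≤ 2 := le_trans (norm_add_le _ _) (by linarith)
  have hΛ := P.Λ_ge
  have hΛ0 := P.Λ_pos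
  have h5 : (P.Λ ^ 8)⁻¹ ≤ 1 / 200 := by
    rw [← one_div]
    apply one_div_le_one_div_of_le (by norm_num)
    have : P.Λ ^ 1 ≤ P.Λ ^ 8 := pow_le_pow_right₀ (by linarith) (by norm_num)
    rw [pow_one] at this
    linarith
  calc ‖z₁ + z₂‖ * ‖bil (cb b) (cb b)‖ ≤ 2 * (1 / 200) :=
        mul_le_mul h4 (le_trans h3 h5) (norm_nonneg _) (by norm_num)
    _ = 1 / 100 := by norm_num

theorem cl_line (P : Sc d μ w) {b : Cd d} (hb : Thick P b) {z₁ : ℂ} (h₁ : ‖z₁‖ ≤ 1) :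
    Cl P (3 / 4 * P.G) (q μ (b + z₁ • cb b) 0) (b + z₁ • cb b) := by
  apply hb.cl.move
  have hΛ := P.Λ_ge
  have hΛ0 := P.Λ_pos
  obtain ⟨hdL, hdL2⟩ := P.dL
  have h1 := q_line_sub P hb h₁ (z₂ := 0) (by simp)
  rw [zero_smul, add_zero, sub_zero] at h1
  have h2 : ‖q μ (b + z₁ • cb b) 0 - q μ b 0‖ ≤ 3 := by
    have h3 : q μ (b + z₁ • cb b) 0 - q μ b 0 = (q μ (b + z₁ • cb b) 0 - q μ b 0 - 2 * z₁) + 2 * z₁ := by ring
    rw [h3]
    refine le_trans (norm_add_le _ _) ?_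
    rw [norm_mul 2 z₁]
    have : ‖(2 : ℂ)‖ = 2 := by simp
    rw [this]
    linarith
  have h3 : ‖b + z₁ • cb b - b‖ ≤ 1 := by
    rw [add_sub_cancel_left, norm_smul]
    have h4 := norm_cb_le P hb
    have h5 : (P.Λ ^ 4)⁻¹ ≤ 1 := inv_le_one_of_one_le₀ (one_le_pow₀ (by linarith))
    calc ‖z₁‖ * ‖cb b‖ ≤ 1 * 1 := mul_le_mul h₁ (le_trans h4 h5) (norm_nonneg _) (by norm_num)
      _ = 1 := by norm_num
  have h4 : (d : ℝ) * P.L * ‖b + z₁ • cb b - b‖ ≤ (d : ℝ) * P.L * 1 :=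
    mul_le_mul_of_nonneg_left h3 (by linarith)
  have h5 : P.Λ * 4 ≤ P.G := by
    have : P.Λ ^ 2 ≤ P.Λ ^ 5 := pow_le_pow_right₀ (by linarith) (by norm_num)
    unfold Sc.G
    nlinarith
  linarith

theorem Cl.mono {P : Sc d μ w} {g g' : ℝ} {z : ℂ} {κ : Cd d} (h : Cl P g z κ) (hg : g' ≤ g) :
    Cl P g' z κ := fun m hm hml => le_trans hg (h m hm hml)

/-- the three elementary properties of `Eff` -/
theorem Ehat_near0 (P : Sc d μ w) {b : Cd d} (hb : Thick P b) :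
    ‖Ehat P b - (q μ b 0 + w 0)‖ ≤ 1 / 4 := by
  unfold Ehat
  rw [add_sub_cancel_left]
  have hG := P.G_pos
  refine le_trans (Hh_bound P (hb.cl.mono (by linarith))) ?_
  have hΛ := P.Λ_ge
  rw [← one_div]
  apply one_div_le_one_div_of_le (by norm_num)
  nlinarith

theorem Ehat_near1 (P : Sc d μ w) {b : Cd d} (hb : Thick P b) {z₁ z₂ : ℂ} (h₁ : ‖z₁‖ ≤ 1)
    (h₂ : ‖z₂‖ ≤ 1) :
    ‖Ehat P (b + z₁ • cb b) - Ehat P (b + z₂ • cb b) - 2 * (z₁ - z₂)‖ ≤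
      1 / 2 * ‖z₁ - z₂‖ := by
  have hΛ := P.Λ_ge
  have hΛ0 := P.Λ_pos
  have hG := P.G_pos
  have hq := q_line_sub P hb h₁ h₂
  have hz12 : ‖z₁ - z₂‖ ≤ 2 := le_trans (norm_sub_le _ _) (by linarith)
  have hqd : ‖q μ (b + z₁ • cb b) 0 - q μ (b + z₂ • cb b) 0‖ ≤ 3 * ‖z₁ - z₂‖ := by
    have h3 : q μ (b + z₁ • cb b) 0 - q μ (b + z₂ • cb b) 0 =
      (q μ (b + z₁ • cb b) 0 - q μ (b + z₂ • cb b) 0 - 2 * (z₁ - z₂)) + 2 * (z₁ - z₂) := by ring
    rw [h3]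
    refine le_trans (norm_add_le _ _) ?_
    rw [norm_mul 2 (z₁ - z₂)]
    have : ‖(2 : ℂ)‖ = 2 := by simp
    rw [this]
    linarith [norm_nonneg (z₁ - z₂)]
  have hcbn := norm_cb_le P hb
  have h4i : (P.Λ ^ 4)⁻¹ ≤ 1 / 2 := by
    rw [← one_div]
    apply one_div_le_one_div_of_le (by norm_num)
    have : P.Λ ^ 1 ≤ P.Λ ^ 4 := pow_le_pow_right₀ (by linarith) (by norm_num)
    rw [pow_one] at this
    linarith
  have hkd : ‖(b + z₁ • cb b) - (b + z₂ • cb b)‖ ≤ 1 / 2 * ‖z₁ - z₂‖ := by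
    have : (b + z₁ • cb b) - (b + z₂ • cb b) = (z₁ - z₂) • cb b := by
      rw [sub_smul]; abel
    rw [this, norm_smul, mul_comm]
    exact mul_le_mul_of_nonneg_right (le_trans hcbn h4i) (norm_nonneg _)
  have hlip := Hh_lip P (cl_line P hb h₂) (z' := q μ (b + z₁ • cb b) 0) (κ' := b + z₁ • cb b)
    (by
      have h5 : P.Λ ≤ P.G := by
        have : P.Λ ^ 1 ≤ P.Λ ^ 5 := pow_le_pow_right₀ (by linarith) (by norm_num)
        rw [pow_one] at this
        exact this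
      linarith) (by linarith)
  have h6i : (P.Λ ^ 6)⁻¹ ≤ 1 / 100 := by
    rw [← one_div]
    apply one_div_le_one_div_of_le (by norm_num)
    have : P.Λ ^ 1 ≤ P.Λ ^ 6 := pow_le_pow_right₀ (by linarith) (by norm_num)
    rw [pow_one] at this
    linarith
  have h2i : (P.Λ ^ 2)⁻¹ ≤ 1 / 100 := by
    rw [← one_div]
    apply one_div_le_one_div_of_le (by norm_num)
    have : P.Λ ^ 1 ≤ P.Λ ^ 2 := pow_le_pow_right₀ (by linarith) (by norm_num)
    rw [pow_one] at this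
    linarith
  have hlip2 : ‖Hh P (q μ (b + z₁ • cb b) 0) (b + z₁ • cb b) - Hh P (q μ (b + z₂ • cb b) 0) (b + z₂ • cb b)‖ ≤
      1 / 10 * ‖z₁ - z₂‖ := by
    refine le_trans hlip ?_
    have h6 : (P.Λ ^ 6)⁻¹ * ‖q μ (b + z₁ • cb b) 0 - q μ (b + z₂ • cb b) 0‖ ≤ 1 / 100 * (3 * ‖z₁ - z₂‖) :=
      mul_le_mul h6i hqd (norm_nonneg _) (by norm_num)
    have h7 : (P.Λ ^ 2)⁻¹ * ‖(b + z₁ • cb b) - (b + z₂ • cb b)‖ ≤ 1 / 100 * (1 / 2 * ‖z₁ - z₂‖) :=
      mul_le_mul h2i hkd (norm_nonneg _) (by norm_num)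
    linarith [norm_nonneg (z₁ - z₂)]
  unfold Ehat
  have e1 : q μ (b + z₁ • cb b) 0 + w 0 + Hh P (q μ (b + z₁ • cb b) 0) (b + z₁ • cb b) -
      (q μ (b + z₂ • cb b) 0 + w 0 + Hh P (q μ (b + z₂ • cb b) 0) (b + z₂ • cb b)) - 2 * (z₁ - z₂) =
      (q μ (b + z₁ • cb b) 0 - q μ (b + z₂ • cb b) 0 - 2 * (z₁ - z₂)) +
      (Hh P (q μ (b + z₁ • cb b) 0) (b + z₁ • cb b) - Hh P (q μ (b + z₂ • cb b) 0) (b + z₂ • cb b)) := by ring
  rw [e1]
  refine le_trans (norm_add_le _ _) ?_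
  linarith [norm_nonneg (z₁ - z₂)]

theorem continuous_q : Continuous fun κ : Cd d => q μ κ 0 := by
  unfold q bil
  fun_prop

theorem Ehat_cont (P : Sc d μ w) {b : Cd d} (hb : Thick P b) {z : ℂ} (hz : ‖z‖ ≤ 1) :
    ContinuousAt (Ehat P) (b + z • cb b) := by
  have hG := P.G_pos
  have h1 : ContinuousAt (fun x : ℂ × Cd d => Hh P x.1 x.2) (q μ (b + z • cb b) 0, b + z • cb b) :=
    (Hh_analytic P ((cl_line P hb hz).mono (by linarith))).continuousAt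
  generalize b + z • cb b = κ₀ at h1 ⊢
  have h2 : ContinuousAt (fun κ : Cd d => (q μ κ 0, κ)) κ₀ :=
    (continuous_q.prodMk continuous_id).continuousAt
  have h3 : ContinuousAt ((fun x : ℂ × Cd d => Hh P x.1 x.2) ∘ (fun κ : Cd d => (q μ κ 0, κ))) κ₀ :=
    ContinuousAt.comp (f := fun κ : Cd d => (q μ κ 0, κ)) h1 h2
  have h4 : ContinuousAt (fun κ : Cd d => q μ κ 0 + w 0) κ₀ :=
    continuous_q.continuousAt.add continuousAt_const
  exact h4.add h3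

end Fermi
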