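import Pool.Agent.Lib.Fermi.MatDet
import Pool.Agent.Lib.Fermi.OpEff
import Pool.Agent.Lib.Fermi.OpBlock

/-!
# Chunk BO: block determinants

`DB` = symbol regularised on `K`, equal to `q` in the `L`-neighbourhood of `K` and to `c` elsewhere; `DK` the block determinant.
* `DK_analytic`: only finitely many entries of the symbol move with `k`; as `Dloc_analytic` (chunk D2).
* `MK_bound`: `norm_grn` (`‖grn dlt‖ ≤ 2/c`). `DK_upper`: `det_bound`.
* `DK_lower`: with `Q = diag(q_n - c)`, `G = gK`: `1 + Q G = (Q/c) T`, `T = c Q⁻¹ + c G`. For `x` on `K` let `u = Σ x_m grn dlt_m`; the equation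
  on `K` is `c u_n = x_n - (W u)_n`, `‖W u‖ ≤ (c/4)(2/c)‖x‖ = ‖x‖/2`, so `‖c G x‖ ≥ ‖x‖/2`, `‖T x‖ ≥ (1/2 - 1/8)‖x‖ ≥ ‖x‖/3`;
  `det_lower` with `B = 3`: `|det T| ≥ 1/(n! 3^n)`, `|det (Q/c)| ≥ 8^n`.
* `blk_entry`: `col_cmp` at the column `m` (the two symbols agree on the ball of radius `L` around `m`).
* `single_entry`: `gS n n` versus `gam (q_n) (k + zc n)` by `col_cmp`, `grn_shift` (see D7b, step 6), and
  `1 + (q - c) gam = gam * Ehat (k + zc n)`, `‖gam‖ ≥ 1/(2c)`.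
* `off_entry`: `col_far`.
* `notmem_of_blocks`: if `u ≠ 0`, `q u + W u = 0` put `x_n = (q_n - c) u_n` (`n ∈ S`): `Σ_m MS n m x_m = 0` for `n ∈ S`, `x ≠ 0`
  (see `OpBlock.lean`). For `n` with `‖x_n‖` maximal take its block `T`: `MS_T x_T = y`, `‖y‖ ≤ S.card * (b ε₀) * ‖x‖_∞`, `solve_bound`.
-/

open scoped BigOperators Topology
open Set Filter

noncomputable section

namespace Fermi

variable {d : ℕ} {μ : ℂ} {w : Zd d → ℂ} {c : ℝ}

open scoped Classical in
/-- the symbol of a block -/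
def DB (c : ℝ) (μ : ℂ) (L : ℕ) (K : Finset (Zd d)) (k : Cd d) : Zd d → ℂ := fun m =>
  if m ∈ K then (c : ℂ) else if ∃ n ∈ K, ‖m - n‖ ≤ L then q μ k m else (c : ℂ)

/-- entries of the block matrix -/
def MK (w : Zd d → ℂ) (c : ℝ) (μ : ℂ) (L : ℕ) (K : Finset (Zd d)) (k : Cd d) (n m : Zd d) : ℂ :=
  (if n = m then 1 else 0) + (q μ k n - c) * (grn w (DB c μ L K k) (dlt m)) n

/-- block determinant -/
def DK (w : Zd d → ℂ) (c : ℝ) (μ : ℂ) (L : ℕ) (K : Finset (Zd d)) (k : Cd d) : ℂ :=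
  Matrix.det (fun n m : K => MK w c μ L K k n m)

/-- entries of the full matrix on `S` -/
def MS (w : Zd d → ℂ) (c : ℝ) (μ : ℂ) (S : Finset (Zd d)) (k : Cd d) (n m : Zd d) : ℂ :=
  (if n = m then 1 else 0) + (q μ k n - c) * gS w c μ S k n m

/-! ### analyticity -/

lemma bo_ball_finite (n : Zd d) (L : ℕ) : {m : Zd d | ‖m - n‖ ≤ L}.Finite := by
  refine (Set.finite_Icc (fun j => n j - (L : ℤ) : Zd d) (fun j => n j + (L : ℤ))).subset ?_
  intro m hm
  have hm' : ‖m - n‖ ≤ L := hm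
  rw [pi_norm_le_iff_of_nonneg (by positivity)] at hm'
  constructor
  · intro j
    have h1 := hm' j
    rw [Int.norm_eq_abs, abs_le] at h1
    have h2 := h1.1
    have h3 : -(L : ℤ) ≤ (m - n) j := by exact_mod_cast h2
    simp only [Pi.sub_apply] at h3
    show n j - (L : ℤ) ≤ m j
    linarith
  · intro j
    have h1 := hm' j
    rw [Int.norm_eq_abs, abs_le] at h1
    have h2 := h1.2
    have h3 : (m - n) j ≤ (L : ℤ) := by exact_mod_cast h2
    simp only [Pi.sub_apply] at h3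
    show m j ≤ n j + (L : ℤ)
    linarith

lemma bo_grn_analytic (L : ℕ) (K : Finset (Zd d)) (k₀ : Cd d) (h : Adm w c (DB c μ L K k₀))
    (f : H2 d) (m₀ : Zd d) :
    AnalyticAt ℂ (fun k : Cd d => (grn w (DB c μ L K k) f) m₀) k₀ := by
  classical
  have hfin : {m : Zd d | m ∉ K ∧ ∃ n ∈ K, ‖m - n‖ ≤ L}.Finite := by
    refine (Set.Finite.biUnion K.finite_toSet (fun n _ => bo_ball_finite n L)).subset ?_
    rintro m ⟨_, n, hn, hmn⟩
    simp only [Set.mem_iUnion]
    exact ⟨n, hn, hmn⟩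
  let B : Finset (Zd d) := hfin.toFinset
  have hB : ∀ m, m ∈ B ↔ m ∉ K ∧ ∃ n ∈ K, ‖m - n‖ ≤ L := fun m => by simp [B]
  have ha : ∃ C, ∀ n : Zd d, ‖(fun _ => (1:ℂ)) n‖ ≤ C := ⟨1, fun n => by simp⟩
  have h1 : ∀ m : Zd d, ∃ C, ∀ n : Zd d, ‖(if n = m then 1 else 0 : ℂ)‖ ≤ C := by
    intro m
    refine ⟨1, fun n => ?_⟩
    split_ifs <;> simp
  have h2 : ∃ C, ∀ n : Zd d, ‖(fun _ => (c:ℂ)) n‖ ≤ C := ⟨‖(c:ℂ)‖, fun n => le_rfl⟩
  let cf : Zd d → Cd d → ℂ := fun m k => q μ k m - c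
  let T : Cd d → (H2 d →L[ℂ] H2 d) := fun x =>
    (∑ m ∈ B, cf m x • Dg _ (h1 m)) + Dg _ h2 + Wop w h.hw
  have key := d2_core (X := Cd d) (w := w) (D := fun x => DB c μ L K x)
    (fun _ => (1:ℂ)) ha (fun _ => one_ne_zero) (T := T) ?_ k₀ ?_ ?_ h.inv f m₀
  · exact key.1
  · intro x v n
    have e3 : ∀ s : Finset (Zd d), (((∑ m ∈ s, cf m x • Dg _ (h1 m)) :
        H2 d →L[ℂ] H2 d) v) n = ∑ m ∈ s, cf m x * ((if n = m then 1 else 0) * v n) := by
      intro s
      induction s using Finset.induction_on with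
      | empty => simp
      | insert j s hj ih =>
        rw [Finset.sum_insert hj, Finset.sum_insert hj, ← ih]
        change cf j x * (Dg _ (h1 j) v) n + _ = _
        rw [Dg_apply]
        rfl
    change (((∑ m ∈ B, cf m x • Dg _ (h1 m)) : H2 d →L[ℂ] H2 d) v) n + (Dg _ h2 v) n +
      (Wop w h.hw v) n = _
    rw [e3, Dg_apply, Wop_apply]
    simp only [one_mul]
    congr 1
    have e4 : ∑ m ∈ B, cf m x * ((if n = m then 1 else 0) * v n) =
        if n ∈ B then cf n x * v n else 0 := by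
      by_cases hn : n ∈ B
      · rw [if_pos hn, Finset.sum_eq_single n]
        · simp
        · intro b _ hb
          rw [if_neg (Ne.symm hb)]
          ring
        · intro hn'
          exact absurd hn hn'
      · rw [if_neg hn]
        apply Finset.sum_eq_zero
        intro b hb
        rw [if_neg (by rintro rfl; exact hn hb)]
        ring
    rw [e4]
    unfold DB
    by_cases hn0 : n ∈ K
    · rw [if_neg (by rw [hB]; tauto), if_pos hn0]
      ring
    · by_cases hnL : ∃ n' ∈ K, ‖n - n'‖ ≤ L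
      · rw [if_pos ((hB n).2 ⟨hn0, hnL⟩), if_neg hn0, if_pos hnL]
        simp only [cf]
        ring
      · rw [if_neg (by rw [hB]; exact fun h => hnL h.2), if_neg hn0, if_neg hnL]
        ring
  · have e6 : ∀ m : Zd d, AnalyticAt ℂ (cf m) k₀ := by
      intro m
      have h4 : AnalyticAt ℂ (fun k : Cd d => k + zc m) k₀ :=
        analyticAt_id.add analyticAt_const
      exact ((d2_bil_analytic h4 h4).sub analyticAt_const).sub analyticAt_const
    have e5 : AnalyticAt ℂ (fun x : Cd d => (∑ m ∈ B, cf m x • Dg _ (h1 m) :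
        H2 d →L[ℂ] H2 d)) k₀ :=
      Finset.analyticAt_fun_sum _ fun m _ => (e6 m).smul analyticAt_const
    exact (e5.add analyticAt_const).add analyticAt_const
  · intro x f u hu
    refine ⟨u, ?_⟩
    ext n
    rw [Dg_apply, one_mul]

theorem DK_analytic (L : ℕ) (K : Finset (Zd d)) (k₀ : Cd d) (h : Adm w c (DB c μ L K k₀))
    (hs : ∀ m ∉ K, (∃ n ∈ K, ‖m - n‖ ≤ L) → c < ‖q μ k₀ m‖) :
    AnalyticAt ℂ (fun k => DK w c μ L K k) k₀ := by
  have _ := hs
  have h1 : ∀ n m : K, AnalyticAt ℂ (fun k => MK w c μ L K k n m) k₀ := by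
    intro n m
    unfold MK
    have h2 := bo_grn_analytic L K k₀ h (dlt (m : Zd d)) (n : Zd d)
    have h3 : AnalyticAt ℂ (fun k : Cd d => q μ k n) k₀ := by
      have h4 : AnalyticAt ℂ (fun k : Cd d => k + zc (n : Zd d)) k₀ :=
        analyticAt_id.add analyticAt_const
      exact (d2_bil_analytic h4 h4).sub analyticAt_const
    exact analyticAt_const.add ((h3.sub analyticAt_const).mul h2)
  unfold DK
  simp only [Matrix.det_apply]
  refine Finset.analyticAt_fun_sum _ fun σ _ => ?_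
  have h5 : AnalyticAt ℂ (fun k => ∏ i : K, MK w c μ L K k (σ i) i) k₀ :=
    Finset.analyticAt_fun_prod _ fun i _ => h1 _ _
  have h6 : ∀ k : Cd d, Equiv.Perm.sign σ • ∏ i : K, MK w c μ L K k (σ i) i =
      (((Equiv.Perm.sign σ : ℤ) : ℂ)) * ∏ i : K, MK w c μ L K k (σ i) i := by
    intro k
    rw [Units.smul_def, zsmul_eq_mul]
  simp only [h6]
  exact analyticAt_const.mul h5

/-! ### bounds -/

lemma bo_grn_entry {D : Zd d → ℂ} (h : Adm w c D) (n m : Zd d) :
    ‖(grn w D (dlt m)) n‖ ≤ 2 / c := by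
  have h1 := h.norm_grn (dlt m)
  rw [norm_dlt, mul_one] at h1
  exact (H2.norm_apply_le _ n).trans h1

lemma bo_entry_bound {D : Zd d → ℂ} (h : Adm w c D) {b : ℝ} {a : ℂ} (hb : ‖a‖ ≤ b)
    (n m : Zd d) :
    ‖(if n = m then (1:ℂ) else 0) + a * (grn w D (dlt m)) n‖ ≤ 1 + 2 * b / c := by
  have h1 := bo_grn_entry h n m
  have h2 : ‖(if n = m then (1:ℂ) else 0)‖ ≤ 1 := by split_ifs <;> simp
  have hb0 : 0 ≤ b := (norm_nonneg _).trans hb
  calc _ ≤ ‖(if n = m then (1:ℂ) else 0)‖ + ‖a * (grn w D (dlt m)) n‖ := norm_add_le _ _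
    _ ≤ 1 + b * (2 / c) := by
      rw [norm_mul]
      exact add_le_add h2 (mul_le_mul hb h1 (norm_nonneg _) hb0)
    _ = 1 + 2 * b / c := by ring

theorem MK_bound {L : ℕ} {K : Finset (Zd d)} {k : Cd d} (h : Adm w c (DB c μ L K k)) {b : ℝ}
    {n m : Zd d} (hb : ‖q μ k n - c‖ ≤ b) : ‖MK w c μ L K k n m‖ ≤ 1 + 2 * b / c :=
  bo_entry_bound h hb n m

theorem MS_bound {S : Finset (Zd d)} {k : Cd d} (h : Adm w c (DS c μ S k)) {b : ℝ}
    {n m : Zd d} (hb : ‖q μ k n - c‖ ≤ b) : ‖MS w c μ S k n m‖ ≤ 1 + 2 * b / c :=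
  bo_entry_bound h hb n m

theorem DK_upper {L : ℕ} {K : Finset (Zd d)} {k : Cd d} (h : Adm w c (DB c μ L K k)) {b : ℝ}
    (hb : ∀ n ∈ K, ‖q μ k n - c‖ ≤ b) :
    ‖DK w c μ L K k‖ ≤ K.card.factorial * (1 + 2 * b / c) ^ K.card := by
  have h1 := det_bound (A := (fun n m : K => MK w c μ L K k n m : Matrix K K ℂ))
    (b := 1 + 2 * b / c) (fun i j => MK_bound h (hb i i.2))
  rw [Fintype.card_coe] at h1
  exact h1

/-- the key estimate in `ℓ²` for the lower bound -/
lemma bo_low_aux {D : Zd d → ℂ} (h : Adm w c D) (K : Finset (Zd d)) (hDK : ∀ n ∈ K, D n = c)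
    (g : Zd d → ℂ) (hg : ∀ n, ‖g n‖ ≤ 1 / 8) (x y : Zd d → ℂ)
    (hy : ∀ n ∈ K, y n = g n * x n + c * ∑ m ∈ K, x m * (grn w D (dlt m)) n) :
    ‖(∑ m ∈ K, x m • dlt m : H2 d)‖ ≤ 3 * ‖(∑ m ∈ K, y m • dlt m : H2 d)‖ := by
  classical
  set X : H2 d := ∑ m ∈ K, x m • dlt m with hX
  set Y : H2 d := ∑ m ∈ K, y m • dlt m with hY
  set u : H2 d := ∑ m ∈ K, x m • grn w D (dlt m) with hu
  have hsol : Sol w D X u := blk_sol_sum h.hw K x fun m _ => h.grn_spec (dlt m)
  have hub : ‖u‖ ≤ 2 / c * ‖X‖ := h.bound hsol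
  have hc0 := h.c_pos
  have hch : ∃ C, ∀ n : Zd d, ‖(if n ∈ K then 1 else 0 : ℂ)‖ ≤ C := by
    refine ⟨1, fun n => ?_⟩
    split_ifs <;> simp
  have hgb : ∃ C, ∀ n : Zd d, ‖g n‖ ≤ C := ⟨_, hg⟩
  have hun : ∀ n, u n = ∑ m ∈ K, x m * (grn w D (dlt m)) n := by
    intro n
    rw [hu, lp.coeFn_sum, Finset.sum_apply]
    rfl
  have hXe : X = Y - Dg g hgb X + Dg _ hch (Wop w h.hw u) := by
    ext n
    have e1 : (Y - Dg g hgb X + Dg _ hch (Wop w h.hw u) : H2 d) n =
        Y n - g n * X n + (if n ∈ K then 1 else 0) * (Wop w h.hw u) n := rfl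
    rw [e1]
    have hXn : X n = if n ∈ K then x n else 0 := blk_sum_dlt K x n
    have hYn : Y n = if n ∈ K then y n else 0 := blk_sum_dlt K y n
    rw [hYn, hXn]
    by_cases hn : n ∈ K
    · rw [if_pos hn, if_pos hn, if_pos hn, hy n hn, Wop_apply]
      have h3 := hsol n
      rw [hXn, if_pos hn, hDK n hn] at h3
      rw [← hun n]
      linear_combination -h3
    · rw [if_neg hn, if_neg hn, if_neg hn]
      ring
  have h1 : ‖Dg g hgb X‖ ≤ 1 / 8 * ‖X‖ :=
    (ContinuousLinearMap.le_opNorm _ _).trans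
      (mul_le_mul_of_nonneg_right (norm_Dg_le _ _ (by norm_num) hg) (norm_nonneg _))
  have h2 : ‖Dg _ hch (Wop w h.hw u)‖ ≤ 1 / 2 * ‖X‖ := by
    calc ‖Dg _ hch (Wop w h.hw u)‖ ≤ 1 * ‖Wop w h.hw u‖ :=
          (ContinuousLinearMap.le_opNorm _ _).trans
            (mul_le_mul_of_nonneg_right (norm_Dg_le _ _ (by norm_num)
              (fun n => by split_ifs <;> simp)) (norm_nonneg _))
      _ ≤ (c / 4) * (2 / c * ‖X‖) := by
          rw [one_mul]
          refine (ContinuousLinearMap.le_opNorm _ _).trans ?_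
          refine mul_le_mul ((norm_Wop_le h.hw).trans ?_) hub (norm_nonneg _) (by positivity)
          have := h.hc
          linarith
      _ = 1 / 2 * ‖X‖ := by field_simp; ring
  have h3 : ‖X‖ ≤ ‖Y‖ + 1 / 8 * ‖X‖ + 1 / 2 * ‖X‖ := by
    calc ‖X‖ = ‖Y - Dg g hgb X + Dg _ hch (Wop w h.hw u)‖ := by rw [← hXe]
      _ ≤ ‖Y - Dg g hgb X‖ + ‖Dg _ hch (Wop w h.hw u)‖ := norm_add_le _ _
      _ ≤ ‖Y‖ + ‖Dg g hgb X‖ + ‖Dg _ hch (Wop w h.hw u)‖ := by
          gcongr
          exact norm_sub_le _ _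
      _ ≤ _ := by gcongr
  have h4 := norm_nonneg Y
  linarith

lemma bo_norm_sum (K : Finset (Zd d)) (x : Zd d → ℂ) :
    ‖(∑ m ∈ K, x m • dlt m : H2 d)‖ ^ 2 = ∑ m ∈ K, ‖x m‖ ^ 2 := by
  classical
  have h1 := lp.norm_sum_single (E := fun _ : Zd d => ℂ) (p := 2) (by norm_num) x K
  have h2 : (∑ m ∈ K, x m • dlt m : H2 d) = ∑ m ∈ K, lp.single 2 m (x m) := by
    refine Finset.sum_congr rfl fun m _ => ?_
    unfold dlt
    rw [← lp.single_smul, smul_eq_mul, mul_one]
  rw [h2]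
  have h3 : (2 : ENNReal).toReal = ((2 : ℕ) : ℝ) := by norm_num
  rw [h3] at h1
  simp only [Real.rpow_natCast] at h1
  exact h1

theorem DK_lower {L : ℕ} {K : Finset (Zd d)} {k : Cd d} (h : Adm w c (DB c μ L K k))
    (hb : ∀ n ∈ K, 8 * c ≤ ‖q μ k n - c‖) : 1 / (K.card.factorial : ℝ) ≤ ‖DK w c μ L K k‖ := by
  classical
  have hc0 := h.c_pos
  have hcC : (c : ℂ) ≠ 0 := Complex.ofReal_ne_zero.2 hc0.ne'
  have hq0 : ∀ n ∈ K, q μ k n - c ≠ 0 := by
    intro n hn h0
    have h1 := hb n hn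
    rw [h0, norm_zero] at h1
    linarith
  have hDK : ∀ n ∈ K, DB c μ L K k n = c := by
    intro n hn
    unfold DB
    rw [if_pos hn]
  set D := DB c μ L K k with hD
  let g : Zd d → ℂ := fun n => if n ∈ K then (c : ℂ) / (q μ k n - c) else 0
  have hg : ∀ n, ‖g n‖ ≤ 1 / 8 := by
    intro n
    simp only [g]
    split_ifs with hn
    · rw [norm_div, Complex.norm_real, Real.norm_of_nonneg hc0.le]
      have h1 := hb n hn
      rw [div_le_iff₀ (by linarith)]
      linarith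
    · rw [norm_zero]; norm_num
  let T : Matrix K K ℂ := fun n m => (if n = m then g n else 0) + c * (grn w D (dlt (m : Zd d))) n
  have hT := det_lower (T := T) (B := 3) (by norm_num) (by
    intro x
    let x' : Zd d → ℂ := fun n => if hn : n ∈ K then x ⟨n, hn⟩ else 0
    let y' : Zd d → ℂ := fun n => if hn : n ∈ K then T.mulVec x ⟨n, hn⟩ else 0
    have hx' : ∀ i : K, x' i = x i := by
      intro i
      simp only [x']
      rw [dif_pos i.2]
    have hy' : ∀ i : K, y' i = T.mulVec x i := by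
      intro i
      simp only [y']
      rw [dif_pos i.2]
    have h1 := bo_low_aux h K hDK g hg x' y' (by
      intro n hn
      rw [hy' ⟨n, hn⟩]
      unfold Matrix.mulVec dotProduct
      simp only [T, add_mul, Finset.sum_add_distrib]
      congr 1
      · rw [Finset.sum_eq_single (⟨n, hn⟩ : K)]
        · rw [if_pos rfl, ← hx' ⟨n, hn⟩]
        · intro m _ hm
          rw [if_neg (Ne.symm hm), zero_mul]
        · intro h; exact absurd (Finset.mem_univ _) h
      · rw [Finset.mul_sum, ← Finset.sum_coe_sort K]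
        refine Finset.sum_congr rfl fun m _ => ?_
        rw [hx' m]
        ring)
    have h2 : ‖(∑ m ∈ K, x' m • dlt m : H2 d)‖ ^ 2 ≤
        3 ^ 2 * ‖(∑ m ∈ K, y' m • dlt m : H2 d)‖ ^ 2 := by
      rw [← mul_pow]
      exact pow_le_pow_left₀ (norm_nonneg _) h1 2
    rw [bo_norm_sum, bo_norm_sum, ← Finset.sum_coe_sort K, ← Finset.sum_coe_sort K] at h2
    simp only [hx', hy'] at h2
    exact h2)
  rw [Fintype.card_coe] at hT
  have hM : (fun n m : K => MK w c μ L K k n m : Matrix K K ℂ) =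
      Matrix.diagonal (fun n : K => (q μ k n - c) / c) * T := by
    funext n m
    rw [Matrix.diagonal_mul]
    simp only [T, MK]
    rw [← hD]
    have h1 := hq0 n n.2
    by_cases hnm : n = m
    · subst hnm
      rw [if_pos rfl, if_pos rfl]
      simp only [g]
      rw [if_pos n.2]
      field_simp
    · have hnm' : (n : Zd d) ≠ m := fun h => hnm (Subtype.ext h)
      rw [if_neg hnm, if_neg hnm']
      field_simp
      ring
  have hdet : DK w c μ L K k = (∏ n : K, (q μ k n - c) / c) * T.det := by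
    unfold DK
    rw [hM, Matrix.det_mul, Matrix.det_diagonal]
  have hprod : (8 : ℝ) ^ K.card ≤ ‖∏ n : K, (q μ k n - c) / (c : ℂ)‖ := by
    rw [norm_prod]
    have h1 : ∏ _n : K, (8 : ℝ) = 8 ^ K.card := by
      rw [Finset.prod_const, Finset.card_univ, Fintype.card_coe]
    rw [← h1]
    refine Finset.prod_le_prod (fun _ _ => by norm_num) (fun n _ => ?_)
    rw [norm_div, Complex.norm_real, Real.norm_of_nonneg hc0.le, le_div_iff₀ hc0]
    exact hb n n.2
  rw [hdet, norm_mul]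
  have h3 : (1 : ℝ) / (K.card.factorial) ≤ 8 ^ K.card * (1 / (K.card.factorial * 3 ^ K.card)) := by
    have h4 : (3 : ℝ) ^ K.card ≤ 8 ^ K.card := pow_le_pow_left₀ (by norm_num) (by norm_num) _
    have h5 : (0 : ℝ) < K.card.factorial := by exact_mod_cast Nat.factorial_pos _
    have h6 : (0 : ℝ) < 3 ^ K.card := by positivity
    rw [mul_one_div, div_le_div_iff₀ h5 (by positivity)]
    nlinarith
  exact h3.trans (mul_le_mul hprod hT (by positivity) (norm_nonneg _))

/-- comparison of the Green function of the block and of the whole set -/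
theorem blk_entry (P : Sc d μ w) {S K : Finset (Zd d)} {k : Cd d} (hKS : K ⊆ S)
    (hfar : ∀ n ∈ K, ∀ m ∈ S, m ∉ K → (P.L : ℝ) < ‖m - n‖)
    (h : Adm w P.c (DS P.c μ S k)) (h' : Adm w P.c (DB P.c μ P.L K k)) {b : ℝ} {n m : Zd d}
    (hm : m ∈ K) (hb : ‖q μ k n - P.c‖ ≤ b) :
    ‖MS w P.c μ S k n m - MK w P.c μ P.L K k n m‖ ≤ b * (4 * P.ε) := by
  have h1 := col_cmp h h' m (L := P.L) (by
    intro x hx
    unfold DS DB
    by_cases hxK : x ∈ K
    · rw [if_pos (hKS hxK), if_pos hxK]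
    · have hxS : x ∉ S := fun hxS => absurd hx (not_le.2 (hfar m hm x hxS hxK))
      rw [if_neg hxS, if_neg hxK, if_pos ⟨m, hm, hx⟩]) P.hJ P.hε1 P.hε2
  have h2 : MS w P.c μ S k n m - MK w P.c μ P.L K k n m =
      (q μ k n - P.c) * ((grn w (DS P.c μ S k) (dlt m) - grn w (DB P.c μ P.L K k) (dlt m) : H2 d) n) := by
    have e : (grn w (DS P.c μ S k) (dlt m) - grn w (DB P.c μ P.L K k) (dlt m) : H2 d) n =
      (grn w (DS P.c μ S k) (dlt m)) n - (grn w (DB P.c μ P.L K k) (dlt m)) n := rfl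
    rw [e]
    unfold MS MK gS
    ring
  rw [h2, norm_mul]
  exact mul_le_mul hb ((H2.norm_apply_le _ n).trans h1) (norm_nonneg _)
    ((norm_nonneg _).trans hb)

lemma bo_q_shift (k : Cd d) (n n₀ : Zd d) : q μ (k + zc n₀) n = q μ k (n + n₀) := by
  unfold q
  have : k + zc n₀ + zc n = k + zc (n + n₀) := by
    funext j
    simp only [Pi.add_apply, zc]
    push_cast
    ring
  rw [this]

theorem single_entry (P : Sc d μ w) {S : Finset (Zd d)} {k : Cd d} {n : Zd d} (hn : n ∈ S)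
    (hfar : ∀ m ∈ S, m ≠ n → (P.L : ℝ) < ‖m - n‖) (h : Adm w P.c (DS P.c μ S k))
    (hcl : ∀ l' : Zd d, l' ≠ 0 → ‖l'‖ ≤ P.L → P.G ≤ ‖q μ k (n + l')‖)
    (hb : ‖q μ k n - P.c‖ ≤ 3 * P.c) :
    ‖Ehat P (k + zc n)‖ / (2 * P.c) - 12 * P.c * P.ε ≤ ‖MS w P.c μ S k n n‖ := by
  have hq0 : q μ (k + zc n) 0 = q μ k n := by rw [bo_q_shift, zero_add]
  have hqm : ∀ m : Zd d, q μ k n + 2 * bil (k + zc n) (zc m) + bil (zc m) (zc m) =
      q μ k (n + m) := by
    intro m
    have h1 := q_eq (μ := μ) (k + zc n) m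
    rw [hq0, bo_q_shift, add_comm m n] at h1
    exact h1.symm
  have hcl' : Cl P (P.G / 2) (q μ k n) (k + zc n) := by
    intro m hm hmL
    rw [hqm m]
    have h1 := hcl m hm hmL
    have h2 := P.G_pos
    linarith
  have hadm := hcl'.adm
  have hadm' : Adm w P.c (fun m => Dloc P.c P.L (q μ k n) (k + zc n) (m - n)) :=
    ⟨hadm.hw, hadm.hc, fun m => hadm.hD (m - n)⟩
  have h1 := col_cmp h hadm' n (L := P.L) (by
    intro x hx
    unfold DS Dloc
    by_cases hxn : x = n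
    · rw [hxn, if_pos hn, sub_self, if_pos rfl]
    · have hxS : x ∉ S := fun hxS => absurd hx (not_le.2 (hfar x hxS hxn))
      rw [if_neg hxS, if_neg (sub_ne_zero.2 hxn), if_pos hx, hqm, add_sub_cancel]) P.hJ P.hε1 P.hε2
  have h2 := hadm.grn_shift n
  set g := gam P (q μ k n) (k + zc n) with hg
  have hgeq : (grn w (fun m => Dloc P.c P.L (q μ k n) (k + zc n) (m - n)) (dlt n)) n = g := h2
  have h3 : ‖gS w P.c μ S k n n - g‖ ≤ 4 * P.ε := by
    rw [← hgeq]
    exact (H2.norm_apply_le (grn w (DS P.c μ S k) (dlt n) -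
      grn w (fun m => Dloc P.c P.L (q μ k n) (k + zc n) (m - n)) (dlt n)) n).trans h1
  have hgne : g ≠ 0 := gam_ne P hcl'
  have hE : 1 + (q μ k n - P.c) * g = g * Ehat P (k + zc n) := by
    unfold Ehat Hh
    rw [hq0, ← hg]
    field_simp
    ring
  have hMS : MS w P.c μ S k n n = g * Ehat P (k + zc n) +
      (q μ k n - P.c) * (gS w P.c μ S k n n - g) := by
    rw [← hE]
    unfold MS
    rw [if_pos rfl]
    ring
  have hc := P.c_ge
  have h4 : ‖(q μ k n - P.c) * (gS w P.c μ S k n n - g)‖ ≤ 12 * P.c * P.ε := by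
    rw [norm_mul]
    calc _ ≤ 3 * P.c * (4 * P.ε) :=
          mul_le_mul hb h3 (norm_nonneg _) (by linarith)
      _ = 12 * P.c * P.ε := by ring
  have h5 : ‖Ehat P (k + zc n)‖ / (2 * P.c) ≤ ‖g * Ehat P (k + zc n)‖ := by
    rw [norm_mul, div_eq_mul_one_div, mul_comm]
    exact mul_le_mul_of_nonneg_right (gam_bounds P hcl').1 (norm_nonneg _)
  have h6 : ‖g * Ehat P (k + zc n)‖ ≤ ‖MS w P.c μ S k n n‖ +
      ‖(q μ k n - P.c) * (gS w P.c μ S k n n - g)‖ := by
    have e : g * Ehat P (k + zc n) = MS w P.c μ S k n n -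
      (q μ k n - P.c) * (gS w P.c μ S k n n - g) := by
      rw [hMS]; ring
    calc ‖g * Ehat P (k + zc n)‖ = ‖MS w P.c μ S k n n -
      (q μ k n - P.c) * (gS w P.c μ S k n n - g)‖ := by rw [← e]
      _ ≤ _ := norm_sub_le _ _
  linarith

theorem off_entry (P : Sc d μ w) {S : Finset (Zd d)} {k : Cd d} {n m : Zd d}
    (hnm : (P.L : ℝ) < ‖n - m‖) (h : Adm w P.c (DS P.c μ S k)) :
    ‖gS w P.c μ S k n m‖ ≤ 4 * P.ε :=
  col_far h m n hnm P.hJ P.hε1 P.hε2

/-- block diagonal dominance -/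
theorem notmem_of_blocks {ι : Type*} [DecidableEq ι] (S : Finset (Zd d)) (k : Cd d)
    (h : Adm w c (DS c μ S k)) (β : Zd d → ι) {η ε₀ b : ℝ} {m₀ : ℕ} (hε0 : 0 ≤ ε₀)
    (hη0 : 0 < η) (hb : ∀ n ∈ S, ‖q μ k n - c‖ ≤ b)
    (hcard : ∀ n ∈ S, (S.filter fun m => β m = β n).card ≤ m₀)
    (hdet : ∀ n ∈ S, η ≤ ‖Matrix.det
      (fun i j : (S.filter fun m => β m = β n) => MS w c μ S k i j)‖)
    (hoff : ∀ n ∈ S, ∀ m ∈ S, β n ≠ β m → ‖gS w c μ S k n m‖ ≤ ε₀)
    (hsmall : m₀ * m₀.factorial * (1 + 2 * b / c) ^ m₀ * (S.card * (b * ε₀)) < η) :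
    k ∉ FS μ w := by
  classical
  rintro ⟨u, hu0, hu⟩
  have hc0 := h.c_pos
  have hsol := blk_fs (c := c) (S := S) hu
  have happ : ∀ n, u n = ∑ m ∈ S, (((c : ℂ) - q μ k m) * u m) * gS w c μ S k n m := by
    intro n
    have h1 := blk_apply h S (fun m => (DS c μ S k m - q μ k m) * u m) hsol n
    have h2 : grn w (DS c μ S k) 0 = 0 := h.grn_eq (blk_sol_zero _)
    rw [h2] at h1
    rw [h1, lp.coeFn_zero, Pi.zero_apply, zero_add]
    refine Finset.sum_congr rfl fun m hm => ?_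
    simp [DS, hm]
  let x : Zd d → ℂ := fun n => (q μ k n - c) * u n
  have hx : ∀ n, u n = - ∑ m ∈ S, x m * gS w c μ S k n m := by
    intro n
    rw [happ n, ← Finset.sum_neg_distrib]
    refine Finset.sum_congr rfl fun m _ => ?_
    simp only [x]
    ring
  have hne : ∃ n ∈ S, x n ≠ 0 := by
    by_contra hcon
    push Not at hcon
    apply hu0
    ext j
    rw [hx j, lp.coeFn_zero, Pi.zero_apply, neg_eq_zero]
    refine Finset.sum_eq_zero fun m hm => ?_
    rw [hcon m hm, zero_mul]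
  obtain ⟨n₁, hn₁, hxn₁⟩ := hne
  obtain ⟨n, hn, hmax⟩ := S.exists_max_image (fun n => ‖x n‖) ⟨n₁, hn₁⟩
  have hX : 0 < ‖x n‖ := lt_of_lt_of_le (norm_pos_iff.2 hxn₁) (hmax n₁ hn₁)
  have hb0 : 0 ≤ b := le_trans (norm_nonneg _) (hb n hn)
  -- the equations
  have hMS : ∀ i ∈ S, ∑ m ∈ S, MS w c μ S k i m * x m = 0 := by
    intro i hi
    have h1 : ∀ m, MS w c μ S k i m * x m =
        (if i = m then x m else 0) + (q μ k i - c) * (x m * gS w c μ S k i m) := by
      intro m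
      unfold MS
      by_cases him : i = m
      · rw [if_pos him, if_pos him]; ring
      · rw [if_neg him, if_neg him]; ring
    rw [Finset.sum_congr rfl fun m _ => h1 m, Finset.sum_add_distrib, Finset.sum_ite_eq,
      if_pos hi, ← Finset.mul_sum]
    have h2 := hx i
    have h3 : ∑ m ∈ S, x m * gS w c μ S k i m = - u i := by rw [h2, neg_neg]
    rw [h3]
    simp only [x]
    ring
  set T : Finset (Zd d) := S.filter fun m => β m = β n with hT
  have hTS : ∀ i ∈ T, i ∈ S := fun i hi => (Finset.mem_filter.1 hi).1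
  have hTβ : ∀ i ∈ T, β i = β n := fun i hi => (Finset.mem_filter.1 hi).2
  have hnT : n ∈ T := Finset.mem_filter.2 ⟨hn, rfl⟩
  let A : Matrix T T ℂ := fun i j => MS w c μ S k i j
  let xT : T → ℂ := fun i => x i
  have hyb : ∀ i : T, ‖A.mulVec xT i‖ ≤ S.card * (b * ε₀) * ‖x n‖ := by
    intro i
    have h1 : A.mulVec xT i = ∑ m ∈ T, MS w c μ S k i m * x m := by
      unfold Matrix.mulVec dotProduct
      exact Finset.sum_coe_sort T (fun m => MS w c μ S k i m * x m)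
    have h2 : ∑ m ∈ T, MS w c μ S k i m * x m +
        ∑ m ∈ S.filter (fun m => ¬ β m = β n), MS w c μ S k i m * x m = 0 := by
      have h0 := Finset.sum_filter_add_sum_filter_not S (fun m => β m = β n)
        (fun m => MS w c μ S k i m * x m)
      rw [hMS i (hTS i i.2)] at h0
      exact h0
    have h3 : A.mulVec xT i =
        - ∑ m ∈ S.filter (fun m => ¬ β m = β n), MS w c μ S k i m * x m := by
      rw [h1]; exact eq_neg_of_add_eq_zero_left h2
    rw [h3, norm_neg]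
    calc _ ≤ ∑ m ∈ S.filter (fun m => ¬ β m = β n), ‖MS w c μ S k i m * x m‖ := norm_sum_le _ _
      _ ≤ ∑ m ∈ S.filter (fun m => ¬ β m = β n), b * ε₀ * ‖x n‖ := by
          refine Finset.sum_le_sum fun m hm => ?_
          obtain ⟨hmS, hmβ⟩ := Finset.mem_filter.1 hm
          have h4 : (i : Zd d) ≠ m := by
            intro him
            apply hmβ
            rw [← him]
            exact hTβ i i.2
          have h5 : β (i : Zd d) ≠ β m := by
            rw [hTβ i i.2]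
            exact fun h => hmβ h.symm
          rw [norm_mul]
          unfold MS
          rw [if_neg h4, zero_add, norm_mul]
          have h6 := hb i (hTS i i.2)
          have h7 := hoff i (hTS i i.2) m hmS h5
          have h8 := hmax m hmS
          exact mul_le_mul (mul_le_mul h6 h7 (norm_nonneg _) hb0) h8 (norm_nonneg _)
            (mul_nonneg hb0 hε0)
      _ = (S.filter (fun m => ¬ β m = β n)).card * (b * ε₀ * ‖x n‖) := by
          rw [Finset.sum_const, nsmul_eq_mul]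
      _ ≤ S.card * (b * ε₀ * ‖x n‖) := by
          have h9 : ((S.filter (fun m => ¬ β m = β n)).card : ℝ) ≤ S.card := by
            exact_mod_cast Finset.card_le_card (Finset.filter_subset _ _)
          have h10 : 0 ≤ b * ε₀ * ‖x n‖ := by positivity
          exact mul_le_mul_of_nonneg_right h9 h10
      _ = S.card * (b * ε₀) * ‖x n‖ := by ring
  have hb1 : 1 ≤ 1 + 2 * b / c := by
    have : 0 ≤ 2 * b / c := by positivity
    linarith
  have hsolve := solve_bound (A := A) (b := 1 + 2 * b / c) (η := η)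
    (t := S.card * (b * ε₀) * ‖x n‖) hb1 hη0 (fun i j => MS_bound h (hb i (hTS i i.2)))
    (hdet n hn) (x := xT) rfl hyb ⟨n, hnT⟩
  rw [Fintype.card_coe] at hsolve
  have hcT := hcard n hn
  rw [← hT] at hcT
  have h11 : (T.card : ℝ) * T.card.factorial * (1 + 2 * b / c) ^ T.card ≤
      m₀ * m₀.factorial * (1 + 2 * b / c) ^ m₀ := by
    have e1 : (T.card : ℝ) ≤ m₀ := by exact_mod_cast hcT
    have e2 : (T.card.factorial : ℝ) ≤ m₀.factorial := by
      exact_mod_cast Nat.factorial_le hcT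
    have e3 : (1 + 2 * b / c) ^ T.card ≤ (1 + 2 * b / c) ^ m₀ := pow_le_pow_right₀ hb1 hcT
    gcongr
  have h12 : ‖x n‖ * η ≤ m₀ * m₀.factorial * (1 + 2 * b / c) ^ m₀ *
      (S.card * (b * ε₀) * ‖x n‖) := by
    rw [le_div_iff₀ hη0] at hsolve
    refine hsolve.trans ?_
    exact mul_le_mul_of_nonneg_right h11
      (mul_nonneg (mul_nonneg (Nat.cast_nonneg _) (mul_nonneg hb0 hε0)) (norm_nonneg _))
  have h13 : ‖x n‖ * η < ‖x n‖ * η := by
    calc ‖x n‖ * η ≤ ‖x n‖ * (m₀ * m₀.factorial * (1 + 2 * b / c) ^ m₀ *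
        (S.card * (b * ε₀))) := by linarith
      _ < ‖x n‖ * η := mul_lt_mul_of_pos_left hsmall hX
  exact lt_irrefl _ h13

end Fermi
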