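import Mathlib

/-!
# Chunk CT: a Cartan type lower bound for analytic functions of one variable

Let `ζ_1, .., ζ_m` be the zeros of `f` in `closedBall z₀ (6ρ)` (with multiplicity), `g = f / ∏ (z - ζ_i)`.
On `|z - z₀| = 20ρ`: `|z - ζ_i| ≥ 14ρ`, so `|g| ≤ b/(14ρ)^m` on the whole ball; `|g z₁| ≥ a/(7ρ)^m`. Hence `2^m ≤ b/a`.
`g` has no zeros in `ball z₁ (5ρ)`, so `g = g z₁ * exp h` there with `re h ≤ log (b/a)`, `h z₁ = 0`, and
`Complex.borelCaratheodory_zero` gives `|h z| ≤ 2 log(b/a) * 2ρ/(5ρ - 2ρ)` for `|z - z₁| ≤ 2ρ`. (Use `log (b/a) + 1` or similar if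
`b = a`; the exponents `9` and `30` leave room.)
-/

open scoped BigOperators Topology
open Set Filter

noncomputable section

namespace Fermi

private theorem prod_lower (Z : Multiset ℂ) (z : ℂ) {c : ℝ} (hc : 0 ≤ c)
    (h : ∀ ζ ∈ Z, c ≤ ‖z - ζ‖) : c ^ Multiset.card Z ≤ ‖(Z.map fun ζ => z - ζ).prod‖ := by
  induction Z using Multiset.induction with
  | empty => simp
  | cons a Z ih =>
    rw [Multiset.map_cons, Multiset.prod_cons, norm_mul, Multiset.card_cons, pow_succ']
    exact mul_le_mul (h a (Multiset.mem_cons_self a Z))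
      (ih fun ζ hζ => h ζ (Multiset.mem_cons_of_mem hζ)) (pow_nonneg hc _) (norm_nonneg _)

private theorem prod_upper (Z : Multiset ℂ) (z : ℂ) {c : ℝ} (hc : 0 ≤ c)
    (h : ∀ ζ ∈ Z, ‖z - ζ‖ ≤ c) : ‖(Z.map fun ζ => z - ζ).prod‖ ≤ c ^ Multiset.card Z := by
  induction Z using Multiset.induction with
  | empty => simp
  | cons a Z ih =>
    rw [Multiset.map_cons, Multiset.prod_cons, norm_mul, Multiset.card_cons, pow_succ']
    exact mul_le_mul (h a (Multiset.mem_cons_self a Z))
      (ih fun ζ hζ => h ζ (Multiset.mem_cons_of_mem hζ)) (norm_nonneg _) hc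

/-- a zero-free differentiable function on a disc has a logarithm there -/
private theorem exists_log {g : ℂ → ℂ} {c : ℂ} {r : ℝ} (hr : 0 < r)
    (hg : DifferentiableOn ℂ g (Metric.ball c r)) (h0 : ∀ z ∈ Metric.ball c r, g z ≠ 0) :
    ∃ h : ℂ → ℂ, DifferentiableOn ℂ h (Metric.ball c r) ∧ h c = 0 ∧
      ∀ z ∈ Metric.ball c r, g z = g c * Complex.exp (h z) := by
  have hd : DifferentiableOn ℂ (fun z => deriv g z / g z) (Metric.ball c r) :=
    (hg.deriv Metric.isOpen_ball).div hg h0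
  obtain ⟨h, hc, hh⟩ := (hd.isExactOn_ball).with_val_at c 0
  have hhd : DifferentiableOn ℂ h (Metric.ball c r) :=
    fun z hz => (hh z hz).differentiableAt.differentiableWithinAt
  refine ⟨h, hhd, hc, ?_⟩
  have hq : ∀ z ∈ Metric.ball c r,
      HasDerivAt (fun z => g z * Complex.exp (-h z)) 0 z := by
    intro z hz
    have h1 : HasDerivAt g (deriv g z) z :=
      (hg.differentiableAt (Metric.isOpen_ball.mem_nhds hz)).hasDerivAt
    have h2 : HasDerivAt (fun z => Complex.exp (-h z))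
        (Complex.exp (-h z) * (-(deriv g z / g z))) z := ((hh z hz).neg).cexp
    have h3 := h1.mul h2
    have h4 : deriv g z * Complex.exp (-h z) +
        g z * (Complex.exp (-h z) * (-(deriv g z / g z))) = 0 := by
      have := h0 z hz
      field_simp
      ring
    rw [h4] at h3
    exact h3
  intro z hz
  have hcc : c ∈ Metric.ball c r := Metric.mem_ball_self hr
  have hconst : g z * Complex.exp (-h z) = g c * Complex.exp (-h c) := by
    have h1 : DifferentiableOn ℂ (fun z => g z * Complex.exp (-h z)) (Metric.ball c r) :=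
      fun w hw => (hq w hw).differentiableAt.differentiableWithinAt
    exact (convex_ball c r).is_const_of_fderivWithin_eq_zero h1
      (fun w hw => by
        rw [fderivWithin_of_isOpen Metric.isOpen_ball hw]
        have := (hq w hw).hasFDerivAt.fderiv
        rw [this]
        ext
        simp) hz hcc
  rw [hc, neg_zero, Complex.exp_zero, mul_one] at hconst
  rw [← hconst, mul_assoc, ← Complex.exp_add]
  simp

theorem cartan {f : ℂ → ℂ} {z₀ z₁ : ℂ} {ρ a b : ℝ} (hρ : 0 < ρ) (ha : 0 < a)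
    (hf : AnalyticOnNhd ℂ f (Metric.closedBall z₀ (20 * ρ)))
    (hb : ∀ z ∈ Metric.closedBall z₀ (20 * ρ), ‖f z‖ ≤ b)
    (hz₁ : ‖z₁ - z₀‖ ≤ ρ) (h₁ : a ≤ ‖f z₁‖) :
    ∃ Z : Multiset ℂ, (2 : ℝ) ^ (Multiset.card Z) ≤ b / a ∧
      ∀ δ : ℝ, 0 < δ → δ ≤ ρ → ∀ z : ℂ, ‖z - z₀‖ ≤ ρ → (∀ ζ ∈ Z, δ ≤ ‖z - ζ‖) →
        a * (a / b) ^ 9 * (δ / (30 * ρ)) ^ (Multiset.card Z) ≤ ‖f z‖ := by
  classical
  set U : Set ℂ := {z | AnalyticAt ℂ f z} with hU
  have hUo : IsOpen U := isOpen_analyticAt ℂ f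
  have hUK : Metric.closedBall z₀ (20 * ρ) ⊆ U := fun z hz => hf z hz
  have hfU : DifferentiableOn ℂ f U := fun z hz => (hz : AnalyticAt ℂ f z).differentiableAt.differentiableWithinAt
  let P : ℕ → Prop := fun m => ∃ Z : Multiset ℂ, Multiset.card Z = m ∧ (∀ ζ ∈ Z, ‖ζ - z₀‖ ≤ 6 * ρ) ∧
    ∃ g : ℂ → ℂ, DifferentiableOn ℂ g U ∧ ∀ z, f z = (Z.map fun ζ => z - ζ).prod * g z
  have hP0 : P 0 := ⟨0, rfl, by simp, f, hfU, by simp⟩
  -- bounds for `g`
  have hgb : ∀ (Z : Multiset ℂ), (∀ ζ ∈ Z, ‖ζ - z₀‖ ≤ 6 * ρ) → ∀ g : ℂ → ℂ,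
      DifferentiableOn ℂ g U → (∀ z, f z = (Z.map fun ζ => z - ζ).prod * g z) →
      (∀ z ∈ Metric.closedBall z₀ (20 * ρ), ‖g z‖ ≤ b / (14 * ρ) ^ Multiset.card Z) ∧
      a / (7 * ρ) ^ Multiset.card Z ≤ ‖g z₁‖ := by
    intro Z hZ g hg hfg
    constructor
    · intro z hz
      have hcl : closure (Metric.ball z₀ (20 * ρ)) = Metric.closedBall z₀ (20 * ρ) :=
        closure_ball z₀ (by positivity)
      refine Complex.norm_le_of_forall_mem_frontier_norm_le (U := Metric.ball z₀ (20 * ρ))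
        Metric.isBounded_ball ?_ ?_ (by rw [hcl]; exact hz)
      · apply DifferentiableOn.diffContOnCl
        rw [hcl]
        exact hg.mono hUK
      · intro w hw
        rw [frontier_ball z₀ (by positivity)] at hw
        have hw' : ‖w - z₀‖ = 20 * ρ := by rw [← dist_eq_norm]; exact hw
        have h1 : (14 * ρ) ^ Multiset.card Z ≤ ‖(Z.map fun ζ => w - ζ).prod‖ := by
          refine prod_lower Z w (by positivity) ?_
          intro ζ hζ
          have h2 := norm_sub_norm_le (w - z₀) (ζ - z₀)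
          rw [sub_sub_sub_cancel_right] at h2
          have := hZ ζ hζ
          linarith
        have h2 : ‖f w‖ ≤ b := hb w (Metric.sphere_subset_closedBall hw)
        rw [hfg w, norm_mul] at h2
        rw [le_div_iff₀ (by positivity), mul_comm]
        exact (mul_le_mul_of_nonneg_right h1 (norm_nonneg _)).trans h2
    · have h1 : ‖(Z.map fun ζ => z₁ - ζ).prod‖ ≤ (7 * ρ) ^ Multiset.card Z := by
        refine prod_upper Z z₁ (by positivity) ?_
        intro ζ hζ
        have h2 := norm_sub_le (z₁ - z₀) (ζ - z₀)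
        rw [sub_sub_sub_cancel_right] at h2
        have := hZ ζ hζ
        linarith
      rw [div_le_iff₀ (by positivity)]
      rw [hfg z₁, norm_mul] at h₁
      refine h₁.trans ?_
      rw [mul_comm]
      exact mul_le_mul_of_nonneg_left h1 (norm_nonneg _)
  have hz₁K : z₁ ∈ Metric.closedBall z₀ (20 * ρ) := by
    rw [Metric.mem_closedBall, dist_eq_norm]
    linarith
  have hab : a ≤ b := h₁.trans (hb z₁ hz₁K)
  have hb0 : 0 < b := ha.trans_le hab
  have hpow : ∀ m, P m → (2 : ℝ) ^ m ≤ b / a := by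
    rintro m ⟨Z, rfl, hZ, g, hg, hfg⟩
    obtain ⟨h2, h3⟩ := hgb Z hZ g hg hfg
    have h4 := h3.trans (h2 z₁ hz₁K)
    rw [div_le_div_iff₀ (by positivity) (by positivity)] at h4
    rw [le_div_iff₀ ha]
    have h5 : (14 * ρ) ^ Multiset.card Z = 2 ^ Multiset.card Z * (7 * ρ) ^ Multiset.card Z := by
      rw [← mul_pow]
      ring_nf
    rw [h5] at h4
    have h6 : 0 < (7 * ρ) ^ Multiset.card Z := by positivity
    have h7 : (2 ^ Multiset.card Z * a) * (7 * ρ) ^ Multiset.card Z ≤
        b * (7 * ρ) ^ Multiset.card Z := by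
      calc (2 ^ Multiset.card Z * a) * (7 * ρ) ^ Multiset.card Z
          = a * (2 ^ Multiset.card Z * (7 * ρ) ^ Multiset.card Z) := by ring
        _ ≤ _ := h4
    exact le_of_mul_le_mul_right h7 h6
  -- a maximal `m`
  obtain ⟨N, hN⟩ : ∃ N : ℕ, b / a < (2 : ℝ) ^ N := pow_unbounded_of_one_lt _ one_lt_two
  have hPN : ∀ m, P m → m ≤ N := by
    intro m hm
    by_contra hlt
    push Not at hlt
    have h2 := hpow m hm
    have h3 : (2 : ℝ) ^ N ≤ 2 ^ m := pow_le_pow_right₀ one_le_two hlt.le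
    linarith
  have hmax : P (Nat.findGreatest P N) := Nat.findGreatest_spec (Nat.zero_le N) hP0
  have hmax' : ¬ P (Nat.findGreatest P N + 1) := by
    intro h
    have h2 := Nat.le_findGreatest (hPN _ h) h
    omega
  obtain ⟨Z, hZc, hZ, g, hg, hfg⟩ := hmax
  rw [← hZc] at hmax'
  have hZP : P (Multiset.card Z) := ⟨Z, rfl, hZ, g, hg, hfg⟩
  refine ⟨Z, hpow _ hZP, ?_⟩
  -- `g` has no zero in the ball of radius `6 ρ`
  have hg0 : ∀ ζ, ‖ζ - z₀‖ ≤ 6 * ρ → g ζ ≠ 0 := by
    intro ζ hζ h0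
    apply hmax'
    have hζU : ζ ∈ U := hUK (by rw [Metric.mem_closedBall, dist_eq_norm]; linarith)
    refine ⟨ζ ::ₘ Z, by simp, ?_, dslope g ζ, ?_, ?_⟩
    · intro ξ hξ
      rcases Multiset.mem_cons.1 hξ with rfl | hξ
      · exact hζ
      · exact hZ ξ hξ
    · exact (Complex.differentiableOn_dslope (hUo.mem_nhds hζU)).2 hg
    · intro z
      have h2 := sub_smul_dslope g ζ z
      rw [h0, sub_zero, smul_eq_mul] at h2
      rw [hfg z, ← h2, Multiset.map_cons, Multiset.prod_cons]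
      ring
  obtain ⟨hgb1, hgb2⟩ := hgb Z hZ g hg hfg
  -- the logarithm
  have hball : Metric.ball z₁ (5 * ρ) ⊆ Metric.closedBall z₀ (6 * ρ) := by
    intro z hz
    rw [Metric.mem_ball, dist_eq_norm] at hz
    rw [Metric.mem_closedBall, dist_eq_norm]
    have h2 := norm_add_le (z - z₁) (z₁ - z₀)
    rw [sub_add_sub_cancel] at h2
    linarith
  have hball2 : Metric.closedBall z₀ (6 * ρ) ⊆ Metric.closedBall z₀ (20 * ρ) :=
    Metric.closedBall_subset_closedBall (by linarith)
  obtain ⟨h, hhd, hh0, hh⟩ := exists_log (c := z₁) (r := 5 * ρ) (by positivity)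
    (hg.mono (hball.trans (hball2.trans hUK)))
    (fun z hz => hg0 z (by
      have := hball hz
      rwa [Metric.mem_closedBall, dist_eq_norm] at this))
  set K : ℝ := Real.log (b / a) with hK
  have hK0 : 0 ≤ K := Real.log_nonneg ((one_le_div ha).2 hab)
  have hg1 : 0 < ‖g z₁‖ := lt_of_lt_of_le (by positivity) hgb2
  have hre : ∀ z ∈ Metric.ball z₁ (5 * ρ), (h z).re ≤ K := by
    intro z hz
    have h2 := hgb1 z (hball2 (hball hz))
    rw [hh z hz, norm_mul, Complex.norm_exp] at h2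
    have h3 : Real.exp (h z).re ≤ b / a := by
      have h4 : a / (7 * ρ) ^ Multiset.card Z * Real.exp (h z).re ≤
          b / (14 * ρ) ^ Multiset.card Z :=
        (mul_le_mul_of_nonneg_right hgb2 (Real.exp_nonneg _)).trans h2
      have h5 : b / (14 * ρ) ^ Multiset.card Z ≤ b / (7 * ρ) ^ Multiset.card Z := by
        apply div_le_div_of_nonneg_left hb0.le (by positivity)
        exact pow_le_pow_left₀ (by positivity) (by linarith) _
      have h6 : a * Real.exp (h z).re ≤ b := by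
        have h7 := h4.trans h5
        rw [div_mul_eq_mul_div, div_le_div_iff_of_pos_right (by positivity)] at h7
        exact h7
      rw [le_div_iff₀ ha]
      linarith [mul_comm a (Real.exp (h z).re)]
    rw [hK, Real.le_log_iff_exp_le (by positivity)]
    exact h3
  have hnorm : ∀ z, ‖z - z₁‖ ≤ 2 * ρ → ‖h z‖ ≤ 4 / 3 * K := by
    intro z hz
    refine le_of_forall_pos_le_add ?_
    intro ε hε
    have h2 := Complex.borelCaratheodory_zero (f := fun w => h (z₁ + w)) (R := 5 * ρ)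
      (M := K + ε / 2) (z := z - z₁) (by linarith) ?_ ?_ (by positivity) ?_ (by simpa using hh0)
    · have h3 : z₁ + (z - z₁) = z := by ring
      simp only [h3] at h2
      have h4 : 2 * (K + ε / 2) * ‖z - z₁‖ / (5 * ρ - ‖z - z₁‖) ≤ 4 / 3 * (K + ε / 2) := by
        rw [div_le_iff₀ (by linarith)]
        have h5 : 0 ≤ K + ε / 2 := by linarith
        nlinarith [mul_nonneg h5 (sub_nonneg.2 hz)]
      calc ‖h z‖ ≤ 2 * (K + ε / 2) * ‖z - z₁‖ / (5 * ρ - ‖z - z₁‖) := h2
        _ ≤ 4 / 3 * (K + ε / 2) := h4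
        _ ≤ 4 / 3 * K + ε := by linarith
    · intro w hw
      have hw' : z₁ + w ∈ Metric.ball z₁ (5 * ρ) := by
        rw [Metric.mem_ball, dist_eq_norm, add_sub_cancel_left]
        simpa using hw
      have h3 : DifferentiableAt ℂ h (z₁ + w) := hhd.differentiableAt (Metric.isOpen_ball.mem_nhds hw')
      have h4 : DifferentiableAt ℂ (fun w => h (z₁ + w)) w :=
        h3.comp w ((differentiableAt_const _).add differentiableAt_id)
      exact h4.differentiableWithinAt
    · intro w hw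
      have hw' : z₁ + w ∈ Metric.ball z₁ (5 * ρ) := by
        rw [Metric.mem_ball, dist_eq_norm, add_sub_cancel_left]
        simpa using hw
      have := hre _ hw'
      show (h (z₁ + w)).re ≤ K + ε / 2
      linarith
    · rw [mem_ball_zero_iff]
      linarith
  -- the final estimate
  intro δ hδ hδρ z hz hζ
  have hzz : ‖z - z₁‖ ≤ 2 * ρ := by
    have h2 := norm_sub_le (z - z₀) (z₁ - z₀)
    rw [sub_sub_sub_cancel_right] at h2
    linarith
  have hzb : z ∈ Metric.ball z₁ (5 * ρ) := by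
    rw [Metric.mem_ball, dist_eq_norm]
    linarith
  have h2 : δ ^ Multiset.card Z ≤ ‖(Z.map fun ζ => z - ζ).prod‖ := prod_lower Z z hδ.le hζ
  have h3 : a / (7 * ρ) ^ Multiset.card Z * Real.exp (-(4 / 3 * K)) ≤ ‖g z‖ := by
    rw [hh z hzb, norm_mul, Complex.norm_exp]
    have h4 : -(4 / 3 * K) ≤ (h z).re := by
      have h5 := Complex.abs_re_le_norm (h z)
      have h6 := hnorm z hzz
      have h7 := neg_abs_le (h z).re
      linarith
    exact mul_le_mul hgb2 (Real.exp_le_exp.2 h4) (Real.exp_nonneg _) (norm_nonneg _)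
  have h4 : (a / b) ^ 9 ≤ Real.exp (-(4 / 3 * K)) := by
    have h5 : a / b = Real.exp (-K) := by
      rw [Real.exp_neg, hK, Real.exp_log (by positivity), inv_div]
    rw [h5, ← Real.exp_nat_mul]
    apply Real.exp_le_exp.2
    push_cast
    linarith
  rw [hfg z, norm_mul]
  calc a * (a / b) ^ 9 * (δ / (30 * ρ)) ^ Multiset.card Z
      ≤ a * Real.exp (-(4 / 3 * K)) * (δ / (7 * ρ)) ^ Multiset.card Z := by
        apply mul_le_mul
        · exact mul_le_mul_of_nonneg_left h4 ha.le
        · apply pow_le_pow_left₀ (by positivity)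
          apply div_le_div_of_nonneg_left hδ.le (by positivity)
          linarith
        · positivity
        · positivity
    _ = δ ^ Multiset.card Z * (a / (7 * ρ) ^ Multiset.card Z * Real.exp (-(4 / 3 * K))) := by
        rw [div_pow]
        ring
    _ ≤ ‖(Z.map fun ζ => z - ζ).prod‖ * ‖g z‖ :=
        mul_le_mul h2 h3 (by positivity) (norm_nonneg _)

end Fermi
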