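import Pool.Agent.Lib.Fermi.Class1

/-!
# Chunk E2: the lift `pm` of the free sheet to the effective sheet
-/

open scoped BigOperators Topology
open Set Filter

noncomputable section

namespace Fermi

variable {d : ℕ} {μ : ℂ} {w : Zd d → ℂ} {A B : Set (Cd d)}

/-! ### Elementary facts -/

theorem Sc.Λ_one (P : Sc d μ w) : (1 : ℝ) ≤ P.Λ := le_trans (by norm_num) P.hΛ

theorem Sc.Λ_pos (P : Sc d μ w) : (0 : ℝ) < P.Λ := lt_of_lt_of_le one_pos P.Λ_one

theorem Sc.r_pos (P : Sc d μ w) : 0 < P.r := by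
  unfold Sc.r; have := P.Λ_pos; positivity

theorem Sc.s_pos' (P : Sc d μ w) : 0 < P.s := by
  unfold Sc.s; have := P.Λ_pos; have := P.r_pos; positivity

/-- the level is much smaller than the radius. -/
theorem Sc.s_le_r (P : Sc d μ w) : 100 * P.s ≤ P.r := by
  have h1 := P.Λ_one
  have h0 := P.Λ_pos
  have hr := P.r_pos
  have h2 : P.s = P.r * (P.Λ ^ 75 * P.r) := by unfold Sc.s; ring
  have h3 : P.Λ ^ 75 * P.r ≤ 1 / 100 := by
    unfold Sc.r
    rw [← div_eq_mul_inv, div_le_iff₀ (by positivity)]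
    have h4 : P.Λ ^ 76 ≤ P.Λ ^ (300 * d + 300) := pow_le_pow_right₀ h1 (by omega)
    have h5 : 100 * P.Λ ^ 75 ≤ P.Λ ^ 76 := by
      rw [pow_succ]
      have : (100 : ℝ) ≤ P.Λ := le_trans (by norm_num) P.hΛ
      have h6 : (0 : ℝ) ≤ P.Λ ^ 75 := by positivity
      nlinarith
    linarith
  rw [h2]
  nlinarith

theorem Thick.nsq_ge {P : Sc d μ w} {b : Cd d} (hb : Thick P b) : 100 ≤ nsq b := by
  refine le_trans ?_ hb.1
  have h1 := P.Λ_one
  have h2 : P.Λ ^ 1 ≤ P.Λ ^ 8 := pow_le_pow_right₀ h1 (by norm_num)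
  have h3 := P.hΛ
  rw [pow_one] at h2
  linarith

theorem nsq_nonneg (b : Cd d) : 0 ≤ nsq b := Finset.sum_nonneg fun i _ => sq_nonneg _

theorem bil_cb {b : Cd d} (h : 0 < nsq b) : bil b (cb b) = 1 := by
  have h1 : ((nsq b : ℝ) : ℂ) ≠ 0 := by exact_mod_cast h.ne'
  have h2 : bil b (cb b) = (∑ j, b j * (starRingEnd ℂ) (b j)) / ((nsq b : ℝ) : ℂ) := by
    unfold bil cb
    rw [Finset.sum_div]
    exact Finset.sum_congr rfl fun j _ => by ring
  rw [h2, div_eq_one_iff_eq h1]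
  unfold nsq
  push_cast
  exact Finset.sum_congr rfl fun j _ => by rw [Complex.mul_conj']

theorem nsq_cb {b : Cd d} (h : 0 < nsq b) : nsq (cb b) = 1 / nsq b := by
  have h1 : ∀ j, ‖cb b j‖ ^ 2 = ‖b j‖ ^ 2 / (nsq b) ^ 2 := fun j => by
    unfold cb
    rw [norm_div, Complex.norm_conj, Complex.norm_real, Real.norm_of_nonneg h.le, div_pow]
  have h2 : nsq (cb b) = nsq b / (nsq b) ^ 2 := by
    have h3 : nsq (cb b) = ∑ j, ‖cb b j‖ ^ 2 := rfl
    rw [h3, Finset.sum_congr rfl fun j _ => h1 j, ← Finset.sum_div]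
    rfl
  rw [h2]
  field_simp

theorem norm_bil_le (a b : Cd d) : ‖bil a a‖ ≤ nsq a := by
  unfold bil nsq
  refine (norm_sum_le _ _).trans (Finset.sum_le_sum fun j _ => ?_)
  rw [norm_mul, sq]

theorem norm_cb_le_one {b : Cd d} (h : 1 ≤ nsq b) : ‖cb b‖ ≤ 1 := by
  rw [pi_norm_le_iff_of_nonneg zero_le_one]
  intro j
  have h1 : ‖cb b j‖ ^ 2 ≤ nsq (cb b) :=
    Finset.single_le_sum (f := fun i => ‖cb b i‖ ^ 2) (fun i _ => sq_nonneg _) (Finset.mem_univ j)
  rw [nsq_cb (by linarith)] at h1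
  have h2 : 1 / nsq b ≤ 1 := by rw [div_le_one (by linarith)]; exact h
  have h3 : ‖cb b j‖ ^ 2 ≤ 1 := h1.trans h2
  nlinarith [norm_nonneg (cb b j)]

theorem q_cb {b : Cd d} (h : 0 < nsq b) (z : ℂ) :
    q μ (b + z • cb b) 0 = q μ b 0 + 2 * z + z ^ 2 * bil (cb b) (cb b) := by
  have h1 := bil_cb h
  have hz : zc (0 : Zd d) = 0 := by funext j; simp [zc]
  have h2 : bil (b + z • cb b) (b + z • cb b) = bil b b + 2 * z * bil b (cb b) + z ^ 2 * bil (cb b) (cb b) := by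
    unfold bil
    rw [Finset.mul_sum, Finset.mul_sum, ← Finset.sum_add_distrib, ← Finset.sum_add_distrib]
    refine Finset.sum_congr rfl fun j _ => ?_
    simp only [Pi.add_apply, Pi.smul_apply, smul_eq_mul]
    ring
  unfold q
  rw [hz, add_zero, add_zero, h2, h1]
  ring

/-! ### The lift -/

theorem exists_lift (P : Sc d μ w) {E : Cd d → ℂ} (hE : Eff P E) {b : Cd d} (hb : Thick P b) :
    ∃ z : ℂ, ‖z‖ ≤ 1 ∧ E (b + z • cb b) = 0 := by
  set f : ℂ → ℂ := fun z => z - E (b + z • cb b) / 2 with hf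
  have h0 : ‖f 0‖ ≤ 5 / 8 := by
    have h1 := hE.near0 b hb
    have h2 := hb.2.1
    have h3 : f 0 = -((E b - (q μ b 0 + w 0)) + (q μ b 0 + w 0)) / 2 := by
      simp only [hf, zero_smul, add_zero]; ring
    rw [h3, norm_div, norm_neg]
    have h4 := norm_add_le (E b - (q μ b 0 + w 0)) (q μ b 0 + w 0)
    have h5 : ‖(2 : ℂ)‖ = 2 := by simp
    rw [h5]
    linarith
  have hl : ∀ z₁ z₂ : ℂ, ‖z₁‖ ≤ 1 → ‖z₂‖ ≤ 1 → ‖f z₁ - f z₂‖ ≤ 1 / 4 * ‖z₁ - z₂‖ := by
    intro z₁ z₂ h1 h2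
    have h3 := hE.near1 b hb z₁ z₂ h1 h2
    have h4 : f z₁ - f z₂ = -(E (b + z₁ • cb b) - E (b + z₂ • cb b) - 2 * (z₁ - z₂)) / 2 := by
      simp only [hf]; ring
    have h5 : ‖(2 : ℂ)‖ = 2 := by simp
    rw [h4, norm_div, norm_neg, h5]
    linarith
  have hm : MapsTo f (Metric.closedBall 0 1) (Metric.closedBall 0 1) := by
    intro z hz
    rw [mem_closedBall_zero_iff] at hz ⊢
    have h1 := hl z 0 hz (by simp)
    rw [sub_zero] at h1
    have h2 : ‖f z‖ ≤ ‖f z - f 0‖ + ‖f 0‖ := by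
      have := norm_add_le (f z - f 0) (f 0)
      rwa [sub_add_cancel] at this
    linarith
  have hc : ContractingWith (1 / 4) (hm.restrict f (Metric.closedBall 0 1) (Metric.closedBall 0 1)) := by
    refine ⟨by rw [div_lt_one (by norm_num)]; norm_num, ?_⟩
    apply LipschitzWith.of_dist_le_mul
    rintro ⟨x, hx⟩ ⟨y, hy⟩
    rw [mem_closedBall_zero_iff] at hx hy
    have := hl x y hx hy
    simp only [Subtype.dist_eq, MapsTo.val_restrict_apply, dist_eq_norm]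
    simpa using this
  obtain ⟨z, hz, hfz, -⟩ := ContractingWith.exists_fixedPoint' (Metric.isClosed_closedBall.isComplete)
    hm hc (x := 0) (by simp) (edist_ne_top _ _)
  refine ⟨z, by simpa using hz, ?_⟩
  have h1 : z - E (b + z • cb b) / 2 = z := hfz
  have h2 : E (b + z • cb b) / 2 = 0 := by linear_combination -h1
  simpa using h2

theorem pm_spec (P : Sc d μ w) {E : Cd d → ℂ} (hE : Eff P E) {b : Cd d} (hb : Thick P b) :
    E (pm E b) = 0 ∧ ∃ z : ℂ, ‖z‖ ≤ 1 ∧ pm E b = b + z • cb b := by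
  have h := exists_lift P hE hb
  unfold pm
  rw [dif_pos h]
  exact ⟨h.choose_spec.2, h.choose, h.choose_spec.1, rfl⟩

/-- `pm b` is within `1/|b|` of `b`. -/
theorem pm_near (P : Sc d μ w) {E : Cd d → ℂ} (hE : Eff P E) {b : Cd d} (hb : Thick P b) :
    nsq (pm E b - b) * nsq b ≤ 1 := by
  obtain ⟨-, z, hz, hp⟩ := pm_spec P hE hb
  have hn := hb.nsq_ge
  have h1 : nsq (pm E b - b) = ‖z‖ ^ 2 * nsq (cb b) := by
    rw [hp, add_sub_cancel_left]
    unfold nsq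
    rw [Finset.mul_sum]
    refine Finset.sum_congr rfl fun j _ => ?_
    rw [Pi.smul_apply, smul_eq_mul, norm_mul, mul_pow]
  rw [h1, nsq_cb (by linarith), mul_assoc, one_div, inv_mul_cancel₀ (by linarith), mul_one]
  nlinarith [norm_nonneg z]

theorem lift_diff (P : Sc d μ w) {E : Cd d → ℂ} (hE : Eff P E) {b : Cd d} (hb : Thick P b)
    {z₁ z₂ : ℂ} (h1 : ‖z₁‖ ≤ 1) (h2 : ‖z₂‖ ≤ 1) (h0 : E (b + z₁ • cb b) = 0) :
    ‖z₁ - z₂‖ ≤ ‖E (b + z₂ • cb b)‖ := by
  have h := hE.near1 b hb z₁ z₂ h1 h2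
  rw [h0] at h
  have h3 : 2 * ‖z₁ - z₂‖ ≤ ‖0 - E (b + z₂ • cb b) - 2 * (z₁ - z₂)‖ + ‖E (b + z₂ • cb b)‖ := by
    have h4 := norm_add_le (0 - E (b + z₂ • cb b) - 2 * (z₁ - z₂)) (E (b + z₂ • cb b))
    have h5 : (0 - E (b + z₂ • cb b) - 2 * (z₁ - z₂)) + E (b + z₂ • cb b) = -(2 * (z₁ - z₂)) := by ring
    rw [h5, norm_neg, norm_mul] at h4
    simpa using h4
  have h6 := norm_nonneg (z₁ - z₂)
  linarith

theorem continuousAt_nsq (b : Cd d) : ContinuousAt (nsq : Cd d → ℝ) b := by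
  exact (continuous_finset_sum _ fun i _ => ((continuous_apply i).norm.pow 2)).continuousAt

theorem continuousAt_cb {b : Cd d} (h : 0 < nsq b) : ContinuousAt (cb : Cd d → Cd d) b := by
  rw [continuousAt_pi]
  intro j
  have h1 : ((nsq b : ℝ) : ℂ) ≠ 0 := by exact_mod_cast h.ne'
  have h2 : ContinuousAt (fun b : Cd d => (starRingEnd ℂ) (b j)) b :=
    (Complex.continuous_conj.comp (continuous_apply j)).continuousAt
  have h3 : ContinuousAt (fun b : Cd d => ((nsq b : ℝ) : ℂ)) b :=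
    Complex.continuous_ofReal.continuousAt.comp (continuousAt_nsq b)
  exact h2.div h3 h1

theorem pm_cont (P : Sc d μ w) {E : Cd d → ℂ} (hE : Eff P E) (b : ℝ → Cd d)
    (hb : ContinuousOn b (Icc 0 1)) (hT : ∀ t ∈ Icc (0 : ℝ) 1, Thick P (b t)) :
    ContinuousOn (fun t => pm E (b t)) (Icc 0 1) := by
  have hz : ∀ t : ℝ, ∃ z : ℂ, t ∈ Icc (0 : ℝ) 1 → ‖z‖ ≤ 1 ∧ pm E (b t) = b t + z • cb (b t) ∧
      E (b t + z • cb (b t)) = 0 := by
    intro t
    by_cases ht : t ∈ Icc (0 : ℝ) 1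
    · obtain ⟨h1, z, hz, h2⟩ := pm_spec P hE (hT t ht)
      exact ⟨z, fun _ => ⟨hz, h2, by rw [← h2]; exact h1⟩⟩
    · exact ⟨0, fun h => absurd h ht⟩
  choose z hz using hz
  intro t₀ ht₀
  have hbc := hb t₀ ht₀
  have hn : 0 < nsq (b t₀) := by linarith [(hT t₀ ht₀).nsq_ge]
  have hcb : ContinuousWithinAt (fun t => cb (b t)) (Icc 0 1) t₀ :=
    (continuousAt_cb hn).comp_continuousWithinAt hbc
  have hcz : ContinuousWithinAt z (Icc 0 1) t₀ := by
    have h1 : ContinuousWithinAt (fun t => b t + z t₀ • cb (b t)) (Icc 0 1) t₀ :=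
      hbc.add (hcb.const_smul (z t₀))
    have h2 : ContinuousWithinAt (fun t => E (b t + z t₀ • cb (b t))) (Icc 0 1) t₀ :=
      (hE.cont (b t₀) (hT t₀ ht₀) (z t₀) (hz t₀ ht₀).1).comp_continuousWithinAt
        (f := fun t => b t + z t₀ • cb (b t)) h1
    have h3 : Tendsto (fun t => ‖E (b t + z t₀ • cb (b t))‖) (𝓝[Icc 0 1] t₀) (𝓝 0) := by
      have := h2.norm
      unfold ContinuousWithinAt at this
      simpa only [(hz t₀ ht₀).2.2, norm_zero] using this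
    unfold ContinuousWithinAt
    rw [tendsto_iff_norm_sub_tendsto_zero]
    refine squeeze_zero' (Eventually.of_forall fun t => norm_nonneg _) ?_ h3
    filter_upwards [self_mem_nhdsWithin] with t ht
    exact lift_diff P hE (hT t ht) (hz t ht).1 (hz t₀ ht₀).1 (hz t ht).2.2
  have h4 : ContinuousWithinAt (fun t => b t + z t • cb (b t)) (Icc 0 1) t₀ :=
    hbc.add (hcz.smul hcb)
  exact h4.congr (fun t ht => (hz t ht).2.1) (hz t₀ ht₀).2.1

/-- `pm b` is a base point as soon as it is regular. -/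
theorem pm_base (P : Sc d μ w) {E : Cd d → ℂ} (hE : Eff P E) {b : Cd d} (hb : Thick P b)
    (hR : Regular P (pm E b)) : Base P E (pm E b) := by
  obtain ⟨h0, z, hz, hp⟩ := pm_spec P hE hb
  refine ⟨hR, by rw [h0, norm_zero]; linarith [P.s_pos'], ?_⟩
  obtain ⟨S, a, cc, hS⟩ := hE.lmat _ hR
  have hn := hb.nsq_ge
  have hq : ‖q μ (pm E b) 0‖ < 2 * P.c := by
    rw [hp, q_cb (by linarith)]
    have h1 : ‖w 0‖ ≤ ∑' n, ‖w n‖ := P.hw.le_tsum 0 fun n _ => norm_nonneg _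
    have h2 : ‖q μ b 0‖ ≤ 1 + ‖w 0‖ := by
      have := norm_sub_le (q μ b 0 + w 0) (w 0)
      rw [add_sub_cancel_right] at this
      linarith [hb.2.1]
    have h3 : ‖z ^ 2 * bil (cb b) (cb b)‖ ≤ 1 := by
      rw [norm_mul, norm_pow]
      have h4 := norm_bil_le (cb b) b
      rw [nsq_cb (by linarith)] at h4
      have h5 : 1 / nsq b ≤ 1 := by rw [div_le_one (by linarith)]; linarith
      have h6 : ‖z‖ ^ 2 ≤ 1 := by nlinarith [norm_nonneg z]
      have h7 := norm_nonneg (bil (cb b) (cb b))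
      nlinarith [sq_nonneg ‖z‖]
    have h4 : ‖2 * z‖ ≤ 2 := by
      rw [norm_mul]; simpa using hz
    have h5 := norm_add₃_le (a := q μ b 0) (b := 2 * z) (c := z ^ 2 * bil (cb b) (cb b))
    have h6 := P.hc
    have h7 : 0 ≤ ∑' n, ‖w n‖ := tsum_nonneg fun n => norm_nonneg _
    linarith
  have h0S : (0 : Zd d) ∈ S := (hS.mem 0).2 hq
  have hz0 : zc (0 : Zd d) = 0 := by funext j; simp [zc]
  have h8 := hS.crude 0 h0S (pm E b) (by rw [sub_self, norm_zero]; exact P.r_pos.le)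
  rw [hz0, add_zero, h0, zero_sub, norm_neg] at h8
  linarith

theorem CC_path (P : Sc d μ w) {E : Cd d → ℂ} (hE : Eff P E) (D : Decomp (FS μ w) A B)
    (b : ℝ → Cd d) (hb : ContinuousOn b (Icc 0 1)) (hT : ∀ t ∈ Icc (0 : ℝ) 1, Thick P (b t))
    (hR : ∀ t ∈ Icc (0 : ℝ) 1, Regular P (pm E (b t))) :
    CC P E A (pm E (b 0)) ↔ CC P E A (pm E (b 1)) := by
  have hc := pm_cont P hE b hb hT
  have hB : ∀ t ∈ Icc (0 : ℝ) 1, Base P E (pm E (b t)) := fun t ht => pm_base P hE (hT t ht) (hR t ht)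
  classical
  have hloc : ContinuousOn (fun t => if CC P E A (pm E (b t)) then (1 : ℝ) else 0) (Icc 0 1) := by
    intro t ht
    have h1 : ∀ᶠ t' in 𝓝[Icc 0 1] t, ‖pm E (b t') - pm E (b t)‖ ≤ P.r / 16 := by
      have h2 := (hc t ht)
      unfold ContinuousWithinAt at h2
      rw [tendsto_iff_norm_sub_tendsto_zero] at h2
      have h3 : ∀ᶠ x in 𝓝 (0 : ℝ), x < P.r / 16 := gt_mem_nhds (by linarith [P.r_pos])
      filter_upwards [h2.eventually h3] with t' ht' using ht'.le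
    have h4 : ∀ᶠ t' in 𝓝[Icc 0 1] t, (if CC P E A (pm E (b t')) then (1 : ℝ) else 0)
        = if CC P E A (pm E (b t)) then (1 : ℝ) else 0 := by
      filter_upwards [h1, self_mem_nhdsWithin] with t' ht' ht1
      have := CC_loc P hE D (hB t ht) (hB t' ht1) ht'
      simp only [this]
    exact (tendsto_const_nhds).congr' (by filter_upwards [h4] with t' ht' using ht'.symm)
  have hconst : ∀ x ∈ Icc (0 : ℝ) 1, ∀ y ∈ Icc (0 : ℝ) 1,
      (if CC P E A (pm E (b x)) then (1 : ℝ) else 0) = if CC P E A (pm E (b y)) then (1 : ℝ) else 0 := by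
    intro x hx y hy
    have hpc : IsPreconnected ((fun t => if CC P E A (pm E (b t)) then (1 : ℝ) else 0) '' Icc 0 1) :=
      isPreconnected_Icc.image _ hloc
    by_contra hne
    have hsub := hpc.Icc_subset (a := 0) (b := 1)
    have h01 : (0 : ℝ) ∈ ((fun t => if CC P E A (pm E (b t)) then (1 : ℝ) else 0) '' Icc 0 1) ∧
        (1 : ℝ) ∈ ((fun t => if CC P E A (pm E (b t)) then (1 : ℝ) else 0) '' Icc 0 1) := by
      by_cases h1 : CC P E A (pm E (b x)) <;> by_cases h2 : CC P E A (pm E (b y))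
      · simp [h1, h2] at hne
      · exact ⟨⟨y, hy, by simp [h2]⟩, ⟨x, hx, by simp [h1]⟩⟩
      · exact ⟨⟨x, hx, by simp [h1]⟩, ⟨y, hy, by simp [h2]⟩⟩
      · simp [h1, h2] at hne
    obtain ⟨t, -, ht⟩ := hsub h01.1 h01.2 (show (1 / 2 : ℝ) ∈ Icc (0 : ℝ) 1 by constructor <;> norm_num)
    simp only at ht
    split_ifs at ht <;> norm_num at ht
  have := hconst 0 (by simp) 1 (by simp)
  by_cases h1 : CC P E A (pm E (b 0)) <;> by_cases h2 : CC P E A (pm E (b 1)) <;>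
    simp [h1, h2] at this ⊢

theorem CC_pm (P : Sc d μ w) {E : Cd d → ℂ} (hE : Eff P E) (D : Decomp (FS μ w) A B)
    {p : Cd d} (hp : Base P E p) (hT : Thick P p) (hR : Regular P (pm E p)) :
    CC P E A p ↔ CC P E A (pm E p) := by
  obtain ⟨h0, z, hz, hpz⟩ := pm_spec P hE hT
  refine CC_loc P hE D hp (pm_base P hE hT hR) ?_
  have h1 := lift_diff P hE hT hz (z₂ := 0) (by simp) (by rw [← hpz]; exact h0)
  rw [sub_zero, zero_smul, add_zero] at h1
  rw [hpz, add_sub_cancel_left, norm_smul]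
  have h2 : ‖cb p‖ ≤ 1 := norm_cb_le_one (by linarith [hT.nsq_ge])
  have h3 := hp.2.1
  have h4 := P.s_le_r
  have h5 := norm_nonneg z
  have h6 := P.s_pos'
  nlinarith [norm_nonneg (cb p)]

end Fermi
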