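import Pool.Agent.Lib.Fermi.Class1
import Pool.Agent.Lib.Fermi.Class2

/-!
# Chunk E: the class of a point of the sheet, local constancy and lifting of paths
-/
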