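import Pool.Agent.Lib.Fermi.ClassDefs

/-!
# Chunk E1: existence, local constancy and uniqueness of the class of a base point
-/

open scoped BigOperators Topology
open Set Filter

noncomputable section

namespace Fermi

variable {d : ℕ} {μ : ℂ} {w : Zd d → ℂ} {A B : Set (Cd d)}

theorem sc_one_le (P : Sc d μ w) : 1 ≤ P.Λ := le_trans (by norm_num) P.hΛ

theorem sc_pos (P : Sc d μ w) : 0 < P.Λ := lt_of_lt_of_le one_pos (sc_one_le P)

theorem sc_r_pos (P : Sc d μ w) : 0 < P.r := by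
  unfold Sc.r
  have := sc_pos P
  positivity

theorem sc_r_le (P : Sc d μ w) : P.r ≤ 1 := by
  unfold Sc.r
  exact inv_le_one_of_one_le₀ (one_le_pow₀ (sc_one_le P))

theorem sc_s_pos (P : Sc d μ w) : 0 < P.s := by
  unfold Sc.s
  have := sc_pos P
  have := sc_r_pos P
  positivity

theorem sc_w0 (P : Sc d μ w) : 4 * ‖w 0‖ + 8 ≤ P.c := by
  have h1 : ‖w 0‖ ≤ ∑' n, ‖w n‖ := P.hw.le_tsum 0 (fun j _ => norm_nonneg _)
  have h2 := P.hc
  linarith

theorem sc_d_le (P : Sc d μ w) : (d : ℝ) ≤ P.Λ := by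
  have h1 := P.hLΛ
  have hd : (3 : ℝ) ≤ d := by exact_mod_cast P.hd
  have hL : (10 : ℝ) * d ≤ P.L := by exact_mod_cast P.hL
  have hL1 : (1 : ℝ) ≤ P.L := by linarith
  have h2 : (d : ℝ) ≤ 100 * (d : ℝ) ^ 2 * (P.L : ℝ) ^ 2 := by
    have h3 : (1 : ℝ) ≤ (P.L : ℝ) ^ 2 := one_le_pow₀ hL1
    have h4 : (d : ℝ) ≤ 100 * (d : ℝ) ^ 2 := by nlinarith
    calc (d : ℝ) ≤ 100 * (d : ℝ) ^ 2 := h4
      _ = 100 * (d : ℝ) ^ 2 * 1 := by ring
      _ ≤ _ := by gcongr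
  linarith

theorem sc_LC (P : Sc d μ w) : LC d P.r P.s P.M P.N := by
  have h1 := sc_one_le P
  have h0 := sc_pos P
  have hr := sc_r_pos P
  have hdl := sc_d_le P
  have hN1 : 1 ≤ P.N := by unfold Sc.N; exact one_le_pow₀ h1
  have hM1 : 1 ≤ P.M := by unfold Sc.M; exact one_le_pow₀ h1
  refine ⟨hM1, hN1, le_trans (by norm_num) P.hd, ?_⟩
  have hN2 : (P.N + 1) ^ 8 ≤ 256 * P.N ^ 8 := by
    calc (P.N + 1) ^ 8 ≤ (2 * P.N) ^ 8 := by
          apply pow_le_pow_left₀ (by linarith) (by linarith)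
      _ = 256 * P.N ^ 8 := by ring
  have hd3 : (d : ℝ) ^ 3 ≤ P.Λ ^ 3 := by
    apply pow_le_pow_left₀ (by positivity) hdl
  have key : 10 ^ 7 * (P.N + 1) ^ 8 * (d : ℝ) ^ 3 * P.M ^ 3 * (P.Λ ^ 75 * P.r) ≤ 1 := by
    have e1 : 10 ^ 7 * (P.N + 1) ^ 8 * (d : ℝ) ^ 3 * P.M ^ 3 * (P.Λ ^ 75 * P.r) ≤
        P.Λ * (P.Λ * P.N ^ 8) * P.Λ ^ 3 * P.M ^ 3 * (P.Λ ^ 75 * P.r) := by
      have e2 : (256 : ℝ) ≤ P.Λ := le_trans (by norm_num) P.hΛ
      have e3 : (P.N + 1) ^ 8 ≤ P.Λ * P.N ^ 8 := by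
        refine hN2.trans ?_
        gcongr
      have e4 := P.hΛ
      gcongr
    have e5 : P.Λ * (P.Λ * P.N ^ 8) * P.Λ ^ 3 * P.M ^ 3 * (P.Λ ^ 75 * P.r) =
        P.Λ ^ (216 * d + 161) * P.r := by
      unfold Sc.N Sc.M
      rw [← pow_mul, ← pow_mul]
      have : P.Λ * (P.Λ * P.Λ ^ (27 * d * 8)) * P.Λ ^ 3 * P.Λ ^ (27 * 3) * (P.Λ ^ 75 * P.r) =
        (P.Λ ^ 1 * P.Λ ^ 1 * P.Λ ^ (27 * d * 8) * P.Λ ^ 3 * P.Λ ^ (27 * 3) * P.Λ ^ 75) * P.r := by
        ring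
      rw [this, ← pow_add, ← pow_add, ← pow_add, ← pow_add, ← pow_add]
      congr 2
      ring
    rw [e5] at e1
    refine e1.trans ?_
    unfold Sc.r
    rw [← div_eq_mul_inv, div_le_one (by positivity)]
    exact pow_le_pow_right₀ h1 (by omega)
  calc 10 ^ 7 * (P.N + 1) ^ 8 * (d : ℝ) ^ 3 * P.M ^ 3 * P.s
      = (10 ^ 7 * (P.N + 1) ^ 8 * (d : ℝ) ^ 3 * P.M ^ 3 * (P.Λ ^ 75 * P.r)) * P.r := by
        unfold Sc.s; ring
    _ ≤ 1 * P.r := by gcongr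
    _ = P.r := one_mul _

/-- the isolation level is tiny -/
theorem sc_s2 (P : Sc d μ w) : s2 d P.N P.M P.s + P.s ≤ 1 / 8 := by
  obtain ⟨hM, hN, hd, hs⟩ := sc_LC P
  have hsp := sc_s_pos P
  have hr := sc_r_le P
  have hd1 : (1 : ℝ) ≤ d := by exact_mod_cast hd
  have h1 : s2 d P.N P.M P.s + P.s ≤ 600 * ((P.N + 1) * d * P.M * P.s) := by
    unfold s2
    have hdM : 1 ≤ (d : ℝ) * P.M := by nlinarith
    have hNdM : 1 ≤ (P.N + 1) * ((d : ℝ) * P.M) := by nlinarith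
    have e1 : 26 * (P.N + 1) * (20 * d * P.M + 1) * P.s ≤
        26 * (P.N + 1) * (21 * (d * P.M)) * P.s := by
      gcongr
      linarith
    have e2 : P.s ≤ (P.N + 1) * ((d : ℝ) * P.M) * P.s := by
      nlinarith
    nlinarith [e1, e2]
  have h2 : (P.N + 1) * d * P.M * P.s ≤ (P.N + 1) ^ 8 * d ^ 3 * P.M ^ 3 * P.s := by
    have a1 : (P.N + 1) ≤ (P.N + 1) ^ 8 := le_self_pow₀ (by linarith) (by norm_num)
    have a2 : (d : ℝ) ≤ (d : ℝ) ^ 3 := le_self_pow₀ hd1 (by norm_num)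
    have a3 : P.M ≤ P.M ^ 3 := le_self_pow₀ hM (by norm_num)
    gcongr
  have h3 : 10 ^ 7 * ((P.N + 1) ^ 8 * (d : ℝ) ^ 3 * P.M ^ 3 * P.s) ≤ 1 := by
    calc 10 ^ 7 * ((P.N + 1) ^ 8 * (d : ℝ) ^ 3 * P.M ^ 3 * P.s)
        = 10 ^ 7 * (P.N + 1) ^ 8 * (d : ℝ) ^ 3 * P.M ^ 3 * P.s := by ring
      _ ≤ P.r := hs
      _ ≤ 1 := hr
  linarith

theorem sc_s2_nonneg (P : Sc d μ w) : 0 ≤ s2 d P.N P.M P.s := by
  obtain ⟨hM, hN, hd, hs⟩ := sc_LC P
  have hsp := sc_s_pos P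
  unfold s2
  positivity

theorem zc_zero : (zc (0 : Zd d) : Cd d) = 0 := by
  funext j; simp [zc]

theorem zc_add (n m : Zd d) : (zc (n + m) : Cd d) = zc n + zc m := by
  funext j; simp [zc]

theorem q_shift (μ : ℂ) (k : Cd d) (n m : Zd d) : q μ (k + zc n) m = q μ k (n + m) := by
  unfold q
  rw [zc_add, ← add_assoc]

theorem aff_self (p a : Cd d) (c : ℂ) : aff p a c p = c := by
  simp [aff, bil]

/-- a good point near `p0` is isolated on the sheet `0` of the local model at `p0` -/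
theorem Good.iso {P : Sc d μ w} {E : Cd d → ℂ} {p0 g : Cd d} {S : Finset (Zd d)}
    {a : Zd d → Cd d} {cc : Zd d → ℂ} (h : LMat P E p0 S a cc) (hg : Good P E g)
    (hr : ‖g - p0‖ ≤ P.r) : IsoOn p0 S a cc 0 (s2 d P.N P.M P.s) g := by
  intro m hm hm0
  have hs := sc_s_pos P
  have h1 := h.approx m hm g hr
  have h2 : ‖E (g + zc m)‖ ≤ ‖E (g + zc m) - aff p0 (a m) (cc m) g‖ +
      ‖aff p0 (a m) (cc m) g‖ := by
    have := norm_add_le (E (g + zc m) - aff p0 (a m) (cc m) g) (aff p0 (a m) (cc m) g)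
    simpa using this
  by_cases hq : ‖q μ g m‖ < 3 / 2 * P.c
  · have h3 := hg.2.2.2 m hm0 hq
    linarith
  · rw [not_lt] at hq
    have h3 := h.crude m hm g hr
    have h4 : ‖q μ g m + w 0‖ ≤ ‖E (g + zc m) - (q μ g m + w 0)‖ + ‖E (g + zc m)‖ := by
      have := norm_sub_le (E (g + zc m)) (E (g + zc m) - (q μ g m + w 0))
      rw [sub_sub_cancel] at this
      linarith
    have h5 : ‖q μ g m‖ ≤ ‖q μ g m + w 0‖ + ‖w 0‖ := by
      have := norm_sub_le (q μ g m + w 0) (w 0)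
      simpa using this
    have h6 := sc_w0 P
    have h7 := sc_s2 P
    have h8 := norm_nonneg (w 0)
    linarith

/-- the site `0` is resonant at a base point -/
theorem zero_mem {P : Sc d μ w} {E : Cd d → ℂ} {p : Cd d} {S : Finset (Zd d)}
    {a : Zd d → Cd d} {cc : Zd d → ℂ} (h : LMat P E p S a cc)
    (hq : ‖q μ p 0 + w 0‖ ≤ 1 / 2) : (0 : Zd d) ∈ S := by
  rw [h.mem]
  have h5 : ‖q μ p 0‖ ≤ ‖q μ p 0 + w 0‖ + ‖w 0‖ := by
    have := norm_sub_le (q μ p 0 + w 0) (w 0)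
    simpa using this
  have h6 := sc_w0 P
  have h8 := norm_nonneg (w 0)
  linarith

/-- a point of `F` isolated on the sheet `n` of a local model gives a good point -/
theorem good_of_iso {P : Sc d μ w} {E : Cd d → ℂ} {p0 g : Cd d} {S : Finset (Zd d)}
    {a : Zd d → Cd d} {cc : Zd d → ℂ} (h : LMat P E p0 S a cc) {n : Zd d} (hn : n ∈ S)
    (hr : ‖g - p0‖ ≤ P.r) (hF : g ∈ FS μ w) (hF' : g + zc n ∈ FS μ w)
    (hiso : IsoOn p0 S a cc n (s2 d P.N P.M P.s + P.s) g) : Good P E (g + zc n) := by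
  have hs := sc_s_pos P
  have hs2 := sc_s2 P
  have hs2' := sc_s2_nonneg P
  have haff : ‖aff p0 (a n) (cc n) g‖ < P.s := by
    by_contra hcon
    rw [not_lt] at hcon
    refine h.lm.lm1 g hr (fun m hm => ?_) hF
    by_cases hmn : m = n
    · rw [hmn]; exact hcon
    · have := hiso m hm hmn
      linarith
  have h1 := h.approx n hn g hr
  have hE : ‖E (g + zc n)‖ ≤ 5 / 4 * P.s := by
    have := norm_add_le (E (g + zc n) - aff p0 (a n) (cc n) g) (aff p0 (a n) (cc n) g)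
    rw [sub_add_cancel] at this
    linarith
  have h2 := h.crude n hn g hr
  refine ⟨hF', by linarith, ?_, ?_⟩
  · rw [q_shift, add_zero]
    have h4 : ‖q μ g n + w 0‖ ≤ ‖E (g + zc n) - (q μ g n + w 0)‖ + ‖E (g + zc n)‖ := by
      have := norm_sub_le (E (g + zc n)) (E (g + zc n) - (q μ g n + w 0))
      rw [sub_sub_cancel] at this
      linarith
    linarith
  · intro m hm hq
    rw [q_shift] at hq
    have hm' : n + m ∈ S := h.res g hr _ hq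
    have hne : n + m ≠ n := by simpa using hm
    have h3 := hiso _ hm' hne
    have h4 := h.approx _ hm' g hr
    have h5 : g + zc n + zc m = g + zc (n + m) := by rw [zc_add, add_assoc]
    rw [h5]
    have h6 : ‖aff p0 (a (n + m)) (cc (n + m)) g‖ ≤
        ‖E (g + zc (n + m)) - aff p0 (a (n + m)) (cc (n + m)) g‖ + ‖E (g + zc (n + m))‖ := by
      have := norm_sub_le (E (g + zc (n + m)))
        (E (g + zc (n + m)) - aff p0 (a (n + m)) (cc (n + m)) g)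
      rw [sub_sub_cancel] at this
      linarith
    linarith

theorem exists_good (P : Sc d μ w) {E : Cd d → ℂ} (hE : Eff P E) {p : Cd d}
    (hp : Base P E p) : ∃ p', ‖p' - p‖ ≤ P.r / 16 ∧ Good P E p' := by
  obtain ⟨hR, hEp, hq⟩ := hp
  obtain ⟨S, a, cc, h⟩ := hE.lmat p hR
  have h0 : (0 : Zd d) ∈ S := zero_mem h hq
  have hs := sc_s_pos P
  have hr := sc_r_pos P
  have hcc : ‖cc 0‖ ≤ 4 * P.s := by
    have h1 := h.approx 0 h0 p (by simpa using hr.le)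
    rw [zc_zero, add_zero, aff_self] at h1
    have := norm_sub_le (E p) (E p - cc 0)
    rw [sub_sub_cancel] at this
    linarith
  obtain ⟨p', hp'F, hp'r, hiso⟩ := LS4 h.lm (sc_LC P) h.card h0 hcc
  refine ⟨p', hp'r, ?_⟩
  have := good_of_iso h h0 (by linarith) hp'F (by rw [zc_zero, add_zero]; exact hp'F) hiso
  rwa [zc_zero, add_zero] at this

theorem CC_loc_aux (P : Sc d μ w) {E : Cd d → ℂ} (hE : Eff P E) (D : Decomp (FS μ w) A B)
    {p p' : Cd d} (hp' : Base P E p') (h : ‖p' - p‖ ≤ P.r / 16) (hC : CC P E A p) :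
    CC P E A p' := by
  obtain ⟨g, hgr, hgX, hg⟩ := hC
  obtain ⟨g', hgr', hg'⟩ := exists_good P hE hp'
  obtain ⟨S, a, cc, hl⟩ := hE.lmat p' hp'.1
  have h0 : (0 : Zd d) ∈ S := zero_mem hl hp'.2.2
  have hr := sc_r_pos P
  have h1 : ‖g - p'‖ ≤ P.r / 8 := by
    have := norm_sub_le (g - p) (p' - p)
    rw [sub_sub_sub_cancel_right] at this
    linarith
  refine ⟨g', hgr', ?_, hg'⟩
  exact LS3 D hl.lm (sc_LC P) hl.card h0 h1 (by linarith) (hg.iso hl (by linarith))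
    (hg'.iso hl (by linarith)) hg.1 hg'.1 hgX

theorem CC_loc (P : Sc d μ w) {E : Cd d → ℂ} (hE : Eff P E) (D : Decomp (FS μ w) A B)
    {p p' : Cd d} (hp : Base P E p) (hp' : Base P E p') (h : ‖p' - p‖ ≤ P.r / 16) :
    CC P E A p ↔ CC P E A p' :=
  ⟨CC_loc_aux P hE D hp' h, CC_loc_aux P hE D hp (by rw [norm_sub_rev]; exact h)⟩

theorem CC_dich (P : Sc d μ w) {E : Cd d → ℂ} (hE : Eff P E) (D : Decomp (FS μ w) A B)
    {p : Cd d} (hp : Base P E p) : ¬ (CC P E A p ∧ CC P E B p) := by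
  rintro ⟨⟨g, hgr, hgX, hg⟩, ⟨g', hgr', hgX', hg'⟩⟩
  obtain ⟨S, a, cc, hl⟩ := hE.lmat p hp.1
  have h0 : (0 : Zd d) ∈ S := zero_mem hl hp.2.2
  have hr := sc_r_pos P
  have h1 := LS3 D hl.lm (sc_LC P) hl.card h0 (by linarith) (by linarith)
    (hg.iso hl (by linarith)) (hg'.iso hl (by linarith)) hg.1 hg'.1 hgX
  exact LS2 D hl.lm (sc_LC P) hl.card h0 (by linarith) (hg'.iso hl (by linarith)) ⟨h1, hgX'⟩

theorem CC_src (P : Sc d μ w) {E : Cd d → ℂ} (hE : Eff P E) (D : Decomp (FS μ w) A B)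
    {p : Cd d} (hp : Regular P p) (hA : p ∈ XX (FS μ w) A) :
    ∃ (n : Zd d) (p₁ : Cd d), p₁ ∈ XX (FS μ w) A ∧ Good P E p₁ ∧ ‖p₁ - zc n - p‖ ≤ P.r / 4 := by
  obtain ⟨S, a, cc, hl⟩ := hE.lmat p hp
  have hr := sc_r_pos P
  obtain ⟨n, hn, p', hp'X, hp'r, hiso, -⟩ := LS1 D hl.lm (sc_LC P) hl.card hA
    (by rw [sub_self, norm_zero]; positivity)
  have hX : p' + zc n ∈ XX (FS μ w) A := (XX_per D p' n).2 hp'X
  refine ⟨n, p' + zc n, hX, ?_, ?_⟩
  · exact good_of_iso hl hn (by linarith) (XX_subset_F D hp'X) (XX_subset_F D hX) hiso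
  · rw [add_sub_cancel_right]; exact hp'r

/-- a good point near a base point of class `A` is in `XX F A` -/
theorem CC_mem (P : Sc d μ w) {E : Cd d → ℂ} (hE : Eff P E) (D : Decomp (FS μ w) A B)
    {p p1 : Cd d} (hp : Base P E p) (hA : CC P E A p) (h1 : ‖p1 - p‖ ≤ P.r / 16)
    (hG : Good P E p1) : p1 ∈ XX (FS μ w) A := by
  obtain ⟨g, hgr, hgX, hg⟩ := hA
  obtain ⟨S, a, cc, hl⟩ := hE.lmat p hp.1
  have h0 : (0 : Zd d) ∈ S := zero_mem hl hp.2.2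
  have hr := sc_r_pos P
  exact LS3 D hl.lm (sc_LC P) hl.card h0 (by linarith) (by linarith)
    (hg.iso hl (by linarith)) (hG.iso hl (by linarith)) hg.1 hG.1 hgX

theorem CC_of_good (P : Sc d μ w) {E : Cd d → ℂ} {p : Cd d} (hp : Good P E p)
    (hA : p ∈ XX (FS μ w) A) : CC P E A p :=
  ⟨p, by rw [sub_self, norm_zero]; have := sc_r_pos P; positivity, hA, hp⟩

end Fermi
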