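import Pool.Agent.Lib.Fermi.Defs

/-!
# The scale of the argument: all constants are powers of one large number `Λ`
-/

open scoped BigOperators Topology
open Set Filter

noncomputable section

namespace Fermi

/-- All data at one scale `L`. -/
structure Sc (d : ℕ) (μ : ℂ) (w : Zd d → ℂ) where
  /-- resonance constant -/
  c : ℝ
  /-- range of the cleanness condition -/
  L : ℕ
  /-- the large number; `G`, `R`, ... are powers of it -/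
  Λ : ℝ
  /-- truncation radius of the potential and number of steps -/
  ρ : ℕ
  J : ℕ
  /-- decoupling error -/
  ε : ℝ
  /-- exponent in the smallness of `ε` -/
  p : ℕ
  hd : 3 ≤ d
  hw : Summable fun n => ‖w n‖
  hc : 4 * (∑' n, ‖w n‖) + 8 ≤ c
  hcΛ : c ≤ Λ
  hμ : ‖μ‖ ≤ Λ
  hL : 10 * d ≤ L
  hLΛ : 100 * (d : ℝ) ^ 2 * (L : ℝ) ^ 2 ≤ Λ
  hΛ : 10 ^ 7 ≤ Λ
  hJ : J * ρ ≤ L
  hε1 : (1 / 2 : ℝ) ^ J ≤ ε
  hε2 : ∑' n, (if (ρ : ℝ) < ‖n‖ then ‖w n‖ else 0) ≤ ε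
  hp : 3000 * d + 3000 ≤ p
  hε : ε * Λ ^ p ≤ 1

namespace Sc

variable {d : ℕ} {μ : ℂ} {w : Zd d → ℂ} (P : Sc d μ w)

/-- cleanness level -/
def G : ℝ := P.Λ ^ 5
/-- bound for the imaginary parts used -/
def R : ℝ := P.Λ ^ 26
/-- bound for the number of resonant sites -/
def N : ℝ := P.Λ ^ (27 * d)
/-- bound for the gradients of the sheets -/
def M : ℝ := P.Λ ^ 27
/-- radius of the local models -/
def r : ℝ := (P.Λ ^ (300 * d + 300))⁻¹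
/-- level of the local models -/
def s : ℝ := P.Λ ^ 75 * P.r ^ 2

end Sc

variable {d : ℕ} {μ : ℂ} {w : Zd d → ℂ}

/-- every site with `|q_n(k)| < 2c` is clean -/
def Regular (P : Sc d μ w) (k : Cd d) : Prop :=
  dr (im k) (im k) ≤ P.R ^ 2 ∧
  ∀ n, ‖q μ k n‖ < 2 * P.c → ∀ l : Zd d, l ≠ 0 → ‖l‖ ≤ P.L → P.G ≤ ‖q μ k (n + l)‖

/-- squared euclidean norm -/
def nsq (b : Cd d) : ℝ := ∑ i, ‖b i‖ ^ 2

/-- the normalised direction `conj b / |b|^2` -/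
def cb (b : Cd d) : Cd d := fun j => (starRingEnd ℂ) (b j) / ((nsq b : ℝ) : ℂ)

/-- points near the free sheet of the site `0`, with `0` clean -/
def Thick (P : Sc d μ w) (b : Cd d) : Prop :=
  P.Λ ^ 8 ≤ nsq b ∧ ‖q μ b 0 + w 0‖ ≤ 1 ∧
  ∀ l : Zd d, l ≠ 0 → ‖l‖ ≤ P.L → P.G ≤ ‖q μ b l‖

/-! ### the effective sheet function -/

/-- `u` solves `(D + W) u = f` -/
def Sol (w : Zd d → ℂ) (D : Zd d → ℂ) (f u : lp (fun _ : Zd d => ℂ) 2) : Prop :=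
  ∀ n, D n * u n + ∑' m, w (n - m) * u m = f n

open scoped Classical in
/-- a solution of `(D + W) u = f` (it is unique in the situations of interest) -/
def grn (w : Zd d → ℂ) (D : Zd d → ℂ) (f : lp (fun _ : Zd d => ℂ) 2) :
    lp (fun _ : Zd d => ℂ) 2 :=
  if h : ∃ u, Sol w D f u then h.choose else 0

/-- the unit vector at `n` -/
def dlt (n : Zd d) : lp (fun _ : Zd d => ℂ) 2 := lp.single 2 n 1

open scoped Classical in
/-- the local symbol around the site `0`: regularised at `0` and far away;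
`z` stands for `q_0(κ)` -/
def Dloc (c : ℝ) (L : ℕ) (z : ℂ) (κ : Cd d) : Zd d → ℂ := fun m =>
  if m = 0 then (c : ℂ) else if ‖m‖ ≤ L then z + 2 * bil κ (zc m) + bil (zc m) (zc m) else (c : ℂ)

/-- the `(0,0)` entry of the local Green function -/
def gam (P : Sc d μ w) (z : ℂ) (κ : Cd d) : ℂ := (grn w (Dloc P.c P.L z κ) (dlt 0)) 0

/-- the self energy -/
def Hh (P : Sc d μ w) (z : ℂ) (κ : Cd d) : ℂ := 1 / gam P z κ - P.c - w 0

/-- the effective sheet function -/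
def Ehat (P : Sc d μ w) (κ : Cd d) : ℂ := q μ κ 0 + w 0 + Hh P (q μ κ 0) κ

/-- the local model at `p0` with all its side information -/
structure LMat (P : Sc d μ w) (E : Cd d → ℂ) (p0 : Cd d) (S : Finset (Zd d))
    (a : Zd d → Cd d) (cc : Zd d → ℂ) : Prop where
  mem : ∀ n, n ∈ S ↔ ‖q μ p0 n‖ < 2 * P.c
  card : (S.card : ℝ) ≤ P.N
  lm : LM (FS μ w) p0 P.r P.s P.M S a cc
  approx : ∀ n ∈ S, ∀ k, ‖k - p0‖ ≤ P.r → ‖E (k + zc n) - aff p0 (a n) (cc n) k‖ ≤ P.s / 4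
  crude : ∀ n ∈ S, ∀ k, ‖k - p0‖ ≤ P.r → ‖E (k + zc n) - (q μ k n + w 0)‖ ≤ 1 / 4
  res : ∀ k, ‖k - p0‖ ≤ P.r → ∀ n, ‖q μ k n‖ < 3 / 2 * P.c → n ∈ S
  grad : ∀ n ∈ S, ∃ l : ℂ, 1 / 2 ≤ ‖l‖ ∧ ‖a n - l • (p0 + zc n)‖ ≤ 1

/-- The effective sheet function `E` and its properties (output of the operator part). -/
structure Eff (P : Sc d μ w) (E : Cd d → ℂ) : Prop where
  lmat : ∀ p0, Regular P p0 → ∃ S a cc, LMat P E p0 S a cc
  near0 : ∀ b, Thick P b → ‖E b - (q μ b 0 + w 0)‖ ≤ 1 / 4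
  near1 : ∀ b, Thick P b → ∀ z₁ z₂ : ℂ, ‖z₁‖ ≤ 1 → ‖z₂‖ ≤ 1 →
    ‖E (b + z₁ • cb b) - E (b + z₂ • cb b) - 2 * (z₁ - z₂)‖ ≤ 1 / 2 * ‖z₁ - z₂‖
  cont : ∀ b, Thick P b → ∀ z : ℂ, ‖z‖ ≤ 1 → ContinuousAt E (b + z • cb b)

end Fermi
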