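import Pool.Agent.Lib.Fermi.Local
import Pool.Agent.Lib.Fermi.Scale

/-!
# Chunk E: definitions (class of a point of the sheet)
-/

open scoped BigOperators Topology
open Set Filter

noncomputable section

namespace Fermi

variable {d : ℕ} {μ : ℂ} {w : Zd d → ℂ} {A B : Set (Cd d)}

/-- isolated points of `F` on the sheet of the site `0` -/
def Good (P : Sc d μ w) (E : Cd d → ℂ) (p : Cd d) : Prop :=
  p ∈ FS μ w ∧ ‖E p‖ ≤ 2 * P.s ∧ ‖q μ p 0 + w 0‖ ≤ 1 / 2 ∧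
  ∀ m : Zd d, m ≠ 0 → ‖q μ p m‖ < 3 / 2 * P.c →
    s2 d P.N P.M P.s + P.s / 2 ≤ ‖E (p + zc m)‖

/-- base points -/
def Base (P : Sc d μ w) (E : Cd d → ℂ) (p : Cd d) : Prop :=
  Regular P p ∧ ‖E p‖ ≤ 2 * P.s ∧ ‖q μ p 0 + w 0‖ ≤ 1 / 2

/-- the class of a base point: there is a good point of `XX F A` nearby -/
def CC (P : Sc d μ w) (E : Cd d → ℂ) (A : Set (Cd d)) (p : Cd d) : Prop :=
  ∃ p', ‖p' - p‖ ≤ P.r / 16 ∧ p' ∈ XX (FS μ w) A ∧ Good P E p'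

open scoped Classical in
/-- the point of the effective sheet over `b` -/
def pm (E : Cd d → ℂ) (b : Cd d) : Cd d :=
  if h : ∃ z : ℂ, ‖z‖ ≤ 1 ∧ E (b + z • cb b) = 0 then b + h.choose • cb b else b

end Fermi
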