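import Pool.Agent.Lib.Fermi.SitesDefs

/-!
# Chunk ST2: clusters along the strings of the exact sheet
-/

open scoped BigOperators Topology
open Set Filter Complex

noncomputable section

namespace Fermi

variable {d : ℕ} {μ : ℂ} {w : Zd d → ℂ} {P : Sc d μ w} {Q : Dirs P} {l : Zd d} {zh : ℂ → ℂ}

theorem ph_eq_st2 (Q : Dirs P) (l : Zd d) (zh : ℂ → ℂ) (n : Zd d) (Ξ : ℂ) :
    ph Q l zh n Ξ = ph Q l zh 0 Ξ +
      2 * (Ξ * (di n l : ℂ) / (l2 l : ℂ) + zh Ξ * (di n (Q.ed l) : ℂ)) + (l2 n : ℂ) := by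
  unfold ph
  exact q_kap Q l n Ξ (zh Ξ)

theorem di_add_smul_st2 (n m k : Zd d) (j : ℤ) : di (n + j • m) k = di n k + j * di m k := by
  unfold di
  rw [Finset.mul_sum, ← Finset.sum_add_distrib]
  refine Finset.sum_congr rfl fun i _ => ?_
  simp only [Pi.add_apply, Pi.smul_apply, smul_eq_mul]
  ring

theorem di_comm_st2 (n m : Zd d) : di n m = di m n := by
  unfold di
  exact Finset.sum_congr rfl fun i _ => mul_comm _ _

theorem l2_add_smul_st2 (n m : Zd d) (j : ℤ) :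
    l2 (n + j • m) = l2 n + 2 * j * (di n m : ℝ) + j ^ 2 * l2 m := by
  unfold l2
  rw [di_add_smul_st2, di_comm_st2 n (n + j • m), di_comm_st2 m (n + j • m), di_add_smul_st2, di_add_smul_st2,
    di_comm_st2 m n]
  push_cast
  ring

theorem ph_string_st2 (Q : Dirs P) (hl : l ≠ 0) (zh : ℂ → ℂ) (n : Zd d) (j : ℤ) (Ξ : ℂ) :
    ph Q l zh (n + j • l) Ξ = ph Q l zh n Ξ + 2 * j * (Ξ + (di n l : ℂ)) + j ^ 2 * (l2 l : ℂ) := by
  have h1 : (l2 l : ℂ) ≠ 0 := by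
    have := one_le_l2 hl
    exact_mod_cast (by linarith : l2 l ≠ 0)
  rw [ph_eq_st2 Q l zh (n + j • l) Ξ, ph_eq_st2 Q l zh n Ξ, l2_add_smul_st2, di_add_smul_st2, di_add_smul_st2,
    di_ed_self]
  have h2 : (di l l : ℂ) = (l2 l : ℂ) := by
    unfold l2
    push_cast
    rfl
  push_cast
  rw [h2]
  field_simp
  ring


theorem Sc.eight_le_c_st2 (P : Sc d μ w) : 8 ≤ P.c := by
  have h1 : (0 : ℝ) ≤ ∑' n, ‖w n‖ := tsum_nonneg fun n => norm_nonneg _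
  linarith [P.hc]

theorem Sc.w0_le_st2 (P : Sc d μ w) : ‖w 0‖ ≤ P.c := by
  have h1 : ‖w 0‖ ≤ ∑' n, ‖w n‖ := P.hw.le_tsum 0 fun n _ => norm_nonneg _
  have h2 : (0 : ℝ) ≤ ∑' n, ‖w n‖ := tsum_nonneg fun n => norm_nonneg _
  linarith [P.hc]

theorem ph_zero_le_st2 (hS : Sheet P Q l zh) {Ξ : ℂ} (h : Ξ ∈ Q.Om l) : ‖ph Q l zh 0 Ξ‖ ≤ 2 * P.Λ := by
  have h1 := hS.q0 Ξ h
  have h2 : ‖ph Q l zh 0 Ξ‖ ≤ ‖q μ (Q.kap l Ξ (zh Ξ)) 0 + w 0‖ + ‖w 0‖ := by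
    have := norm_sub_le (q μ (Q.kap l Ξ (zh Ξ)) 0 + w 0) (w 0)
    rw [add_sub_cancel_right] at this
    exact this
  have h3 := P.w0_le_st2
  have h4 := P.hcΛ
  have h5 : (P.Λ ^ 2)⁻¹ ≤ 1 := by
    apply inv_le_one_of_one_le₀
    have := P.hΛ
    nlinarith
  have h6 := P.hΛ
  linarith

theorem L_le_Λ_st2 (P : Sc d μ w) : 100 * (P.L : ℝ) ≤ P.Λ := by
  have h1 := P.hLΛ
  have h2 : (3 : ℝ) ≤ d := by exact_mod_cast P.hd
  have h3 : (1 : ℝ) ≤ P.L := by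
    have : 1 ≤ P.L := by have := P.hL; have := P.hd; omega
    exact_mod_cast this
  have h4 : (1 : ℝ) ≤ (d : ℝ) ^ 2 := by nlinarith
  have h5 : (P.L : ℝ) ≤ (P.L : ℝ) ^ 2 := by nlinarith
  nlinarith [mul_nonneg (by linarith : (0:ℝ) ≤ (d:ℝ)^2 - 1) (by positivity : (0:ℝ) ≤ (P.L:ℝ)^2)]

theorem X0_div_ge_st2 (hl : l ≠ 0) (hlL : ‖l‖ ≤ P.L) : 100 * P.Λ ^ 18 ≤ |Q.X0 l| / l2 l := by
  have h1 := X0_ge Q hl hlL
  have h2 := l2_le P hlL
  have h3 := one_le_l2 hl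
  have h4 := P.Λ_pos
  rw [le_div_iff₀ (by linarith)]
  calc 100 * P.Λ ^ 18 * l2 l = P.Λ ^ 18 * (100 * l2 l) := by ring
    _ ≤ P.Λ ^ 18 * P.Λ := by gcongr
    _ = P.Λ ^ 19 := by ring
    _ ≤ _ := h1

theorem fast_lam (hS : Sheet P Q l zh) (hP : Prim l) (hlL : ‖l‖ ≤ P.L) {n : Zd d}
    {Ξ : ℂ} (h : Ξ ∈ Q.Om l) (hf : |(di n l : ℝ) + Q.X0 l| < |Q.X0 l| / 100)
    (hn : ‖ph Q l zh n Ξ‖ ≤ P.Λ ^ 4) :
    ‖Q.lam l n + (2 * Q.X0 l / l2 l : ℝ)‖ ≤ 3 / 100 * (|Q.X0 l| / l2 l) := by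
  have hl := hP.1
  have hΛ := P.hΛ
  have hΛ0 := P.Λ_pos
  have hl2 := one_le_l2 hl
  have hl2' := l2_le P hlL
  have hX := X0_ge Q hl hlL
  have hXd := X0_div_ge_st2 (Q := Q) hl hlL
  have hso := one_le_so Q hl hlL
  have hso' := so_le Q hlL
  set X := Q.X0 l with hXdef
  set so := Q.so l with hsodef
  set N := (di n (Q.ed l) : ℝ) with hN
  set D := (di n l : ℝ) with hD
  have hl20 : (0 : ℝ) < l2 l := by linarith
  have hso0 : (0 : ℝ) < so := by linarith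
  -- imaginary part
  have h0 := ph_zero_le_st2 hS h
  have him : (ph Q l zh n Ξ).im = (ph Q l zh 0 Ξ).im + 2 * (Ξ.im * D / l2 l + (zh Ξ).im * N) := by
    rw [ph_eq_st2]
    have e1 : Ξ * (di n l : ℂ) / (l2 l : ℂ) = ((D / l2 l : ℝ) : ℂ) * Ξ := by
      rw [hD]; push_cast; ring
    have e2 : zh Ξ * (di n (Q.ed l) : ℂ) = ((N : ℝ) : ℂ) * zh Ξ := by
      rw [hN]; push_cast; ring
    rw [e1, e2]
    simp only [Complex.add_im, Complex.mul_im, Complex.ofReal_re, Complex.ofReal_im, zero_mul,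
      add_zero, Complex.re_ofNat, Complex.im_ofNat]
    ring
  have hzim : |X| / so - 4 ≤ |(zh Ξ).im| := by
    have h1 := hS.near Ξ h
    have h2 : |(zh Ξ - I * Ξ / (so : ℂ)).im| ≤ (P.Λ ^ 10)⁻¹ := (Complex.abs_im_le_norm _).trans h1
    have h3 : (zh Ξ - I * Ξ / (so : ℂ)).im = (zh Ξ).im - Ξ.re / so := by
      have e1 : I * Ξ / (so : ℂ) = ((1 / so : ℝ) : ℂ) * (I * Ξ) := by push_cast; ring
      rw [e1]
      simp only [Complex.sub_im, Complex.mul_im, Complex.ofReal_re, Complex.ofReal_im, zero_mul,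
        add_zero, Complex.I_re, Complex.I_im, one_mul, zero_add]
      ring
    rw [h3] at h2
    have h4 : (P.Λ ^ 10)⁻¹ ≤ 1 := inv_le_one_of_one_le₀ (one_le_pow₀ (by linarith))
    have h5 : |Ξ.re - X| < 3 := h.1
    have h6 : |Ξ.re / so - X / so| ≤ 3 := by
      rw [← sub_div, abs_div, abs_of_pos hso0, div_le_iff₀ hso0]
      nlinarith
    have h7 : |X / so| = |X| / so := by rw [abs_div, abs_of_pos hso0]
    rw [← h7]
    have h8 : |X / so| ≤ |(zh Ξ).im| + |X / so - (zh Ξ).im| := by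
      have := abs_add_le ((zh Ξ).im) (X / so - (zh Ξ).im)
      rwa [add_sub_cancel] at this
    have h9 : |X / so - (zh Ξ).im| ≤ 4 := by
      have : X / so - (zh Ξ).im = -(Ξ.re / so - X / so) - ((zh Ξ).im - Ξ.re / so) := by ring
      rw [this]
      calc _ ≤ |-(Ξ.re / so - X / so)| + |(zh Ξ).im - Ξ.re / so| := abs_sub _ _
        _ ≤ 3 + 1 := by rw [abs_neg]; linarith
        _ = 4 := by norm_num
    linarith
  have hDb : |D| ≤ 101 / 100 * |X| := by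
    have : |D| ≤ |D + X| + |X| := by
      have := abs_sub (D + X) X
      rwa [add_sub_cancel_right] at this
    linarith
  have hbig : |(zh Ξ).im| * |N| ≤ P.Λ ^ 4 + 4 * P.Λ ^ 7 * |X| := by
    have h1 : 2 * ((zh Ξ).im * N) = (ph Q l zh n Ξ).im - (ph Q l zh 0 Ξ).im
        - 2 * (Ξ.im * D / l2 l) := by rw [him]; ring
    have h2 : |2 * ((zh Ξ).im * N)| ≤ P.Λ ^ 4 + 2 * P.Λ + 2 * (3 * P.Λ ^ 7 * |D|) := by
      rw [h1]
      have a1 := (Complex.abs_im_le_norm (ph Q l zh n Ξ)).trans hn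
      have a2 := (Complex.abs_im_le_norm (ph Q l zh 0 Ξ)).trans h0
      have a3 : |2 * (Ξ.im * D / l2 l)| ≤ 2 * (3 * P.Λ ^ 7 * |D|) := by
        have b1 : |Ξ.im| < 3 * P.T1 * l2 l := h.2
        have b2 : P.T1 = P.Λ ^ 7 := rfl
        rw [b2] at b1
        have b3 : 2 * (Ξ.im * D / l2 l) = 2 * ((Ξ.im / l2 l) * D) := by ring
        rw [b3, abs_mul, abs_mul, abs_two]
        have b4 : |Ξ.im / l2 l| ≤ 3 * P.Λ ^ 7 := by
          rw [abs_div, abs_of_pos hl20, div_le_iff₀ hl20]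
          linarith
        gcongr
      have a4 := abs_sub ((ph Q l zh n Ξ).im - (ph Q l zh 0 Ξ).im) (2 * (Ξ.im * D / l2 l))
      have a5 := abs_sub ((ph Q l zh n Ξ).im) ((ph Q l zh 0 Ξ).im)
      linarith
    rw [abs_mul, abs_two, abs_mul] at h2
    have h3 : P.Λ ^ 7 * |D| ≤ P.Λ ^ 7 * (101 / 100 * |X|) := by gcongr
    have h4 : 2 * P.Λ ≤ P.Λ ^ 4 := by
      have : P.Λ ^ 4 = P.Λ * P.Λ ^ 3 := by ring
      rw [this]
      have : 2 ≤ P.Λ ^ 3 := by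
        calc (2 : ℝ) ≤ P.Λ := by linarith
          _ ≤ P.Λ ^ 3 := le_self_pow₀ (by linarith) (by norm_num)
      nlinarith
    nlinarith [abs_nonneg X, pow_pos hΛ0 7]
  -- bound of N / so
  have hN2 : |N| / so ≤ 9 * P.Λ ^ 7 := by
    have h1 : |X| / (2 * so) ≤ |(zh Ξ).im| := by
      have : |X| / (2 * so) ≤ |X| / so - 4 := by
        have e1 : |X| / (2 * so) = |X| / so / 2 := by rw [mul_comm, div_div]
        rw [e1]
        have e2 : 8 ≤ |X| / so := by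
          rw [le_div_iff₀ hso0]
          calc 8 * so ≤ P.Λ := by linarith
            _ ≤ P.Λ ^ 19 := le_self_pow₀ (by linarith) (by norm_num)
            _ ≤ _ := hX
        linarith
      linarith
    have h2 : |X| / (2 * so) * |N| ≤ P.Λ ^ 4 + 4 * P.Λ ^ 7 * |X| :=
      (mul_le_mul_of_nonneg_right h1 (abs_nonneg _)).trans hbig
    have hX0 : 0 < |X| := lt_of_lt_of_le (by positivity) hX
    have h3 : P.Λ ^ 4 ≤ 1 / 2 * P.Λ ^ 7 * |X| := by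
      have : (2 : ℝ) ≤ |X| := le_trans (by
        calc (2 : ℝ) ≤ P.Λ := by linarith
          _ ≤ P.Λ ^ 19 := le_self_pow₀ (by linarith) (by norm_num)) hX
      calc P.Λ ^ 4 ≤ P.Λ ^ 7 := pow_le_pow_right₀ (by linarith) (by norm_num)
        _ ≤ P.Λ ^ 7 * (1 / 2 * |X|) := by
            apply le_mul_of_one_le_right (by positivity); linarith
        _ = _ := by ring
    have h4 : |X| / (2 * so) * |N| = |X| * (|N| / so / 2) := by field_simp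
    rw [h4] at h2
    have h5 : |X| * (|N| / so / 2) ≤ |X| * (9 / 2 * P.Λ ^ 7) := by linarith
    have h6 := le_of_mul_le_mul_left h5 hX0
    linarith
  -- conclusion
  have hlam : Q.lam l n + ((2 * X / l2 l : ℝ) : ℂ) =
      ((2 * (D + X) / l2 l : ℝ) : ℂ) + ((2 * N / so : ℝ) : ℂ) * I := by
    unfold Dirs.lam
    rw [hD, hN]
    push_cast
    ring
  rw [hlam]
  refine (norm_add_le _ _).trans ?_
  rw [norm_mul, Complex.norm_I, mul_one, Complex.norm_real, Complex.norm_real, Real.norm_eq_abs,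
    Real.norm_eq_abs]
  have h1 : |2 * (D + X) / l2 l| ≤ 2 / 100 * (|X| / l2 l) := by
    rw [abs_div, abs_of_pos hl20, abs_mul, abs_two, ← mul_div_assoc]
    apply div_le_div_of_nonneg_right _ hl20.le
    linarith
  have h2 : |2 * N / so| ≤ 1 / 100 * (|X| / l2 l) := by
    rw [abs_div, abs_of_pos hso0, abs_mul, abs_two, mul_div_assoc]
    have : 18 * P.Λ ^ 7 ≤ P.Λ ^ 18 := by
      have : P.Λ ^ 18 = P.Λ ^ 7 * P.Λ ^ 11 := by ring
      rw [this]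
      have : 18 ≤ P.Λ ^ 11 := by
        calc (18 : ℝ) ≤ P.Λ := by linarith
          _ ≤ P.Λ ^ 11 := le_self_pow₀ (by linarith) (by norm_num)
      nlinarith [pow_pos hΛ0 7]
    linarith
  linarith

theorem K_lam (hS : Sheet P Q l zh) (hP : Prim l) (hlL : ‖l‖ ≤ P.L) {n : Zd d}
    {Ξ : ℂ} (h : Ξ ∈ Q.Om l) (hf : |(di n l : ℝ) + Q.X0 l| < |Q.X0 l| / 100)
    (hn : ‖ph Q l zh n Ξ‖ ≤ P.Λ ^ 4) {j i : ℤ} (hm : ‖ph Q l zh (n + j • l) Ξ‖ ≤ P.Λ ^ 4)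
    (hi : |(i : ℝ)| ≤ P.L) :
    ‖Q.lam l (n + (j + i) • l) + (2 * Q.X0 l / l2 l : ℝ)‖ ≤ 1 / 8 * (|Q.X0 l| / l2 l) := by
  have hl := hP.1
  have hΛ := P.hΛ
  have hΛ0 := P.Λ_pos
  have hl2 := one_le_l2 hl
  have hl2' := l2_le P hlL
  have hXd := X0_div_ge_st2 (Q := Q) hl hlL
  have hfast := fast_lam hS hP hlL h hf hn
  have hOm := (Om_norm Q hl hlL h).1
  set X := Q.X0 l with hXdef
  set D := (di n l : ℝ) with hD
  have hl20 : (0 : ℝ) < l2 l := by linarith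
  -- bound of j
  have hj : |(j : ℝ)| * l2 l ≤ |X| / 50 + 4 * P.Λ ^ 8 := by
    rcases eq_or_ne j 0 with rfl | hj0
    · simp only [Int.cast_zero, abs_zero, zero_mul]
      positivity
    have hj1 : 1 ≤ |(j : ℝ)| := by
      have := Int.one_le_abs hj0
      exact_mod_cast this
    have h1 : (j : ℂ) ^ 2 * (l2 l : ℂ) = (ph Q l zh (n + j • l) Ξ - ph Q l zh n Ξ) -
        2 * j * ((Ξ - (X : ℂ)) + ((D + X : ℝ) : ℂ)) := by
      rw [ph_string_st2 Q hl, hD]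
      push_cast
      ring
    have h2 : ‖(j : ℂ) ^ 2 * (l2 l : ℂ)‖ = |(j : ℝ)| * (|(j : ℝ)| * l2 l) := by
      rw [norm_mul, norm_pow, Complex.norm_intCast, Complex.norm_real, Real.norm_eq_abs,
        abs_of_pos hl20]
      ring
    have h3 : ‖(ph Q l zh (n + j • l) Ξ - ph Q l zh n Ξ) -
        2 * j * ((Ξ - (X : ℂ)) + ((D + X : ℝ) : ℂ))‖ ≤ 2 * P.Λ ^ 4 +
        2 * |(j : ℝ)| * (P.Λ ^ 8 + |X| / 100) := by
      refine (norm_sub_le _ _).trans ?_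
      have a1 := norm_sub_le (ph Q l zh (n + j • l) Ξ) (ph Q l zh n Ξ)
      have a2 : ‖2 * (j : ℂ) * ((Ξ - (X : ℂ)) + ((D + X : ℝ) : ℂ))‖ ≤
          2 * |(j : ℝ)| * (P.Λ ^ 8 + |X| / 100) := by
        rw [norm_mul, norm_mul, Complex.norm_intCast, Complex.norm_ofNat]
        have a3 := norm_add_le (Ξ - (X : ℂ)) ((D + X : ℝ) : ℂ)
        rw [Complex.norm_real, Real.norm_eq_abs] at a3
        gcongr
        linarith
      linarith
    rw [← h1, h2] at h3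
    have h4 : P.Λ ^ 4 ≤ P.Λ ^ 8 := pow_le_pow_right₀ (by linarith) (by norm_num)
    have h5 : 2 * P.Λ ^ 4 ≤ |(j : ℝ)| * (2 * P.Λ ^ 8) := by
      nlinarith [pow_pos hΛ0 8]
    have h6 : |(j : ℝ)| * (|(j : ℝ)| * l2 l) ≤ |(j : ℝ)| * (|X| / 50 + 4 * P.Λ ^ 8) := by
      linarith
    exact le_of_mul_le_mul_left h6 (by linarith)
  have hj2 : |(j : ℝ)| ≤ 1 / 50 * (|X| / l2 l) + 4 * P.Λ ^ 8 := by
    have h1 : |(j : ℝ)| ≤ (|X| / 50 + 4 * P.Λ ^ 8) / l2 l := by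
      rw [le_div_iff₀ hl20]; exact hj
    refine h1.trans ?_
    rw [add_div]
    have h2 : 4 * P.Λ ^ 8 / l2 l ≤ 4 * P.Λ ^ 8 := div_le_self (by positivity) hl2
    have h3 : |X| / 50 / l2 l = 1 / 50 * (|X| / l2 l) := by ring
    linarith
  have hLL := L_le_Λ_st2 P
  rw [lam_add_smul Q hl]
  have e1 : Q.lam l n + 2 * ((j + i : ℤ) : ℂ) + ((2 * X / l2 l : ℝ) : ℂ) =
      (Q.lam l n + ((2 * X / l2 l : ℝ) : ℂ)) + 2 * ((j + i : ℤ) : ℂ) := by ring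
  rw [e1]
  refine (norm_add_le _ _).trans ?_
  have h7 : ‖2 * ((j + i : ℤ) : ℂ)‖ ≤ 2 * (|(j : ℝ)| + |(i : ℝ)|) := by
    rw [norm_mul, Complex.norm_ofNat, Complex.norm_intCast]
    push_cast
    gcongr
    exact abs_add_le _ _
  have h8 : 8 * P.Λ ^ 8 + 2 * P.L ≤ P.Λ ^ 18 := by
    have a1 : P.Λ ≤ P.Λ ^ 8 := le_self_pow₀ (by linarith) (by norm_num)
    have a2 : P.Λ ^ 18 = P.Λ ^ 8 * P.Λ ^ 10 := by ring
    have a3 : 9 ≤ P.Λ ^ 10 := by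
      calc (9 : ℝ) ≤ P.Λ := by linarith
        _ ≤ P.Λ ^ 10 := le_self_pow₀ (by linarith) (by norm_num)
    nlinarith [pow_pos hΛ0 8]
  have h9 := pow_pos hΛ0 18
  linarith

/-- a finite set of integers of diameter `≤ D` has at most `D + 1` elements -/
theorem card_le_of_diam_st2 (J : Finset ℤ) (D : ℝ) (hD : 0 ≤ D)
    (h : ∀ x ∈ J, ∀ y ∈ J, (y : ℝ) - x ≤ D) : (J.card : ℝ) ≤ D + 1 := by
  rcases J.eq_empty_or_nonempty with rfl | hne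
  · simp only [Finset.card_empty, Nat.cast_zero]
    linarith
  have h1 : J ⊆ Finset.Icc (J.min' hne) (J.max' hne) := fun x hx =>
    Finset.mem_Icc.mpr ⟨J.min'_le x hx, J.le_max' x hx⟩
  have h2 := Finset.card_le_card h1
  rw [Int.card_Icc] at h2
  have h3 := h _ (J.min'_mem hne) _ (J.max'_mem hne)
  have h4 : J.min' hne ≤ J.max' hne := J.min'_le _ (J.max'_mem hne)
  have h5 : ((J.card : ℤ)) ≤ J.max' hne + 1 - J.min' hne := by omega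
  have h6 : ((J.card : ℝ)) ≤ J.max' hne + 1 - J.min' hne := by exact_mod_cast h5
  linarith

theorem K_card (hS : Sheet P Q l zh) (hP : Prim l) (hlL : ‖l‖ ≤ P.L) {n : Zd d}
    {Ξ : ℂ} (h : Ξ ∈ Q.Om l) {t : ℝ} (ht : 0 ≤ t) (T : Finset (Zd d))
    (hT : ∀ m ∈ T, (∃ j : ℤ, m = n + j • l) ∧ ‖ph Q l zh m Ξ‖ ≤ t) :
    (T.card : ℝ) ≤ 4 * Real.sqrt t + 4 := by
  classical
  have hl := hP.1
  have hl2 := one_le_l2 hl
  have hl20 : (0 : ℝ) < l2 l := by linarith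
  set u : ℝ := (Ξ.re + (di n l : ℝ)) / l2 l with hu
  set v : ℝ := (ph Q l zh n Ξ).re with hv
  choose! j hj using fun m hm => (hT m hm).1
  have hcard : T.card = (T.image j).card := by
    rw [Finset.card_image_of_injOn]
    intro a ha b hb hab
    rw [hj a ha, hj b hb]
    have : j a = j b := hab
    rw [this]
  set J := T.image j with hJ
  have hJb : ∀ x ∈ J, |l2 l * ((x : ℝ) + u) ^ 2 + (v - l2 l * u ^ 2)| ≤ t := by
    intro x hx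
    obtain ⟨m, hm, rfl⟩ := Finset.mem_image.mp hx
    have h1 := (hT m hm).2
    have h2 := (Complex.abs_re_le_norm _).trans h1
    rw [hj m hm, ph_string_st2 Q hl] at h2
    have h3 : (ph Q l zh n Ξ + 2 * (j m : ℂ) * (Ξ + (di n l : ℂ)) + (j m : ℂ) ^ 2 * (l2 l : ℂ)).re =
        l2 l * ((j m : ℝ) + u) ^ 2 + (v - l2 l * u ^ 2) := by
      have e1 : ph Q l zh n Ξ + 2 * (j m : ℂ) * (Ξ + (di n l : ℂ)) + (j m : ℂ) ^ 2 * (l2 l : ℂ) =
          ph Q l zh n Ξ + ((2 * (j m : ℝ) : ℝ) : ℂ) * (Ξ + (((di n l : ℝ)) : ℂ)) +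
            (((j m : ℝ) ^ 2 * l2 l : ℝ) : ℂ) := by push_cast; ring
      rw [e1]
      simp only [Complex.add_re, Complex.re_ofReal_mul, Complex.ofReal_re]
      have e2 : l2 l * u = Ξ.re + (di n l : ℝ) := by
        rw [hu]; field_simp
      have e3 : l2 l * ((j m : ℝ) + u) ^ 2 + (v - l2 l * u ^ 2) =
          v + 2 * (j m : ℝ) * (l2 l * u) + (j m : ℝ) ^ 2 * l2 l := by ring
      rw [e3, e2]
    rw [h3] at h2
    exact h2
  have hkey : ∀ x ∈ J, ∀ y ∈ J, |((y : ℝ) + u) ^ 2 - ((x : ℝ) + u) ^ 2| ≤ 2 * t := by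
    intro x hx y hy
    have h1 := hJb x hx
    have h2 := hJb y hy
    rw [abs_le] at h1 h2 ⊢
    have h3 : l2 l * (((y : ℝ) + u) ^ 2 - ((x : ℝ) + u) ^ 2) ≤ 2 * t := by linarith
    have h4 : -(2 * t) ≤ l2 l * (((y : ℝ) + u) ^ 2 - ((x : ℝ) + u) ^ 2) := by linarith
    constructor
    · by_contra hc
      push Not at hc
      nlinarith
    · by_contra hc
      push Not at hc
      nlinarith
  have hs : Real.sqrt (2 * t) ≤ 3 / 2 * Real.sqrt t := by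
    rw [Real.sqrt_mul (by norm_num)]
    have : Real.sqrt 2 ≤ 3 / 2 := by
      rw [Real.sqrt_le_left (by norm_num)]
      norm_num
    nlinarith [Real.sqrt_nonneg t]
  have hs0 := Real.sqrt_nonneg (2 * t)
  have hpos : ∀ J' : Finset ℤ, J' ⊆ J → (∀ x ∈ J', 0 ≤ (x : ℝ) + u) →
      (J'.card : ℝ) ≤ Real.sqrt (2 * t) + 1 := by
    intro J' hJ' hp
    apply card_le_of_diam_st2 _ _ hs0
    intro x hx y hy
    by_contra hc
    push Not at hc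
    have h1 := hkey x (hJ' hx) y (hJ' hy)
    have h2 := (abs_le.mp h1).2
    have h3 := hp x hx
    have h4 : (Real.sqrt (2 * t)) ^ 2 = 2 * t := Real.sq_sqrt (by linarith)
    nlinarith
  have hneg : ∀ J' : Finset ℤ, J' ⊆ J → (∀ x ∈ J', (x : ℝ) + u ≤ 0) →
      (J'.card : ℝ) ≤ Real.sqrt (2 * t) + 1 := by
    intro J' hJ' hp
    apply card_le_of_diam_st2 _ _ hs0
    intro x hx y hy
    by_contra hc
    push Not at hc
    have h1 := hkey y (hJ' hy) x (hJ' hx)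
    have h2 := (abs_le.mp h1).2
    have h3 := hp y hy
    have h4 : (Real.sqrt (2 * t)) ^ 2 = 2 * t := Real.sq_sqrt (by linarith)
    nlinarith
  have h1 := hpos (J.filter fun x : ℤ => 0 ≤ (x : ℝ) + u) (Finset.filter_subset _ _)
    (fun x hx => (Finset.mem_filter.mp hx).2)
  have h2 := hneg (J.filter fun x : ℤ => ¬ 0 ≤ (x : ℝ) + u) (Finset.filter_subset _ _)
    (fun x hx => (not_le.mp (Finset.mem_filter.mp hx).2).le)
  have h3 := Finset.card_filter_add_card_filter_not (s := J) (fun x : ℤ => 0 ≤ (x : ℝ) + u)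
  have h4 : (J.card : ℝ) = (J.filter fun x : ℤ => 0 ≤ (x : ℝ) + u).card +
      (J.filter fun x : ℤ => ¬ 0 ≤ (x : ℝ) + u).card := by exact_mod_cast h3.symm
  rw [hcard, h4]
  nlinarith [Real.sqrt_nonneg t]

theorem kp_pos (P : Sc d μ w) : 0 < kp P := by
  have := P.eight_le_c_st2
  unfold kp
  positivity

theorem kp_le (P : Sc d μ w) : 2 * kp P ≤ P.Λ ^ 4 := by
  have h1 := P.eight_le_c_st2
  have h2 := P.hcΛ
  have h3 := P.hΛ
  unfold kp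
  have h4 : P.c ^ 2 ≤ P.Λ ^ 2 := by gcongr
  have h5 : (10 : ℝ) ^ 14 ≤ P.Λ ^ 2 := by
    calc (10 : ℝ) ^ 14 = (10 ^ 7) ^ 2 := by norm_num
      _ ≤ P.Λ ^ 2 := by gcongr
  calc 2 * (10 ^ 8 * P.c ^ 2) = 2 * 10 ^ 8 * P.c ^ 2 := by ring
    _ ≤ 10 ^ 14 * P.Λ ^ 2 := by
        have : 0 ≤ P.Λ ^ 2 := by positivity
        nlinarith
    _ ≤ P.Λ ^ 2 * P.Λ ^ 2 := by gcongr
    _ = P.Λ ^ 4 := by ring

theorem Kf_finite (hS : Sheet P Q l zh) (hP : Prim l) (hlL : ‖l‖ ≤ P.L) (n : Zd d)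
    {Ξ : ℂ} (h : Ξ ∈ Q.Om l) :
    {m : Zd d | (∃ j : ℤ, m = n + j • l) ∧ ‖ph Q l zh m Ξ‖ < kp P}.Finite := by
  by_contra hinf
  rw [← Set.Infinite] at hinf
  obtain ⟨T, hT, hTc⟩ := hinf.exists_subset_card_eq (⌈4 * Real.sqrt (kp P) + 4⌉₊ + 1)
  have h1 := K_card hS hP hlL h (kp_pos P).le T (fun m hm => by
    have := hT hm
    exact ⟨this.1, this.2.le⟩)
  rw [hTc] at h1
  have h2 := Nat.le_ceil (4 * Real.sqrt (kp P) + 4)
  push_cast at h1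
  linarith

theorem mem_Kf (hS : Sheet P Q l zh) (hP : Prim l) (hlL : ‖l‖ ≤ P.L) {n m : Zd d}
    {Ξ : ℂ} (h : Ξ ∈ Q.Om l) :
    m ∈ Kf Q l zh Ξ n ↔ (∃ j : ℤ, m = n + j • l) ∧ ‖ph Q l zh m Ξ‖ < kp P := by
  unfold Kf
  rw [dif_pos (Kf_finite hS hP hlL n h), Set.Finite.mem_toFinset]
  rfl

open scoped Classical in
theorem dite_finite_congr_st2 {S T : Set (Zd d)} (h : S = T) :
    (if h : S.Finite then h.toFinset else ∅) = (if h : T.Finite then h.toFinset else ∅) := by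
  subst h
  rfl

theorem Kf_eq {n m : Zd d} {Ξ : ℂ} (h : ∃ j : ℤ, m = n + j • l) :
    Kf Q l zh Ξ m = Kf Q l zh Ξ n := by
  obtain ⟨j, rfl⟩ := h
  have hset : {m : Zd d | (∃ i : ℤ, m = n + j • l + i • l) ∧ ‖ph Q l zh m Ξ‖ < kp P} =
      {m : Zd d | (∃ i : ℤ, m = n + i • l) ∧ ‖ph Q l zh m Ξ‖ < kp P} := by
    ext m
    constructor
    · rintro ⟨⟨i, hi⟩, h2⟩
      exact ⟨⟨j + i, by rw [hi, add_smul, add_assoc]⟩, h2⟩
    · rintro ⟨⟨i, hi⟩, h2⟩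
      refine ⟨⟨i - j, ?_⟩, h2⟩
      rw [hi, add_assoc, ← add_smul]
      congr 2
      ring
  unfold Kf
  exact dite_finite_congr_st2 hset

theorem Kf_card (hS : Sheet P Q l zh) (hP : Prim l) (hlL : ‖l‖ ≤ P.L) {n : Zd d}
    {Ξ : ℂ} (h : Ξ ∈ Q.Om l) : ((Kf Q l zh Ξ n).card : ℝ) ≤ 5 * 10 ^ 4 * P.c := by
  have h1 := K_card hS hP hlL (n := n) h (kp_pos P).le (Kf Q l zh Ξ n) (fun m hm => by
    have := (mem_Kf hS hP hlL h).mp hm
    exact ⟨this.1, this.2.le⟩)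
  have h2 := P.eight_le_c_st2
  have h3 : Real.sqrt (kp P) = 10 ^ 4 * P.c := by
    unfold kp
    have : (10 : ℝ) ^ 8 * P.c ^ 2 = (10 ^ 4 * P.c) ^ 2 := by ring
    rw [this, Real.sqrt_sq (by linarith)]
  rw [h3] at h1
  linarith

theorem wr_pos (hP : Prim l) (hlL : ‖l‖ ≤ P.L) : 0 < wr Q l := by
  have h1 := kp_pos P
  have h2 := one_le_l2 hP.1
  have h3 := X0_ge Q hP.1 hlL
  have h4 : 0 < |Q.X0 l| := lt_of_lt_of_le (pow_pos P.Λ_pos 19) h3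
  unfold wr
  positivity

theorem wr_le (hP : Prim l) (hlL : ‖l‖ ≤ P.L) : wr Q l ≤ (P.Λ ^ 13)⁻¹ := by
  have h1 := P.eight_le_c_st2
  have h2 := one_le_l2 hP.1
  have h3 := X0_ge Q hP.1 hlL
  have h4 : 0 < |Q.X0 l| := lt_of_lt_of_le (pow_pos P.Λ_pos 19) h3
  have h5 := l2_le P hlL
  have h6 := P.hcΛ
  have h7 := P.hΛ
  have h8 := P.Λ_pos
  unfold wr kp
  rw [← one_div, le_div_iff₀ (by positivity)]
  have h9 : 10 ^ 8 * P.c ^ 2 / 100 * (l2 l / |Q.X0 l|) * P.Λ ^ 13 =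
      (10 ^ 6 * P.c ^ 2 * l2 l * P.Λ ^ 13) / |Q.X0 l| := by ring
  rw [h9, div_le_one h4]
  calc 10 ^ 6 * P.c ^ 2 * l2 l * P.Λ ^ 13 ≤ 10 ^ 6 * P.Λ ^ 2 * P.Λ * P.Λ ^ 13 := by
        gcongr
        linarith
    _ = 10 ^ 6 * P.Λ ^ 16 := by ring
    _ ≤ P.Λ ^ 3 * P.Λ ^ 16 := by
        gcongr
        calc (10 : ℝ) ^ 6 ≤ P.Λ := by linarith
          _ ≤ P.Λ ^ 3 := le_self_pow₀ (by linarith) (by norm_num)
    _ = P.Λ ^ 19 := by ring
    _ ≤ _ := h3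

theorem wr_ge (hP : Prim l) (hlL : ‖l‖ ≤ P.L) : (P.Λ ^ 21)⁻¹ ≤ wr Q l := by
  have h1 := P.eight_le_c_st2
  have h2 := one_le_l2 hP.1
  have h3 := X0_ge Q hP.1 hlL
  have h4 : 0 < |Q.X0 l| := lt_of_lt_of_le (pow_pos P.Λ_pos 19) h3
  have h5 := X0_le Q hP.1 hlL
  have h8 := P.Λ_pos
  unfold wr kp
  have h9 : (P.Λ ^ 21)⁻¹ ≤ (|Q.X0 l|)⁻¹ := by gcongr
  refine h9.trans ?_
  have h10 : 10 ^ 8 * P.c ^ 2 / 100 * (l2 l / |Q.X0 l|) =
      (10 ^ 6 * P.c ^ 2 * l2 l) * (|Q.X0 l|)⁻¹ := by ring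
  rw [h10]
  apply le_mul_of_one_le_left (by positivity)
  nlinarith [mul_pos (show (0:ℝ) < P.c by linarith) (show (0:ℝ) < P.c by linarith)]

end Fermi
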