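import Pool.Agent.Lib.Fermi.Cartan
import Pool.Agent.Lib.Fermi.Sites
import Pool.Agent.Lib.Fermi.BlkOp

/-!
# Chunk CL: lower bound for the block determinants along the sheet

`K = Kf Ξ₀ n`, `n` fast, `‖ph n Ξ₀‖ < kp`. All `m ∈ K` and all `m + i l`, `|i| ≤ L`, have
`‖lam + 2X0/l2‖ ≤ (1/8)|X0|/l2` (`K_lam`), so by `ph_lip` their `ph` changes by at most
`1.01 * 2.125 * 20/100 kp ≤ 0.43 kp` on `closedBall Ξ₀ (20 wr)`.
* `win_far` (admissibility): `m ∉ K` close to `K`: in the string `‖ph m Ξ‖ ≥ (1 - 0.43) kp`, otherwise `off_string`.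
* `win_near`: `m ∈ K`: `‖ph m Ξ‖ ≤ 1.43 kp`.
* `cluster`: `f Ξ = DK (Kf Ξ₀ n) (kap Ξ (zh Ξ))` is analytic (`DK_analytic`, `hS.diff`), `‖f‖ ≤ B` (`DK_upper`, `b = 2 kp`). Point `z₁`:
  among the `K.card + 1` points `Ξ₀ + i wr/(K.card+1)` there is one with `‖ph m - c‖ ≥ 8c` for all `m ∈ K`, because each `m` excludes at most
  one of them (two of them: difference `≥ 0.99 * 1.875 * 10^6 c²/(5*10^4 c + 1) > 16 c`); there `‖f‖ ≥ 1/m₁! ≥ 1/B` (`DK_lower`).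
  Apply `cartan` with `a = 1/B`, `b = B`; `δ/(30 wr) ≥ δ`.
-/

open scoped BigOperators Topology
open Set Filter Complex

noncomputable section

namespace Fermi

variable {d : ℕ} {μ : ℂ} {w : Zd d → ℂ} {P : Sc d μ w} {Q : Dirs P} {l : Zd d} {zh : ℂ → ℂ}

/-- the site is fast -/
def Fast (Q : Dirs P) (l n : Zd d) : Prop := |(di n l : ℝ) + Q.X0 l| < |Q.X0 l| / 100

private lemma cl_c8 (P : Sc d μ w) : 8 ≤ P.c := by
  have h1 := P.hc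
  have h2 : 0 ≤ ∑' n, ‖w n‖ := tsum_nonneg fun n => norm_nonneg _
  linarith

private lemma cl_kp (P : Sc d μ w) : 10 ^ 6 * P.c ≤ kp P := by
  have h := cl_c8 P
  unfold kp
  nlinarith

private lemma cl_l2 (hP : Prim l) : 0 < l2 l := by
  have := one_le_l2 hP.1
  linarith

private lemma cl_X0 (hP : Prim l) (hlL : ‖l‖ ≤ P.L) : 0 < |Q.X0 l| := by
  have h1 := X0_ge Q hP.1 hlL
  have h2 : (0 : ℝ) < P.Λ ^ 19 := by
    have := P.hΛ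
    positivity
  linarith

private lemma cl_s (hP : Prim l) (hlL : ‖l‖ ≤ P.L) : 0 < |Q.X0 l| / l2 l :=
  div_pos (cl_X0 hP hlL) (cl_l2 hP)

private lemma cl_wr (hP : Prim l) (hlL : ‖l‖ ≤ P.L) : |Q.X0 l| / l2 l * wr Q l = kp P / 100 := by
  have h1 := cl_X0 (Q := Q) hP hlL
  have h2 := cl_l2 hP
  unfold wr
  field_simp

private lemma cl_wr_small (hP : Prim l) (hlL : ‖l‖ ≤ P.L) : 30 * wr Q l ≤ 1 / 4 := by
  have h1 := wr_le (Q := Q) hP hlL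
  have h2 : (P.Λ ^ 13)⁻¹ ≤ (P.Λ)⁻¹ := by
    have hΛ := P.hΛ
    apply inv_anti₀ (by linarith)
    calc P.Λ = P.Λ ^ 1 := (pow_one _).symm
      _ ≤ P.Λ ^ 13 := pow_le_pow_right₀ (by linarith) (by norm_num)
  have h3 : (P.Λ)⁻¹ ≤ (10 ^ 7)⁻¹ := inv_anti₀ (by norm_num) P.hΛ
  norm_num at h3
  linarith

/-- the values change at a rate between `1.85` and `2.15` times `|X0|/l2` -/
private lemma cl_lip (hS : Sheet P Q l zh) (hP : Prim l) (hlL : ‖l‖ ≤ P.L) {m : Zd d} {Ξ₁ Ξ₂ : ℂ}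
    (h1 : Ξ₁ ∈ Q.Om l) (h2 : Ξ₂ ∈ Q.Om l) (h : ‖Ξ₁ - Ξ₂‖ ≤ 20 * wr Q l)
    (hl : ‖Q.lam l m + (2 * Q.X0 l / l2 l : ℝ)‖ ≤ 1 / 8 * (|Q.X0 l| / l2 l)) :
    ‖ph Q l zh m Ξ₁ - ph Q l zh m Ξ₂‖ ≤ 43 / 20 * (|Q.X0 l| / l2 l * ‖Ξ₁ - Ξ₂‖) ∧
    37 / 20 * (|Q.X0 l| / l2 l * ‖Ξ₁ - Ξ₂‖) ≤ ‖ph Q l zh m Ξ₁ - ph Q l zh m Ξ₂‖ := by
  have hs := cl_s (Q := Q) hP hlL
  have hn : ‖((2 * Q.X0 l / l2 l : ℝ) : ℂ)‖ = 2 * (|Q.X0 l| / l2 l) := by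
    rw [Complex.norm_real, Real.norm_eq_abs, abs_div, abs_mul, abs_of_pos (cl_l2 hP)]
    simp
    ring
  have hup : ‖Q.lam l m‖ ≤ 17 / 8 * (|Q.X0 l| / l2 l) := by
    have h3 : Q.lam l m = (Q.lam l m + (2 * Q.X0 l / l2 l : ℝ)) - ((2 * Q.X0 l / l2 l : ℝ) : ℂ) := by
      ring
    have h4 := norm_sub_le (Q.lam l m + (2 * Q.X0 l / l2 l : ℝ)) ((2 * Q.X0 l / l2 l : ℝ) : ℂ)
    rw [← h3, hn] at h4
    linarith
  have hlo : 15 / 8 * (|Q.X0 l| / l2 l) ≤ ‖Q.lam l m‖ := by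
    have h3 : ((2 * Q.X0 l / l2 l : ℝ) : ℂ) =
      (Q.lam l m + (2 * Q.X0 l / l2 l : ℝ)) - Q.lam l m := by ring
    have h4 := norm_sub_le (Q.lam l m + (2 * Q.X0 l / l2 l : ℝ)) (Q.lam l m)
    rw [← h3, hn] at h4
    linarith
  have hne : Q.lam l m ≠ 0 := by
    intro h0
    rw [h0, norm_zero] at hlo
    linarith
  have hw := cl_wr_small (Q := Q) hP hlL
  have hwp := wr_pos (Q := Q) hP hlL
  have hlip := ph_lip hS hP hlL hne h1 h2 (by linarith)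
  have hD0 : 0 ≤ ‖Ξ₁ - Ξ₂‖ := norm_nonneg _
  have hmul : ‖Q.lam l m * (Ξ₁ - Ξ₂)‖ = ‖Q.lam l m‖ * ‖Ξ₁ - Ξ₂‖ := norm_mul _ _
  have e1 := mul_le_mul_of_nonneg_right hup hD0
  have e2 := mul_le_mul_of_nonneg_right hlo hD0
  have hsD : 0 ≤ |Q.X0 l| / l2 l * ‖Ξ₁ - Ξ₂‖ := mul_nonneg hs.le hD0
  constructor
  · have h5 : ph Q l zh m Ξ₁ - ph Q l zh m Ξ₂ =
        (ph Q l zh m Ξ₁ - ph Q l zh m Ξ₂ - Q.lam l m * (Ξ₁ - Ξ₂)) + Q.lam l m * (Ξ₁ - Ξ₂) := by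
      ring
    have h6 := norm_add_le (ph Q l zh m Ξ₁ - ph Q l zh m Ξ₂ - Q.lam l m * (Ξ₁ - Ξ₂))
      (Q.lam l m * (Ξ₁ - Ξ₂))
    rw [← h5, hmul] at h6
    nlinarith
  · have h5 : Q.lam l m * (Ξ₁ - Ξ₂) = (ph Q l zh m Ξ₁ - ph Q l zh m Ξ₂) -
        (ph Q l zh m Ξ₁ - ph Q l zh m Ξ₂ - Q.lam l m * (Ξ₁ - Ξ₂)) := by ring
    have h6 := norm_sub_le (ph Q l zh m Ξ₁ - ph Q l zh m Ξ₂)
      (ph Q l zh m Ξ₁ - ph Q l zh m Ξ₂ - Q.lam l m * (Ξ₁ - Ξ₂))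
    rw [← h5, hmul] at h6
    nlinarith

private lemma cl_mem_Om {Ξ₀ Ξ : ℂ} {r : ℝ}
    (h0 : Metric.closedBall Ξ₀ (20 * wr Q l) ⊆ Q.Om l) (hr : r ≤ 20 * wr Q l)
    (hΞ : ‖Ξ - Ξ₀‖ ≤ r) : Ξ ∈ Q.Om l :=
  h0 (by rw [Metric.mem_closedBall, dist_eq_norm]; linarith)

private lemma cl_mem0 (hP : Prim l) (hlL : ‖l‖ ≤ P.L) {Ξ₀ : ℂ}
    (h0 : Metric.closedBall Ξ₀ (20 * wr Q l) ⊆ Q.Om l) : Ξ₀ ∈ Q.Om l :=
  h0 (Metric.mem_closedBall_self (by have := wr_pos (Q := Q) hP hlL; linarith))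

private lemma cl_var (hS : Sheet P Q l zh) (hP : Prim l) (hlL : ‖l‖ ≤ P.L) {m : Zd d} {Ξ₁ Ξ₂ : ℂ}
    (h1 : Ξ₁ ∈ Q.Om l) (h2 : Ξ₂ ∈ Q.Om l) {t : ℝ} (ht : t ≤ 20) (h : ‖Ξ₁ - Ξ₂‖ ≤ t * wr Q l)
    (hl : ‖Q.lam l m + (2 * Q.X0 l / l2 l : ℝ)‖ ≤ 1 / 8 * (|Q.X0 l| / l2 l)) :
    ‖ph Q l zh m Ξ₁ - ph Q l zh m Ξ₂‖ ≤ 43 / 2000 * t * kp P := by
  have hwp := wr_pos (Q := Q) hP hlL
  have hs := cl_s (Q := Q) hP hlL
  have h3 := (cl_lip hS hP hlL h1 h2 (h.trans (by nlinarith)) hl).1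
  have h4 : |Q.X0 l| / l2 l * ‖Ξ₁ - Ξ₂‖ ≤ |Q.X0 l| / l2 l * (t * wr Q l) :=
    mul_le_mul_of_nonneg_left h hs.le
  have h5 := cl_wr (Q := Q) hP hlL
  have h6 : |Q.X0 l| / l2 l * (t * wr Q l) = t * (kp P / 100) := by
    rw [← h5]; ring
  rw [h6] at h4
  linarith

private lemma cl_kp4 (P : Sc d μ w) {x : ℝ} (h : x ≤ 3 / 2 * kp P) : x ≤ P.Λ ^ 4 := by
  have h1 := kp_le P
  have h2 := cl_kp P
  have h3 := cl_c8 P
  linarith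

theorem win_near (hS : Sheet P Q l zh) (hP : Prim l) (hlL : ‖l‖ ≤ P.L) {Ξ₀ Ξ : ℂ}
    (h0 : Metric.closedBall Ξ₀ (20 * wr Q l) ⊆ Q.Om l) (hΞ : ‖Ξ - Ξ₀‖ ≤ 20 * wr Q l)
    {n : Zd d} (hf : Fast Q l n) (hn : ‖ph Q l zh n Ξ₀‖ < kp P) {m : Zd d}
    (hm : m ∈ Kf Q l zh Ξ₀ n) : ‖ph Q l zh m Ξ‖ ≤ 3 / 2 * kp P := by
  have hc := cl_c8 P
  have hk := cl_kp P
  have hO0 := cl_mem0 hP hlL h0
  have hO := cl_mem_Om h0 le_rfl hΞ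
  rw [mem_Kf hS hP hlL hO0] at hm
  obtain ⟨⟨j, rfl⟩, hm⟩ := hm
  have hl := K_lam hS hP hlL hO0 hf (cl_kp4 P (by linarith)) (j := j) (i := 0)
    (cl_kp4 P (by linarith)) (by simp)
  rw [add_zero] at hl
  have h1 := cl_var hS hP hlL hO hO0 le_rfl hΞ hl
  have h2 := norm_sub_norm_le (ph Q l zh (n + j • l) Ξ) (ph Q l zh (n + j • l) Ξ₀)
  linarith

theorem win_far (hS : Sheet P Q l zh) (hP : Prim l) (hlL : ‖l‖ ≤ P.L) {Ξ₀ Ξ : ℂ}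
    (h0 : Metric.closedBall Ξ₀ (20 * wr Q l) ⊆ Q.Om l) (hΞ : ‖Ξ - Ξ₀‖ ≤ 20 * wr Q l)
    {n : Zd d} (hf : Fast Q l n) (hn : ‖ph Q l zh n Ξ₀‖ < kp P) {m : Zd d}
    (hm : m ∉ Kf Q l zh Ξ₀ n) (hm' : ∃ n' ∈ Kf Q l zh Ξ₀ n, ‖m - n'‖ ≤ P.L) :
    kp P / 2 ≤ ‖ph Q l zh m Ξ‖ := by
  have hc := cl_c8 P
  have hk := cl_kp P
  have hO0 := cl_mem0 hP hlL h0
  have hO := cl_mem_Om h0 le_rfl hΞ
  obtain ⟨n', hn', hd⟩ := hm'
  have hnear := win_near hS hP hlL h0 hΞ hf hn hn'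
  rw [mem_Kf hS hP hlL hO0] at hn'
  obtain ⟨⟨j, rfl⟩, hn'⟩ := hn'
  by_cases hstr : ∃ i : ℤ, m - (n + j • l) = i • l
  · obtain ⟨i, hi⟩ := hstr
    have hmi : m = n + (j + i) • l := by
      rw [sub_eq_iff_eq_add] at hi
      rw [hi, add_smul]
      abel
    have hl1 : 1 ≤ ‖l‖ := by
      have h2 := hP.1
      obtain ⟨a, ha⟩ := Function.ne_iff.1 h2
      have h3 : ‖l a‖ ≤ ‖l‖ := norm_le_pi_norm l a
      have h4 : (1 : ℝ) ≤ ‖l a‖ := by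
        rw [Int.norm_eq_abs]
        exact_mod_cast Int.one_le_abs ha
      linarith
    have hiL : |(i : ℝ)| ≤ P.L := by
      rw [hi, norm_smul, Int.norm_eq_abs] at hd
      have := abs_nonneg (i : ℝ)
      nlinarith
    have hl := K_lam hS hP hlL hO0 hf (cl_kp4 P (by linarith)) (j := j) (i := i)
      (cl_kp4 P (by linarith)) hiL
    have h1 := cl_var hS hP hlL hO hO0 le_rfl hΞ hl
    have hbig : kp P ≤ ‖ph Q l zh (n + (j + i) • l) Ξ₀‖ := by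
      by_contra hcon
      apply hm
      rw [mem_Kf hS hP hlL hO0, hmi]
      exact ⟨⟨j + i, rfl⟩, not_le.1 hcon⟩
    rw [← hmi] at h1 hbig
    have h2 := norm_sub_norm_le (ph Q l zh m Ξ₀) (ph Q l zh m Ξ)
    rw [norm_sub_rev] at h2
    linarith
  · push Not at hstr
    have h1 := off_string hS hP hlL hO (cl_kp4 P hnear) hd hstr
    rw [add_sub_cancel] at h1
    have h2 : P.Λ ^ 4 ≤ P.Λ ^ 17 := pow_le_pow_right₀ (by linarith [P.hΛ]) (by norm_num)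
    have h3 := kp_le P
    linarith

/-- a resonant fast site at `Ξ` belongs to the window -/
theorem win_mem (hS : Sheet P Q l zh) (hP : Prim l) (hlL : ‖l‖ ≤ P.L) {Ξ₀ Ξ : ℂ}
    (h0 : Metric.closedBall Ξ₀ (20 * wr Q l) ⊆ Q.Om l) (hΞ : ‖Ξ - Ξ₀‖ ≤ wr Q l)
    {n : Zd d} (hf : Fast Q l n) (hn : ‖ph Q l zh n Ξ‖ < 2 * P.c) :
    ‖ph Q l zh n Ξ₀‖ < kp P := by
  have hc := cl_c8 P
  have hk := cl_kp P
  have hwp := wr_pos (Q := Q) hP hlL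
  have hO0 := cl_mem0 hP hlL h0
  have hO := cl_mem_Om h0 (by linarith) hΞ
  have hs := cl_s (Q := Q) hP hlL
  have hl := fast_lam hS hP hlL hO hf (cl_kp4 P (by linarith))
  have h1 := cl_var (t := 1) hS hP hlL hO hO0 (by norm_num) (by linarith)
    (hl.trans (by linarith))
  have h2 := norm_sub_norm_le (ph Q l zh n Ξ₀) (ph Q l zh n Ξ)
  rw [norm_sub_rev] at h2
  linarith

/-- all resonant sites at `Ξ` in the string of a fast resonant site are in the cluster -/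
theorem win_all (hS : Sheet P Q l zh) (hP : Prim l) (hlL : ‖l‖ ≤ P.L) {Ξ₀ Ξ : ℂ}
    (h0 : Metric.closedBall Ξ₀ (20 * wr Q l) ⊆ Q.Om l) (hΞ : ‖Ξ - Ξ₀‖ ≤ wr Q l)
    {n : Zd d} (hf : Fast Q l n) (hn : ‖ph Q l zh n Ξ‖ < 2 * P.c) {j : ℤ}
    (hm : ‖ph Q l zh (n + j • l) Ξ‖ < 2 * P.c) : n + j • l ∈ Kf Q l zh Ξ₀ n := by
  have hc := cl_c8 P
  have hk := cl_kp P
  have hwp := wr_pos (Q := Q) hP hlL
  have hO0 := cl_mem0 hP hlL h0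
  have hO := cl_mem_Om h0 (by linarith) hΞ
  have hl := K_lam hS hP hlL hO hf (cl_kp4 P (by linarith)) (j := j) (i := 0)
    (cl_kp4 P (by linarith)) (by simp)
  rw [add_zero] at hl
  have h1 := cl_var (t := 1) hS hP hlL hO hO0 (by norm_num) (by linarith) hl
  have h2 := norm_sub_norm_le (ph Q l zh (n + j • l) Ξ₀) (ph Q l zh (n + j • l) Ξ)
  rw [norm_sub_rev] at h2
  rw [mem_Kf hS hP hlL hO0]
  exact ⟨⟨j, rfl⟩, by linarith⟩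

private lemma cl_adm (hS : Sheet P Q l zh) (hP : Prim l) (hlL : ‖l‖ ≤ P.L) {Ξ₀ Ξ : ℂ}
    (h0 : Metric.closedBall Ξ₀ (20 * wr Q l) ⊆ Q.Om l) (hΞ : ‖Ξ - Ξ₀‖ ≤ 20 * wr Q l)
    {n : Zd d} (hf : Fast Q l n) (hn : ‖ph Q l zh n Ξ₀‖ < kp P) :
    Adm w P.c (DB P.c μ P.L (Kf Q l zh Ξ₀ n) (Q.kap l Ξ (zh Ξ))) := by
  have hc := cl_c8 P
  have hk := cl_kp P
  have hcn : P.c ≤ ‖(P.c : ℂ)‖ := by
    rw [Complex.norm_real, Real.norm_eq_abs]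
    exact le_abs_self _
  refine ⟨P.hw, P.hc, fun m => ?_⟩
  unfold DB
  split_ifs with h1 h2
  · exact hcn
  · have h3 : kp P / 2 ≤ ‖q μ (Q.kap l Ξ (zh Ξ)) m‖ := win_far hS hP hlL h0 hΞ hf hn h1 h2
    linarith
  · exact hcn

private lemma cl_point (hS : Sheet P Q l zh) (hP : Prim l) (hlL : ‖l‖ ≤ P.L) {Ξ₀ : ℂ}
    (h0 : Metric.closedBall Ξ₀ (20 * wr Q l) ⊆ Q.Om l)
    {n : Zd d} (hf : Fast Q l n) (hn : ‖ph Q l zh n Ξ₀‖ < kp P) :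
    ∃ z₁ : ℂ, ‖z₁ - Ξ₀‖ ≤ wr Q l ∧ ∀ m ∈ Kf Q l zh Ξ₀ n, 8 * P.c ≤ ‖ph Q l zh m z₁ - P.c‖ := by
  classical
  have hc := cl_c8 P
  have hk := cl_kp P
  have hwp := wr_pos (Q := Q) hP hlL
  have hO0 := cl_mem0 hP hlL h0
  have hs := cl_s (Q := Q) hP hlL
  set K := Kf Q l zh Ξ₀ n with hK
  have hcard := Kf_card (n := n) hS hP hlL hO0
  rw [← hK] at hcard
  set pt : ℕ → ℂ := fun i => Ξ₀ + ((i * (wr Q l / (K.card + 1)) : ℝ) : ℂ) with hpt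
  have hN : (0 : ℝ) < (K.card : ℝ) + 1 := by positivity
  have hpt1 : ∀ i ∈ Finset.range (K.card + 1), ‖pt i - Ξ₀‖ ≤ wr Q l := by
    intro i hi
    have h1 : pt i - Ξ₀ = ((i * (wr Q l / (K.card + 1)) : ℝ) : ℂ) := by
      simp [hpt]
    rw [h1, Complex.norm_real, Real.norm_eq_abs, abs_of_nonneg (by positivity)]
    have h2 : (i : ℝ) ≤ K.card + 1 := by
      have := (Finset.mem_range.1 hi).le
      exact_mod_cast this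
    calc (i : ℝ) * (wr Q l / (K.card + 1)) ≤ (K.card + 1) * (wr Q l / (K.card + 1)) :=
          mul_le_mul_of_nonneg_right h2 (by positivity)
      _ = wr Q l := by field_simp
  by_contra hcon
  push Not at hcon
  have hch : ∀ i ∈ Finset.range (K.card + 1), ∃ m ∈ K, ‖ph Q l zh m (pt i) - P.c‖ < 8 * P.c :=
    fun i hi => hcon (pt i) (hpt1 i hi)
  choose! g hgK hg using hch
  obtain ⟨i, hi, j, hj, hij, he⟩ := Finset.exists_ne_map_eq_of_card_lt_of_maps_to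
    (s := Finset.range (K.card + 1)) (t := K) (by simp) (f := g) hgK
  have hmK := hgK i hi
  have hm' := hmK
  rw [hK, mem_Kf hS hP hlL hO0] at hm'
  obtain ⟨⟨j', hj'⟩, hm''⟩ := hm'
  have hl : ‖Q.lam l (g i) + (2 * Q.X0 l / l2 l : ℝ)‖ ≤ 1 / 8 * (|Q.X0 l| / l2 l) := by
    rw [hj'] at hm'' ⊢
    have := K_lam hS hP hlL hO0 hf (cl_kp4 P (by linarith)) (j := j') (i := 0)
      (cl_kp4 P (by linarith)) (by simp)
    rwa [add_zero] at this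
  have hOi := cl_mem_Om h0 (by linarith) (hpt1 i hi)
  have hOj := cl_mem_Om h0 (by linarith) (hpt1 j hj)
  have hdist : ‖pt i - pt j‖ = |(i : ℝ) - j| * (wr Q l / (K.card + 1)) := by
    have h1 : pt i - pt j = ((((i : ℝ) - j) * (wr Q l / (K.card + 1)) : ℝ) : ℂ) := by
      simp only [hpt]
      push_cast
      ring
    rw [h1, Complex.norm_real, Real.norm_eq_abs, abs_mul,
      abs_of_nonneg (show 0 ≤ wr Q l / ((K.card : ℝ) + 1) by positivity)]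
  have hij1 : 1 ≤ |(i : ℝ) - j| := by
    have h1 : (i : ℤ) - j ≠ 0 := by
      intro h2
      apply hij
      have : (i : ℤ) = j := by linarith
      exact_mod_cast this
    have h2 := Int.one_le_abs h1
    have h3 : ((1 : ℤ) : ℝ) ≤ ((|(i : ℤ) - j| : ℤ) : ℝ) := by exact_mod_cast h2
    push_cast at h3
    exact h3
  have hd20 : ‖pt i - pt j‖ ≤ 20 * wr Q l := by
    have h1 := norm_sub_le (pt i - Ξ₀) (pt j - Ξ₀)
    have h2 := hpt1 i hi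
    have h3 := hpt1 j hj
    rw [sub_sub_sub_cancel_right] at h1
    linarith
  have h1 := (cl_lip hS hP hlL hOi hOj hd20 hl).2
  have h2 : |Q.X0 l| / l2 l * ‖pt i - pt j‖ ≥ kp P / 100 / (K.card + 1) := by
    rw [hdist, ← cl_wr (Q := Q) hP hlL]
    have h3 : |Q.X0 l| / l2 l * wr Q l / (↑K.card + 1) =
      1 * (|Q.X0 l| / l2 l * (wr Q l / (K.card + 1))) := by ring
    rw [h3, show |Q.X0 l| / l2 l * (|(i : ℝ) - j| * (wr Q l / (↑K.card + 1))) =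
      |(i : ℝ) - j| * (|Q.X0 l| / l2 l * (wr Q l / (K.card + 1))) by ring]
    exact mul_le_mul_of_nonneg_right hij1 (by positivity)
  have h3 : 18 * P.c ≤ kp P / 100 / (K.card + 1) := by
    rw [le_div_iff₀ hN]
    have : kp P = 10 ^ 8 * P.c ^ 2 := rfl
    nlinarith
  have h4 : ‖ph Q l zh (g i) (pt i) - ph Q l zh (g i) (pt j)‖ < 16 * P.c := by
    have h5 := hg i hi
    have h6 := hg j hj
    rw [← he] at h6
    have h7 := norm_sub_le (ph Q l zh (g i) (pt i) - P.c) (ph Q l zh (g i) (pt j) - P.c)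
    rw [sub_sub_sub_cancel_right] at h7
    linarith
  linarith

theorem cluster (hS : Sheet P Q l zh) (hP : Prim l) (hlL : ‖l‖ ≤ P.L) {cc B : ℝ} {m₁ m₂ : ℕ}
    (hcc : P.c ≤ cc) (hm₁ : 5 * 10 ^ 4 * cc ≤ m₁)
    (hB : m₁.factorial * (10 ^ 9 * cc) ^ m₁ ≤ B) (hm₂ : B ^ 2 ≤ 2 ^ m₂) {Ξ₀ : ℂ}
    (h0 : Metric.closedBall Ξ₀ (20 * wr Q l) ⊆ Q.Om l)
    {n : Zd d} (hf : Fast Q l n) (hn : ‖ph Q l zh n Ξ₀‖ < kp P) :
    ∃ Z : Multiset ℂ, Multiset.card Z ≤ m₂ ∧ ∀ δ : ℝ, 0 < δ → δ ≤ wr Q l →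
      ∀ Ξ : ℂ, ‖Ξ - Ξ₀‖ ≤ wr Q l → (∀ ζ ∈ Z, δ ≤ ‖Ξ - ζ‖) →
        (B ^ 19)⁻¹ * δ ^ m₂ ≤
          ‖DK w P.c μ P.L (Kf Q l zh Ξ₀ n) (Q.kap l Ξ (zh Ξ))‖ := by
  have hc := cl_c8 P
  have hk := cl_kp P
  have hwp := wr_pos (Q := Q) hP hlL
  have hO0 := cl_mem0 hP hlL h0
  obtain ⟨z₁, hz₁, hz₁'⟩ := cl_point hS hP hlL h0 hf hn
  set K := Kf Q l zh Ξ₀ n with hK
  have hcard := Kf_card (n := n) hS hP hlL hO0
  rw [← hK] at hcard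
  have hcm : K.card ≤ m₁ := by
    have : (K.card : ℝ) ≤ m₁ := by nlinarith
    exact_mod_cast this
  have hcc1 : (1 : ℝ) ≤ 10 ^ 9 * cc := by linarith
  have hfac : (1 : ℝ) ≤ m₁.factorial := by
    exact_mod_cast Nat.one_le_iff_ne_zero.2 (Nat.factorial_ne_zero _)
  have hpow1 : (1 : ℝ) ≤ (10 ^ 9 * cc) ^ m₁ := one_le_pow₀ hcc1
  have hB1 : (m₁.factorial : ℝ) ≤ B := by nlinarith
  have hB0 : 1 ≤ B := by linarith
  have hBp : 0 < B := by linarith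
  -- the function
  set f : ℂ → ℂ := fun Ξ => DK w P.c μ P.L K (Q.kap l Ξ (zh Ξ)) with hfdef
  have hkap : ∀ Ξ ∈ Q.Om l, AnalyticAt ℂ (fun Ξ => Q.kap l Ξ (zh Ξ)) Ξ := by
    intro Ξ hΞ
    have h1 : AnalyticAt ℂ zh Ξ := hS.diff.analyticAt ((isOpen_Om Q l).mem_nhds hΞ)
    unfold Dirs.kap
    exact ((analyticAt_id.div_const).smul analyticAt_const).add (h1.smul analyticAt_const)
  have hfan : AnalyticOnNhd ℂ f (Metric.closedBall Ξ₀ (20 * wr Q l)) := by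
    intro Ξ hΞ
    have hΞ' : ‖Ξ - Ξ₀‖ ≤ 20 * wr Q l := by
      rw [Metric.mem_closedBall, dist_eq_norm] at hΞ
      exact hΞ
    have h1 : AnalyticAt ℂ (fun k => DK w P.c μ P.L K k) (Q.kap l Ξ (zh Ξ)) := by
      refine DK_analytic P.L K _ (cl_adm hS hP hlL h0 hΞ' hf hn) (fun m hm hm' => ?_)
      have := win_far hS hP hlL h0 hΞ' hf hn hm hm'
      have h2 : kp P / 2 ≤ ‖q μ (Q.kap l Ξ (zh Ξ)) m‖ := this
      linarith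
    exact AnalyticAt.fun_comp (f := fun Ξ => Q.kap l Ξ (zh Ξ)) h1 (hkap Ξ (h0 hΞ))
  have hfup : ∀ Ξ ∈ Metric.closedBall Ξ₀ (20 * wr Q l), ‖f Ξ‖ ≤ B := by
    intro Ξ hΞ
    have hΞ' : ‖Ξ - Ξ₀‖ ≤ 20 * wr Q l := by
      rw [Metric.mem_closedBall, dist_eq_norm] at hΞ
      exact hΞ
    have h1 := DK_upper (b := 2 * kp P) (cl_adm hS hP hlL h0 hΞ' hf hn) (fun m hm => by
      have h2 : ‖q μ (Q.kap l Ξ (zh Ξ)) m‖ ≤ 3 / 2 * kp P := win_near hS hP hlL h0 hΞ' hf hn hm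
      have h3 := norm_sub_le (q μ (Q.kap l Ξ (zh Ξ)) m) (P.c : ℂ)
      rw [Complex.norm_real, Real.norm_eq_abs, abs_of_nonneg (by linarith)] at h3
      linarith)
    rw [← hK] at h1
    have h4 : 1 + 2 * (2 * kp P) / P.c ≤ 10 ^ 9 * cc := by
      have : kp P = 10 ^ 8 * P.c ^ 2 := rfl
      rw [this]
      have h5 : 2 * (2 * (10 ^ 8 * P.c ^ 2)) / P.c = 4 * 10 ^ 8 * P.c := by
        field_simp
        ring
      rw [h5]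
      linarith
    have h6 : (0 : ℝ) ≤ 1 + 2 * (2 * kp P) / P.c := by
      have : 0 ≤ 2 * (2 * kp P) / P.c := div_nonneg (by linarith) (by linarith)
      linarith
    calc ‖f Ξ‖ ≤ K.card.factorial * (1 + 2 * (2 * kp P) / P.c) ^ K.card := h1
      _ ≤ m₁.factorial * (10 ^ 9 * cc) ^ m₁ := by
          have h7 : (K.card.factorial : ℝ) ≤ m₁.factorial := by
            exact_mod_cast Nat.factorial_le hcm
          have h8 : (1 + 2 * (2 * kp P) / P.c) ^ K.card ≤ (10 ^ 9 * cc) ^ m₁ :=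
            (pow_le_pow_left₀ h6 h4 _).trans (pow_le_pow_right₀ hcc1 hcm)
          exact mul_le_mul h7 h8 (by positivity) (by positivity)
      _ ≤ B := hB
  have hz₁O : ‖z₁ - Ξ₀‖ ≤ 20 * wr Q l := by linarith
  have hflo : B⁻¹ ≤ ‖f z₁‖ := by
    have h1 := DK_lower (cl_adm hS hP hlL h0 hz₁O hf hn) hz₁'
    rw [← hK] at h1
    refine le_trans ?_ h1
    rw [one_div]
    apply inv_anti₀ (by exact_mod_cast Nat.factorial_pos _)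
    have h7 : (K.card.factorial : ℝ) ≤ m₁.factorial := by
      exact_mod_cast Nat.factorial_le hcm
    linarith
  obtain ⟨Z, hZ1, hZ2⟩ := cartan hwp (inv_pos.2 hBp) hfan hfup hz₁ hflo
  have hBB : B / B⁻¹ = B ^ 2 := by
    field_simp
  have hZm : Multiset.card Z ≤ m₂ := by
    rw [hBB] at hZ1
    exact (pow_le_pow_iff_right₀ (by norm_num : (1 : ℝ) < 2)).1 (hZ1.trans hm₂)
  refine ⟨Z, hZm, fun δ hδ hδw Ξ hΞ hΞZ => ?_⟩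
  refine le_trans ?_ (hZ2 δ hδ hδw Ξ hΞ hΞZ)
  have hw30 := cl_wr_small (Q := Q) hP hlL
  have h1 : B⁻¹ * (B⁻¹ / B) ^ 9 = (B ^ 19)⁻¹ := by
    field_simp
  rw [h1]
  have h2 : δ ≤ δ / (30 * wr Q l) := by
    rw [le_div_iff₀ (by positivity)]
    nlinarith
  have h3 : δ ^ m₂ ≤ (δ / (30 * wr Q l)) ^ (Multiset.card Z) :=
    (pow_le_pow_of_le_one hδ.le (by linarith) hZm).trans (pow_le_pow_left₀ hδ.le h2 _)
  exact mul_le_mul_of_nonneg_left h3 (by positivity)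

end Fermi
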