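import Pool.Agent.Lib.Fermi.GeoReg

/-!
# Chunk X3: crossing of slabs in dimension three

`e₂ = l × ed l` (integer vector, orthogonal to `l` and `ed l`; `|e₂| = |l||ed|`), `τ = tt / di e l`, `y = yc l + σ l`, `|σ| ≤ T1`.
Let `Θ = |τ| |ed| |e₂|`. Regularity lemma: if `im k = yc l + σ l + η`, `|σ| ≤ 2 T1`, `|η|²|im k|² ≤ 4`, `|η|² ≤ 1` and
`dt (re k) e₂ ± Θ` both have distance `≥ 1/8` from `ℤ` then `k` is regular. Proof: let `|q_n| < 2c`, `v = re k + n`.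
For `l'` not parallel to `l` the imaginary part of `q_{n+l'} - q_n` is large. If `l'` is parallel to `l` and
`|q_{n+l'}| < G` then `|dt v l| ≤ G L` (real part), so `|dt v ed| ≤ 1`, and the Gram identity
`(dt v e₂)² = |v|²|l|²|ed|² - (v·l)²|ed|² - (v·ed)²|l|²` shows that `|dt v e₂|` is near `Θ`; but `dt v e₂ ∈ dt (re k) e₂ + ℤ`.
Path: `x = (β/|y|²) y + g (τ|ed|² l - σ|l|² ed) + X₂ e₂/|e₂|²` with `X₂ ∈ {0, 1/2}`.
-/

open scoped BigOperators Topology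
open Set Filter

noncomputable section

namespace Fermi

variable {μ : ℂ} {w : Zd 3 → ℂ} {P : Sc 3 μ w} {Q : Dirs P} {E : Cd 3 → ℂ}

namespace X3

/-! ### vectors in dimension three -/

lemma dr3 (x y : Fin 3 → ℝ) : dr x y = x 0 * y 0 + x 1 * y 1 + x 2 * y 2 := by
  simp [dr, Fin.sum_univ_three]

lemma di3 (x y : Zd 3) : di x y = x 0 * y 0 + x 1 * y 1 + x 2 * y 2 := by
  simp [di, Fin.sum_univ_three]

lemma dt3 (x : Fin 3 → ℝ) (y : Zd 3) : dt x y = x 0 * y 0 + x 1 * y 1 + x 2 * y 2 := by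
  simp [dt, Fin.sum_univ_three]

lemma cs3 (x y : Fin 3 → ℝ) : (dr x y) ^ 2 ≤ dr x x * dr y y := by
  have := Finset.sum_mul_sq_le_sq_mul_sq (Finset.univ : Finset (Fin 3)) x y
  simpa [dr, sq] using this

lemma dr_self_nonneg (x : Fin 3 → ℝ) : 0 ≤ dr x x := by
  rw [dr3]; nlinarith [mul_self_nonneg (x 0), mul_self_nonneg (x 1), mul_self_nonneg (x 2)]

/-- integer vector as a real vector -/
def rv (n : Zd 3) : Fin 3 → ℝ := fun j => (n j : ℝ)

lemma dt_rv (y : Fin 3 → ℝ) (n : Zd 3) : dt y n = dr y (rv n) := rfl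

lemma dr_rv (m n : Zd 3) : dr (rv m) (rv n) = (di m n : ℝ) := by
  rw [dr3, di3]; simp [rv]

/-- the cross product -/
def crs (l m : Zd 3) : Zd 3 :=
  ![l 1 * m 2 - l 2 * m 1, l 2 * m 0 - l 0 * m 2, l 0 * m 1 - l 1 * m 0]

lemma crs0 (l m : Zd 3) : crs l m 0 = l 1 * m 2 - l 2 * m 1 := rfl
lemma crs1 (l m : Zd 3) : crs l m 1 = l 2 * m 0 - l 0 * m 2 := rfl
lemma crs2 (l m : Zd 3) : crs l m 2 = l 0 * m 1 - l 1 * m 0 := rfl

/-- the vector `re k + n` -/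
def vv (k : Cd 3) (n : Zd 3) : Fin 3 → ℝ := fun j => re k j + (n j : ℝ)

lemma q_re (k : Cd 3) (n : Zd 3) :
    (q μ k n).re = dr (vv k n) (vv k n) - dr (im k) (im k) - μ.re := by
  simp only [q, bil, Fin.sum_univ_three, dr3, vv, re, im]
  simp [zc]
  ring

lemma q_im (k : Cd 3) (n : Zd 3) :
    (q μ k n).im = 2 * dr (vv k n) (im k) - μ.im := by
  simp only [q, bil, Fin.sum_univ_three, dr3, vv, re, im]
  simp [zc]
  ring

lemma vv_add (k : Cd 3) (n l : Zd 3) (x : Fin 3 → ℝ) :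
    dr (vv k (n + l)) x = dr (vv k n) x + dr (rv l) x := by
  rw [dr3, dr3, dr3]; simp [vv, rv]; ring

lemma vv_add' (k : Cd 3) (n l : Zd 3) :
    dr (vv k (n + l)) (vv k (n + l)) =
      dr (vv k n) (vv k n) + 2 * dr (vv k n) (rv l) + dr (rv l) (rv l) := by
  rw [dr3, dr3, dr3, dr3]; simp [vv, rv]; ring

/-- Gram identity -/
lemma gram (v : Fin 3 → ℝ) (l m : Zd 3) (h : di l m = 0) :
    (dt v (crs l m)) ^ 2 = dr v v * (di l l : ℝ) * (di m m : ℝ)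
      - (dr v (rv l)) ^ 2 * (di m m : ℝ) - (dr v (rv m)) ^ 2 * (di l l : ℝ) := by
  have h' : (l 0 : ℝ) * m 0 + l 1 * m 1 + l 2 * m 2 = 0 := by
    have := congrArg (Int.cast : ℤ → ℝ) h
    rw [di3] at this
    push_cast at this
    exact this
  rw [dt3, crs0, crs1, crs2, dr3, dr3, dr3, di3, di3]
  simp only [rv]
  push_cast
  linear_combination (-(v 0 ^ 2 + v 1 ^ 2 + v 2 ^ 2) * ((l 0 : ℝ) * m 0 + l 1 * m 1 + l 2 * m 2)
    + 2 * (v 0 * l 0 + v 1 * l 1 + v 2 * l 2) * (v 0 * m 0 + v 1 * m 1 + v 2 * m 2)) * h'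

/-! ### the scale -/

section scale

variable (P)

lemma Λ_ge : (10 : ℝ) ^ 7 ≤ P.Λ := P.hΛ

lemma Λ_pos : 0 < P.Λ := lt_of_lt_of_le (by norm_num) P.hΛ

lemma Λ_one : 1 ≤ P.Λ := le_trans (by norm_num) P.hΛ

lemma L2 : 900 * (P.L : ℝ) ^ 2 ≤ P.Λ := by
  have := P.hLΛ; norm_num at this; linarith

lemma L_ge : (30 : ℝ) ≤ P.L := by
  have := P.hL
  have h : 30 ≤ P.L := by omega
  exact_mod_cast h

lemma c_ge : 8 ≤ P.c := by
  have h1 := P.hc
  have h2 : 0 ≤ ∑' n, ‖w n‖ := tsum_nonneg fun _ => norm_nonneg _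
  linarith

lemma w0_le : 4 * ‖w 0‖ + 8 ≤ P.c := by
  have h1 := P.hc
  have h2 : ‖w 0‖ ≤ ∑' n, ‖w n‖ := P.hw.le_tsum 0 fun _ _ => norm_nonneg _
  linarith

lemma pw {a b : ℕ} (h : a + 1 ≤ b) : 10 ^ 7 * P.Λ ^ a ≤ P.Λ ^ b := by
  calc 10 ^ 7 * P.Λ ^ a ≤ P.Λ * P.Λ ^ a :=
        mul_le_mul_of_nonneg_right P.hΛ (pow_nonneg (Λ_pos P).le _)
    _ = P.Λ ^ (a + 1) := by ring
    _ ≤ P.Λ ^ b := pow_le_pow_right₀ (Λ_one P) h

end scale

lemma coord_le {l : Zd 3} (hl : ‖l‖ ≤ P.L) (j : Fin 3) : |(l j : ℝ)| ≤ P.L := by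
  have h1 : ‖l j‖ ≤ ‖l‖ := norm_le_pi_norm l j
  have h2 : ‖l j‖ = |(l j : ℝ)| := by rw [Int.norm_eq_abs]
  rw [h2] at h1
  exact h1.trans hl

/-- dot products of small vectors -/
lemma di_le {l m : Zd 3} (hl : ‖l‖ ≤ P.L) (hm : ‖m‖ ≤ P.L) : |(di l m : ℝ)| ≤ P.Λ / 300 := by
  have h := L2 P
  have hL := L_ge P
  have key : ∀ j, |(l j : ℝ) * m j| ≤ (P.L : ℝ) ^ 2 := fun j => by
    rw [abs_mul, sq]
    exact mul_le_mul (coord_le hl j) (coord_le hm j) (abs_nonneg _) (by linarith)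
  have e : (di l m : ℝ) = (l 0 : ℝ) * m 0 + l 1 * m 1 + l 2 * m 2 := by
    rw [di3]; push_cast; ring
  rw [e]
  have h0 := abs_le.1 (key 0)
  have h1 := abs_le.1 (key 1)
  have h2 := abs_le.1 (key 2)
  rw [abs_le]
  constructor <;> linarith

lemma di_self_pos {l : Zd 3} (hl : l ≠ 0) : 1 ≤ (di l l : ℝ) := by
  have : 0 < di l l := by
    rcases Function.ne_iff.1 hl with ⟨j, hj⟩
    have hj' : 0 < l j * l j := by
      rcases lt_or_gt_of_ne hj with h | h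
      · exact mul_pos_of_neg_of_neg h h
      · exact mul_pos h h
    unfold di
    exact Finset.sum_pos' (fun i _ => mul_self_nonneg _) ⟨j, Finset.mem_univ _, hj'⟩
  exact_mod_cast this

/-! ### the directions -/

lemma di_ed (Q : Dirs P) (l m : Zd 3) :
    di (Q.ed l) m = di Q.e l * di Q.a m - di Q.a l * di Q.e m := by
  have h0 : ∀ j, Q.ed l j = di Q.e l * Q.a j - di Q.a l * Q.e j := fun j => by
    simp [Dirs.ed]
  rw [di3 (Q.ed l) m, h0, h0, h0, di3 Q.a m, di3 Q.e m]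
  ring

lemma di_ed_self (Q : Dirs P) (l : Zd 3) : di (Q.ed l) l = 0 := by
  rw [di_ed]; ring

lemma di_comm' (l m : Zd 3) : di l m = di m l := by
  rw [di3, di3]; ring

lemma di_e_ne (Q : Dirs P) {l : Zd 3} (hl : l ≠ 0) (hlL : ‖l‖ ≤ P.L) : di Q.e l ≠ 0 :=
  Q.he l hl hlL

lemma para (Q : Dirs P) {l m : Zd 3} (hl : l ≠ 0) (hlL : ‖l‖ ≤ P.L) (hm : m ≠ 0)
    (hmL : ‖m‖ ≤ P.L) (h : di (Q.ed l) m = 0) : ∃ i j : ℤ, i ≠ 0 ∧ j ≠ 0 ∧ i • l = j • m := by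
  refine Q.hea l m hl hlL hm hmL ?_
  rw [di_ed] at h
  linarith

lemma ed_ne (Q : Dirs P) {l : Zd 3} (hl : l ≠ 0) (hlL : ‖l‖ ≤ P.L) : Q.ed l ≠ 0 := by
  intro h0
  have hL := L_ge P
  have hu : ∀ j : Fin 3, ∃ i k : ℤ, i ≠ 0 ∧ k ≠ 0 ∧ i • l = k • (Pi.single j 1 : Zd 3) := by
    intro j
    refine para Q hl hlL ?_ ?_ ?_
    · intro h
      have := congrFun h j
      simp at this
    · refine le_trans ?_ (by linarith : (1 : ℝ) ≤ P.L)
      rw [pi_norm_le_iff_of_nonneg (by norm_num)]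
      intro i
      by_cases hij : i = j
      · subst hij; simp
      · simp [hij]
    · rw [h0, di3]; simp
  obtain ⟨i, k, hi, -, h1⟩ := hu 0
  obtain ⟨i', k', hi', -, h2⟩ := hu 1
  have a1 := congrFun h1 1
  have a2 := congrFun h1 2
  have a0 := congrFun h2 0
  simp [hi] at a1 a2
  simp [hi'] at a0
  apply hl
  funext j
  fin_cases j <;> simp [a0, a1, a2]

/-- `τ = tt / di e l` -/
def tau (Q : Dirs P) (l : Zd 3) : ℝ := P.tt / (di Q.e l : ℝ)

lemma tau_bd (Q : Dirs P) {l : Zd 3} (hl : l ≠ 0) (hlL : ‖l‖ ≤ P.L) :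
    P.Λ ^ 19 ≤ |tau Q l| ∧ |tau Q l| ≤ P.Λ ^ 20 := by
  have h0 := di_e_ne Q hl hlL
  have h1 : (1 : ℝ) ≤ |(di Q.e l : ℝ)| := by
    have : 1 ≤ |di Q.e l| := Int.one_le_abs h0
    exact_mod_cast this
  have h2 := Q.be l hlL
  have hΛ := Λ_pos P
  have e : |tau Q l| = P.Λ ^ 20 / |(di Q.e l : ℝ)| := by
    rw [tau, Sc.tt, abs_div, abs_of_pos (pow_pos hΛ 20)]
  rw [e]
  constructor
  · rw [le_div_iff₀ (by linarith)]
    calc P.Λ ^ 19 * |(di Q.e l : ℝ)| ≤ P.Λ ^ 19 * P.Λ :=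
          mul_le_mul_of_nonneg_left h2 (pow_nonneg hΛ.le _)
      _ = P.Λ ^ 20 := by ring
  · rw [div_le_iff₀ (by linarith)]
    nlinarith [pow_pos hΛ 20]

lemma yc_eq (Q : Dirs P) (l : Zd 3) (j : Fin 3) : Q.yc l j = tau Q l * (Q.ed l j : ℝ) := rfl

/-- the unperturbed imaginary part -/
def y0 (Q : Dirs P) (l : Zd 3) (σ : ℝ) : Fin 3 → ℝ := fun j => Q.yc l j + σ * (l j : ℝ)

lemma dt_y0 (Q : Dirs P) (l m : Zd 3) (σ : ℝ) :
    dt (y0 Q l σ) m = tau Q l * (di (Q.ed l) m : ℝ) + σ * (di l m : ℝ) := by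
  rw [dt3, di3, di3]; simp only [y0, yc_eq]; push_cast; ring

lemma y0_sq (Q : Dirs P) (l : Zd 3) (σ : ℝ) :
    dr (y0 Q l σ) (y0 Q l σ) =
      tau Q l ^ 2 * (di (Q.ed l) (Q.ed l) : ℝ) + σ ^ 2 * (di l l : ℝ) := by
  have h' : (Q.ed l 0 : ℝ) * l 0 + Q.ed l 1 * l 1 + Q.ed l 2 * l 2 = 0 := by
    have := congrArg (Int.cast : ℤ → ℝ) (di_ed_self Q l)
    rw [di3] at this
    push_cast at this
    exact this
  rw [dr3, di3, di3]; simp only [y0, yc_eq]; push_cast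
  linear_combination 2 * tau Q l * σ * h'

/-! ### the regularity lemma -/

/-- the constant `Θ = |τ| |ed|² |l|` -/
def Th0 (Q : Dirs P) (l : Zd 3) : ℝ :=
  |tau Q l| * (di (Q.ed l) (Q.ed l) : ℝ) * Real.sqrt (di l l : ℝ)

lemma core {Λ Ln D τ σ V vl vd a b Θ : ℝ} (hΛ : 10 ^ 7 ≤ Λ) (hLn : 1 ≤ Ln) (hLn' : Ln ≤ Λ / 300)
    (hD : 1 ≤ D) (hτ : Λ ^ 19 ≤ |τ|) (hσ : σ ^ 2 ≤ 4 * Λ ^ 14) (hvl : vl ^ 2 ≤ Λ ^ 11)
    (hvd : vd ^ 2 ≤ 1) (hΘ : Θ = |τ| * D * Real.sqrt Ln)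
    (hV : V ^ 2 = a * Ln * D - vl ^ 2 * D - vd ^ 2 * Ln) (hab : |a - b| ≤ 3 * Λ)
    (hb : |b - (τ ^ 2 * D + σ ^ 2 * Ln)| ≤ 6) (h1 : 1 / 8 ≤ |V + Θ|) (h2 : 1 / 8 ≤ |V - Θ|) :
    False := by
  have hΛ1 : 1 ≤ Λ := le_trans (by norm_num) hΛ
  have hΛ0 : 0 < Λ := by linarith
  have hp : ∀ n : ℕ, 0 < Λ ^ n := fun n => pow_pos hΛ0 n
  have hs : Real.sqrt Ln ^ 2 = Ln := Real.sq_sqrt (by linarith)
  have hs1 : 1 ≤ Real.sqrt Ln := by
    rw [show (1 : ℝ) = Real.sqrt 1 by simp]; exact Real.sqrt_le_sqrt hLn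
  have hΘ2 : Θ ^ 2 = τ ^ 2 * D ^ 2 * Ln := by
    rw [hΘ, mul_pow, mul_pow, hs, sq_abs]
  have hΘD : Λ ^ 19 * D ≤ Θ := by
    rw [hΘ]
    calc Λ ^ 19 * D ≤ |τ| * D := mul_le_mul_of_nonneg_right hτ (by linarith)
      _ = |τ| * D * 1 := by ring
      _ ≤ _ := mul_le_mul_of_nonneg_left hs1 (mul_nonneg (abs_nonneg _) (by linarith))
  have hΘ0 : 0 < Θ := lt_of_lt_of_le (mul_pos (hp 19) (by linarith)) hΘD
  -- lower bound
  have hlow : Θ / 8 ≤ |V ^ 2 - Θ ^ 2| := by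
    have e : V ^ 2 - Θ ^ 2 = (V + Θ) * (V - Θ) := by ring
    rw [e, abs_mul]
    rcases le_total 0 V with hv | hv
    · have : Θ ≤ |V + Θ| := by rw [abs_of_nonneg (by linarith)]; linarith
      nlinarith [abs_nonneg (V - Θ)]
    · have : Θ ≤ |V - Θ| := by rw [abs_of_nonpos (by linarith)]; linarith
      nlinarith [abs_nonneg (V + Θ)]
  -- upper bound
  have hLD : 0 < Ln * D := mul_pos (by linarith) (by linarith)
  have e : V ^ 2 - Θ ^ 2 = (a - τ ^ 2 * D) * (Ln * D) - vl ^ 2 * D - vd ^ 2 * Ln := by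
    rw [hV, hΘ2]; ring
  have hσL : σ ^ 2 * Ln ≤ 4 * Λ ^ 14 * (Λ / 300) := by
    apply mul_le_mul hσ hLn' (by linarith) (by positivity)
  have hσ0 : 0 ≤ σ ^ 2 * Ln := mul_nonneg (sq_nonneg _) (by linarith)
  have h15 : Λ ≤ Λ ^ 15 / 10 ^ 7 := by
    rw [le_div_iff₀ (by norm_num)]
    calc Λ * 10 ^ 7 ≤ Λ * Λ := mul_le_mul_of_nonneg_left hΛ hΛ0.le
      _ = Λ ^ 2 := by ring
      _ ≤ Λ ^ 15 := pow_le_pow_right₀ hΛ1 (by norm_num)
  have ha : |a - τ ^ 2 * D| ≤ Λ ^ 15 / 10 := by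
    have e1 : 4 * Λ ^ 14 * (Λ / 300) = Λ ^ 15 / 75 := by ring
    rw [e1] at hσL
    have A := abs_le.1 hab
    have B := abs_le.1 hb
    rw [abs_le]
    constructor <;> linarith
  have hup : |V ^ 2 - Θ ^ 2| ≤ 3 * Λ ^ 15 * (Ln * D) := by
    rw [e]
    have t1 : |(a - τ ^ 2 * D) * (Ln * D)| ≤ Λ ^ 15 / 10 * (Ln * D) := by
      rw [abs_mul, abs_of_pos hLD]
      exact mul_le_mul_of_nonneg_right ha hLD.le
    have t2 : vl ^ 2 * D ≤ Λ ^ 15 * (Ln * D) := by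
      calc vl ^ 2 * D ≤ Λ ^ 11 * D := mul_le_mul_of_nonneg_right hvl (by linarith)
        _ ≤ Λ ^ 15 * D := mul_le_mul_of_nonneg_right (pow_le_pow_right₀ hΛ1 (by norm_num))
          (by linarith)
        _ ≤ Λ ^ 15 * (Ln * D) := by
          apply mul_le_mul_of_nonneg_left _ (hp 15).le
          nlinarith
    have t3 : vd ^ 2 * Ln ≤ Λ ^ 15 * (Ln * D) := by
      calc vd ^ 2 * Ln ≤ 1 * Ln := mul_le_mul_of_nonneg_right hvd (by linarith)
        _ ≤ 1 * (Ln * D) := by nlinarith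
        _ ≤ Λ ^ 15 * (Ln * D) := mul_le_mul_of_nonneg_right (one_le_pow₀ hΛ1) hLD.le
    have t20 : 0 ≤ vl ^ 2 * D := mul_nonneg (sq_nonneg _) (by linarith)
    have t30 : 0 ≤ vd ^ 2 * Ln := mul_nonneg (sq_nonneg _) (by linarith)
    have A := abs_le.1 t1
    have : 0 < Λ ^ 15 * (Ln * D) := mul_pos (hp 15) hLD
    rw [abs_le]
    constructor <;> linarith
  have h3 : Λ ^ 19 * D / 8 ≤ 3 * Λ ^ 15 * (Λ / 300 * D) := by
    calc Λ ^ 19 * D / 8 ≤ Θ / 8 := by linarith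
      _ ≤ 3 * Λ ^ 15 * (Ln * D) := hlow.trans hup
      _ ≤ _ := by
        apply mul_le_mul_of_nonneg_left _ (by positivity)
        exact mul_le_mul_of_nonneg_right hLn' (by linarith)
  have h4 : 3 * Λ ^ 15 * (Λ / 300 * D) = Λ ^ 16 * D / 100 := by ring
  have h5 : Λ ^ 16 * D ≤ Λ ^ 19 * D :=
    mul_le_mul_of_nonneg_right (pow_le_pow_right₀ hΛ1 (by norm_num)) (by linarith)
  have h6 : 0 < Λ ^ 19 * D := mul_pos (hp 19) (by linarith)
  rw [h4] at h3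
  linarith

/-- large imaginary dot products for directions not parallel to `l` -/
lemma dt_y0_big (Q : Dirs P) {l m : Zd 3} (hl : l ≠ 0) (hlL : ‖l‖ ≤ P.L) (hmL : ‖m‖ ≤ P.L)
    {σ : ℝ} (hσ : |σ| ≤ 2 * P.T1) (h : di (Q.ed l) m ≠ 0) :
    P.Λ ^ 19 - P.Λ ^ 8 ≤ |dt (y0 Q l σ) m| := by
  rw [dt_y0]
  have h1 := (tau_bd Q hl hlL).1
  have h2 : (1 : ℝ) ≤ |(di (Q.ed l) m : ℝ)| := by
    have : 1 ≤ |di (Q.ed l) m| := Int.one_le_abs h
    exact_mod_cast this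
  have h3 := di_le (P := P) hlL hmL
  have hΛ := Λ_pos P
  have h4 : |σ * (di l m : ℝ)| ≤ P.Λ ^ 8 := by
    rw [abs_mul]
    calc |σ| * |(di l m : ℝ)| ≤ (2 * P.T1) * (P.Λ / 300) :=
          mul_le_mul hσ h3 (abs_nonneg _) (by rw [Sc.T1]; positivity)
      _ = P.Λ ^ 8 * (2 / 300) := by rw [Sc.T1]; ring
      _ ≤ P.Λ ^ 8 := by nlinarith [pow_pos hΛ 8]
  have h5 : P.Λ ^ 19 ≤ |tau Q l * (di (Q.ed l) m : ℝ)| := by
    rw [abs_mul]
    calc P.Λ ^ 19 = P.Λ ^ 19 * 1 := by ring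
      _ ≤ |tau Q l| * |(di (Q.ed l) m : ℝ)| :=
        mul_le_mul h1 h2 (by norm_num) (abs_nonneg _)
  have h6 := abs_sub_abs_le_abs_sub (tau Q l * (di (Q.ed l) m : ℝ)) (-(σ * (di l m : ℝ)))
  rw [abs_neg, sub_neg_eq_add] at h6
  linarith

/-- Regularity of the points near the path. -/
lemma reg (Q : Dirs P) {l : Zd 3} (hl : l ≠ 0) (hlL : ‖l‖ ≤ P.L) {k : Cd 3} {σ : ℝ}
    (hσ : |σ| ≤ 2 * P.T1) {η : Fin 3 → ℝ} (hk : ∀ j, im k j = y0 Q l σ j + η j)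
    (hη : dr η η * dr (im k) (im k) ≤ 4) (hη1 : dr η η ≤ 1)
    (h1 : ∀ z : ℤ, 1 / 8 ≤ |dt (re k) (crs l (Q.ed l)) + Th0 Q l - z|)
    (h2 : ∀ z : ℤ, 1 / 8 ≤ |dt (re k) (crs l (Q.ed l)) - Th0 Q l - z|) : Regular P k := by
  have hΛ := Λ_pos P
  have hΛ1 := Λ_one P
  have hL2 := L2 P
  have hL := L_ge P
  have hcΛ := P.hcΛ
  have hμ := P.hμ
  have hc := c_ge P
  obtain ⟨hτ1, hτ2⟩ := tau_bd Q hl hlL
  have hp : ∀ n : ℕ, 0 < P.Λ ^ n := fun n => pow_pos hΛ n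
  have hlog : ∀ m : Zd 3, ‖m‖ ≤ P.L → di m m ≤ P.Λ / 300 := fun m hm => by
    have := di_le (P := P) hm hm
    exact (le_abs_self _).trans this
  have hLn1 : (1 : ℝ) ≤ di l l := di_self_pos hl
  have hLn2 : (di l l : ℝ) ≤ P.Λ / 300 := hlog l hlL
  have hD1 : (1 : ℝ) ≤ di (Q.ed l) (Q.ed l) := di_self_pos (ed_ne Q hl hlL)
  have hD2 : (di (Q.ed l) (Q.ed l) : ℝ) ≤ P.Λ := Q.ned l hlL
  -- decomposition of im k
  have him : ∀ x : Fin 3 → ℝ, dr x (im k) = dr x (y0 Q l σ) + dr x η := fun x => by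
    rw [dr3, dr3, dr3, hk, hk, hk]; ring
  have hyy : dr (im k) (im k) = dr (y0 Q l σ) (y0 Q l σ) + 2 * dr (im k) η - dr η η := by
    have h := him (im k)
    have h' : dr (im k) (y0 Q l σ) = dr (y0 Q l σ) (y0 Q l σ) + dr η (y0 Q l σ) := by
      rw [dr3, dr3, dr3, hk, hk, hk]; ring
    have h'' : dr (im k) η = dr (y0 Q l σ) η + dr η η := by
      rw [dr3, dr3, dr3, hk, hk, hk]; ring
    have h3 : dr η (y0 Q l σ) = dr (y0 Q l σ) η := by rw [dr3, dr3]; ring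
    linarith
  have hyη : |dr (im k) η| ≤ 2 := by
    have := cs3 (im k) η
    apply abs_le_of_sq_le_sq _ (by norm_num)
    nlinarith
  have hη0 := dr_self_nonneg η
  have hσ2 : σ ^ 2 ≤ 4 * P.Λ ^ 14 := by
    have : σ ^ 2 ≤ (2 * P.T1) ^ 2 := by
      rw [← sq_abs σ]
      exact pow_le_pow_left₀ (abs_nonneg _) hσ 2
    calc σ ^ 2 ≤ (2 * P.T1) ^ 2 := this
      _ = 4 * P.Λ ^ 14 := by rw [Sc.T1]; ring
  have hy0 := y0_sq Q l σ
  have hb : |dr (im k) (im k) - (tau Q l ^ 2 * (di (Q.ed l) (Q.ed l) : ℝ)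
      + σ ^ 2 * (di l l : ℝ))| ≤ 6 := by
    rw [← hy0, hyy]
    have A := abs_le.1 hyη
    rw [abs_le]
    constructor <;> linarith
  refine ⟨?_, ?_⟩
  · -- bound of the imaginary part
    have A := (abs_le.1 hb).2
    have t1 : tau Q l ^ 2 ≤ P.Λ ^ 40 := by
      rw [← sq_abs]
      calc |tau Q l| ^ 2 ≤ (P.Λ ^ 20) ^ 2 := pow_le_pow_left₀ (abs_nonneg _) hτ2 2
        _ = P.Λ ^ 40 := by ring
    have t2 : tau Q l ^ 2 * (di (Q.ed l) (Q.ed l) : ℝ) ≤ P.Λ ^ 40 * P.Λ :=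
      mul_le_mul t1 hD2 (by linarith) (hp 40).le
    have t3 : σ ^ 2 * (di l l : ℝ) ≤ 4 * P.Λ ^ 14 * (P.Λ / 300) :=
      mul_le_mul hσ2 hLn2 (by linarith) (by positivity)
    have e1 : P.Λ ^ 40 * P.Λ = P.Λ ^ 41 := by ring
    have e2 : 4 * P.Λ ^ 14 * (P.Λ / 300) = P.Λ ^ 15 / 75 := by ring
    have e3 : P.R ^ 2 = P.Λ ^ 52 := by rw [Sc.R]; ring
    rw [e3]
    rw [e1] at t2
    rw [e2] at t3
    have p1 : P.Λ ^ 15 ≤ P.Λ ^ 41 := pow_le_pow_right₀ hΛ1 (by norm_num)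
    have p2 := pw P (a := 41) (b := 52) (by norm_num)
    have p3 : 1 ≤ P.Λ ^ 41 := one_le_pow₀ hΛ1
    linarith
  · intro n hn m hm hmL
    by_contra hlt
    push Not at hlt
    set v := vv k n with hv
    have r0 := q_re (μ := μ) k n
    have i0 := q_im (μ := μ) k n
    have r1 := q_re (μ := μ) k (n + m)
    have i1 := q_im (μ := μ) k (n + m)
    rw [vv_add'] at r1
    rw [vv_add] at i1
    rw [← hv] at r0 i0 r1 i1
    have a0 := (Complex.abs_re_le_norm (q μ k n)).trans hn.le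
    have b0 := (Complex.abs_im_le_norm (q μ k n)).trans hn.le
    have a1 := (Complex.abs_re_le_norm (q μ k (n + m))).trans hlt.le
    have b1 := (Complex.abs_im_le_norm (q μ k (n + m))).trans hlt.le
    have μr := (Complex.abs_re_le_norm μ).trans hμ
    have μi := (Complex.abs_im_le_norm μ).trans hμ
    rw [r0] at a0
    rw [i0] at b0
    rw [r1] at a1
    rw [i1] at b1
    have a0' := abs_le.1 a0
    have b0' := abs_le.1 b0
    have a1' := abs_le.1 a1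
    have b1' := abs_le.1 b1
    have μr' := abs_le.1 μr
    have μi' := abs_le.1 μi
    have hG : P.G = P.Λ ^ 5 := rfl
    have hG1 : 10 ^ 7 * P.Λ ≤ P.G := by
      have := pw P (a := 1) (b := 5) (by norm_num)
      rw [pow_one] at this; rw [hG]; exact this
    have hmm : dr (rv m) (rv m) ≤ P.Λ / 300 := by rw [dr_rv]; exact hlog m hmL
    have hmm0 := dr_self_nonneg (rv m)
    -- imaginary part of the difference
    have hI : |dr (rv m) (im k)| ≤ P.G := by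
      rw [abs_le]; constructor <;> linarith
    by_cases hpar : di (Q.ed l) m = 0
    · -- parallel case
      obtain ⟨i, j, hi, hj, hij⟩ := para Q hl hlL hm hmL hpar
      have hvm : |dr v (rv m)| ≤ P.G := by
        rw [abs_le]; constructor <;> linarith
      have hvl : |dr v (rv l)| ≤ P.L * P.G := by
        obtain ⟨t, ht⟩ := Function.ne_iff.1 hm
        have ht' : (1 : ℝ) ≤ |(m t : ℝ)| := by
          have : 1 ≤ |m t| := Int.one_le_abs ht
          exact_mod_cast this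
        have hijr : ∀ s, (i : ℝ) * l s = j * m s := fun s => by
          have := congrFun hij s
          simp only [Pi.smul_apply, smul_eq_mul] at this
          exact_mod_cast this
        have hji : |(j : ℝ)| ≤ |(i : ℝ)| * P.L := by
          calc |(j : ℝ)| ≤ |(j : ℝ)| * |(m t : ℝ)| := by nlinarith [abs_nonneg (j : ℝ)]
            _ = |(i : ℝ)| * |(l t : ℝ)| := by rw [← abs_mul, ← abs_mul, hijr t]
            _ ≤ |(i : ℝ)| * P.L := mul_le_mul_of_nonneg_left (coord_le hlL t) (abs_nonneg _)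
        have hs : (i : ℝ) * dr v (rv l) = j * dr v (rv m) := by
          rw [dr3, dr3]; simp only [rv]
          linear_combination v 0 * hijr 0 + v 1 * hijr 1 + v 2 * hijr 2
        have hi0 : 0 < |(i : ℝ)| := abs_pos.2 (by exact_mod_cast hi)
        have : |(i : ℝ)| * |dr v (rv l)| ≤ |(i : ℝ)| * (P.L * P.G) := by
          rw [← abs_mul, hs, abs_mul]
          calc |(j : ℝ)| * |dr v (rv m)| ≤ (|(i : ℝ)| * P.L) * P.G :=
                mul_le_mul hji hvm (abs_nonneg _) (by positivity)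
            _ = _ := by ring
        exact le_of_mul_le_mul_left this hi0
      have hLL : (P.L : ℝ) ≤ P.Λ / 900 := by nlinarith
      have hvl2 : dr v (rv l) ^ 2 ≤ P.Λ ^ 11 := by
        rw [← sq_abs]
        calc |dr v (rv l)| ^ 2 ≤ (P.L * P.G) ^ 2 := pow_le_pow_left₀ (abs_nonneg _) hvl 2
          _ = P.L ^ 2 * P.Λ ^ 10 := by rw [hG]; ring
          _ ≤ P.Λ * P.Λ ^ 10 := by
            apply mul_le_mul_of_nonneg_right _ (hp 10).le
            linarith [sq_nonneg (P.L : ℝ)]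
          _ = P.Λ ^ 11 := by ring
      -- the component along ed
      have hab : |dr v v - dr (im k) (im k)| ≤ 3 * P.Λ := by
        rw [abs_le]; constructor <;> linarith
      have hvη : |dr v η| ≤ 4 + 3 * P.Λ := by
        have h3 := cs3 v η
        have h4 : dr v v ≤ dr (im k) (im k) + 3 * P.Λ := by
          have := (abs_le.1 hab).2; linarith
        have h5 : dr v v * dr η η ≤ 4 + 3 * P.Λ := by
          calc dr v v * dr η η ≤ (dr (im k) (im k) + 3 * P.Λ) * dr η η :=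
                mul_le_mul_of_nonneg_right h4 hη0
            _ = dr η η * dr (im k) (im k) + 3 * P.Λ * dr η η := by ring
            _ ≤ 4 + 3 * P.Λ * 1 := by
              apply add_le_add hη
              apply mul_le_mul_of_nonneg_left hη1 (by positivity)
            _ = _ := by ring
        apply abs_le_of_sq_le_sq _ (by positivity)
        nlinarith
      have hvy : |dr v (im k)| ≤ 2 * P.Λ := by
        rw [abs_le]; constructor <;> linarith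
      have hvy0 : dr v (y0 Q l σ) = tau Q l * dr v (rv (Q.ed l)) + σ * dr v (rv l) := by
        rw [dr3, dr3, dr3]; simp only [y0, yc_eq, rv]; ring
      have hvd : |dr v (rv (Q.ed l))| ≤ 1 := by
        have h3 : |tau Q l * dr v (rv (Q.ed l))| ≤ P.Λ ^ 14 := by
          have h4 : tau Q l * dr v (rv (Q.ed l))
              = dr v (im k) - σ * dr v (rv l) - dr v η := by
            rw [him v, hvy0]; ring
          have h5 : |σ * dr v (rv l)| ≤ P.Λ ^ 13 := by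
            rw [abs_mul]
            calc |σ| * |dr v (rv l)| ≤ (2 * P.T1) * (P.L * P.G) :=
                  mul_le_mul hσ hvl (abs_nonneg _) (by rw [Sc.T1]; positivity)
              _ = P.L * (2 * P.Λ ^ 12) := by rw [Sc.T1, hG]; ring
              _ ≤ (P.Λ / 900) * (2 * P.Λ ^ 12) :=
                mul_le_mul_of_nonneg_right hLL (by positivity)
              _ = P.Λ ^ 13 * (2 / 900) := by ring
              _ ≤ P.Λ ^ 13 := by nlinarith [hp 13]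
          rw [h4]
          have A1 := abs_le.1 hvy
          have A2 := abs_le.1 h5
          have A3 := abs_le.1 hvη
          have p1 := pw P (a := 13) (b := 14) (by norm_num)
          have p2 : P.Λ ≤ P.Λ ^ 13 := by
            calc P.Λ = P.Λ ^ 1 := (pow_one _).symm
              _ ≤ P.Λ ^ 13 := pow_le_pow_right₀ hΛ1 (by norm_num)
          rw [abs_le]; constructor <;> linarith
        rw [abs_mul] at h3
        by_contra hgt
        push Not at hgt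
        have h4 : P.Λ ^ 19 * 1 ≤ |tau Q l| * |dr v (rv (Q.ed l))| :=
          mul_le_mul hτ1 hgt.le (by norm_num) (abs_nonneg _)
        have p1 := pw P (a := 14) (b := 19) (by norm_num)
        have := hp 14
        linarith
      have hvd2 : dr v (rv (Q.ed l)) ^ 2 ≤ 1 := by
        rw [← sq_abs]
        exact pow_le_one₀ (abs_nonneg _) hvd
      have hgram := gram v l (Q.ed l) (by rw [di_comm', di_ed_self])
      -- integrality
      have hint : dt v (crs l (Q.ed l)) = dt (re k) (crs l (Q.ed l))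
          + (di n (crs l (Q.ed l)) : ℝ) := by
        rw [dt3, dt3, di3]; simp only [hv, vv]; push_cast; ring
      have k1 := h1 (-(di n (crs l (Q.ed l))))
      have k2 := h2 (-(di n (crs l (Q.ed l))))
      refine core P.hΛ hLn1 hLn2 hD1 hτ1 hσ2 hvl2 hvd2 (rfl : Th0 Q l = _) hgram hab hb ?_ ?_
      · rw [hint]
        refine k1.trans (le_of_eq (congrArg _ ?_))
        push_cast; ring
      · rw [hint]
        refine k2.trans (le_of_eq (congrArg _ ?_))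
        push_cast; ring
    · -- not parallel
      have hbig := dt_y0_big Q hl hlL hmL hσ hpar
      have hmη : |dr (rv m) η| ≤ P.Λ := by
        have h3 := cs3 (rv m) η
        apply abs_le_of_sq_le_sq _ hΛ.le
        calc dr (rv m) η ^ 2 ≤ dr (rv m) (rv m) * dr η η := h3
          _ ≤ (P.Λ / 300) * 1 := mul_le_mul hmm hη1 hη0 (by positivity)
          _ ≤ P.Λ ^ 2 := by nlinarith
      have h3 : dr (rv m) (im k) = dt (y0 Q l σ) m + dr (rv m) η := by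
        rw [him]
        congr 1
        rw [dt_rv, dr3, dr3]; ring
      rw [h3] at hI
      have h4 := abs_sub_abs_le_abs_sub (dt (y0 Q l σ) m) (-(dr (rv m) η))
      rw [abs_neg, sub_neg_eq_add] at h4
      have p1 := pw P (a := 8) (b := 19) (by norm_num)
      have p2 : P.G ≤ P.Λ ^ 8 := by rw [hG]; exact pow_le_pow_right₀ hΛ1 (by norm_num)
      have p3 : P.Λ ≤ P.Λ ^ 8 := by
        calc P.Λ = P.Λ ^ 1 := (pow_one _).symm
          _ ≤ P.Λ ^ 8 := pow_le_pow_right₀ hΛ1 (by norm_num)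
      have := hp 8
      linarith

/-! ### the path -/

/-- squared length of the third vector -/
def E2 (Q : Dirs P) (l : Zd 3) : ℝ := (di l l : ℝ) * (di (Q.ed l) (Q.ed l) : ℝ)

/-- squared length of the imaginary part -/
def Y2 (Q : Dirs P) (l : Zd 3) (σ : ℝ) : ℝ :=
  tau Q l ^ 2 * (di (Q.ed l) (Q.ed l) : ℝ) + σ ^ 2 * (di l l : ℝ)

/-- the factor `g` -/
def gg (Q : Dirs P) (l : Zd 3) (z : ℂ) (X σ : ℝ) : ℝ :=
  Real.sqrt ((Y2 Q l σ + z.re - X ^ 2 / E2 Q l - (z.im / 2) ^ 2 / Y2 Q l σ)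
    / (E2 Q l * Y2 Q l σ))

/-- the real part of the path -/
def xx (Q : Dirs P) (l : Zd 3) (z : ℂ) (X σ : ℝ) : Fin 3 → ℝ := fun j =>
  z.im / 2 / Y2 Q l σ * y0 Q l σ j
    + gg Q l z X σ * (tau Q l * (di (Q.ed l) (Q.ed l) : ℝ) * (l j : ℝ)
      - σ * (di l l : ℝ) * (Q.ed l j : ℝ))
    + X / E2 Q l * (crs l (Q.ed l) j : ℝ)

/-- the path -/
def bb (Q : Dirs P) (l : Zd 3) (z : ℂ) (X σ : ℝ) : Cd 3 := fun j =>
  (xx Q l z X σ j : ℂ) + (y0 Q l σ j : ℂ) * Complex.I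

lemma re_bb (Q : Dirs P) (l : Zd 3) (z : ℂ) (X σ : ℝ) : re (bb Q l z X σ) = xx Q l z X σ := by
  funext j; simp [re, bb]

lemma im_bb (Q : Dirs P) (l : Zd 3) (z : ℂ) (X σ : ℝ) : im (bb Q l z X σ) = y0 Q l σ := by
  funext j; simp [im, bb]

/-- the squared norm in terms of real and imaginary parts -/
lemma nsq3 (b : Cd 3) : nsq b = dr (re b) (re b) + dr (im b) (im b) := by
  have h : ∀ c : ℂ, ‖c‖ ^ 2 = c.re * c.re + c.im * c.im := fun c => by
    rw [← Complex.normSq_eq_norm_sq, Complex.normSq_apply]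
  rw [nsq, Fin.sum_univ_three, h, h, h, dr3, dr3]
  simp only [re, im]
  ring

lemma perp' (Q : Dirs P) (l : Zd 3) : (Q.ed l 0 : ℝ) * l 0 + Q.ed l 1 * l 1 + Q.ed l 2 * l 2 = 0 := by
  have := congrArg (Int.cast : ℤ → ℝ) (di_ed_self Q l)
  rw [di3] at this
  push_cast at this
  exact this

section path

variable (Q : Dirs P) {l : Zd 3} (hl : l ≠ 0) (hlL : ‖l‖ ≤ P.L)

include hl hlL

lemma D_ge : (1 : ℝ) ≤ di (Q.ed l) (Q.ed l) := di_self_pos (ed_ne Q hl hlL)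

lemma E2_ge : 1 ≤ E2 Q l := by
  have h1 := D_ge Q hl hlL
  have h2 := di_self_pos hl
  rw [E2]; nlinarith

lemma E2_le : E2 Q l ≤ P.Λ ^ 2 := by
  have h1 : (di (Q.ed l) (Q.ed l) : ℝ) ≤ P.Λ := Q.ned l hlL
  have h2 : (di l l : ℝ) ≤ P.Λ / 300 := (le_abs_self _).trans (di_le hlL hlL)
  have h3 := D_ge Q hl hlL
  have h4 := di_self_pos hl
  have hΛ := Λ_pos P
  rw [E2]
  calc (di l l : ℝ) * (di (Q.ed l) (Q.ed l) : ℝ) ≤ (P.Λ / 300) * P.Λ :=
        mul_le_mul h2 h1 (by linarith) (by positivity)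
    _ ≤ P.Λ ^ 2 := by nlinarith

lemma Y2_ge (σ : ℝ) : P.Λ ^ 38 ≤ Y2 Q l σ := by
  have h1 := D_ge Q hl hlL
  have h2 := di_self_pos hl
  have h3 := (tau_bd Q hl hlL).1
  have h4 : P.Λ ^ 38 ≤ tau Q l ^ 2 := by
    rw [← sq_abs]
    calc P.Λ ^ 38 = (P.Λ ^ 19) ^ 2 := by ring
      _ ≤ |tau Q l| ^ 2 := pow_le_pow_left₀ (pow_nonneg (Λ_pos P).le _) h3 2
  have h5 : 0 ≤ σ ^ 2 * (di l l : ℝ) := mul_nonneg (sq_nonneg _) (by linarith)
  have h6 : tau Q l ^ 2 * 1 ≤ tau Q l ^ 2 * (di (Q.ed l) (Q.ed l) : ℝ) :=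
    mul_le_mul_of_nonneg_left h1 (sq_nonneg _)
  rw [Y2]; linarith

lemma Y2_pos (σ : ℝ) : 0 < Y2 Q l σ := lt_of_lt_of_le (pow_pos (Λ_pos P) 38) (Y2_ge Q hl hlL σ)

lemma crs_self : dr (rv (crs l (Q.ed l))) (rv (crs l (Q.ed l))) = E2 Q l := by
  have h' := perp' Q l
  rw [dr3, E2, di3, di3]; simp only [rv, crs0, crs1, crs2]; push_cast
  linear_combination (-((Q.ed l 0 : ℝ) * l 0 + Q.ed l 1 * l 1 + Q.ed l 2 * l 2)) * h'

/-- the radicand is nonnegative -/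
lemma rad_nonneg {z : ℂ} (hz : ‖z‖ ≤ 2 * P.Λ) {X : ℝ} (hX : X ^ 2 ≤ 1) (σ : ℝ) :
    0 ≤ Y2 Q l σ + z.re - X ^ 2 / E2 Q l - (z.im / 2) ^ 2 / Y2 Q l σ := by
  have hΛ := Λ_pos P
  have hΛ1 := Λ_one P
  have hY := Y2_ge Q hl hlL σ
  have hE := E2_ge Q hl hlL
  have zr := abs_le.1 ((Complex.abs_re_le_norm z).trans hz)
  have zi := abs_le.1 ((Complex.abs_im_le_norm z).trans hz)
  have h1 : X ^ 2 / E2 Q l ≤ 1 := by
    rw [div_le_one (by linarith)]; linarith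
  have p1 := pw P (a := 2) (b := 38) (by norm_num)
  have p2 : P.Λ ≤ P.Λ ^ 2 := by nlinarith
  have p3 : (1 : ℝ) ≤ P.Λ ^ 2 := one_le_pow₀ hΛ1
  have h2 : (z.im / 2) ^ 2 / Y2 Q l σ ≤ 1 := by
    rw [div_le_one (by linarith)]
    nlinarith
  linarith

lemma gg_sq {z : ℂ} (hz : ‖z‖ ≤ 2 * P.Λ) {X : ℝ} (hX : X ^ 2 ≤ 1) (σ : ℝ) :
    gg Q l z X σ ^ 2 * (E2 Q l * Y2 Q l σ) =
      Y2 Q l σ + z.re - X ^ 2 / E2 Q l - (z.im / 2) ^ 2 / Y2 Q l σ := by
  have hY := Y2_pos Q hl hlL σ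
  have hE := E2_ge Q hl hlL
  have h0 := rad_nonneg Q hl hlL hz hX σ
  have h1 : 0 < E2 Q l * Y2 Q l σ := mul_pos (by linarith) hY
  rw [gg, Real.sq_sqrt (div_nonneg h0 h1.le), div_mul_cancel₀ _ h1.ne']

lemma xx_y0 (z : ℂ) (X σ : ℝ) : dr (xx Q l z X σ) (y0 Q l σ) = z.im / 2 := by
  have hY := Y2_pos Q hl hlL σ
  have h' := perp' Q l
  have e : dr (y0 Q l σ) (y0 Q l σ) = Y2 Q l σ := y0_sq Q l σ
  have e1 : dr (xx Q l z X σ) (y0 Q l σ) = z.im / 2 / Y2 Q l σ * dr (y0 Q l σ) (y0 Q l σ) := by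
    rw [dr3, dr3]
    simp only [xx, y0, yc_eq, crs0, crs1, crs2, di3]
    push_cast
    generalize gg Q l z X σ = g
    generalize tau Q l = τ
    generalize E2 Q l = E'
    generalize Y2 Q l σ = Y'
    generalize (Q.ed l 0 : ℝ) = m0 at *
    generalize (Q.ed l 1 : ℝ) = m1 at *
    generalize (Q.ed l 2 : ℝ) = m2 at *
    generalize (l 0 : ℝ) = l0 at *
    generalize (l 1 : ℝ) = l1 at *
    generalize (l 2 : ℝ) = l2 at *
    linear_combination g * (τ ^ 2 * (m0 ^ 2 + m1 ^ 2 + m2 ^ 2) - σ ^ 2 * (l0 ^ 2 + l1 ^ 2 + l2 ^ 2)) * h'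
  rw [e1, e, div_mul_cancel₀ _ hY.ne']

lemma xx_crs (z : ℂ) (X σ : ℝ) : dt (xx Q l z X σ) (crs l (Q.ed l)) = X := by
  have hE := E2_ge Q hl hlL
  have e : dr (rv (crs l (Q.ed l))) (rv (crs l (Q.ed l))) = E2 Q l := crs_self Q hl hlL
  have e1 : dt (xx Q l z X σ) (crs l (Q.ed l))
      = X / E2 Q l * dr (rv (crs l (Q.ed l))) (rv (crs l (Q.ed l))) := by
    rw [dt3, dr3]
    simp only [xx, y0, yc_eq, crs0, crs1, crs2, di3, rv]
    push_cast
    ring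
  rw [e1, e, div_mul_cancel₀ _ (by linarith)]

lemma xx_sq {z : ℂ} (hz : ‖z‖ ≤ 2 * P.Λ) {X : ℝ} (hX : X ^ 2 ≤ 1) (σ : ℝ) :
    dr (xx Q l z X σ) (xx Q l z X σ) = Y2 Q l σ + z.re := by
  have hY := Y2_pos Q hl hlL σ
  have hE := E2_ge Q hl hlL
  have h' := perp' Q l
  have e : dr (y0 Q l σ) (y0 Q l σ) = Y2 Q l σ := y0_sq Q l σ
  have e2 : dr (rv (crs l (Q.ed l))) (rv (crs l (Q.ed l))) = E2 Q l := crs_self Q hl hlL
  have e3 := gg_sq Q hl hlL hz hX σ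
  have e1 : dr (xx Q l z X σ) (xx Q l z X σ)
      = (z.im / 2 / Y2 Q l σ) ^ 2 * dr (y0 Q l σ) (y0 Q l σ)
        + gg Q l z X σ ^ 2 * (E2 Q l * Y2 Q l σ)
        + (X / E2 Q l) ^ 2 * dr (rv (crs l (Q.ed l))) (rv (crs l (Q.ed l))) := by
    rw [dr3, dr3, dr3]
    have hEe : E2 Q l = (di l l : ℝ) * (di (Q.ed l) (Q.ed l) : ℝ) := rfl
    have hYe : Y2 Q l σ = tau Q l ^ 2 * (di (Q.ed l) (Q.ed l) : ℝ) + σ ^ 2 * (di l l : ℝ) := rfl
    simp only [xx, y0, yc_eq, crs0, crs1, crs2, rv]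
    generalize z.im / 2 / Y2 Q l σ = c1
    generalize X / E2 Q l = c3
    rw [hEe, hYe, di3, di3]
    push_cast
    generalize gg Q l z X σ = g
    generalize tau Q l = τ
    generalize (Q.ed l 0 : ℝ) = m0 at *
    generalize (Q.ed l 1 : ℝ) = m1 at *
    generalize (Q.ed l 2 : ℝ) = m2 at *
    generalize (l 0 : ℝ) = l0 at *
    generalize (l 1 : ℝ) = l1 at *
    generalize (l 2 : ℝ) = l2 at *
    linear_combination (2 * c1 * g * (τ ^ 2 * (m0 ^ 2 + m1 ^ 2 + m2 ^ 2)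
      - σ ^ 2 * (l0 ^ 2 + l1 ^ 2 + l2 ^ 2))
      - 2 * g ^ 2 * τ * σ * (m0 ^ 2 + m1 ^ 2 + m2 ^ 2) * (l0 ^ 2 + l1 ^ 2 + l2 ^ 2)) * h'
  rw [e1, e, e2, e3]
  field_simp
  ring

lemma nsq_bb_ge (z : ℂ) (X σ : ℝ) : P.Λ ^ 38 ≤ nsq (bb Q l z X σ) := by
  rw [nsq3, im_bb, y0_sq]
  have := dr_self_nonneg (re (bb Q l z X σ))
  have h := Y2_ge Q hl hlL σ
  rw [Y2] at h
  linarith

lemma q_bb (X σ : ℝ) (hX : X ^ 2 ≤ 1) :
    q μ (bb Q l (μ - w 0) X σ) 0 + w 0 = 0 := by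
  have hz : ‖μ - w 0‖ ≤ 2 * P.Λ := by
    have h1 := P.hμ
    have h2 := w0_le P
    have h3 := P.hcΛ
    have h4 := norm_sub_le μ (w 0)
    linarith [norm_nonneg (w 0)]
  have h1 := xx_sq Q hl hlL hz hX σ
  have h2 := xx_y0 Q hl hlL (μ - w 0) X σ
  have h3 := y0_sq Q l σ
  have hv : vv (bb Q l (μ - w 0) X σ) 0 = xx Q l (μ - w 0) X σ := by
    funext j
    have := congrFun (re_bb Q l (μ - w 0) X σ) j
    simp [vv, this]
  apply Complex.ext
  · rw [Complex.add_re, q_re, hv, im_bb, h1, h3, Y2, Complex.sub_re]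
    simp
  · rw [Complex.add_im, q_im, hv, im_bb, h2, Complex.sub_im]
    simp; ring

omit hl hlL in
/-- choice of the component along `e₂` -/
lemma exists_X (Θ : ℝ) : ∃ X : ℝ, X ^ 2 ≤ 1 ∧ (∀ z : ℤ, 1 / 4 ≤ |X + Θ - z|) ∧
    ∀ z : ℤ, 1 / 4 ≤ |X - Θ - z| := by
  by_cases h : ∀ z : ℤ, 1 / 4 ≤ |Θ - z|
  · refine ⟨0, by norm_num, fun z => ?_, fun z => ?_⟩
    · rw [zero_add]; exact h z
    · have := h (-z)
      rw [← abs_neg] at this
      refine this.trans (le_of_eq (congrArg _ ?_))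
      push_cast; ring
  · push Not at h
    obtain ⟨z0, hz0⟩ := h
    have A := abs_lt.1 hz0
    refine ⟨1 / 2, by norm_num, fun z => ?_, fun z => ?_⟩
    · rcases le_or_gt (z - z0) 0 with hz | hz
      · have : (z : ℝ) - z0 ≤ 0 := by exact_mod_cast hz
        rw [le_abs]; left; linarith
      · have : (1 : ℝ) ≤ (z : ℝ) - z0 := by
          have : 1 ≤ z - z0 := hz
          exact_mod_cast this
        rw [le_abs]; right; linarith
    · rcases le_or_gt (z + z0) 0 with hz | hz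
      · have : (z : ℝ) + z0 ≤ 0 := by exact_mod_cast hz
        rw [le_abs]; left; linarith
      · have : (1 : ℝ) ≤ (z : ℝ) + z0 := by
          have : 1 ≤ z + z0 := hz
          exact_mod_cast this
        rw [le_abs]; right; linarith

/-- points within `1/|b|` of the path are regular -/
lemma reg_near {X σ : ℝ} (hσ : |σ| ≤ P.T1) (z : ℂ)
    (hX1 : ∀ z : ℤ, 1 / 4 ≤ |X + Th0 Q l - z|) (hX2 : ∀ z : ℤ, 1 / 4 ≤ |X - Th0 Q l - z|)
    {k : Cd 3} (hk : nsq (k - bb Q l z X σ) * nsq (bb Q l z X σ) ≤ 1) :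
    Regular P k ∧ dr (fun j => im k j - y0 Q l σ j) (fun j => im k j - y0 Q l σ j) * P.Λ ^ 8 ≤ 1
      ∧ dr (im k) (im k) ≤ P.Λ ^ 42 := by
  have hΛ := Λ_pos P
  have hΛ1 := Λ_one P
  set b := bb Q l z X σ with hbdef
  have hb38 := nsq_bb_ge Q hl hlL z X σ
  rw [← hbdef] at hb38
  have hb1 : (10 : ℝ) ^ 7 ≤ P.Λ ^ 38 := P.hΛ.trans (le_self_pow₀ hΛ1 (by norm_num))
  have hb8 : P.Λ ^ 8 ≤ nsq b := (pow_le_pow_right₀ hΛ1 (by norm_num)).trans hb38
  have hkb0 : 0 ≤ nsq (k - b) := by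
    rw [nsq3]; exact add_nonneg (dr_self_nonneg _) (dr_self_nonneg _)
  have hre : re (k - b) = fun j => re k j - xx Q l z X σ j := by
    funext j
    have := congrFun (re_bb Q l z X σ) j
    rw [← this]; simp [re, hbdef]
  have him : im (k - b) = fun j => im k j - y0 Q l σ j := by
    funext j
    have := congrFun (im_bb Q l z X σ) j
    rw [← this]; simp [im, hbdef]
  have hsplit := nsq3 (k - b)
  rw [hre, him] at hsplit
  set ξ : Fin 3 → ℝ := fun j => re k j - xx Q l z X σ j with hξ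
  set η : Fin 3 → ℝ := fun j => im k j - y0 Q l σ j with hη
  have hξ0 := dr_self_nonneg ξ
  have hη0 := dr_self_nonneg η
  have hb0 : 0 < nsq b := lt_of_lt_of_le (pow_pos hΛ 8) hb8
  have hηb : dr η η * nsq b ≤ 1 := by
    refine le_trans ?_ hk
    exact mul_le_mul_of_nonneg_right (by linarith) hb0.le
  have hξb : dr ξ ξ * nsq b ≤ 1 := by
    refine le_trans ?_ hk
    exact mul_le_mul_of_nonneg_right (by linarith) hb0.le
  have hη8 : dr η η * P.Λ ^ 8 ≤ 1 := le_trans (mul_le_mul_of_nonneg_left hb8 hη0) hηb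
  have hη1 : dr η η ≤ 1 := by
    refine le_trans ?_ hη8
    exact le_mul_of_one_le_right hη0 (one_le_pow₀ hΛ1)
  have hkη : ∀ j, im k j = y0 Q l σ j + η j := fun j => by simp [hη]
  -- |im k|² ≤ 2 |b|² + 2 |η|²
  have hyb : dr (y0 Q l σ) (y0 Q l σ) ≤ nsq b := by
    rw [hbdef, nsq3, im_bb]
    linarith [dr_self_nonneg (re (bb Q l z X σ))]
  have him2 : dr (im k) (im k) ≤ 2 * dr (y0 Q l σ) (y0 Q l σ) + 2 * dr η η := by
    rw [dr3, dr3, dr3, hkη, hkη, hkη]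
    nlinarith [sq_nonneg (y0 Q l σ 0 - η 0), sq_nonneg (y0 Q l σ 1 - η 1),
      sq_nonneg (y0 Q l σ 2 - η 2)]
  have hη4 : dr η η * dr (im k) (im k) ≤ 4 := by
    calc dr η η * dr (im k) (im k) ≤ dr η η * (2 * nsq b + 2 * 1) := by
          apply mul_le_mul_of_nonneg_left _ hη0
          linarith
      _ = 2 * (dr η η * nsq b) + 2 * dr η η := by ring
      _ ≤ 4 := by linarith
  have hE2 : E2 Q l ≤ P.Λ ^ 2 := E2_le Q hl hlL
  -- displacement along e₂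
  have hdis : |dt ξ (crs l (Q.ed l))| ≤ 1 / 8 := by
    have h1 := cs3 ξ (rv (crs l (Q.ed l)))
    rw [crs_self Q hl hlL] at h1
    apply abs_le_of_sq_le_sq _ (by norm_num)
    have h2 : dr ξ ξ * P.Λ ^ 8 ≤ 1 := le_trans (mul_le_mul_of_nonneg_left hb8 hξ0) hξb
    have h3 : dr ξ ξ * E2 Q l * P.Λ ≤ 1 := by
      calc dr ξ ξ * E2 Q l * P.Λ ≤ dr ξ ξ * P.Λ ^ 2 * P.Λ := by
            apply mul_le_mul_of_nonneg_right _ hΛ.le
            exact mul_le_mul_of_nonneg_left hE2 hξ0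
        _ = dr ξ ξ * P.Λ ^ 3 := by ring
        _ ≤ dr ξ ξ * P.Λ ^ 8 :=
          mul_le_mul_of_nonneg_left (pow_le_pow_right₀ hΛ1 (by norm_num)) hξ0
        _ ≤ 1 := h2
    have h4 : dt ξ (crs l (Q.ed l)) = dr ξ (rv (crs l (Q.ed l))) := rfl
    rw [h4]
    have h5 := P.hΛ
    have h6 : 0 ≤ dr ξ ξ * E2 Q l := mul_nonneg hξ0 (by linarith [E2_ge Q hl hlL])
    nlinarith
  have hdt : dt (re k) (crs l (Q.ed l)) = X + dt ξ (crs l (Q.ed l)) := by
    rw [← xx_crs Q hl hlL z X σ, dt3, dt3, dt3]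
    simp only [hξ]; ring
  have D := abs_le.1 hdis
  refine ⟨reg Q hl hlL (σ := σ) (η := η) ?_ hkη hη4 hη1 (fun z => ?_) (fun z => ?_), hη8, ?_⟩
  · have : 0 ≤ P.T1 := pow_nonneg hΛ.le _
    linarith
  · rw [hdt]
    have := hX1 z
    have h3 := abs_sub_abs_le_abs_sub (X + Th0 Q l - z) (-(dt ξ (crs l (Q.ed l))))
    rw [abs_neg, sub_neg_eq_add] at h3
    have h4 : X + dt ξ (crs l (Q.ed l)) + Th0 Q l - z
        = X + Th0 Q l - z + dt ξ (crs l (Q.ed l)) := by ring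
    rw [h4]; linarith
  · rw [hdt]
    have := hX2 z
    have h3 := abs_sub_abs_le_abs_sub (X - Th0 Q l - z) (-(dt ξ (crs l (Q.ed l))))
    rw [abs_neg, sub_neg_eq_add] at h3
    have h4 : X + dt ξ (crs l (Q.ed l)) - Th0 Q l - z
        = X - Th0 Q l - z + dt ξ (crs l (Q.ed l)) := by ring
    rw [h4]; linarith
  · -- bound of |im k|²
    obtain ⟨hτ1, hτ2⟩ := tau_bd Q hl hlL
    have t1 : tau Q l ^ 2 ≤ P.Λ ^ 40 := by
      rw [← sq_abs]
      calc |tau Q l| ^ 2 ≤ (P.Λ ^ 20) ^ 2 := pow_le_pow_left₀ (abs_nonneg _) hτ2 2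
        _ = P.Λ ^ 40 := by ring
    have hD2 : (di (Q.ed l) (Q.ed l) : ℝ) ≤ P.Λ := Q.ned l hlL
    have hD1 := D_ge Q hl hlL
    have hL1 := di_self_pos hl
    have hL2 : (di l l : ℝ) ≤ P.Λ / 300 := (le_abs_self _).trans (di_le hlL hlL)
    have hσ2 : σ ^ 2 ≤ P.Λ ^ 14 := by
      rw [← sq_abs σ]
      calc |σ| ^ 2 ≤ P.T1 ^ 2 := pow_le_pow_left₀ (abs_nonneg _) hσ 2
        _ = P.Λ ^ 14 := by rw [Sc.T1]; ring
    have t2 : tau Q l ^ 2 * (di (Q.ed l) (Q.ed l) : ℝ) ≤ P.Λ ^ 40 * P.Λ :=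
      mul_le_mul t1 hD2 (by linarith) (pow_nonneg hΛ.le _)
    have t3 : σ ^ 2 * (di l l : ℝ) ≤ P.Λ ^ 14 * (P.Λ / 300) :=
      mul_le_mul hσ2 hL2 (by linarith) (by positivity)
    have e1 : P.Λ ^ 40 * P.Λ = P.Λ ^ 41 := by ring
    have e2 : P.Λ ^ 14 * (P.Λ / 300) = P.Λ ^ 15 / 300 := by ring
    rw [e1] at t2
    rw [e2] at t3
    have p1 : P.Λ ^ 15 ≤ P.Λ ^ 41 := pow_le_pow_right₀ hΛ1 (by norm_num)
    have p2 := pw P (a := 41) (b := 42) (by norm_num)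
    have p3 : 1 ≤ P.Λ ^ 41 := one_le_pow₀ hΛ1
    have hy := y0_sq Q l σ
    linarith

omit hl hlL in
lemma cont_bb (hl : l ≠ 0) (hlL : ‖l‖ ≤ P.L) (z : ℂ) (X : ℝ) :
    Continuous fun σ : ℝ => bb Q l z X σ := by
  have hY : ∀ σ, Y2 Q l σ ≠ 0 := fun σ => (Y2_pos Q hl hlL σ).ne'
  have hE : E2 Q l ≠ 0 := by have := E2_ge Q hl hlL; positivity
  have cY : Continuous fun σ : ℝ => Y2 Q l σ := by unfold Y2; fun_prop
  have cy : ∀ j, Continuous fun σ : ℝ => y0 Q l σ j := fun j => by unfold y0; fun_prop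
  have cg : Continuous fun σ : ℝ => gg Q l z X σ := by
    unfold gg
    apply Continuous.sqrt
    apply Continuous.div
    · apply Continuous.sub
      · fun_prop
      · exact continuous_const.div cY hY
    · fun_prop
    · intro σ; exact mul_ne_zero hE (hY σ)
  have cx : ∀ j, Continuous fun σ : ℝ => xx Q l z X σ j := fun j => by
    unfold xx
    have c1 : Continuous fun σ : ℝ => z.im / 2 / Y2 Q l σ := continuous_const.div cY hY
    have c2 := cy j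
    fun_prop
  refine continuous_pi fun j => ?_
  unfold bb
  have c1 := cx j
  have c2 := cy j
  fun_prop

/-- membership in the chamber at the ends of the path -/
lemma mem_Pc {σ : ℝ} (hσ : |σ| = P.T1) {k : Cd 3}
    (hη : dr (fun j => im k j - y0 Q l σ j) (fun j => im k j - y0 Q l σ j) * P.Λ ^ 8 ≤ 1)
    (hk : dr (im k) (im k) ≤ P.Λ ^ 42) : im k ∈ Pc P (3 / 2 * P.G) (y0 Q l σ) := by
  have hΛ := Λ_pos P
  have hΛ1 := Λ_one P
  have hG : P.G = P.Λ ^ 5 := rfl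
  have hG0 : 0 < P.G := pow_pos hΛ 5
  have hT : P.T1 = P.Λ ^ 7 := rfl
  refine ⟨?_, fun m hm hmL => ?_⟩
  · have e : P.R ^ 2 = P.Λ ^ 52 := by rw [Sc.R]; ring
    have p := pw P (a := 42) (b := 52) (by norm_num)
    have p0 := pow_pos hΛ 42
    have h1 : 9 / 4 * dr (im k) (im k) ≤ P.R ^ 2 := by rw [e]; linarith
    calc (3 / 2 * P.G) ^ 2 * dr (im k) (im k) = P.G ^ 2 * (9 / 4 * dr (im k) (im k)) := by ring
      _ ≤ P.G ^ 2 * P.R ^ 2 := mul_le_mul_of_nonneg_left h1 (sq_nonneg _)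
  · set η : Fin 3 → ℝ := fun j => im k j - y0 Q l σ j with hηd
    have hη0 := dr_self_nonneg η
    have e1 : dt (im k) m = dt (y0 Q l σ) m + dr η (rv m) := by
      rw [dt3, dt3, dr3]; simp only [hηd, rv]; ring
    have hmm : dr (rv m) (rv m) ≤ P.Λ := by
      rw [dr_rv]
      have := (le_abs_self _).trans (di_le (P := P) hmL hmL)
      linarith
    have hsm : |dr η (rv m)| ≤ 1 := by
      have h1 := cs3 η (rv m)
      apply abs_le_of_sq_le_sq _ (by norm_num)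
      calc dr η (rv m) ^ 2 ≤ dr η η * dr (rv m) (rv m) := h1
        _ ≤ dr η η * P.Λ := mul_le_mul_of_nonneg_left hmm hη0
        _ ≤ dr η η * P.Λ ^ 8 :=
          mul_le_mul_of_nonneg_left (le_self_pow₀ hΛ1 (by norm_num)) hη0
        _ ≤ 1 ^ 2 := by linarith
    have hbig : P.Λ ^ 7 ≤ |dt (y0 Q l σ) m| := by
      by_cases hpar : di (Q.ed l) m = 0
      · obtain ⟨i, j, hi, hj, hij⟩ := para Q hl hlL hm hmL hpar
        rw [dt_y0, hpar]
        have hne : di l m ≠ 0 := by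
          intro h0
          have h1 : i * di l l = j * di m l := by
            have hs : ∀ s, i * l s = j * m s := fun s => by
              have := congrFun hij s
              simpa only [Pi.smul_apply, smul_eq_mul] using this
            rw [di3, di3]
            linear_combination l 0 * hs 0 + l 1 * hs 1 + l 2 * hs 2
          rw [di_comm' m l, h0, mul_zero] at h1
          have h2 := di_self_pos hl
          have h3 : di l l ≠ 0 := by
            intro h; rw [h] at h2; norm_num at h2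
          exact (mul_ne_zero hi h3) h1
        have h1 : (1 : ℝ) ≤ |(di l m : ℝ)| := by
          have : 1 ≤ |di l m| := Int.one_le_abs hne
          exact_mod_cast this
        rw [Int.cast_zero, mul_zero, zero_add, abs_mul, hσ, hT]
        exact le_mul_of_one_le_right (pow_nonneg hΛ.le _) h1
      · have hT0 : 0 ≤ P.T1 := pow_nonneg hΛ.le _
        have h1 := dt_y0_big Q hl hlL hmL (σ := σ) (by rw [hσ]; linarith) hpar
        have p1 := pw P (a := 8) (b := 19) (by norm_num)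
        have p2 : P.Λ ^ 7 ≤ P.Λ ^ 8 := pow_le_pow_right₀ hΛ1 (by norm_num)
        have := pow_pos hΛ 8
        linarith
    have p1 := pw P (a := 5) (b := 7) (by norm_num)
    have p2 : (1 : ℝ) ≤ P.Λ ^ 5 := one_le_pow₀ hΛ1
    have A := abs_le.1 hsm
    rw [e1, hG]
    have hsum : |dt (y0 Q l σ) m| - 1 ≤ |dt (y0 Q l σ) m + dr η (rv m)| := by
      have h3 := abs_sub_abs_le_abs_sub (dt (y0 Q l σ) m) (-(dr η (rv m)))
      rw [abs_neg, sub_neg_eq_add] at h3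
      linarith
    refine ⟨?_, ?_⟩
    · rw [abs_mul, abs_two]
      linarith
    · rcases le_or_gt 0 (dt (y0 Q l σ) m) with hs | hs
      · rw [abs_of_nonneg hs] at hbig
        apply mul_pos <;> linarith
      · rw [abs_of_neg hs] at hbig
        apply mul_pos_of_neg_of_neg <;> linarith

end path

end X3

open X3 in
theorem cross3 (Q : Dirs P) (hE : Eff P E) {l : Zd 3} (hl : l ≠ 0) (hlL : ‖l‖ ≤ P.L) :
    CrossAt P Q E l := by
  obtain ⟨X, hX, hX1, hX2⟩ := exists_X (Th0 Q l)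
  have hΛ := Λ_pos P
  have hΛ1 := Λ_one P
  have hT0 : 0 ≤ P.T1 := pow_nonneg hΛ.le _
  set b : ℝ → Cd 3 := fun σ => bb Q l (μ - w 0) X σ with hb
  have hq : ∀ σ, q μ (b σ) 0 + w 0 = 0 := fun σ => q_bb Q hl hlL X σ hX
  have hn : ∀ σ, P.Λ ^ 38 ≤ nsq (b σ) := fun σ => nsq_bb_ge Q hl hlL _ X σ
  have hreg0 : ∀ σ, |σ| ≤ P.T1 → Regular P (b σ) := fun σ hσ => by
    refine (reg_near Q hl hlL hσ (μ - w 0) hX1 hX2 ?_).1
    have : nsq (b σ - bb Q l (μ - w 0) X σ) = 0 := by simp [hb, nsq]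
    rw [this]; norm_num
  have hthick : ∀ σ, |σ| ≤ P.T1 → Thick P (b σ) := fun σ hσ => by
    refine ⟨(pow_le_pow_right₀ hΛ1 (by norm_num)).trans (hn σ), ?_, fun m hm hmL => ?_⟩
    · rw [hq σ]; simp
    · have h1 : ‖q μ (b σ) 0‖ < 2 * P.c := by
        have h2 : q μ (b σ) 0 = -w 0 := eq_neg_of_add_eq_zero_left (hq σ)
        rw [h2, norm_neg]
        have h3 := w0_le P
        linarith [norm_nonneg (w 0)]
      have := (hreg0 σ hσ).2 0 h1 m hm hmL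
      rwa [zero_add] at this
  have hnear : ∀ σ, |σ| ≤ P.T1 → nsq (pm E (b σ) - bb Q l (μ - w 0) X σ)
      * nsq (bb Q l (μ - w 0) X σ) ≤ 1 := fun σ hσ => pm_near P hE (hthick σ hσ)
  have hall : ∀ σ, |σ| ≤ P.T1 → _ := fun σ hσ =>
    reg_near Q hl hlL hσ (μ - w 0) hX1 hX2 (hnear σ hσ)
  have hm1 : |(-P.T1)| = P.T1 := by rw [abs_neg, abs_of_nonneg hT0]
  have hp1 : |P.T1| = P.T1 := abs_of_nonneg hT0
  refine ⟨pm E (b (-P.T1)), pm E (b P.T1), ?_, ?_, ?_, ?_, fun A B D => ?_⟩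
  · exact pm_base P hE (hthick _ hm1.le) (hall _ hm1.le).1
  · exact pm_base P hE (hthick _ hp1.le) (hall _ hp1.le).1
  · have h := mem_Pc Q hl hlL hm1 (hall _ hm1.le).2.1 (hall _ hm1.le).2.2
    have e : (fun j => Q.yc l j - P.T1 * (l j : ℝ)) = y0 Q l (-P.T1) := by
      funext j; simp only [y0]; ring
    rw [e]; exact h
  · exact mem_Pc Q hl hlL hp1 (hall _ hp1.le).2.1 (hall _ hp1.le).2.2
  · have hcont : Continuous fun t : ℝ => b (P.T1 * (2 * t - 1)) :=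
      (cont_bb Q hl hlL (μ - w 0) X).comp (by fun_prop)
    have hT : ∀ t ∈ Icc (0 : ℝ) 1, |P.T1 * (2 * t - 1)| ≤ P.T1 := fun t ht => by
      rw [abs_mul, hp1]
      have : |2 * t - 1| ≤ 1 := by rw [abs_le]; constructor <;> linarith [ht.1, ht.2]
      nlinarith
    have h := CC_path P hE D (fun t => b (P.T1 * (2 * t - 1))) hcont.continuousOn
      (fun t ht => hthick _ (hT t ht)) (fun t ht => (hall _ (hT t ht)).1)
    have e0 : P.T1 * (2 * (0 : ℝ) - 1) = -P.T1 := by ring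
    have e1 : P.T1 * (2 * (1 : ℝ) - 1) = P.T1 := by ring
    simp only [e0, e1] at h
    exact h

end Fermi
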