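import Mathlib

/-!
# Chunk CA2: constants for the crossing in all dimensions
-/

open scoped BigOperators Topology
open Set Filter Complex

noncomputable section

namespace Fermi

/-- the constants exist -/
theorem cross_consts (d : ℕ) (cc : ℝ) : ∃ (p₀ m₁ m₂ : ℕ) (Bc : ℝ), 1 ≤ m₁ ∧
    5 * 10 ^ 4 * cc ≤ m₁ ∧ m₁ * m₁.factorial * (10 ^ 9 * cc) ^ m₁ ≤ Bc ∧ Bc ^ 2 ≤ 2 ^ m₂ ∧
    m₂ + 1 ≤ p₀ ∧ 10 * cc ≤ p₀ ∧ ∀ (Λ ε : ℝ) (p : ℕ), 10 ^ 7 ≤ Λ → 0 ≤ ε → ε * Λ ^ p ≤ 1 →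
      p₀ ≤ p → ∃ ρ₀ : ℝ, 0 < ρ₀ ∧ ρ₀ ≤ (Λ ^ (600 * d + 700))⁻¹ ∧
        Bc * Λ ^ 100 * ρ₀ ≤ (Bc ^ 19)⁻¹ * ((Λ ^ (24 * d + 54))⁻¹) ^ m₂ ∧
        Bc * Λ ^ (24 * d + 100) * ε ≤ ρ₀ := by
  obtain ⟨m, hm⟩ := exists_nat_ge (5 * 10 ^ 4 * cc)
  obtain ⟨n₀, hn₀⟩ := exists_nat_ge (10 * cc)
  set m₁ : ℕ := m + 1 with hm₁
  set Bc : ℝ := max 1 (m₁ * m₁.factorial * (10 ^ 9 * cc) ^ m₁) with hBc
  have hB1 : 1 ≤ Bc := le_max_left _ _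
  have hB0 : 0 < Bc := lt_of_lt_of_le one_pos hB1
  obtain ⟨p', hp'⟩ := pow_unbounded_of_one_lt Bc (by norm_num : (1 : ℝ) < 2)
  set m₂ : ℕ := 2 * p' with hm₂
  set p₃ : ℕ := 20 * p' + (24 * d + 54) * m₂ + 100 + (600 * d + 700) with hp₃
  refine ⟨p₃ + p' + (24 * d + 100) + m₂ + 1 + n₀, m₁, m₂, Bc, by omega, ?_, le_max_right _ _, ?_,
    by omega, ?_, ?_⟩
  · rw [hm₁]; push_cast; linarith
  · calc Bc ^ 2 ≤ (2 ^ p') ^ 2 := pow_le_pow_left₀ hB0.le hp'.le 2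
      _ = 2 ^ m₂ := by rw [← pow_mul, hm₂, mul_comm]
  · push_cast
    have : (0 : ℝ) ≤ (p₃ : ℝ) + p' + (24 * d + 100) + m₂ + 1 := by positivity
    linarith
  · intro Λ ε p hΛ hε hεp hp
    have hΛ1 : (1 : ℝ) ≤ Λ := le_trans (by norm_num) hΛ
    have hΛ0 : 0 < Λ := lt_of_lt_of_le one_pos hΛ1
    have hBΛ : Bc ≤ Λ ^ p' :=
      hp'.le.trans (pow_le_pow_left₀ (by norm_num) (le_trans (by norm_num) hΛ) _)
    refine ⟨(Λ ^ p₃)⁻¹, by positivity, ?_, ?_, ?_⟩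
    · apply inv_anti₀ (by positivity)
      exact pow_le_pow_right₀ hΛ1 (by omega)
    · have h20 : Bc ^ 20 ≤ Λ ^ (20 * p') := by
        calc Bc ^ 20 ≤ (Λ ^ p') ^ 20 := pow_le_pow_left₀ hB0.le hBΛ 20
          _ = Λ ^ (20 * p') := by rw [← pow_mul, mul_comm]
      rw [inv_pow, ← pow_mul, ← mul_inv, ← div_eq_mul_inv, div_le_iff₀ (by positivity),
        inv_mul_eq_div, le_div_iff₀ (by positivity)]
      calc Bc * Λ ^ 100 * (Bc ^ 19 * Λ ^ ((24 * d + 54) * m₂))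
          = Bc ^ 20 * Λ ^ (100 + (24 * d + 54) * m₂) := by rw [pow_add]; ring
        _ ≤ Λ ^ (20 * p') * Λ ^ (100 + (24 * d + 54) * m₂) :=
            mul_le_mul_of_nonneg_right h20 (by positivity)
        _ = Λ ^ (20 * p' + (100 + (24 * d + 54) * m₂)) := by rw [← pow_add]
        _ ≤ Λ ^ p₃ := pow_le_pow_right₀ hΛ1 (by omega)
    · rw [← one_div, le_div_iff₀ (by positivity)]
      calc Bc * Λ ^ (24 * d + 100) * ε * Λ ^ p₃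
          ≤ Λ ^ p' * Λ ^ (24 * d + 100) * ε * Λ ^ p₃ := by gcongr
        _ = ε * Λ ^ (p' + (24 * d + 100) + p₃) := by rw [pow_add, pow_add]; ring
        _ ≤ ε * Λ ^ p := by
            apply mul_le_mul_of_nonneg_left _ hε
            exact pow_le_pow_right₀ hΛ1 (by omega)
        _ ≤ 1 := hεp

end Fermi
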