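import Pool.Agent.Lib.Fermi.SheetDefs

/-!
# Chunk SH: the exact sheet

Fix `Ξ ∈ Om`, write `ζ = I Ξ/so + z`. Then `q_0 = ε (2 I Ξ z/so + z²) - μ`, `ε = l2 (ed l)`, and `Ehat = 0` reads
`z = (μ - w 0 - ε z² - Hh)/(2 I Ξ ε/so)`: a contraction (factor `≤ 1/2`) of the ball `|z| ≤ Λ^-17/2`,
because there the point is extremely clean, so `Hh_bound` and `Hh_lip` apply. `zh Ξ` = the fixed point.
-/

open scoped BigOperators Topology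
open Set Filter Complex

noncomputable section

namespace Fermi

variable {d : ℕ} {μ : ℂ} {w : Zd d → ℂ} {P : Sc d μ w} (Q : Dirs P) {l : Zd d}

namespace SH

/-- the points in the coordinate `z` -/
def kz (Q : Dirs P) (l : Zd d) (Ξ z : ℂ) : Cd d := Q.kap l Ξ (I * Ξ / (Q.so l : ℂ) + z)

/-- the coefficient of `z` in `q_0` -/
def DD (Q : Dirs P) (l : Zd d) (Ξ : ℂ) : ℂ := 2 * I * (l2 (Q.ed l) : ℂ) * Ξ / (Q.so l : ℂ)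

/-- the right hand side -/
def NN (Q : Dirs P) (l : Zd d) (Ξ z : ℂ) : ℂ :=
  μ - w 0 - (l2 (Q.ed l) : ℂ) * z ^ 2 - Hh P (q μ (kz Q l Ξ z) 0) (kz Q l Ξ z)

theorem q_zero (κ : Cd d) : q μ κ 0 = bil κ κ - μ := by
  have h0 : κ + zc (0 : Zd d) = κ := by
    funext j; simp [zc]
  unfold q
  rw [h0]

theorem so_pos (hl : l ≠ 0) (hlL : ‖l‖ ≤ P.L) : 0 < Q.so l := by
  have := one_le_so Q hl hlL
  linarith

theorem q_kz (hl : l ≠ 0) (hlL : ‖l‖ ≤ P.L) (Ξ z : ℂ) :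
    q μ (kz Q l Ξ z) 0 = DD Q l Ξ * z + (l2 (Q.ed l) : ℂ) * z ^ 2 - μ := by
  have ha : (l2 l : ℂ) ≠ 0 := by
    have := one_le_l2 (d := d) hl
    exact_mod_cast (by linarith : l2 l ≠ 0)
  have hb : (l2 (Q.ed l) : ℂ) ≠ 0 := by
    have := one_le_l2_ed Q hl hlL
    exact_mod_cast (by linarith : l2 (Q.ed l) ≠ 0)
  have hs : (Q.so l : ℂ) ≠ 0 := by exact_mod_cast (so_pos Q hl hlL).ne'
  have hs2 : (Q.so l : ℂ) ^ 2 = (l2 l : ℂ) * (l2 (Q.ed l) : ℂ) := by exact_mod_cast so_sq Q l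
  rw [q_zero, kz, bil_kap Q hl]
  have e1 : Ξ ^ 2 / (l2 l : ℂ) = Ξ ^ 2 * (l2 (Q.ed l) : ℂ) / (Q.so l : ℂ) ^ 2 := by
    rw [hs2]; field_simp
  rw [e1]
  unfold DD
  have e2 : (I * Ξ / (Q.so l : ℂ) + z) ^ 2 = -Ξ ^ 2 / (Q.so l : ℂ) ^ 2 + 2 * I * Ξ * z / (Q.so l : ℂ) + z ^ 2 := by
    have : (I * Ξ / (Q.so l : ℂ) + z) ^ 2 = I ^ 2 * Ξ ^ 2 / (Q.so l : ℂ) ^ 2 + 2 * I * Ξ * z / (Q.so l : ℂ) + z ^ 2 := by
      ring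
    rw [this, I_sq]
    ring
  rw [e2]
  ring

theorem Ehat_kz (hl : l ≠ 0) (hlL : ‖l‖ ≤ P.L) (Ξ z : ℂ) :
    Ehat P (kz Q l Ξ z) = DD Q l Ξ * z - NN Q l Ξ z := by
  unfold Ehat NN
  rw [q_kz Q hl hlL]
  ring

/-- sizes -/
theorem DD_norm (hl : l ≠ 0) (hlL : ‖l‖ ≤ P.L) (Ξ : ℂ) :
    ‖DD Q l Ξ‖ = 2 * l2 (Q.ed l) * ‖Ξ‖ / Q.so l := by
  have hb := one_le_l2_ed Q hl hlL
  have hs := so_pos Q hl hlL
  unfold DD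
  rw [norm_div, norm_mul, norm_mul, norm_mul, norm_I, Complex.norm_real, Complex.norm_real,
    Real.norm_of_nonneg (by linarith), Real.norm_of_nonneg hs.le]
  have : ‖(2 : ℂ)‖ = 2 := by simp
  rw [this, mul_one]

theorem X0_abs (hl : l ≠ 0) (hlL : ‖l‖ ≤ P.L) : |Q.X0 l| = |Q.ta l| * Q.so l := by
  unfold Dirs.X0
  rw [abs_mul, abs_of_pos (so_pos Q hl hlL)]

theorem DD_bounds (hl : l ≠ 0) (hlL : ‖l‖ ≤ P.L) {Ξ : ℂ} (h : Ξ ∈ Q.Om l) :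
    l2 (Q.ed l) * P.Λ ^ 19 ≤ ‖DD Q l Ξ‖ ∧ ‖DD Q l Ξ‖ ≤ 3 * P.Λ ^ 21 := by
  have hb := one_le_l2_ed Q hl hlL
  have hb2 := l2_ed_le Q hlL
  have hs := so_pos Q hl hlL
  obtain ⟨-, h2, h3⟩ := Om_norm Q hl hlL h
  rw [X0_abs Q hl hlL] at h2 h3
  have ht1 := ta_ge Q hl hlL
  have ht2 := ta_le Q hl hlL
  have hΛ0 := P.Λ_pos
  rw [DD_norm Q hl hlL]
  constructor
  · rw [le_div_iff₀ hs]
    have h4 : 99 / 100 * (P.Λ ^ 19 * Q.so l) ≤ ‖Ξ‖ :=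
      le_trans (mul_le_mul_of_nonneg_left (mul_le_mul_of_nonneg_right ht1 hs.le) (by norm_num)) h2
    have h5 : 0 < P.Λ ^ 19 * Q.so l := by positivity
    calc l2 (Q.ed l) * P.Λ ^ 19 * Q.so l = l2 (Q.ed l) * (P.Λ ^ 19 * Q.so l) := by ring
      _ ≤ l2 (Q.ed l) * (2 * ‖Ξ‖) := mul_le_mul_of_nonneg_left (by linarith) (by linarith)
      _ = 2 * l2 (Q.ed l) * ‖Ξ‖ := by ring
  · rw [div_le_iff₀ hs]
    have h4 : ‖Ξ‖ ≤ 101 / 100 * (P.Λ ^ 20 * Q.so l) :=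
      le_trans h3 (mul_le_mul_of_nonneg_left (mul_le_mul_of_nonneg_right ht2 hs.le) (by norm_num))
    have h5 : 0 < P.Λ ^ 20 * Q.so l := by positivity
    calc 2 * l2 (Q.ed l) * ‖Ξ‖ ≤ 2 * P.Λ * (101 / 100 * (P.Λ ^ 20 * Q.so l)) := by
          apply mul_le_mul _ h4 (norm_nonneg _) (by positivity)
          linarith
      _ ≤ 3 * P.Λ ^ 21 * Q.so l := by
          have : 2 * P.Λ * (101 / 100 * (P.Λ ^ 20 * Q.so l)) = 202 / 100 * (P.Λ ^ 21 * Q.so l) := by ring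
          rw [this]
          have h6 : 0 < P.Λ ^ 21 * Q.so l := by positivity
          linarith

theorem mu_w (P : Sc d μ w) : ‖μ - w 0‖ ≤ 5 / 4 * P.Λ := by
  have h1 : ‖w 0‖ ≤ ∑' n, ‖w n‖ := P.hw.le_tsum 0 (fun _ _ => norm_nonneg _)
  have h2 := P.hc
  have h3 := P.hcΛ
  have h4 := P.hμ
  have h5 := norm_sub_le μ (w 0)
  linarith

theorem bil_zc_zc (m : Zd d) : bil (zc m) (zc m) = (l2 m : ℂ) := by
  unfold bil zc l2 di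
  push_cast
  rfl

/-- cleanness -/
theorem clean (hl : l ≠ 0) (hlL : ‖l‖ ≤ P.L) {Ξ z : ℂ} (h : Ξ ∈ Q.Om l) (hz : ‖z‖ * (2 * P.Λ ^ 17) ≤ 1) :
    Cl P P.G (q μ (kz Q l Ξ z) 0) (kz Q l Ξ z) := by
  intro m hm hmL
  have hΛ := P.Λ_ge
  have hΛ0 := P.Λ_pos
  have hb := one_le_l2_ed Q hl hlL
  have hb2 := l2_ed_le Q hlL
  have hs := so_pos Q hl hlL
  have hs2 := so_le Q hlL
  obtain ⟨-, hX1, hX2⟩ := Om_norm Q hl hlL h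
  have hX3 := X0_ge Q hl hlL
  obtain ⟨hD1, hD2⟩ := DD_bounds Q hl hlL h
  -- `lam ≠ 0`
  have hlam : Q.lam l m ≠ 0 := by
    intro h0
    obtain ⟨h1, h2⟩ := lam_eq_zero Q hl hlL h0
    have := static_far Q hl hlL hm h1 h2
    linarith
  have hlb := lam_lb Q hl hlL hlam
  have hed := lam_ed_le Q hl hlL m
  -- the main term
  have e1 : 2 * bil (kz Q l Ξ z) (zc m) = Ξ * Q.lam l m + 2 * z * (di m (Q.ed l) : ℂ) := by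
    rw [kz, bil_kap_zc]
    unfold Dirs.lam
    ring
  have h17 : 1 ≤ P.Λ ^ 17 := one_le_pow₀ (by linarith)
  have hz1 : ‖z‖ ≤ 1 := by
    have : ‖z‖ * 1 ≤ ‖z‖ * (2 * P.Λ ^ 17) := mul_le_mul_of_nonneg_left (by linarith) (norm_nonneg _)
    linarith
  have h1 : ‖2 * z * (di m (Q.ed l) : ℂ)‖ ≤ ‖z‖ * (Q.so l * ‖Q.lam l m‖) := by
    rw [norm_mul, norm_mul, Complex.norm_intCast]
    have : ‖(2 : ℂ)‖ = 2 := by simp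
    rw [this]
    calc 2 * ‖z‖ * |(di m (Q.ed l) : ℝ)| = ‖z‖ * (2 * |(di m (Q.ed l) : ℝ)|) := by ring
      _ ≤ ‖z‖ * (Q.so l * ‖Q.lam l m‖) := mul_le_mul_of_nonneg_left hed (norm_nonneg _)
  have h2 : P.Λ ^ 18 ≤ ‖2 * bil (kz Q l Ξ z) (zc m)‖ := by
    rw [e1]
    have h3 : ‖Ξ * Q.lam l m‖ - ‖2 * z * (di m (Q.ed l) : ℂ)‖ ≤ ‖Ξ * Q.lam l m + 2 * z * (di m (Q.ed l) : ℂ)‖ := by
      have := norm_sub_le_norm_add (Ξ * Q.lam l m) (2 * z * (di m (Q.ed l) : ℂ))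
      linarith
    rw [norm_mul] at h3
    have h4 : ‖z‖ * (Q.so l * ‖Q.lam l m‖) ≤ P.Λ * ‖Q.lam l m‖ := by
      have : ‖z‖ * Q.so l ≤ P.Λ := by nlinarith
      calc ‖z‖ * (Q.so l * ‖Q.lam l m‖) = (‖z‖ * Q.so l) * ‖Q.lam l m‖ := by ring
        _ ≤ P.Λ * ‖Q.lam l m‖ := mul_le_mul_of_nonneg_right this (norm_nonneg _)
    have h5 : 98 / 100 * P.Λ ^ 19 ≤ ‖Ξ‖ - P.Λ := by
      have h6 : P.Λ ^ 2 ≤ P.Λ ^ 19 := pow_le_pow_right₀ (by linarith) (by norm_num)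
      nlinarith
    have h7 : 98 / 100 * P.Λ ^ 19 * (2 / P.Λ) ≤ (‖Ξ‖ - P.Λ) * ‖Q.lam l m‖ :=
      mul_le_mul h5 hlb (by positivity) (le_trans (by positivity) h5)
    have h8 : 98 / 100 * P.Λ ^ 19 * (2 / P.Λ) = 196 / 100 * P.Λ ^ 18 := by field_simp; norm_num
    rw [h8] at h7
    have h9 : 0 < P.Λ ^ 18 := by positivity
    nlinarith
  -- the other terms
  have h3 : ‖q μ (kz Q l Ξ z) 0‖ ≤ 2 * P.Λ ^ 4 := by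
    rw [q_kz Q hl hlL]
    have h4 : ‖DD Q l Ξ * z‖ ≤ 3 / 2 * P.Λ ^ 4 := by
      rw [norm_mul]
      have h5 : 3 * P.Λ ^ 21 * ‖z‖ = 3 / 2 * P.Λ ^ 4 * (‖z‖ * (2 * P.Λ ^ 17)) := by ring
      calc ‖DD Q l Ξ‖ * ‖z‖ ≤ 3 * P.Λ ^ 21 * ‖z‖ := mul_le_mul_of_nonneg_right hD2 (norm_nonneg _)
        _ = 3 / 2 * P.Λ ^ 4 * (‖z‖ * (2 * P.Λ ^ 17)) := h5
        _ ≤ 3 / 2 * P.Λ ^ 4 * 1 := mul_le_mul_of_nonneg_left hz (by positivity)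
        _ = 3 / 2 * P.Λ ^ 4 := by ring
    have h6 : ‖(l2 (Q.ed l) : ℂ) * z ^ 2‖ ≤ P.Λ := by
      rw [norm_mul, norm_pow, Complex.norm_real, Real.norm_of_nonneg (by linarith)]
      have : ‖z‖ ^ 2 ≤ 1 := pow_le_one₀ (norm_nonneg _) hz1
      nlinarith [sq_nonneg ‖z‖]
    have h7 := P.hμ
    have h8 : ‖DD Q l Ξ * z + (l2 (Q.ed l) : ℂ) * z ^ 2 - μ‖ ≤ ‖DD Q l Ξ * z‖ + ‖(l2 (Q.ed l) : ℂ) * z ^ 2‖ + ‖μ‖ :=
      le_trans (norm_sub_le _ _) (by linarith [norm_add_le (DD Q l Ξ * z) ((l2 (Q.ed l) : ℂ) * z ^ 2)])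
    have h9 : P.Λ ^ 2 ≤ P.Λ ^ 4 := pow_le_pow_right₀ (by linarith) (by norm_num)
    nlinarith
  have h4 : ‖bil (zc m) (zc m)‖ ≤ P.Λ := by
    rw [bil_zc_zc, Complex.norm_real]
    have h5 := one_le_l2 (d := d) hm
    rw [Real.norm_of_nonneg (by linarith)]
    have := l2_le P hmL
    linarith
  have h5 : ‖2 * bil (kz Q l Ξ z) (zc m)‖ - ‖q μ (kz Q l Ξ z) 0‖ - ‖bil (zc m) (zc m)‖ ≤
      ‖q μ (kz Q l Ξ z) 0 + 2 * bil (kz Q l Ξ z) (zc m) + bil (zc m) (zc m)‖ := by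
    have e : 2 * bil (kz Q l Ξ z) (zc m) = (q μ (kz Q l Ξ z) 0 + 2 * bil (kz Q l Ξ z) (zc m) + bil (zc m) (zc m))
      - q μ (kz Q l Ξ z) 0 - bil (zc m) (zc m) := by ring
    have h6 : ‖2 * bil (kz Q l Ξ z) (zc m)‖ ≤ ‖q μ (kz Q l Ξ z) 0 + 2 * bil (kz Q l Ξ z) (zc m) + bil (zc m) (zc m)‖
      + ‖q μ (kz Q l Ξ z) 0‖ + ‖bil (zc m) (zc m)‖ := by
      conv_lhs => rw [e]
      exact le_trans (norm_sub_le _ _) (by linarith [norm_sub_le (q μ (kz Q l Ξ z) 0 + 2 * bil (kz Q l Ξ z) (zc m) + bil (zc m) (zc m)) (q μ (kz Q l Ξ z) 0)])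
    linarith
  refine le_trans ?_ h5
  have hG5 : P.G = P.Λ ^ 5 := rfl
  rw [hG5]
  have p1 : P.Λ ^ 18 = P.Λ ^ 13 * P.Λ ^ 5 := by ring
  have p2 : P.Λ ^ 4 ≤ P.Λ ^ 5 := pow_le_pow_right₀ (by linarith) (by norm_num)
  have p3 : P.Λ ^ 1 ≤ P.Λ ^ 5 := pow_le_pow_right₀ (by linarith) (by norm_num)
  have p4 : P.Λ ^ 1 ≤ P.Λ ^ 13 := pow_le_pow_right₀ (by linarith) (by norm_num)
  rw [pow_one] at p3 p4
  have p5 : 0 < P.Λ ^ 5 := by positivity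
  have p6 : 4 * P.Λ ^ 5 ≤ P.Λ ^ 18 := by
    rw [p1]
    nlinarith
  linarith

theorem cl_mono {g g' : ℝ} {z : ℂ} {κ : Cd d} (h : Cl P g z κ) (hg : g' ≤ g) : Cl P g' z κ :=
  fun m hm hmL => le_trans hg (h m hm hmL)

theorem norm_zc_sq (m : Zd d) : ‖zc m‖ ^ 2 ≤ l2 m := by
  have h1 : ‖zc m‖ ≤ ‖m‖ := by
    rw [pi_norm_le_iff_of_nonneg (norm_nonneg _)]
    intro j
    have : ‖zc m j‖ = ‖m j‖ := by
      unfold zc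
      rw [Complex.norm_intCast, Int.norm_eq_abs]
    rw [this]
    exact norm_le_pi_norm m j
  have h2 := norm_sq_le_l2 m
  have h3 : ‖zc m‖ ^ 2 ≤ ‖m‖ ^ 2 := pow_le_pow_left₀ (norm_nonneg _) h1 2
  linarith

theorem norm_zc_ed_le (hl : l ≠ 0) (hlL : ‖l‖ ≤ P.L) : ‖zc (Q.ed l)‖ ≤ l2 (Q.ed l) := by
  have h1 := norm_zc_sq (Q.ed l)
  have h2 := one_le_l2_ed Q hl hlL
  by_contra hcon
  push Not at hcon
  nlinarith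

theorem norm_zc_ed_so (hl : l ≠ 0) (hlL : ‖l‖ ≤ P.L) : ‖zc (Q.ed l)‖ ≤ Q.so l := by
  have h1 := norm_zc_sq (Q.ed l)
  have h2 := one_le_l2_ed Q hl hlL
  have h3 := so_sq Q l
  have h4 := one_le_l2 (d := d) hl
  have h5 := so_pos Q hl hlL
  by_contra hcon
  push Not at hcon
  nlinarith [norm_nonneg (zc (Q.ed l))]

theorem norm_zc_l (hl : l ≠ 0) : ‖zc l‖ ≤ l2 l := by
  have h1 := norm_zc_sq l
  have h2 := one_le_l2 (d := d) hl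
  by_contra hcon
  push Not at hcon
  nlinarith

/-- distance of two points -/
theorem kz_dist (hl : l ≠ 0) (hlL : ‖l‖ ≤ P.L) (Ξ₁ Ξ₂ z₁ z₂ : ℂ) :
    ‖kz Q l Ξ₁ z₁ - kz Q l Ξ₂ z₂‖ ≤ 2 * ‖Ξ₁ - Ξ₂‖ + l2 (Q.ed l) * ‖z₁ - z₂‖ := by
  have ha := one_le_l2 (d := d) hl
  have hs := so_pos Q hl hlL
  have e : kz Q l Ξ₁ z₁ - kz Q l Ξ₂ z₂ = ((Ξ₁ - Ξ₂) / (l2 l : ℂ)) • zc l +
      (I * (Ξ₁ - Ξ₂) / (Q.so l : ℂ)) • zc (Q.ed l) + (z₁ - z₂) • zc (Q.ed l) := by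
    unfold kz Dirs.kap
    funext j
    simp only [Pi.sub_apply, Pi.add_apply, Pi.smul_apply, smul_eq_mul]
    ring
  rw [e]
  have h1 : ‖((Ξ₁ - Ξ₂) / (l2 l : ℂ)) • zc l‖ ≤ ‖Ξ₁ - Ξ₂‖ := by
    rw [norm_smul, norm_div, Complex.norm_real, Real.norm_of_nonneg (by linarith)]
    have := norm_zc_l (d := d) hl
    calc ‖Ξ₁ - Ξ₂‖ / l2 l * ‖zc l‖ ≤ ‖Ξ₁ - Ξ₂‖ / l2 l * l2 l :=
          mul_le_mul_of_nonneg_left this (by positivity)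
      _ = ‖Ξ₁ - Ξ₂‖ := by field_simp
  have h2 : ‖(I * (Ξ₁ - Ξ₂) / (Q.so l : ℂ)) • zc (Q.ed l)‖ ≤ ‖Ξ₁ - Ξ₂‖ := by
    rw [norm_smul, norm_div, norm_mul, norm_I, one_mul, Complex.norm_real, Real.norm_of_nonneg hs.le]
    have := norm_zc_ed_so Q hl hlL
    calc ‖Ξ₁ - Ξ₂‖ / Q.so l * ‖zc (Q.ed l)‖ ≤ ‖Ξ₁ - Ξ₂‖ / Q.so l * Q.so l :=
          mul_le_mul_of_nonneg_left this (by positivity)
      _ = ‖Ξ₁ - Ξ₂‖ := by field_simp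
  have h3 : ‖(z₁ - z₂) • zc (Q.ed l)‖ ≤ l2 (Q.ed l) * ‖z₁ - z₂‖ := by
    rw [norm_smul, mul_comm]
    exact mul_le_mul_of_nonneg_right (norm_zc_ed_le Q hl hlL) (norm_nonneg _)
  refine le_trans (norm_add_le _ _) ?_
  have := norm_add_le (((Ξ₁ - Ξ₂) / (l2 l : ℂ)) • zc l) ((I * (Ξ₁ - Ξ₂) / (Q.so l : ℂ)) • zc (Q.ed l))
  linarith

/-- the bound of the right hand side -/
theorem NN_le (hl : l ≠ 0) (hlL : ‖l‖ ≤ P.L) {Ξ z : ℂ} (h : Ξ ∈ Q.Om l) (hz : ‖z‖ * (2 * P.Λ ^ 17) ≤ 1) :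
    ‖NN Q l Ξ z‖ ≤ 3 / 2 * P.Λ := by
  have hΛ := P.Λ_ge
  have hΛ0 := P.Λ_pos
  have hb := one_le_l2_ed Q hl hlL
  have hb2 := l2_ed_le Q hlL
  have hcl := clean Q hl hlL h hz
  have hG := P.G_pos
  have h1 := Hh_bound P (cl_mono hcl (by linarith : P.G / 2 ≤ P.G))
  have h2 := mu_w P
  have h17 : P.Λ ≤ P.Λ ^ 17 := by
    have := pow_le_pow_right₀ (by linarith : 1 ≤ P.Λ) (by norm_num : 1 ≤ 17)
    rwa [pow_one] at this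
  have h3 : ‖(l2 (Q.ed l) : ℂ) * z ^ 2‖ ≤ 1 := by
    rw [norm_mul, norm_pow, Complex.norm_real, Real.norm_of_nonneg (by linarith)]
    have h4 : ‖z‖ * P.Λ ≤ 1 := by nlinarith [norm_nonneg z]
    have h5 : ‖z‖ ≤ 1 := by nlinarith [norm_nonneg z]
    have h6 : l2 (Q.ed l) * ‖z‖ ≤ P.Λ * ‖z‖ := mul_le_mul_of_nonneg_right hb2 (norm_nonneg _)
    have h7 : l2 (Q.ed l) * ‖z‖ ^ 2 = (l2 (Q.ed l) * ‖z‖) * ‖z‖ := by ring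
    rw [h7]
    have h8 : l2 (Q.ed l) * ‖z‖ ≤ 1 := by linarith
    have h9 : 0 ≤ l2 (Q.ed l) * ‖z‖ := by positivity
    nlinarith [norm_nonneg z]
  have h4 : (P.Λ ^ 2)⁻¹ ≤ 1 := inv_le_one_of_one_le₀ (one_le_pow₀ (by linarith))
  unfold NN
  have h5 := norm_sub_le (μ - w 0 - (l2 (Q.ed l) : ℂ) * z ^ 2) (Hh P (q μ (kz Q l Ξ z) 0) (kz Q l Ξ z))
  have h6 := norm_sub_le (μ - w 0) ((l2 (Q.ed l) : ℂ) * z ^ 2)
  linarith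

/-- difference of two values of `q_0` on one fibre -/
theorem q_diff (hl : l ≠ 0) (hlL : ‖l‖ ≤ P.L) {Ξ z₁ z₂ : ℂ}
    (hz₁ : ‖z₁‖ * (2 * P.Λ ^ 17) ≤ 1) (hz₂ : ‖z₂‖ * (2 * P.Λ ^ 17) ≤ 1) :
    ‖q μ (kz Q l Ξ z₁) 0 - q μ (kz Q l Ξ z₂) 0‖ ≤ (‖DD Q l Ξ‖ + l2 (Q.ed l)) * ‖z₁ - z₂‖ ∧
    ‖(l2 (Q.ed l) : ℂ) * z₁ ^ 2 - (l2 (Q.ed l) : ℂ) * z₂ ^ 2‖ ≤ l2 (Q.ed l) * ‖z₁ - z₂‖ := by
  have hΛ := P.Λ_ge
  have hΛ0 := P.Λ_pos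
  have hb := one_le_l2_ed Q hl hlL
  have h17 : 1 ≤ P.Λ ^ 17 := one_le_pow₀ (by linarith)
  have h1 : ‖z₁‖ ≤ 1 / 2 := by nlinarith [norm_nonneg z₁]
  have h2 : ‖z₂‖ ≤ 1 / 2 := by nlinarith [norm_nonneg z₂]
  have h3 : ‖(l2 (Q.ed l) : ℂ) * z₁ ^ 2 - (l2 (Q.ed l) : ℂ) * z₂ ^ 2‖ ≤ l2 (Q.ed l) * ‖z₁ - z₂‖ := by
    have e : (l2 (Q.ed l) : ℂ) * z₁ ^ 2 - (l2 (Q.ed l) : ℂ) * z₂ ^ 2 = (l2 (Q.ed l) : ℂ) * ((z₁ + z₂) * (z₁ - z₂)) := by ring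
    rw [e, norm_mul, norm_mul, Complex.norm_real, Real.norm_of_nonneg (by linarith)]
    have h4 : ‖z₁ + z₂‖ ≤ 1 := le_trans (norm_add_le _ _) (by linarith)
    have h5 : ‖z₁ + z₂‖ * ‖z₁ - z₂‖ ≤ 1 * ‖z₁ - z₂‖ := mul_le_mul_of_nonneg_right h4 (norm_nonneg _)
    rw [one_mul] at h5
    exact mul_le_mul_of_nonneg_left h5 (by linarith)
  refine ⟨?_, h3⟩
  rw [q_kz Q hl hlL, q_kz Q hl hlL]
  have e : DD Q l Ξ * z₁ + (l2 (Q.ed l) : ℂ) * z₁ ^ 2 - μ - (DD Q l Ξ * z₂ + (l2 (Q.ed l) : ℂ) * z₂ ^ 2 - μ) =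
    DD Q l Ξ * (z₁ - z₂) + ((l2 (Q.ed l) : ℂ) * z₁ ^ 2 - (l2 (Q.ed l) : ℂ) * z₂ ^ 2) := by ring
  rw [e]
  refine le_trans (norm_add_le _ _) ?_
  rw [norm_mul]
  linarith

/-- the contraction estimate -/
theorem NN_lip (hl : l ≠ 0) (hlL : ‖l‖ ≤ P.L) {Ξ z₁ z₂ : ℂ} (h : Ξ ∈ Q.Om l)
    (hz₁ : ‖z₁‖ * (2 * P.Λ ^ 17) ≤ 1) (hz₂ : ‖z₂‖ * (2 * P.Λ ^ 17) ≤ 1) :
    ‖NN Q l Ξ z₁ - NN Q l Ξ z₂‖ ≤ 1 / 2 * ‖DD Q l Ξ‖ * ‖z₁ - z₂‖ := by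
  have hΛ := P.Λ_ge
  have hΛ0 := P.Λ_pos
  have hb := one_le_l2_ed Q hl hlL
  have hb2 := l2_ed_le Q hlL
  have hcl := clean Q hl hlL h hz₂
  have hG := P.G_pos
  obtain ⟨hD1, hD2⟩ := DD_bounds Q hl hlL h
  obtain ⟨hq, hsq⟩ := q_diff Q hl hlL (Ξ := Ξ) hz₁ hz₂
  have hk := kz_dist Q hl hlL Ξ Ξ z₁ z₂
  rw [sub_self, norm_zero, mul_zero, zero_add] at hk
  have hzz : ‖z₁ - z₂‖ * P.Λ ^ 17 ≤ 1 := by
    have := norm_sub_le z₁ z₂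
    have h17 : 0 ≤ P.Λ ^ 17 := by positivity
    nlinarith
  have h19 : P.Λ ^ 19 ≤ ‖DD Q l Ξ‖ := by
    have : 0 < P.Λ ^ 19 := by positivity
    nlinarith
  have hbD : 1000 * l2 (Q.ed l) ≤ ‖DD Q l Ξ‖ := by
    have h1 : (1000 : ℝ) ≤ P.Λ ^ 19 := by
      have := pow_le_pow_right₀ (by linarith : 1 ≤ P.Λ) (by norm_num : 1 ≤ 19)
      rw [pow_one] at this
      linarith
    nlinarith
  have c1 : ‖q μ (kz Q l Ξ z₁) 0 - q μ (kz Q l Ξ z₂) 0‖ ≤ P.G / 32 := by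
    refine le_trans hq ?_
    have h1 : ‖DD Q l Ξ‖ + l2 (Q.ed l) ≤ 4 * P.Λ ^ 21 := by
      have : P.Λ ≤ P.Λ ^ 21 := by
        have := pow_le_pow_right₀ (by linarith : 1 ≤ P.Λ) (by norm_num : 1 ≤ 21)
        rwa [pow_one] at this
      linarith
    have h2 : (‖DD Q l Ξ‖ + l2 (Q.ed l)) * ‖z₁ - z₂‖ ≤ 4 * P.Λ ^ 21 * ‖z₁ - z₂‖ :=
      mul_le_mul_of_nonneg_right h1 (norm_nonneg _)
    have h3 : 4 * P.Λ ^ 21 * ‖z₁ - z₂‖ = 4 * P.Λ ^ 4 * (‖z₁ - z₂‖ * P.Λ ^ 17) := by ring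
    have h4 : 4 * P.Λ ^ 4 * (‖z₁ - z₂‖ * P.Λ ^ 17) ≤ 4 * P.Λ ^ 4 * 1 :=
      mul_le_mul_of_nonneg_left hzz (by positivity)
    have h5 : P.G = P.Λ * P.Λ ^ 4 := by
      show P.Λ ^ 5 = _
      ring
    have h6 : 0 < P.Λ ^ 4 := by positivity
    nlinarith
  have hzz1 : l2 (Q.ed l) * ‖z₁ - z₂‖ ≤ 1 := by
    have h1 : l2 (Q.ed l) * ‖z₁ - z₂‖ ≤ P.Λ * ‖z₁ - z₂‖ := mul_le_mul_of_nonneg_right hb2 (norm_nonneg _)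
    have h2 : P.Λ ≤ P.Λ ^ 17 := by
      have := pow_le_pow_right₀ (by linarith : 1 ≤ P.Λ) (by norm_num : 1 ≤ 17)
      rwa [pow_one] at this
    nlinarith [norm_nonneg (z₁ - z₂)]
  have c2 : ‖kz Q l Ξ z₁ - kz Q l Ξ z₂‖ ≤ 1 := le_trans hk hzz1
  have hH := Hh_lip P (cl_mono hcl (by linarith : 3 / 4 * P.G ≤ P.G)) c1 c2
  have h6 : (P.Λ ^ 6)⁻¹ ≤ 1 / 10 := by
    rw [inv_le_comm₀ (by positivity) (by norm_num)]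
    have := pow_le_pow_right₀ (by linarith : 1 ≤ P.Λ) (by norm_num : 1 ≤ 6)
    rw [pow_one] at this
    norm_num
    linarith
  have h2 : (P.Λ ^ 2)⁻¹ ≤ 1 := inv_le_one_of_one_le₀ (one_le_pow₀ (by linarith))
  have h7 : (P.Λ ^ 6)⁻¹ * ‖q μ (kz Q l Ξ z₁) 0 - q μ (kz Q l Ξ z₂) 0‖ ≤
      1 / 10 * ((‖DD Q l Ξ‖ + l2 (Q.ed l)) * ‖z₁ - z₂‖) :=
    mul_le_mul h6 hq (norm_nonneg _) (by norm_num)
  have h8 : (P.Λ ^ 2)⁻¹ * ‖kz Q l Ξ z₁ - kz Q l Ξ z₂‖ ≤ 1 * (l2 (Q.ed l) * ‖z₁ - z₂‖) :=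
    mul_le_mul h2 hk (norm_nonneg _) (by norm_num)
  have e : NN Q l Ξ z₁ - NN Q l Ξ z₂ = -((l2 (Q.ed l) : ℂ) * z₁ ^ 2 - (l2 (Q.ed l) : ℂ) * z₂ ^ 2) -
      (Hh P (q μ (kz Q l Ξ z₁) 0) (kz Q l Ξ z₁) - Hh P (q μ (kz Q l Ξ z₂) 0) (kz Q l Ξ z₂)) := by
    unfold NN; ring
  rw [e]
  refine le_trans (norm_sub_le _ _) ?_
  rw [norm_neg]
  have h9 : l2 (Q.ed l) * ‖z₁ - z₂‖ ≤ ‖DD Q l Ξ‖ / 1000 * ‖z₁ - z₂‖ :=
    mul_le_mul_of_nonneg_right (by linarith) (norm_nonneg _)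
  have h10 : 0 ≤ ‖DD Q l Ξ‖ * ‖z₁ - z₂‖ := by positivity
  nlinarith

/-- existence of the fixed point -/
theorem exists_fix (hl : l ≠ 0) (hlL : ‖l‖ ≤ P.L) {Ξ : ℂ} (h : Ξ ∈ Q.Om l) :
    ∃ z : ℂ, ‖z‖ * P.Λ ^ 18 ≤ 2 ∧ DD Q l Ξ * z = NN Q l Ξ z := by
  have hΛ := P.Λ_ge
  have hΛ0 := P.Λ_pos
  have hb := one_le_l2_ed Q hl hlL
  obtain ⟨hD1, hD2⟩ := DD_bounds Q hl hlL h
  have h19 : P.Λ ^ 19 ≤ ‖DD Q l Ξ‖ := by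
    have : 0 < P.Λ ^ 19 := by positivity
    nlinarith
  have hD0 : 0 < ‖DD Q l Ξ‖ := lt_of_lt_of_le (by positivity) h19
  have hDne : DD Q l Ξ ≠ 0 := norm_pos_iff.1 hD0
  set r : ℝ := 1 / (2 * P.Λ ^ 17) with hr
  have hr0 : 0 < r := by positivity
  have hmem : ∀ z : ℂ, z ∈ Metric.closedBall (0 : ℂ) r ↔ ‖z‖ * (2 * P.Λ ^ 17) ≤ 1 := by
    intro z
    rw [mem_closedBall_zero_iff, hr, le_div_iff₀ (by positivity)]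
  -- size of the values
  have hsize : ∀ z : ℂ, ‖z‖ * (2 * P.Λ ^ 17) ≤ 1 → ‖NN Q l Ξ z / DD Q l Ξ‖ * P.Λ ^ 18 ≤ 2 := by
    intro z hz
    have h1 := NN_le Q hl hlL h hz
    rw [norm_div, div_mul_eq_mul_div, div_le_iff₀ hD0]
    have h2 : ‖NN Q l Ξ z‖ * P.Λ ^ 18 ≤ 3 / 2 * P.Λ * P.Λ ^ 18 :=
      mul_le_mul_of_nonneg_right h1 (by positivity)
    have h3 : 3 / 2 * P.Λ * P.Λ ^ 18 = 3 / 2 * P.Λ ^ 19 := by ring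
    have h4 : 0 < P.Λ ^ 19 := by positivity
    linarith
  have hsize2 : ∀ z : ℂ, ‖z‖ * P.Λ ^ 18 ≤ 2 → ‖z‖ * (2 * P.Λ ^ 17) ≤ 1 := by
    intro z hz
    have h1 : ‖z‖ * P.Λ ^ 18 = (‖z‖ * (2 * P.Λ ^ 17)) * (P.Λ / 2) := by ring
    rw [h1] at hz
    have h2 : 0 ≤ ‖z‖ * (2 * P.Λ ^ 17) := by positivity
    nlinarith
  have hmaps : MapsTo (fun z : ℂ => NN Q l Ξ z / DD Q l Ξ) (Metric.closedBall (0 : ℂ) r)
      (Metric.closedBall (0 : ℂ) r) := by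
    intro z hz
    rw [hmem] at hz ⊢
    exact hsize2 _ (hsize z hz)
  have hcontr : ContractingWith (1 / 2) (hmaps.restrict (fun z : ℂ => NN Q l Ξ z / DD Q l Ξ)
      (Metric.closedBall (0 : ℂ) r) (Metric.closedBall (0 : ℂ) r)) := by
    constructor
    · norm_num
    · apply LipschitzWith.of_dist_le_mul
      rintro ⟨z₁, h₁⟩ ⟨z₂, h₂⟩
      rw [hmem] at h₁ h₂
      have h3 := NN_lip Q hl hlL h h₁ h₂
      change dist (NN Q l Ξ z₁ / DD Q l Ξ) (NN Q l Ξ z₂ / DD Q l Ξ) ≤ ((1 / 2 : NNReal) : ℝ) * dist z₁ z₂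
      rw [dist_eq_norm, dist_eq_norm, ← sub_div, norm_div, div_le_iff₀ hD0]
      refine le_trans h3 (le_of_eq ?_)
      push_cast
      ring
  obtain ⟨z, hz, hfix, -⟩ := hcontr.exists_fixedPoint' (x := (0 : ℂ)) Metric.isClosed_closedBall.isComplete hmaps
    (Metric.mem_closedBall_self hr0.le) (edist_ne_top _ _)
  have hz1 := (hmem z).1 hz
  have hfix' : NN Q l Ξ z / DD Q l Ξ = z := hfix
  refine ⟨z, ?_, ?_⟩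
  · have := hsize z hz1
    rwa [hfix'] at this
  · conv_lhs => rw [← hfix']
    field_simp

/-- differentiability of an implicitly given Lipschitz function -/
theorem implicit_diff {F : ℂ × ℂ → ℂ} {x0 y0 : ℂ} {g : ℂ → ℂ} {K c : ℝ}
    (hF : DifferentiableAt ℂ F (x0, y0)) (hg0 : g x0 = y0)
    (hz : ∀ᶠ x in 𝓝 x0, F (x, g x) = 0)
    (hlip : ∀ᶠ x in 𝓝 x0, ‖g x - g x0‖ ≤ K * ‖x - x0‖) (hc : 0 < c)
    (hlow : ∀ᶠ y in 𝓝 y0, c * ‖y - y0‖ ≤ ‖F (x0, y) - F (x0, y0)‖) : DifferentiableAt ℂ g x0 := by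
  set L := fderiv ℂ F (x0, y0) with hLdef
  have hL : HasFDerivAt F L (x0, y0) := hF.hasFDerivAt
  set A := L (1, 0) with hA
  set B := L (0, 1) with hBdef
  have hlin : ∀ a b : ℂ, L (a, b) = a * A + b * B := by
    intro a b
    have e : ((a, b) : ℂ × ℂ) = a • ((1 : ℂ), (0 : ℂ)) + b • ((0 : ℂ), (1 : ℂ)) := by
      ext <;> simp
    rw [e, map_add, map_smul, map_smul]
    rfl
  have hB : B ≠ 0 := by
    intro h0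
    have h1 : HasDerivAt (fun y => F (x0, y)) B y0 := by
      have h2 : HasDerivAt (fun y : ℂ => ((x0, y) : ℂ × ℂ)) ((0 : ℂ), (1 : ℂ)) y0 :=
        (hasDerivAt_const y0 x0).prodMk (hasDerivAt_id y0)
      exact hL.comp_hasDerivAt y0 h2
    rw [hasDerivAt_iff_tendsto_slope] at h1
    have h3 : c ≤ ‖B‖ := ge_of_tendsto h1.norm (by
      filter_upwards [hlow.filter_mono nhdsWithin_le_nhds, self_mem_nhdsWithin] with y hy hne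
      rw [slope_def_field, norm_div, le_div_iff₀ (norm_pos_iff.2 (sub_ne_zero.2 hne))]
      exact hy)
    rw [h0, norm_zero] at h3
    linarith
  have hgc : Tendsto g (𝓝 x0) (𝓝 y0) := by
    rw [← hg0, tendsto_iff_norm_sub_tendsto_zero]
    have h1 : Tendsto (fun x => K * ‖x - x0‖) (𝓝 x0) (𝓝 0) := by
      have : Tendsto (fun x => K * ‖x - x0‖) (𝓝 x0) (𝓝 (K * ‖x0 - x0‖)) := by
        apply Continuous.tendsto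
        fun_prop
      simpa using this
    exact squeeze_zero' (Eventually.of_forall fun x => norm_nonneg _) hlip h1
  have hcont : Tendsto (fun x => ((x, g x) : ℂ × ℂ)) (𝓝 x0) (𝓝 (x0, y0)) :=
    tendsto_id.prodMk_nhds hgc
  have ho : (fun x => F (x, g x) - F (x0, y0) - L ((x, g x) - (x0, y0))) =o[𝓝 x0]
      (fun x => ((x, g x) : ℂ × ℂ) - (x0, y0)) := hL.isLittleO.comp_tendsto hcont
  have hO : (fun x => ((x, g x) : ℂ × ℂ) - (x0, y0)) =O[𝓝 x0] (fun x => x - x0) := by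
    apply Asymptotics.IsBigO.of_bound (max 1 K)
    filter_upwards [hlip] with x hx
    rw [Prod.mk_sub_mk, Prod.norm_def]
    apply max_le
    · have : 1 * ‖x - x0‖ ≤ max 1 K * ‖x - x0‖ := mul_le_mul_of_nonneg_right (le_max_left _ _) (norm_nonneg _)
      rwa [one_mul] at this
    · rw [← hg0]
      exact le_trans hx (mul_le_mul_of_nonneg_right (le_max_right _ _) (norm_nonneg _))
  have h5 := ho.trans_isBigO hO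
  have h6 : HasDerivAt g (-A / B) x0 := by
    rw [hasDerivAt_iff_isLittleO]
    refine (h5.const_mul_left (-1 / B)).congr' ?_ EventuallyEq.rfl
    have hz0 : F (x0, y0) = 0 := by
      have := hz.self_of_nhds
      rwa [hg0] at this
    filter_upwards [hz] with x hx
    rw [hx, hz0, Prod.mk_sub_mk, hlin, hg0, smul_eq_mul]
    field_simp
    ring
  exact h6.differentiableAt

/-- the equation for `q_0` at a fixed point -/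
theorem q_fix {Ξ z : ℂ} (hl : l ≠ 0) (hlL : ‖l‖ ≤ P.L) (hfix : DD Q l Ξ * z = NN Q l Ξ z) :
    q μ (kz Q l Ξ z) 0 + w 0 = - Hh P (q μ (kz Q l Ξ z) 0) (kz Q l Ξ z) := by
  have h1 := Ehat_kz Q hl hlL Ξ z
  rw [hfix, sub_self] at h1
  unfold Ehat at h1
  linear_combination h1

theorem fix_small (P : Sc d μ w) {z : ℂ} (hz : ‖z‖ * P.Λ ^ 18 ≤ 2) : ‖z‖ * (2 * P.Λ ^ 17) ≤ 1 := by
  have hΛ := P.Λ_ge
  have hΛ0 := P.Λ_pos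
  have h1 : ‖z‖ * P.Λ ^ 18 = (‖z‖ * (2 * P.Λ ^ 17)) * (P.Λ / 2) := by ring
  rw [h1] at hz
  have h2 : 0 ≤ ‖z‖ * (2 * P.Λ ^ 17) := by positivity
  nlinarith

/-- Lipschitz dependence on `Ξ` -/
theorem lipX (hl : l ≠ 0) (hlL : ‖l‖ ≤ P.L) {Ξ₁ Ξ₂ z₁ z₂ : ℂ} (h₁ : Ξ₁ ∈ Q.Om l) (h₂ : Ξ₂ ∈ Q.Om l)
    (hΞ : ‖Ξ₁ - Ξ₂‖ ≤ 1 / 4) (hz₁ : ‖z₁‖ * P.Λ ^ 18 ≤ 2) (hz₂ : ‖z₂‖ * P.Λ ^ 18 ≤ 2)
    (hf₁ : DD Q l Ξ₁ * z₁ = NN Q l Ξ₁ z₁) (hf₂ : DD Q l Ξ₂ * z₂ = NN Q l Ξ₂ z₂) :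
    ‖z₁ - z₂‖ ≤ (P.Λ ^ 8)⁻¹ * ‖Ξ₁ - Ξ₂‖ ∧
    ‖q μ (kz Q l Ξ₁ z₁) 0 - q μ (kz Q l Ξ₂ z₂) 0‖ ≤ 5 * (P.Λ ^ 2)⁻¹ * ‖Ξ₁ - Ξ₂‖ := by
  have hΛ := P.Λ_ge
  have hΛ0 := P.Λ_pos
  have hb := one_le_l2_ed Q hl hlL
  have hb2 := l2_ed_le Q hlL
  have hs1 := one_le_so Q hl hlL
  have hs := so_pos Q hl hlL
  have hG := P.G_pos
  have hz₁' := fix_small P hz₁
  have hz₂' := fix_small P hz₂
  have hcl₁ := clean Q hl hlL h₁ hz₁'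
  have hcl₂ := clean Q hl hlL h₂ hz₂'
  obtain ⟨hD1, hD2⟩ := DD_bounds Q hl hlL h₁
  have hH₁ := Hh_bound P (cl_mono hcl₁ (by linarith : P.G / 2 ≤ P.G))
  have hH₂ := Hh_bound P (cl_mono hcl₂ (by linarith : P.G / 2 ≤ P.G))
  have hq₁ := q_fix Q hl hlL hf₁
  have hq₂ := q_fix Q hl hlL hf₂
  have hk := kz_dist Q hl hlL Ξ₁ Ξ₂ z₁ z₂
  set H₁ := Hh P (q μ (kz Q l Ξ₁ z₁) 0) (kz Q l Ξ₁ z₁) with hH₁def
  set H₂ := Hh P (q μ (kz Q l Ξ₂ z₂) 0) (kz Q l Ξ₂ z₂) with hH₂def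
  set b := l2 (Q.ed l) with hbdef
  set u := (P.Λ ^ 2)⁻¹ with hu
  have hu0 : 0 < u := by positivity
  have huΛ : u * P.Λ ^ 2 = 1 := by rw [hu]; field_simp
  have hu1 : u * 1000 ≤ 1 := by nlinarith
  have hqq : q μ (kz Q l Ξ₁ z₁) 0 - q μ (kz Q l Ξ₂ z₂) 0 = -(H₁ - H₂) := by
    linear_combination hq₁ - hq₂
  have hqn : ‖q μ (kz Q l Ξ₁ z₁) 0 - q μ (kz Q l Ξ₂ z₂) 0‖ = ‖H₁ - H₂‖ := by
    rw [hqq, norm_neg]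
  have hΛ5 : (1000 : ℝ) ≤ P.G := by
    have := pow_le_pow_right₀ (by linarith : 1 ≤ P.Λ) (by norm_num : 1 ≤ 5)
    rw [pow_one] at this
    have e : P.G = P.Λ ^ 5 := rfl
    rw [e]
    linarith
  have c1 : ‖q μ (kz Q l Ξ₁ z₁) 0 - q μ (kz Q l Ξ₂ z₂) 0‖ ≤ P.G / 32 := by
    rw [hqn]
    have := norm_sub_le H₁ H₂
    linarith
  have h18 : P.Λ ≤ P.Λ ^ 18 := by
    have := pow_le_pow_right₀ (by linarith : 1 ≤ P.Λ) (by norm_num : 1 ≤ 18)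
    rwa [pow_one] at this
  have hz₁s : ‖z₁‖ * P.Λ ^ 18 ≤ 2 := hz₁
  have hbz : ∀ z : ℂ, ‖z‖ * (2 * P.Λ ^ 17) ≤ 1 → b * ‖z‖ ≤ 1 / 8 := by
    intro z hz
    have h1 : b * ‖z‖ ≤ P.Λ * ‖z‖ := mul_le_mul_of_nonneg_right hb2 (norm_nonneg _)
    have h2 : P.Λ * 100 ≤ P.Λ ^ 17 := by
      have h3 := pow_le_pow_right₀ (by linarith : 1 ≤ P.Λ) (by norm_num : 2 ≤ 17)
      nlinarith
    nlinarith [norm_nonneg z]
  have hbz₁ := hbz z₁ hz₁'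
  have hbz₂ := hbz z₂ hz₂'
  have hbzz : b * ‖z₁ - z₂‖ ≤ 1 / 4 := by
    have := norm_sub_le z₁ z₂
    nlinarith
  have c2 : ‖kz Q l Ξ₁ z₁ - kz Q l Ξ₂ z₂‖ ≤ 1 := by
    refine le_trans hk ?_
    linarith
  have hH := Hh_lip P (cl_mono hcl₂ (by linarith : 3 / 4 * P.G ≤ P.G)) c1 c2
  rw [← hH₁def, ← hH₂def, hqn, ← hu] at hH
  have h6 : (P.Λ ^ 6)⁻¹ ≤ 1 / 100 := by
    rw [inv_le_comm₀ (by positivity) (by norm_num)]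
    have := pow_le_pow_right₀ (by linarith : 1 ≤ P.Λ) (by norm_num : 1 ≤ 6)
    rw [pow_one] at this
    norm_num
    linarith
  set X := ‖Ξ₁ - Ξ₂‖ with hX
  set Z := ‖z₁ - z₂‖ with hZ
  have hX0 : 0 ≤ X := norm_nonneg _
  have hZ0 : 0 ≤ Z := norm_nonneg _
  -- bound of `H₁ - H₂`
  have hHb : ‖H₁ - H₂‖ ≤ 11 / 10 * (u * (2 * X + b * Z)) := by
    have h7 : (P.Λ ^ 6)⁻¹ * ‖H₁ - H₂‖ ≤ 1 / 100 * ‖H₁ - H₂‖ := mul_le_mul_of_nonneg_right h6 (norm_nonneg _)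
    have h8 : u * ‖kz Q l Ξ₁ z₁ - kz Q l Ξ₂ z₂‖ ≤ u * (2 * X + b * Z) := mul_le_mul_of_nonneg_left hk hu0.le
    have h9 : 0 ≤ u * (2 * X + b * Z) := by positivity
    linarith
  -- the equation for `z₁ - z₂`
  have e1 : DD Q l Ξ₁ * (z₁ - z₂) = -((DD Q l Ξ₁ - DD Q l Ξ₂) * z₂) - (b : ℂ) * ((z₁ + z₂) * (z₁ - z₂)) - (H₁ - H₂) := by
    have h7 : DD Q l Ξ₁ * z₁ = μ - w 0 - (b : ℂ) * z₁ ^ 2 - H₁ := by rw [hf₁]; rfl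
    have h8 : DD Q l Ξ₂ * z₂ = μ - w 0 - (b : ℂ) * z₂ ^ 2 - H₂ := by rw [hf₂]; rfl
    linear_combination h7 - h8
  have e2 : ‖DD Q l Ξ₁ - DD Q l Ξ₂‖ ≤ 2 * b * X := by
    have : DD Q l Ξ₁ - DD Q l Ξ₂ = DD Q l (Ξ₁ - Ξ₂) := by unfold DD; ring
    rw [this, DD_norm Q hl hlL, div_le_iff₀ hs]
    have h7 : 0 ≤ 2 * b * X := by positivity
    nlinarith
  have e3 : ‖DD Q l Ξ₁‖ * Z ≤ 2 * b * X * ‖z₂‖ + b * Z + 11 / 10 * (u * (2 * X + b * Z)) := by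
    rw [hZ, ← norm_mul, e1]
    refine le_trans (norm_sub_le _ _) (add_le_add ?_ hHb)
    refine le_trans (norm_sub_le _ _) (add_le_add ?_ ?_)
    · rw [norm_neg, norm_mul]
      exact mul_le_mul_of_nonneg_right e2 (norm_nonneg _)
    · rw [norm_mul, norm_mul, Complex.norm_real, Real.norm_of_nonneg (by linarith)]
      have h7 : ‖z₁ + z₂‖ ≤ 1 := by
        have := norm_add_le z₁ z₂
        nlinarith [norm_nonneg z₁, norm_nonneg z₂]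
      have h8 : ‖z₁ + z₂‖ * ‖z₁ - z₂‖ ≤ 1 * ‖z₁ - z₂‖ := mul_le_mul_of_nonneg_right h7 (norm_nonneg _)
      rw [one_mul] at h8
      exact mul_le_mul_of_nonneg_left h8 (by linarith)
  -- `2 b X ‖z₂‖ ≤ u X`
  have e4 : 2 * b * X * ‖z₂‖ ≤ u * X := by
    have h7 : 2 * b * ‖z₂‖ ≤ u := by
      have h8 : b * ‖z₂‖ ≤ P.Λ * ‖z₂‖ := mul_le_mul_of_nonneg_right hb2 (norm_nonneg _)
      have h9 : P.Λ * ‖z₂‖ * (2 * P.Λ ^ 2) ≤ 1 := by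
        have h10 : P.Λ ^ 3 ≤ P.Λ ^ 17 := pow_le_pow_right₀ (by linarith) (by norm_num)
        have h11 : P.Λ * ‖z₂‖ * (2 * P.Λ ^ 2) = ‖z₂‖ * (2 * P.Λ ^ 3) := by ring
        rw [h11]
        nlinarith [norm_nonneg z₂]
      have h12 : P.Λ * ‖z₂‖ * 2 ≤ u := by
        have h13 : P.Λ * ‖z₂‖ * 2 * P.Λ ^ 2 ≤ u * P.Λ ^ 2 := by
          rw [huΛ]; linarith
        exact le_of_mul_le_mul_right h13 (by positivity)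
      linarith
    calc 2 * b * X * ‖z₂‖ = (2 * b * ‖z₂‖) * X := by ring
      _ ≤ u * X := mul_le_mul_of_nonneg_right h7 hX0
  have e5 : ‖DD Q l Ξ₁‖ * Z ≤ 2 * b * Z + 4 * (u * X) := by
    have h7 : u * (b * Z) * 1000 ≤ b * Z := by
      have : 0 ≤ b * Z := by positivity
      nlinarith
    have h8 : 0 ≤ b * Z := by positivity
    have h9 : 0 ≤ u * X := by positivity
    have h10 : 11 / 10 * (u * (2 * X + b * Z)) = 22 / 10 * (u * X) + 11 / 10 * (u * (b * Z)) := by ring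
    rw [h10] at e3
    linarith
  have e6 : P.Λ ^ 19 * Z ≤ 8 * (u * X) := by
    have h7 : b * P.Λ ^ 19 * Z ≤ ‖DD Q l Ξ₁‖ * Z := mul_le_mul_of_nonneg_right hD1 hZ0
    have h19 : 4 ≤ P.Λ ^ 19 := by
      have := pow_le_pow_right₀ (by linarith : 1 ≤ P.Λ) (by norm_num : 1 ≤ 19)
      rw [pow_one] at this
      linarith
    have h8 : b * 4 * Z ≤ b * P.Λ ^ 19 * Z :=
      mul_le_mul_of_nonneg_right (mul_le_mul_of_nonneg_left h19 (by linarith)) hZ0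
    have h9 : 1 * (P.Λ ^ 19 * Z) ≤ b * (P.Λ ^ 19 * Z) := mul_le_mul_of_nonneg_right hb (by positivity)
    have h10 : b * P.Λ ^ 19 * Z = b * (P.Λ ^ 19 * Z) := by ring
    linarith
  have e7 : Z * P.Λ ^ 10 ≤ X := by
    have h7 : P.Λ ^ 10 * 8 ≤ P.Λ ^ 19 := by
      have h8 := pow_le_pow_right₀ (by linarith : 1 ≤ P.Λ) (by norm_num : 11 ≤ 19)
      have h9 : P.Λ ^ 11 = P.Λ ^ 10 * P.Λ := by ring
      have h10 : 0 < P.Λ ^ 10 := by positivity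
      nlinarith
    have h8 : P.Λ ^ 10 * 8 * Z ≤ P.Λ ^ 19 * Z := mul_le_mul_of_nonneg_right h7 hZ0
    have h9 : u * X ≤ 1 * X := mul_le_mul_of_nonneg_right (by linarith) hX0
    linarith
  constructor
  · rw [← div_eq_inv_mul, le_div_iff₀ (by positivity)]
    have h7 : Z * P.Λ ^ 8 ≤ Z * P.Λ ^ 10 :=
      mul_le_mul_of_nonneg_left (pow_le_pow_right₀ (by linarith) (by norm_num)) hZ0
    linarith
  · rw [hqn]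
    have h7 : b * Z ≤ X := by
      have h8 : b * Z ≤ P.Λ ^ 10 * Z := by
        apply mul_le_mul_of_nonneg_right _ hZ0
        have := pow_le_pow_right₀ (by linarith : 1 ≤ P.Λ) (by norm_num : 1 ≤ 10)
        rw [pow_one] at this
        linarith
      linarith
    have h8 : u * (2 * X + b * Z) ≤ u * (3 * X) := mul_le_mul_of_nonneg_left (by linarith) hu0.le
    have h9 : 0 ≤ u * X := by positivity
    calc ‖H₁ - H₂‖ ≤ 11 / 10 * (u * (3 * X)) := by linarith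
      _ = 33 / 10 * (u * X) := by ring
      _ ≤ 5 * u * X := by linarith

open scoped Classical in
/-- the fixed point -/
def zf (hl : l ≠ 0) (hlL : ‖l‖ ≤ P.L) (Ξ : ℂ) : ℂ :=
  if h : Ξ ∈ Q.Om l then (exists_fix Q hl hlL h).choose else 0

theorem zf_spec (hl : l ≠ 0) (hlL : ‖l‖ ≤ P.L) {Ξ : ℂ} (h : Ξ ∈ Q.Om l) :
    ‖zf Q hl hlL Ξ‖ * P.Λ ^ 18 ≤ 2 ∧ DD Q l Ξ * zf Q hl hlL Ξ = NN Q l Ξ (zf Q hl hlL Ξ) := by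
  unfold zf
  rw [dif_pos h]
  exact (exists_fix Q hl hlL h).choose_spec

theorem Ehat_diff (hl : l ≠ 0) (hlL : ‖l‖ ≤ P.L) {Ξ z : ℂ} (h : Ξ ∈ Q.Om l)
    (hz : ‖z‖ * (2 * P.Λ ^ 17) ≤ 1) :
    DifferentiableAt ℂ (fun x : ℂ × ℂ => Ehat P (kz Q l x.1 x.2)) (Ξ, z) := by
  have hG := P.G_pos
  have hcl := cl_mono (clean Q hl hlL h hz) (by linarith : P.G / 2 ≤ P.G)
  have hq : DifferentiableAt ℂ (fun x : ℂ × ℂ => q μ (kz Q l x.1 x.2) 0) (Ξ, z) := by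
    have e : (fun x : ℂ × ℂ => q μ (kz Q l x.1 x.2) 0) =
        fun x => DD Q l x.1 * x.2 + (l2 (Q.ed l) : ℂ) * x.2 ^ 2 - μ := by
      funext x
      exact q_kz Q hl hlL x.1 x.2
    rw [e]
    unfold DD
    fun_prop
  have hk : DifferentiableAt ℂ (fun x : ℂ × ℂ => kz Q l x.1 x.2) (Ξ, z) := by
    unfold kz Dirs.kap
    fun_prop
  have hH : DifferentiableAt ℂ (fun x : ℂ × ℂ => Hh P (q μ (kz Q l x.1 x.2) 0) (kz Q l x.1 x.2)) (Ξ, z) := by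
    have h1 := (Hh_analytic P hcl).differentiableAt
    exact DifferentiableAt.comp (Ξ, z) (g := fun y : ℂ × Cd d => Hh P y.1 y.2)
      (f := fun x : ℂ × ℂ => (q μ (kz Q l x.1 x.2) 0, kz Q l x.1 x.2)) h1 (hq.prodMk hk)
  unfold Ehat
  exact (hq.add_const _).add hH

theorem zf_diff (hl : l ≠ 0) (hlL : ‖l‖ ≤ P.L) {Ξ : ℂ} (h : Ξ ∈ Q.Om l) :
    DifferentiableAt ℂ (zf Q hl hlL) Ξ := by
  have hΛ := P.Λ_ge
  have hΛ0 := P.Λ_pos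
  obtain ⟨hz1, hz2⟩ := zf_spec Q hl hlL h
  have hz3 := fix_small P hz1
  obtain ⟨hD1, hD2⟩ := DD_bounds Q hl hlL h
  have hb := one_le_l2_ed Q hl hlL
  have hOm : ∀ᶠ x in 𝓝 Ξ, x ∈ Q.Om l := (isOpen_Om Q l).mem_nhds h
  have hD0 : 0 < ‖DD Q l Ξ‖ := lt_of_lt_of_le (by positivity) hD1
  refine implicit_diff (F := fun x : ℂ × ℂ => Ehat P (kz Q l x.1 x.2)) (x0 := Ξ) (y0 := zf Q hl hlL Ξ)
    (K := (P.Λ ^ 8)⁻¹) (c := 1 / 2 * ‖DD Q l Ξ‖) (Ehat_diff Q hl hlL h hz3) rfl ?_ ?_ (by positivity) ?_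
  · filter_upwards [hOm] with x hx
    obtain ⟨-, h2⟩ := zf_spec Q hl hlL hx
    show Ehat P (kz Q l x (zf Q hl hlL x)) = 0
    rw [Ehat_kz Q hl hlL, h2, sub_self]
  · have hball : ∀ᶠ x in 𝓝 Ξ, x ∈ Metric.ball Ξ (1 / 4) := Metric.ball_mem_nhds Ξ (by norm_num)
    filter_upwards [hOm, hball] with x hx hx2
    obtain ⟨h1, h2⟩ := zf_spec Q hl hlL hx
    rw [Metric.mem_ball, dist_eq_norm] at hx2
    exact (lipX Q hl hlL hx h hx2.le h1 hz1 h2 hz2).1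
  · -- neighbourhood of the fixed point
    have hopen : ∀ᶠ y : ℂ in 𝓝 (zf Q hl hlL Ξ), ‖y‖ * (2 * P.Λ ^ 17) < 1 := by
      have hlt : ‖zf Q hl hlL Ξ‖ * (2 * P.Λ ^ 17) < 1 := by
        have e : ‖zf Q hl hlL Ξ‖ * P.Λ ^ 18 = (‖zf Q hl hlL Ξ‖ * (2 * P.Λ ^ 17)) * (P.Λ / 2) := by ring
        rw [e] at hz1
        have h2 : 0 ≤ ‖zf Q hl hlL Ξ‖ * (2 * P.Λ ^ 17) := by positivity
        nlinarith
      have hc : ContinuousAt (fun y : ℂ => ‖y‖ * (2 * P.Λ ^ 17)) (zf Q hl hlL Ξ) := by fun_prop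
      exact hc.eventually_lt_const hlt
    filter_upwards [hopen] with y hy
    show 1 / 2 * ‖DD Q l Ξ‖ * ‖y - zf Q hl hlL Ξ‖ ≤ ‖Ehat P (kz Q l Ξ y) - Ehat P (kz Q l Ξ (zf Q hl hlL Ξ))‖
    rw [Ehat_kz Q hl hlL, Ehat_kz Q hl hlL]
    have h1 := NN_lip Q hl hlL h hy.le hz3
    have e : DD Q l Ξ * y - NN Q l Ξ y - (DD Q l Ξ * zf Q hl hlL Ξ - NN Q l Ξ (zf Q hl hlL Ξ)) =
        DD Q l Ξ * (y - zf Q hl hlL Ξ) - (NN Q l Ξ y - NN Q l Ξ (zf Q hl hlL Ξ)) := by ring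
    rw [e]
    have h2 := norm_sub_norm_le (DD Q l Ξ * (y - zf Q hl hlL Ξ)) (NN Q l Ξ y - NN Q l Ξ (zf Q hl hlL Ξ))
    rw [norm_mul] at h2
    linarith

end SH

open SH in
theorem exists_sheet (hP : Prim l) (hlL : ‖l‖ ≤ P.L) : ∃ zh : ℂ → ℂ, Sheet P Q l zh := by
  have hl : l ≠ 0 := hP.1
  have hΛ := P.Λ_ge
  have hΛ0 := P.Λ_pos
  have hG := P.G_pos
  refine ⟨fun Ξ => I * Ξ / (Q.so l : ℂ) + zf Q hl hlL Ξ, ?_, ?_, ?_, ?_, ?_, ?_⟩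
  · intro Ξ h
    obtain ⟨h1, h2⟩ := zf_spec Q hl hlL h
    show Ehat P (kz Q l Ξ (zf Q hl hlL Ξ)) = 0
    rw [Ehat_kz Q hl hlL, h2, sub_self]
  · intro Ξ h
    obtain ⟨h1, h2⟩ := zf_spec Q hl hlL h
    have e : I * Ξ / (Q.so l : ℂ) + zf Q hl hlL Ξ - I * Ξ / (Q.so l : ℂ) = zf Q hl hlL Ξ := by ring
    show ‖I * Ξ / (Q.so l : ℂ) + zf Q hl hlL Ξ - I * Ξ / (Q.so l : ℂ)‖ ≤ (P.Λ ^ 10)⁻¹
    rw [e, ← one_div, le_div_iff₀ (by positivity)]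
    have h3 : P.Λ ^ 10 * 2 ≤ P.Λ ^ 18 := by
      have h8 := pow_le_pow_right₀ (by linarith : 1 ≤ P.Λ) (by norm_num : 11 ≤ 18)
      have h9 : P.Λ ^ 11 = P.Λ ^ 10 * P.Λ := by ring
      have h10 : 0 < P.Λ ^ 10 := by positivity
      nlinarith
    have h4 : ‖zf Q hl hlL Ξ‖ * (P.Λ ^ 10 * 2) ≤ ‖zf Q hl hlL Ξ‖ * P.Λ ^ 18 :=
      mul_le_mul_of_nonneg_left h3 (norm_nonneg _)
    linarith
  · intro Ξ h
    obtain ⟨h1, h2⟩ := zf_spec Q hl hlL h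
    show ‖q μ (kz Q l Ξ (zf Q hl hlL Ξ)) 0 + w 0‖ ≤ (P.Λ ^ 2)⁻¹
    rw [q_fix Q hl hlL h2, norm_neg]
    exact Hh_bound P (cl_mono (clean Q hl hlL h (fix_small P h1)) (by linarith))
  · intro Ξ h
    apply DifferentiableAt.differentiableWithinAt
    apply DifferentiableAt.add
    · fun_prop
    · exact zf_diff Q hl hlL h
  · intro Ξ₁ h₁ Ξ₂ h₂ h
    obtain ⟨a1, a2⟩ := zf_spec Q hl hlL h₁
    obtain ⟨b1, b2⟩ := zf_spec Q hl hlL h₂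
    have := (lipX Q hl hlL h₁ h₂ h a1 b1 a2 b2).1
    have e : I * Ξ₁ / (Q.so l : ℂ) + zf Q hl hlL Ξ₁ - (I * Ξ₂ / (Q.so l : ℂ) + zf Q hl hlL Ξ₂) -
        I * (Ξ₁ - Ξ₂) / (Q.so l : ℂ) = zf Q hl hlL Ξ₁ - zf Q hl hlL Ξ₂ := by ring
    show ‖I * Ξ₁ / (Q.so l : ℂ) + zf Q hl hlL Ξ₁ - (I * Ξ₂ / (Q.so l : ℂ) + zf Q hl hlL Ξ₂) -
        I * (Ξ₁ - Ξ₂) / (Q.so l : ℂ)‖ ≤ _
    rw [e]
    exact this
  · intro Ξ₁ h₁ Ξ₂ h₂ h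
    obtain ⟨a1, a2⟩ := zf_spec Q hl hlL h₁
    obtain ⟨b1, b2⟩ := zf_spec Q hl hlL h₂
    exact (lipX Q hl hlL h₁ h₂ h a1 b1 a2 b2).2

end Fermi
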