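import Pool.Agent.Lib.Fermi.EndLink
import Pool.Agent.Lib.Fermi.Sheet
import Pool.Agent.Lib.Fermi.CrossConst

/-!
# Chunk CA: crossing in all dimensions

Constants: `cc' = max cc 8`, `m₁ = ⌈5*10^4 cc'⌉ + 1`, `B = m₁ m₁! (10^9 cc')^m₁ ≤ 2^p'`, `2 p' ≤ m₂`, `B ^ 2 ≤ 2^m₂`,
`η₂ = (B^19)⁻¹ de^m₂ ≥ Λ^-(19 p' + (24d+54) m₂)`, `ρ₀ = Λ^-(p₃)` with `p₃` larger than this exponent `+ p' + 100` and `600 d + 700`,
`p₀ ≥ p₃ + p' + 24 d + 101`, `p₀ ≥ m₂ + 1`, `p₀ ≥ 10 cc'`; `B ≤ 2^p' ≤ Λ^p'`, `ε Λ^p ≤ 1`.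
Path: `Ξ(t) = X + I (2t - 1) T1 l2`, centres `c t = kap (Ξ t) (zh (Ξ t))` (continuous by `hS.diff`), direction `zc (ed l)`, radius `ρ₀`;
the boundary is outside `F` by `notmem_sheet` with `C = True`, `ρ₁ = ρ₀`, and `GoodLine`. `disc_path` in both directions and
`end_link` at both ends; `p₁ = c 0`, `p₂ = c 1`. `end_Pc` gives `Pc (2G) ⊆ Pc (3/2 G)`.
-/

open scoped BigOperators Topology
open Set Filter Complex

noncomputable section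

namespace Fermi

variable {d : ℕ} {μ : ℂ} {w : Zd d → ℂ} {P : Sc d μ w} {Q : Dirs P} {l : Zd d} {zh : ℂ → ℂ}

theorem Pc_mono (P : Sc d μ w) {y₀ y : Fin d → ℝ} (h : y ∈ Pc P (2 * P.G) y₀) :
    y ∈ Pc P (3 / 2 * P.G) y₀ := by
  have hG : 0 ≤ P.G := pow_nonneg (sc_pos P).le _
  have hy : 0 ≤ dr y y := Finset.sum_nonneg fun _ _ => mul_self_nonneg _
  refine ⟨le_trans ?_ h.1, fun l hl hlL => ⟨le_trans ?_ (h.2 l hl hlL).1, (h.2 l hl hlL).2⟩⟩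
  · apply mul_le_mul_of_nonneg_right _ hy
    apply pow_le_pow_left₀ (by linarith)
    linarith
  · linarith

/-- crossing for one slab, all constants given -/
theorem cross_one (hS : Sheet P Q l zh) (hP : Prim l) (hlL : ‖l‖ ≤ P.L) {cc Bc : ℝ}
    {m₁ m₂ : ℕ} (hcc : P.c ≤ cc) (hm₁ : 5 * 10 ^ 4 * cc ≤ m₁) (hm₁1 : 1 ≤ m₁)
    (hB : m₁ * m₁.factorial * (10 ^ 9 * cc) ^ m₁ ≤ Bc) (hm₂ : Bc ^ 2 ≤ 2 ^ m₂)
    (hL1 : m₂ + 1 ≤ P.L) (hL2 : 10 * P.c ≤ P.L) {ρ₀ : ℝ} (hρ₀ : 0 < ρ₀)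
    (hρ₁ : ρ₀ ≤ (P.Λ ^ (600 * d + 700))⁻¹)
    (hρ₂ : Bc * P.Λ ^ 100 * ρ₀ ≤ (Bc ^ 19)⁻¹ * de P ^ m₂)
    (hε0 : Bc * P.Λ ^ (24 * d + 100) * P.ε ≤ ρ₀) : CrossAt P Q (Ehat P) l := by
  have hl : l ≠ 0 := hP.1
  have hΛ1 : 1 ≤ P.Λ := sc_one_le P
  have hΛ0 : 0 < P.Λ := sc_pos P
  have hc8 : 8 ≤ P.c := by
    have := P.hc
    have : 0 ≤ ∑' n, ‖w n‖ := tsum_nonneg fun _ => norm_nonneg _
    linarith
  have hcc8 : 8 ≤ cc := hc8.trans hcc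
  have hpow : (1 : ℝ) ≤ (10 ^ 9 * cc) ^ m₁ := one_le_pow₀ (by linarith)
  have hfac : (1 : ℝ) ≤ m₁.factorial := by
    exact_mod_cast Nat.one_le_iff_ne_zero.mpr (Nat.factorial_ne_zero _)
  have hm1 : (1 : ℝ) ≤ m₁ := by exact_mod_cast hm₁1
  have hBc' : m₁.factorial * (10 ^ 9 * cc) ^ m₁ ≤ Bc := by
    refine le_trans ?_ hB
    have : (0 : ℝ) ≤ m₁.factorial * (10 ^ 9 * cc) ^ m₁ := by positivity
    nlinarith
  have hBc1 : 1 ≤ Bc := le_trans (one_le_mul_of_one_le_of_one_le hfac hpow) hBc'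
  have hBc0 : 0 < Bc := lt_of_lt_of_le one_pos hBc1
  obtain ⟨X, hX⟩ := exists_line hS hP hlL hcc hm₁ hBc' hm₂ hL1 hL2
  have hde : 0 < de P := by unfold de; positivity
  have het : 0 < et1 P := by unfold et1; positivity
  have hη₂ : 0 < (Bc ^ 19)⁻¹ * de P ^ m₂ :=
    mul_pos (inv_pos.mpr (pow_pos hBc0 _)) (pow_pos hde _)
  have hlow : (1 : ℝ) ≤ l2 l := one_le_l2 hl
  have hT : 0 < P.T1 := pow_pos hΛ0 _
  have hTl : 0 < P.T1 * l2 l := by positivity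
  -- small radius
  have hρ100 : ρ₀ ≤ (P.Λ ^ 100)⁻¹ := hρ₁.trans (inv_anti₀ (by positivity)
    (pow_le_pow_right₀ hΛ1 (by omega)))
  have hρet : P.Λ ^ 100 * ρ₀ ≤ et1 P := by
    have h1 : P.Λ ^ 100 * ρ₀ ≤ P.Λ ^ 100 * (P.Λ ^ (600 * d + 700))⁻¹ :=
      mul_le_mul_of_nonneg_left hρ₁ (by positivity)
    refine h1.trans ?_
    unfold et1
    rw [← div_eq_mul_inv, div_le_iff₀ (by positivity), inv_mul_eq_div, le_div_iff₀ (by positivity),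
      ← pow_add]
    exact pow_le_pow_right₀ hΛ1 (by omega)
  have hρet' : ρ₀ ≤ et1 P := le_trans (le_mul_of_one_le_left hρ₀.le (one_le_pow₀ hΛ1)) hρet
  have hρη : ρ₀ ≤ (Bc ^ 19)⁻¹ * de P ^ m₂ := by
    refine le_trans (le_mul_of_one_le_left hρ₀.le ?_) hρ₂
    exact one_le_mul_of_one_le_of_one_le hBc1 (one_le_pow₀ hΛ1)
  -- the path
  let Ξ : ℝ → ℂ := fun t => ⟨X, (2 * t - 1) * (P.T1 * l2 l)⟩
  have Ξim : ∀ t ∈ Icc (0 : ℝ) 1, |(Ξ t).im| ≤ P.T1 * l2 l := by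
    intro t ht
    show |(2 * t - 1) * (P.T1 * l2 l)| ≤ _
    rw [abs_mul, abs_of_pos hTl]
    have : |2 * t - 1| ≤ 1 := abs_le.mpr ⟨by linarith [ht.1], by linarith [ht.2]⟩
    nlinarith
  have Ξmem : ∀ t ∈ Icc (0 : ℝ) 1, Ξ t ∈ Q.Om l := by
    intro t ht
    refine ⟨?_, ?_⟩
    · show |X - Q.X0 l| < 3
      linarith [hX.hX]
    · have := Ξim t ht
      nlinarith
  let c : ℝ → Cd d := fun t => Q.kap l (Ξ t) (zh (Ξ t))
  have hΞc : Continuous Ξ := by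
    have : Ξ = fun t : ℝ => (X : ℂ) + (((2 * t - 1) * (P.T1 * l2 l) : ℝ) : ℂ) * I := by
      funext t
      apply Complex.ext <;> simp [Ξ]
    rw [this]
    fun_prop
  have hc : ContinuousOn c (Icc 0 1) := by
    have h1 : ContinuousOn (fun t => zh (Ξ t)) (Icc 0 1) :=
      hS.diff.continuousOn.comp hΞc.continuousOn Ξmem
    unfold c
    unfold Dirs.kap
    have h2 : ContinuousOn (fun t => Ξ t / (l2 l : ℂ)) (Icc 0 1) :=
      (hΞc.div_const _).continuousOn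
    exact (h2.smul continuousOn_const).add (h1.smul continuousOn_const)
  have hb : ∀ t ∈ Icc (0 : ℝ) 1, ∀ z : ℂ, ‖z‖ = ρ₀ → c t + z • zc (Q.ed l) ∉ FS μ w := by
    intro t ht z hz
    obtain ⟨Ξ₀, h1, h2, h3⟩ := hX.clus (Ξ t) rfl (Ξim t ht)
    refine notmem_sheet hS hP hlL hcc hm₁ hm₁1 hB True (Ξmem t ht) (fun _ => h1) (fun _ => h2)
      het hη₂ ?_ (fun _ => h3) hρ₀ hρet hρ100 (fun _ => hρ₂) hε0 (hε0.trans hρet')
      (fun _ => hε0.trans hρη) hz.ge hz.le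
    intro n hn hres hnf
    have hnf' : ¬ Fast Q l n := fun h => hnf ⟨h, trivial⟩
    exact ⟨Or.inl hnf', hX.single (Ξ t) rfl (Ξim t ht) n hn hres (Or.inl hnf')⟩
  have h0 : (Ξ 0).im = (-1 : ℝ) * P.T1 * l2 l := by
    show (2 * 0 - 1) * (P.T1 * l2 l) = _
    ring
  have h1 : (Ξ 1).im = (1 : ℝ) * P.T1 * l2 l := by
    show (2 * 1 - 1) * (P.T1 * l2 l) = _
    ring
  have hXX : |X - Q.X0 l| ≤ 1 := hX.hX
  refine ⟨c 0, c 1, end_base hS hP hlL hXX (Or.inr rfl) h0, end_base hS hP hlL hXX (Or.inl rfl) h1,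
    ?_, ?_, fun A B D => ?_⟩
  · have := Pc_mono P (end_Pc hS hP hlL (Ξ := Ξ 0) hXX (Or.inr rfl) h0)
    have e : (fun j => Q.yc l j + (-1 : ℝ) * P.T1 * (l j : ℝ)) =
        fun j => Q.yc l j - P.T1 * (l j : ℝ) := by
      funext j; ring
    rw [e] at this
    exact this
  · have := Pc_mono P (end_Pc hS hP hlL (Ξ := Ξ 1) hXX (Or.inl rfl) h1)
    have e : (fun j => Q.yc l j + (1 : ℝ) * P.T1 * (l j : ℝ)) =
        fun j => Q.yc l j + P.T1 * (l j : ℝ) := by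
      funext j; ring
    rw [e] at this
    exact this
  · rw [end_link hS hP hlL hX hcc hm₁ hm₁1 hB (Ξ := Ξ 0) rfl (Or.inr rfl) h0 hρ₀ hρ₁ hε0
        (hε0.trans hρet') D,
      end_link hS hP hlL hX hcc hm₁ hm₁1 hB (Ξ := Ξ 1) rfl (Or.inl rfl) h1 hρ₀ hρ₁ hε0
        (hε0.trans hρet') D]
    constructor
    · intro h
      obtain ⟨z, hz, hz'⟩ := disc_path D c hc (zc (Q.ed l)) hρ₀ hb h 1 (right_mem_Icc.mpr zero_le_one)
      exact ⟨z, hz.le, hz'⟩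
    · intro h
      have hc' : ContinuousOn (fun t => c (1 - t)) (Icc 0 1) :=
        hc.comp (by fun_prop) fun t ht => ⟨by linarith [ht.2], by linarith [ht.1]⟩
      obtain ⟨z, hz, hz'⟩ := disc_path D (fun t => c (1 - t)) hc' (zc (Q.ed l)) hρ₀
        (fun t ht => hb (1 - t) ⟨by linarith [ht.2], by linarith [ht.1]⟩)
        (by simpa using h) 1 (right_mem_Icc.mpr zero_le_one)
      refine ⟨z, hz.le, ?_⟩
      simpa using hz'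

theorem crossAll (d : ℕ) : CrossStmt d := by
  intro cc
  obtain ⟨p₀, m₁, m₂, Bc, h1, h2, h3, h4, h5, h6, h7⟩ := cross_consts d cc
  refine ⟨p₀, fun μ w P Q hc hp hL l hP hlL => ?_⟩
  obtain ⟨zh, hS⟩ := exists_sheet Q hP hlL
  have hε : 0 ≤ P.ε := le_trans (by positivity) P.hε1
  obtain ⟨ρ₀, a1, a2, a3, a4⟩ := h7 P.Λ P.ε P.p P.hΛ hε P.hε hp
  have hc8 : 0 ≤ P.c := by
    have := P.hc
    have : 0 ≤ ∑' n, ‖w n‖ := tsum_nonneg fun _ => norm_nonneg _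
    linarith
  have hL' : (p₀ : ℝ) ≤ P.L := by exact_mod_cast hL
  exact cross_one hS hP hlL hc h2 h1 h3 h4 (h5.trans hL)
    (by linarith) a1 a2 a3 a4

end Fermi
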