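import Mathlib

/-!
# Irreducibility of Fermi varieties: basic definitions

All norms on `Cd d = Fin d → ℂ`, `Fin d → ℝ` and `Zd d = Fin d → ℤ` are sup norms.
-/

open scoped BigOperators Topology
open Set Filter

noncomputable section

namespace Fermi

/-- the lattice `Z^d` -/
abbrev Zd (d : ℕ) := Fin d → ℤ

/-- `C^d` with the sup norm -/
abbrev Cd (d : ℕ) := Fin d → ℂ

variable {d : ℕ}

/-- the complex bilinear form `∑ a_j b_j` -/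
def bil (a b : Cd d) : ℂ := ∑ j, a j * b j

/-- an integer vector as a complex vector -/
def zc (n : Zd d) : Cd d := fun j => (n j : ℂ)

/-- real dot product of a real vector with an integer vector -/
def dt (y : Fin d → ℝ) (n : Zd d) : ℝ := ∑ j, y j * (n j : ℝ)

/-- real dot product -/
def dr (x y : Fin d → ℝ) : ℝ := ∑ j, x j * y j

/-- integer dot product -/
def di (n m : Zd d) : ℤ := ∑ j, n j * m j

/-- real part of a vector -/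
def re (k : Cd d) : Fin d → ℝ := fun j => (k j).re

/-- imaginary part of a vector -/
def im (k : Cd d) : Fin d → ℝ := fun j => (k j).im

/-- the symbol `q_n(k) = (k+n)·(k+n) - μ` -/
def q (μ : ℂ) (k : Cd d) (n : Zd d) : ℂ := bil (k + zc n) (k + zc n) - μ

/-- The Fermi set in Fourier variables: there is a nonzero `u ∈ ℓ²(Z^d)` with
`q_n(k) u_n + ∑_m w(n-m) u_m = 0` for all `n`. -/
def FS (μ : ℂ) (w : Zd d → ℂ) : Set (Cd d) :=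
  {k | ∃ u : lp (fun _ : Zd d => ℂ) 2, u ≠ 0 ∧
    ∀ n, q μ k n * u n + ∑' m, w (n - m) * u m = 0}

/-- locally the zero set of one analytic function -/
def LocHyp (F : Set (Cd d)) : Prop :=
  ∀ p, ∃ U ∈ 𝓝 p, ∃ f : Cd d → ℂ, AnalyticOnNhd ℂ f U ∧ ∀ k ∈ U, (k ∈ F ↔ f k = 0)

/-- locally the common zero set of a family of analytic functions -/
def LocAn (A : Set (Cd d)) : Prop :=
  ∀ p, ∃ U ∈ 𝓝 p, ∃ (ι : Type) (g : ι → Cd d → ℂ),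
    (∀ i, AnalyticOnNhd ℂ (g i) U) ∧ ∀ k ∈ U, (k ∈ A ↔ ∀ i, g i k = 0)

/-- invariant under `Z^d` -/
def Per (A : Set (Cd d)) : Prop := ∀ (k : Cd d) (n : Zd d), k + zc n ∈ A ↔ k ∈ A

/-- closure of the part of `F` outside `A` -/
def XX (F A : Set (Cd d)) : Set (Cd d) := closure (F \ A)

/-- a decomposition of `F` into two periodic analytic sets -/
structure Decomp (F A B : Set (Cd d)) : Prop where
  hF : LocHyp F
  hA : LocAn A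
  hB : LocAn B
  hU : A ∪ B = F
  pF : Per F
  pA : Per A
  pB : Per B

lemma Decomp.symm {F A B : Set (Cd d)} (h : Decomp F A B) : Decomp F B A :=
  ⟨h.hF, h.hB, h.hA, by rw [Set.union_comm]; exact h.hU, h.pF, h.pB, h.pA⟩

/-- an affine function based at `p0` -/
def aff (p0 a : Cd d) (c : ℂ) (k : Cd d) : ℂ := c + bil a (k - p0)

/-- The local model of `F` in the ball of radius `r` around `p0`: `F` is, up to the small
level `s`, the union of the affine sheets `aff p0 (a n) (c n) = 0`, `n ∈ S`. -/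
structure LM (F : Set (Cd d)) (p0 : Cd d) (r s A : ℝ) (S : Finset (Zd d))
    (a : Zd d → Cd d) (c : Zd d → ℂ) : Prop where
  s_pos : 0 < s
  bound : ∀ n ∈ S, ‖a n‖ ≤ A
  one_le : ∀ n ∈ S, 1 ≤ ‖a n‖
  sep : ∀ n ∈ S, ∀ m ∈ S, n ≠ m → ∀ l : ℂ, 1 ≤ ‖a m - l • a n‖
  lm1 : ∀ k, ‖k - p0‖ ≤ r → (∀ n ∈ S, s ≤ ‖aff p0 (a n) (c n) k‖) → k ∉ F
  lm2 : ∀ n ∈ S, ∀ (k v : Cd d) (ρ : ℝ), 0 < ρ → ‖v‖ ≤ 1 → ‖k - p0‖ + ρ ≤ r →
    (∀ m ∈ S, m ≠ n → ∀ z : ℂ, ‖z‖ ≤ ρ → s ≤ ‖aff p0 (a m) (c m) (k + z • v)‖) →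
    4 * s ≤ ρ * ‖bil (a n) v‖ →
    ∀ z₁ z₂ : ℂ, ‖z₁‖ ≤ ρ / 2 → ‖z₂‖ ≤ ρ / 2 → k + z₁ • v ∈ F → k + z₂ • v ∈ F → z₁ = z₂
  lm3 : ∀ n ∈ S, ∀ (k v : Cd d) (ρ : ℝ), 0 < ρ → ‖v‖ ≤ 1 → ‖k - p0‖ + ρ ≤ r →
    (∀ m ∈ S, m ≠ n → ∀ z : ℂ, ‖z‖ ≤ ρ → s ≤ ‖aff p0 (a m) (c m) (k + z • v)‖) →
    4 * s ≤ ρ * ‖bil (a n) v‖ →
    ‖aff p0 (a n) (c n) k‖ ≤ ρ * ‖bil (a n) v‖ / 4 →
    ∃ z : ℂ, ‖z‖ ≤ ρ / 2 ∧ k + z • v ∈ F

end Fermi
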