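import Pool.Agent.Lib.Fermi.EndLink1

/-!
# Chunk EL: the two ends of the vertical line

`p = kap Ξ (zh Ξ)`, `|im Ξ| = T1 l2`.
* `end_Pc`, `end_base`: see `EndLink1.lean`.
* `end_link`: local model at `p` (`(eff_Ehat P).lmat p`). Put `v = (1/Λ) • zc ed`. All `m ∈ S`, `m ≠ 0` have
  `‖Ehat (p + m)‖ ≥ et1` (`GoodLine.single`), so `‖aff m‖ ≥ et1/2` on `‖k - p‖ ≤ 8 s` (`approx`, `‖a m‖ ≤ M`).
  `lm3` with `ρ = 4s` (`‖bil (a 0) v‖ ≥ 1` by `grad`, `bil p (zc ed) = ζ l2(ed)`): a point `p'' = p + z v ∈ F`, `‖z‖ ≤ 2s`.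
  `notmem_sheet` with `C = False`, `η₁ = et1`, `ρ₁ = 4s`: it has `‖z/Λ‖ < ρ₀`. Every `F`-point `p + z • zc ed`, `‖z‖ ≤ ρ₀`, is `Good`
  and a base point (`regular_near_Pc`). `→`: `CC_mem`. `←`: `CC_of_good`, `CC_loc`.
-/

open scoped BigOperators Topology
open Set Filter Complex

noncomputable section

namespace Fermi

variable {d : ℕ} {μ : ℂ} {w : Zd d → ℂ} {P : Sc d μ w} {Q : Dirs P} {l : Zd d} {zh : ℂ → ℂ}

lemma el_s (P : Sc d μ w) : P.s = (P.Λ ^ (600 * d + 525))⁻¹ := by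
  have hΛ0 := P.Λ_pos
  have e : P.Λ ^ ((300 * d + 300) * 2) = P.Λ ^ (600 * d + 525) * P.Λ ^ 75 := by ring
  unfold Sc.s Sc.r
  rw [inv_pow, ← pow_mul, e]
  field_simp

lemma el_small (P : Sc d μ w) : P.Λ ^ (27 * d + 30) * P.s ≤ et1 P / 4 := by
  have hΛ := P.Λ_ge
  have hΛ0 := P.Λ_pos
  rw [el_s]
  unfold et1
  rw [← div_eq_mul_inv, div_le_iff₀ (by positivity)]
  have e : P.Λ ^ (600 * d + 525) = P.Λ ^ (24 * d + 56) * (P.Λ ^ (27 * d + 30) * P.Λ ^ (549 * d + 439)) := by ring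
  rw [e]
  have h1 : (4 : ℝ) ≤ P.Λ ^ (549 * d + 439) := by
    calc (4 : ℝ) ≤ P.Λ ^ 1 := by rw [pow_one]; linarith
      _ ≤ _ := pow_le_pow_right₀ (by linarith) (by omega)
  have h2 : (P.Λ ^ (24 * d + 56))⁻¹ / 4 * (P.Λ ^ (24 * d + 56) * (P.Λ ^ (27 * d + 30) * P.Λ ^ (549 * d + 439)))
      = P.Λ ^ (27 * d + 30) * P.Λ ^ (549 * d + 439) / 4 := by
    field_simp
  rw [h2]
  have h3 : 0 < P.Λ ^ (27 * d + 30) := by positivity
  nlinarith

lemma el_dM (P : Sc d μ w) : 8 * ((d : ℝ) * P.M * P.s) ≤ et1 P / 4 := by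
  have hΛ := P.Λ_ge
  have hΛ0 := P.Λ_pos
  have hs := sc_s_pos P
  refine le_trans ?_ (el_small P)
  have hd := ga_dLam P
  have h1 : P.Λ ^ 28 ≤ P.Λ ^ (27 * d + 30) := pow_le_pow_right₀ (by linarith) (by omega)
  have h2 : 8 * ((d : ℝ) * P.M) ≤ P.Λ ^ 28 := by
    unfold Sc.M
    have e : P.Λ ^ 28 = P.Λ * P.Λ ^ 27 := by ring
    rw [e, ← mul_assoc]
    apply mul_le_mul_of_nonneg_right _ (by positivity)
    linarith
  calc 8 * ((d : ℝ) * P.M * P.s) = (8 * ((d : ℝ) * P.M)) * P.s := by ring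
    _ ≤ P.Λ ^ (27 * d + 30) * P.s := mul_le_mul_of_nonneg_right (h2.trans h1) hs.le

lemma el_s2 (P : Sc d μ w) : s2 d P.N P.M P.s + P.s ≤ et1 P / 4 := by
  have hΛ := P.Λ_ge
  have hΛ0 := P.Λ_pos
  have hs := sc_s_pos P
  refine le_trans ?_ (el_small P)
  have hd := ga_dLam P
  have hd3 := ga_d P
  unfold s2 Sc.N Sc.M
  have hN : 1 ≤ P.Λ ^ (27 * d) := one_le_pow₀ (by linarith)
  have hM : 1 ≤ P.Λ ^ 27 := one_le_pow₀ (by linarith)
  have h1 : 20 * (d : ℝ) * P.Λ ^ 27 + 1 ≤ P.Λ * P.Λ ^ 27 := by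
    have : (20 * (d : ℝ) + 1) * P.Λ ^ 27 ≤ P.Λ * P.Λ ^ 27 :=
      mul_le_mul_of_nonneg_right (by linarith) (by positivity)
    linarith
  have h2 : 26 * (P.Λ ^ (27 * d) + 1) * (20 * (d : ℝ) * P.Λ ^ 27 + 1) ≤
      52 * P.Λ ^ (27 * d) * (P.Λ * P.Λ ^ 27) := by
    apply mul_le_mul (by linarith) h1 (by positivity) (by positivity)
  have h3 : 52 * P.Λ ^ (27 * d) * (P.Λ * P.Λ ^ 27) + 1 ≤ P.Λ ^ (27 * d + 30) := by
    have e : P.Λ ^ (27 * d + 30) = P.Λ ^ (27 * d) * (P.Λ * P.Λ ^ 27) * P.Λ ^ 2 := by ring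
    rw [e]
    have h4 : 1 ≤ P.Λ ^ (27 * d) * (P.Λ * P.Λ ^ 27) := by
      have : 1 ≤ P.Λ * P.Λ ^ 27 := by nlinarith
      nlinarith
    have h5 : 53 ≤ P.Λ ^ 2 := by nlinarith
    nlinarith
  calc 26 * (P.Λ ^ (27 * d) + 1) * (20 * (d : ℝ) * P.Λ ^ 27 + 1) * P.s + P.s
      ≤ 52 * P.Λ ^ (27 * d) * (P.Λ * P.Λ ^ 27) * P.s + P.s := by
        have := mul_le_mul_of_nonneg_right h2 hs.le
        linarith
    _ = (52 * P.Λ ^ (27 * d) * (P.Λ * P.Λ ^ 27) + 1) * P.s := by ring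
    _ ≤ _ := mul_le_mul_of_nonneg_right h3 hs.le

lemma el_norm_zc (n : Zd d) : ‖(zc n : Cd d)‖ = ‖n‖ := by
  apply le_antisymm
  · rw [pi_norm_le_iff_of_nonneg (norm_nonneg _)]
    intro j
    have := norm_le_pi_norm n j
    unfold zc
    rwa [Complex.norm_intCast, ← Int.norm_eq_abs]
  · rw [pi_norm_le_iff_of_nonneg (norm_nonneg _)]
    intro j
    have := norm_le_pi_norm (zc n : Cd d) j
    unfold zc at this
    rwa [Complex.norm_intCast, ← Int.norm_eq_abs] at this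

lemma el_norm_ed (Q : Dirs P) (hlL : ‖l‖ ≤ P.L) : ‖Q.ed l‖ ≤ P.Λ := by
  have h1 := norm_sq_le_l2 (Q.ed l)
  have h2 := l2_ed_le Q hlL
  have h3 := P.Λ_ge
  nlinarith [norm_nonneg (Q.ed l)]

lemma el_nsq_le (b : Cd d) : nsq b ≤ d * ‖b‖ ^ 2 := by
  unfold nsq
  calc ∑ i, ‖b i‖ ^ 2 ≤ ∑ _i : Fin d, ‖b‖ ^ 2 :=
        Finset.sum_le_sum fun i _ => pow_le_pow_left₀ (norm_nonneg _) (norm_le_pi_norm b i) 2
    _ = d * ‖b‖ ^ 2 := by
        rw [Finset.sum_const, Finset.card_univ, Fintype.card_fin, nsmul_eq_mul]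

/-- size of the points of the sheet -/
lemma el_norm_kap (hS : Sheet P Q l zh) (hP : Prim l) (hlL : ‖l‖ ≤ P.L) {Ξ : ℂ} (hO : Ξ ∈ Q.Om l) :
    ‖Q.kap l Ξ (zh Ξ)‖ ≤ P.Λ ^ 22 := by
  have hl := hP.1
  have hΛ := P.Λ_ge
  have hΛ0 := P.Λ_pos
  have hl2 := one_le_l2 hl
  have hso := one_le_so Q hl hlL
  have hs0 : 0 < Q.so l := by linarith
  have hn1 := norm_sq_le_l2 l
  have hn2 := norm_sq_le_l2 (Q.ed l)
  have hso2 := so_sq Q l
  have hed2 := one_le_l2_ed Q hl hlL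
  have hX := (Om_norm Q hl hlL hO).2.2
  have hX0 := X0_le Q hl hlL
  have hN : ‖Ξ‖ ≤ 2 * P.Λ ^ 21 := by
    have := pow_pos hΛ0 21
    linarith
  have hnear := hS.near Ξ hO
  have hed : ‖Q.ed l‖ ≤ Q.so l := by
    apply le_of_sq_le_sq _ hs0.le
    rw [hso2]
    nlinarith [norm_nonneg (Q.ed l)]
  have hedΛ := el_norm_ed Q hlL
  have h1 : ‖zh Ξ‖ ≤ ‖Ξ‖ / Q.so l + (P.Λ ^ 10)⁻¹ := by
    have e2 : zh Ξ = I * Ξ / (Q.so l : ℂ) + (zh Ξ - I * Ξ / (Q.so l : ℂ)) := by ring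
    rw [e2]
    refine (norm_add_le _ _).trans ?_
    apply add_le_add _ hnear
    rw [norm_div, norm_mul, Complex.norm_I, one_mul, Complex.norm_real, Real.norm_of_nonneg hs0.le]
  unfold Dirs.kap
  refine (norm_add_le _ _).trans ?_
  rw [norm_smul, norm_smul, el_norm_zc, el_norm_zc, norm_div, Complex.norm_real,
    Real.norm_of_nonneg (by linarith : 0 ≤ l2 l)]
  have hA : ‖Ξ‖ / l2 l * ‖l‖ ≤ ‖Ξ‖ := by
    have h3 : ‖l‖ ≤ l2 l := by nlinarith [norm_nonneg l]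
    rw [div_mul_eq_mul_div, div_le_iff₀ (by linarith)]
    exact mul_le_mul_of_nonneg_left h3 (norm_nonneg _)
  have hB : ‖zh Ξ‖ * ‖Q.ed l‖ ≤ ‖Ξ‖ + 1 := by
    refine (mul_le_mul_of_nonneg_right h1 (norm_nonneg _)).trans ?_
    rw [add_mul]
    apply add_le_add
    · rw [div_mul_eq_mul_div, div_le_iff₀ hs0]
      exact mul_le_mul_of_nonneg_left hed (norm_nonneg _)
    · rw [inv_mul_le_iff₀ (by positivity), mul_one]
      refine hedΛ.trans ?_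
      calc P.Λ = P.Λ ^ 1 := (pow_one _).symm
        _ ≤ P.Λ ^ 10 := pow_le_pow_right₀ (by linarith) (by norm_num)
  have h22 := ga_pow P (show 21 < 22 by norm_num)
  have := ga_one_le_pow P 21
  linarith

theorem end_link (hS : Sheet P Q l zh) (hP : Prim l) (hlL : ‖l‖ ≤ P.L) {X η₂ : ℝ}
    (hX : GoodLine P Q l zh X η₂) {cc Bc : ℝ} {m₁ : ℕ}
    (hcc : P.c ≤ cc) (hm₁ : 5 * 10 ^ 4 * cc ≤ m₁) (hm₁1 : 1 ≤ m₁)
    (hB : m₁ * m₁.factorial * (10 ^ 9 * cc) ^ m₁ ≤ Bc) {Ξ : ℂ} (hre : Ξ.re = X)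
    {s : ℝ} (hs : s = 1 ∨ s = -1) (him : Ξ.im = s * P.T1 * l2 l) {ρ₀ : ℝ} (hρ₀ : 0 < ρ₀)
    (hρ₁ : ρ₀ ≤ (P.Λ ^ (600 * d + 700))⁻¹) (hε0 : Bc * P.Λ ^ (24 * d + 100) * P.ε ≤ ρ₀)
    (hε1 : Bc * P.Λ ^ (24 * d + 100) * P.ε ≤ et1 P)
    {A B : Set (Cd d)} (D : Decomp (FS μ w) A B) :
    CC P (Ehat P) A (Q.kap l Ξ (zh Ξ)) ↔
      ∃ z : ℂ, ‖z‖ ≤ ρ₀ ∧ Q.kap l Ξ (zh Ξ) + z • zc (Q.ed l) ∈ XX (FS μ w) A := by
  have hl := hP.1
  have hΛ := P.Λ_ge
  have hΛ0 := P.Λ_pos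
  have hΛ1 : 1 ≤ P.Λ := by linarith
  have hsp := sc_s_pos P
  have hrp := sc_r_pos P
  have hsr := Sc.s_le_r P
  have hreX : |Ξ.re - Q.X0 l| ≤ 1 := by rw [hre]; exact hX.hX
  have hO := el_Om hP hreX hs him
  have hb := end_base hS hP hlL hreX hs him
  have hPc := end_Pc hS hP hlL hreX hs him
  have hzero := hS.zero Ξ hO
  have hζ := el_zeta hS hP hlL hO hreX
  have hnk := el_norm_kap hS hP hlL hO
  have hdM := el_dM P
  have hs2 := el_s2 P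
  have hs2' := sc_s2_nonneg P
  have hta := ta_ge Q hl hlL
  have hl2 := one_le_l2 hl
  have hed2 := one_le_l2_ed Q hl hlL
  have hedΛ := el_norm_ed Q hlL
  have hT1 : 0 < P.T1 := pow_pos hΛ0 7
  have het0 : 0 < et1 P := by unfold et1; positivity
  have himabs : |Ξ.im| = P.T1 * l2 l := by
    have hsabs : |s| = 1 := by rcases hs with hs | hs <;> rw [hs] <;> simp
    rw [him, abs_mul, abs_mul, hsabs, one_mul, abs_of_pos hT1, abs_of_pos (by linarith : 0 < l2 l)]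
  have hT1im : P.T1 ≤ |Ξ.im| := by
    rw [himabs]; nlinarith
  have hsing : ∀ n : Zd d, n ≠ 0 → ‖ph Q l zh n Ξ‖ < 2 * P.c →
      et1 P ≤ ‖Ehat P (Q.kap l Ξ (zh Ξ) + zc n)‖ := fun n hn hph =>
    hX.single Ξ hre himabs.le n hn hph (Or.inr hT1im)
  have hbil : bil (Q.kap l Ξ (zh Ξ)) (zc (Q.ed l)) = zh Ξ * (l2 (Q.ed l) : ℂ) := by
    rw [bil_kap_zc]
    have h1 : di (Q.ed l) l = 0 := by
      rw [ga_di_comm]; exact di_ed_self Q l
    rw [h1]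
    unfold l2
    simp
  have hnot : ∀ z : ℂ, ρ₀ ≤ ‖z‖ → ‖z‖ ≤ 4 * P.s →
      Q.kap l Ξ (zh Ξ) + z • zc (Q.ed l) ∉ FS μ w := by
    intro z hz0 hz1
    have h600 : P.Λ ^ 100 * (4 * P.s) ≤ et1 P := by
      have h1 := el_small P
      have h2 : 4 * P.Λ ^ 100 * P.s ≤ 4 * (P.Λ ^ 100 * P.s) := by linarith
      have h3 : P.Λ ^ 100 * P.s * (4 * P.Λ ^ (24 * d + 56)) ≤ 1 := by
        rw [el_s]
        have e : P.Λ ^ (600 * d + 525) = P.Λ ^ 100 * (P.Λ ^ (24 * d + 56) * P.Λ ^ (576 * d + 369)) := by ring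
        rw [e]
        have h4 : (4 : ℝ) ≤ P.Λ ^ (576 * d + 369) := by
          calc (4 : ℝ) ≤ P.Λ ^ 1 := by rw [pow_one]; linarith
            _ ≤ _ := pow_le_pow_right₀ hΛ1 (by omega)
        rw [← div_eq_mul_inv, div_mul_eq_mul_div, div_le_one (by positivity)]
        have h5 : 0 < P.Λ ^ 100 * P.Λ ^ (24 * d + 56) := by positivity
        nlinarith
      unfold et1
      rw [← one_div, le_div_iff₀ (by positivity)]
      linarith
    have h601 : 4 * P.s ≤ (P.Λ ^ 100)⁻¹ := by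
      rw [← one_div, le_div_iff₀ (by positivity)]
      have h1 : et1 P ≤ 1 := by
        unfold et1
        exact inv_le_one_of_one_le₀ (one_le_pow₀ hΛ1)
      linarith
    exact notmem_sheet hS hP hlL hcc hm₁ hm₁1 hB False hO (Ξ₀ := Ξ) (fun h => h.elim) (fun h => h.elim)
      het0 (η₂ := 1) one_pos (fun n hn hph _ => ⟨Or.inr hT1im, hsing n hn hph⟩) (fun h => h.elim)
      hρ₀ h600 h601 (fun h => h.elim) hε0 hε1 (fun h => h.elim) hz0 hz1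
  obtain ⟨S, a, c', hL⟩ := (eff_Ehat P).lmat _ hb.1
  have h0S : (0 : Zd d) ∈ S := zero_mem hL hb.2.2
  set p : Cd d := Q.kap l Ξ (zh Ξ) with hp
  have hpp : ‖p - p‖ ≤ P.r := by rw [sub_self, norm_zero]; exact hrp.le
  have haff : ∀ m ∈ S, m ≠ 0 → ∀ k : Cd d, ‖k - p‖ ≤ 8 * P.s →
      et1 P / 2 ≤ ‖aff p (a m) (c' m) k‖ := by
    intro m hm hm0 k hk
    have h1 : et1 P ≤ ‖Ehat P (p + zc m)‖ := hsing m hm0 ((hL.mem m).mp hm)
    have h2 := hL.approx m hm p hpp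
    have h3 : et1 P - P.s / 4 ≤ ‖aff p (a m) (c' m) p‖ := by
      have := norm_sub_norm_le (Ehat P (p + zc m)) (aff p (a m) (c' m) p)
      linarith
    have h4 := C2.aff_move hL.lm hm p (k - p)
    rw [add_sub_cancel] at h4
    have h5 : (d : ℝ) * P.M * ‖k - p‖ ≤ 8 * ((d : ℝ) * P.M * P.s) := by
      have hM : 0 ≤ (d : ℝ) * P.M := by
        have : 0 < P.M := pow_pos hΛ0 27
        positivity
      calc (d : ℝ) * P.M * ‖k - p‖ ≤ (d : ℝ) * P.M * (8 * P.s) := mul_le_mul_of_nonneg_left hk hM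
        _ = _ := by ring
    linarith
  have hρs : ρ₀ * P.Λ ≤ P.s := by
    rw [el_s]
    calc ρ₀ * P.Λ ≤ (P.Λ ^ (600 * d + 700))⁻¹ * P.Λ := mul_le_mul_of_nonneg_right hρ₁ hΛ0.le
      _ ≤ (P.Λ ^ (600 * d + 525))⁻¹ := by
          have e : P.Λ ^ (600 * d + 700) = P.Λ ^ (600 * d + 525) * P.Λ * P.Λ ^ 174 := by ring
          rw [e]
          have h1 : 1 ≤ P.Λ ^ 174 := one_le_pow₀ hΛ1
          rw [inv_mul_le_iff₀ (by positivity)]
          have h2 : P.Λ ^ (600 * d + 525) * P.Λ * P.Λ ^ 174 * (P.Λ ^ (600 * d + 525))⁻¹ = P.Λ * P.Λ ^ 174 := by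
            field_simp
          rw [h2]
          nlinarith
  have hdist : ∀ z : ℂ, ‖z‖ ≤ ρ₀ → ‖p + z • zc (Q.ed l) - p‖ ≤ P.s := by
    intro z hz
    rw [add_sub_cancel_left, norm_smul, el_norm_zc]
    calc ‖z‖ * ‖Q.ed l‖ ≤ ρ₀ * P.Λ := mul_le_mul hz hedΛ (norm_nonneg _) hρ₀.le
      _ ≤ P.s := hρs
  have hgood : ∀ z : ℂ, ‖z‖ ≤ ρ₀ → p + z • zc (Q.ed l) ∈ FS μ w →
      Good P (Ehat P) (p + z • zc (Q.ed l)) := by
    intro z hz hF
    have h1 := hdist z hz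
    have h2 := good_of_iso hL h0S (g := p + z • zc (Q.ed l)) (by linarith) hF
      (by rw [zc_zero, add_zero]; exact hF) (by
        intro m hm hm0
        have := haff m hm hm0 _ (by linarith)
        linarith)
    rwa [zc_zero, add_zero] at h2
  have hex : ∃ z : ℂ, ‖z‖ ≤ ρ₀ ∧ p + z • zc (Q.ed l) ∈ FS μ w := by
    set v : Cd d := ((1 / P.Λ : ℝ) : ℂ) • zc (Q.ed l) with hv
    have hvn : ‖v‖ ≤ 1 := by
      rw [hv, norm_smul, el_norm_zc, Complex.norm_real, Real.norm_of_nonneg (by positivity),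
        one_div, inv_mul_le_iff₀ hΛ0, mul_one]
      exact hedΛ
    obtain ⟨t, ht, hta2⟩ := hL.grad 0 h0S
    rw [zc_zero, add_zero] at hta2
    have hζ1 : P.Λ ^ 19 / 2 ≤ ‖zh Ξ‖ := by
      have h1 := Complex.abs_im_le_norm (zh Ξ)
      have h2 := abs_sub_abs_le_abs_sub (Q.ta l) ((zh Ξ).im)
      rw [abs_sub_comm] at h2
      have h3 := ga_pow P (show 0 < 19 by norm_num)
      rw [pow_zero] at h3
      linarith
    have hbv : 2 * P.Λ ≤ ‖bil p v‖ := by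
      have h1 : bil p v = ((1 / P.Λ : ℝ) : ℂ) * (zh Ξ * (l2 (Q.ed l) : ℂ)) := by
        rw [hv, C2.bil_smul, hbil]
      rw [h1, norm_mul, norm_mul, Complex.norm_real, Complex.norm_real,
        Real.norm_of_nonneg (by positivity), Real.norm_of_nonneg (by linarith : 0 ≤ l2 (Q.ed l))]
      rw [one_div, ← div_eq_inv_mul, le_div_iff₀ hΛ0]
      have h2 : ‖zh Ξ‖ ≤ ‖zh Ξ‖ * l2 (Q.ed l) := le_mul_of_one_le_right (norm_nonneg _) hed2
      have h3 := ga_pow P (show 2 < 19 by norm_num)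
      have h4 := ga_pow_pos P 2
      have h5 : 2 * P.Λ * P.Λ = 2 * P.Λ ^ 2 := by ring
      linarith
    have hav : 1 ≤ ‖bil (a 0) v‖ := by
      have h1 : bil (a 0) v = t * bil p v + bil (a 0 - t • p) v := by
        rw [C2.sub_bil, C2.smul_bil]; ring
      have h2 := C2.bil_le (a 0 - t • p) v
      have h3 : (d : ℝ) * ‖a 0 - t • p‖ * ‖v‖ ≤ d := by
        have hd0 : (0 : ℝ) ≤ d := Nat.cast_nonneg _
        calc (d : ℝ) * ‖a 0 - t • p‖ * ‖v‖ ≤ d * 1 * 1 := by gcongr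
          _ = d := by ring
      have h4 : P.Λ ≤ ‖t * bil p v‖ := by
        rw [norm_mul]
        nlinarith [norm_nonneg (bil p v), norm_nonneg t]
      have h5 := norm_sub_norm_le (t * bil p v) (-(bil (a 0 - t • p) v))
      rw [norm_neg, sub_neg_eq_add, ← h1] at h5
      have h6 := ga_dLam P
      have h7 := ga_d P
      linarith
    have hcz : ‖aff p (a 0) (c' 0) p‖ ≤ P.s / 4 := by
      have h1 := hL.approx 0 h0S p hpp
      rw [zc_zero, add_zero, hzero, zero_sub, norm_neg] at h1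
      exact h1
    have k1 : ∀ m ∈ S, m ≠ 0 → ∀ z : ℂ, ‖z‖ ≤ 4 * P.s →
        P.s ≤ ‖aff p (a m) (c' m) (p + z • v)‖ := by
      intro m hm hm0 z hz
      have h1 : ‖p + z • v - p‖ ≤ 8 * P.s := by
        rw [add_sub_cancel_left, norm_smul]
        have h3 : ‖z‖ * ‖v‖ ≤ 4 * P.s * 1 := mul_le_mul hz hvn (norm_nonneg _) (by positivity)
        linarith only [h3, hsp]
      have h2 := haff m hm hm0 _ h1
      linarith only [h2, hs2, hs2', het0]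
    have k2 : 4 * P.s ≤ 4 * P.s * ‖bil (a 0) v‖ := le_mul_of_one_le_right (by positivity) hav
    have k3 : ‖aff p (a 0) (c' 0) p‖ ≤ 4 * P.s * ‖bil (a 0) v‖ / 4 := by
      linarith only [hcz, k2, hsp]
    have k4 : ‖p - p‖ + 4 * P.s ≤ P.r := by
      rw [sub_self, norm_zero]; linarith only [hsr, hsp]
    obtain ⟨z, hz, hzF⟩ := hL.lm.lm3 0 h0S p v (4 * P.s) (by positivity) hvn k4 k1 k2 k3
    have e1 : z • v = (z * ((1 / P.Λ : ℝ) : ℂ)) • zc (Q.ed l) := by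
      rw [hv, smul_smul]
    rw [e1] at hzF
    refine ⟨_, ?_, hzF⟩
    by_contra hcon
    push Not at hcon
    refine hnot _ hcon.le ?_ hzF
    rw [norm_mul, Complex.norm_real, Real.norm_of_nonneg (by positivity)]
    have h1 : 1 / P.Λ ≤ 1 := by rw [div_le_one hΛ0]; exact hΛ1
    calc ‖z‖ * (1 / P.Λ) ≤ (4 * P.s / 2) * 1 := mul_le_mul hz h1 (by positivity) (by linarith)
      _ ≤ 4 * P.s := by linarith
  constructor
  · intro hA
    obtain ⟨z, hz, hF⟩ := hex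
    exact ⟨z, hz, CC_mem P (eff_Ehat P) D hb hA ((hdist z hz).trans (by linarith)) (hgood z hz hF)⟩
  · rintro ⟨z, hz, hz'⟩
    have hF := XX_subset_F D hz'
    have hg := hgood z hz hF
    have hd1 := hdist z hz
    have hreg : Regular P (p + z • zc (Q.ed l)) := by
      refine regular_near_Pc (g := 2 * P.G) (by linarith [P.G_pos]) hPc ?_
      have h1 := el_nsq_le (p + z • zc (Q.ed l) - p)
      have h2 := el_nsq_le p
      have hdΛ : (d : ℝ) ≤ P.Λ := sc_d_le P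
      have h3 : nsq (p + z • zc (Q.ed l) - p) ≤ P.Λ * P.s ^ 2 := by
        refine h1.trans ?_
        gcongr
      have h4 : nsq p ≤ P.Λ * (P.Λ ^ 22) ^ 2 := by
        refine h2.trans ?_
        gcongr
      have h5 : 0 ≤ nsq p := Finset.sum_nonneg fun i _ => sq_nonneg _
      calc nsq (p + z • zc (Q.ed l) - p) * nsq p ≤ (P.Λ * P.s ^ 2) * (P.Λ * (P.Λ ^ 22) ^ 2) :=
            mul_le_mul h3 h4 h5 (by positivity)
        _ = (P.Λ ^ 23 * P.s) ^ 2 := by ring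
        _ ≤ 1 := by
            apply pow_le_one₀ (by positivity)
            have h6 : P.Λ ^ 23 ≤ P.Λ ^ (27 * d + 30) := pow_le_pow_right₀ hΛ1 (by omega)
            have h7 := el_small P
            have h8 : et1 P ≤ 1 := by
              unfold et1
              exact inv_le_one_of_one_le₀ (one_le_pow₀ hΛ1)
            have h9 := mul_le_mul_of_nonneg_right h6 hsp.le
            linarith
    exact (CC_loc P (eff_Ehat P) D hb ⟨hreg, hg.2.1, hg.2.2.1⟩ (hd1.trans (by linarith))).mpr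
      (CC_of_good P hg hz')

end Fermi
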