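import Pool.Agent.Lib.Fermi.GeoDefs

/-!
# Elementary lemmas for the gluing and slab parts (chunks H, I)
-/

open scoped BigOperators Topology
open Set Filter

noncomputable section

namespace Fermi

variable {d : ℕ} {μ : ℂ} {w : Zd d → ℂ}
variable {P : Sc d μ w} {Q : Dirs P}

lemma ga_Lam_pos (P : Sc d μ w) : 0 < P.Λ := by
  have := P.hΛ
  linarith

lemma ga_one_le (P : Sc d μ w) : 1 ≤ P.Λ := by
  have := P.hΛ
  linarith

/-- consecutive powers -/
lemma ga_pow (P : Sc d μ w) {n m : ℕ} (h : n < m) : 10 ^ 7 * P.Λ ^ n ≤ P.Λ ^ m := by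
  have h1 : P.Λ ^ (n + 1) ≤ P.Λ ^ m := pow_le_pow_right₀ (ga_one_le P) h
  refine le_trans ?_ h1
  rw [pow_succ, mul_comm]
  exact mul_le_mul_of_nonneg_left P.hΛ (pow_nonneg (ga_Lam_pos P).le n)

lemma ga_pow_pos (P : Sc d μ w) (n : ℕ) : 0 < P.Λ ^ n := pow_pos (ga_Lam_pos P) n

lemma ga_one_le_pow (P : Sc d μ w) (n : ℕ) : 1 ≤ P.Λ ^ n := one_le_pow₀ (ga_one_le P)

lemma ga_d (P : Sc d μ w) : (3 : ℝ) ≤ d := by exact_mod_cast P.hd

lemma ga_L (P : Sc d μ w) : (30 : ℝ) ≤ P.L := by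
  have h1 : ((10 * d : ℕ) : ℝ) ≤ P.L := by exact_mod_cast P.hL
  push_cast at h1
  have := ga_d P
  linarith

lemma ga_dL2 (P : Sc d μ w) : 300 * (d : ℝ) * (P.L : ℝ) ^ 2 ≤ P.Λ := by
  have h1 := P.hLΛ
  have h2 := ga_d P
  have h3 : 0 ≤ (P.L : ℝ) ^ 2 := by positivity
  nlinarith [mul_nonneg (mul_nonneg (by linarith : (0:ℝ) ≤ d) (by linarith : (0:ℝ) ≤ (d:ℝ) - 3)) h3]

lemma ga_dL (P : Sc d μ w) : 9000 * ((d : ℝ) * (P.L : ℝ)) ≤ P.Λ := by
  have h1 := ga_dL2 P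
  have h2 := ga_L P
  have h3 := ga_d P
  have h4 : 0 ≤ (d : ℝ) * (P.L : ℝ) := by positivity
  nlinarith [mul_nonneg h4 (by linarith : (0:ℝ) ≤ (P.L:ℝ) - 30)]

lemma ga_LLam (P : Sc d μ w) : 27000 * (P.L : ℝ) ≤ P.Λ := by
  have h1 := ga_dL P
  have h2 := ga_L P
  have h3 := ga_d P
  nlinarith [mul_nonneg (by linarith : (0:ℝ) ≤ (P.L:ℝ)) (by linarith : (0:ℝ) ≤ (d:ℝ) - 3)]

lemma ga_dLam (P : Sc d μ w) : 270000 * (d : ℝ) ≤ P.Λ := by
  have h1 := ga_dL P
  have h2 := ga_L P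
  have h3 := ga_d P
  nlinarith [mul_nonneg (by linarith : (0:ℝ) ≤ (d:ℝ)) (by linarith : (0:ℝ) ≤ (P.L:ℝ) - 30)]

/-! ### the forms -/

lemma ga_dt_add (x y : Fin d → ℝ) (n : Zd d) : dt (fun j => x j + y j) n = dt x n + dt y n := by
  unfold dt
  rw [← Finset.sum_add_distrib]
  exact Finset.sum_congr rfl fun j _ => by ring

lemma ga_dt_smul (c : ℝ) (x : Fin d → ℝ) (n : Zd d) : dt (fun j => c * x j) n = c * dt x n := by
  unfold dt
  rw [Finset.mul_sum]
  exact Finset.sum_congr rfl fun j _ => by ring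

lemma ga_dt_int (c : ℝ) (m n : Zd d) : dt (fun j => c * (m j : ℝ)) n = c * (di m n : ℝ) := by
  rw [ga_dt_smul]
  unfold dt di
  push_cast
  rfl

lemma ga_dt_zsmul (x : Fin d → ℝ) (i : ℤ) (n : Zd d) : dt x (i • n) = i * dt x n := by
  unfold dt
  rw [Finset.mul_sum]
  exact Finset.sum_congr rfl fun j _ => by
    simp only [Pi.smul_apply, zsmul_eq_mul, Int.cast_mul, Int.cast_id]
    ring

lemma ga_di_comm (m n : Zd d) : di m n = di n m := by
  unfold di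
  exact Finset.sum_congr rfl fun j _ => by ring

lemma ga_di_smul_right (m n : Zd d) (i : ℤ) : di m (i • n) = i * di m n := by
  unfold di
  rw [Finset.mul_sum]
  exact Finset.sum_congr rfl fun j _ => by
    simp only [Pi.smul_apply, zsmul_eq_mul, Int.cast_id]
    ring

lemma ga_di_smul_left (m n : Zd d) (i : ℤ) : di (i • m) n = i * di m n := by
  rw [ga_di_comm, ga_di_smul_right, ga_di_comm]

lemma ga_di_sub_left (m m' n : Zd d) : di (m - m') n = di m n - di m' n := by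
  unfold di
  rw [← Finset.sum_sub_distrib]
  exact Finset.sum_congr rfl fun j _ => by
    simp only [Pi.sub_apply]
    ring

lemma ga_di_add_left (m m' n : Zd d) : di (m + m') n = di m n + di m' n := by
  unfold di
  rw [← Finset.sum_add_distrib]
  exact Finset.sum_congr rfl fun j _ => by
    simp only [Pi.add_apply]
    ring

lemma ga_di_self_pos {n : Zd d} (hn : n ≠ 0) : 0 < di n n := by
  obtain ⟨j, hj⟩ : ∃ j, n j ≠ 0 := by
    by_contra h
    push Not at h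
    exact hn (funext h)
  unfold di
  refine Finset.sum_pos' (fun i _ => mul_self_nonneg _) ⟨j, Finset.mem_univ j, ?_⟩
  exact mul_self_pos.mpr hj

lemma ga_abs_le_norm (l : Zd d) (j : Fin d) : |(l j : ℝ)| ≤ ‖l‖ := by
  have := norm_le_pi_norm l j
  rwa [Int.norm_eq_abs] at this

lemma ga_dt_le {x : Fin d → ℝ} {c : ℝ} (hx : ∀ j, |x j| ≤ c) (l : Zd d) :
    |dt x l| ≤ d * c * ‖l‖ := by
  unfold dt
  refine (Finset.abs_sum_le_sum_abs _ _).trans ?_
  have : ∀ j ∈ (Finset.univ : Finset (Fin d)), |x j * (l j : ℝ)| ≤ c * ‖l‖ := by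
    intro j _
    rw [abs_mul]
    exact mul_le_mul (hx j) (ga_abs_le_norm l j) (abs_nonneg _) ((abs_nonneg _).trans (hx j))
  refine (Finset.sum_le_sum this).trans ?_
  rw [Finset.sum_const, Finset.card_univ, Fintype.card_fin, nsmul_eq_mul]
  apply le_of_eq
  ring

lemma ga_di_le {l l' : Zd d} {c : ℝ} (h : ‖l‖ ≤ c) (h' : ‖l'‖ ≤ c) :
    |(di l l' : ℝ)| ≤ d * c ^ 2 := by
  have hc : 0 ≤ c := (norm_nonneg _).trans h
  have h1 := ga_dt_le (x := fun j => (l j : ℝ)) (c := c)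
    (fun j => (ga_abs_le_norm l j).trans h) l'
  have h2 : dt (fun j => (l j : ℝ)) l' = (di l l' : ℝ) := by
    have := ga_dt_int (d := d) 1 l l'
    simpa using this
  rw [h2] at h1
  refine h1.trans ?_
  have h3 : (d : ℝ) * c * ‖l'‖ ≤ d * c * c := by
    apply mul_le_mul_of_nonneg_left h'
    positivity
  calc _ ≤ (d : ℝ) * c * c := h3
    _ = d * c ^ 2 := by ring

/-- small lattice vectors have small products -/
lemma ga_di_small (P : Sc d μ w) {l l' : Zd d} (h : ‖l‖ ≤ P.L) (h' : ‖l'‖ ≤ P.L) :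
    300 * |(di l l' : ℝ)| ≤ P.Λ := by
  have h1 := ga_di_le h h'
  have h2 := ga_dL2 P
  linarith

lemma ga_one_le_abs {i : ℤ} (hi : i ≠ 0) : (1 : ℝ) ≤ |(i : ℝ)| := by
  exact_mod_cast Int.one_le_abs hi

/-! ### the line -/

/-- the parameter at which the line meets `l^⊥` -/
def sg (Q : Dirs P) (l : Zd d) : ℝ := -(P.tt * (di Q.a l : ℝ) / (di Q.e l : ℝ))

lemma ga_dt_yl (Q : Dirs P) (σ : ℝ) (l : Zd d) :
    dt (Q.yl σ) l = P.tt * (di Q.a l : ℝ) + σ * (di Q.e l : ℝ) := by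
  unfold Dirs.yl
  rw [ga_dt_add, ga_dt_int, ga_dt_int]

lemma ga_dt_yl' (Q : Dirs P) (σ : ℝ) {l : Zd d} (hl : l ≠ 0) (hL : ‖l‖ ≤ P.L) :
    dt (Q.yl σ) l = (di Q.e l : ℝ) * (σ - sg Q l) := by
  have h : (di Q.e l : ℝ) ≠ 0 := by exact_mod_cast Q.he l hl hL
  rw [ga_dt_yl, sg]
  field_simp
  ring

lemma ga_yc (Q : Dirs P) {l : Zd d} (hl : l ≠ 0) (hL : ‖l‖ ≤ P.L) :
    Q.yc l = Q.yl (sg Q l) := by
  have h : (di Q.e l : ℝ) ≠ 0 := by exact_mod_cast Q.he l hl hL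
  funext j
  unfold Dirs.yc Dirs.yl Dirs.ed sg
  simp only [Pi.sub_apply, Pi.smul_apply, smul_eq_mul, Int.cast_sub, Int.cast_mul]
  field_simp
  ring

lemma ga_tt_pos (P : Sc d μ w) : 0 < P.tt := ga_pow_pos P 20

lemma ga_di_e_one (Q : Dirs P) {l : Zd d} (hl : l ≠ 0) (hL : ‖l‖ ≤ P.L) :
    1 ≤ |(di Q.e l : ℝ)| := ga_one_le_abs (Q.he l hl hL)

lemma ga_sg_le (Q : Dirs P) {l : Zd d} (hl : l ≠ 0) (hL : ‖l‖ ≤ P.L) :
    |sg Q l| ≤ P.Λ ^ 21 := by
  have h1 := ga_di_e_one Q hl hL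
  have h2 := Q.ba l hL
  unfold sg
  rw [abs_neg, abs_div, abs_mul, abs_of_pos (ga_tt_pos P)]
  have h3 : P.tt * |(di Q.a l : ℝ)| ≤ P.Λ ^ 21 := by
    have : P.Λ ^ 21 = P.tt * P.Λ := by unfold Sc.tt; ring
    rw [this]
    exact mul_le_mul_of_nonneg_left h2 (ga_tt_pos P).le
  rw [div_le_iff₀ (by linarith)]
  have := ga_pow_pos P 21
  nlinarith

/-- nonparallel vectors are separated -/
lemma ga_nonpar (Q : Dirs P) {l l' : Zd d} (hl : l ≠ 0) (hL : ‖l‖ ≤ P.L) (hn : di Q.e l * di Q.a l' ≠ di Q.e l' * di Q.a l) :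
    P.Λ ^ 19 ≤ |dt (Q.yc l) l'| := by
  have hel : (di Q.e l : ℝ) ≠ 0 := by exact_mod_cast Q.he l hl hL
  have h1 : dt (Q.yc l) l' = P.tt * ((di Q.e l * di Q.a l' - di Q.e l' * di Q.a l : ℤ) : ℝ) /
      (di Q.e l : ℝ) := by
    rw [ga_yc Q hl hL, ga_dt_yl, sg]
    push_cast
    field_simp
    ring
  have h2 : (1 : ℝ) ≤ |((di Q.e l * di Q.a l' - di Q.e l' * di Q.a l : ℤ) : ℝ)| :=
    ga_one_le_abs (sub_ne_zero.mpr hn)
  rw [h1, abs_div, abs_mul, abs_of_pos (ga_tt_pos P), le_div_iff₀ (abs_pos.mpr hel)]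
  have h3 := Q.be l hL
  have h4 : P.tt = P.Λ ^ 19 * P.Λ := by unfold Sc.tt; ring
  calc P.Λ ^ 19 * |(di Q.e l : ℝ)| ≤ P.Λ ^ 19 * P.Λ :=
        mul_le_mul_of_nonneg_left h3 (ga_pow_pos P 19).le
    _ = P.tt * 1 := by rw [h4, mul_one]
    _ ≤ _ := mul_le_mul_of_nonneg_left h2 (ga_tt_pos P).le

/-- parallel vectors have the same parameter -/
lemma ga_par_sg (Q : Dirs P) {l l' : Zd d} (hl : l ≠ 0) (hL : ‖l‖ ≤ P.L) (hl' : l' ≠ 0)
    (hL' : ‖l'‖ ≤ P.L) (hn : di Q.e l * di Q.a l' = di Q.e l' * di Q.a l) :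
    sg Q l' = sg Q l := by
  have hel : (di Q.e l : ℝ) ≠ 0 := by exact_mod_cast Q.he l hl hL
  have hel' : (di Q.e l' : ℝ) ≠ 0 := by exact_mod_cast Q.he l' hl' hL'
  have h : (di Q.e l : ℝ) * (di Q.a l' : ℝ) = (di Q.e l' : ℝ) * (di Q.a l : ℝ) := by
    exact_mod_cast hn
  unfold sg
  field_simp
  linear_combination (-P.tt) * h

lemma ga_G_pos (P : Sc d μ w) : 0 < P.G := ga_pow_pos P 5

/-- the signs of the imaginary parts on the two sides of the slab of `l` -/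
lemma ga_cross (Q : Dirs P) {l : Zd d} (hl : l ≠ 0) (hL : ‖l‖ ≤ P.L) {σ σ₀ e : ℝ}
    (he : e = 1 ∨ e = -1) (hσ : |σ - sg Q l| ≤ P.G)
    (h1 : 0 < e * ((di Q.e l : ℝ) * (σ₀ - sg Q l)))
    (h2 : ∀ l' : Zd d, l' ≠ 0 → ‖l'‖ ≤ P.L → sg Q l' ≠ sg Q l →
      0 < (σ₀ - sg Q l') * (sg Q l - sg Q l'))
    {l' : Zd d} (hl' : l' ≠ 0) (hL' : ‖l'‖ ≤ P.L) :
    2 * P.G ≤ |dt (fun j => Q.yl σ j + e * P.T1 * (l j : ℝ)) l'| ∧
      0 < dt (fun j => Q.yl σ j + e * P.T1 * (l j : ℝ)) l' * dt (Q.yl σ₀) l' := by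
  have hT1 : 0 < P.T1 := ga_pow_pos P 7
  have hGp := ga_G_pos P
  have h56 : 10 ^ 7 * P.Λ ^ 5 ≤ P.Λ ^ 6 := ga_pow P (by norm_num)
  have h67 : 10 ^ 7 * P.Λ ^ 6 ≤ P.Λ ^ 7 := ga_pow P (by norm_num)
  have h78 : 10 ^ 7 * P.Λ ^ 7 ≤ P.Λ ^ 8 := ga_pow P (by norm_num)
  have h819 : 10 ^ 7 * P.Λ ^ 8 ≤ P.Λ ^ 19 := ga_pow P (by norm_num)
  have p5 := ga_pow_pos P 5
  have p6 := ga_pow_pos P 6
  have p7 := ga_pow_pos P 7
  have p8 := ga_pow_pos P 8
  have eG : P.G = P.Λ ^ 5 := rfl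
  have eT : P.T1 = P.Λ ^ 7 := rfl
  have hea : |e| = 1 := by rcases he with rfl | rfl <;> simp
  have hee : e * e = 1 := by rcases he with rfl | rfl <;> norm_num
  have key : ∀ m : Zd d, m ≠ 0 → ‖m‖ ≤ P.L →
      dt (fun j => Q.yl σ j + e * P.T1 * (l j : ℝ)) m =
        (di Q.e m : ℝ) * (σ - sg Q l) + (di Q.e m : ℝ) * (sg Q l - sg Q m) +
          e * P.T1 * (di l m : ℝ) := by
    intro m hm hmL
    rw [ga_dt_add, ga_dt_int, ga_dt_yl' Q σ hm hmL]
    ring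
  have hsmall : ∀ m : Zd d, ‖m‖ ≤ P.L → |(di Q.e m : ℝ) * (σ - sg Q l)| ≤ P.Λ ^ 6 := by
    intro m hm
    rw [abs_mul]
    have h3 := Q.be m hm
    calc |(di Q.e m : ℝ)| * |σ - sg Q l| ≤ P.Λ * P.G :=
          mul_le_mul h3 hσ (abs_nonneg _) (ga_Lam_pos P).le
      _ = P.Λ ^ 6 := by rw [eG]; ring
  by_cases hn : di Q.e l * di Q.a l' = di Q.e l' * di Q.a l
  · -- parallel
    have hsg : sg Q l' = sg Q l := ga_par_sg Q hl hL hl' hL' hn
    obtain ⟨i, j, hi, hj, hij⟩ := Q.hea l l' hl hL hl' hL' hn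
    have hdd : (di l l' : ℝ) ≠ 0 := by
      have h4 : (i : ℝ) * (di l l : ℝ) = (j : ℝ) * (di l l' : ℝ) := by
        have : di l (i • l) = di l (j • l') := by rw [hij]
        rw [ga_di_smul_right, ga_di_smul_right] at this
        exact_mod_cast this
      intro h0
      rw [h0, mul_zero] at h4
      have h5 : (di l l : ℝ) ≠ 0 := by exact_mod_cast (ga_di_self_pos hl).ne'
      have h6 : (i : ℝ) ≠ 0 := by exact_mod_cast hi
      exact (mul_ne_zero h6 h5) h4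
    have hdd1 : 1 ≤ |(di l l' : ℝ)| := ga_one_le_abs (by exact_mod_cast hdd)
    constructor
    · rw [key l' hl' hL', hsg, sub_self, mul_zero, add_zero]
      have h7 : P.T1 ≤ |e * P.T1 * (di l l' : ℝ)| := by
        rw [abs_mul, abs_mul, hea, abs_of_pos hT1, one_mul]
        nlinarith
      have h8 := hsmall l' hL'
      have h9 := abs_add_le ((di Q.e l' : ℝ) * (σ - sg Q l) + e * P.T1 * (di l l' : ℝ))
        (-((di Q.e l' : ℝ) * (σ - sg Q l)))
      rw [abs_neg] at h9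
      have h10 : (di Q.e l' : ℝ) * (σ - sg Q l) + e * P.T1 * (di l l' : ℝ) +
          -((di Q.e l' : ℝ) * (σ - sg Q l)) = e * P.T1 * (di l l' : ℝ) := by ring
      rw [h10] at h9
      rw [eG]
      linarith
    · have hy : ∀ y : Fin d → ℝ, (i : ℝ) * dt y l = (j : ℝ) * dt y l' := by
        intro y
        rw [← ga_dt_zsmul, ← ga_dt_zsmul, hij]
      have hjr : (j : ℝ) ≠ 0 := by exact_mod_cast hj
      have hir : (i : ℝ) ≠ 0 := by exact_mod_cast hi
      set y := fun j => Q.yl σ j + e * P.T1 * (l j : ℝ) with hyd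
      have h11 : 0 < dt y l * dt (Q.yl σ₀) l := by
        rw [key l hl hL, ga_dt_yl' Q σ₀ hl hL, sub_self, mul_zero, add_zero]
        have h12 : (1 : ℝ) ≤ (di l l : ℝ) := by exact_mod_cast (ga_di_self_pos hl)
        have h13 := hsmall l hL
        have h14 : 0 < e * ((di Q.e l : ℝ) * (σ - sg Q l)) + P.T1 * (di l l : ℝ) := by
          have h15 : |e * ((di Q.e l : ℝ) * (σ - sg Q l))| ≤ P.Λ ^ 6 := by
            rw [abs_mul, hea, one_mul]; exact h13
          have h16 := neg_abs_le (e * ((di Q.e l : ℝ) * (σ - sg Q l)))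
          have h17 : P.Λ ^ 7 ≤ P.T1 * (di l l : ℝ) := by
            rw [eT]; nlinarith
          linarith
        have h18 := mul_pos h14 h1
        have h19 : (e * ((di Q.e l : ℝ) * (σ - sg Q l)) + P.T1 * (di l l : ℝ)) *
            (e * ((di Q.e l : ℝ) * (σ₀ - sg Q l))) = (e * e) * (((di Q.e l : ℝ) * (σ - sg Q l))) *
            ((di Q.e l : ℝ) * (σ₀ - sg Q l)) + e * P.T1 * (di l l : ℝ) *
              ((di Q.e l : ℝ) * (σ₀ - sg Q l)) := by ring
        rw [h19, hee, one_mul] at h18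
        linarith
      have h20 : (j : ℝ) ^ 2 * (dt y l' * dt (Q.yl σ₀) l') =
          (i : ℝ) ^ 2 * (dt y l * dt (Q.yl σ₀) l) := by
        have a1 := hy y
        have a2 := hy (Q.yl σ₀)
        calc (j : ℝ) ^ 2 * (dt y l' * dt (Q.yl σ₀) l') =
              ((j : ℝ) * dt y l') * ((j : ℝ) * dt (Q.yl σ₀) l') := by ring
          _ = ((i : ℝ) * dt y l) * ((i : ℝ) * dt (Q.yl σ₀) l) := by rw [← a1, ← a2]
          _ = _ := by ring
      have h21 : 0 < (j : ℝ) ^ 2 := by positivity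
      have h22 : 0 < (i : ℝ) ^ 2 := by positivity
      have h23 : 0 < (j : ℝ) ^ 2 * (dt y l' * dt (Q.yl σ₀) l') := by
        rw [h20]; exact mul_pos h22 h11
      exact (mul_pos_iff_of_pos_left h21).mp h23
  · -- not parallel
    have h3 := ga_nonpar Q hl hL hn
    have h4 : dt (Q.yc l) l' = (di Q.e l' : ℝ) * (sg Q l - sg Q l') := by
      rw [ga_yc Q hl hL, ga_dt_yl' Q _ hl' hL']
    rw [h4] at h3
    have h5 : sg Q l' ≠ sg Q l := by
      intro h0
      rw [h0, sub_self, mul_zero, abs_zero] at h3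
      linarith [ga_pow_pos P 19]
    have h6 := h2 l' hl' hL' h5
    have h7 := hsmall l' hL'
    have h8 : |e * P.T1 * (di l l' : ℝ)| ≤ P.Λ ^ 8 := by
      rw [abs_mul, abs_mul, hea, abs_of_pos hT1, one_mul]
      have h9 := ga_di_small P hL hL'
      have h10 := abs_nonneg (di l l' : ℝ)
      calc P.T1 * |(di l l' : ℝ)| ≤ P.T1 * P.Λ := by
            apply mul_le_mul_of_nonneg_left _ hT1.le
            linarith
        _ = P.Λ ^ 8 := by rw [eT]; ring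
    set X := (di Q.e l' : ℝ) * (sg Q l - sg Q l') with hX
    set u := (di Q.e l' : ℝ) * (σ - sg Q l) with hu
    set v := e * P.T1 * (di l l' : ℝ) with hv
    have hdX : dt (fun j => Q.yl σ j + e * P.T1 * (l j : ℝ)) l' = u + X + v := by
      rw [key l' hl' hL']
    have hb1 := abs_le.mp h7
    have hb2 := abs_le.mp h8
    rw [hdX]
    have hY : dt (Q.yl σ₀) l' = (di Q.e l' : ℝ) * (σ₀ - sg Q l') := ga_dt_yl' Q σ₀ hl' hL'
    have hXY : 0 < X * dt (Q.yl σ₀) l' := by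
      rw [hY, hX]
      have h11 : 0 < (di Q.e l' : ℝ) ^ 2 := by
        have := ga_di_e_one Q hl' hL'
        have h12 : (di Q.e l' : ℝ) ≠ 0 := by
          intro h0; rw [h0, abs_zero] at this; linarith
        positivity
      have : (di Q.e l' : ℝ) * (sg Q l - sg Q l') * ((di Q.e l' : ℝ) * (σ₀ - sg Q l')) =
          (di Q.e l' : ℝ) ^ 2 * ((σ₀ - sg Q l') * (sg Q l - sg Q l')) := by ring
      rw [this]
      exact mul_pos h11 h6
    rcases lt_or_ge 0 X with hpos | hneg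
    · rw [abs_of_pos hpos] at h3
      have hs : 2 * P.G ≤ u + X + v := by rw [eG]; linarith
      have hs0 : 0 < u + X + v := by linarith
      refine ⟨hs.trans (le_abs_self _), ?_⟩
      exact mul_pos hs0 ((mul_pos_iff_of_pos_left hpos).mp hXY)
    · have hneg' : X < 0 := lt_of_le_of_ne hneg (by rintro h0; rw [h0, abs_zero] at h3; linarith [ga_pow_pos P 19])
      rw [abs_of_neg hneg'] at h3
      have hs : u + X + v ≤ -(2 * P.G) := by rw [eG]; linarith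
      have hs0 : u + X + v < 0 := by linarith
      refine ⟨by rw [abs_of_neg hs0]; linarith, ?_⟩
      exact mul_pos_of_neg_of_neg hs0 (by
        by_contra h0
        push Not at h0
        linarith [mul_nonpos_of_nonpos_of_nonneg hneg'.le h0])

/-- every nonzero lattice vector is a multiple of a primitive one -/
lemma ga_prim {l : Zd d} (hl : l ≠ 0) : ∃ l₀ : Zd d, Prim l₀ ∧ ‖l₀‖ ≤ ‖l‖ ∧
    ∃ k : ℤ, k ≠ 0 ∧ l = k • l₀ := by
  obtain ⟨j, hj⟩ : ∃ j, l j ≠ 0 := by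
    by_contra h
    push Not at h
    exact hl (funext h)
  obtain ⟨g, hg, hg1⟩ := Finset.extract_gcd l (⟨j, Finset.mem_univ j⟩ : (Finset.univ : Finset (Fin d)).Nonempty)
  set k := (Finset.univ : Finset (Fin d)).gcd l with hk
  have hk0 : k ≠ 0 := by
    intro h0
    exact hj (Finset.gcd_eq_zero_iff.mp h0 j (Finset.mem_univ j))
  have hlk : l = k • g := by
    funext i
    rw [hg i (Finset.mem_univ i)]
    rfl
  refine ⟨g, ⟨?_, ?_⟩, ?_, k, hk0, hlk⟩
  · intro h0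
    rw [h0, smul_zero] at hlk
    exact hl hlk
  · rintro m ⟨i, j', hi, him⟩
    have hdvd : i ∣ j' := by
      have h1 : ∀ x ∈ (Finset.univ : Finset (Fin d)), i ∣ j' * g x := by
        intro x _
        have := congrFun him x
        simp only [Pi.smul_apply, smul_eq_mul] at this
        exact ⟨m x, this.symm⟩
      have h2 := Finset.dvd_gcd h1
      rw [Finset.gcd_mul_left, hg1, mul_one] at h2
      exact (dvd_normalize_iff).mp h2
    obtain ⟨t, ht⟩ := hdvd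
    refine ⟨t, ?_⟩
    funext x
    have := congrFun him x
    simp only [Pi.smul_apply, smul_eq_mul] at this ⊢
    rw [ht, mul_assoc] at this
    exact mul_left_cancel₀ hi this
  · refine (pi_norm_le_iff_of_nonneg (norm_nonneg _)).mpr (fun i => ?_)
    refine le_trans ?_ (norm_le_pi_norm l i)
    have h1 : l i = k * g i := hg i (Finset.mem_univ i)
    rw [h1, norm_mul]
    have h2 : 1 ≤ ‖k‖ := by
      rw [Int.norm_eq_abs]
      exact ga_one_le_abs hk0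
    nlinarith [norm_nonneg (g i)]

end Fermi
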