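import Pool.Agent.Lib.Fermi.GeoDefs

/-!
# Chunk F: regularity of chambers and Thomas points
-/

open scoped BigOperators Topology
open Set Filter

noncomputable section

namespace Fermi

variable {d : ℕ} {μ : ℂ} {w : Zd d → ℂ}
variable {P : Sc d μ w} {Q : Dirs P} {E : Cd d → ℂ} {A B : Set (Cd d)}

/-! ### elementary facts on `dr`, `dt` -/

/-- an integer vector as a real vector -/
private def zr (l : Zd d) : Fin d → ℝ := fun j => (l j : ℝ)

private lemma dt_eq (y : Fin d → ℝ) (l : Zd d) : dt y l = dr y (zr l) := rfl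

private lemma dr_nonneg (x : Fin d → ℝ) : 0 ≤ dr x x :=
  Finset.sum_nonneg fun _ _ => mul_self_nonneg _

private lemma dr_cs (x y : Fin d → ℝ) : (dr x y) ^ 2 ≤ dr x x * dr y y := by
  have h := Finset.sum_mul_sq_le_sq_mul_sq Finset.univ x y
  simpa [dr, sq] using h

private lemma dr_add_left (x y z : Fin d → ℝ) : dr (fun j => x j + y j) z = dr x z + dr y z := by
  simp [dr, add_mul, Finset.sum_add_distrib]

private lemma dr_add_right (x y z : Fin d → ℝ) : dr z (fun j => x j + y j) = dr z x + dr z y := by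
  simp [dr, mul_add, Finset.sum_add_distrib]

private lemma dr_comm (x y : Fin d → ℝ) : dr x y = dr y x := by
  simp [dr, mul_comm]

private lemma dr_smul_left (c : ℝ) (x y : Fin d → ℝ) : dr (fun j => c * x j) y = c * dr x y := by
  simp [dr, Finset.mul_sum, mul_assoc]

private lemma dr_smul_right (c : ℝ) (x y : Fin d → ℝ) : dr x (fun j => c * y j) = c * dr x y := by
  rw [dr_comm, dr_smul_left, dr_comm]

private lemma dr_zr (l m : Zd d) : dr (zr l) (zr m) = (di l m : ℝ) := by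
  simp [dr, zr, di]

private lemma dr_add_self (x y : Fin d → ℝ) :
    dr (fun j => x j + y j) (fun j => x j + y j) = dr x x + 2 * dr x y + dr y y := by
  rw [dr_add_left, dr_add_right, dr_add_right, dr_comm y x]
  ring

/-! ### constants -/

private lemma c_pos (P : Sc d μ w) : 8 ≤ P.c := by
  have h := P.hc
  have : 0 ≤ ∑' n, ‖w n‖ := tsum_nonneg fun n => norm_nonneg _
  linarith

private lemma lam_pos (P : Sc d μ w) : 0 < P.Λ := by
  have := P.hΛ
  linarith

private lemma lam_one (P : Sc d μ w) : 1 ≤ P.Λ := by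
  have := P.hΛ
  linarith

private lemma pow_le_pow' (P : Sc d μ w) {a b : ℕ} (h : a ≤ b) : P.Λ ^ a ≤ P.Λ ^ b :=
  pow_le_pow_right₀ (lam_one P) h

private lemma L_one (P : Sc d μ w) : (1 : ℝ) ≤ P.L := by
  have h1 := P.hL
  have h2 := P.hd
  have : 1 ≤ P.L := by omega
  exact_mod_cast this

private lemma lsq_le (P : Sc d μ w) {l : Zd d} (hl : ‖l‖ ≤ P.L) :
    dr (zr l) (zr l) ≤ P.Λ / 100 := by
  have h1 : dr (zr l) (zr l) ≤ d * (P.L : ℝ) ^ 2 := by
    have : dr (zr l) (zr l) ≤ ∑ _j : Fin d, (P.L : ℝ) ^ 2 := by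
      refine Finset.sum_le_sum fun j _ => ?_
      have h2 : |(l j : ℝ)| ≤ P.L := by
        have := norm_le_pi_norm l j
        rw [Int.norm_eq_abs] at this
        exact this.trans hl
      have h3 := abs_le.mp h2
      simp only [zr]
      nlinarith [h3.1, h3.2]
    simpa using this
  have h4 := P.hLΛ
  have h5 : (d : ℝ) ≤ (d : ℝ) ^ 2 := by
    have : (1 : ℝ) ≤ d := by
      have := P.hd
      exact_mod_cast (by omega : 1 ≤ d)
    nlinarith
  have h6 : (d : ℝ) * (P.L : ℝ) ^ 2 ≤ (d : ℝ) ^ 2 * (P.L : ℝ) ^ 2 :=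
    mul_le_mul_of_nonneg_right h5 (by positivity)
  nlinarith

private lemma L_le (P : Sc d μ w) : (P.L : ℝ) ≤ P.Λ := by
  have h4 := P.hLΛ
  have h1 := L_one P
  have h5 : (1 : ℝ) ≤ (d : ℝ) ^ 2 := by
    have : (1 : ℝ) ≤ d := by
      have := P.hd
      exact_mod_cast (by omega : 1 ≤ d)
    nlinarith
  nlinarith [mul_le_mul h5 (by nlinarith : (P.L : ℝ) ≤ (P.L : ℝ) ^ 2) (by linarith) (by linarith)]

/-! ### real and imaginary part of the symbol -/

private lemma q_re (k : Cd d) (n : Zd d) :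
    (q μ k n).re = dr (fun j => re k j + n j) (fun j => re k j + n j) - dr (im k) (im k) - μ.re := by
  simp only [q, bil, dr, zc, Complex.sub_re, Complex.re_sum, re, im, Pi.add_apply,
    Complex.mul_re, Complex.add_re, Complex.add_im, Complex.intCast_re, Complex.intCast_im,
    add_zero, ← Finset.sum_sub_distrib]

private lemma q_im (k : Cd d) (n : Zd d) :
    (q μ k n).im = 2 * dr (fun j => re k j + n j) (im k) - μ.im := by
  simp only [q, bil, dr, zc, Complex.sub_im, Complex.im_sum, re, im, Pi.add_apply,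
    Complex.mul_im, Complex.add_re, Complex.add_im, Complex.intCast_re, Complex.intCast_im,
    add_zero, Finset.mul_sum]
  congr 1
  refine Finset.sum_congr rfl fun j _ => ?_
  ring

private lemma q_im_add (k : Cd d) (n l : Zd d) :
    (q μ k (n + l)).im = (q μ k n).im + 2 * dt (im k) l := by
  rw [q_im, q_im]
  have : dr (fun j => re k j + ((n + l) j : ℤ)) (im k)
      = dr (fun j => re k j + n j) (im k) + dr (zr l) (im k) := by
    rw [← dr_add_left]
    congr 1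
    ext j
    simp [zr]
    ring
  rw [this, dt_eq, dr_comm (im k)]
  ring

private lemma q_re_add (k : Cd d) (n l : Zd d) :
    (q μ k (n + l)).re = (q μ k n).re + 2 * dt (fun j => re k j + n j) l + dr (zr l) (zr l) := by
  rw [q_re, q_re]
  have h : (fun j => re k j + ((n + l) j : ℤ)) = fun j => (fun j => re k j + n j) j + zr l j := by
    ext j
    simp [zr]
    ring
  rw [h, dr_add_self, dt_eq]
  ring

/-- transfer of lower bounds for `2 dt` under small perturbations -/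
private lemma abs_dr_le {x y : Fin d → ℝ} {a b : ℝ} (ha : dr x x ≤ a) (hb : dr y y ≤ b)
    {c : ℝ} (hc : 0 ≤ c) (h : a * b ≤ c ^ 2) : |dr x y| ≤ c := by
  have h1 := dr_cs x y
  have h2 : dr x x * dr y y ≤ a * b :=
    mul_le_mul ha hb (dr_nonneg y) ((dr_nonneg x).trans ha)
  exact abs_le_of_sq_le_sq (by linarith) hc

private lemma exists_unit (P : Sc d μ w) : ∃ l : Zd d, l ≠ 0 ∧ ‖l‖ ≤ P.L ∧ dr (zr l) (zr l) = 1 := by
  have hd := P.hd
  let j0 : Fin d := ⟨0, by omega⟩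
  refine ⟨Pi.single j0 1, ?_, ?_, ?_⟩
  · intro h
    have := congrFun h j0
    simp at this
  · refine (pi_norm_le_iff_of_nonneg (by positivity)).mpr fun j => ?_
    have := L_one P
    by_cases hj : j = j0
    · subst hj
      simpa using this
    · simp [hj]
  · simp [dr, zr, Pi.single_apply, Finset.sum_ite_eq']

private lemma nsq_split (b : Cd d) : nsq b = dr (re b) (re b) + dr (im b) (im b) := by
  simp only [nsq, dr, re, im, ← Finset.sum_add_distrib]
  refine Finset.sum_congr rfl fun j _ => ?_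
  rw [← Complex.normSq_eq_norm_sq, Complex.normSq_apply]

private lemma im_le_nsq (b : Cd d) : dr (im b) (im b) ≤ nsq b := by
  rw [nsq_split]
  have := dr_nonneg (re b)
  linarith

theorem regular_of_im (P : Sc d μ w) {k : Cd d} (h : dr (im k) (im k) ≤ P.R ^ 2)
    (hl : ∀ l : Zd d, l ≠ 0 → ‖l‖ ≤ P.L → P.G + 4 * P.c ≤ |2 * dt (im k) l|) :
    Regular P k := by
  refine ⟨h, fun n hn l hl0 hlL => ?_⟩
  have h1 := hl l hl0 hlL
  have h2 := (Complex.abs_im_le_norm (q μ k n)).trans_lt hn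
  have h3 := Complex.abs_im_le_norm (q μ k (n + l))
  rw [q_im_add] at h3
  have h4 : |2 * dt (im k) l| ≤ |(q μ k n).im + 2 * dt (im k) l| + |(q μ k n).im| := by
    have := abs_sub ((q μ k n).im + 2 * dt (im k) l) ((q μ k n).im)
    simpa using this
  have h5 := c_pos P
  linarith

private lemma Pc_large {g : ℝ} (hg : 3 / 2 * P.G ≤ g) {y₀ y : Fin d → ℝ}
    (hy : y ∈ Pc P g y₀) : g ^ 2 / 4 ≤ dr y y := by
  obtain ⟨l, hl0, hlL, hl1⟩ := exists_unit P
  have h1 := (hy.2 l hl0 hlL).1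
  have h2 := dr_cs y (zr l)
  rw [hl1, mul_one, ← dt_eq] at h2
  have hG : 0 < P.G := pow_pos (lam_pos P) _
  have h3 : 0 ≤ g := by linarith
  have h4 : g ^ 2 ≤ (2 * dt y l) ^ 2 := by
    rw [← sq_abs (2 * dt y l)]
    exact pow_le_pow_left₀ h3 h1 2
  nlinarith

/-- points close to a chamber are regular -/
theorem regular_near_Pc {g : ℝ} (hg : 3 / 2 * P.G ≤ g) {y₀ : Fin d → ℝ} {b k : Cd d}
    (hb : im b ∈ Pc P g y₀) (hk : nsq (k - b) * nsq b ≤ 1) : Regular P k := by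
  have hG : 0 < P.G := pow_pos (lam_pos P) _
  have hg0 : 0 < g := by linarith
  have hlarge := Pc_large hg hb
  have hGL : P.G = P.Λ ^ 5 := rfl
  have hΛ := P.hΛ
  have hbig : (10 : ℝ) ^ 7 * P.Λ ≤ P.G := by
    have h1 : P.Λ ^ 2 ≤ P.Λ ^ 5 := pow_le_pow' P (by norm_num)
    rw [hGL]
    nlinarith [lam_pos P]
  have hG1 : 1000 ≤ P.G := by nlinarith
  set δ : Fin d → ℝ := im (k - b) with hδ
  have hk' : im k = fun j => im b j + δ j := by
    ext j
    simp [hδ, im]
  have hnb : g ^ 2 / 4 ≤ nsq b := hlarge.trans (im_le_nsq b)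
  have hnb0 : 0 < nsq b := by nlinarith
  have hδ1 : dr δ δ ≤ nsq (k - b) := im_le_nsq _
  have hprod : dr (im b) (im b) * dr δ δ ≤ 1 := by
    have : dr (im b) (im b) * dr δ δ ≤ nsq b * nsq (k - b) :=
      mul_le_mul (im_le_nsq b) hδ1 (dr_nonneg _) hnb0.le
    linarith [mul_comm (nsq b) (nsq (k - b))]
  have hδs : dr δ δ * P.Λ ≤ 1 := by
    have h1 : dr δ δ * nsq b ≤ 1 := (mul_le_mul_of_nonneg_right hδ1 hnb0.le).trans hk
    have h2 : P.Λ ≤ nsq b := by
      refine le_trans ?_ hnb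
      nlinarith
    exact (mul_le_mul_of_nonneg_left h2 (dr_nonneg δ)).trans h1
  have hδ2 : dr δ δ ≤ 1 := by
    have := mul_le_mul_of_nonneg_left (lam_one P) (dr_nonneg δ)
    linarith
  refine regular_of_im P ?_ ?_
  · rw [hk', dr_add_self]
    have h1 : |dr (im b) δ| ≤ 1 := by
      have h2 := dr_cs (im b) δ
      exact abs_le_of_sq_le_sq (by linarith) (by norm_num)
    have h3 := (abs_le.mp h1).2
    have h4 := hb.1
    have h5 : (3 / 2 * P.G) ^ 2 * dr (im b) (im b) ≤ g ^ 2 * dr (im b) (im b) :=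
      mul_le_mul_of_nonneg_right (pow_le_pow_left₀ (by positivity) hg 2) (dr_nonneg _)
    have h6 : 9 / 4 * dr (im b) (im b) ≤ P.R ^ 2 := by
      have h7 : P.G ^ 2 * (9 / 4 * dr (im b) (im b)) ≤ P.G ^ 2 * P.R ^ 2 := by nlinarith
      exact le_of_mul_le_mul_left h7 (by positivity)
    have h8 : 1000 ≤ P.R ^ 2 := by
      have : P.G ≤ P.R ^ 2 := by
        rw [hGL, show P.R ^ 2 = P.Λ ^ 52 by simp only [Sc.R]; ring]
        exact pow_le_pow' P (by norm_num)
      linarith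
    nlinarith
  · intro l hl0 hlL
    have h1 := (hb.2 l hl0 hlL).1
    have h2 : |dr δ (zr l)| ≤ 1 := by
      have h3 := lsq_le P hlL
      refine abs_dr_le (le_refl _) h3 (by norm_num) ?_
      nlinarith
    rw [dt_eq, hk', dr_add_left, ← dt_eq]
    have h4 : |2 * dt (im b) l| ≤ |2 * (dt (im b) l + dr δ (zr l))| + |2 * dr δ (zr l)| := by
      have := abs_sub (2 * (dt (im b) l + dr δ (zr l))) (2 * dr δ (zr l))
      refine le_trans (le_of_eq ?_) this
      congr 1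
      ring
    have h5 : |2 * dr δ (zr l)| ≤ 2 := by
      rw [abs_mul, abs_two]
      linarith
    have h6 := P.hcΛ
    nlinarith

private lemma di_ed (Q : Dirs P) (l l' : Zd d) :
    di (Q.ed l) l' = di Q.e l * di Q.a l' - di Q.a l * di Q.e l' := by
  simp only [di, Dirs.ed, Pi.sub_apply, Pi.smul_apply, smul_eq_mul, sub_mul,
    Finset.sum_sub_distrib, Finset.mul_sum, mul_assoc]

private lemma di_ed_self (Q : Dirs P) (l : Zd d) : di (Q.ed l) l = 0 := by
  rw [di_ed]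
  ring

/-- there is a small vector which is not parallel to `l` -/
private lemma exists_nonpar (P : Sc d μ w) {l : Zd d} (hl : l ≠ 0) :
    ∃ l' : Zd d, l' ≠ 0 ∧ ‖l'‖ ≤ P.L ∧ ∀ i j : ℤ, i ≠ 0 → j ≠ 0 → i • l ≠ j • l' := by
  have hd := P.hd
  obtain ⟨m, hm⟩ : ∃ m, l m ≠ 0 := by
    by_contra h
    push Not at h
    exact hl (funext h)
  obtain ⟨m', hm'⟩ : ∃ m' : Fin d, m' ≠ m := by
    by_cases h0 : m = ⟨0, by omega⟩
    · exact ⟨⟨1, by omega⟩, by simp [h0]⟩
    · exact ⟨⟨0, by omega⟩, fun h => h0 h.symm⟩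
  refine ⟨Pi.single m' 1, ?_, ?_, ?_⟩
  · intro h
    have := congrFun h m'
    simp at this
  · refine (pi_norm_le_iff_of_nonneg (by positivity)).mpr fun j => ?_
    have := L_one P
    by_cases hj : j = m'
    · subst hj
      simpa using this
    · simp [hj]
  · intro i j hi hj h
    have := congrFun h m
    simp only [Pi.smul_apply, smul_eq_mul, Pi.single_apply, hm'.symm, if_false, mul_zero] at this
    rcases mul_eq_zero.mp this with h | h
    · exact hi h
    · exact hm h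

private lemma ed_sq (Q : Dirs P) {l : Zd d} (hl : l ≠ 0) (hlL : ‖l‖ ≤ P.L) :
    1 ≤ dr (zr (Q.ed l)) (zr (Q.ed l)) ∧ dr (zr (Q.ed l)) (zr (Q.ed l)) ≤ P.Λ := by
  constructor
  · obtain ⟨l', hl', hl'L, hp⟩ := exists_nonpar P hl
    have h1 : di (Q.ed l) l' ≠ 0 := by
      intro h
      rw [di_ed] at h
      obtain ⟨i, j, hi, hj, hij⟩ := Q.hea l l' hl hlL hl' hl'L (by linarith)
      exact hp i j hi hj hij
    have h2 : Q.ed l ≠ 0 := by
      intro h
      apply h1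
      simp [h, di]
    rw [dr_zr]
    have h3 : 0 < di (Q.ed l) (Q.ed l) := by
      obtain ⟨m, hm⟩ : ∃ m, Q.ed l m ≠ 0 := by
        by_contra h
        push Not at h
        exact h2 (funext h)
      refine Finset.sum_pos' (fun j _ => mul_self_nonneg _) ⟨m, Finset.mem_univ _, ?_⟩
      exact mul_self_pos.mpr hm
    exact_mod_cast h3
  · rw [dr_zr]
    exact Q.ned l hlL

/-- points near Thomas points are regular -/
theorem regular_near_Th (Q : Dirs P) {l : Zd d} (hl : l ≠ 0) (hlL : ‖l‖ ≤ P.L) {k : Cd d} {σ : ℝ}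
    (hσ : |σ| ≤ 2 * P.T1) {η : Fin d → ℝ} (hk : ∀ j, im k j = Q.yc l j + σ * (l j : ℝ) + η j)
    (hη : dr η η * dr (im k) (im k) ≤ 4) (hη1 : dr η η ≤ 1) {z : ℤ}
    (hz : |dt (re k) (Q.ed l) - z - 1 / 2| ≤ 3 / 8) : Regular P k := by
  have hΛ := P.hΛ
  have hΛ0 := lam_pos P
  have hD0 : (di Q.e l : ℝ) ≠ 0 := by exact_mod_cast Q.he l hl hlL
  have hD1 : 1 ≤ |(di Q.e l : ℝ)| := by
    have := Int.one_le_abs (Q.he l hl hlL)
    exact_mod_cast this
  have hDΛ := Q.be l hlL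
  obtain ⟨τ, hτ⟩ : ∃ τ : ℝ, τ = P.tt / (di Q.e l : ℝ) := ⟨_, rfl⟩
  have hτD : |τ| * |(di Q.e l : ℝ)| = P.Λ ^ 20 := by
    rw [← abs_mul, hτ, div_mul_cancel₀ _ hD0]
    exact abs_of_pos (pow_pos hΛ0 _)
  have hτlow : P.Λ ^ 19 ≤ |τ| := by
    have h1 : P.Λ ^ 20 ≤ |τ| * P.Λ := by
      rw [← hτD]
      exact mul_le_mul_of_nonneg_left hDΛ (abs_nonneg _)
    have h2 : P.Λ ^ 19 * P.Λ ≤ |τ| * P.Λ := by
      calc P.Λ ^ 19 * P.Λ = P.Λ ^ 20 := by ring
        _ ≤ _ := h1
    exact le_of_mul_le_mul_right h2 hΛ0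
  have hτup : |τ| ≤ P.Λ ^ 20 := by
    rw [← hτD]
    exact le_mul_of_one_le_right (abs_nonneg _) hD1
  obtain ⟨hed1, hed2⟩ := ed_sq Q hl hlL
  have hll := lsq_le P hlL
  have hσ' : |σ| ≤ 2 * P.Λ ^ 7 := hσ
  -- the main part of the imaginary part
  obtain ⟨Y, hY⟩ : ∃ Y : Fin d → ℝ, Y = fun j => τ * zr (Q.ed l) j + σ * zr l j := ⟨_, rfl⟩
  have hky : im k = fun j => Y j + η j := by
    ext j
    rw [hk j, hY]
    simp only [Dirs.yc, zr, hτ]
  have hY2 : ∀ x : Fin d → ℝ, dr x Y = τ * dr x (zr (Q.ed l)) + σ * dr x (zr l) := by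
    intro x
    rw [hY]
    rw [show (fun j => τ * zr (Q.ed l) j + σ * zr l j)
      = fun j => (fun j => τ * zr (Q.ed l) j) j + (fun j => σ * zr l j) j from rfl,
      dr_add_right, dr_smul_right, dr_smul_right]
  have hYY : dr Y Y = τ ^ 2 * dr (zr (Q.ed l)) (zr (Q.ed l)) + σ ^ 2 * dr (zr l) (zr l) := by
    have h0 : dr (zr (Q.ed l)) (zr l) = 0 := by
      rw [dr_zr, di_ed_self]
      simp
    rw [hY2 Y, dr_comm Y, dr_comm Y, hY2, hY2, h0, dr_comm (zr l) (zr (Q.ed l)), h0]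
    ring
  have hpow1 : (1 : ℝ) ≤ P.Λ ^ 7 := one_le_pow₀ (lam_one P)
  have hYlow : P.Λ ^ 38 ≤ dr Y Y := by
    rw [hYY]
    have h1 : (P.Λ ^ 19) ^ 2 ≤ τ ^ 2 := by
      rw [← sq_abs τ]
      exact pow_le_pow_left₀ (by positivity) hτlow 2
    have h2 : 0 ≤ σ ^ 2 * dr (zr l) (zr l) := mul_nonneg (sq_nonneg _) (dr_nonneg _)
    nlinarith [mul_le_mul h1 hed1 (by norm_num) (sq_nonneg τ)]
  have hYup : dr Y Y ≤ 2 * P.Λ ^ 41 := by
    rw [hYY]
    have h1 : τ ^ 2 ≤ (P.Λ ^ 20) ^ 2 := by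
      rw [← sq_abs τ]
      exact pow_le_pow_left₀ (abs_nonneg _) hτup 2
    have h2 : σ ^ 2 ≤ (2 * P.Λ ^ 7) ^ 2 := by
      rw [← sq_abs σ]
      exact pow_le_pow_left₀ (abs_nonneg _) hσ' 2
    have h3 : τ ^ 2 * dr (zr (Q.ed l)) (zr (Q.ed l)) ≤ (P.Λ ^ 20) ^ 2 * P.Λ :=
      mul_le_mul h1 hed2 (by linarith) (by positivity)
    have h4 : σ ^ 2 * dr (zr l) (zr l) ≤ (2 * P.Λ ^ 7) ^ 2 * (P.Λ / 100) :=
      mul_le_mul h2 hll (dr_nonneg _) (by positivity)
    have h5 : P.Λ ^ 15 ≤ P.Λ ^ 41 := pow_le_pow' P (by norm_num)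
    have h6 : (P.Λ ^ 20) ^ 2 * P.Λ = P.Λ ^ 41 := by ring
    have h7 : (2 * P.Λ ^ 7) ^ 2 * (P.Λ / 100) = P.Λ ^ 15 / 25 := by ring
    have h8 : 0 ≤ P.Λ ^ 41 := by positivity
    linarith
  have hbig : (10 : ℝ) ^ 7 ≤ P.Λ ^ 37 := hΛ.trans (by
    have := pow_le_pow' P (show 1 ≤ 37 by norm_num)
    simpa using this)
  have h38 : P.Λ ^ 38 = P.Λ ^ 37 * P.Λ := by ring
  have hΛ37 : 0 < P.Λ ^ 37 := by positivity
  have hYη : |dr Y η| ≤ dr Y Y / 4 := by
    have h1 := dr_cs Y η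
    have h2 : dr Y Y * dr η η ≤ dr Y Y := mul_le_of_le_one_right (dr_nonneg _) hη1
    refine abs_le_of_sq_le_sq ?_ (by have := dr_nonneg Y; linarith)
    have h3 : 16 ≤ dr Y Y := by nlinarith
    nlinarith
  have hyy : dr (im k) (im k) = dr Y Y + 2 * dr Y η + dr η η := by
    rw [hky, dr_add_self]
  have hη0 := dr_nonneg η
  have hylow : P.Λ ^ 37 ≤ dr (im k) (im k) := by
    have h1 := (abs_le.mp hYη).1
    nlinarith
  have hyup : dr (im k) (im k) ≤ P.Λ ^ 42 := by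
    have h1 := (abs_le.mp hYη).2
    have h2 : P.Λ ^ 42 = P.Λ ^ 41 * P.Λ := by ring
    have h3 : 1 ≤ P.Λ ^ 41 := one_le_pow₀ (lam_one P)
    nlinarith
  have hηΛ : dr η η * P.Λ ≤ 4 := by
    have h1 : P.Λ ≤ dr (im k) (im k) := by
      have := pow_le_pow' P (show 1 ≤ 37 by norm_num)
      rw [pow_one] at this
      linarith
    exact (mul_le_mul_of_nonneg_left h1 hη0).trans hη
  refine ⟨?_, ?_⟩
  · refine hyup.trans ?_
    rw [show P.R ^ 2 = P.Λ ^ 52 by simp only [Sc.R]; ring]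
    exact pow_le_pow' P (by norm_num)
  intro n hn l' hl' hl'L
  have hc := P.hcΛ
  have hc8 := c_pos P
  have hμ := P.hμ
  obtain ⟨v, hv⟩ : ∃ v : Fin d → ℝ, v = fun j => re k j + n j := ⟨_, rfl⟩
  have hre := (Complex.abs_re_le_norm (q μ k n)).trans_lt hn
  have him := (Complex.abs_im_le_norm (q μ k n)).trans_lt hn
  have hμre := (Complex.abs_re_le_norm μ).trans hμ
  have hμim := (Complex.abs_im_le_norm μ).trans hμ
  have hvv : dr v v ≤ dr (im k) (im k) + 3 * P.Λ := by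
    have h1 := (abs_lt.mp hre).2
    rw [q_re, ← hv] at h1
    have h2 := (abs_le.mp hμre).2
    linarith
  have hvy : |dr v (im k)| ≤ 2 * P.Λ := by
    rw [q_im, ← hv] at him
    rw [abs_le]
    have h1 := abs_lt.mp him
    have h2 := abs_le.mp hμim
    constructor <;> linarith [h1.1, h1.2, h2.1, h2.2]
  have hvη : |dr v η| ≤ 4 := by
    refine abs_le_of_sq_le_sq ?_ (by norm_num)
    have h1 := dr_cs v η
    have h2 : dr v v * dr η η ≤ (dr (im k) (im k) + 3 * P.Λ) * dr η η :=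
      mul_le_mul_of_nonneg_right hvv hη0
    nlinarith
  have hved : 1 / 8 ≤ |dr v (zr (Q.ed l))| := by
    have h1 : dr v (zr (Q.ed l)) = dt (re k) (Q.ed l) + (di n (Q.ed l) : ℝ) := by
      rw [hv, show (fun j => re k j + (n j : ℝ)) = fun j => re k j + zr n j from rfl,
        dr_add_left, dr_zr, dt_eq]
    have h2 : (1 : ℝ) / 2 ≤ |((z + di n (Q.ed l) : ℤ) : ℝ) + 1 / 2| := by
      rcases le_or_gt 0 (z + di n (Q.ed l)) with h | h
      · have : (0 : ℝ) ≤ ((z + di n (Q.ed l) : ℤ) : ℝ) := by exact_mod_cast h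
        rw [abs_of_nonneg (by linarith)]
        linarith
      · have h' : z + di n (Q.ed l) ≤ -1 := by omega
        have : ((z + di n (Q.ed l) : ℤ) : ℝ) ≤ -1 := by exact_mod_cast h'
        rw [abs_of_nonpos (by linarith)]
        linarith
    have h3 : |((z + di n (Q.ed l) : ℤ) : ℝ) + 1 / 2|
        ≤ |dr v (zr (Q.ed l))| + |dt (re k) (Q.ed l) - z - 1 / 2| := by
      have := abs_sub (dr v (zr (Q.ed l))) (dt (re k) (Q.ed l) - z - 1 / 2)
      refine le_trans (le_of_eq ?_) this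
      rw [h1]
      congr 1
      push_cast
      ring
    linarith
  have hvl : P.Λ ^ 11 ≤ |dr v (zr l)| := by
    have h1 : dr v (im k) = τ * dr v (zr (Q.ed l)) + σ * dr v (zr l) + dr v η := by
      rw [hky, dr_add_right, hY2]
    have h2 : |τ| * |dr v (zr (Q.ed l))| ≤ |dr v (im k)| + |σ| * |dr v (zr l)| + |dr v η| := by
      rw [← abs_mul, ← abs_mul]
      have h3 : τ * dr v (zr (Q.ed l)) = dr v (im k) - σ * dr v (zr l) - dr v η := by
        rw [h1]
        ring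
      rw [h3]
      exact (abs_sub _ _).trans (add_le_add_left (abs_sub _ _) _)
    have h4 : P.Λ ^ 19 * (1 / 8) ≤ |τ| * |dr v (zr (Q.ed l))| :=
      mul_le_mul hτlow hved (by norm_num) (abs_nonneg _)
    have h5 : |σ| * |dr v (zr l)| ≤ 2 * P.Λ ^ 7 * |dr v (zr l)| :=
      mul_le_mul_of_nonneg_right hσ' (abs_nonneg _)
    have h6 : P.Λ ^ 7 * P.Λ ^ 11 ≤ P.Λ ^ 7 * |dr v (zr l)| := by
      have h7 : P.Λ ^ 19 = P.Λ ^ 18 * P.Λ := by ring
      have h8 : P.Λ ≤ P.Λ ^ 18 := by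
        have := pow_le_pow' P (show 1 ≤ 18 by norm_num)
        rwa [pow_one] at this
      have h9 : P.Λ ^ 7 * P.Λ ^ 11 = P.Λ ^ 18 := by ring
      have h12 : P.Λ ^ 18 * 10 ^ 7 ≤ P.Λ ^ 18 * P.Λ :=
        mul_le_mul_of_nonneg_left hΛ (by positivity)
      have h13 : (1 : ℝ) ≤ P.Λ ^ 18 := one_le_pow₀ (lam_one P)
      rw [h9]
      linarith
    exact le_of_mul_le_mul_left h6 (by positivity)
  have hΛ5 : P.G = P.Λ ^ 5 := rfl
  by_cases hpar : di Q.e l * di Q.a l' = di Q.e l' * di Q.a l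
  · obtain ⟨i, j, hi, hj, hij⟩ := Q.hea l l' hl hlL hl' hl'L hpar
    have h1 : (i : ℝ) * dr v (zr l) = j * dr v (zr l') := by
      simp only [dr, Finset.mul_sum]
      refine Finset.sum_congr rfl fun m _ => ?_
      have h2 : ((i * l m : ℤ) : ℝ) = ((j * l' m : ℤ) : ℝ) := by
        have := congrFun hij m
        simp only [Pi.smul_apply, smul_eq_mul] at this
        rw [this]
      push_cast at h2
      simp only [zr]
      linear_combination v m * h2
    have h3 : |(j : ℝ)| ≤ |(i : ℝ)| * P.L := by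
      obtain ⟨m, hm⟩ : ∃ m, l' m ≠ 0 := by
        by_contra h
        push Not at h
        exact hl' (funext h)
      have h4 : (1 : ℝ) ≤ |(l' m : ℝ)| := by
        have := Int.one_le_abs hm
        exact_mod_cast this
      have h5 : |(l m : ℝ)| ≤ P.L := by
        have := norm_le_pi_norm l m
        rw [Int.norm_eq_abs] at this
        exact this.trans hlL
      have h6 : |(i : ℝ)| * |(l m : ℝ)| = |(j : ℝ)| * |(l' m : ℝ)| := by
        rw [← abs_mul, ← abs_mul]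
        congr 1
        have := congrFun hij m
        simp only [Pi.smul_apply, smul_eq_mul] at this
        exact_mod_cast this
      calc |(j : ℝ)| ≤ |(j : ℝ)| * |(l' m : ℝ)| := le_mul_of_one_le_right (abs_nonneg _) h4
        _ = |(i : ℝ)| * |(l m : ℝ)| := h6.symm
        _ ≤ _ := mul_le_mul_of_nonneg_left h5 (abs_nonneg _)
    have hi0 : 0 < |(i : ℝ)| := abs_pos.mpr (by exact_mod_cast hi)
    have h7 : |dr v (zr l)| ≤ P.L * |dr v (zr l')| := by
      have h8 : |(i : ℝ)| * |dr v (zr l)| = |(j : ℝ)| * |dr v (zr l')| := by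
        rw [← abs_mul, ← abs_mul, h1]
      have h9 : |(i : ℝ)| * |dr v (zr l)| ≤ |(i : ℝ)| * (P.L * |dr v (zr l')|) := by
        rw [h8, ← mul_assoc]
        exact mul_le_mul_of_nonneg_right h3 (abs_nonneg _)
      exact le_of_mul_le_mul_left h9 hi0
    have h10 : P.Λ ^ 10 ≤ |dr v (zr l')| := by
      have h11 : P.Λ * P.Λ ^ 10 ≤ P.Λ * |dr v (zr l')| := by
        calc P.Λ * P.Λ ^ 10 = P.Λ ^ 11 := by ring
          _ ≤ _ := hvl.trans (h7.trans (mul_le_mul_of_nonneg_right (L_le P) (abs_nonneg _)))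
      exact le_of_mul_le_mul_left h11 hΛ0
    have h12 := Complex.abs_re_le_norm (q μ k (n + l'))
    rw [q_re_add, ← hv, dt_eq] at h12
    have h13 : |2 * dr v (zr l')| ≤ |(q μ k n).re + 2 * dr v (zr l') + dr (zr l') (zr l')|
        + |(q μ k n).re| + |dr (zr l') (zr l')| := by
      have h14 : 2 * dr v (zr l') = ((q μ k n).re + 2 * dr v (zr l') + dr (zr l') (zr l'))
        - (q μ k n).re - dr (zr l') (zr l') := by ring
      refine le_trans (le_of_eq (congrArg _ h14)) ?_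
      exact (abs_sub _ _).trans (add_le_add_left (abs_sub _ _) _)
    rw [abs_mul, abs_two, abs_of_nonneg (dr_nonneg (zr l'))] at h13
    have h15 := lsq_le P hl'L
    have h16 : P.Λ ^ 10 = P.Λ ^ 5 * P.Λ ^ 5 := by ring
    have h17 : P.Λ ≤ P.Λ ^ 5 := by
      have := pow_le_pow' P (show 1 ≤ 5 by norm_num)
      rwa [pow_one] at this
    have h18 : P.Λ ^ 5 * 10 ^ 7 ≤ P.Λ ^ 5 * P.Λ ^ 5 :=
      mul_le_mul_of_nonneg_left (hΛ.trans h17) (by positivity)
    have h19 : 0 < P.Λ ^ 5 := by positivity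
    rw [hΛ5]
    linarith
  · have h1 : di (Q.ed l) l' ≠ 0 := by
      intro h
      rw [di_ed] at h
      exact hpar (by linarith)
    have h2 : (1 : ℝ) ≤ |(di (Q.ed l) l' : ℝ)| := by
      have := Int.one_le_abs h1
      exact_mod_cast this
    have h3 : dt (im k) l' = τ * (di (Q.ed l) l' : ℝ) + σ * dr (zr l) (zr l') + dr η (zr l') := by
      rw [dt_eq, hky, dr_add_left, dr_comm Y, hY2, dr_comm (zr l'), dr_zr, dr_comm (zr l')]
    have h4 : |dr (zr l) (zr l')| ≤ P.Λ :=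
      abs_dr_le hll (lsq_le P hl'L) hΛ0.le (by nlinarith)
    have h5 : |dr η (zr l')| ≤ P.Λ :=
      abs_dr_le hη1 (lsq_le P hl'L) hΛ0.le (by nlinarith)
    have h6 : |τ| * |(di (Q.ed l) l' : ℝ)| ≤ |dt (im k) l'| + |σ| * |dr (zr l) (zr l')|
        + |dr η (zr l')| := by
      rw [← abs_mul, ← abs_mul]
      have h7 : τ * (di (Q.ed l) l' : ℝ)
        = dt (im k) l' - σ * dr (zr l) (zr l') - dr η (zr l') := by
        rw [h3]
        ring
      rw [h7]
      exact (abs_sub _ _).trans (add_le_add_left (abs_sub _ _) _)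
    have h8 : P.Λ ^ 19 * 1 ≤ |τ| * |(di (Q.ed l) l' : ℝ)| :=
      mul_le_mul hτlow h2 (by norm_num) (abs_nonneg _)
    have h9 : |σ| * |dr (zr l) (zr l')| ≤ 2 * P.Λ ^ 7 * P.Λ :=
      mul_le_mul hσ' h4 (abs_nonneg _) (by positivity)
    have h10 := Complex.abs_im_le_norm (q μ k (n + l'))
    rw [q_im_add] at h10
    have h11 : |2 * dt (im k) l'| ≤ |(q μ k n).im + 2 * dt (im k) l'| + |(q μ k n).im| := by
      have := abs_sub ((q μ k n).im + 2 * dt (im k) l') ((q μ k n).im)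
      simpa using this
    rw [abs_mul, abs_two] at h11
    have h12 : P.Λ ^ 19 = P.Λ ^ 8 * P.Λ ^ 11 := by ring
    have h13 : P.Λ ≤ P.Λ ^ 8 := by
      have := pow_le_pow' P (show 1 ≤ 8 by norm_num)
      rwa [pow_one] at this
    have h14 : P.Λ ^ 5 ≤ P.Λ ^ 8 := pow_le_pow' P (by norm_num)
    have h15 : 100 ≤ P.Λ ^ 11 := by
      have := pow_le_pow' P (show 1 ≤ 11 by norm_num)
      rw [pow_one] at this
      linarith
    have h16 : P.Λ ^ 7 * P.Λ = P.Λ ^ 8 := by ring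
    have h17 : 0 < P.Λ ^ 8 := by positivity
    have h18 : P.Λ ^ 8 * 100 ≤ P.Λ ^ 8 * P.Λ ^ 11 := mul_le_mul_of_nonneg_left h15 h17.le
    have h19 : P.Λ ^ 7 * P.Λ * 2 = P.Λ ^ 8 * 2 := by rw [h16]
    rw [hΛ5]
    linarith

theorem Th.regular {l : Zd d} (hl : l ≠ 0) (hlL : ‖l‖ ≤ P.L) {k : Cd d} (h : Th P Q l k) :
    Regular P k := by
  obtain ⟨σ, hσ, hk, z, hz⟩ := h
  have hT : 0 ≤ P.T1 := (pow_pos (lam_pos P) _).le
  refine regular_near_Th Q hl hlL (σ := σ) (by linarith) (η := 0) (z := z) ?_ ?_ ?_ ?_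
  · intro j
    rw [hk j]
    simp
  · simp [dr]
  · simp [dr]
  · rw [hz]
    norm_num

/-- base points with imaginary part in a chamber are thick -/
theorem thick_of_Pc {g : ℝ} (hg : 3 / 2 * P.G ≤ g) {y₀ : Fin d → ℝ} {p : Cd d}
    (hp : Base P E p) (hy : im p ∈ Pc P g y₀) : Thick P p := by
  have hG : 0 < P.G := pow_pos (lam_pos P) _
  have hw0 : ‖w 0‖ ≤ ∑' n, ‖w n‖ := P.hw.le_tsum 0 fun n _ => norm_nonneg _
  have hc := P.hc
  refine ⟨?_, ?_, ?_⟩
  · have h1 := (Pc_large hg hy).trans (im_le_nsq p)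
    have h2 : (3 / 2 * P.G) ^ 2 ≤ g ^ 2 := pow_le_pow_left₀ (by positivity) hg 2
    have h3 : P.Λ ^ 8 * 100 ≤ P.G ^ 2 := by
      rw [show P.G ^ 2 = P.Λ ^ 8 * P.Λ ^ 2 by simp only [Sc.G]; ring]
      have := P.hΛ
      exact mul_le_mul_of_nonneg_left (by nlinarith) (by have := lam_pos P; positivity)
    have h4 : 0 ≤ P.Λ ^ 8 := by have := lam_pos P; positivity
    nlinarith
  · exact hp.2.2.trans (by norm_num)
  · intro l hl0 hlL
    have h1 := hp.1.2 0 ?_ l hl0 hlL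
    · simpa using h1
    · have h2 : ‖q μ p 0‖ ≤ ‖q μ p 0 + w 0‖ + ‖w 0‖ := by
        have := norm_sub_le (q μ p 0 + w 0) (w 0)
        simpa using this
      have h3 := hp.2.2
      have h4 : 0 ≤ ∑' n, ‖w n‖ := tsum_nonneg fun n => norm_nonneg _
      linarith

end Fermi
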