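import Pool.Agent.Lib.Fermi.OpLMe

/-!
# Chunk D7: the local model at regular points

Write `κ_n = p0 + zc n`, `S = {n : |q_n(p0)| < 2c}` (finite). Facts, in this order.

1. (size) for `n` with `|q_n(p0)| < 2c`: `|κ_n|₂² ≤ 2 R² + 3Λ` (real part of `q_n`), so `‖κ_n‖ ≤ 2 R`;
   in general `|κ_n|₂² ≤ |q_n(p0)| + 2R² + Λ`. Hence for all `n` and `‖k - p0‖ ≤ r`:
   `|q_n(k) - q_n(p0)| ≤ Λ^54 * r * (1 + |q_n(p0)|)`: tiny relative to `1 + |q_n(p0)|`. This gives `res`, and that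
   `DS c μ S k` is admissible for all `k` in the ball.
2. (card) the resonant `n` have `|re p0 + n|_∞ ≤ 3/2 R`: at most `(3R+1)^d ≤ Λ^(27d)` of them.
3. (clean) `n, m ∈ S`, `n ≠ m` implies `‖m - n‖ > L`. For `n ∈ S`: `|κ_{n,1}| ≥ Λ^4` (cleanness for `l = e_1`).
4. `q_0(k + n) = q_n(k)`; `E(k + zc n) = q_n(k) + w 0 + Hh(q_n(k), k + zc n)`; with `α, β` of `Hh_taylor` at
   `(q_n(p0), κ_n)` put `a n = (1+α)•(2•κ_n) + β`, `cc n = E(κ_n)`. Then on the ball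
   `k ↦ E(k + n) - aff n k` is Lipschitz with constant `Λ^60 r`, vanishes at p0: so it is `≤ Λ^60 r² ≤ s/4`.
   `crude` is `Hh_bound`.
5. (sep) for `n0 = m - n` (integer vector, `‖n0‖ > L ≥ 10 d`) and any `λ ∈ ℂ`: `|n0 - λ κ|₂ ≥ 0.33 |n0|₂`
   for `κ = κ_n`. Proof: with `ρ = n0 - λκ`, `n0 = λκ + ρ`: `|n0|² = n0·n0 = λ² κ·κ + 2 λ κ·ρ + ρ·ρ` (bilinear!),
   `|κ·κ| ≤ 3Λ`, `|κ|² ≥ Λ^8`, `|λκ| ≤ |n0| + |ρ|`. So `‖n0 - λκ‖_∞ ≥ 3`. Then `1 ≤ ‖a m - l a n‖`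
   (separate the case `|l|` huge, using `|κ_m|, |κ_n|` comparable, from the case `|l| ≤ Λ`).
6. (lm1) for `k` in the ball with all `|aff n k| ≥ s`: `|E(k+n)| ≥ 3s/4`;
   `1 + (q_n - c) gam(q_n, κ) = gam(q_n, κ) * E(k+n)`, `gam ≥ 1/(2c)`, and `gS n n` differs from
   `gam(q_n(k), k+n)` by `≤ 4ε` (`col_cmp` + `grn_shift`: the symbols `DS c μ S k` and
   `m ↦ Dloc(q_n(k), k+n)(m - n)` agree on the ball of radius `L` around `n`); off diagonal entries are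
   `≤ 4ε` (`col_far`); apply `notmem_of_large` with `η = s/(4c)`, `ε₀ = 4ε`, `b = 3c`.
7. (lm2, lm3) with `onesite` and `η = s/(4c)`: on the closed disc `|z| ≤ ρ` the function
   `f(z) = 1 + (q_n - c) gS {n} n n` at `k + z v` is analytic (`DS_analytic`), vanishes exactly at points of `F`, and
   `f(z) = gam * E + err`, `|err| ≤ Λ^10 ε / s`. `gam * E = 1 + (q_n - c) gam`.
   Lipschitz: `|E(z1) - E(z2)| ≥ (3/4)|bil (a n) v||z1 - z2|`; `err` has Lipschitz constant `≤ 4 sup|err|/ρ` on `|z| ≤ ρ/2`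
   (Cauchy); at two zeros `|E| ≤ 4c|err|`, and `gam` is Lipschitz (`Hh_lip`). Uniqueness follows from `4 s ≤ ρ |bil (a n) v|`.
   Existence: minimum modulus on `|z| ≤ ρ/2` (`1/f` and the maximum principle), comparing the zero of `aff` with the circle.
-/

open scoped BigOperators Topology
open Set Filter

noncomputable section

namespace Fermi

variable {d : ℕ} {μ : ℂ} {w : Zd d → ℂ}

section
variable {P : Sc d μ w} {p0 : Cd d}

/-- the gradient of the sheet -/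
theorem grad_bounds {κ β : Cd d} {α : ℂ} (P : Sc d μ w) (hα : ‖α‖ ≤ (P.Λ ^ 6)⁻¹)
    (hβ : ‖β‖ ≤ (P.Λ ^ 2)⁻¹) :
    1 / 2 ≤ ‖1 + α‖ ∧ ‖1 + α‖ ≤ 2 ∧ ‖(1 + α) • ((2 : ℂ) • κ) + β‖ ≤ 4 * ‖κ‖ + 1 ∧
      ‖κ‖ - 1 ≤ ‖(1 + α) • ((2 : ℂ) • κ) + β‖ := by
  have hΛ := P.hΛ
  have hΛ1 := P.x_one
  have e1 : (P.Λ ^ 6)⁻¹ ≤ 1 / 2 := by
    rw [one_div]
    apply inv_anti₀ (by norm_num)
    calc (2 : ℝ) ≤ P.Λ := by linarith
      _ = P.Λ ^ 1 := (pow_one _).symm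
      _ ≤ P.Λ ^ 6 := pow_le_pow_right₀ hΛ1 (by norm_num)
  have e2 : (P.Λ ^ 2)⁻¹ ≤ 1 := inv_le_one_of_one_le₀ (one_le_pow₀ hΛ1)
  have h1 : 1 / 2 ≤ ‖1 + α‖ := by
    have := norm_sub_norm_le (1 : ℂ) (-α)
    rw [norm_one, norm_neg, sub_neg_eq_add] at this
    linarith
  have h2 : ‖1 + α‖ ≤ 2 := by
    refine (norm_add_le _ _).trans ?_
    rw [norm_one]; linarith
  have h3 : ‖(1 + α) • ((2 : ℂ) • κ)‖ = 2 * ‖1 + α‖ * ‖κ‖ := by
    rw [norm_smul, norm_smul]; simp; ring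
  have hκ := norm_nonneg κ
  refine ⟨h1, h2, ?_, ?_⟩
  · refine (norm_add_le _ _).trans ?_
    rw [h3]
    nlinarith
  · have := norm_sub_norm_le ((1 + α) • ((2 : ℂ) • κ)) (-β)
    rw [h3, norm_neg, sub_neg_eq_add] at this
    nlinarith

theorem sep_aux (h : Regular P p0) {n m : Zd d} (hn : ‖q μ p0 n‖ < 2 * P.c)
    (hm : ‖q μ p0 m‖ < 2 * P.c) (hnm : n ≠ m) {αn αm : ℂ} {βn βm : Cd d}
    (hαn : ‖αn‖ ≤ (P.Λ ^ 6)⁻¹) (hβn : ‖βn‖ ≤ (P.Λ ^ 2)⁻¹) (hαm : ‖αm‖ ≤ (P.Λ ^ 6)⁻¹)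
    (hβm : ‖βm‖ ≤ (P.Λ ^ 2)⁻¹) (l : ℂ) :
    1 ≤ ‖((1 + αm) • ((2 : ℂ) • (p0 + zc m)) + βm) -
      l • ((1 + αn) • ((2 : ℂ) • (p0 + zc n)) + βn)‖ := by
  obtain ⟨an1, an2, an3, an4⟩ := grad_bounds (κ := p0 + zc n) P hαn hβn
  obtain ⟨am1, am2, am3, am4⟩ := grad_bounds (κ := p0 + zc m) P hαm hβm
  have hΛ := P.hΛ
  have hΛ1 := P.x_one
  have hΛ0 := P.x_pos
  by_cases hl : ‖l‖ ≤ P.Λ ^ 2
  · have h0 : 1 + αm ≠ 0 := by
      intro h0
      rw [h0, norm_zero] at am1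
      norm_num at am1
    set lam : ℂ := l * (1 + αn) / (1 + αm) - 1 with hlam
    have h3 := reg_sep3 h hn hm hnm lam
    have hid : ((1 + αm) • ((2 : ℂ) • (p0 + zc m)) + βm) -
        l • ((1 + αn) • ((2 : ℂ) • (p0 + zc n)) + βn) =
        (2 * (1 + αm)) • (zc (m - n) - lam • (p0 + zc n)) - (l • βn - βm) := by
      funext j
      simp only [Pi.add_apply, Pi.sub_apply, Pi.smul_apply, smul_eq_mul, zc, hlam, Int.cast_sub]
      field_simp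
      ring
    rw [hid]
    have h4 := norm_sub_norm_le ((2 * (1 + αm)) • (zc (m - n) - lam • (p0 + zc n)))
      (l • βn - βm)
    have h5 : 3 ≤ ‖(2 * (1 + αm)) • (zc (m - n) - lam • (p0 + zc n))‖ := by
      rw [norm_smul, norm_mul]
      simp only [RCLike.norm_ofNat]
      nlinarith
    have h6 : ‖l • βn - βm‖ ≤ 2 := by
      refine (norm_sub_le _ _).trans ?_
      rw [norm_smul]
      have e2 : (P.Λ ^ 2)⁻¹ ≤ 1 := inv_le_one_of_one_le₀ (one_le_pow₀ hΛ1)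
      have e3 : ‖l‖ * ‖βn‖ ≤ P.Λ ^ 2 * (P.Λ ^ 2)⁻¹ := by gcongr
      rw [mul_inv_cancel₀ (by positivity)] at e3
      linarith
    linarith
  · have hl' := not_le.1 hl
    have h1 := norm_sub_norm_le (l • ((1 + αn) • ((2 : ℂ) • (p0 + zc n)) + βn))
      ((1 + αm) • ((2 : ℂ) • (p0 + zc m)) + βm)
    rw [norm_sub_rev, norm_smul] at h1
    refine le_trans ?_ h1
    have h2 := reg_cmp h hn hm
    have h3 := norm_le_en (p0 + zc m)
    have h4 := nsq_le_norm (p0 + zc n)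
    have h5 := reg_big h hn
    have h6 := P.x_d1
    have h7 : ‖p0 + zc m‖ ^ 2 ≤ (P.Λ * ‖p0 + zc n‖) ^ 2 := by
      calc ‖p0 + zc m‖ ^ 2 ≤ en (p0 + zc m) ^ 2 := by gcongr
        _ = nsq (p0 + zc m) := en_sq _
        _ ≤ 2 * (d * ‖p0 + zc n‖ ^ 2) := by linarith
        _ = (2 * d) * ‖p0 + zc n‖ ^ 2 := by ring
        _ ≤ P.Λ * ‖p0 + zc n‖ ^ 2 := by gcongr; linarith
        _ ≤ P.Λ ^ 2 * ‖p0 + zc n‖ ^ 2 := by gcongr; nlinarith
        _ = _ := by ring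
    have h8 : ‖p0 + zc m‖ ≤ P.Λ * ‖p0 + zc n‖ :=
      le_of_sq_le_sq h7 (by positivity)
    set K := ‖p0 + zc n‖ with hK
    have h9 : (10 : ℝ) ^ 7 ≤ K := by
      have : P.Λ ≤ P.Λ ^ 4 := by
        calc P.Λ = P.Λ ^ 1 := (pow_one _).symm
          _ ≤ P.Λ ^ 4 := pow_le_pow_right₀ hΛ1 (by norm_num)
      linarith
    have h10 : P.Λ ^ 2 * (K - 1) ≤ ‖l‖ * ‖(1 + αn) • ((2 : ℂ) • (p0 + zc n)) + βn‖ := by
      gcongr
      linarith
    have h11 : 4 * (P.Λ * K) + 2 ≤ P.Λ ^ 2 * (K - 1) := by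
      have e1 : P.Λ ^ 2 * (K - 1) = P.Λ * (P.Λ * (K - 1)) := by ring
      rw [e1]
      have e2 : 10 * K ≤ P.Λ * (K - 1) := by nlinarith
      have e3 : P.Λ * (10 * K) ≤ P.Λ * (P.Λ * (K - 1)) := by gcongr
      nlinarith
    linarith

end

theorem exists_LMat (P : Sc d μ w) {p0 : Cd d} (h : Regular P p0) :
    ∃ S a cc, LMat P (Ehat P) p0 S a cc := by
  obtain ⟨S, hS, hcard⟩ := reg_card h
  have hT : ∀ n, ∃ x : ℂ × Cd d, ‖q μ p0 n‖ < 2 * P.c →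
      ‖x.1‖ ≤ (P.Λ ^ 6)⁻¹ ∧ ‖x.2‖ ≤ (P.Λ ^ 2)⁻¹ ∧
      ∀ k k', ‖k - p0‖ ≤ P.r → ‖k' - p0‖ ≤ P.r →
        ‖Ehat P (k + zc n) - Ehat P (k' + zc n) -
          bil ((1 + x.1) • ((2 : ℂ) • (p0 + zc n)) + x.2) (k - k')‖ ≤
          P.Λ ^ 60 * P.r * ‖k - k'‖ := by
    intro n
    by_cases hn : ‖q μ p0 n‖ < 2 * P.c
    · obtain ⟨α, β, h1, h2, h3⟩ := eff_taylor h hn
      exact ⟨(α, β), fun _ => ⟨h1, h2, h3⟩⟩
    · exact ⟨0, fun h => absurd h hn⟩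
  choose x hx using hT
  set a : Zd d → Cd d := fun n => (1 + (x n).1) • ((2 : ℂ) • (p0 + zc n)) + (x n).2 with ha
  have hr := P.x_r
  have hs := P.x_s
  have hc := P.x_c
  have hε := P.x_ε
  have hΛ := P.hΛ
  have hΛ1 := P.x_one
  have hΛ0 := P.x_pos
  have hδ := dlta_pos P
  have hδs := dlta_le P
  have happ : ∀ n ∈ S, ∀ k, ‖k - p0‖ ≤ P.r →
      ‖Ehat P (k + zc n) - aff p0 (a n) (Ehat P (p0 + zc n)) k‖ ≤ dlta P := by
    intro n hn k hk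
    have h1 := (hx n ((hS n).1 hn)).2.2 k p0 hk (by simpa using hr.le)
    have h2 : Ehat P (k + zc n) - aff p0 (a n) (Ehat P (p0 + zc n)) k =
        Ehat P (k + zc n) - Ehat P (p0 + zc n) - bil (a n) (k - p0) := by
      simp only [aff]; ring
    rw [h2]
    refine h1.trans ?_
    unfold dlta
    calc P.Λ ^ 60 * P.r * ‖k - p0‖ ≤ P.Λ ^ 60 * P.r * P.r := by gcongr
      _ = _ := by ring
  have hElow : ∀ n ∈ S, ∀ k, ‖k - p0‖ ≤ P.r →
      P.s ≤ ‖aff p0 (a n) (Ehat P (p0 + zc n)) k‖ → 3 / 4 * P.s ≤ ‖Ehat P (k + zc n)‖ := by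
    intro n hn k hk hsk
    have h1 := happ n hn k hk
    have h2 := norm_sub_norm_le (aff p0 (a n) (Ehat P (p0 + zc n)) k) (Ehat P (k + zc n))
    rw [norm_sub_rev] at h2
    linarith
  have hdisc : ∀ n ∈ S, ∀ (k v : Cd d) (ρ : ℝ), 0 < ρ → ‖v‖ ≤ 1 → ‖k - p0‖ + ρ ≤ P.r →
      (∀ m ∈ S, m ≠ n → ∀ z : ℂ, ‖z‖ ≤ ρ →
        P.s ≤ ‖aff p0 (a m) (Ehat P (p0 + zc m)) (k + z • v)‖) →
      ∃ f g, Disc P n k v ρ f g := by
    intro n hn k v ρ hρ hv hk hoth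
    exact exists_disc h hS hcard hn hv hk fun m hm hmn z hz =>
      hElow m hm _ (ball_mem hv hk hz) (hoth m hm hmn z hz)
  refine ⟨S, a, fun n => Ehat P (p0 + zc n), ?_⟩
  refine ⟨hS, hcard, ?_, ?_, ?_, ?_, ?_⟩
  · refine ⟨hs, ?_, ?_, ?_, ?_, ?_, ?_⟩
    · intro n hn
      have hn' := (hS n).1 hn
      obtain ⟨-, -, h3, -⟩ := grad_bounds (κ := p0 + zc n) P (hx n hn').1 (hx n hn').2.1
      have h4 := reg_size h hn'
      have h5 : P.M = P.Λ * P.R := by unfold Sc.M Sc.R; ring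
      have hR : 1 ≤ P.R := one_le_pow₀ hΛ1
      rw [h5]
      refine h3.trans ?_
      nlinarith
    · intro n hn
      have hn' := (hS n).1 hn
      obtain ⟨-, -, -, h4⟩ := grad_bounds (κ := p0 + zc n) P (hx n hn').1 (hx n hn').2.1
      have h5 := reg_big h hn'
      have : P.Λ ≤ P.Λ ^ 4 := by
        calc P.Λ = P.Λ ^ 1 := (pow_one _).symm
          _ ≤ P.Λ ^ 4 := pow_le_pow_right₀ hΛ1 (by norm_num)
      refine le_trans ?_ h4
      linarith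
    · intro n hn m hm hnm l
      have hn' := (hS n).1 hn
      have hm' := (hS m).1 hm
      exact sep_aux h hn' hm' hnm (hx n hn').1 (hx n hn').2.1 (hx m hm').1 (hx m hm').2.1 l
    · intro k hk hall
      refine notmem_of_large S k (reg_adm h hS hk) (η := P.s / (4 * P.c)) (ε₀ := 4 * P.ε)
        (b := 4 * P.c) (by have := P.x_ε; positivity) (fun n hn => q_sub_c h ((hS n).1 hn) hk)
        (fun n hn => diag_lower h hS hk hn (hElow n hn k hk (hall n hn)))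
        (fun n hn m hm hnm => gS_off h hS hk hn hm hnm) ?_
      have h1 := eps_small P
      have hN := P.x_N
      have h3 : 1 ≤ P.Λ ^ 30 := one_le_pow₀ hΛ1
      rw [lt_div_iff₀ (by positivity)]
      have h2 : (S.card : ℝ) * (4 * P.c * (4 * P.ε)) * (4 * P.c) ≤
          P.N * (4 * P.c * (4 * P.ε)) * (4 * P.c) := by gcongr
      refine lt_of_le_of_lt h2 ?_
      have h4 : P.N * (4 * P.c * (4 * P.ε)) * (4 * P.c) = 64 * P.c ^ 2 * (P.N * P.ε) := by ring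
      rw [h4]
      have hNε : 0 < P.N * P.ε := by positivity
      have h5 : 64 * P.c ^ 2 < 100000 * P.c ^ 3 := by
        have : P.c ^ 3 = P.c * P.c ^ 2 := by ring
        rw [this]
        nlinarith [sq_nonneg P.c]
      refine lt_of_lt_of_le ?_ h1
      calc 64 * P.c ^ 2 * (P.N * P.ε) < 100000 * P.c ^ 3 * (P.N * P.ε) := by gcongr
        _ = 100000 * P.c ^ 3 * (P.N * P.ε) * 1 := by ring
        _ ≤ _ := by gcongr
    · intro n hn k v ρ hρ hv hk hoth hA z₁ z₂ h₁ h₂ f₁ f₂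
      obtain ⟨f, g, D⟩ := hdisc n hn k v ρ hρ hv hk hoth
      have hn' := (hS n).1 hn
      exact D.unique h hn' (hx n hn').2.2 hρ hv hk hA h₁ h₂
        ((D.mem z₁ (by linarith)).1 f₁) ((D.mem z₂ (by linarith)).1 f₂)
    · intro n hn k v ρ hρ hv hk hoth hA hsm
      obtain ⟨f, g, D⟩ := hdisc n hn k v ρ hρ hv hk hoth
      have hn' := (hS n).1 hn
      obtain ⟨z, hz, hfz⟩ := D.exists_zero h hn' (hx n hn').2.2 hρ hv hk hA hsm
      exact ⟨z, hz, (D.mem z (by linarith)).2 hfz⟩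
  · intro n hn k hk
    exact (happ n hn k hk).trans (by linarith)
  · intro n hn k hk
    have hG := G_nonneg P
    have hn' := (hS n).1 hn
    have hC := (Cl_of h hn' hk).mono (g' := P.G / 2) (by linarith)
    rw [Ehat_eq, add_sub_cancel_left]
    refine (Hh_bound P hC).trans ?_
    rw [one_div]
    apply inv_anti₀ (by norm_num)
    nlinarith
  · intro k hk n hn
    exact (hS n).2 (reg_res h n hk hn)
  · intro n hn
    have hn' := (hS n).1 hn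
    obtain ⟨h1, h2, -, -⟩ := grad_bounds (κ := p0 + zc n) P (hx n hn').1 (hx n hn').2.1
    refine ⟨2 * (1 + (x n).1), ?_, ?_⟩
    · rw [norm_mul]
      simp only [RCLike.norm_ofNat]
      linarith
    · have : a n - (2 * (1 + (x n).1)) • (p0 + zc n) = (x n).2 := by
        simp only [ha]
        rw [smul_smul]
        have : (1 + (x n).1) * 2 = 2 * (1 + (x n).1) := by ring
        rw [this]
        abel
      rw [this]
      exact ((hx n hn').2.1).trans (inv_le_one_of_one_le₀ (one_le_pow₀ hΛ1))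

theorem eff_Ehat (P : Sc d μ w) : Eff P (Ehat P) where
  lmat := fun p0 h => exists_LMat P h
  near0 := fun b hb => Ehat_near0 P hb
  near1 := fun b hb z₁ z₂ h₁ h₂ => Ehat_near1 P hb h₁ h₂
  cont := fun b hb z hz => Ehat_cont P hb hz

end Fermi
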