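import Pool.Agent.Lib.Fermi.NotMem
import Pool.Agent.Lib.Fermi.OpLM
import Pool.Agent.Lib.Fermi.GeoReg
import Pool.Agent.Lib.Fermi.GeoAux

/-!
# Chunk EL1: the ends of the vertical line are base points over a chamber
-/

open scoped BigOperators Topology
open Set Filter Complex

noncomputable section

namespace Fermi

variable {d : ℕ} {μ : ℂ} {w : Zd d → ℂ} {P : Sc d μ w} {Q : Dirs P} {l : Zd d} {zh : ℂ → ℂ}

/-- the ends belong to the parameter domain -/
lemma el_Om (hP : Prim l) {Ξ : ℂ} (hre : |Ξ.re - Q.X0 l| ≤ 1) {s : ℝ} (hs : s = 1 ∨ s = -1)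
    (him : Ξ.im = s * P.T1 * l2 l) : Ξ ∈ Q.Om l := by
  have hl2 := one_le_l2 hP.1
  have hT : 0 < P.T1 := pow_pos P.Λ_pos 7
  have hTl : 0 < P.T1 * l2 l := mul_pos hT (by linarith)
  refine ⟨by linarith, ?_⟩
  rw [him]
  rcases hs with hs | hs <;> rw [hs]
  · rw [one_mul, abs_of_pos hTl]
    nlinarith
  · have : (-1 : ℝ) * P.T1 * l2 l = -(P.T1 * l2 l) := by ring
    rw [this, abs_neg, abs_of_pos hTl]
    nlinarith

/-- the coefficient of `ed` -/
lemma el_zeta (hS : Sheet P Q l zh) (hP : Prim l) (hlL : ‖l‖ ≤ P.L) {Ξ : ℂ} (hO : Ξ ∈ Q.Om l)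
    (hre : |Ξ.re - Q.X0 l| ≤ 1) : |(zh Ξ).im - Q.ta l| ≤ 2 := by
  have hl := hP.1
  have hso := one_le_so Q hl hlL
  have hs0 : 0 < Q.so l := by linarith
  have h1 := hS.near Ξ hO
  have h2 := (Complex.abs_im_le_norm (zh Ξ - I * Ξ / (Q.so l : ℂ))).trans h1
  have h3 : (zh Ξ - I * Ξ / (Q.so l : ℂ)).im = (zh Ξ).im - Ξ.re / Q.so l := by
    rw [Complex.sub_im, Complex.div_ofReal_im]
    simp
  rw [h3] at h2
  have h4 : |Ξ.re / Q.so l - Q.ta l| ≤ 1 := by
    have : Ξ.re / Q.so l - Q.ta l = (Ξ.re - Q.X0 l) / Q.so l := by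
      unfold Dirs.X0
      field_simp
    rw [this, abs_div, abs_of_pos hs0, div_le_one hs0]
    linarith
  have h5 : (P.Λ ^ 10)⁻¹ ≤ 1 := inv_le_one_of_one_le₀ (one_le_pow₀ (by have := P.Λ_ge; linarith))
  have h6 := abs_add_le ((zh Ξ).im - Ξ.re / Q.so l) (Ξ.re / Q.so l - Q.ta l)
  rw [sub_add_sub_cancel] at h6
  linarith

theorem end_Pc (hS : Sheet P Q l zh) (hP : Prim l) (hlL : ‖l‖ ≤ P.L) {Ξ : ℂ}
    (hre : |Ξ.re - Q.X0 l| ≤ 1) {s : ℝ} (hs : s = 1 ∨ s = -1) (him : Ξ.im = s * P.T1 * l2 l) :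
    im (Q.kap l Ξ (zh Ξ)) ∈ Pc P (2 * P.G) (fun j => Q.yc l j + s * P.T1 * (l j : ℝ)) := by
  have hl := hP.1
  have hO := el_Om hP hre hs him
  have hζ := el_zeta hS hP hlL hO hre
  have hl2 := one_le_l2 hl
  have hl20 : 0 < l2 l := by linarith
  have hl2Λ := l2_le P hlL
  have hedΛ := l2_ed_le Q hlL
  have hta := ta_ge Q hl hlL
  have hta' := ta_le Q hl hlL
  have hΛ := P.Λ_ge
  have hΛ0 := P.Λ_pos
  have hT1 : P.T1 = P.Λ ^ 7 := rfl
  have hG : P.G = P.Λ ^ 5 := rfl
  have hs2 : s ^ 2 = 1 := by rcases hs with hs | hs <;> rw [hs] <;> norm_num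
  have hsabs : |s| = 1 := by rcases hs with hs | hs <;> rw [hs] <;> simp
  set ζ : ℝ := (zh Ξ).im with hζd
  -- coordinates
  have hy : im (Q.kap l Ξ (zh Ξ)) = fun j => s * P.T1 * (l j : ℝ) + ζ * (Q.ed l j : ℝ) := by
    funext j
    rw [im_kap, him, mul_div_assoc, div_self hl20.ne', mul_one]
  have hdtl : ∀ l' : Zd d, dt (im (Q.kap l Ξ (zh Ξ))) l' =
      s * P.T1 * (di l l' : ℝ) + ζ * (di (Q.ed l) l' : ℝ) := by
    intro l'
    rw [hy, ga_dt_add, ga_dt_int, ga_dt_int]
  have hdty : ∀ l' : Zd d, dt (fun j => Q.yc l j + s * P.T1 * (l j : ℝ)) l' =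
      Q.ta l * (di (Q.ed l) l' : ℝ) + s * P.T1 * (di l l' : ℝ) := by
    intro l'
    have : (fun j => Q.yc l j + s * P.T1 * (l j : ℝ)) =
        fun j => Q.ta l * (Q.ed l j : ℝ) + s * P.T1 * (l j : ℝ) := by
      funext j; rfl
    rw [this, ga_dt_add, ga_dt_int, ga_dt_int]
  have hζabs : |ζ| ≤ P.Λ ^ 20 + 2 := by
    have := abs_add_le (ζ - Q.ta l) (Q.ta l)
    rw [sub_add_cancel] at this
    linarith
  refine ⟨?_, ?_⟩
  · -- size
    have hdr : dr (im (Q.kap l Ξ (zh Ξ))) (im (Q.kap l Ξ (zh Ξ))) =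
        P.T1 ^ 2 * l2 l + ζ ^ 2 * l2 (Q.ed l) := by
      rw [hy]
      unfold dr l2 di
      push_cast
      have h0 : (∑ j, (l j : ℝ) * (Q.ed l j : ℝ)) = 0 := by
        have := di_ed_self Q l
        unfold di at this
        exact_mod_cast this
      have h1 : ∀ j, (s * P.T1 * (l j : ℝ) + ζ * (Q.ed l j : ℝ)) * (s * P.T1 * (l j : ℝ) + ζ * (Q.ed l j : ℝ))
          = s ^ 2 * (P.T1 ^ 2 * ((l j : ℝ) * (l j : ℝ))) + ζ ^ 2 * ((Q.ed l j : ℝ) * (Q.ed l j : ℝ)) +
            2 * s * P.T1 * ζ * ((l j : ℝ) * (Q.ed l j : ℝ)) := by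
        intro j; ring
      rw [Finset.sum_congr rfl (fun j _ => h1 j), Finset.sum_add_distrib, Finset.sum_add_distrib,
        ← Finset.mul_sum, ← Finset.mul_sum, ← Finset.mul_sum, ← Finset.mul_sum, h0, hs2]
      ring
    rw [hdr, mul_pow, mul_assoc, mul_comm (2 ^ 2 : ℝ), mul_assoc]
    apply mul_le_mul_of_nonneg_left _ (by positivity)
    have hR : P.R ^ 2 = P.Λ ^ 52 := by unfold Sc.R; ring
    rw [hR, hT1]
    have a1 : (P.Λ ^ 7) ^ 2 * l2 l ≤ P.Λ ^ 15 := by
      have : l2 l ≤ P.Λ := by linarith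
      calc (P.Λ ^ 7) ^ 2 * l2 l ≤ (P.Λ ^ 7) ^ 2 * P.Λ := mul_le_mul_of_nonneg_left this (by positivity)
        _ = P.Λ ^ 15 := by ring
    have a2 : ζ ^ 2 ≤ 4 * P.Λ ^ 40 := by
      have h3 : |ζ| ≤ 2 * P.Λ ^ 20 := by
        have : (2 : ℝ) ≤ P.Λ ^ 20 := by
          have := ga_pow P (show 0 < 20 by norm_num)
          rw [pow_zero] at this
          linarith
        linarith
      rw [← sq_abs]
      calc |ζ| ^ 2 ≤ (2 * P.Λ ^ 20) ^ 2 := pow_le_pow_left₀ (abs_nonneg _) h3 2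
        _ = 4 * P.Λ ^ 40 := by ring
    have a3 : ζ ^ 2 * l2 (Q.ed l) ≤ 4 * P.Λ ^ 41 := by
      have h0 : 0 ≤ l2 (Q.ed l) := by have := one_le_l2_ed Q hl hlL; linarith
      calc ζ ^ 2 * l2 (Q.ed l) ≤ (4 * P.Λ ^ 40) * P.Λ := mul_le_mul a2 hedΛ h0 (by positivity)
        _ = 4 * P.Λ ^ 41 := by ring
    have a4 := ga_pow P (show 15 < 52 by norm_num)
    have a5 := ga_pow P (show 41 < 52 by norm_num)
    have a6 := ga_pow_pos P 15
    have a7 := ga_pow_pos P 41
    linarith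
  · intro l' hl' hl'L
    rw [hdtl, hdty]
    have hedl : di (Q.ed l) l' = di Q.e l * di Q.a l' - di Q.a l * di Q.e l' := by
      unfold Dirs.ed
      rw [ga_di_sub_left, ga_di_smul_left, ga_di_smul_left]
    by_cases hn : di Q.e l * di Q.a l' = di Q.e l' * di Q.a l
    · -- parallel
      have h0 : di (Q.ed l) l' = 0 := by rw [hedl, hn]; ring
      obtain ⟨i, j, hi, hj, hij⟩ := Q.hea l l' hl hlL hl' hl'L hn
      obtain ⟨k, hk⟩ := hP.2 l' ⟨j, i, hj, hij.symm⟩
      have hk0 : k ≠ 0 := by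
        rintro rfl
        rw [zero_smul] at hk
        exact hl' hk
      have hk1 := ga_one_le_abs hk0
      have hd : (di l l' : ℝ) = k * l2 l := by
        rw [hk, ga_di_smul_right]
        unfold l2
        push_cast
        ring
      rw [h0, Int.cast_zero, mul_zero, mul_zero, add_zero, zero_add, hd]
      have hT0 : 0 < P.T1 := pow_pos hΛ0 7
      constructor
      · rw [abs_mul, abs_mul, abs_mul, abs_mul, hsabs, abs_of_pos hT0, abs_of_pos hl20, abs_two, hG, hT1]
        have h5 := ga_pow P (show 5 < 7 by norm_num)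
        have h6 : P.Λ ^ 7 ≤ P.Λ ^ 7 * (|(k : ℝ)| * l2 l) := by
          apply le_mul_of_one_le_right (by positivity)
          nlinarith
        have h7 := ga_pow_pos P 5
        linarith
      · have h8 : s * P.T1 * (k * l2 l) ≠ 0 := by
          have hs0 : s ≠ 0 := by
            intro h; rw [h] at hs2; norm_num at hs2
          have hk0' : (k : ℝ) ≠ 0 := by exact_mod_cast hk0
          positivity
        exact mul_self_pos.mpr h8
    · -- not parallel
      have h0 : di (Q.ed l) l' ≠ 0 := by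
        rw [hedl]
        intro h
        apply hn
        linarith
      have h1 := ga_one_le_abs h0
      have h2 : |(di l l' : ℝ)| ≤ P.Λ := by
        have := ga_di_small P hlL hl'L
        have := abs_nonneg (di l l' : ℝ)
        linarith
      have h3 : |s * P.T1 * (di l l' : ℝ)| ≤ P.Λ ^ 8 := by
        rw [abs_mul, abs_mul, hsabs, one_mul, hT1, abs_of_pos (by positivity)]
        calc P.Λ ^ 7 * |(di l l' : ℝ)| ≤ P.Λ ^ 7 * P.Λ := mul_le_mul_of_nonneg_left h2 (by positivity)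
          _ = P.Λ ^ 8 := by ring
      have h8 := ga_pow P (show 8 < 19 by norm_num)
      have h5 := ga_pow P (show 5 < 19 by norm_num)
      have h00 := ga_pow P (show 0 < 19 by norm_num)
      rw [pow_zero] at h00
      have h8p := ga_pow_pos P 8
      have h5p := ga_pow_pos P 5
      set X : ℝ := (di (Q.ed l) l' : ℝ) with hX
      set Y : ℝ := s * P.T1 * (di l l' : ℝ) with hY
      -- `ta` and `ζ` have the same sign and are large
      have hpos : 0 < ζ * Q.ta l ∧ P.Λ ^ 19 / 2 ≤ |ζ| := by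
        obtain ⟨b1, b2⟩ := abs_le.mp hζ
        rcases le_or_gt 0 (Q.ta l) with ht | ht
        · rw [abs_of_nonneg ht] at hta
          have h9 : P.Λ ^ 19 / 2 ≤ ζ := by linarith
          have h10 : 0 < ζ := by linarith
          exact ⟨mul_pos h10 (by linarith), by rw [abs_of_pos h10]; exact h9⟩
        · rw [abs_of_neg ht] at hta
          have h9 : ζ ≤ -(P.Λ ^ 19 / 2) := by linarith
          have h10 : ζ < 0 := by linarith
          exact ⟨mul_pos_of_neg_of_neg h10 ht, by rw [abs_of_neg h10]; linarith⟩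
      have hbig : P.Λ ^ 19 / 2 ≤ |ζ * X| := by
        rw [abs_mul]
        have := abs_nonneg ζ
        nlinarith [hpos.2]
      have hbig' : P.Λ ^ 19 / 2 ≤ |Q.ta l * X| := by
        rw [abs_mul]
        have := abs_nonneg (Q.ta l)
        nlinarith
      have hXpos : 0 < X ^ 2 := by
        have : X ≠ 0 := by rw [hX]; exact_mod_cast h0
        positivity
      have hsign : 0 < (ζ * X) * (Q.ta l * X) := by
        have : (ζ * X) * (Q.ta l * X) = (ζ * Q.ta l) * X ^ 2 := by ring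
        rw [this]
        exact mul_pos hpos.1 hXpos
      constructor
      · rw [abs_mul, abs_two, hG]
        have h9 := abs_sub_abs_le_abs_sub (ζ * X) (-Y)
        rw [abs_neg, sub_neg_eq_add, add_comm] at h9
        linarith
      · rw [abs_le] at h3
        rcases le_or_gt 0 (ζ * X) with hz | hz
        · rw [abs_of_nonneg hz] at hbig
          have hz' : 0 < Q.ta l * X := by
            by_contra hcon
            push Not at hcon
            nlinarith
          rw [abs_of_pos hz'] at hbig'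
          apply mul_pos <;> linarith [h3.1, h3.2]
        · rw [abs_of_neg hz] at hbig
          have hz' : Q.ta l * X < 0 := by
            by_contra hcon
            push Not at hcon
            nlinarith
          rw [abs_of_neg hz'] at hbig'
          apply mul_pos_of_neg_of_neg <;> linarith [h3.1, h3.2]

theorem end_base (hS : Sheet P Q l zh) (hP : Prim l) (hlL : ‖l‖ ≤ P.L) {Ξ : ℂ}
    (hre : |Ξ.re - Q.X0 l| ≤ 1) {s : ℝ} (hs : s = 1 ∨ s = -1) (him : Ξ.im = s * P.T1 * l2 l) :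
    Base P (Ehat P) (Q.kap l Ξ (zh Ξ)) := by
  have hO := el_Om hP hre hs him
  have hPc := end_Pc hS hP hlL hre hs him
  refine ⟨?_, ?_, ?_⟩
  · refine regular_near_Pc (g := 2 * P.G) (by linarith [P.G_pos]) hPc ?_
    rw [sub_self]
    unfold nsq
    simp
  · rw [hS.zero Ξ hO, norm_zero]
    have := sc_s_pos P
    linarith
  · refine (hS.q0 Ξ hO).trans ?_
    rw [inv_le_comm₀ (pow_pos P.Λ_pos 2) (by norm_num)]
    have := ga_pow P (show 0 < 2 by norm_num)
    rw [pow_zero] at this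
    linarith

end Fermi
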