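import Pool.Agent.Lib.Fermi.GeoReg

/-!
# Chunk G2: Thomas points are connected to chambers

`τ = tt / di e l`, `h = dt (re p) (ed l)`, so `|h| ≥ 3/8`.
Step 1: `b(θ) = p - i θ η`, `θ ∈ [0,1]` (thick and `pm` regular by `regular_near_Th`; `|b||η|` is tiny).
Step 2: now `im b = yc l + σ l`, `bil b b = z₀` fixed, `h` fixed. `b0 = Im z₀/2 = dr x y = τ h + σ dt x l`, so `σ ≠ 0`.
For `σ'` from `σ` to `sign σ (T1 + 1)` put `X(σ') = (b0 - τ h)/σ'`,
`x(σ') = (X/|l|²) l + (h/|ed|²) ed + g f`, `f` a unit vector orthogonal to `l` and `ed` (`d ≥ 3`; take the direction of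
the corresponding component of `re b` if it is nonzero), `g² = |y|² + Re z₀ - X²/|l|² - h²/|ed|²` (increasing in `|σ'|`, `≥ 0` at the start).
At the end `|2 dt y l| ≥ 2 T1` and for `l'` not parallel to `l`, `|2 dt y l'| ≥ |τ| - ..` large: `im b ∈ PP (2G)`
(reference point `yl (sg ± G)`, where `yc l = yl sg`, `sg = -tt di a l/di e l`), so `im (pm b) ∈ PP (3/2 G)`.
If `|σ| > T1 + 1` cannot happen by hypothesis. Use `CC_pm`, `CC_path` (twice).
-/

open scoped BigOperators Topology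
open Set Filter
noncomputable section
namespace Fermi
variable {d : ℕ} {μ : ℂ} {w : Zd d → ℂ}
variable {P : Sc d μ w} {Q : Dirs P} {E : Cd d → ℂ} {A B : Set (Cd d)}

namespace GeoTh

lemma nsq_eq (b : Cd d) : nsq b = dr (re b) (re b) + dr (im b) (im b) := by
  unfold nsq dr re im
  rw [← Finset.sum_add_distrib]
  refine Finset.sum_congr rfl (fun i _ => ?_)
  rw [Complex.sq_norm, Complex.normSq_apply]

lemma bil_self_re (b : Cd d) : (bil b b).re = dr (re b) (re b) - dr (im b) (im b) := by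
  unfold bil dr re im
  rw [Complex.re_sum, ← Finset.sum_sub_distrib]
  refine Finset.sum_congr rfl (fun i _ => ?_)
  rw [Complex.mul_re]

lemma bil_self_im (b : Cd d) : (bil b b).im = 2 * dr (re b) (im b) := by
  unfold bil dr re im
  rw [Complex.im_sum, Finset.mul_sum]
  refine Finset.sum_congr rfl (fun i _ => ?_)
  rw [Complex.mul_im]; ring

lemma q_zero (b : Cd d) : q μ b 0 = bil b b - μ := by
  unfold q zc
  simp [Pi.add_def]

lemma cs (x y : Fin d → ℝ) : (dr x y) ^ 2 ≤ dr x x * dr y y := by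
  have h := Finset.sum_mul_sq_le_sq_mul_sq Finset.univ x y
  unfold dr
  simpa [sq] using h

lemma dr_self_nonneg (x : Fin d → ℝ) : 0 ≤ dr x x :=
  Finset.sum_nonneg (fun i _ => mul_self_nonneg _)

/-- an integer vector as a real vector -/
def zr (n : Zd d) : Fin d → ℝ := fun j => (n j : ℝ)

lemma dt_eq (y : Fin d → ℝ) (n : Zd d) : dt y n = dr y (zr n) := rfl

lemma dr_zr (n m : Zd d) : dr (zr n) (zr m) = (di n m : ℝ) := by
  unfold dr zr di
  push_cast
  rfl

lemma dr_comm (x y : Fin d → ℝ) : dr x y = dr y x := by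
  unfold dr
  exact Finset.sum_congr rfl (fun i _ => mul_comm _ _)

lemma dr_add_left (x y z : Fin d → ℝ) : dr (x + y) z = dr x z + dr y z := by
  unfold dr
  rw [← Finset.sum_add_distrib]
  exact Finset.sum_congr rfl (fun i _ => by rw [Pi.add_apply]; ring)

lemma dr_smul_left (a : ℝ) (y z : Fin d → ℝ) : dr (a • y) z = a * dr y z := by
  unfold dr
  rw [Finset.mul_sum]
  exact Finset.sum_congr rfl (fun i _ => by rw [Pi.smul_apply, smul_eq_mul]; ring)

lemma dr_add_right (x y z : Fin d → ℝ) : dr z (x + y) = dr z x + dr z y := by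
  rw [dr_comm, dr_add_left, dr_comm x, dr_comm y]

lemma dr_smul_right (a : ℝ) (y z : Fin d → ℝ) : dr z (a • y) = a * dr z y := by
  rw [dr_comm, dr_smul_left, dr_comm y]

lemma dr_add_sq_le (x y : Fin d → ℝ) : dr (x + y) (x + y) ≤ 2 * (dr x x + dr y y) := by
  unfold dr
  rw [← Finset.sum_add_distrib, Finset.mul_sum]
  refine Finset.sum_le_sum (fun i _ => ?_)
  rw [Pi.add_apply]
  nlinarith [sq_nonneg (x i - y i)]

lemma di_comm (n m : Zd d) : di n m = di m n := by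
  unfold di
  exact Finset.sum_congr rfl (fun i _ => mul_comm _ _)

lemma di_self_pos {n : Zd d} (hn : n ≠ 0) : 1 ≤ di n n := by
  obtain ⟨j, hj⟩ : ∃ j, n j ≠ 0 := by
    by_contra h
    push Not at h
    exact hn (funext h)
  have h1 : n j * n j ≤ di n n :=
    Finset.single_le_sum (f := fun j => n j * n j) (fun i _ => mul_self_nonneg _)
      (Finset.mem_univ j)
  have h2 : 0 < n j * n j := mul_self_pos.2 hj
  linarith

lemma abs_coord_le {n : Zd d} {L : ℕ} (hn : ‖n‖ ≤ L) (j : Fin d) : |(n j : ℝ)| ≤ L := by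
  have h1 : ‖n j‖ ≤ ‖n‖ := norm_le_pi_norm n j
  rw [Int.norm_eq_abs] at h1
  exact h1.trans hn

lemma abs_di_le {n m : Zd d} {L : ℕ} (hn : ‖n‖ ≤ L) (hm : ‖m‖ ≤ L) :
    |(di n m : ℝ)| ≤ d * (L : ℝ) ^ 2 := by
  unfold di
  push_cast
  refine (Finset.abs_sum_le_sum_abs _ _).trans ?_
  have h : ∀ j ∈ (Finset.univ : Finset (Fin d)), |(n j : ℝ) * (m j : ℝ)| ≤ (L : ℝ) ^ 2 := by
    intro j _
    rw [abs_mul, sq]
    exact mul_le_mul (abs_coord_le hn j) (abs_coord_le hm j) (abs_nonneg _) (Nat.cast_nonneg _)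
  refine (Finset.sum_le_sum h).trans ?_
  simp

lemma di_smul_left (a : ℤ) (n m : Zd d) : di (a • n) m = a * di n m := by
  unfold di
  rw [Finset.mul_sum]
  exact Finset.sum_congr rfl (fun i _ => by rw [Pi.smul_apply, smul_eq_mul]; ring)

lemma di_sub_left (n n' m : Zd d) : di (n - n') m = di n m - di n' m := by
  unfold di
  rw [← Finset.sum_sub_distrib]
  exact Finset.sum_congr rfl (fun i _ => by rw [Pi.sub_apply]; ring)

lemma di_ed (Q : Dirs P) (l m : Zd d) : di (Q.ed l) m = di Q.e l * di Q.a m - di Q.a l * di Q.e m := by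
  unfold Dirs.ed
  rw [di_sub_left, di_smul_left, di_smul_left]

lemma di_ed_self (Q : Dirs P) (l : Zd d) : di (Q.ed l) l = 0 := by
  rw [di_ed]; ring




lemma one_le_Λ (P : Sc d μ w) : 1 ≤ P.Λ := by have := P.hΛ; linarith

lemma Λ_pos (P : Sc d μ w) : 0 < P.Λ := lt_of_lt_of_le one_pos (one_le_Λ P)

lemma pow_le (P : Sc d μ w) {a b : ℕ} (h : a ≤ b) : P.Λ ^ a ≤ P.Λ ^ b :=
  pow_le_pow_right₀ (one_le_Λ P) h

lemma pow_step (P : Sc d μ w) (a : ℕ) : 10 ^ 7 * P.Λ ^ a ≤ P.Λ ^ (a + 1) := by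
  have h := Λ_pos P
  calc 10 ^ 7 * P.Λ ^ a ≤ P.Λ * P.Λ ^ a := mul_le_mul_of_nonneg_right P.hΛ (by positivity)
    _ = P.Λ ^ (a + 1) := by ring

lemma norm_w0 (P : Sc d μ w) : ‖w 0‖ ≤ P.c / 4 - 2 := by
  have h1 : ‖w 0‖ ≤ ∑' n, ‖w n‖ := P.hw.le_tsum 0 (fun n _ => norm_nonneg _)
  have := P.hc
  linarith

lemma c_le (P : Sc d μ w) : 8 ≤ P.c := by
  have h1 : 0 ≤ ∑' n, ‖w n‖ := tsum_nonneg fun n => norm_nonneg _
  have := P.hc
  linarith

lemma d_pos (P : Sc d μ w) : (3 : ℝ) ≤ d := by exact_mod_cast P.hd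

lemma L_pos (P : Sc d μ w) : (1 : ℝ) ≤ P.L := by
  have h1 := P.hL
  have h2 := P.hd
  have : 1 ≤ P.L := by omega
  exact_mod_cast this

lemma dL2 (P : Sc d μ w) : (d : ℝ) * (P.L : ℝ) ^ 2 ≤ P.Λ / 100 := by
  have h1 := P.hLΛ
  have h2 := d_pos P
  have h3 : (d : ℝ) * (P.L : ℝ) ^ 2 ≤ (d : ℝ) ^ 2 * (P.L : ℝ) ^ 2 := by
    apply mul_le_mul_of_nonneg_right _ (by positivity)
    nlinarith
  linarith

lemma d_le (P : Sc d μ w) : (d : ℝ) ≤ P.Λ / 100 := by
  have h1 := dL2 P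
  have h2 := L_pos P
  have h3 := d_pos P
  have h4 : (d : ℝ) * 1 ≤ (d : ℝ) * (P.L : ℝ) ^ 2 := by
    apply mul_le_mul_of_nonneg_left _ (by linarith)
    nlinarith
  linarith

lemma r_pos (P : Sc d μ w) : 0 < P.r := by
  unfold Sc.r
  have := Λ_pos P
  positivity

lemma r_mul (P : Sc d μ w) : P.r * P.Λ ^ 300 ≤ 1 := by
  unfold Sc.r
  have := Λ_pos P
  rw [inv_mul_le_iff₀ (by positivity), mul_one]
  exact pow_le P (by omega)

lemma ed_ne (Q : Dirs P) {l : Zd d} (hl : l ≠ 0) (hlL : ‖l‖ ≤ P.L) : Q.ed l ≠ 0 := by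
  intro h0
  have h1 : ∀ l' : Zd d, l' ≠ 0 → ‖l'‖ ≤ P.L → ∃ i j : ℤ, i ≠ 0 ∧ j ≠ 0 ∧ i • l = j • l' := by
    intro l' hl' hL'
    refine Q.hea l l' hl hlL hl' hL' ?_
    have h2 := di_ed Q l l'
    rw [h0] at h2
    have h3 : di (0 : Zd d) l' = 0 := by simp [di]
    rw [h3] at h2
    linarith
  have hd := P.hd
  have h2 : ∀ k : Fin d, ∃ i j : ℤ, i ≠ 0 ∧ j ≠ 0 ∧ i • l = j • (Pi.single k 1 : Zd d) := by
    intro k
    refine h1 _ ?_ ?_
    · intro h
      have := congrFun h k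
      simp at this
    · rw [Pi.norm_single]
      simpa using L_pos P
  apply hl
  funext k
  obtain ⟨k', hk'⟩ : ∃ k' : Fin d, k' ≠ k := by
    by_cases h : k = ⟨0, by omega⟩
    · exact ⟨⟨1, by omega⟩, by rw [h]; simp [Fin.ext_iff]⟩
    · exact ⟨⟨0, by omega⟩, fun h' => h h'.symm⟩
  obtain ⟨i, j, hi, hj, hij⟩ := h2 k'
  have h3 := congrFun hij k
  rw [Pi.smul_apply, Pi.smul_apply, Pi.single_eq_of_ne hk'.symm, smul_zero, smul_eq_mul] at h3
  rcases mul_eq_zero.1 h3 with h | h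
  · exact absurd h hi
  · exact h

/-- the coefficient of `ed l` in `yc l` -/
def tau (Q : Dirs P) (l : Zd d) : ℝ := P.tt / (di Q.e l : ℝ)

lemma tau_le (Q : Dirs P) {l : Zd d} (hl : l ≠ 0) (hlL : ‖l‖ ≤ P.L) : |tau Q l| ≤ P.Λ ^ 20 := by
  have h1 : (1 : ℝ) ≤ |(di Q.e l : ℝ)| := by
    have := Int.one_le_abs (Q.he l hl hlL)
    exact_mod_cast this
  unfold tau Sc.tt
  have := Λ_pos P
  rw [abs_div, abs_of_pos (by positivity : 0 < P.Λ ^ 20)]
  exact div_le_self (by positivity) h1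

lemma le_tau (Q : Dirs P) {l : Zd d} (hl : l ≠ 0) (hlL : ‖l‖ ≤ P.L) : P.Λ ^ 19 ≤ |tau Q l| := by
  have h1 : (1 : ℝ) ≤ |(di Q.e l : ℝ)| := by
    have := Int.one_le_abs (Q.he l hl hlL)
    exact_mod_cast this
  have h2 := Q.be l hlL
  unfold tau Sc.tt
  have := Λ_pos P
  rw [abs_div, abs_of_pos (by positivity : 0 < P.Λ ^ 20), le_div_iff₀ (by linarith)]
  calc P.Λ ^ 19 * |(di Q.e l : ℝ)| ≤ P.Λ ^ 19 * P.Λ :=
        mul_le_mul_of_nonneg_left h2 (by positivity)
    _ = P.Λ ^ 20 := by ring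

lemma ED_ge (Q : Dirs P) {l : Zd d} (hl : l ≠ 0) (hlL : ‖l‖ ≤ P.L) :
    (1 : ℝ) ≤ (di (Q.ed l) (Q.ed l) : ℝ) := by
  have := di_self_pos (ed_ne Q hl hlL)
  exact_mod_cast this

lemma ED_le (Q : Dirs P) {l : Zd d} (hlL : ‖l‖ ≤ P.L) :
    (di (Q.ed l) (Q.ed l) : ℝ) ≤ P.Λ := Q.ned l hlL

lemma LL_ge {l : Zd d} (hl : l ≠ 0) : (1 : ℝ) ≤ (di l l : ℝ) := by
  have := di_self_pos hl
  exact_mod_cast this

lemma LL_le (P : Sc d μ w) {l : Zd d} (hlL : ‖l‖ ≤ P.L) : (di l l : ℝ) ≤ P.Λ / 100 :=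
  (le_abs_self _).trans ((abs_di_le hlL hlL).trans (dL2 P))

lemma im_eq (Q : Dirs P) {l : Zd d} {b : Cd d} {σ : ℝ} {η : Fin d → ℝ}
    (hb : ∀ j, im b j = Q.yc l j + σ * (l j : ℝ) + η j) :
    im b = tau Q l • zr (Q.ed l) + σ • zr l + η := by
  funext j
  rw [hb j]
  rfl

lemma dr_eta_le (P : Sc d μ w) {η : Fin d → ℝ} (hη : ∀ j, |η j| ≤ P.r) :
    dr η η * P.Λ ^ 500 ≤ 1 := by
  have h1 : dr η η ≤ d * P.r ^ 2 := by
    unfold dr
    have h : ∀ j ∈ (Finset.univ : Finset (Fin d)), η j * η j ≤ P.r ^ 2 := by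
      intro j _
      rw [← sq, ← sq_abs]
      exact pow_le_pow_left₀ (abs_nonneg _) (hη j) 2
    refine (Finset.sum_le_sum h).trans ?_
    simp
  have h2 := r_mul P
  have h3 := Λ_pos P
  have h4 := r_pos P
  have h5 : d * P.r ^ 2 * P.Λ ^ 500 ≤ P.Λ * P.r ^ 2 * P.Λ ^ 500 := by
    apply mul_le_mul_of_nonneg_right _ (by positivity)
    apply mul_le_mul_of_nonneg_right _ (by positivity)
    have := d_le P
    linarith
  have h6 : P.Λ * P.r ^ 2 * P.Λ ^ 500 ≤ (P.r * P.Λ ^ 300) ^ 2 := by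
    have : (P.r * P.Λ ^ 300) ^ 2 = P.r ^ 2 * P.Λ ^ 600 := by ring
    rw [this]
    have h7 : P.Λ * P.r ^ 2 * P.Λ ^ 500 = P.r ^ 2 * P.Λ ^ 501 := by ring
    rw [h7]
    exact mul_le_mul_of_nonneg_left (pow_le P (by norm_num)) (by positivity)
  calc dr η η * P.Λ ^ 500 ≤ d * P.r ^ 2 * P.Λ ^ 500 :=
        mul_le_mul_of_nonneg_right h1 (by positivity)
    _ ≤ P.Λ * P.r ^ 2 * P.Λ ^ 500 := h5
    _ ≤ (P.r * P.Λ ^ 300) ^ 2 := h6
    _ ≤ 1 := pow_le_one₀ (by positivity) h2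


lemma upper (Q : Dirs P) {l : Zd d} (hl : l ≠ 0) (hlL : ‖l‖ ≤ P.L) {b : Cd d} {σ : ℝ}
    (hσ : |σ| ≤ P.T1 + 1) {η : Fin d → ℝ} (hη : dr η η ≤ 1)
    (hb : ∀ j, im b j = Q.yc l j + σ * (l j : ℝ) + η j) :
    dr (im b) (im b) ≤ P.Λ ^ 42 := by
  have hΛ := Λ_pos P
  rw [im_eq Q hb]
  have h1 := dr_add_sq_le (tau Q l • zr (Q.ed l) + σ • zr l) η
  have h2 := dr_add_sq_le (tau Q l • zr (Q.ed l)) (σ • zr l)
  have h3 : dr (tau Q l • zr (Q.ed l)) (tau Q l • zr (Q.ed l)) ≤ P.Λ ^ 41 := by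
    rw [dr_smul_left, dr_smul_right, dr_zr]
    have h4 : tau Q l * tau Q l ≤ P.Λ ^ 40 := by
      have := pow_le_pow_left₀ (abs_nonneg _) (tau_le Q hl hlL) 2
      rw [sq_abs] at this
      calc tau Q l * tau Q l = tau Q l ^ 2 := by ring
        _ ≤ (P.Λ ^ 20) ^ 2 := this
        _ = P.Λ ^ 40 := by ring
    have h5 := ED_le Q hlL
    have h6 := ED_ge Q hl hlL
    calc tau Q l * (tau Q l * (di (Q.ed l) (Q.ed l) : ℝ))
        = (tau Q l * tau Q l) * (di (Q.ed l) (Q.ed l) : ℝ) := by ring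
      _ ≤ P.Λ ^ 40 * P.Λ := mul_le_mul h4 h5 (by linarith) (by positivity)
      _ = P.Λ ^ 41 := by ring
  have h4 : dr (σ • zr l) (σ • zr l) ≤ P.Λ ^ 16 := by
    rw [dr_smul_left, dr_smul_right, dr_zr]
    have h5 : σ * σ ≤ 4 * P.Λ ^ 14 := by
      have h6 : |σ| ≤ 2 * P.Λ ^ 7 := by
        unfold Sc.T1 at hσ
        have : 1 ≤ P.Λ ^ 7 := one_le_pow₀ (one_le_Λ P)
        linarith
      have := pow_le_pow_left₀ (abs_nonneg _) h6 2
      rw [sq_abs] at this
      calc σ * σ = σ ^ 2 := by ring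
        _ ≤ (2 * P.Λ ^ 7) ^ 2 := this
        _ = 4 * P.Λ ^ 14 := by ring
    have h7 := LL_le P hlL
    have h8 := LL_ge hl
    have h9 := pow_step P 15
    calc σ * (σ * (di l l : ℝ)) = (σ * σ) * (di l l : ℝ) := by ring
      _ ≤ (4 * P.Λ ^ 14) * (P.Λ / 100) := mul_le_mul h5 h7 (by linarith) (by positivity)
      _ = (4 / 100) * P.Λ ^ 15 := by ring
      _ ≤ P.Λ ^ 16 := by nlinarith [pow_pos hΛ 15]
  have h5 := pow_step P 41
  have h6 := pow_le P (show 16 ≤ 41 by norm_num)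
  have h7 : 1 ≤ P.Λ ^ 41 := one_le_pow₀ (one_le_Λ P)
  norm_num at h5
  linarith

lemma lower (Q : Dirs P) {l : Zd d} (hl : l ≠ 0) (hlL : ‖l‖ ≤ P.L) {b : Cd d} {σ : ℝ}
    {η : Fin d → ℝ} (hη : dr η η * P.Λ ≤ 1)
    (hb : ∀ j, im b j = Q.yc l j + σ * (l j : ℝ) + η j) :
    P.Λ ^ 36 ≤ dr (im b) (im b) := by
  have hΛ := Λ_pos P
  have h1 := cs (im b) (zr (Q.ed l))
  have hED := ED_ge Q hl hlL
  have hED' := ED_le Q hlL
  have h2 : dr (im b) (zr (Q.ed l))
      = tau Q l * (di (Q.ed l) (Q.ed l) : ℝ) + dr η (zr (Q.ed l)) := by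
    rw [im_eq Q hb, dr_add_left, dr_add_left, dr_smul_left, dr_smul_left, dr_zr, dr_zr,
      di_comm l, di_ed_self]
    simp
  have h3 : |dr η (zr (Q.ed l))| ≤ 1 := by
    have h4 := cs η (zr (Q.ed l))
    rw [dr_zr] at h4
    have h5 : dr η η * (di (Q.ed l) (Q.ed l) : ℝ) ≤ 1 :=
      (mul_le_mul_of_nonneg_left hED' (dr_self_nonneg η)).trans hη
    exact abs_le_one_iff_mul_self_le_one.2 (by rw [← sq]; exact h4.trans h5)
  have h4 : P.Λ ^ 19 - 1 ≤ |dr (im b) (zr (Q.ed l))| := by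
    rw [h2]
    have h5 : P.Λ ^ 19 ≤ |tau Q l * (di (Q.ed l) (Q.ed l) : ℝ)| := by
      rw [abs_mul, abs_of_pos (by linarith : (0 : ℝ) < (di (Q.ed l) (Q.ed l) : ℝ))]
      calc P.Λ ^ 19 = P.Λ ^ 19 * 1 := by ring
        _ ≤ |tau Q l| * (di (Q.ed l) (Q.ed l) : ℝ) :=
          mul_le_mul (le_tau Q hl hlL) hED (by norm_num) (abs_nonneg _)
    have h6 := abs_add_le (tau Q l * (di (Q.ed l) (Q.ed l) : ℝ) + dr η (zr (Q.ed l)))
      (- dr η (zr (Q.ed l)))
    rw [abs_neg, add_neg_cancel_right] at h6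
    linarith
  have h5 : P.Λ ^ 38 ≤ 4 * (dr (im b) (zr (Q.ed l))) ^ 2 := by
    have h6 : P.Λ ^ 19 ≤ 2 * |dr (im b) (zr (Q.ed l))| := by
      have : 2 ≤ P.Λ ^ 19 := by
        have h7 := pow_le P (show 1 ≤ 19 by norm_num)
        have h8 := P.hΛ
        rw [pow_one] at h7
        linarith
      linarith
    have h7 := pow_le_pow_left₀ (by positivity) h6 2
    rw [mul_pow, sq_abs] at h7
    calc P.Λ ^ 38 = (P.Λ ^ 19) ^ 2 := by ring
      _ ≤ 2 ^ 2 * (dr (im b) (zr (Q.ed l))) ^ 2 := h7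
      _ = _ := by ring
  have h6 : dr (im b) (im b) * dr (zr (Q.ed l)) (zr (Q.ed l)) ≤ dr (im b) (im b) * P.Λ := by
    rw [dr_zr]
    exact mul_le_mul_of_nonneg_left hED' (dr_self_nonneg _)
  have h7 : P.Λ ^ 38 ≤ 4 * (dr (im b) (im b) * P.Λ) := by linarith
  have h8 := pow_step P 36
  have h9 : P.Λ ^ 37 * P.Λ ≤ 4 * dr (im b) (im b) * P.Λ := by
    calc P.Λ ^ 37 * P.Λ = P.Λ ^ 38 := by ring
      _ ≤ _ := by linarith
  have h10 := le_of_mul_le_mul_right h9 hΛ
  have h11 : 0 ≤ P.Λ ^ 36 := by positivity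
  norm_num at h8
  linarith

lemma norm_q0_lt (P : Sc d μ w) {b : Cd d} (hq : ‖q μ b 0 + w 0‖ ≤ 1) :
    ‖q μ b 0‖ < 2 * P.c := by
  have h1 := norm_w0 P
  have h2 := c_le P
  have h3 : ‖q μ b 0‖ ≤ ‖q μ b 0 + w 0‖ + ‖w 0‖ := by
    have := norm_sub_le (q μ b 0 + w 0) (w 0)
    rwa [add_sub_cancel_right] at this
  linarith

lemma bil_le_lam (P : Sc d μ w) {b : Cd d} (hq : ‖q μ b 0 + w 0‖ ≤ 1) :
    ‖bil b b‖ ≤ 3 * P.Λ := by
  have h1 := norm_q0_lt P hq
  have h2 : ‖bil b b‖ ≤ ‖q μ b 0‖ + ‖μ‖ := by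
    rw [q_zero]
    have := norm_add_le (bil b b - μ) μ
    rwa [sub_add_cancel] at this
  have := P.hcΛ
  have := P.hμ
  linarith

lemma good_near (Q : Dirs P) (hE : Eff P E) {l : Zd d} (hl : l ≠ 0) (hlL : ‖l‖ ≤ P.L)
    {b : Cd d} {σ : ℝ} (hσ : |σ| ≤ P.T1 + 1) {η : Fin d → ℝ} (hη : ∀ j, |η j| ≤ P.r)
    (hb : ∀ j, im b j = Q.yc l j + σ * (l j : ℝ) + η j) {z : ℤ}
    (hz : |dt (re b) (Q.ed l) - z - 1 / 2| ≤ 1 / 8) (hq : ‖q μ b 0 + w 0‖ ≤ 1) :
    Thick P b ∧ Regular P (pm E b) ∧ nsq (pm E b - b) * P.Λ ^ 36 ≤ 1 := by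
  have hΛ := Λ_pos P
  have hΛ1 := one_le_Λ P
  have e1 := dr_eta_le P hη
  have e0 := dr_self_nonneg η
  have hη1 : dr η η ≤ 1 := by
    calc dr η η = dr η η * 1 := by ring
      _ ≤ dr η η * P.Λ ^ 500 := mul_le_mul_of_nonneg_left (one_le_pow₀ hΛ1) e0
      _ ≤ 1 := e1
  have hη2 : dr η η * P.Λ ≤ 1 := by
    calc dr η η * P.Λ = dr η η * P.Λ ^ 1 := by ring
      _ ≤ dr η η * P.Λ ^ 500 := mul_le_mul_of_nonneg_left (pow_le P (by norm_num)) e0
      _ ≤ 1 := e1
  have hup := upper Q hl hlL hσ hη1 hb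
  have hlo := lower Q hl hlL hη2 hb
  have hσ2 : |σ| ≤ 2 * P.T1 := by
    have : 1 ≤ P.T1 := by unfold Sc.T1; exact one_le_pow₀ hΛ1
    linarith
  have hη3 : dr η η * dr (im b) (im b) ≤ P.Λ ^ 42 * dr η η := by
    rw [mul_comm]
    exact mul_le_mul_of_nonneg_right hup e0
  have hη4 : P.Λ ^ 42 * dr η η ≤ 1 / 16 := by
    have h1 : P.Λ ^ 42 * 16 ≤ P.Λ ^ 500 := by
      have := pow_step P 42
      have h2 := pow_le P (show 43 ≤ 500 by norm_num)
      have h3 : 0 < P.Λ ^ 42 := by positivity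
      norm_num at this
      linarith
    have h2 : (P.Λ ^ 42 * 16) * dr η η ≤ P.Λ ^ 500 * dr η η :=
      mul_le_mul_of_nonneg_right h1 e0
    linarith
  have hReg : Regular P b :=
    regular_near_Th Q hl hlL hσ2 hb (by linarith) hη1 (hz.trans (by norm_num))
  have hThick : Thick P b := by
    refine ⟨?_, hq, fun l' hl' hL' => ?_⟩
    · rw [nsq_eq]
      have h1 := pow_le P (show 8 ≤ 36 by norm_num)
      have h2 := dr_self_nonneg (re b)
      linarith
    · have := hReg.2 0 (norm_q0_lt P hq) l' hl' hL'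
      rwa [zero_add] at this
  -- the point `pm E b`
  have hnear := pm_near P hE hThick
  have hX : dr (im b) (im b) ≤ 2 * dr (re b) (re b) := by
    have h1 := bil_le_lam P hq
    have h2 := (Complex.abs_re_le_norm (bil b b)).trans h1
    rw [bil_self_re] at h2
    have h3 := (abs_le.1 h2).1
    have h4 : 6 * P.Λ ≤ P.Λ ^ 36 := by
      have h5 := pow_step P 1
      have h6 := pow_le P (show 2 ≤ 36 by norm_num)
      norm_num at h5
      have : P.Λ ^ 1 = P.Λ := pow_one _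
      nlinarith
    linarith
  have hns : nsq (pm E b - b) * P.Λ ^ 36 ≤ 1 := by
    have h1 : P.Λ ^ 36 ≤ nsq b := by
      rw [nsq_eq]
      have h2 := dr_self_nonneg (re b)
      linarith
    have h2 : 0 ≤ nsq (pm E b - b) := by
      unfold nsq
      positivity
    exact (mul_le_mul_of_nonneg_left h1 h2).trans hnear
  refine ⟨hThick, ?_, hns⟩
  set δ := pm E b - b with hδ
  have hn0 : 0 ≤ nsq δ := by
    unfold nsq
    positivity
  have hnδ := nsq_eq δ
  have hrδ := dr_self_nonneg (re δ)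
  have hiδ := dr_self_nonneg (im δ)
  have him : im (pm E b) = im b + im δ := by
    funext j
    simp [im, hδ]
  have hre : re (pm E b) = re b + re δ := by
    funext j
    simp [re, hδ]
  have hnsmall : nsq δ ≤ 1 / 100 := by
    have h4 : 100 ≤ P.Λ ^ 36 := by
      have h5 := pow_le P (show 1 ≤ 36 by norm_num)
      have h6 := P.hΛ
      rw [pow_one] at h5
      linarith
    have h5 : nsq δ * 100 ≤ nsq δ * P.Λ ^ 36 := mul_le_mul_of_nonneg_left h4 hn0
    linarith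
  have hηsmall : dr η η ≤ 1 / 100 := by
    have h4 : 100 ≤ P.Λ ^ 500 := by
      have h5 := pow_le P (show 1 ≤ 500 by norm_num)
      have h6 := P.hΛ
      rw [pow_one] at h5
      linarith
    have h5 : dr η η * 100 ≤ dr η η * P.Λ ^ 500 := mul_le_mul_of_nonneg_left h4 e0
    linarith
  refine regular_near_Th Q hl hlL hσ2 (η := η + im δ) (z := z) ?_ ?_ ?_ ?_
  · intro j
    rw [him, Pi.add_apply, Pi.add_apply, hb j]
    ring
  · have h1 := dr_add_sq_le η (im δ)
    have h2 := dr_add_sq_le (im b) (im δ)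
    rw [← him] at h2
    have hY := dr_self_nonneg (im b)
    have h3 : nsq δ * dr (im b) (im b) ≤ 2 / 3 := by
      have h4 : 3 / 2 * dr (im b) (im b) ≤ nsq b := by
        rw [nsq_eq]
        linarith
      have h5 := (mul_le_mul_of_nonneg_left h4 hn0).trans hnear
      linarith
    have h6 : dr (η + im δ) (η + im δ) ≤ 2 * (dr η η + nsq δ) := by linarith
    have h7 : dr (im (pm E b)) (im (pm E b)) ≤ 2 * (dr (im b) (im b) + nsq δ) := by linarith
    have h8 : dr (η + im δ) (η + im δ) * dr (im (pm E b)) (im (pm E b))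
        ≤ (2 * (dr η η + nsq δ)) * (2 * (dr (im b) (im b) + nsq δ)) :=
      mul_le_mul h6 h7 (dr_self_nonneg _) (by positivity)
    have h9 : dr η η * nsq δ ≤ 1 / 100 := by nlinarith
    have h10 : nsq δ * nsq δ ≤ 1 / 100 := by nlinarith
    nlinarith
  · have h1 := dr_add_sq_le η (im δ)
    linarith
  · have h1 : dt (re (pm E b)) (Q.ed l) = dt (re b) (Q.ed l) + dr (re δ) (zr (Q.ed l)) := by
      rw [dt_eq, dt_eq, hre, dr_add_left]
    have h2 := cs (re δ) (zr (Q.ed l))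
    rw [dr_zr] at h2
    have h3 : dr (re δ) (re δ) * (di (Q.ed l) (Q.ed l) : ℝ) ≤ 1 / 16 := by
      have h4 : dr (re δ) (re δ) * (di (Q.ed l) (Q.ed l) : ℝ) ≤ nsq δ * P.Λ :=
        mul_le_mul (by linarith) (ED_le Q hlL) (by linarith [ED_ge Q hl hlL]) hn0
      have h5 : 16 * P.Λ ≤ P.Λ ^ 36 := by
        have h5 := pow_step P 1
        have h6 := pow_le P (show 2 ≤ 36 by norm_num)
        norm_num at h5
        have : P.Λ ^ 1 = P.Λ := pow_one _
        nlinarith
      have h6 : nsq δ * (16 * P.Λ) ≤ nsq δ * P.Λ ^ 36 := mul_le_mul_of_nonneg_left h5 hn0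
      linarith
    have h4 : |dr (re δ) (zr (Q.ed l))| ≤ 1 / 4 := by
      apply abs_le_of_sq_le_sq _ (by norm_num)
      linarith
    rw [h1]
    have h5 := abs_add_le (dt (re b) (Q.ed l) - z - 1 / 2) (dr (re δ) (zr (Q.ed l)))
    have h6 : dt (re b) (Q.ed l) - z - 1 / 2 + dr (re δ) (zr (Q.ed l))
        = dt (re b) (Q.ed l) + dr (re δ) (zr (Q.ed l)) - z - 1 / 2 := by ring
    rw [h6] at h5
    linarith


lemma dr_sub_left (x y z : Fin d → ℝ) : dr (x - y) z = dr x z - dr y z := by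
  unfold dr
  rw [← Finset.sum_sub_distrib]
  exact Finset.sum_congr rfl (fun i _ => by rw [Pi.sub_apply]; ring)

lemma dr_self_pos {x : Fin d → ℝ} (hx : x ≠ 0) : 0 < dr x x := by
  obtain ⟨j, hj⟩ : ∃ j, x j ≠ 0 := by
    by_contra h
    push Not at h
    exact hx (funext h)
  have h1 : x j * x j ≤ dr x x :=
    Finset.single_le_sum (f := fun j => x j * x j) (fun i _ => mul_self_nonneg _)
      (Finset.mem_univ j)
  have h2 : 0 < x j * x j := mul_self_pos.2 hj
  linarith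

lemma exists_orth (hd : 3 ≤ d) (u v : Fin d → ℝ) :
    ∃ g : Fin d → ℝ, g ≠ 0 ∧ dr g u = 0 ∧ dr g v = 0 := by
  let T : (Fin d → ℝ) →ₗ[ℝ] (Fin 2 → ℝ) :=
    { toFun := fun g => ![dr g u, dr g v]
      map_add' := fun g g' => by
        funext i
        fin_cases i <;> simp [dr_add_left]
      map_smul' := fun a g => by
        funext i
        fin_cases i <;> simp [dr_smul_left] }
  have h1 : LinearMap.ker T ≠ ⊥ := by
    apply LinearMap.ker_ne_bot_of_finrank_lt
    simp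
    omega
  obtain ⟨g, hg, hg0⟩ := Submodule.exists_mem_ne_zero_of_ne_bot h1
  refine ⟨g, hg0, ?_, ?_⟩
  · have := congrFun (LinearMap.mem_ker.1 hg) 0
    simpa [T] using this
  · have := congrFun (LinearMap.mem_ker.1 hg) 1
    simpa [T] using this

lemma exists_unit (hd : 3 ≤ d) {u v x : Fin d → ℝ} (hu : dr x u = 0) (hv : dr x v = 0) :
    ∃ f : Fin d → ℝ, dr f f = 1 ∧ dr f u = 0 ∧ dr f v = 0 ∧ x = Real.sqrt (dr x x) • f := by
  have key : ∀ g : Fin d → ℝ, g ≠ 0 → dr ((Real.sqrt (dr g g))⁻¹ • g)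
      ((Real.sqrt (dr g g))⁻¹ • g) = 1 := by
    intro g hg
    have h1 := dr_self_pos hg
    have h2 := Real.mul_self_sqrt h1.le
    have h3 : Real.sqrt (dr g g) ≠ 0 := (Real.sqrt_pos.2 h1).ne'
    rw [dr_smul_left, dr_smul_right]
    calc (Real.sqrt (dr g g))⁻¹ * ((Real.sqrt (dr g g))⁻¹ * dr g g)
        = (Real.sqrt (dr g g))⁻¹ * ((Real.sqrt (dr g g))⁻¹ *
          (Real.sqrt (dr g g) * Real.sqrt (dr g g))) := by rw [h2]
      _ = 1 := by field_simp
  by_cases hx : x = 0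
  · obtain ⟨g, hg0, h1, h2⟩ := exists_orth hd u v
    refine ⟨(Real.sqrt (dr g g))⁻¹ • g, key g hg0, ?_, ?_, ?_⟩
    · rw [dr_smul_left, h1, mul_zero]
    · rw [dr_smul_left, h2, mul_zero]
    · subst hx
      simp [dr]
  · refine ⟨(Real.sqrt (dr x x))⁻¹ • x, key x hx, ?_, ?_, ?_⟩
    · rw [dr_smul_left, hu, mul_zero]
    · rw [dr_smul_left, hv, mul_zero]
    · have h3 : Real.sqrt (dr x x) ≠ 0 := (Real.sqrt_pos.2 (dr_self_pos hx)).ne'
      rw [smul_smul, mul_inv_cancel₀ h3, one_smul]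

/-- the sign of a nonzero real number -/
lemma exists_sign {s : ℝ} (hs : s ≠ 0) : ∃ e : ℝ, e * e = 1 ∧ s = e * |s| ∧ |e| = 1 := by
  rcases lt_or_gt_of_ne hs with h | h
  · exact ⟨-1, by norm_num, by rw [abs_of_neg h]; ring, by norm_num⟩
  · exact ⟨1, by norm_num, by rw [abs_of_pos h]; ring, by norm_num⟩

/-- the end of the path lies over a chamber -/
lemma end_mem (Q : Dirs P) {l : Zd d} (hl : l ≠ 0) (hlL : ‖l‖ ≤ P.L)
    {k : Cd d} {σ : ℝ} (hσ : |σ| = P.T1 + 1) {δ : Fin d → ℝ} (hδ : dr δ δ * P.Λ ^ 2 ≤ 1)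
    (hk : ∀ j, im k j = Q.yc l j + σ * (l j : ℝ) + δ j) :
    im k ∈ PP P Q (3 / 2 * P.G) := by
  have hΛ := Λ_pos P
  have hΛ1 := one_le_Λ P
  have hel : (di Q.e l : ℝ) ≠ 0 := by exact_mod_cast Q.he l hl hlL
  have hT1 : 0 < P.T1 := by unfold Sc.T1; positivity
  have hσ0 : σ * (di Q.e l : ℝ) ≠ 0 := by
    refine mul_ne_zero ?_ hel
    intro h
    rw [h, abs_zero] at hσ
    linarith
  obtain ⟨e, he1, he2, he3⟩ := exists_sign hσ0
  have heabs : 0 < |σ * (di Q.e l : ℝ)| := abs_pos.2 hσ0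
  have hδ0 := dr_self_nonneg δ
  -- reference point
  refine ⟨-P.tt * (di Q.a l : ℝ) / (di Q.e l : ℝ) + e, ?_, ?_, ?_⟩
  · have h1 : |-P.tt * (di Q.a l : ℝ) / (di Q.e l : ℝ)| ≤ P.Λ ^ 21 := by
      have h2 : (1 : ℝ) ≤ |(di Q.e l : ℝ)| := by
        have := Int.one_le_abs (Q.he l hl hlL)
        exact_mod_cast this
      rw [abs_div, abs_mul, abs_neg]
      have h3 : |P.tt| = P.Λ ^ 20 := by unfold Sc.tt; exact abs_of_pos (by positivity)
      rw [h3]
      calc P.Λ ^ 20 * |(di Q.a l : ℝ)| / |(di Q.e l : ℝ)| ≤ P.Λ ^ 20 * |(di Q.a l : ℝ)| :=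
            div_le_self (by positivity) h2
        _ ≤ P.Λ ^ 20 * P.Λ := mul_le_mul_of_nonneg_left (Q.ba l hlL) (by positivity)
        _ = P.Λ ^ 21 := by ring
    have h2 := abs_add_le (-P.tt * (di Q.a l : ℝ) / (di Q.e l : ℝ)) e
    have h3 := pow_le P (show 21 ≤ 22 by norm_num)
    have h4 : 1 ≤ P.Λ ^ 22 := one_le_pow₀ hΛ1
    unfold Sc.T2
    linarith
  · have hδ1 : dr δ δ ≤ 1 := by
      calc dr δ δ = dr δ δ * 1 := by ring
        _ ≤ dr δ δ * P.Λ ^ 2 := mul_le_mul_of_nonneg_left (one_le_pow₀ hΛ1) hδ0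
        _ ≤ 1 := hδ
    have h1 := upper Q hl hlL hσ.le hδ1 hk
    have h2 : (3 / 2 * P.G) ^ 2 = 9 / 4 * P.G ^ 2 := by ring
    rw [h2]
    have h3 : 9 / 4 * dr (im k) (im k) ≤ P.R ^ 2 := by
      have h4 : P.R ^ 2 = P.Λ ^ 52 := by unfold Sc.R; ring
      rw [h4]
      have h5 := pow_step P 42
      have h6 := pow_le P (show 43 ≤ 52 by norm_num)
      have h7 : 0 < P.Λ ^ 42 := by positivity
      norm_num at h5
      linarith
    calc 9 / 4 * P.G ^ 2 * dr (im k) (im k) = P.G ^ 2 * (9 / 4 * dr (im k) (im k)) := by ring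
      _ ≤ P.G ^ 2 * P.R ^ 2 := mul_le_mul_of_nonneg_left h3 (by positivity)
  · intro l' hl' hL'
    have hk' : dt (im k) l' = tau Q l * (di (Q.ed l) l' : ℝ) + σ * (di l l' : ℝ)
        + dr δ (zr l') := by
      rw [dt_eq, im_eq Q hk, dr_add_left, dr_add_left, dr_smul_left, dr_smul_left, dr_zr, dr_zr]
    have hy' : dt (Q.yl (-P.tt * (di Q.a l : ℝ) / (di Q.e l : ℝ) + e)) l'
        = tau Q l * (di (Q.ed l) l' : ℝ) + e * (di Q.e l' : ℝ) := by
      have h1 : Q.yl (-P.tt * (di Q.a l : ℝ) / (di Q.e l : ℝ) + e)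
          = P.tt • zr Q.a + (-P.tt * (di Q.a l : ℝ) / (di Q.e l : ℝ) + e) • zr Q.e := rfl
      rw [dt_eq, h1, dr_add_left, dr_smul_left, dr_smul_left, dr_zr, dr_zr, di_ed]
      unfold tau
      push_cast
      field_simp
      ring
    have hsmall : |dr δ (zr l')| ≤ 1 / 4 := by
      have h1 := cs δ (zr l')
      rw [dr_zr] at h1
      have h2 : dr δ δ * (di l' l' : ℝ) ≤ 1 / 16 := by
        have h3 := LL_le P hL'
        have h4 : dr δ δ * (di l' l' : ℝ) ≤ dr δ δ * (P.Λ / 100) :=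
          mul_le_mul_of_nonneg_left h3 hδ0
        have h5 : dr δ δ * P.Λ ≤ dr δ δ * P.Λ ^ 2 := by
          apply mul_le_mul_of_nonneg_left _ hδ0
          nlinarith
        linarith
      apply abs_le_of_sq_le_sq _ (by norm_num)
      linarith
    have hT1' : 3 / 2 * P.G ≤ P.T1 := by
      unfold Sc.G Sc.T1
      have h1 := pow_step P 5
      have h2 := pow_le P (show 6 ≤ 7 by norm_num)
      have h3 : 0 < P.Λ ^ 5 := by positivity
      norm_num at h1
      linarith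
    rw [hk', hy']
    by_cases h0 : di (Q.ed l) l' = 0
    · -- parallel case
      have h1 : di Q.e l * di Q.a l' = di Q.e l' * di Q.a l := by
        have := di_ed Q l l'
        rw [h0] at this
        linarith
      obtain ⟨i, j, hi, hj, hij⟩ := Q.hea l l' hl hlL hl' hL' h1
      have h2 : (i : ℝ) * (di l l : ℝ) = j * (di l l' : ℝ) := by
        have := congrArg (fun n => di n l) hij
        simp only [di_smul_left] at this
        rw [di_comm l' l] at this
        exact_mod_cast this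
      have h3 : (i : ℝ) * (di Q.e l : ℝ) = j * (di Q.e l' : ℝ) := by
        have := congrArg (fun n => di n Q.e) hij
        simp only [di_smul_left] at this
        rw [di_comm l' Q.e, di_comm l Q.e] at this
        exact_mod_cast this
      have hiR : (i : ℝ) ≠ 0 := by exact_mod_cast hi
      have hjR : (j : ℝ) ≠ 0 := by exact_mod_cast hj
      have hLL : (0 : ℝ) < (di l l : ℝ) := by linarith [LL_ge hl]
      have h4 : di l l' ≠ 0 := by
        intro h
        rw [h, Int.cast_zero, mul_zero] at h2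
        exact mul_ne_zero hiR hLL.ne' h2
      have h5 : (1 : ℝ) ≤ |(di l l' : ℝ)| := by
        have := Int.one_le_abs h4
        exact_mod_cast this
      have h6 : |σ * (di l l' : ℝ)| ≥ P.T1 + 1 := by
        rw [abs_mul, hσ]
        nlinarith
      rw [h0, Int.cast_zero, mul_zero, zero_add, zero_add]
      constructor
      · have h7 := abs_add_le (2 * (σ * (di l l' : ℝ) + dr δ (zr l'))) (-(2 * dr δ (zr l')))
        have h8 : 2 * (σ * (di l l' : ℝ) + dr δ (zr l')) + -(2 * dr δ (zr l'))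
            = 2 * (σ * (di l l' : ℝ)) := by ring
        rw [h8, abs_neg, abs_mul 2 (σ * (di l l' : ℝ)), abs_mul 2 (dr δ (zr l')),
          abs_of_pos (by norm_num : (0 : ℝ) < 2)] at h7
        linarith
      · -- sign
        have h7 : 0 < (σ * (di l l' : ℝ)) * (e * (di Q.e l' : ℝ)) := by
          have h8 : (j : ℝ) * j * ((σ * (di l l' : ℝ)) * (e * (di Q.e l' : ℝ)))
              = (i * i) * (di l l : ℝ) * |σ * (di Q.e l : ℝ)| := by
            calc (j : ℝ) * j * ((σ * (di l l' : ℝ)) * (e * (di Q.e l' : ℝ)))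
                = σ * e * (j * (di l l' : ℝ)) * (j * (di Q.e l' : ℝ)) := by ring
              _ = σ * e * (i * (di l l : ℝ)) * (i * (di Q.e l : ℝ)) := by rw [← h2, ← h3]
              _ = (i * i) * (di l l : ℝ) * (e * (σ * (di Q.e l : ℝ))) := by ring
              _ = (i * i) * (di l l : ℝ) * (e * (e * |σ * (di Q.e l : ℝ)|)) := by rw [← he2]
              _ = (i * i) * (di l l : ℝ) * ((e * e) * |σ * (di Q.e l : ℝ)|) := by ring
              _ = _ := by rw [he1, one_mul]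
          have h9 : 0 < (i : ℝ) * i * (di l l : ℝ) * |σ * (di Q.e l : ℝ)| := by
            have : 0 < (i : ℝ) * i := mul_self_pos.2 hiR
            positivity
          rw [← h8] at h9
          have h10 : 0 < (j : ℝ) * j := mul_self_pos.2 hjR
          exact (mul_pos_iff_of_pos_left h10).1 h9
        rcases lt_or_gt_of_ne (show e * (di Q.e l' : ℝ) ≠ 0 by
          intro h; rw [h, mul_zero] at h7; exact lt_irrefl _ h7) with h8 | h8
        · have h9 : σ * (di l l' : ℝ) < 0 := by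
            by_contra h
            push Not at h
            nlinarith
          rw [abs_of_neg h9] at h6
          have h10 : σ * (di l l' : ℝ) + dr δ (zr l') < 0 := by
            have := (abs_le.1 hsmall).2
            linarith
          exact mul_pos_of_neg_of_neg h10 h8
        · have h9 : 0 < σ * (di l l' : ℝ) := by
            by_contra h
            push Not at h
            nlinarith
          rw [abs_of_pos h9] at h6
          have h10 : 0 < σ * (di l l' : ℝ) + dr δ (zr l') := by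
            have := (abs_le.1 hsmall).1
            linarith
          exact mul_pos h10 h8
    · -- transversal case
      have h5 : (1 : ℝ) ≤ |(di (Q.ed l) l' : ℝ)| := by
        have := Int.one_le_abs h0
        exact_mod_cast this
      have h6 : P.Λ ^ 19 ≤ |tau Q l * (di (Q.ed l) l' : ℝ)| := by
        rw [abs_mul]
        calc P.Λ ^ 19 = P.Λ ^ 19 * 1 := by ring
          _ ≤ |tau Q l| * |(di (Q.ed l) l' : ℝ)| :=
            mul_le_mul (le_tau Q hl hlL) h5 (by norm_num) (abs_nonneg _)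
      have h7 : |σ * (di l l' : ℝ)| ≤ P.Λ ^ 8 := by
        rw [abs_mul, hσ]
        have h8 := abs_di_le hlL hL'
        have h9 := dL2 P
        have h10 : P.T1 + 1 ≤ 2 * P.Λ ^ 7 := by
          unfold Sc.T1
          have : 1 ≤ P.Λ ^ 7 := one_le_pow₀ hΛ1
          linarith
        calc (P.T1 + 1) * |(di l l' : ℝ)| ≤ (2 * P.Λ ^ 7) * (P.Λ / 100) :=
              mul_le_mul h10 (h8.trans h9) (abs_nonneg _) (by positivity)
          _ = (2 / 100) * P.Λ ^ 8 := by ring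
          _ ≤ P.Λ ^ 8 := by nlinarith [pow_pos hΛ 8]
      have h8 : |e * (di Q.e l' : ℝ)| ≤ P.Λ := by
        rw [abs_mul, he3, one_mul]
        exact Q.be l' hL'
      have h9 : 4 * P.Λ ^ 8 ≤ P.Λ ^ 19 := by
        have h10 := pow_step P 8
        have h11 := pow_le P (show 9 ≤ 19 by norm_num)
        have h12 : 0 < P.Λ ^ 8 := by positivity
        norm_num at h10
        linarith
      have h10 : P.Λ ≤ P.Λ ^ 8 := by
        have := pow_le P (show 1 ≤ 8 by norm_num)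
        rwa [pow_one] at this
      have h11 : 1 ≤ P.Λ ^ 8 := one_le_pow₀ hΛ1
      have hG : 3 / 2 * P.G ≤ P.Λ ^ 8 := by
        have := pow_le P (show 7 ≤ 8 by norm_num)
        unfold Sc.T1 at hT1'
        linarith
      constructor
      · have h12 := abs_add_le (2 * (tau Q l * (di (Q.ed l) l' : ℝ) + σ * (di l l' : ℝ)
          + dr δ (zr l'))) (-(2 * (σ * (di l l' : ℝ) + dr δ (zr l'))))
        have h13 : 2 * (tau Q l * (di (Q.ed l) l' : ℝ) + σ * (di l l' : ℝ)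
          + dr δ (zr l')) + -(2 * (σ * (di l l' : ℝ) + dr δ (zr l')))
            = 2 * (tau Q l * (di (Q.ed l) l' : ℝ)) := by ring
        rw [h13, abs_neg, abs_mul 2 (tau Q l * (di (Q.ed l) l' : ℝ)),
          abs_mul 2 (σ * (di l l' : ℝ) + dr δ (zr l')),
          abs_of_pos (by norm_num : (0 : ℝ) < 2)] at h12
        have h14 := abs_add_le (σ * (di l l' : ℝ)) (dr δ (zr l'))
        linarith
      · have hs := abs_le.1 hsmall
        have h7' := abs_le.1 h7
        have h8' := abs_le.1 h8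
        rcases le_total 0 (tau Q l * (di (Q.ed l) l' : ℝ)) with h | h
        · rw [abs_of_nonneg h] at h6
          apply mul_pos <;> linarith
        · rw [abs_of_nonpos h] at h6
          apply mul_pos_of_neg_of_neg <;> linarith


lemma bil_self_sub (p : Cd d) (η : Fin d → ℝ) (θ : ℝ) :
    bil (fun j => p j - ((θ * η j : ℝ) : ℂ) * Complex.I) (fun j => p j - ((θ * η j : ℝ) : ℂ) * Complex.I)
      = bil p p + ∑ j, (-(2 * ((θ * η j : ℝ) : ℂ) * Complex.I * p j) - ((θ * η j : ℝ) : ℂ) ^ 2) := by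
  unfold bil
  rw [← Finset.sum_add_distrib]
  refine Finset.sum_congr rfl (fun j _ => ?_)
  have h := Complex.I_sq
  linear_combination (((θ * η j : ℝ) : ℂ)) ^ 2 * h

lemma step1_q (Q : Dirs P) {l : Zd d} (hl : l ≠ 0) (hlL : ‖l‖ ≤ P.L)
    {p : Cd d} (hq : ‖q μ p 0 + w 0‖ ≤ 1 / 2) {σ : ℝ} (hσ : |σ| ≤ P.T1 + 1) {η : Fin d → ℝ}
    (hk : ∀ j, im p j = Q.yc l j + σ * (l j : ℝ) + η j) (hη : ∀ j, |η j| ≤ P.r)
    {θ : ℝ} (h0 : 0 ≤ θ) (h1 : θ ≤ 1) :
    ‖q μ (fun j => p j - ((θ * η j : ℝ) : ℂ) * Complex.I) 0 + w 0‖ ≤ 1 := by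
  have hΛ := Λ_pos P
  have hΛ1 := one_le_Λ P
  have e1 := dr_eta_le P hη
  have e0 := dr_self_nonneg η
  have hη1 : dr η η ≤ 1 := by
    calc dr η η = dr η η * 1 := by ring
      _ ≤ dr η η * P.Λ ^ 500 := mul_le_mul_of_nonneg_left (one_le_pow₀ hΛ1) e0
      _ ≤ 1 := e1
  have hup := upper Q hl hlL hσ hη1 hk
  have hbil := bil_le_lam P (hq.trans (by norm_num))
  have h2 := (Complex.abs_re_le_norm (bil p p)).trans hbil
  rw [bil_self_re] at h2
  have h3 := (abs_le.1 h2).2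
  have hns : nsq p ≤ P.Λ ^ 44 := by
    rw [nsq_eq]
    have h4 := pow_step P 42
    have h5 := pow_le P (show 43 ≤ 44 by norm_num)
    have h6 := pow_le P (show 1 ≤ 42 by norm_num)
    rw [pow_one] at h6
    have h7 : 0 < P.Λ ^ 42 := by positivity
    norm_num at h4
    linarith
  have hpj : ∀ j, ‖p j‖ ≤ P.Λ ^ 22 := by
    intro j
    have h4 : ‖p j‖ ^ 2 ≤ nsq p :=
      Finset.single_le_sum (f := fun i => ‖p i‖ ^ 2) (fun i _ => by positivity)
        (Finset.mem_univ j)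
    refine le_of_sq_le_sq ?_ (by positivity)
    calc ‖p j‖ ^ 2 ≤ P.Λ ^ 44 := h4.trans hns
      _ = (P.Λ ^ 22) ^ 2 := by ring
  have hr := r_pos P
  have hrm := r_mul P
  have hterm : ∀ j, ‖-(2 * ((θ * η j : ℝ) : ℂ) * Complex.I * p j) - ((θ * η j : ℝ) : ℂ) ^ 2‖
      ≤ 3 * P.r * P.Λ ^ 22 := by
    intro j
    have h4 : ‖((θ * η j : ℝ) : ℂ)‖ ≤ P.r := by
      rw [Complex.norm_real, Real.norm_eq_abs, abs_mul, abs_of_nonneg h0]
      calc θ * |η j| ≤ 1 * |η j| := mul_le_mul_of_nonneg_right h1 (abs_nonneg _)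
        _ ≤ P.r := by rw [one_mul]; exact hη j
    have h5 : P.r ≤ 1 := by
      have : P.r * 1 ≤ P.r * P.Λ ^ 300 :=
        mul_le_mul_of_nonneg_left (one_le_pow₀ hΛ1) hr.le
      linarith
    calc _ ≤ ‖-(2 * ((θ * η j : ℝ) : ℂ) * Complex.I * p j)‖ + ‖((θ * η j : ℝ) : ℂ) ^ 2‖ :=
          norm_sub_le _ _
      _ = 2 * ‖((θ * η j : ℝ) : ℂ)‖ * ‖p j‖ + ‖((θ * η j : ℝ) : ℂ)‖ ^ 2 := by
          rw [norm_neg, norm_mul, norm_mul, norm_mul, Complex.norm_I, norm_pow]
          norm_num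
      _ ≤ 2 * P.r * P.Λ ^ 22 + P.r * P.Λ ^ 22 := by
          refine add_le_add ?_ ?_
          · exact mul_le_mul (mul_le_mul_of_nonneg_left h4 (by norm_num)) (hpj j)
              (norm_nonneg _) (by positivity)
          · rw [sq]
            exact mul_le_mul h4 ((h4.trans h5).trans (one_le_pow₀ hΛ1)) (norm_nonneg _) hr.le
      _ = 3 * P.r * P.Λ ^ 22 := by ring
  have hsum : ‖∑ j, (-(2 * ((θ * η j : ℝ) : ℂ) * Complex.I * p j) - ((θ * η j : ℝ) : ℂ) ^ 2)‖
      ≤ 1 / 2 := by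
    refine (norm_sum_le _ _).trans ((Finset.sum_le_sum (fun j _ => hterm j)).trans ?_)
    rw [Finset.sum_const, Finset.card_univ, Fintype.card_fin, nsmul_eq_mul]
    have h4 := d_le P
    calc (d : ℝ) * (3 * P.r * P.Λ ^ 22) ≤ (P.Λ / 100) * (3 * P.r * P.Λ ^ 22) :=
          mul_le_mul_of_nonneg_right h4 (by positivity)
      _ = 3 / 100 * (P.r * P.Λ ^ 23) := by ring
      _ ≤ 3 / 100 * (P.r * P.Λ ^ 300) := by
          apply mul_le_mul_of_nonneg_left _ (by norm_num)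
          exact mul_le_mul_of_nonneg_left (pow_le P (by norm_num)) hr.le
      _ ≤ 3 / 100 * 1 := mul_le_mul_of_nonneg_left hrm (by norm_num)
      _ ≤ 1 / 2 := by norm_num
  rw [q_zero, bil_self_sub]
  have h4 : bil p p + ∑ j, (-(2 * ((θ * η j : ℝ) : ℂ) * Complex.I * p j)
      - ((θ * η j : ℝ) : ℂ) ^ 2) - μ + w 0
      = (q μ p 0 + w 0) + ∑ j, (-(2 * ((θ * η j : ℝ) : ℂ) * Complex.I * p j)
      - ((θ * η j : ℝ) : ℂ) ^ 2) := by
    rw [q_zero]; ring
  rw [h4]
  refine (norm_add_le _ _).trans ?_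
  linarith

lemma abs_half_le {h : ℝ} {z : ℤ} (hz : |h - z - 1 / 2| ≤ 1 / 8) : 3 / 8 ≤ |h| := by
  have h1 := abs_le.1 hz
  rcases le_or_gt 0 z with h2 | h2
  · have h3 : (0 : ℝ) ≤ z := by exact_mod_cast h2
    have : 3 / 8 ≤ h := by linarith
    exact this.trans (le_abs_self _)
  · have h3 : (z : ℝ) ≤ -1 := by exact_mod_cast (by omega : z ≤ -1)
    have : h ≤ -(3 / 8) := by linarith
    exact (by linarith : 3 / 8 ≤ -h).trans (neg_le_abs _)

/-- the path of step 2 -/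
def bpath (Q : Dirs P) (l : Zd d) (f : Fin d → ℝ) (s X h g : ℝ) : Cd d := fun j =>
  ((X / (di l l : ℝ) * (l j : ℝ) + h / (di (Q.ed l) (Q.ed l) : ℝ) * (Q.ed l j : ℝ)
    + g * f j : ℝ) : ℂ) + ((Q.yc l j + s * (l j : ℝ) : ℝ) : ℂ) * Complex.I

lemma re_bpath (Q : Dirs P) (l : Zd d) (f : Fin d → ℝ) (s X h g : ℝ) :
    re (bpath Q l f s X h g) = (X / (di l l : ℝ)) • zr l
      + (h / (di (Q.ed l) (Q.ed l) : ℝ)) • zr (Q.ed l) + g • f := by
  funext j
  simp [re, bpath, zr]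

lemma im_bpath (Q : Dirs P) (l : Zd d) (f : Fin d → ℝ) (s X h g : ℝ) :
    im (bpath Q l f s X h g) = tau Q l • zr (Q.ed l) + s • zr l := by
  funext j
  simp [im, bpath, zr, Dirs.yc, tau]

lemma im_bpath' (Q : Dirs P) (l : Zd d) (f : Fin d → ℝ) (s X h g : ℝ) (j : Fin d) :
    im (bpath Q l f s X h g) j = Q.yc l j + s * (l j : ℝ) := by
  simp [im, bpath]

end GeoTh

open GeoTh in
/-- base points near Thomas points have the class of a base point over a chamber -/
theorem conn_Th (Q : Dirs P) (hE : Eff P E) {l : Zd d} (hl : l ≠ 0) (hlL : ‖l‖ ≤ P.L)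
    {p : Cd d} (hp : Base P E p) {σ : ℝ} (hσ : |σ| ≤ P.T1 + 1) {η : Fin d → ℝ}
    (hk : ∀ j, im p j = Q.yc l j + σ * (l j : ℝ) + η j) (hη : ∀ j, |η j| ≤ P.r) {z : ℤ}
    (hz : |dt (re p) (Q.ed l) - z - 1 / 2| ≤ 1 / 8) :
    ∃ p', Base P E p' ∧ im p' ∈ PP P Q (3 / 2 * P.G) ∧
      ∀ A B, Decomp (FS μ w) A B → (CC P E A p ↔ CC P E A p') := by
  have hΛ := Λ_pos P
  have hΛ1 := one_le_Λ P
  have hr := r_pos P
  -- step 1
  set b1 : ℝ → Cd d := fun θ j => p j - ((θ * η j : ℝ) : ℂ) * Complex.I with hb1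
  have hre1 : ∀ θ, re (b1 θ) = re p := by
    intro θ
    funext j
    simp [re, hb1]
  have him1 : ∀ θ j, im (b1 θ) j = Q.yc l j + σ * (l j : ℝ) + (1 - θ) * η j := by
    intro θ j
    have h1 : im (b1 θ) j = im p j - θ * η j := by simp [im, hb1]
    rw [h1, hk j]
    ring
  have hq1 : ∀ θ ∈ Icc (0 : ℝ) 1, ‖q μ (b1 θ) 0 + w 0‖ ≤ 1 := fun θ hθ =>
    step1_q Q hl hlL hp.2.2 hσ hk hη hθ.1 hθ.2
  have hgood1 : ∀ θ ∈ Icc (0 : ℝ) 1, Thick P (b1 θ) ∧ Regular P (pm E (b1 θ)) := by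
    intro θ hθ
    have h1 := good_near Q hE hl hlL hσ (η := fun j => (1 - θ) * η j) (b := b1 θ) (z := z)
      (fun j => by
        rw [abs_mul, abs_of_nonneg (by linarith [hθ.2] : 0 ≤ 1 - θ)]
        calc (1 - θ) * |η j| ≤ 1 * |η j| :=
              mul_le_mul_of_nonneg_right (by linarith [hθ.1]) (abs_nonneg _)
          _ ≤ P.r := by rw [one_mul]; exact hη j)
      (him1 θ) (by rw [hre1]; exact hz) (hq1 θ hθ)
    exact ⟨h1.1, h1.2.1⟩
  have hb10 : b1 0 = p := by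
    funext j
    simp [hb1]
  have hcont1 : ContinuousOn b1 (Icc 0 1) := by
    apply Continuous.continuousOn
    rw [hb1]
    fun_prop
  -- step 2: the data at the point `b1 1`
  set x := re p with hx
  set h := dt x (Q.ed l) with hh
  set X0 := dt x l with hX0
  set ED : ℝ := (di (Q.ed l) (Q.ed l) : ℝ) with hED
  set LL : ℝ := (di l l : ℝ) with hLL
  have hED1 : 1 ≤ ED := ED_ge Q hl hlL
  have hLL1 : 1 ≤ LL := LL_ge hl
  have him11 : im (b1 1) = tau Q l • zr (Q.ed l) + σ • zr l := by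
    funext j
    rw [him1 1 j]
    simp [zr, Dirs.yc, tau]
  set z0 := bil (b1 1) (b1 1) with hz0
  have hz0n : ‖z0‖ ≤ 3 * P.Λ := bil_le_lam P (hq1 1 ⟨zero_le_one, le_rfl⟩)
  have hz0im : z0.im = 2 * (tau Q l * h + σ * X0) := by
    rw [hz0, bil_self_im, hre1, him11, dr_add_right, dr_smul_right, dr_smul_right]
    rfl
  have hz0re : dr x x = tau Q l ^ 2 * ED + σ ^ 2 * LL + z0.re := by
    have h1 := bil_self_re (b1 1)
    rw [← hz0, hre1, him11] at h1
    have h2 : dr (tau Q l • zr (Q.ed l) + σ • zr l) (tau Q l • zr (Q.ed l) + σ • zr l)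
        = tau Q l ^ 2 * ED + σ ^ 2 * LL := by
      rw [dr_add_left, dr_add_right, dr_add_right]
      simp only [dr_smul_left, dr_smul_right, dr_zr]
      rw [di_comm l (Q.ed l), di_ed_self]
      simp only [Int.cast_zero, mul_zero, add_zero, zero_add]
      ring
    rw [h2] at h1
    linarith
  have hhabs : 3 / 8 ≤ |h| := abs_half_le hz
  have hσ0 : σ ≠ 0 := by
    intro h0
    rw [h0, zero_mul, add_zero] at hz0im
    have h1 := (Complex.abs_im_le_norm z0).trans hz0n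
    rw [hz0im, abs_mul, abs_mul, abs_of_pos (by norm_num : (0 : ℝ) < 2)] at h1
    have h2 : P.Λ ^ 19 * (3 / 8) ≤ |tau Q l| * |h| :=
      mul_le_mul (le_tau Q hl hlL) hhabs (by norm_num) (abs_nonneg _)
    have h3 := pow_step P 1
    have h4 := pow_le P (show 2 ≤ 19 by norm_num)
    norm_num at h3
    linarith
  obtain ⟨e, he1, he2, he3⟩ := exists_sign hσ0
  have hσpos : 0 < |σ| := abs_pos.2 hσ0
  set b0 : ℝ := tau Q l * h + σ * X0 with hb0
  -- the moving parameters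
  set sg : ℝ → ℝ := fun t => e * (|σ| + t * (P.T1 + 1 - |σ|)) with hsg
  have hsabs : ∀ t ∈ Icc (0 : ℝ) 1, |sg t| = |σ| + t * (P.T1 + 1 - |σ|) := by
    intro t ht
    rw [hsg]
    simp only []
    rw [abs_mul, he3, one_mul, abs_of_nonneg]
    have := mul_nonneg ht.1 (by linarith : 0 ≤ P.T1 + 1 - |σ|)
    linarith
  have hsge : ∀ t ∈ Icc (0 : ℝ) 1, |σ| ≤ |sg t| := by
    intro t ht
    rw [hsabs t ht]
    have := mul_nonneg ht.1 (by linarith : 0 ≤ P.T1 + 1 - |σ|)
    linarith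
  have hsle : ∀ t ∈ Icc (0 : ℝ) 1, |sg t| ≤ P.T1 + 1 := by
    intro t ht
    rw [hsabs t ht]
    have := mul_le_mul_of_nonneg_right ht.2 (by linarith : 0 ≤ P.T1 + 1 - |σ|)
    linarith
  have hsne : ∀ t ∈ Icc (0 : ℝ) 1, sg t ≠ 0 := by
    intro t ht h0
    have := hsge t ht
    rw [h0, abs_zero] at this
    linarith
  have hs0 : sg 0 = σ := by
    rw [hsg]
    simp only [zero_mul, add_zero]
    exact he2.symm
  set XX' : ℝ → ℝ := fun t => (b0 - tau Q l * h) / sg t with hXX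
  have hXX0 : XX' 0 = X0 := by
    rw [hXX]
    simp only []
    rw [hs0, hb0]
    field_simp
    ring
  set G2 : ℝ → ℝ := fun t => tau Q l ^ 2 * ED + sg t ^ 2 * LL + z0.re - XX' t ^ 2 / LL
    - h ^ 2 / ED with hG2
  -- the orthogonal part
  set xo : Fin d → ℝ := x - (X0 / LL) • zr l - (h / ED) • zr (Q.ed l) with hxo
  have hol : dr xo (zr l) = 0 := by
    rw [hxo, dr_sub_left, dr_sub_left, dr_smul_left, dr_smul_left, dr_zr, dr_zr, di_ed_self]
    rw [← hLL]
    have : dr x (zr l) = X0 := rfl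
    rw [this]
    field_simp
    simp
  have hoe : dr xo (zr (Q.ed l)) = 0 := by
    rw [hxo, dr_sub_left, dr_sub_left, dr_smul_left, dr_smul_left, dr_zr, dr_zr,
      di_comm l (Q.ed l), di_ed_self]
    rw [← hED]
    have : dr x (zr (Q.ed l)) = h := rfl
    rw [this]
    field_simp
    simp
  have hxx : x = (X0 / LL) • zr l + (h / ED) • zr (Q.ed l) + xo := by
    rw [hxo]
    abel
  obtain ⟨f, hff, hfl, hfe, hfx⟩ := exists_unit P.hd hol hoe
  have hbilp : ∀ (s X g : ℝ), bil (bpath Q l f s X h g) (bpath Q l f s X h g)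
      = ((X ^ 2 / LL + h ^ 2 / ED + g ^ 2 - (tau Q l ^ 2 * ED + s ^ 2 * LL) : ℝ) : ℂ)
        + ((2 * (tau Q l * h + s * X) : ℝ) : ℂ) * Complex.I := by
    intro s X g
    have hLL0 : LL ≠ 0 := by linarith
    have hED0 : ED ≠ 0 := by linarith
    have h1 : dr (re (bpath Q l f s X h g)) (re (bpath Q l f s X h g))
        = X ^ 2 / LL + h ^ 2 / ED + g ^ 2 := by
      rw [re_bpath]
      simp only [dr_add_left, dr_add_right, dr_smul_left, dr_smul_right, dr_zr]
      rw [di_comm l (Q.ed l), di_ed_self, hff, dr_comm (zr l) f, dr_comm (zr (Q.ed l)) f, hfl, hfe,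
        ← hLL, ← hED]
      simp only [Int.cast_zero, mul_zero, add_zero, zero_add]
      field_simp
    have h2 : dr (im (bpath Q l f s X h g)) (im (bpath Q l f s X h g))
        = tau Q l ^ 2 * ED + s ^ 2 * LL := by
      rw [im_bpath]
      simp only [dr_add_left, dr_add_right, dr_smul_left, dr_smul_right, dr_zr]
      rw [di_comm l (Q.ed l), di_ed_self, ← hLL, ← hED]
      simp only [Int.cast_zero, mul_zero, add_zero, zero_add]
      ring
    have h3 : dr (re (bpath Q l f s X h g)) (im (bpath Q l f s X h g))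
        = tau Q l * h + s * X := by
      rw [im_bpath, re_bpath]
      simp only [dr_add_left, dr_add_right, dr_smul_left, dr_smul_right, dr_zr]
      rw [di_comm l (Q.ed l), di_ed_self, hfl, hfe, ← hLL, ← hED]
      simp only [Int.cast_zero, mul_zero, add_zero, zero_add]
      field_simp
    apply Complex.ext
    · rw [bil_self_re, h1, h2]
      simp only [Complex.add_re, Complex.ofReal_re, Complex.mul_re, Complex.ofReal_im,
        Complex.I_re, Complex.I_im, mul_zero, zero_mul, sub_zero, add_zero]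
    · rw [bil_self_im, h3]
      simp only [Complex.add_im, Complex.ofReal_im, Complex.mul_im, Complex.ofReal_re,
        Complex.I_im, Complex.I_re, mul_one, mul_zero, add_zero, zero_add]
  have hG0 : G2 0 = dr xo xo := by
    have hLL0 : LL ≠ 0 := by linarith
    have hED0 : ED ≠ 0 := by linarith
    have h1 : dr x x = X0 ^ 2 / LL + h ^ 2 / ED + dr xo xo := by
      have h2 : dr x x = dr ((X0 / LL) • zr l + (h / ED) • zr (Q.ed l) + xo)
          ((X0 / LL) • zr l + (h / ED) • zr (Q.ed l) + xo) := by rw [← hxx]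
      rw [h2]
      simp only [dr_add_left, dr_add_right, dr_smul_left, dr_smul_right, dr_zr]
      rw [di_comm l (Q.ed l), di_ed_self, dr_comm (zr l) xo, dr_comm (zr (Q.ed l)) xo, hol, hoe,
        ← hLL, ← hED]
      simp only [Int.cast_zero, mul_zero, add_zero, zero_add]
      field_simp
    rw [hG2]
    simp only []
    rw [hs0, hXX0]
    linarith
  have hG2nn : ∀ t ∈ Icc (0 : ℝ) 1, 0 ≤ G2 t := by
    intro t ht
    have h1 : 0 ≤ G2 0 := by rw [hG0]; exact dr_self_nonneg _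
    have h2 : G2 0 ≤ G2 t := by
      rw [hG2]
      simp only []
      have h3 : sg 0 ^ 2 ≤ sg t ^ 2 := by
        rw [hs0, ← sq_abs σ, ← sq_abs (sg t)]
        exact pow_le_pow_left₀ (abs_nonneg _) (hsge t ht) 2
      have h4 : XX' t ^ 2 ≤ XX' 0 ^ 2 := by
        rw [hXX]
        simp only []
        rw [div_pow, div_pow]
        apply div_le_div_of_nonneg_left (sq_nonneg _) _ h3
        rw [hs0]
        positivity
      have h5 : sg 0 ^ 2 * LL ≤ sg t ^ 2 * LL := mul_le_mul_of_nonneg_right h3 (by linarith)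
      have h6 : XX' t ^ 2 / LL ≤ XX' 0 ^ 2 / LL :=
        div_le_div_of_nonneg_right h4 (by linarith)
      linarith
    exact h1.trans h2
  set b2 : ℝ → Cd d := fun t => bpath Q l f (sg t) (XX' t) h (Real.sqrt (G2 t)) with hb2
  have hb2q : ∀ t ∈ Icc (0 : ℝ) 1, bil (b2 t) (b2 t) = z0 := by
    intro t ht
    rw [hb2]
    simp only []
    rw [hbilp, Real.sq_sqrt (hG2nn t ht)]
    have h1 : sg t * XX' t = b0 - tau Q l * h := by
      rw [hXX]
      simp only []
      field_simp [hsne t ht]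
    apply Complex.ext
    · simp only [Complex.add_re, Complex.ofReal_re, Complex.mul_re, Complex.ofReal_im,
        Complex.I_re, Complex.I_im, mul_zero, zero_mul, sub_zero, add_zero]
      rw [hG2]
      simp only []
      ring
    · simp only [Complex.add_im, Complex.ofReal_im, Complex.mul_im, Complex.ofReal_re,
        Complex.I_im, Complex.I_re, mul_one, mul_zero, add_zero, zero_add]
      rw [h1, hz0im]
      ring
  have hb20 : b2 0 = b1 1 := by
    have h1 : re (b2 0) = re (b1 1) := by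
      rw [hb2]
      simp only []
      rw [re_bpath, hXX0, hG0, hre1, ← hfx, ← hLL, ← hED]
      exact hxx.symm
    have h2 : im (b2 0) = im (b1 1) := by
      rw [hb2]
      simp only []
      rw [im_bpath, hs0, him11]
    funext j
    apply Complex.ext
    · exact congrFun h1 j
    · exact congrFun h2 j
  have hgood2 : ∀ t ∈ Icc (0 : ℝ) 1, Thick P (b2 t) ∧ Regular P (pm E (b2 t)) ∧
      nsq (pm E (b2 t) - b2 t) * P.Λ ^ 36 ≤ 1 := by
    intro t ht
    refine good_near Q hE hl hlL (hsle t ht) (η := fun _ => 0) (b := b2 t) (z := z)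
      (fun j => by simpa using hr.le) (fun j => ?_) ?_ ?_
    · rw [hb2]
      simp only []
      rw [im_bpath']
      ring
    · have h1 : dt (re (b2 t)) (Q.ed l) = h := by
        rw [hb2]
        simp only []
        rw [dt_eq, re_bpath]
        simp only [dr_add_left, dr_smul_left, dr_zr]
        rw [di_comm l (Q.ed l), di_ed_self, hfe, ← hED]
        simp only [Int.cast_zero, mul_zero, add_zero, zero_add]
        field_simp
      rw [h1]
      exact hz
    · have h1 := hq1 1 ⟨zero_le_one, le_rfl⟩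
      rw [q_zero] at h1 ⊢
      rw [hb2q t ht]
      exact h1
  have hcs : Continuous sg := by
    rw [hsg]
    fun_prop
  have hcX : ContinuousOn XX' (Icc 0 1) := by
    rw [hXX]
    exact continuousOn_const.div hcs.continuousOn hsne
  have hcG : ContinuousOn G2 (Icc 0 1) := by
    rw [hG2]
    have h1 := hcs.continuousOn (s := Icc (0 : ℝ) 1)
    exact (((continuousOn_const.add ((h1.pow 2).mul continuousOn_const)).add
      continuousOn_const).sub ((hcX.pow 2).div_const _)).sub continuousOn_const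
  have hcont2 : ContinuousOn b2 (Icc 0 1) := by
    rw [hb2]
    apply continuousOn_pi.2
    intro j
    unfold bpath
    have h1 := hcs.continuousOn (s := Icc (0 : ℝ) 1)
    have h2 : ContinuousOn (fun t => XX' t / (di l l : ℝ) * (l j : ℝ)
        + h / (di (Q.ed l) (Q.ed l) : ℝ) * (Q.ed l j : ℝ) + Real.sqrt (G2 t) * f j) (Icc 0 1) :=
      (((hcX.div_const _).mul continuousOn_const).add continuousOn_const).add
        (hcG.sqrt.mul continuousOn_const)
    have h3 : ContinuousOn (fun t => Q.yc l j + sg t * (l j : ℝ)) (Icc 0 1) :=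
      continuousOn_const.add (h1.mul continuousOn_const)
    exact (Complex.continuous_ofReal.comp_continuousOn h2).add
      ((Complex.continuous_ofReal.comp_continuousOn h3).mul continuousOn_const)
  -- conclusion
  have h1mem : (1 : ℝ) ∈ Icc (0 : ℝ) 1 := ⟨zero_le_one, le_rfl⟩
  have h0mem : (0 : ℝ) ∈ Icc (0 : ℝ) 1 := ⟨le_rfl, zero_le_one⟩
  obtain ⟨ht1, hr1, hn1⟩ := hgood2 1 h1mem
  refine ⟨pm E (b2 1), pm_base P hE ht1 hr1, ?_, ?_⟩
  · set δ := pm E (b2 1) - b2 1 with hδ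
    refine end_mem Q hl hlL (σ := sg 1) (δ := im δ) ?_ ?_ (fun j => ?_)
    · rw [hsabs 1 h1mem]
      ring
    · have h2 := nsq_eq δ
      have h3 := dr_self_nonneg (re δ)
      have h4 := dr_self_nonneg (im δ)
      calc dr (im δ) (im δ) * P.Λ ^ 2 ≤ nsq δ * P.Λ ^ 36 :=
            mul_le_mul (by linarith) (pow_le P (by norm_num)) (by positivity) (by linarith)
        _ ≤ 1 := hn1
    · have h2 : im (pm E (b2 1)) j = im (b2 1) j + im δ j := by simp [im, hδ]
      rw [h2]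
      congr 1
      rw [hb2]
      simp only []
      rw [im_bpath']
  · intro A B D
    have g1 := CC_pm P hE D hp (by rw [← hb10]; exact (hgood1 0 h0mem).1)
      (by rw [← hb10]; exact (hgood1 0 h0mem).2)
    have g2 := CC_path P hE D b1 hcont1 (fun t ht => (hgood1 t ht).1)
      (fun t ht => (hgood1 t ht).2)
    have g3 := CC_path P hE D b2 hcont2 (fun t ht => (hgood2 t ht).1)
      (fun t ht => (hgood2 t ht).2.1)
    rw [hb20] at g3
    rw [hb10] at g2
    exact g1.trans (g2.trans g3)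

end Fermi
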