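import Pool.Agent.Lib.Fermi.GeoGlue
import Pool.Agent.Lib.Fermi.GeoTh

/-!
# Chunk I: slabs and conclusion at one scale

RegSet_dich: suppose `k ∈ XX A ∩ RegSet`. `k` is regular; `CC_src` gives `n`, `p₁ ∈ XX A`, `Good p₁`, `p₁ - n` within `r/4` of `k`.
If `im k ∈ PP (2G)` then `im p₁ ∈ PP (3/2 G)`, `p₁` is regular (`regular_of_im`), base, `CC A p₁` (`CC_of_good`).
If `k` is Thomas then `p₁` is near Thomas (`dt (re p₁) (ed l)` is near `z + 1/2 + di n (ed l)`), regular, and `conn_Th` gives a base point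
over `PP (3/2 G)` with `CC A`. The same for `B`; `glue` and `CC_dich` give a contradiction.
slab: if `|2 dt (yl σ) l| ≥ 2G` for all `l`, then `im k ∈ PP (2G)`. Otherwise for some `l`: `|σ - sg l| ≤ G`. Path
`c(θ) = k + θ (k* - k)`, `im k* = yc l`, `re k* = re k + λ ed l` with `dt (re k*) (ed l) ∈ ℤ + 1/2`; strips in direction `l`, `T = T1`:
at `|Im z| = T1` the imaginary part is in `PP (2G)`; at `θ = 1` all points of the strip are Thomas. `hn`: take `z = i T1`,
the point is regular, `exists_not_mem` with `v = zc l/‖l‖` and `grad` (`|bil κ_n l| ≥ |dt y l| ≥ G`).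
finish: the same with strips in direction `e`, `T = T2`, `c(θ) = k + θ i (tt a - im k)`.
-/

open scoped BigOperators Topology
open Set Filter

noncomputable section

namespace Fermi

variable {d : ℕ} {μ : ℂ} {w : Zd d → ℂ}
variable {P : Sc d μ w} {Q : Dirs P} {E : Cd d → ℂ} {A B : Set (Cd d)}


/-- the set of points handled directly -/
def RegSet (P : Sc d μ w) (Q : Dirs P) : Set (Cd d) :=
  {k | im k ∈ PP P Q (2 * P.G)} ∪ {k | ∃ l : Zd d, l ≠ 0 ∧ ‖l‖ ≤ P.L ∧ Th P Q l k}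

/-! ### elementary bounds -/

lemma i_r_pos (P : Sc d μ w) : 0 < P.r := inv_pos.mpr (ga_pow_pos P _)

lemma i_r (P : Sc d μ w) {n : ℕ} (hn : n ≤ 1200) : P.r * P.Λ ^ n ≤ 1 := by
  have h1 : n ≤ 300 * d + 300 := by
    have := P.hd
    omega
  unfold Sc.r
  rw [inv_mul_le_iff₀ (ga_pow_pos P _), mul_one]
  exact pow_le_pow_right₀ (ga_one_le P) h1

lemma i_norm {y : Fin d → ℝ} (P : Sc d μ w) (hy : ∀ j, |y j| ≤ P.Λ ^ 24) :
    dr y y ≤ P.R ^ 2 / 4 := by
  have h1 : dr y y ≤ d * (P.Λ ^ 24) ^ 2 := by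
    unfold dr
    have : ∀ j ∈ (Finset.univ : Finset (Fin d)), y j * y j ≤ (P.Λ ^ 24) ^ 2 := by
      intro j _
      have := hy j
      rw [← sq, ← sq_abs]
      have h0 := abs_nonneg (y j)
      gcongr
    refine (Finset.sum_le_sum this).trans ?_
    rw [Finset.sum_const, Finset.card_univ, Fintype.card_fin, nsmul_eq_mul]
  have h2 := ga_dLam P
  have h3 := ga_pow_pos P 48
  have h4 : P.R ^ 2 = P.Λ ^ 52 := by unfold Sc.R; ring
  have h5 : 10 ^ 7 * P.Λ ^ 49 ≤ P.Λ ^ 52 := ga_pow P (by norm_num)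
  have h6 : (P.Λ ^ 24) ^ 2 = P.Λ ^ 48 := by ring
  have h7 : (d : ℝ) * P.Λ ^ 48 ≤ P.Λ ^ 49 := by
    have : P.Λ ^ 49 = P.Λ * P.Λ ^ 48 := by ring
    rw [this]
    apply mul_le_mul_of_nonneg_right _ h3.le
    have := ga_d P
    linarith
  rw [h6] at h1
  rw [h4]
  have := ga_pow_pos P 49
  linarith

lemma i_norm' {y : Fin d → ℝ} (P : Sc d μ w) (hy : dr y y ≤ P.R ^ 2 / 4) :
    (2 * P.G) ^ 2 * dr y y ≤ P.G ^ 2 * P.R ^ 2 := by
  have h1 : 0 ≤ P.G ^ 2 := sq_nonneg _
  nlinarith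

lemma i_dr_nonneg (y : Fin d → ℝ) : 0 ≤ dr y y :=
  Finset.sum_nonneg fun j _ => mul_self_nonneg _

lemma i_Pc_norm {g : ℝ} (hg : 3 / 2 * P.G ≤ g) {y y₀ : Fin d → ℝ} (hy : y ∈ Pc P g y₀) :
    dr y y ≤ P.R ^ 2 := by
  have hG := ga_G_pos P
  have h1 : (3 / 2 * P.G) ^ 2 ≤ g ^ 2 := by
    have : 0 ≤ 3 / 2 * P.G := by linarith
    gcongr
  have h2 := hy.1
  have h3 := i_dr_nonneg y
  have h4 : (3 / 2 * P.G) ^ 2 * dr y y ≤ P.G ^ 2 * P.R ^ 2 :=
    (mul_le_mul_of_nonneg_right h1 h3).trans h2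
  have h5 : 0 < P.G ^ 2 := by positivity
  have h6 : P.G ^ 2 * (9 / 4 * dr y y) ≤ P.G ^ 2 * P.R ^ 2 := by
    calc P.G ^ 2 * (9 / 4 * dr y y) = (3 / 2 * P.G) ^ 2 * dr y y := by ring
      _ ≤ _ := h4
  have h7 := le_of_mul_le_mul_left h6 h5
  linarith

lemma i_regular {g : ℝ} (hg : 3 / 2 * P.G ≤ g) {y₀ : Fin d → ℝ} {k : Cd d}
    (hy : im k ∈ Pc P g y₀) : Regular P k := by
  refine regular_of_im P (i_Pc_norm hg hy) (fun l hl hL => ?_)
  refine le_trans ?_ (hg.trans (hy.2 l hl hL).1)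
  have h1 := P.hcΛ
  have h2 : 10 ^ 7 * P.Λ ^ 1 ≤ P.Λ ^ 5 := ga_pow P (by norm_num)
  rw [pow_one] at h2
  have h3 : P.G = P.Λ ^ 5 := rfl
  have := ga_Lam_pos P
  linarith

lemma i_small {x : Fin d → ℝ} (P : Sc d μ w) (hx : ∀ j, |x j| ≤ P.r) {l : Zd d}
    (hl : ‖l‖ ≤ P.Λ) : |dt x l| ≤ 1 / 8 := by
  have h1 := ga_dt_le hx l
  refine h1.trans ?_
  have hr := i_r_pos P
  have h2 := ga_dLam P
  have h3 := ga_d P
  have h4 := i_r P (n := 2) (by norm_num)
  have hΛ := ga_Lam_pos P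
  calc (d : ℝ) * P.r * ‖l‖ ≤ (d : ℝ) * P.r * P.Λ := by
        apply mul_le_mul_of_nonneg_left hl
        positivity
    _ ≤ (P.Λ / 8) * P.r * P.Λ := by
        apply mul_le_mul_of_nonneg_right _ hΛ.le
        apply mul_le_mul_of_nonneg_right _ hr.le
        linarith
    _ = (P.r * P.Λ ^ 2) / 8 := by ring
    _ ≤ 1 / 8 := by linarith

lemma i_near_Pc {y y' y₀ : Fin d → ℝ} (hy : y ∈ Pc P (2 * P.G) y₀)
    (h : ∀ j, |y' j - y j| ≤ P.r) : y' ∈ Pc P (3 / 2 * P.G) y₀ := by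
  have hG := ga_G_pos P
  have hr := i_r_pos P
  constructor
  · have h1 : dr y y ≤ P.R ^ 2 / 4 := by
      have h2 := hy.1
      have h5 : 0 < P.G ^ 2 := by positivity
      have h6 : P.G ^ 2 * (4 * dr y y) ≤ P.G ^ 2 * P.R ^ 2 := by
        calc P.G ^ 2 * (4 * dr y y) = (2 * P.G) ^ 2 * dr y y := by ring
          _ ≤ _ := h2
      have h7 := le_of_mul_le_mul_left h6 h5
      linarith
    have h3 : dr y' y' ≤ 5 / 4 * dr y y + 5 * (d * P.r ^ 2) := by
      have h4 : dr y' y' ≤ ∑ j : Fin d, (5 / 4 * (y j * y j) + 5 * P.r ^ 2) := by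
        unfold dr
        apply Finset.sum_le_sum
        intro j _
        have h5 : (y' j - y j) ^ 2 ≤ P.r ^ 2 := by
          rw [← sq_abs]
          have := h j
          have := abs_nonneg (y' j - y j)
          gcongr
        nlinarith [sq_nonneg (y j / 2 - 2 * (y' j - y j))]
      refine h4.trans (le_of_eq ?_)
      rw [Finset.sum_add_distrib, ← Finset.mul_sum, Finset.sum_const, Finset.card_univ,
        Fintype.card_fin, nsmul_eq_mul]
      unfold dr
      ring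
    have h8 : 5 * (d * P.r ^ 2) ≤ 1 := by
      have h9 := i_r P (n := 1) (by norm_num)
      rw [pow_one] at h9
      have h10 := ga_dLam P
      have h11 := ga_one_le P
      have h12 : P.r ≤ 1 := by nlinarith
      have h13 : 5 * (d : ℝ) ≤ P.Λ := by
        have := ga_d P
        linarith
      calc 5 * (d * P.r ^ 2) = (5 * (d : ℝ) * P.r) * P.r := by ring
        _ ≤ (P.Λ * P.r) * P.r := by
            apply mul_le_mul_of_nonneg_right _ hr.le
            exact mul_le_mul_of_nonneg_right h13 hr.le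
        _ ≤ 1 * 1 := by
            apply mul_le_mul _ h12 hr.le (by norm_num)
            linarith
        _ = 1 := by norm_num
    have h14 : 100 ≤ P.R ^ 2 := by
      have h15 : P.R ^ 2 = P.Λ ^ 52 := by unfold Sc.R; ring
      have h16 : 10 ^ 7 * P.Λ ^ 0 ≤ P.Λ ^ 52 := ga_pow P (by norm_num)
      rw [pow_zero] at h16
      rw [h15]; linarith
    have h17 : dr y' y' ≤ 4 / 9 * P.R ^ 2 := by linarith
    have h18 : 0 ≤ P.G ^ 2 := sq_nonneg _
    nlinarith
  · intro l hl hL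
    obtain ⟨h1, h2⟩ := hy.2 l hl hL
    have hη : |dt (fun j => y' j - y j) l| ≤ 1 / 8 := i_small P h (by
      have := ga_LLam P
      have := ga_L P
      linarith)
    have h3 : dt y' l = dt y l + dt (fun j => y' j - y j) l := by
      rw [← ga_dt_add]
      congr 1
      funext j
      ring
    have h4 : 10 ^ 7 ≤ P.G := by
      have h16 : 10 ^ 7 * P.Λ ^ 0 ≤ P.Λ ^ 5 := ga_pow P (by norm_num)
      rw [pow_zero, mul_one] at h16
      exact h16
    have h5 := abs_le.mp hη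
    rw [abs_mul, abs_two] at h1
    rcases lt_or_ge (dt y l) 0 with hneg | hpos
    · rw [abs_of_neg hneg] at h1
      have h6 : dt y' l < 0 := by rw [h3]; linarith
      have h7 : dt y₀ l < 0 := by
        by_contra h0
        push Not at h0
        linarith [mul_nonpos_of_nonpos_of_nonneg hneg.le h0]
      refine ⟨?_, mul_pos_of_neg_of_neg h6 h7⟩
      rw [abs_mul, abs_two, abs_of_neg h6, h3]
      linarith
    · rw [abs_of_nonneg hpos] at h1
      have h6 : 0 < dt y' l := by rw [h3]; linarith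
      have h7 : 0 < dt y₀ l := by
        by_contra h0
        push Not at h0
        linarith [mul_nonpos_of_nonneg_of_nonpos hpos h0]
      refine ⟨?_, mul_pos h6 h7⟩
      rw [abs_mul, abs_two, abs_of_pos h6, h3]
      linarith

lemma i_coord_le {n : Zd d} {c : ℝ} (h : (di n n : ℝ) ≤ c) (j : Fin d) : |(n j : ℝ)| ≤ c := by
  have h1 : n j * n j ≤ di n n := by
    unfold di
    exact Finset.single_le_sum (f := fun j => n j * n j) (fun i _ => mul_self_nonneg _)
      (Finset.mem_univ j)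
  have h2 : |n j| ≤ n j * n j := by
    rcases eq_or_ne (n j) 0 with h0 | h0
    · rw [h0]; simp
    · have := Int.one_le_abs h0
      rw [← abs_mul_abs_self (n j)]
      nlinarith
  have h3 : (|n j| : ℤ) ≤ di n n := h2.trans h1
  have h4 : |(n j : ℝ)| ≤ (di n n : ℝ) := by exact_mod_cast h3
  exact h4.trans h

lemma i_norm_le {n : Zd d} {c : ℝ} (hc : 0 ≤ c) (h : (di n n : ℝ) ≤ c) : ‖n‖ ≤ c := by
  refine (pi_norm_le_iff_of_nonneg hc).mpr (fun j => ?_)
  rw [Int.norm_eq_abs]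
  exact i_coord_le h j

lemma i_im_sub {p k : Cd d} {n : Zd d} {c : ℝ} (h : ‖p - zc n - k‖ ≤ c) (j : Fin d) :
    |im p j - im k j| ≤ c := by
  refine le_trans ?_ ((norm_le_pi_norm _ j).trans h)
  refine le_trans (le_of_eq ?_) (Complex.abs_im_le_norm _)
  simp [im, zc]

lemma i_re_sub {p k : Cd d} {n : Zd d} {c : ℝ} (h : ‖p - zc n - k‖ ≤ c) (j : Fin d) :
    |re p j - (n j : ℝ) - re k j| ≤ c := by
  refine le_trans ?_ ((norm_le_pi_norm _ j).trans h)
  refine le_trans (le_of_eq ?_) (Complex.abs_re_le_norm _)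
  simp [re, zc]

/-- a point of `XX F A` in the regular set produces a base point over a chamber -/
lemma i_src (hE : Eff P E) (D : Decomp (FS μ w) A B) {k : Cd d} (hk : k ∈ XX (FS μ w) A)
    (hR : k ∈ RegSet P Q) : ∃ p, Base P E p ∧ im p ∈ PP P Q (3 / 2 * P.G) ∧ CC P E A p := by
  have hG := ga_G_pos P
  have hr := i_r_pos P
  rcases hR with hR | hR
  · obtain ⟨σ, hσ, hy⟩ := hR
    have hreg : Regular P k := i_regular (by linarith) hy
    obtain ⟨n, p₁, h1, h2, h3⟩ := CC_src P hE D hreg hk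
    have hy' : im p₁ ∈ Pc P (3 / 2 * P.G) (Q.yl σ) :=
      i_near_Pc hy (fun j => (i_im_sub h3 j).trans (by linarith))
    exact ⟨p₁, ⟨i_regular le_rfl hy', h2.2.1, h2.2.2.1⟩, ⟨σ, hσ, hy'⟩, CC_of_good P h2 h1⟩
  · obtain ⟨l, hl, hL, hTh⟩ := hR
    have hreg : Regular P k := Th.regular hl hL hTh
    obtain ⟨σ, hσ, him, z, hz⟩ := hTh
    obtain ⟨n, p₁, h1, h2, h3⟩ := CC_src P hE D hreg hk
    set η : Fin d → ℝ := fun j => im p₁ j - im k j with hη
    have hηr : ∀ j, |η j| ≤ P.r := fun j => (i_im_sub h3 j).trans (by linarith)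
    have himp : ∀ j, im p₁ j = Q.yc l j + σ * (l j : ℝ) + η j := by
      intro j
      rw [hη, ← him j]; ring
    have hedL : ‖Q.ed l‖ ≤ P.Λ := i_norm_le (ga_Lam_pos P).le (Q.ned l hL)
    have hz' : |dt (re p₁) (Q.ed l) - ((z + di n (Q.ed l) : ℤ) : ℝ) - 1 / 2| ≤ 1 / 8 := by
      have h4 : dt (re p₁) (Q.ed l) = dt (re k) (Q.ed l) + (di n (Q.ed l) : ℝ) +
          dt (fun j => re p₁ j - (n j : ℝ) - re k j) (Q.ed l) := by
        have h5 : (di n (Q.ed l) : ℝ) = dt (fun j => (n j : ℝ)) (Q.ed l) := by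
          have := ga_dt_int (d := d) 1 n (Q.ed l)
          simpa using this.symm
        rw [h5, ← ga_dt_add, ← ga_dt_add]
        congr 1
        funext j
        ring
      have h6 : |dt (fun j => re p₁ j - (n j : ℝ) - re k j) (Q.ed l)| ≤ 1 / 8 :=
        i_small P (fun j => (i_re_sub h3 j).trans (by linarith)) hedL
      rw [h4, hz]
      push_cast
      have h7 : (z : ℝ) + 1 / 2 + (di n (Q.ed l) : ℝ) +
          dt (fun j => re p₁ j - (n j : ℝ) - re k j) (Q.ed l) - ((z : ℝ) + (di n (Q.ed l) : ℝ)) -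
          1 / 2 = dt (fun j => re p₁ j - (n j : ℝ) - re k j) (Q.ed l) := by ring
      rw [h7]
      exact h6
    have hT1 : P.T1 = P.Λ ^ 7 := rfl
    have hT1p : 0 < P.T1 := ga_pow_pos P 7
    -- size of the imaginary part
    have e1 : dr η η ≤ d * P.r ^ 2 := by
      unfold dr
      have : ∀ j ∈ (Finset.univ : Finset (Fin d)), η j * η j ≤ P.r ^ 2 := by
        intro j _
        have h5 := hηr j
        have h6 := abs_nonneg (η j)
        rw [← sq, ← sq_abs]
        gcongr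
      refine (Finset.sum_le_sum this).trans ?_
      rw [Finset.sum_const, Finset.card_univ, Fintype.card_fin, nsmul_eq_mul]
    have e1' : dr η η ≤ 1 := by
      refine e1.trans ?_
      have h9 := i_r P (n := 1) (by norm_num)
      rw [pow_one] at h9
      have h10 := ga_dLam P
      have h11 := ga_one_le P
      have h12 : P.r ≤ 1 := by nlinarith
      have h13 : (d : ℝ) ≤ P.Λ := by
        have := ga_d P
        linarith
      calc (d : ℝ) * P.r ^ 2 = ((d : ℝ) * P.r) * P.r := by ring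
        _ ≤ (P.Λ * P.r) * P.r := by
            apply mul_le_mul_of_nonneg_right _ hr.le
            exact mul_le_mul_of_nonneg_right h13 hr.le
        _ ≤ 1 * 1 := by
            apply mul_le_mul _ h12 hr.le (by norm_num)
            linarith
        _ = 1 := by norm_num
    have hη4 : dr η η * dr (im p₁) (im p₁) ≤ 4 := by
      have e2 : ∀ j, |im p₁ j| ≤ P.Λ ^ 24 := by
        intro j
        rw [himp j]
        have a1 : |Q.yc l j| ≤ P.Λ ^ 21 := by
          unfold Dirs.yc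
          rw [abs_mul, abs_div, abs_of_pos (ga_tt_pos P)]
          have a2 := ga_di_e_one Q hl hL
          have a3 := (ga_abs_le_norm (Q.ed l) j).trans hedL
          have a4 : P.tt / |(di Q.e l : ℝ)| ≤ P.tt := by
            rw [div_le_iff₀ (by linarith)]
            have := ga_tt_pos P
            nlinarith
          calc P.tt / |(di Q.e l : ℝ)| * |(Q.ed l j : ℝ)| ≤ P.tt * P.Λ :=
                mul_le_mul a4 a3 (abs_nonneg _) (ga_tt_pos P).le
            _ = P.Λ ^ 21 := by unfold Sc.tt; ring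
        have a5 : |σ * (l j : ℝ)| ≤ P.Λ ^ 8 := by
          rw [abs_mul]
          have a6 := (ga_abs_le_norm l j).trans hL
          have a7 : (P.L : ℝ) ≤ P.Λ := by
            have := ga_LLam P
            have := ga_L P
            linarith
          calc |σ| * |(l j : ℝ)| ≤ P.T1 * P.Λ := mul_le_mul hσ (a6.trans a7) (abs_nonneg _) hT1p.le
            _ = P.Λ ^ 8 := by rw [hT1]; ring
        have a8 : |η j| ≤ 1 := by
          have := i_r P (n := 0) (by norm_num)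
          rw [pow_zero, mul_one] at this
          exact (hηr j).trans this
        have a9 := abs_add_le (Q.yc l j + σ * (l j : ℝ)) (η j)
        have a10 := abs_add_le (Q.yc l j) (σ * (l j : ℝ))
        have b1 : 10 ^ 7 * P.Λ ^ 21 ≤ P.Λ ^ 24 := ga_pow P (by norm_num)
        have b2 : 10 ^ 7 * P.Λ ^ 8 ≤ P.Λ ^ 21 := ga_pow P (by norm_num)
        have b3 := ga_one_le_pow P 8
        have b4 := ga_pow_pos P 21
        linarith
      have e3 : dr (im p₁) (im p₁) ≤ P.Λ ^ 52 := by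
        have := i_norm P e2
        have e4 : P.R ^ 2 = P.Λ ^ 52 := by unfold Sc.R; ring
        have := ga_pow_pos P 52
        linarith
      have e5 := i_dr_nonneg η
      have e6 : 0 ≤ dr (im p₁) (im p₁) := i_dr_nonneg _
      have e7 := i_r P (n := 30) (by norm_num)
      have e8 : (d : ℝ) ≤ P.Λ := by
        have := ga_dLam P
        have := ga_d P
        linarith
      have e9 := ga_pow_pos P 52
      calc dr η η * dr (im p₁) (im p₁) ≤ (d * P.r ^ 2) * P.Λ ^ 52 :=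
            mul_le_mul e1 e3 e6 (by positivity)
        _ ≤ (P.Λ * P.r ^ 2) * P.Λ ^ 52 := by
            apply mul_le_mul_of_nonneg_right _ e9.le
            apply mul_le_mul_of_nonneg_right e8 (by positivity)
        _ ≤ (P.r * P.Λ ^ 30) ^ 2 := by
            have e10 : P.Λ ^ 53 ≤ P.Λ ^ 60 := pow_le_pow_right₀ (ga_one_le P) (by norm_num)
            have e11 : (P.r * P.Λ ^ 30) ^ 2 = P.r ^ 2 * P.Λ ^ 60 := by ring
            have e12 : P.Λ * P.r ^ 2 * P.Λ ^ 52 = P.r ^ 2 * P.Λ ^ 53 := by ring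
            rw [e11, e12]
            exact mul_le_mul_of_nonneg_left e10 (sq_nonneg _)
        _ ≤ 1 := by
            have e13 : 0 ≤ P.r * P.Λ ^ 30 := by positivity
            nlinarith
        _ ≤ 4 := by norm_num
    have hreg1 : Regular P p₁ := regular_near_Th Q hl hL (by linarith) himp hη4 e1'
      (hz'.trans (by norm_num))
    obtain ⟨p', hb, hi, hcc⟩ := conn_Th Q hE hl hL ⟨hreg1, h2.2.1, h2.2.2.1⟩ (σ := σ) (by linarith) himp hηr hz'
    exact ⟨p', hb, hi, (hcc A B D).mp (CC_of_good P h2 h1)⟩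

theorem RegSet_dich (hE : Eff P E) (D : Decomp (FS μ w) A B)
    (hC : ∀ l : Zd d, Prim l → ‖l‖ ≤ P.L → CrossAt P Q E l) :
    (∀ k ∈ XX (FS μ w) A, k ∉ RegSet P Q) ∨ (∀ k ∈ XX (FS μ w) B, k ∉ RegSet P Q) := by
  by_contra h
  push Not at h
  obtain ⟨⟨k, hk, hkR⟩, ⟨k', hk', hkR'⟩⟩ := h
  obtain ⟨p, h1, h2, h3⟩ := i_src hE D hk hkR
  obtain ⟨p', h1', h2', h3'⟩ := i_src hE D.symm hk' hkR'
  have h4 := (glue hE D hC h1 h1' h2 h2').mp h3
  exact CC_dich P hE D h1' ⟨h4, h3'⟩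

/-! ### slabs -/

lemma i_im_strip (c : Cd d) (l : Zd d) (z : ℂ) (j : Fin d) :
    im (c + z • zc l) j = im c j + z.im * (l j : ℝ) := by
  simp [im, zc]

lemma i_re_strip (c : Cd d) (l : Zd d) (z : ℂ) (j : Fin d) :
    re (c + z • zc l) j = re c j + z.re * (l j : ℝ) := by
  simp [re, zc]

lemma i_bil_im (p : Cd d) (n v : Zd d) : (bil (p + zc n) (zc v)).im = dt (im p) v := by
  unfold bil dt im
  rw [Complex.im_sum]
  apply Finset.sum_congr rfl
  intro j _
  simp [zc]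

lemma i_bil_le (x : Cd d) (v : Zd d) : ‖bil x (zc v)‖ ≤ d * ‖x‖ * ‖v‖ := by
  unfold bil
  refine (norm_sum_le _ _).trans ?_
  have : ∀ j ∈ (Finset.univ : Finset (Fin d)), ‖x j * zc v j‖ ≤ ‖x‖ * ‖v‖ := by
    intro j _
    rw [norm_mul]
    refine mul_le_mul (norm_le_pi_norm x j) ?_ (norm_nonneg _) (norm_nonneg _)
    have : ‖zc v j‖ = |(v j : ℝ)| := by simp [zc]
    rw [this]
    exact ga_abs_le_norm v j
  refine (Finset.sum_le_sum this).trans ?_
  rw [Finset.sum_const, Finset.card_univ, Fintype.card_fin, nsmul_eq_mul]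
  apply le_of_eq
  ring

lemma i_zc_norm (v : Zd d) : ‖zc v‖ ≤ ‖v‖ := by
  refine (pi_norm_le_iff_of_nonneg (norm_nonneg _)).mpr (fun j => ?_)
  have : ‖zc v j‖ = |(v j : ℝ)| := by simp [zc]
  rw [this]
  exact ga_abs_le_norm v j

/-- a transversal integer line leaves `F` -/
lemma i_leave (hE : Eff P E) {p0 : Cd d} (hR : Regular P p0) {v : Zd d} (hv : ‖v‖ ≤ P.Λ)
    (hd : P.Λ ^ 4 ≤ |dt (im p0) v|) : ∃ z : ℂ, p0 + z • zc v ∉ FS μ w := by
  obtain ⟨S, a, cc, hM⟩ := hE.lmat p0 hR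
  have hΛ := ga_Lam_pos P
  have hv' : ‖((P.Λ : ℂ)⁻¹) • zc v‖ ≤ 1 := by
    rw [norm_smul, norm_inv, Complex.norm_real, Real.norm_eq_abs, abs_of_pos hΛ,
      inv_mul_le_iff₀ hΛ, mul_one]
    exact (i_zc_norm v).trans hv
  obtain ⟨z, hz⟩ := exists_not_mem hM.lm (sc_LC P) hM.card (((P.Λ : ℂ)⁻¹) • zc v) hv' (by
    intro n hn
    obtain ⟨lam, hl1, hl2⟩ := hM.grad n hn
    have e1 : bil (a n) (((P.Λ : ℂ)⁻¹) • zc v) = (P.Λ : ℂ)⁻¹ * bil (a n) (zc v) := by
      unfold bil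
      rw [Finset.mul_sum]
      apply Finset.sum_congr rfl
      intro j _
      simp only [Pi.smul_apply, smul_eq_mul]
      ring
    have e2 : bil (a n) (zc v) = lam * bil (p0 + zc n) (zc v) +
        bil (a n - lam • (p0 + zc n)) (zc v) := by
      unfold bil
      rw [Finset.mul_sum, ← Finset.sum_add_distrib]
      apply Finset.sum_congr rfl
      intro j _
      simp only [Pi.sub_apply, Pi.smul_apply, smul_eq_mul]
      ring
    have e3 : P.Λ ^ 4 ≤ ‖bil (p0 + zc n) (zc v)‖ := by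
      refine hd.trans ?_
      rw [← i_bil_im p0 n v]
      exact Complex.abs_im_le_norm _
    have e4 : ‖bil (a n - lam • (p0 + zc n)) (zc v)‖ ≤ P.Λ ^ 2 := by
      refine (i_bil_le _ _).trans ?_
      have h1 := ga_dLam P
      have h2 := ga_d P
      calc (d : ℝ) * ‖a n - lam • (p0 + zc n)‖ * ‖v‖ ≤ (d : ℝ) * 1 * P.Λ := by
            apply mul_le_mul _ hv (norm_nonneg _) (by positivity)
            apply mul_le_mul_of_nonneg_left hl2 (by positivity)
        _ ≤ P.Λ * 1 * P.Λ := by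
            apply mul_le_mul_of_nonneg_right _ hΛ.le
            linarith
        _ = P.Λ ^ 2 := by ring
    have e5 : P.Λ ^ 4 / 2 - P.Λ ^ 2 ≤ ‖bil (a n) (zc v)‖ := by
      rw [e2]
      have h1 := norm_sub_le_norm_add (lam * bil (p0 + zc n) (zc v))
        (bil (a n - lam • (p0 + zc n)) (zc v))
      rw [norm_mul] at h1
      have h2 : 1 / 2 * P.Λ ^ 4 ≤ ‖lam‖ * ‖bil (p0 + zc n) (zc v)‖ :=
        mul_le_mul hl1 e3 (ga_pow_pos P 4).le (norm_nonneg _)
      linarith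
    have e6 : 10 ^ 7 * P.Λ ^ 2 ≤ P.Λ ^ 4 := ga_pow P (by norm_num)
    have e7 : 10 ^ 7 * P.Λ ^ 1 ≤ P.Λ ^ 2 := ga_pow P (by norm_num)
    rw [pow_one] at e7
    have e8 : P.Λ ≤ ‖bil (a n) (zc v)‖ := by
      have := ga_pow_pos P 2
      linarith
    rw [e1, norm_mul, norm_inv, Complex.norm_real, Real.norm_eq_abs, abs_of_pos hΛ]
    have e9 : 1 ≤ P.Λ⁻¹ * ‖bil (a n) (zc v)‖ := by
      rw [le_inv_mul_iff₀ hΛ, mul_one]; exact e8
    have e10 : 1 ≤ P.M := ga_one_le_pow P 27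
    nlinarith)
  refine ⟨z * (P.Λ : ℂ)⁻¹, ?_⟩
  rw [smul_smul] at hz
  exact hz

lemma i_yl_le (Q : Dirs P) {σ : ℝ} (hσ : |σ| ≤ P.T2) (j : Fin d) : |Q.yl σ j| ≤ 2 * P.Λ ^ 23 := by
  unfold Dirs.yl
  have h1 := i_coord_le Q.na j
  have h2 := i_coord_le Q.ne j
  have hT2 : P.T2 = P.Λ ^ 22 := rfl
  have h3 := abs_add_le (P.tt * (Q.a j : ℝ)) (σ * (Q.e j : ℝ))
  have h4 : |P.tt * (Q.a j : ℝ)| ≤ P.Λ ^ 21 := by
    rw [abs_mul, abs_of_pos (ga_tt_pos P)]
    calc P.tt * |(Q.a j : ℝ)| ≤ P.tt * P.Λ := mul_le_mul_of_nonneg_left h1 (ga_tt_pos P).le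
      _ = P.Λ ^ 21 := by unfold Sc.tt; ring
  have h5 : |σ * (Q.e j : ℝ)| ≤ P.Λ ^ 23 := by
    rw [abs_mul]
    calc |σ| * |(Q.e j : ℝ)| ≤ P.T2 * P.Λ := mul_le_mul hσ h2 (abs_nonneg _) (ga_pow_pos P 22).le
      _ = P.Λ ^ 23 := by rw [hT2]; ring
  have h6 : 10 ^ 7 * P.Λ ^ 21 ≤ P.Λ ^ 23 := ga_pow P (by norm_num)
  have := ga_pow_pos P 21
  linarith

/-- for every small `l ≠ 0` the vector `ed l` is nonzero -/
lemma i_ed_ne (Q : Dirs P) {l : Zd d} (hl : l ≠ 0) (hL : ‖l‖ ≤ P.L) : Q.ed l ≠ 0 := by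
  intro h0
  have hL30 := ga_L P
  have key : ∀ m : Zd d, m ≠ 0 → ‖m‖ ≤ P.L → ∃ i j : ℤ, i ≠ 0 ∧ j ≠ 0 ∧ i • l = j • m := by
    intro m hm hmL
    refine Q.hea l m hl hL hm hmL ?_
    have h1 : di (Q.ed l) m = 0 := by rw [h0]; simp [di]
    unfold Dirs.ed at h1
    rw [ga_di_sub_left, ga_di_smul_left, ga_di_smul_left] at h1
    linarith
  have hd := P.hd
  let u : Fin d := ⟨0, by omega⟩
  let v : Fin d := ⟨1, by omega⟩
  have huv : u ≠ v := by
    intro h
    have := congrArg Fin.val h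
    simp [u, v] at this
  have hsingle : ∀ x : Fin d, (Pi.single x (1 : ℤ) : Zd d) ≠ 0 ∧ ‖(Pi.single x (1 : ℤ) : Zd d)‖ ≤ P.L := by
    intro x
    constructor
    · intro h
      have := congrFun h x
      simp at this
    · refine le_trans ?_ (by linarith : (1 : ℝ) ≤ P.L)
      refine (pi_norm_le_iff_of_nonneg (by norm_num)).mpr (fun j => ?_)
      by_cases hj : j = x
      · subst hj; simp
      · simp [hj]
  obtain ⟨i, j, hi, hj, hij⟩ := key _ (hsingle u).1 (hsingle u).2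
  obtain ⟨i', j', hi', hj', hij'⟩ := key _ (hsingle v).1 (hsingle v).2
  have e1 := congrFun hij v
  have e2 := congrFun hij' v
  simp only [Pi.smul_apply, smul_eq_mul, Pi.single_eq_of_ne huv.symm, mul_zero,
    Pi.single_eq_same, mul_one] at e1 e2
  have e3 : l v = 0 := by
    rcases mul_eq_zero.mp e1 with h | h
    · exact absurd h hi
    · exact h
  rw [e3, mul_zero] at e2
  exact hj' e2.symm

/-- the line is free of `XX F A` -/
theorem slab (hE : Eff P E) (D : Decomp (FS μ w) A B)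
    (hX : ∀ k ∈ XX (FS μ w) A, k ∉ RegSet P Q) {k : Cd d} {σ : ℝ} (hσ : |σ| ≤ P.T2)
    (hk : im k = Q.yl σ) : k ∉ XX (FS μ w) A := by
  intro hkA
  have hG := ga_G_pos P
  have hT1 : P.T1 = P.Λ ^ 7 := rfl
  have hT1p : 0 < P.T1 := ga_pow_pos P 7
  have hT2 : P.T2 = P.Λ ^ 22 := rfl
  have hT2p : 0 < P.T2 := ga_pow_pos P 22
  have c1 : 10 ^ 7 * P.Λ ^ 23 ≤ P.Λ ^ 24 := ga_pow P (by norm_num)
  have c2 : 10 ^ 7 * P.Λ ^ 8 ≤ P.Λ ^ 23 := ga_pow P (by norm_num)
  have c3 : 10 ^ 7 * P.Λ ^ 5 ≤ P.Λ ^ 22 := ga_pow P (by norm_num)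
  have c4 : 10 ^ 7 * P.Λ ^ 21 ≤ P.Λ ^ 22 := ga_pow P (by norm_num)
  have p23 := ga_pow_pos P 23
  have p8 := ga_pow_pos P 8
  have p5 := ga_pow_pos P 5
  have p21 := ga_pow_pos P 21
  have p22 := ga_pow_pos P 22
  have eG : P.G = P.Λ ^ 5 := rfl
  by_cases hall : ∀ l : Zd d, l ≠ 0 → ‖l‖ ≤ P.L → 2 * P.G ≤ |2 * dt (Q.yl σ) l|
  · refine hX k hkA (Or.inl ⟨σ, by linarith, ?_⟩)
    rw [hk]
    refine ⟨i_norm' P (i_norm P fun j => (i_yl_le Q hσ j).trans (by linarith)), fun l hl hL =>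
      ⟨hall l hl hL, ?_⟩⟩
    refine mul_self_pos.mpr (fun h0 => ?_)
    have := hall l hl hL
    rw [h0, mul_zero, abs_zero] at this
    linarith
  · push Not at hall
    obtain ⟨l, hl, hL, hlt⟩ := hall
    have he1 := ga_di_e_one Q hl hL
    have he0 : (di Q.e l : ℝ) ≠ 0 := by
      intro h0; rw [h0, abs_zero] at he1; linarith
    have hσl : |σ - sg Q l| ≤ P.G := by
      rw [ga_dt_yl' Q σ hl hL, abs_mul, abs_two, abs_mul] at hlt
      have := abs_nonneg (σ - sg Q l)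
      nlinarith
    have hsl := ga_sg_le Q hl hL
    -- the direction `ed l`
    have hed := i_ed_ne Q hl hL
    have hdd : (0 : ℝ) < (di (Q.ed l) (Q.ed l) : ℝ) := by exact_mod_cast ga_di_self_pos hed
    set x := dt (re k) (Q.ed l) with hx
    set lam : ℝ := ((⌊x⌋ : ℝ) + 1 / 2 - x) / (di (Q.ed l) (Q.ed l) : ℝ) with hlam
    let kst : Cd d := fun j => ((re k j + lam * (Q.ed l j : ℝ) : ℝ) : ℂ) +
      ((Q.yc l j : ℝ) : ℂ) * Complex.I
    have hkre : ∀ j, re kst j = re k j + lam * (Q.ed l j : ℝ) := by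
      intro j; simp [re, kst]
    have hkim : ∀ j, im kst j = Q.yc l j := by
      intro j; simp [im, kst]
    let c : ℝ → Cd d := fun θ => k + (θ : ℂ) • (kst - k)
    have hc : ContinuousOn c (Icc 0 1) := by
      apply Continuous.continuousOn
      fun_prop
    have hcim : ∀ θ j, im (c θ) j = Q.yl (σ + θ * (sg Q l - σ)) j := by
      intro θ j
      have h1 : im (c θ) j = im k j + θ * (im kst j - im k j) := by
        simp [im, c]
      rw [h1, hkim, hk, ga_yc Q hl hL]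
      unfold Dirs.yl
      ring
    have hσθ : ∀ θ ∈ Icc (0 : ℝ) 1, |σ + θ * (sg Q l - σ)| ≤ P.T2 ∧
        |σ + θ * (sg Q l - σ) - sg Q l| ≤ P.G := by
      intro θ hθ
      constructor
      · have h1 : σ + θ * (sg Q l - σ) = (1 - θ) * σ + θ * sg Q l := by ring
        rw [h1]
        refine (abs_add_le _ _).trans ?_
        rw [abs_mul, abs_mul, abs_of_nonneg (by linarith [hθ.2] : (0:ℝ) ≤ 1 - θ), abs_of_nonneg hθ.1]
        have h2 : |sg Q l| ≤ P.T2 := by rw [hT2]; linarith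
        nlinarith [hθ.1, hθ.2]
      · have h1 : σ + θ * (sg Q l - σ) - sg Q l = (1 - θ) * (σ - sg Q l) := by ring
        rw [h1, abs_mul, abs_of_nonneg (by linarith [hθ.2] : (0:ℝ) ≤ 1 - θ)]
        have := abs_nonneg (σ - sg Q l)
        nlinarith [hθ.1]
    -- boundary of the strips
    have hbd : ∀ θ ∈ Icc (0 : ℝ) 1, ∀ z : ℂ, |z.im| = P.T1 →
        im (c θ + z • zc l) ∈ PP P Q (2 * P.G) ∧
        im (c θ + z • zc l) ∈ Pc P (2 * P.G) (Q.yl (sg Q l + z.im / P.T1 *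
          ((di Q.e l : ℝ) / |(di Q.e l : ℝ)|) * P.G)) := by
      intro θ hθ z hz
      obtain ⟨hs1, hs2⟩ := hσθ θ hθ
      obtain ⟨e, he, hze⟩ : ∃ e : ℝ, (e = 1 ∨ e = -1) ∧ z.im = e * P.T1 := by
        rcases abs_eq hT1p.le |>.mp hz with h | h
        · exact ⟨1, Or.inl rfl, by rw [h, one_mul]⟩
        · exact ⟨-1, Or.inr rfl, by rw [h]; ring⟩
      have hea : |e| = 1 := by rcases he with rfl | rfl <;> simp
      have hee : e * e = 1 := by rcases he with rfl | rfl <;> norm_num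
      have hzdiv : z.im / P.T1 = e := by rw [hze]; field_simp
      set u : ℝ := (di Q.e l : ℝ) / |(di Q.e l : ℝ)| with hu
      have hu1 : |u| = 1 := by rw [hu, abs_div, abs_abs, div_self (abs_ne_zero.mpr he0)]
      have hue : (di Q.e l : ℝ) * u = |(di Q.e l : ℝ)| := by
        rw [hu, mul_div_assoc', div_eq_iff (abs_ne_zero.mpr he0), ← sq, ← sq, sq_abs]
      rw [hzdiv]
      set σ₀ := sg Q l + e * u * P.G with hσ₀
      have hσ₀l : |σ₀ - sg Q l| = P.G := by
        rw [hσ₀, add_sub_cancel_left, abs_mul, abs_mul, hea, hu1, abs_of_pos hG]; ring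
      have hfun : im (c θ + z • zc l) = fun j => Q.yl (σ + θ * (sg Q l - σ)) j +
          e * P.T1 * (l j : ℝ) := by
        funext j
        rw [i_im_strip, hcim, hze]
      have hP : im (c θ + z • zc l) ∈ Pc P (2 * P.G) (Q.yl σ₀) := by
        rw [hfun]
        refine ⟨i_norm' P (i_norm P fun j => ?_), fun l' hl' hL' => ?_⟩
        · have h1 := i_yl_le Q hs1 j
          have h2 : |e * P.T1 * (l j : ℝ)| ≤ P.Λ ^ 8 := by
            rw [abs_mul, abs_mul, hea, one_mul, abs_of_pos hT1p]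
            have h3 := (ga_abs_le_norm l j).trans hL
            have h4 := ga_LLam P
            have h5 := ga_L P
            calc P.T1 * |(l j : ℝ)| ≤ P.T1 * P.Λ := by
                  apply mul_le_mul_of_nonneg_left _ hT1p.le
                  linarith
              _ = P.Λ ^ 8 := by rw [hT1]; ring
          refine (abs_add_le _ _).trans ?_
          linarith
        · have hcr := ga_cross Q hl hL he hs2 (σ₀ := σ₀) (by
            have h1 : e * ((di Q.e l : ℝ) * (σ₀ - sg Q l)) =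
                (e * e) * ((di Q.e l : ℝ) * u) * P.G := by
              rw [hσ₀]; ring
            rw [h1, hee, hue, one_mul]
            exact mul_pos (by linarith) hG) (by
            intro l₂ hl₂ hL₂ hne
            have h3 : di Q.e l * di Q.a l₂ ≠ di Q.e l₂ * di Q.a l := by
              intro h4
              exact hne (ga_par_sg Q hl hL hl₂ hL₂ h4)
            have h5 := ga_nonpar Q hl hL h3
            have h6 : dt (Q.yc l) l₂ = (di Q.e l₂ : ℝ) * (sg Q l - sg Q l₂) := by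
              rw [ga_yc Q hl hL, ga_dt_yl' Q _ hl₂ hL₂]
            rw [h6, abs_mul] at h5
            have h7 := Q.be l₂ hL₂
            have h8 : P.Λ ^ 18 ≤ |sg Q l - sg Q l₂| := by
              have h9 : P.Λ ^ 19 ≤ P.Λ * |sg Q l - sg Q l₂| :=
                h5.trans (mul_le_mul_of_nonneg_right h7 (abs_nonneg _))
              have h10 : P.Λ ^ 19 = P.Λ * P.Λ ^ 18 := by ring
              rw [h10] at h9
              exact le_of_mul_le_mul_left h9 (ga_Lam_pos P)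
            have h11 : 10 ^ 7 * P.Λ ^ 5 ≤ P.Λ ^ 18 := ga_pow P (by norm_num)
            have h12 := abs_le.mp hσ₀l.le
            rcases lt_or_ge 0 (sg Q l - sg Q l₂) with hp | hp
            · rw [abs_of_pos hp] at h8
              refine mul_pos ?_ hp
              rw [eG] at h12
              linarith [h12.1]
            · have hp' : sg Q l - sg Q l₂ < 0 := by
                rcases eq_or_lt_of_le hp with h | h
                · exact absurd (by linarith : sg Q l₂ = sg Q l) hne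
                · exact h
              rw [abs_of_neg hp'] at h8
              refine mul_pos_of_neg_of_neg ?_ hp'
              rw [eG] at h12
              linarith [h12.2]) hl' hL'
          refine ⟨?_, hcr.2⟩
          rw [abs_mul, abs_two]
          linarith [hcr.1]
      refine ⟨⟨σ₀, ?_, hP⟩, hP⟩
      have h1 : |σ₀| ≤ |sg Q l| + P.G := by
        have := abs_add_le (sg Q l) (σ₀ - sg Q l)
        rw [add_sub_cancel, hσ₀l] at this
        exact this
      rw [eG] at h1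
      rw [hT2]
      linarith
    have hb : ∀ t ∈ Icc (0 : ℝ) 1, ∀ z : ℂ, |z.im| = P.T1 → c t + z • zc l ∉ XX (FS μ w) A := by
      intro θ hθ z hz hmem
      exact hX _ hmem (Or.inl (hbd θ hθ z hz).1)
    have hn : ∀ t ∈ Icc (0 : ℝ) 1, ∃ z : ℂ, c t + z • zc l ∉ FS μ w := by
      intro θ hθ
      have hz0 : |((P.T1 : ℂ) * Complex.I).im| = P.T1 := by
        simp [abs_of_pos hT1p]
      have hPc := (hbd θ hθ _ hz0).2
      have hreg : Regular P (c θ + ((P.T1 : ℂ) * Complex.I) • zc l) := i_regular (by linarith) hPc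
      obtain ⟨z, hz⟩ := i_leave hE hreg (v := l) (by
        have := ga_LLam P
        have := ga_L P
        linarith) (by
        have h1 := (hPc.2 l hl hL).1
        rw [abs_mul, abs_two] at h1
        have h2 : P.Λ ^ 4 ≤ P.G := pow_le_pow_right₀ (ga_one_le P) (by norm_num)
        linarith)
      refine ⟨(P.T1 : ℂ) * Complex.I + z, ?_⟩
      rw [add_smul, ← add_assoc]
      exact hz
    have h0 : ∃ z : ℂ, |z.im| ≤ P.T1 ∧ c 0 + z • zc l ∈ XX (FS μ w) A := by
      refine ⟨0, by simpa using hT1p.le, ?_⟩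
      have : c 0 + (0 : ℂ) • zc l = k := by simp [c]
      rw [this]
      exact hkA
    obtain ⟨z, hz, hmem⟩ := strip_path D c hc l hT1p hb hn h0 1 ⟨zero_le_one, le_rfl⟩
    have hc1 : c 1 = kst := by simp [c]
    rw [hc1] at hmem
    refine hX _ hmem (Or.inr ⟨l, hl, hL, z.im, hz.le, ?_, ⌊x⌋, ?_⟩)
    · intro j
      rw [i_im_strip, hkim]
    · have h1 : dt (re (kst + z • zc l)) (Q.ed l) = dt (re k) (Q.ed l) +
          lam * (di (Q.ed l) (Q.ed l) : ℝ) + z.re * (di l (Q.ed l) : ℝ) := by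
        rw [← ga_dt_int, ← ga_dt_int, ← ga_dt_add, ← ga_dt_add]
        congr 1
        funext j
        rw [i_re_strip, hkre]
      have h2 : di l (Q.ed l) = 0 := by
        rw [ga_di_comm]
        unfold Dirs.ed
        rw [ga_di_sub_left, ga_di_smul_left, ga_di_smul_left]
        ring
      rw [h1, h2, ← hx, hlam, div_mul_cancel₀ _ hdd.ne']
      push_cast
      ring

theorem finish (hE : Eff P E) (D : Decomp (FS μ w) A B)
    (hX : ∀ k ∈ XX (FS μ w) A, k ∉ RegSet P Q) {k : Cd d} (hk : ∀ j, |im k j| ≤ P.L) :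
    k ∉ XX (FS μ w) A := by
  intro hkA
  have hG := ga_G_pos P
  have hT2 : P.T2 = P.Λ ^ 22 := rfl
  have hT2p : 0 < P.T2 := ga_pow_pos P 22
  have c1 : 10 ^ 7 * P.Λ ^ 23 ≤ P.Λ ^ 24 := ga_pow P (by norm_num)
  have c4 : 10 ^ 7 * P.Λ ^ 21 ≤ P.Λ ^ 22 := ga_pow P (by norm_num)
  have c5 : 10 ^ 7 * P.Λ ^ 22 ≤ P.Λ ^ 23 := ga_pow P (by norm_num)
  have c6 : 10 ^ 7 * P.Λ ^ 5 ≤ P.Λ ^ 21 := ga_pow P (by norm_num)
  have c7 : 10 ^ 7 * P.Λ ^ 2 ≤ P.Λ ^ 5 := ga_pow P (by norm_num)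
  have c8 : 10 ^ 7 * P.Λ ^ 1 ≤ P.Λ ^ 2 := ga_pow P (by norm_num)
  rw [pow_one] at c8
  have p23 := ga_pow_pos P 23
  have p5 := ga_pow_pos P 5
  have p2 := ga_pow_pos P 2
  have p21 := ga_pow_pos P 21
  have p22 := ga_pow_pos P 22
  have hΛ := ga_Lam_pos P
  have eG : P.G = P.Λ ^ 5 := rfl
  have hL1 := ga_LLam P
  have hL2 := ga_L P
  have hLΛ : (P.L : ℝ) ≤ P.Λ := by linarith
  let kf : Cd d := fun j => ((re k j : ℝ) : ℂ) + ((P.tt * (Q.a j : ℝ) : ℝ) : ℂ) * Complex.I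
  have hfim : ∀ j, im kf j = P.tt * (Q.a j : ℝ) := by
    intro j; simp [im, kf]
  let c : ℝ → Cd d := fun θ => k + (θ : ℂ) • (kf - k)
  have hc : ContinuousOn c (Icc 0 1) := by
    apply Continuous.continuousOn
    fun_prop
  have hcim : ∀ θ j, im (c θ) j = (1 - θ) * im k j + θ * (P.tt * (Q.a j : ℝ)) := by
    intro θ j
    have h1 : im (c θ) j = im k j + θ * (im kf j - im k j) := by
      simp [im, c]
    rw [h1, hfim]
    ring
  have hdtk : ∀ m : Zd d, ‖m‖ ≤ P.Λ → |dt (im k) m| ≤ P.Λ ^ 2 := by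
    intro m hm
    refine (ga_dt_le hk m).trans ?_
    have h1 := ga_dL P
    have h2 : 0 ≤ (d : ℝ) * (P.L : ℝ) := by positivity
    calc (d : ℝ) * P.L * ‖m‖ ≤ (d : ℝ) * P.L * P.Λ := mul_le_mul_of_nonneg_left hm h2
      _ ≤ P.Λ * P.Λ := by
          apply mul_le_mul_of_nonneg_right _ hΛ.le
          linarith
      _ = P.Λ ^ 2 := by ring
  have hdt : ∀ θ (z : ℂ) (m : Zd d), dt (im (c θ + z • zc Q.e)) m =
      (1 - θ) * dt (im k) m + θ * (P.tt * (di Q.a m : ℝ)) + z.im * (di Q.e m : ℝ) := by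
    intro θ z m
    have h1 : im (c θ + z • zc Q.e) = fun j => (1 - θ) * im k j +
        (θ * P.tt) * (Q.a j : ℝ) + z.im * (Q.e j : ℝ) := by
      funext j
      rw [i_im_strip, hcim]
      ring
    rw [h1, ga_dt_add, ga_dt_add, ga_dt_smul, ga_dt_int, ga_dt_int]
    ring
  have hbd : ∀ θ ∈ Icc (0 : ℝ) 1, ∀ z : ℂ, |z.im| = P.T2 →
      im (c θ + z • zc Q.e) ∈ Pc P (2 * P.G) (Q.yl (2 * z.im)) := by
    intro θ hθ z hz
    have t0 : 0 ≤ 1 - θ := by linarith [hθ.2]
    refine ⟨i_norm' P (i_norm P fun j => ?_), fun l hl hL => ?_⟩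
    · rw [i_im_strip, hcim]
      have h1 := i_coord_le Q.na j
      have h2 := i_coord_le Q.ne j
      have h3 : |(1 - θ) * im k j| ≤ P.Λ := by
        rw [abs_mul, abs_of_nonneg t0]
        have := hk j
        have := abs_nonneg (im k j)
        nlinarith [hθ.1]
      have h4 : |θ * (P.tt * (Q.a j : ℝ))| ≤ P.Λ ^ 21 := by
        rw [abs_mul, abs_mul, abs_of_nonneg hθ.1, abs_of_pos (ga_tt_pos P)]
        have h5 : P.tt * |(Q.a j : ℝ)| ≤ P.Λ ^ 21 := by
          calc P.tt * |(Q.a j : ℝ)| ≤ P.tt * P.Λ := mul_le_mul_of_nonneg_left h1 (ga_tt_pos P).le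
            _ = P.Λ ^ 21 := by unfold Sc.tt; ring
        have h6 : 0 ≤ P.tt * |(Q.a j : ℝ)| := mul_nonneg (ga_tt_pos P).le (abs_nonneg _)
        nlinarith [hθ.1, hθ.2]
      have h7 : |z.im * (Q.e j : ℝ)| ≤ P.Λ ^ 23 := by
        rw [abs_mul, hz]
        calc P.T2 * |(Q.e j : ℝ)| ≤ P.T2 * P.Λ := mul_le_mul_of_nonneg_left h2 hT2p.le
          _ = P.Λ ^ 23 := by rw [hT2]; ring
      have h8 := abs_add_le ((1 - θ) * im k j + θ * (P.tt * (Q.a j : ℝ))) (z.im * (Q.e j : ℝ))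
      have h9 := abs_add_le ((1 - θ) * im k j) (θ * (P.tt * (Q.a j : ℝ)))
      linarith
    · rw [hdt, ga_dt_yl]
      have hLL : ‖l‖ ≤ P.Λ := hL.trans hLΛ
      have h1 : |(1 - θ) * dt (im k) l| ≤ P.Λ ^ 2 := by
        rw [abs_mul, abs_of_nonneg t0]
        have := hdtk l hLL
        have := abs_nonneg (dt (im k) l)
        nlinarith [hθ.1]
      have h2 : |P.tt * (di Q.a l : ℝ)| ≤ P.Λ ^ 21 := by
        rw [abs_mul, abs_of_pos (ga_tt_pos P)]
        calc P.tt * |(di Q.a l : ℝ)| ≤ P.tt * P.Λ :=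
              mul_le_mul_of_nonneg_left (Q.ba l hL) (ga_tt_pos P).le
          _ = P.Λ ^ 21 := by unfold Sc.tt; ring
      have h3 : |θ * (P.tt * (di Q.a l : ℝ))| ≤ P.Λ ^ 21 := by
        rw [abs_mul, abs_of_nonneg hθ.1]
        have := abs_nonneg (P.tt * (di Q.a l : ℝ))
        nlinarith [hθ.1, hθ.2]
      have h4 : P.Λ ^ 22 ≤ |z.im * (di Q.e l : ℝ)| := by
        rw [abs_mul, hz, hT2]
        have := ga_di_e_one Q hl hL
        nlinarith
      set X := z.im * (di Q.e l : ℝ) with hX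
      set a1 := (1 - θ) * dt (im k) l with ha1
      set a2 := θ * (P.tt * (di Q.a l : ℝ)) with ha2
      set a3 := P.tt * (di Q.a l : ℝ) with ha3
      have e1 := abs_le.mp h1
      have e2 := abs_le.mp h2
      have e3 := abs_le.mp h3
      have hX2 : 2 * z.im * (di Q.e l : ℝ) = 2 * X := by rw [hX]; ring
      rw [hX2, eG]
      rcases lt_or_ge 0 X with hp | hp
      · rw [abs_of_pos hp] at h4
        have f1 : 0 < a1 + a2 + X := by linarith
        have f2 : 0 < a3 + 2 * X := by linarith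
        refine ⟨?_, mul_pos f1 f2⟩
        rw [abs_mul, abs_two, abs_of_pos f1]
        linarith
      · rw [abs_of_nonpos hp] at h4
        have f1 : a1 + a2 + X < 0 := by linarith
        have f2 : a3 + 2 * X < 0 := by linarith
        refine ⟨?_, mul_pos_of_neg_of_neg f1 f2⟩
        rw [abs_mul, abs_two, abs_of_neg f1]
        linarith
  have hb : ∀ t ∈ Icc (0 : ℝ) 1, ∀ z : ℂ, |z.im| = P.T2 → c t + z • zc Q.e ∉ XX (FS μ w) A := by
    intro θ hθ z hz hmem
    refine hX _ hmem (Or.inl ⟨2 * z.im, ?_, hbd θ hθ z hz⟩)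
    rw [abs_mul, abs_two, hz]
  -- `e ≠ 0`
  have hd := P.hd
  have he0 : Q.e ≠ 0 := by
    intro h0
    let u : Fin d := ⟨0, by omega⟩
    have h1 : (Pi.single u (1 : ℤ) : Zd d) ≠ 0 := by
      intro h
      have := congrFun h u
      simp at this
    have h2 : ‖(Pi.single u (1 : ℤ) : Zd d)‖ ≤ P.L := by
      refine le_trans ?_ (by linarith : (1 : ℝ) ≤ P.L)
      refine (pi_norm_le_iff_of_nonneg (by norm_num)).mpr (fun j => ?_)
      by_cases hj : j = u
      · subst hj; simp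
      · simp [hj]
    refine Q.he _ h1 h2 ?_
    rw [h0]
    simp [di]
  have hn : ∀ t ∈ Icc (0 : ℝ) 1, ∃ z : ℂ, c t + z • zc Q.e ∉ FS μ w := by
    intro θ hθ
    have t0 : 0 ≤ 1 - θ := by linarith [hθ.2]
    have hz0 : |((P.T2 : ℂ) * Complex.I).im| = P.T2 := by
      simp [abs_of_pos hT2p]
    have hPc := hbd θ hθ _ hz0
    have hreg : Regular P (c θ + ((P.T2 : ℂ) * Complex.I) • zc Q.e) := i_regular (by linarith) hPc
    have heL : ‖Q.e‖ ≤ P.Λ := i_norm_le hΛ.le Q.ne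
    obtain ⟨z, hz⟩ := i_leave hE hreg (v := Q.e) heL (by
      rw [hdt]
      have him : ((P.T2 : ℂ) * Complex.I).im = P.T2 := by simp
      rw [him]
      have h1 : |(1 - θ) * dt (im k) Q.e| ≤ P.Λ ^ 2 := by
        rw [abs_mul, abs_of_nonneg t0]
        have := hdtk Q.e heL
        have := abs_nonneg (dt (im k) Q.e)
        nlinarith [hθ.1]
      have h2 : |(di Q.a Q.e : ℝ)| ≤ P.Λ := by
        have h3 : 0 ≤ di (Q.a - Q.e) (Q.a - Q.e) := Finset.sum_nonneg fun j _ => mul_self_nonneg _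
        have h4 : 0 ≤ di (Q.a + Q.e) (Q.a + Q.e) := Finset.sum_nonneg fun j _ => mul_self_nonneg _
        rw [ga_di_sub_left, ga_di_comm Q.a, ga_di_comm Q.e, ga_di_sub_left, ga_di_sub_left,
          ga_di_comm Q.e Q.a] at h3
        rw [ga_di_add_left, ga_di_comm Q.a, ga_di_comm Q.e, ga_di_add_left, ga_di_add_left,
          ga_di_comm Q.e Q.a] at h4
        have h3' : (0 : ℝ) ≤ (di Q.a Q.a : ℝ) - (di Q.a Q.e : ℝ) - ((di Q.a Q.e : ℝ) - (di Q.e Q.e : ℝ)) := by
          exact_mod_cast h3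
        have h4' : (0 : ℝ) ≤ (di Q.a Q.a : ℝ) + (di Q.a Q.e : ℝ) + ((di Q.a Q.e : ℝ) + (di Q.e Q.e : ℝ)) := by
          exact_mod_cast h4
        have h5 := Q.na
        have h6 := Q.ne
        rw [abs_le]
        constructor <;> linarith
      have h7 : |θ * (P.tt * (di Q.a Q.e : ℝ))| ≤ P.Λ ^ 21 := by
        rw [abs_mul, abs_mul, abs_of_nonneg hθ.1, abs_of_pos (ga_tt_pos P)]
        have h5 : P.tt * |(di Q.a Q.e : ℝ)| ≤ P.Λ ^ 21 := by
          calc P.tt * |(di Q.a Q.e : ℝ)| ≤ P.tt * P.Λ :=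
                mul_le_mul_of_nonneg_left h2 (ga_tt_pos P).le
            _ = P.Λ ^ 21 := by unfold Sc.tt; ring
        have h6 : 0 ≤ P.tt * |(di Q.a Q.e : ℝ)| := mul_nonneg (ga_tt_pos P).le (abs_nonneg _)
        nlinarith [hθ.1, hθ.2]
      have h8 : P.Λ ^ 22 ≤ P.T2 * (di Q.e Q.e : ℝ) := by
        rw [hT2]
        have h9 : (1 : ℝ) ≤ (di Q.e Q.e : ℝ) := by exact_mod_cast ga_di_self_pos he0
        nlinarith
      have e1 := abs_le.mp h1
      have e2 := abs_le.mp h7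
      have h10 : P.Λ ^ 4 ≤ P.Λ ^ 5 := pow_le_pow_right₀ (ga_one_le P) (by norm_num)
      refine le_trans ?_ (le_abs_self _)
      linarith)
    refine ⟨(P.T2 : ℂ) * Complex.I + z, ?_⟩
    rw [add_smul, ← add_assoc]
    exact hz
  have h0 : ∃ z : ℂ, |z.im| ≤ P.T2 ∧ c 0 + z • zc Q.e ∈ XX (FS μ w) A := by
    refine ⟨0, by simpa using hT2p.le, ?_⟩
    have : c 0 + (0 : ℂ) • zc Q.e = k := by simp [c]
    rw [this]
    exact hkA
  obtain ⟨z, hz, hmem⟩ := strip_path D c hc Q.e hT2p hb hn h0 1 ⟨zero_le_one, le_rfl⟩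
  have him : im (c 1 + z • zc Q.e) = Q.yl z.im := by
    funext j
    rw [i_im_strip, hcim]
    unfold Dirs.yl
    ring
  exact slab hE D hX hz.le him hmem

theorem main_scale (Q : Dirs P) (hE : Eff P E) (D : Decomp (FS μ w) A B)
    (hC : ∀ l : Zd d, Prim l → ‖l‖ ≤ P.L → CrossAt P Q E l) :
    (∀ k : Cd d, (∀ j, |im k j| ≤ P.L) → k ∉ XX (FS μ w) A) ∨
    (∀ k : Cd d, (∀ j, |im k j| ≤ P.L) → k ∉ XX (FS μ w) B) := by
  rcases RegSet_dich (Q := Q) hE D hC with h | h
  · exact Or.inl fun k hk => finish (Q := Q) hE D h hk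
  · exact Or.inr fun k hk => finish (Q := Q) hE D.symm h hk

end Fermi
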