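import Pool.Agent.Lib.Fermi.OpAn

/-!
# Chunk D3: the Fermi set is periodic and locally a hypersurface
-/

open scoped BigOperators Topology
open Set Filter

noncomputable section

namespace Fermi

variable {d : ℕ} {μ : ℂ} {w : Zd d → ℂ}

/-! ### periodicity -/

lemma d3_q_shift (k : Cd d) (n n₀ : Zd d) : q μ (k + zc n₀) n = q μ k (n + n₀) := by
  unfold q
  have : k + zc n₀ + zc n = k + zc (n + n₀) := by
    funext j
    simp only [Pi.add_apply, zc]
    push_cast
    ring
  rw [this]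

lemma d3_shift {k : Cd d} (n₀ : Zd d) (h : k ∈ FS μ w) : k + zc n₀ ∈ FS μ w := by
  obtain ⟨u, hu, h⟩ := h
  have hmem : Memℓp (fun n : Zd d => u (n + n₀)) 2 := by
    have h1 := lp.memℓp u
    rw [memℓp_gen_iff (by norm_num)] at h1 ⊢
    exact ((Equiv.addRight n₀).summable_iff (f := fun n => ‖u n‖ ^ (2 : ENNReal).toReal)).2 h1
  refine ⟨⟨_, hmem⟩, ?_, ?_⟩
  · intro h0
    apply hu
    ext n
    have h1 := congrArg (fun v : lp (fun _ : Zd d => ℂ) 2 => v (n - n₀)) h0
    change u (n - n₀ + n₀) = 0 at h1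
    rw [sub_add_cancel] at h1
    exact h1
  · intro n
    change q μ (k + zc n₀) n * u (n + n₀) + ∑' m, w (n - m) * u (m + n₀) = 0
    rw [d3_q_shift, ← h (n + n₀)]
    congr 1
    rw [← (Equiv.addRight n₀).tsum_eq (fun m => w (n + n₀ - m) * u m)]
    apply tsum_congr
    intro m
    change w (n - m) * u (m + n₀) = w (n + n₀ - (m + n₀)) * u (m + n₀)
    rw [add_sub_add_right_eq_sub]

/-- The Fermi set is periodic. -/
theorem FS_per (μ : ℂ) (w : Zd d → ℂ) : Per (FS μ w) := by
  intro k n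
  constructor
  · intro h
    have h1 := d3_shift (-n) h
    have h2 : k + zc n + zc (-n) = k := by
      funext j
      simp only [Pi.add_apply, zc, Pi.neg_apply]
      push_cast
      ring
    rw [h2] at h1
    exact h1
  · exact d3_shift n

/-! ### the finite set of resonant sites -/

lemma d3_finite (μ : ℂ) (p : Cd d) (b : ℝ) : {n : Zd d | ‖q μ p n‖ < b}.Finite := by
  obtain ⟨K, hK, h⟩ := d2_q_lower μ p
  obtain ⟨N, hN⟩ := exists_nat_ge (K * (1 + b))
  refine (Set.finite_Icc (fun _ => -(N : ℤ) : Zd d) (fun _ => (N : ℤ))).subset ?_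
  intro n hn
  have hn' : ‖q μ p n‖ < b := hn
  have h1 : ∀ j, |(n j : ℝ)| ≤ N := by
    intro j
    have h2 := h n
    have h3 := d2_le_nn n j
    have h4 : |(n j : ℝ)| ^ 2 = (n j : ℝ) ^ 2 := sq_abs _
    have h5 : K * (1 + ‖q μ p n‖) ≤ K * (1 + b) := by gcongr
    nlinarith [sq_nonneg (|(n j : ℝ)| - 1)]
  constructor
  · intro j
    have := (abs_le.1 (h1 j)).1
    exact_mod_cast this
  · intro j
    have := (abs_le.1 (h1 j)).2
    exact_mod_cast this

lemma d3_adm (hw : Summable fun n => ‖w n‖) {c : ℝ} (hc : 4 * (∑' n, ‖w n‖) + 8 ≤ c)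
    (S : Finset (Zd d)) (p : Cd d) (hS : ∀ n, n ∉ S → 2 * c ≤ ‖q μ p n‖) :
    ∀ᶠ k in 𝓝 p, Adm w c (DS c μ S k) := by
  obtain ⟨K, hK, hlow⟩ := d2_q_lower μ p
  have hw0 : 0 ≤ ∑' n, ‖w n‖ := tsum_nonneg fun _ => norm_nonneg _
  have e1 : ∀ᶠ k in 𝓝 p, ‖bil k k - bil p p‖ ≤ 1 := by
    have hcont : ContinuousAt (fun k : Cd d => bil k k - bil p p) p :=
      ((d2_bil_analytic analyticAt_id analyticAt_id).sub analyticAt_const).continuousAt
    have h1 : Tendsto (fun k : Cd d => ‖bil k k - bil p p‖) (𝓝 p) (𝓝 0) := by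
      have := hcont.norm
      unfold ContinuousAt at this
      simpa using this
    filter_upwards [h1.eventually (gt_mem_nhds (zero_lt_one))] with k hk
    exact hk.le
  have e2 : ∀ᶠ k in 𝓝 p, ‖k - p‖ * (2 * d * K) ≤ 1 / 8 := by
    have h1 : Tendsto (fun k : Cd d => ‖k - p‖ * (2 * d * K)) (𝓝 p) (𝓝 0) := by
      have h2 : Continuous (fun k : Cd d => ‖k - p‖ * (2 * d * K)) := by fun_prop
      have := h2.tendsto p
      simpa using this
    filter_upwards [h1.eventually (gt_mem_nhds (by norm_num : (0:ℝ) < 1 / 8))] with k hk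
    exact hk.le
  filter_upwards [e1, e2] with k hk1 hk2
  refine ⟨hw, hc, fun n => ?_⟩
  unfold DS
  by_cases hn : n ∈ S
  · rw [if_pos hn, Complex.norm_real, Real.norm_of_nonneg (by linarith)]
  · rw [if_neg hn]
    have h1 := hS n hn
    have h2 : q μ k n - q μ p n = (bil k k - bil p p) + ∑ j, 2 * (k j - p j) * (n j : ℂ) := by
      rw [d2_q, d2_q]
      have : ∑ j, 2 * (k j - p j) * (n j : ℂ) =
          (∑ j, 2 * k j * (n j : ℂ)) - ∑ j, 2 * p j * (n j : ℂ) := by
        rw [← Finset.sum_sub_distrib]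
        apply Finset.sum_congr rfl
        intro j _
        ring
      rw [this]
      ring
    have h3 : ‖∑ j, 2 * (k j - p j) * (n j : ℂ)‖ ≤ ‖k - p‖ * (2 * d) * (1 + d2nn n) := by
      calc ‖∑ j, 2 * (k j - p j) * (n j : ℂ)‖ ≤ ∑ j, ‖2 * (k j - p j) * (n j : ℂ)‖ :=
            norm_sum_le _ _
        _ ≤ ∑ j : Fin d, 2 * ‖k - p‖ * (1 + d2nn n) := by
            apply Finset.sum_le_sum
            intro j _
            rw [norm_mul, norm_mul, Complex.norm_ofNat, Complex.norm_intCast]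
            have h4 : ‖k j - p j‖ ≤ ‖k - p‖ := norm_le_pi_norm (k - p) j
            have h5 := d2_le_nn n j
            have h6 : |(n j : ℝ)| ^ 2 = (n j : ℝ) ^ 2 := sq_abs _
            have h7 : |(n j : ℝ)| ≤ 1 + d2nn n := by nlinarith [sq_nonneg (|(n j : ℝ)| - 1)]
            gcongr
        _ = ‖k - p‖ * (2 * d) * (1 + d2nn n) := by
            rw [Finset.sum_const, Finset.card_univ, Fintype.card_fin, nsmul_eq_mul]
            ring
    have h4 : ‖k - p‖ * (2 * d) * (1 + d2nn n) ≤ 1 / 8 * (1 + ‖q μ p n‖) := by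
      have h5 := hlow n
      have h6 := norm_nonneg (q μ p n)
      calc ‖k - p‖ * (2 * d) * (1 + d2nn n) ≤ ‖k - p‖ * (2 * d) * (K * (1 + ‖q μ p n‖)) := by
            gcongr
        _ = ‖k - p‖ * (2 * d * K) * (1 + ‖q μ p n‖) := by ring
        _ ≤ 1 / 8 * (1 + ‖q μ p n‖) := by gcongr
    have h5 : ‖q μ p n‖ ≤ ‖q μ k n‖ + ‖q μ k n - q μ p n‖ := by
      have : q μ p n = q μ k n - (q μ k n - q μ p n) := by ring
      calc ‖q μ p n‖ = ‖q μ k n - (q μ k n - q μ p n)‖ := by rw [← this]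
        _ ≤ _ := norm_sub_le _ _
    have h6 : ‖q μ k n - q μ p n‖ ≤ ‖bil k k - bil p p‖ + ‖∑ j, 2 * (k j - p j) * (n j : ℂ)‖ := by
      rw [h2]
      exact norm_add_le _ _
    linarith

/-! ### the finite determinant -/

/-- the matrix -/
def d3M (w : Zd d → ℂ) (c : ℝ) (μ : ℂ) (S : Finset (Zd d)) (k : Cd d) : Matrix S S ℂ :=
  fun n m => (if n = m then 1 else 0) +
    (grn w (DS c μ S k) (dlt (m : Zd d))) (n : Zd d) * (q μ k m - c)

lemma d3_dlt_apply (m n : Zd d) : (dlt m) n = if n = m then (1 : ℂ) else 0 := by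
  unfold dlt
  rw [lp.single_apply, Pi.single_apply]

lemma d3_sol_sum {c : ℝ} {D : Zd d → ℂ} (h : Adm w c D) (S : Finset (Zd d)) (x : Zd d → ℂ) :
    Sol w D (∑ m ∈ S, x m • dlt m) (∑ m ∈ S, x m • grn w D (dlt m)) := by
  classical
  induction S using Finset.induction_on with
  | empty =>
    intro n
    simp
  | insert a S ha ih =>
    rw [Finset.sum_insert ha, Finset.sum_insert ha]
    exact Sol.add h.hw (Sol.smul _ (h.grn_spec _)) ih

lemma d3_sum_dlt (S : Finset (Zd d)) (x : Zd d → ℂ) (n : Zd d) :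
    ((∑ m ∈ S, x m • dlt m : lp (fun _ : Zd d => ℂ) 2)) n = if n ∈ S then x n else 0 := by
  classical
  induction S using Finset.induction_on with
  | empty => simp
  | insert a S ha ih =>
    rw [Finset.sum_insert ha]
    change x a * (dlt a) n + _ = _
    rw [ih, d3_dlt_apply]
    by_cases hna : n = a
    · subst hna
      simp [ha]
    · simp [hna]

lemma d3_sum_apply (S : Finset (Zd d)) (x : Zd d → ℂ) (G : Zd d → H2 d) (n : Zd d) :
    ((∑ m ∈ S, x m • G m : H2 d)) n = ∑ m ∈ S, x m * (G m) n := by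
  classical
  induction S using Finset.induction_on with
  | empty => simp
  | insert a S ha ih =>
    rw [Finset.sum_insert ha, Finset.sum_insert ha, ← ih]
    rfl

/-- solutions of the regularised equation with sources on `S` -/
lemma d3_sol_iff {c : ℝ} {S : Finset (Zd d)} {k : Cd d} (u : H2 d) (x : Zd d → ℂ)
    (hx : ∀ n ∈ S, x n = u n) :
    Sol w (DS c μ S k) (∑ m ∈ S, (((c : ℂ) - q μ k m) * x m) • dlt m) u ↔
      ∀ n, q μ k n * u n + ∑' m, w (n - m) * u m = 0 := by
  unfold Sol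
  apply forall_congr'
  intro n
  rw [d3_sum_dlt]
  unfold DS
  by_cases hn : n ∈ S
  · rw [if_pos hn, if_pos hn, hx n hn]
    constructor
    · intro h
      linear_combination h
    · intro h
      linear_combination h
  · rw [if_neg hn, if_neg hn]

lemma d3_mulVec {c : ℝ} {S : Finset (Zd d)} {k : Cd d} (x : Zd d → ℂ) (n : S) :
    (d3M w c μ S k).mulVec (fun m => x m) n =
      x n - ∑ m ∈ S, (((c : ℂ) - q μ k m) * x m) * (grn w (DS c μ S k) (dlt m)) n := by
  unfold Matrix.mulVec dotProduct d3M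
  have h1 : ∀ m : S, ((if n = m then (1:ℂ) else 0) +
      (grn w (DS c μ S k) (dlt (m : Zd d))) (n : Zd d) * (q μ k m - c)) * x m =
      (if n = m then x m else 0) -
        (((c : ℂ) - q μ k m) * x m) * (grn w (DS c μ S k) (dlt (m : Zd d))) (n : Zd d) := by
    intro m
    by_cases hnm : n = m
    · rw [if_pos hnm, if_pos hnm]
      ring
    · rw [if_neg hnm, if_neg hnm]
      ring
  rw [Finset.sum_congr rfl fun m _ => h1 m, Finset.sum_sub_distrib, Finset.sum_ite_eq,
    if_pos (Finset.mem_univ n)]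
  congr 1
  exact Finset.sum_coe_sort S
    (fun m => (((c : ℂ) - q μ k m) * x m) * (grn w (DS c μ S k) (dlt m)) (n : Zd d))

lemma d3_mem_iff {c : ℝ} {S : Finset (Zd d)} {k : Cd d} (h : Adm w c (DS c μ S k)) :
    k ∈ FS μ w ↔ (d3M w c μ S k).det = 0 := by
  classical
  rw [← Matrix.exists_mulVec_eq_zero_iff]
  constructor
  · rintro ⟨u, hu, hsol⟩
    have h1 := (d3_sol_iff (c := c) (S := S) u (fun n => u n) (fun _ _ => rfl)).2 hsol
    have h2 := d3_sol_sum h S (fun m => ((c : ℂ) - q μ k m) * u m)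
    have h3 := h.unique h1 h2
    refine ⟨fun m => u m, ?_, ?_⟩
    · intro h0
      apply hu
      rw [h3]
      apply Finset.sum_eq_zero
      intro m hm
      have h4 : u m = 0 := congrFun h0 ⟨m, hm⟩
      simp only [h4, mul_zero, zero_smul]
    · funext n
      rw [d3_mulVec (fun n => u n) n]
      have h4 := congrArg (fun v : H2 d => v (n : Zd d)) h3
      simp only [d3_sum_apply] at h4
      rw [← h4, sub_self]
      rfl
  · rintro ⟨y, hy, hMy⟩
    let x : Zd d → ℂ := fun n => if hn : n ∈ S then y ⟨n, hn⟩ else 0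
    have hxy : ∀ n : S, x n = y n := by
      intro n
      simp only [x]
      rw [dif_pos n.2]
    have hxy' : (fun m : S => x m) = y := funext hxy
    let u : H2 d := ∑ m ∈ S, (((c : ℂ) - q μ k m) * x m) • grn w (DS c μ S k) (dlt m)
    have hu : ∀ n ∈ S, x n = u n := by
      intro n hn
      have h1 := d3_mulVec (w := w) (c := c) (μ := μ) (k := k) x ⟨n, hn⟩
      rw [hxy', hMy] at h1
      have h2 : u n = ∑ m ∈ S, (((c : ℂ) - q μ k m) * x m) *
          (grn w (DS c μ S k) (dlt m)) n := d3_sum_apply _ _ _ _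
      rw [h2]
      exact (sub_eq_zero.1 h1.symm)
    refine ⟨u, ?_, (d3_sol_iff (c := c) (S := S) u x hu).1 (d3_sol_sum h S _)⟩
    intro h0
    apply hy
    funext n
    rw [← hxy n, hu n n.2, h0]
    rfl

lemma d3_det_analytic (hw : Summable fun n => ‖w n‖) {c : ℝ} (hc : 0 < c) {S : Finset (Zd d)}
    {k : Cd d} (h : Adm w c (DS c μ S k)) :
    AnalyticAt ℂ (fun k => (d3M w c μ S k).det) k := by
  have h1 : ∀ n m : S, AnalyticAt ℂ (fun k => d3M w c μ S k n m) k := by
    intro n m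
    unfold d3M
    have h2 := (DS_analytic (μ := μ) hw hc S k h.inv (dlt (m : Zd d)) (n : Zd d)).1
    have h3 : AnalyticAt ℂ (fun k : Cd d => q μ k m) k := by
      have h4 : AnalyticAt ℂ (fun k : Cd d => k + zc (m : Zd d)) k :=
        analyticAt_id.add analyticAt_const
      exact (d2_bil_analytic h4 h4).sub analyticAt_const
    exact analyticAt_const.add (h2.mul (h3.sub analyticAt_const))
  simp only [Matrix.det_apply]
  refine Finset.analyticAt_fun_sum _ fun σ _ => ?_
  have h5 : AnalyticAt ℂ (fun k => ∏ i, d3M w c μ S k (σ i) i) k :=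
    Finset.analyticAt_fun_prod _ fun i _ => h1 _ _
  have h6 : ∀ k : Cd d, Equiv.Perm.sign σ • ∏ i, d3M w c μ S k (σ i) i =
      (((Equiv.Perm.sign σ : ℤ) : ℂ)) * ∏ i, d3M w c μ S k (σ i) i := by
    intro k
    rw [Units.smul_def, zsmul_eq_mul]
  simp only [h6]
  exact analyticAt_const.mul h5

/-- The Fermi set is locally the zero set of an analytic function. -/
theorem FS_locHyp (μ : ℂ) (w : Zd d → ℂ) (hw : Summable fun n => ‖w n‖) :
    LocHyp (FS μ w) := by
  intro p
  have hw0 : 0 ≤ ∑' n, ‖w n‖ := tsum_nonneg fun _ => norm_nonneg _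
  let c : ℝ := 4 * (∑' n, ‖w n‖) + 8
  have hc : 0 < c := by simp only [c]; linarith
  let S : Finset (Zd d) := (d3_finite μ p (2 * c)).toFinset
  have hS : ∀ n, n ∉ S → 2 * c ≤ ‖q μ p n‖ := by
    intro n hn
    by_contra hcon
    push Not at hcon
    apply hn
    simp only [S, Set.Finite.mem_toFinset]
    exact hcon
  have hadm := d3_adm (μ := μ) hw (c := c) le_rfl S p hS
  refine ⟨{k | Adm w c (DS c μ S k)}, hadm, fun k => (d3M w c μ S k).det, ?_, ?_⟩
  · intro k hk
    exact d3_det_analytic hw hc hk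
  · intro k hk
    exact d3_mem_iff hk

end Fermi
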