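import Pool.Agent.Lib.Fermi.Param
import Pool.Agent.Lib.Fermi.GeoFin
import Pool.Agent.Lib.Fermi.OpLM
import Pool.Agent.Lib.Fermi.OpLoc

/-!
# Chunk K: irreducibility from the crossing statement
-/

open scoped BigOperators Topology
open Set Filter

noncomputable section

namespace Fermi

variable {d : ℕ} {μ : ℂ} {w : Zd d → ℂ}

theorem irred_of_cross (hd : 3 ≤ d) (hX : CrossStmt d) (h : Rapid w) {A B : Set (Cd d)}
    (D : Decomp (FS μ w) A B) : FS μ w ⊆ A ∨ FS μ w ⊆ B := by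
  obtain ⟨cc, hcc⟩ := exists_scale hd μ h
  obtain ⟨p₀, hp₀⟩ := hX cc
  have key : ∀ L₀ : ℕ, (∀ k : Cd d, (∀ j, |im k j| ≤ L₀) → k ∉ XX (FS μ w) A) ∨
      (∀ k : Cd d, (∀ j, |im k j| ≤ L₀) → k ∉ XX (FS μ w) B) := by
    intro L₀
    obtain ⟨P, h1, h2, h3, ⟨Q⟩⟩ := hcc p₀ (max p₀ L₀)
    have hLL : (L₀ : ℝ) ≤ P.L := by exact_mod_cast (le_max_right _ _).trans h3
    rcases main_scale Q (eff_Ehat P) D (hp₀ μ w P Q h1 h2 ((le_max_left _ _).trans h3)) with
      h | h
    · exact Or.inl fun k hk => h k fun j => (hk j).trans hLL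
    · exact Or.inr fun k hk => h k fun j => (hk j).trans hLL
  have bdd : ∀ k : Cd d, ∃ L₀ : ℕ, ∀ j, |im k j| ≤ L₀ := by
    intro k
    obtain ⟨n, hn⟩ := exists_nat_ge (∑ j, |im k j|)
    exact ⟨n, fun j => (Finset.single_le_sum (f := fun j => |im k j|)
      (fun i _ => abs_nonneg _) (Finset.mem_univ j)).trans hn⟩
  by_cases hA : XX (FS μ w) A = ∅
  · left
    intro k hk
    by_contra hkA
    have : k ∈ XX (FS μ w) A := subset_closure ⟨hk, hkA⟩
    rw [hA] at this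
    exact this
  · by_cases hB : XX (FS μ w) B = ∅
    · right
      intro k hk
      by_contra hkB
      have : k ∈ XX (FS μ w) B := subset_closure ⟨hk, hkB⟩
      rw [hB] at this
      exact this
    · exfalso
      obtain ⟨kA, hkA⟩ := Set.nonempty_iff_ne_empty.mpr hA
      obtain ⟨kB, hkB⟩ := Set.nonempty_iff_ne_empty.mpr hB
      obtain ⟨nA, hnA⟩ := bdd kA
      obtain ⟨nB, hnB⟩ := bdd kB
      have e1 : ∀ j, |im kA j| ≤ ((max nA nB : ℕ) : ℝ) := fun j => (hnA j).trans (by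
        exact_mod_cast le_max_left nA nB)
      have e2 : ∀ j, |im kB j| ≤ ((max nA nB : ℕ) : ℝ) := fun j => (hnB j).trans (by
        exact_mod_cast le_max_right nA nB)
      rcases key (max nA nB) with h | h
      · exact h kA e1 hkA
      · exact h kB e2 hkB

/-! ### The Fermi set is nonempty -/

private lemma fn_dr_smul (a : ℝ) (x y : Fin d → ℝ) : dr (fun j => a * x j) y = a * dr x y := by
  simp only [dr, Finset.mul_sum]
  exact Finset.sum_congr rfl fun j _ => by ring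

/-- points with prescribed imaginary part and prescribed `b·b` -/
private lemma fn_exists {y u : Fin d → ℝ} {z : ℂ} (hy : 0 < dr y y) (hu : 0 < dr u u)
    (hyu : dr y u = 0) (hz : ‖z‖ ≤ dr y y / 2) : ∃ b : Cd d, im b = y ∧ bil b b = z := by
  obtain ⟨Y, hY⟩ : ∃ Y, Y = dr y y := ⟨_, rfl⟩
  obtain ⟨U, hU⟩ : ∃ U, U = dr u u := ⟨_, rfl⟩
  rw [← hY] at hy hz
  rw [← hU] at hu
  obtain ⟨α, hα⟩ : ∃ α, α = z.im / (2 * Y) := ⟨_, rfl⟩
  have h1 : |z.im| ≤ Y / 2 := (Complex.abs_im_le_norm z).trans hz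
  have h2 : |z.re| ≤ Y / 2 := (Complex.abs_re_le_norm z).trans hz
  have h3 : α ^ 2 * Y ≤ Y / 16 := by
    have h4 : α * (2 * Y) = z.im := by
      rw [hα]
      field_simp
    have h5 : (α * (2 * Y)) ^ 2 ≤ (Y / 2) ^ 2 := by
      rw [h4]
      exact sq_le_sq' (abs_le.1 h1).1 (abs_le.1 h1).2
    have h6 : α ^ 2 * Y * Y ≤ Y / 16 * Y := by nlinarith
    exact le_of_mul_le_mul_right h6 hy
  have h4 : 0 ≤ (Y + z.re - α ^ 2 * Y) / U := by
    refine div_nonneg ?_ hu.le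
    have := (abs_le.1 h2).1
    linarith
  obtain ⟨ρ, hρ⟩ : ∃ ρ, ρ = Real.sqrt ((Y + z.re - α ^ 2 * Y) / U) := ⟨_, rfl⟩
  have h5 : ρ ^ 2 * U = Y + z.re - α ^ 2 * Y := by
    rw [hρ, Real.sq_sqrt h4, div_mul_cancel₀ _ hu.ne']
  refine ⟨fun j => ⟨α * y j + ρ * u j, y j⟩, rfl, ?_⟩
  have h6 : ∑ j, (α * y j + ρ * u j) * (α * y j + ρ * u j) =
      α ^ 2 * Y + 2 * α * ρ * dr y u + ρ ^ 2 * U := by
    rw [hY, hU]
    simp only [dr, Finset.mul_sum, ← Finset.sum_add_distrib]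
    exact Finset.sum_congr rfl fun j _ => by ring
  have h7 : ∑ j, (α * y j + ρ * u j) * y j = α * Y + ρ * dr y u := by
    rw [hY]
    simp only [dr, Finset.mul_sum, ← Finset.sum_add_distrib]
    exact Finset.sum_congr rfl fun j _ => by ring
  have h8 : ∑ j, y j * y j = Y := by
    rw [hY]
    rfl
  apply Complex.ext
  · simp only [bil, Complex.re_sum, Complex.mul_re, Finset.sum_sub_distrib]
    rw [h6, h8, hyu, h5]
    ring
  · simp only [bil, Complex.im_sum, Complex.mul_im, Finset.sum_add_distrib]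
    have h9 : ∑ j, y j * (α * y j + ρ * u j) = ∑ j, (α * y j + ρ * u j) * y j :=
      Finset.sum_congr rfl fun j _ => mul_comm _ _
    rw [h9, h7, hyu, hα]
    field_simp
    ring

/-- the imaginary part of the symbol at a lattice vector -/
private lemma fn_q_im (b : Cd d) (l : Zd d) :
    (q μ b l).im = (q μ b 0).im + 2 * dt (im b) l := by
  have h : ∀ l : Zd d, (q μ b l).im = ∑ j, 2 * ((b j).re + l j) * (b j).im - μ.im := by
    intro l
    simp only [q, bil, zc, Complex.sub_im, Complex.im_sum, Pi.add_apply, Complex.mul_im,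
      Complex.add_re, Complex.add_im, Complex.intCast_re, Complex.intCast_im, add_zero]
    congr 1
    refine Finset.sum_congr rfl fun j _ => ?_
    ring
  rw [h, h]
  simp only [dt, im, Pi.zero_apply, Int.cast_zero, add_zero, Finset.mul_sum]
  rw [sub_add_eq_add_sub, ← Finset.sum_add_distrib]
  congr 1
  refine Finset.sum_congr rfl fun j _ => ?_
  ring

/-- the Fermi set is nonempty -/
theorem FS_nonempty (hd : 3 ≤ d) (h : Rapid w) : (FS μ w).Nonempty := by
  obtain ⟨cc, hcc⟩ := exists_scale hd μ h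
  obtain ⟨P, -, -, -, ⟨Q⟩⟩ := hcc 0 0
  have hE := eff_Ehat P
  have hΛ0 : 0 < P.Λ := lt_of_lt_of_le (by norm_num) P.hΛ
  have hΛ1 : 1 ≤ P.Λ := le_trans (by norm_num) P.hΛ
  have hΛ := P.hΛ
  have hG : P.G = P.Λ ^ 5 := rfl
  have hGpos : 0 < P.G := by rw [hG]; positivity
  -- bound of `w 0`
  have hw0 : ‖w 0‖ ≤ ∑' n, ‖w n‖ := P.hw.le_tsum 0 fun n _ => norm_nonneg _
  have hc := P.hc
  have hcΛ := P.hcΛ
  have hμ := P.hμ
  have hw1 : ‖w 0‖ ≤ P.Λ := by
    have := norm_nonneg (w 0)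
    linarith
  -- the imaginary part
  obtain ⟨T, hT⟩ : ∃ T, T = P.Λ ^ 10 := ⟨_, rfl⟩
  have hTG : 2 * P.G ≤ T := by
    rw [hT, hG, show (10 : ℕ) = 5 + 5 by norm_num, pow_add]
    have h1 : P.Λ ≤ P.Λ ^ 5 := le_self_pow₀ hΛ1 (by norm_num)
    nlinarith
  have hTpos : 0 < T := by rw [hT]; positivity
  obtain ⟨y, hy⟩ : ∃ y : Fin d → ℝ, y = fun j => T * (Q.e j : ℝ) := ⟨_, rfl⟩
  have hdt : ∀ l : Zd d, dt y l = T * (di Q.e l : ℝ) := by
    intro l
    rw [hy]
    simp only [dt, di]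
    push_cast
    rw [Finset.mul_sum]
    exact Finset.sum_congr rfl fun j _ => by ring
  have hyy : dr y y = T ^ 2 * (di Q.e Q.e : ℝ) := by
    rw [hy]
    simp only [dr, di]
    push_cast
    rw [Finset.mul_sum]
    exact Finset.sum_congr rfl fun j _ => by ring
  have hone : ∀ l : Zd d, l ≠ 0 → ‖l‖ ≤ P.L → 1 ≤ |(di Q.e l : ℝ)| := by
    intro l hl0 hlL
    have h1 := Q.he l hl0 hlL
    have h2 : 1 ≤ |di Q.e l| := Int.one_le_abs h1
    exact_mod_cast h2
  have hL1 : (1 : ℝ) ≤ P.L := by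
    have h1 := P.hL
    have h2 : 1 ≤ P.L := by omega
    exact_mod_cast h2
  -- unit vectors
  let j0 : Fin d := ⟨0, by omega⟩
  let j1 : Fin d := ⟨1, by omega⟩
  have h01 : j0 ≠ j1 := by
    intro h
    have := congrArg Fin.val h
    simp [j0, j1] at this
  have he0 : Q.e j0 ≠ 0 := by
    have h1 : di Q.e (Pi.single j0 1) = Q.e j0 := by
      simp [di, Pi.single_apply]
    rw [← h1]
    refine Q.he _ ?_ ?_
    · intro h
      have := congrFun h j0
      simp at this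
    · refine (pi_norm_le_iff_of_nonneg (by positivity)).mpr fun j => ?_
      by_cases hj : j = j0
      · subst hj
        simpa using hL1
      · simp [hj]
  have hee : 1 ≤ (di Q.e Q.e : ℝ) := by
    have h1 : 1 ≤ di Q.e Q.e := by
      have h2 : Q.e j0 * Q.e j0 ≤ di Q.e Q.e := by
        unfold di
        exact Finset.single_le_sum (f := fun j => Q.e j * Q.e j)
          (fun j _ => mul_self_nonneg _) (Finset.mem_univ j0)
      have h3 : 0 < Q.e j0 * Q.e j0 := mul_self_pos.2 he0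
      omega
    exact_mod_cast h1
  have hyP : y ∈ Pc P (2 * P.G) y := by
    refine ⟨?_, fun l hl0 hlL => ⟨?_, ?_⟩⟩
    · rw [hyy]
      have h1 : T ^ 2 * (di Q.e Q.e : ℝ) ≤ P.Λ ^ 21 := by
        rw [hT, ← pow_mul, show P.Λ ^ 21 = P.Λ ^ (10 * 2) * P.Λ by ring]
        exact mul_le_mul_of_nonneg_left Q.ne (by positivity)
      have h2 : 4 * P.Λ ^ 21 ≤ P.R ^ 2 := by
        simp only [Sc.R]
        rw [← pow_mul, show P.Λ ^ (26 * 2) = P.Λ ^ 31 * P.Λ ^ 21 by ring]
        have h3 : P.Λ ≤ P.Λ ^ 31 := le_self_pow₀ hΛ1 (by norm_num)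
        have h4 : 0 < P.Λ ^ 21 := by positivity
        nlinarith
      calc (2 * P.G) ^ 2 * (T ^ 2 * (di Q.e Q.e : ℝ)) ≤ (2 * P.G) ^ 2 * P.Λ ^ 21 :=
            mul_le_mul_of_nonneg_left h1 (by positivity)
        _ = P.G ^ 2 * (4 * P.Λ ^ 21) := by ring
        _ ≤ P.G ^ 2 * P.R ^ 2 := mul_le_mul_of_nonneg_left h2 (by positivity)
    · rw [hdt, abs_mul, abs_mul, abs_two, abs_of_pos hTpos]
      have h1 := hone l hl0 hlL
      nlinarith
    · rw [hdt]
      have h1 : (di Q.e l : ℝ) ≠ 0 := by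
        exact_mod_cast Q.he l hl0 hlL
      exact mul_self_pos.2 (mul_ne_zero hTpos.ne' h1)
  -- the point
  obtain ⟨u, hu⟩ : ∃ u : Fin d → ℝ, u = Pi.single j0 (Q.e j1 : ℝ) - Pi.single j1 (Q.e j0 : ℝ) :=
    ⟨_, rfl⟩
  have hu0 : u j0 = Q.e j1 := by
    rw [hu]
    simp [h01]
  have hu1 : u j1 = -(Q.e j0 : ℝ) := by
    rw [hu]
    simp [h01.symm]
  have hyu : dr y u = 0 := by
    rw [hu]
    simp only [dr, Pi.sub_apply, mul_sub, Finset.sum_sub_distrib, Pi.single_apply, mul_ite,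
      mul_zero, Finset.sum_ite_eq', Finset.mem_univ, if_true]
    rw [hy]
    ring
  have huu : 0 < dr u u := by
    have h2 : u j1 * u j1 ≤ dr u u := by
      unfold dr
      exact Finset.single_le_sum (f := fun j => u j * u j)
        (fun j _ => mul_self_nonneg _) (Finset.mem_univ j1)
    have h3 : 0 < u j1 * u j1 := by
      rw [hu1]
      refine mul_self_pos.2 (neg_ne_zero.2 ?_)
      exact_mod_cast he0
    linarith
  have hYbig : P.Λ ^ 20 ≤ dr y y := by
    rw [hyy, hT, ← pow_mul]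
    exact le_mul_of_one_le_right (by positivity) hee
  have hΛ8 : P.Λ ^ 8 * (4 * P.Λ) ≤ P.Λ ^ 20 := by
    have h1 : 4 * P.Λ ≤ P.Λ ^ 12 := by
      have h2 : P.Λ ^ 2 ≤ P.Λ ^ 12 := pow_le_pow_right₀ hΛ1 (by norm_num)
      nlinarith
    calc P.Λ ^ 8 * (4 * P.Λ) ≤ P.Λ ^ 8 * P.Λ ^ 12 :=
          mul_le_mul_of_nonneg_left h1 (by positivity)
      _ = P.Λ ^ 20 := by ring
  have h81 : 1 ≤ P.Λ ^ 8 := one_le_pow₀ hΛ1
  have hz : ‖μ - w 0‖ ≤ dr y y / 2 := by
    have h1 := norm_sub_le μ (w 0)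
    nlinarith
  obtain ⟨b, hb1, hb2⟩ := fn_exists (by linarith [pow_pos hΛ0 20]) huu hyu hz
  have hq0 : q μ b 0 = - w 0 := by
    unfold q
    have : (zc (0 : Zd d) : Cd d) = 0 := by
      funext j
      simp [zc]
    rw [this, add_zero, hb2]
    ring
  have hTh : Thick P b := by
    refine ⟨?_, ?_, fun l hl0 hlL => ?_⟩
    · have h1 : dr y y ≤ nsq b := by
        unfold dr nsq
        refine Finset.sum_le_sum fun j _ => ?_
        have h2 : y j = (b j).im := by rw [← hb1]; rfl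
        rw [h2, ← Complex.normSq_eq_norm_sq, Complex.normSq_apply]
        nlinarith [mul_self_nonneg (b j).re]
      have h2 : P.Λ ^ 8 ≤ P.Λ ^ 20 := pow_le_pow_right₀ hΛ1 (by norm_num)
      linarith
    · rw [hq0]
      simp
    · have h1 := Complex.abs_im_le_norm (q μ b l)
      rw [fn_q_im, hb1, hq0] at h1
      have h2 := (hyP.2 l hl0 hlL).1
      have h3 := Complex.abs_im_le_norm (-w 0)
      rw [norm_neg] at h3
      have h4 : |2 * dt y l| ≤ |(-w 0).im + 2 * dt y l| + |(-w 0).im| := by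
        have := abs_sub ((-w 0).im + 2 * dt y l) ((-w 0).im)
        simpa using this
      have h5 : P.Λ ≤ P.G := by
        rw [hG]
        exact le_self_pow₀ hΛ1 (by norm_num)
      linarith
  have hR : Regular P (pm (Ehat P) b) :=
    regular_near_Pc (g := 2 * P.G) (by linarith) (y₀ := y) (b := b) (by rw [hb1]; exact hyP)
      (pm_near P hE hTh)
  obtain ⟨p', -, hg⟩ := exists_good P hE (pm_base P hE hTh hR)
  exact ⟨p', hg.1⟩

end Fermi
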