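import Pool.Agent.Lib.Fermi.GeoReg

/-!
# Chunk G1: all base points over one chamber have the same class

For `y ≠ 0`, unit `ν ⟂ y`, `z ∈ ℂ` put `α = Im z/(2|y|²)`, `ρ = sqrt(|y|² + Re z - α²|y|²)`, `b = α y + ρ ν + i y`. Then
`bil b b = z`. Every `b` with `im b = y` and `bil b b = z` is of this form. Take `z₀ = μ - w 0 + z'`, `|z'| ≤ 1/2`:
`q_0(b) + w 0 = z'`. Path from `p` to `p'`: (move `z'` linearly from its value at `p` to its value at `p'`
together with the other moves, or in a separate step): rotate `ν` in the fibre over `y = im p`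
(`isPathConnected_sphere` in `y^⊥`, of dimension `d - 1 ≥ 2`), then move `y` along the segment with
`ν(t) =` normalised projection of `e_1` to `y(t)^⊥` (`y(t)_2 ≠ 0` on the chamber), then rotate again.
All points of the path are thick (`clean`: imaginary parts in the chamber), `pm` of them is regular by
`regular_near_Pc`. Use `CC_pm` at both ends and `CC_path`.
-/

open scoped BigOperators Topology
open Set Filter

noncomputable section

namespace Fermi

variable {d : ℕ} {μ : ℂ} {w : Zd d → ℂ}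
variable {P : Sc d μ w} {Q : Dirs P} {E : Cd d → ℂ} {A B : Set (Cd d)}

/-! ### Elementary facts on `dr`, `dt` -/

private lemma g1_dr_comm (x y : Fin d → ℝ) : dr x y = dr y x := by
  unfold dr; exact Finset.sum_congr rfl fun j _ => mul_comm _ _

private lemma g1_dr_lin (a b : ℝ) (x y z : Fin d → ℝ) :
    dr (fun j => a * x j + b * y j) z = a * dr x z + b * dr y z := by
  unfold dr
  rw [Finset.mul_sum, Finset.mul_sum, ← Finset.sum_add_distrib]
  exact Finset.sum_congr rfl fun j _ => by ring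

private lemma g1_dr_lin' (a b : ℝ) (x y z : Fin d → ℝ) :
    dr z (fun j => a * x j + b * y j) = a * dr z x + b * dr z y := by
  rw [g1_dr_comm, g1_dr_lin, g1_dr_comm x, g1_dr_comm y]

private lemma g1_dt_lin (a b : ℝ) (x y : Fin d → ℝ) (l : Zd d) :
    dt (fun j => a * x j + b * y j) l = a * dt x l + b * dt y l := by
  unfold dt
  rw [Finset.mul_sum, Finset.mul_sum, ← Finset.sum_add_distrib]
  exact Finset.sum_congr rfl fun j _ => by ring

private lemma g1_dr_nonneg (x : Fin d → ℝ) : 0 ≤ dr x x := by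
  unfold dr; exact Finset.sum_nonneg fun j _ => mul_self_nonneg _

private lemma g1_dr_sq (a b : ℝ) (x y : Fin d → ℝ) :
    dr (fun j => a * x j + b * y j) (fun j => a * x j + b * y j) =
      a ^ 2 * dr x x + 2 * a * b * dr x y + b ^ 2 * dr y y := by
  rw [g1_dr_lin, g1_dr_lin', g1_dr_lin', g1_dr_comm y x]; ring

private lemma g1_convex_aux {a b g s u v : ℝ} (ha : 0 ≤ a) (hb : 0 ≤ b) (hab : a + b = 1)
    (h1 : g ≤ |2 * u|) (h2 : 0 < u * s) (h3 : g ≤ |2 * v|) (h4 : 0 < v * s) :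
    g ≤ |2 * (a * u + b * v)| ∧ 0 < (a * u + b * v) * s := by
  have hpos : 0 < (a * u + b * v) * s := by
    have : (a * u + b * v) * s = a * (u * s) + b * (v * s) := by ring
    rw [this]
    rcases ha.eq_or_lt with h | h
    · rw [← h]; rw [← h] at hab
      have : b = 1 := by linarith
      rw [this]; linarith
    · have := mul_pos h h2
      have := mul_nonneg hb h4.le
      linarith
  refine ⟨?_, hpos⟩
  rcases lt_trichotomy s 0 with hs | hs | hs
  · have hu : u < 0 := by nlinarith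
    have hv : v < 0 := by nlinarith
    rw [abs_of_neg (by linarith)] at h1 h3
    have : a * u + b * v ≤ 0 := by nlinarith
    rw [abs_of_nonpos (by linarith)]
    nlinarith
  · rw [hs] at h2; simp at h2
  · have hu : 0 < u := by nlinarith
    have hv : 0 < v := by nlinarith
    rw [abs_of_pos (by linarith)] at h1 h3
    have : 0 ≤ a * u + b * v := by positivity
    rw [abs_of_nonneg (by linarith)]
    nlinarith

theorem convex_Pc (P : Sc d μ w) (g : ℝ) (y₀ : Fin d → ℝ) : Convex ℝ (Pc P g y₀) := by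
  intro x hx y hy a b ha hb hab
  have hfun : a • x + b • y = fun j => a * x j + b * y j := by
    ext j; simp
  rw [hfun]
  refine ⟨?_, fun l hl hlL => ?_⟩
  · have hxy : 2 * dr x y ≤ dr x x + dr y y := by
      have := g1_dr_nonneg (fun j => 1 * x j + (-1) * y j)
      rw [g1_dr_sq] at this
      linarith
    rw [g1_dr_sq]
    have h1 := hx.1
    have h2 := hy.1
    have hg : 0 ≤ g ^ 2 := sq_nonneg g
    have hb' : b = 1 - a := by linarith
    have hab' : 0 ≤ a * b := mul_nonneg ha hb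
    have h3 : a ^ 2 * dr x x + 2 * a * b * dr x y + b ^ 2 * dr y y ≤ a * dr x x + b * dr y y := by
      have h4 := mul_le_mul_of_nonneg_left hxy hab'
      subst hb'
      nlinarith
    calc g ^ 2 * (a ^ 2 * dr x x + 2 * a * b * dr x y + b ^ 2 * dr y y)
        ≤ g ^ 2 * (a * dr x x + b * dr y y) := mul_le_mul_of_nonneg_left h3 hg
      _ = a * (g ^ 2 * dr x x) + b * (g ^ 2 * dr y y) := by ring
      _ ≤ a * (P.G ^ 2 * P.R ^ 2) + b * (P.G ^ 2 * P.R ^ 2) :=
          add_le_add (mul_le_mul_of_nonneg_left h1 ha) (mul_le_mul_of_nonneg_left h2 hb)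
      _ = P.G ^ 2 * P.R ^ 2 := by rw [← add_mul, hab, one_mul]
  · rw [g1_dt_lin]
    have h1 := hx.2 l hl hlL
    have h2 := hy.2 l hl hlL
    exact g1_convex_aux ha hb hab h1.1 h1.2 h2.1 h2.2

/-! ### Bounds on a chamber -/

private lemma g1_dt_single (y : Fin d → ℝ) (j : Fin d) : dt y (Pi.single j 1) = y j := by
  unfold dt
  rw [Finset.sum_eq_single j]
  · simp
  · intro i _ hi
    rw [Pi.single_eq_of_ne hi]; simp
  · intro h; exact absurd (Finset.mem_univ j) h

private lemma g1_coord (P : Sc d μ w) {g : ℝ} {y₀ y : Fin d → ℝ} (hy : y ∈ Pc P g y₀) (j : Fin d) :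
    g ≤ |2 * y j| := by
  have h1 : (Pi.single j (1 : ℤ) : Zd d) ≠ 0 := by
    intro h
    have := congrFun h j
    simp at this
  have h2 : ‖(Pi.single j (1 : ℤ) : Zd d)‖ ≤ P.L := by
    have h3 : ‖(Pi.single j (1 : ℤ) : Zd d)‖ ≤ 1 := by
      rw [pi_norm_le_iff_of_nonneg zero_le_one]
      intro i
      by_cases hi : i = j
      · subst hi; simp
      · rw [Pi.single_eq_of_ne hi]; simp
    have h4 : (1 : ℝ) ≤ P.L := by
      have h5 := P.hL
      have h6 := P.hd
      have : 1 ≤ P.L := by omega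
      exact_mod_cast this
    linarith
  have := (hy.2 _ h1 h2).1
  rwa [g1_dt_single] at this

private lemma g1_dr_ge (y : Fin d → ℝ) (j : Fin d) : y j ^ 2 ≤ dr y y := by
  unfold dr
  have := Finset.single_le_sum (f := fun j => y j * y j) (fun i _ => mul_self_nonneg _) (Finset.mem_univ j)
  rw [sq]; exact this

private lemma g1_dr_ge2 (y : Fin d → ℝ) {i j : Fin d} (hij : i ≠ j) : y i ^ 2 + y j ^ 2 ≤ dr y y := by
  unfold dr
  have := Finset.sum_le_sum_of_subset_of_nonneg (f := fun j => y j * y j) (Finset.subset_univ {i, j})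
    (fun i _ _ => mul_self_nonneg _)
  rw [Finset.sum_pair hij] at this
  rw [sq, sq]; exact this

private lemma g1_w0 (P : Sc d μ w) : ‖w 0‖ ≤ P.Λ / 4 := by
  have h1 : ‖w 0‖ ≤ ∑' n, ‖w n‖ := P.hw.le_tsum 0 (fun _ _ => norm_nonneg _)
  have h2 := P.hc
  have h3 := P.hcΛ
  linarith

/-- the size of `dr y y` on a chamber -/
private lemma g1_big (P : Sc d μ w) {g : ℝ} (hg : 3 / 2 * P.G ≤ g) {y₀ y : Fin d → ℝ}
    (hy : y ∈ Pc P g y₀) : P.Λ ^ 8 ≤ dr y y := by
  have hΛ := P.hΛ
  have hd := P.hd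
  have h1 := g1_coord P hy ⟨0, by omega⟩
  have h2 := g1_dr_ge y ⟨0, by omega⟩
  have h3 : (3 / 4 * P.Λ ^ 5) ^ 2 ≤ y ⟨0, by omega⟩ ^ 2 := by
    rw [← sq_abs (y _)]
    apply pow_le_pow_left₀ (by positivity)
    have : P.G = P.Λ ^ 5 := rfl
    rw [abs_mul, abs_of_pos (by norm_num : (0 : ℝ) < 2)] at h1
    rw [this] at hg
    linarith
  have h4 : P.Λ ^ 8 ≤ (3 / 4 * P.Λ ^ 5) ^ 2 := by
    have h5 : (3 / 4 * P.Λ ^ 5) ^ 2 = 9 / 16 * P.Λ ^ 2 * P.Λ ^ 8 := by ring
    rw [h5]
    have h6 : 0 ≤ P.Λ ^ 8 := by positivity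
    have h7 : 1 ≤ 9 / 16 * P.Λ ^ 2 := by nlinarith
    nlinarith
  linarith

/-- the radicand -/
private def g1_rad (y : Fin d → ℝ) (z : ℂ) : ℝ := dr y y + z.re - (z.im / (2 * dr y y)) ^ 2 * dr y y

private lemma g1_rad_pos (P : Sc d μ w) {g : ℝ} (hg : 3 / 2 * P.G ≤ g) {y₀ y : Fin d → ℝ}
    (hy : y ∈ Pc P g y₀) {z : ℂ} (hz : ‖z - (μ - w 0)‖ ≤ 1 / 2) : 0 < g1_rad y z := by
  have hΛ := P.hΛ
  have h1 := g1_big P hg hy
  have h2 := g1_w0 P
  have h3 := P.hμ
  have h4 : ‖z‖ ≤ 2 * P.Λ := by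
    calc ‖z‖ = ‖(z - (μ - w 0)) + (μ - w 0)‖ := by ring_nf
      _ ≤ ‖z - (μ - w 0)‖ + ‖μ - w 0‖ := norm_add_le _ _
      _ ≤ 1 / 2 + (‖μ‖ + ‖w 0‖) := add_le_add hz (norm_sub_le _ _)
      _ ≤ 2 * P.Λ := by linarith
  have h5 : -(2 * P.Λ) ≤ z.re := by
    have := Complex.abs_re_le_norm z
    have := neg_abs_le z.re
    linarith
  have h6 : |z.im| ≤ 2 * P.Λ := (Complex.abs_im_le_norm z).trans h4
  have h7 : (P.Λ : ℝ) ^ 8 = P.Λ ^ 2 * P.Λ ^ 6 := by ring
  have h8 : (1 : ℝ) ≤ P.Λ ^ 6 := one_le_pow₀ (by linarith)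
  have h9 : P.Λ ^ 2 ≤ P.Λ ^ 8 := by
    rw [h7]; nlinarith [sq_nonneg P.Λ]
  have h10 : (0 : ℝ) < P.Λ ^ 2 := by positivity
  have hY : 0 < dr y y := by linarith
  have h11 : (z.im / (2 * dr y y)) ^ 2 * dr y y = z.im ^ 2 / (4 * dr y y) := by
    field_simp
    norm_num
  have h12 : z.im ^ 2 ≤ (2 * P.Λ) ^ 2 := by
    rw [← sq_abs z.im]
    exact pow_le_pow_left₀ (abs_nonneg _) h6 2
  have h13 : z.im ^ 2 / (4 * dr y y) ≤ 1 := by
    rw [div_le_one (by positivity)]
    nlinarith
  have h14 : 100 * P.Λ ≤ P.Λ ^ 2 := by nlinarith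
  unfold g1_rad
  rw [h11]
  linarith

/-- the point over `y` with direction `ν` and `bil b b = z` -/
private def g1_bm (y ν : Fin d → ℝ) (z : ℂ) : Cd d := fun j =>
  ((z.im / (2 * dr y y) * y j + Real.sqrt (g1_rad y z) * ν j : ℝ) : ℂ) + (y j : ℂ) * Complex.I

private lemma g1_im_bm (y ν : Fin d → ℝ) (z : ℂ) : im (g1_bm y ν z) = y := by
  ext j
  unfold im g1_bm
  simp only [Complex.add_im, Complex.ofReal_im, Complex.mul_im, Complex.ofReal_re, Complex.I_im,
    Complex.I_re]
  ring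

private lemma g1_re_bm (y ν : Fin d → ℝ) (z : ℂ) :
    re (g1_bm y ν z) = fun j => z.im / (2 * dr y y) * y j + Real.sqrt (g1_rad y z) * ν j := by
  ext j
  unfold re g1_bm
  simp only [Complex.add_re, Complex.ofReal_im, Complex.mul_re, Complex.ofReal_re, Complex.I_im,
    Complex.I_re]
  ring

private lemma g1_bil (b : Cd d) : bil b b = ((dr (re b) (re b) - dr (im b) (im b) : ℝ) : ℂ) +
    ((2 * dr (re b) (im b) : ℝ) : ℂ) * Complex.I := by
  unfold bil dr re im
  push_cast
  rw [Finset.mul_sum, Finset.sum_mul, ← Finset.sum_sub_distrib, ← Finset.sum_add_distrib]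
  refine Finset.sum_congr rfl fun j _ => ?_
  apply Complex.ext
  · simp
  · simp; ring

private lemma g1_bil_bm {y ν : Fin d → ℝ} {z : ℂ} (hy : 0 < dr y y) (hr : 0 ≤ g1_rad y z)
    (h1 : dr ν ν = 1) (h2 : dr y ν = 0) : bil (g1_bm y ν z) (g1_bm y ν z) = z := by
  rw [g1_bil, g1_im_bm, g1_re_bm, g1_dr_sq, g1_dr_lin, h1, h2, g1_dr_comm ν y, h2, Real.sq_sqrt hr]
  unfold g1_rad
  apply Complex.ext
  · simp only [Complex.add_re, Complex.ofReal_im, Complex.mul_re, Complex.ofReal_re, Complex.I_im,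
      Complex.I_re]
    ring
  · simp only [Complex.add_im, Complex.ofReal_im, Complex.mul_im, Complex.ofReal_re, Complex.I_im,
      Complex.I_re]
    field_simp
    ring

private lemma g1_q0 (b : Cd d) : q μ b 0 = bil b b - μ := by
  unfold q
  have : b + zc (0 : Zd d) = b := by
    ext j; simp [zc]
  rw [this]

/-- the set in which the paths are constructed -/
private def g1_B (P : Sc d μ w) (g : ℝ) (y₀ : Fin d → ℝ) : Set (Cd d) :=
  {b | im b ∈ Pc P g y₀ ∧ ‖bil b b - (μ - w 0)‖ ≤ 1 / 2}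

private lemma g1_thick (P : Sc d μ w) {g : ℝ} (hg : 3 / 2 * P.G ≤ g) {y₀ : Fin d → ℝ} {b : Cd d}
    (hb : b ∈ g1_B P g y₀) : Thick P b := by
  have hΛ := P.hΛ
  have h1 := g1_big P hg hb.1
  have hw := g1_w0 P
  refine ⟨?_, ?_, ?_⟩
  · refine h1.trans ?_
    unfold dr nsq im
    refine Finset.sum_le_sum fun j _ => ?_
    have := Complex.abs_im_le_norm (b j)
    nlinarith [abs_nonneg (b j).im, sq_abs (b j).im]
  · rw [g1_q0]
    have h2 := hb.2
    have h3 : bil b b - μ + w 0 = bil b b - (μ - w 0) := by ring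
    rw [h3]; linarith
  · intro l hl hlL
    have h2 := (hb.1.2 l hl hlL).1
    have h3 : q μ b l = (bil b b - (μ - w 0)) - w 0 + 2 * bil b (zc l) + bil (zc l) (zc l) := by
      unfold q bil
      simp only [Pi.add_apply]
      have : ∑ j, (b j + zc l j) * (b j + zc l j) = ∑ j, b j * b j + 2 * ∑ j, b j * zc l j +
          ∑ j, zc l j * zc l j := by
        rw [Finset.mul_sum, ← Finset.sum_add_distrib, ← Finset.sum_add_distrib]
        exact Finset.sum_congr rfl fun j _ => by ring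
      rw [this]; ring
    have h4 : (bil b (zc l)).im = dt (im b) l := by
      unfold bil dt im zc
      rw [Complex.im_sum]
      exact Finset.sum_congr rfl fun j _ => by simp
    have h5 : (bil (zc l) (zc l)).im = 0 := by
      unfold bil zc
      rw [Complex.im_sum]
      exact Finset.sum_eq_zero fun j _ => by simp
    have h6 : (q μ b l).im = (bil b b - (μ - w 0)).im - (w 0).im + 2 * dt (im b) l := by
      rw [h3]
      simp only [Complex.add_im, Complex.sub_im, h5, add_zero]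
      rw [Complex.mul_im, h4]
      simp
    have h7 := Complex.abs_im_le_norm (q μ b l)
    have h8 := (Complex.abs_im_le_norm (bil b b - (μ - w 0))).trans hb.2
    have h9 := (Complex.abs_im_le_norm (w 0)).trans hw
    have hG : P.G = P.Λ ^ 5 := rfl
    have h10 : 4 * P.Λ ≤ P.G := by
      rw [hG]
      have : (P.Λ : ℝ) ^ 5 = P.Λ * P.Λ ^ 4 := by ring
      rw [this]
      have h11 : (4 : ℝ) ≤ P.Λ ^ 4 := by
        have : P.Λ ≤ P.Λ ^ 4 := le_self_pow₀ (by linarith) (by norm_num)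
        linarith
      nlinarith
    have h11 : |2 * dt (im b) l| ≤ |(q μ b l).im| + |(bil b b - (μ - w 0)).im| + |(w 0).im| := by
      have h12 : 2 * dt (im b) l = (q μ b l).im - (bil b b - (μ - w 0)).im + (w 0).im := by
        rw [h6]; ring
      rw [h12]
      exact (abs_add_le _ _).trans (add_le_add_left (abs_sub _ _) _)
    linarith

/-! ### Unit vectors orthogonal to `y` -/

private def g1_S (y : Fin d → ℝ) : Set (Fin d → ℝ) := {ν | dr ν ν = 1 ∧ dr y ν = 0}

private lemma g1_cont_dr : Continuous (fun p : (Fin d → ℝ) × (Fin d → ℝ) => dr p.1 p.2) := by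
  unfold dr
  fun_prop

private lemma g1_join1 {y ν ν' : Fin d → ℝ} (h : ν ∈ g1_S y) (h' : ν' ∈ g1_S y)
    (hne : dr ν ν' ≠ -1) : JoinedIn (g1_S y) ν ν' := by
  have hc1 : -1 < dr ν ν' := by
    have := g1_dr_nonneg (fun j => 1 * ν j + 1 * ν' j)
    rw [g1_dr_sq, h.1, h'.1] at this
    rcases lt_or_eq_of_le (show -1 ≤ dr ν ν' by linarith) with h1 | h1
    · exact h1
    · exact absurd h1.symm hne
  set f : ℝ → (Fin d → ℝ) := fun t j => (1 - t) * ν j + t * ν' j with hf
  have hfc : Continuous f := by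
    rw [hf]; fun_prop
  have hff : ∀ t, dr (f t) (f t) = (1 - 2 * t) ^ 2 + 2 * t * (1 - t) * (1 + dr ν ν') := by
    intro t
    simp only [hf]
    rw [g1_dr_sq, h.1, h'.1]; ring
  have hpos : ∀ t ∈ Icc (0 : ℝ) 1, 0 < dr (f t) (f t) := by
    intro t ht
    rw [hff]
    have h1 : 0 ≤ t * (1 - t) := mul_nonneg ht.1 (by linarith [ht.2])
    have h2 : 0 ≤ 2 * t * (1 - t) * (1 + dr ν ν') := by
      have := mul_nonneg h1 (by linarith : 0 ≤ 1 + dr ν ν')
      nlinarith
    rcases eq_or_ne (1 - 2 * t) 0 with h3 | h3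
    · have h4 : t = 1 / 2 := by linarith
      subst h4
      nlinarith
    · have : 0 < (1 - 2 * t) ^ 2 := by positivity
      linarith
  refine JoinedIn.ofLine (f := fun t j => (Real.sqrt (dr (f t) (f t)))⁻¹ * f t j) ?_ ?_ ?_ ?_
  · rw [continuousOn_pi]
    intro j
    refine ContinuousOn.mul ?_ ((continuous_apply j).comp hfc).continuousOn
    refine ContinuousOn.inv₀ ?_ ?_
    · exact (Real.continuous_sqrt.comp (g1_cont_dr.comp (hfc.prodMk hfc))).continuousOn
    · intro t ht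
      exact (Real.sqrt_pos.2 (hpos t ht)).ne'
  · ext j
    have : dr (f 0) (f 0) = 1 := by rw [hff]; ring
    show (Real.sqrt (dr (f 0) (f 0)))⁻¹ * f 0 j = ν j
    rw [this, Real.sqrt_one]
    simp [hf]
  · ext j
    have : dr (f 1) (f 1) = 1 := by rw [hff]; ring
    show (Real.sqrt (dr (f 1) (f 1)))⁻¹ * f 1 j = ν' j
    rw [this, Real.sqrt_one]
    simp [hf]
  · rintro _ ⟨t, ht, rfl⟩
    have hp := hpos t ht
    have hs := Real.sq_sqrt hp.le
    have hsp := Real.sqrt_pos.2 hp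
    constructor
    · have h1 := g1_dr_sq (Real.sqrt (dr (f t) (f t)))⁻¹ 0 (f t) (f t)
      simp only [zero_mul, add_zero] at h1
      rw [h1]
      have : ((Real.sqrt (dr (f t) (f t)))⁻¹) ^ 2 * dr (f t) (f t) = 1 := by
        rw [inv_pow, hs]
        exact inv_mul_cancel₀ hp.ne'
      rw [this]; ring
    · have h1 := g1_dr_lin' (Real.sqrt (dr (f t) (f t)))⁻¹ 0 (f t) (f t) y
      simp only [zero_mul, add_zero] at h1
      rw [h1]
      have : dr y (f t) = 0 := by
        simp only [hf]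
        rw [g1_dr_lin', h.2, h'.2]; ring
      rw [this]; ring

private lemma g1_third (hd : 3 ≤ d) (y ν : Fin d → ℝ) :
    ∃ u : Fin d → ℝ, dr u u = 1 ∧ dr y u = 0 ∧ dr ν u = 0 := by
  let F : (Fin d → ℝ) →ₗ[ℝ] (Fin 2 → ℝ) :=
    { toFun := fun u => ![dr y u, dr ν u]
      map_add' := by
        intro u v
        have h1 : ∀ x : Fin d → ℝ, dr x (u + v) = dr x u + dr x v := by
          intro x
          have := g1_dr_lin' 1 1 u v x
          simp only [one_mul] at this
          exact this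
        ext i
        fin_cases i <;> simp [h1]
      map_smul' := by
        intro a u
        have h1 : ∀ x : Fin d → ℝ, dr x (a • u) = a * dr x u := by
          intro x
          have := g1_dr_lin' a 0 u u x
          simp only [zero_mul, add_zero] at this
          exact this
        ext i
        fin_cases i <;> simp [h1] }
  have hk : LinearMap.ker F ≠ ⊥ := by
    apply LinearMap.ker_ne_bot_of_finrank_lt
    simp
    omega
  obtain ⟨u, hu, hu0⟩ := (Submodule.ne_bot_iff _).1 hk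
  have h1 : dr y u = 0 := by
    have := congrFun (LinearMap.mem_ker.1 hu) 0
    simpa [F] using this
  have h2 : dr ν u = 0 := by
    have := congrFun (LinearMap.mem_ker.1 hu) 1
    simpa [F] using this
  have h3 : 0 < dr u u := by
    rcases (g1_dr_nonneg u).eq_or_lt with h | h
    · exfalso
      apply hu0
      ext j
      have := g1_dr_ge u j
      rw [← h] at this
      have : u j ^ 2 = 0 := le_antisymm this (sq_nonneg _)
      exact pow_eq_zero_iff (two_ne_zero) |>.1 this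
    · exact h
  refine ⟨fun j => (Real.sqrt (dr u u))⁻¹ * u j, ?_, ?_, ?_⟩
  · have h4 := g1_dr_sq (Real.sqrt (dr u u))⁻¹ 0 u u
    simp only [zero_mul, add_zero] at h4
    rw [h4, inv_pow, Real.sq_sqrt h3.le, inv_mul_cancel₀ h3.ne']
    ring
  · have h4 := g1_dr_lin' (Real.sqrt (dr u u))⁻¹ 0 u u y
    simp only [zero_mul, add_zero] at h4
    rw [h4, h1]; ring
  · have h4 := g1_dr_lin' (Real.sqrt (dr u u))⁻¹ 0 u u ν
    simp only [zero_mul, add_zero] at h4
    rw [h4, h2]; ring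

private lemma g1_joinS (hd : 3 ≤ d) {y ν ν' : Fin d → ℝ} (h : ν ∈ g1_S y) (h' : ν' ∈ g1_S y) :
    JoinedIn (g1_S y) ν ν' := by
  by_cases hne : dr ν ν' = -1
  · obtain ⟨u, hu1, hu2, hu3⟩ := g1_third hd y ν
    have hu : u ∈ g1_S y := ⟨hu1, hu2⟩
    have h1 : JoinedIn (g1_S y) ν u := g1_join1 h hu (by rw [hu3]; norm_num)
    have h2 : ∀ j, ν' j = - ν j := by
      have h3 := g1_dr_sq 1 1 ν ν'
      rw [h.1, h'.1, hne] at h3
      intro j
      have h4 := g1_dr_ge (fun j => 1 * ν j + 1 * ν' j) j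
      rw [h3] at h4
      have h5 : (1 * ν j + 1 * ν' j) ^ 2 = 0 := le_antisymm (by linarith) (sq_nonneg _)
      have h6 := pow_eq_zero_iff (two_ne_zero) |>.1 h5
      linarith
    have h3 : dr u ν' = 0 := by
      have : ν' = fun j => (-1) * ν j + 0 * ν j := by
        ext j; rw [h2 j]; ring
      rw [this, g1_dr_lin', g1_dr_comm u ν, hu3]; ring
    have h4 : JoinedIn (g1_S y) u ν' := g1_join1 hu h' (by rw [h3]; norm_num)
    exact h1.trans h4
  · exact g1_join1 h h' hne

/-! ### Paths of points -/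

private lemma g1_cont_rad {X : Type} [TopologicalSpace X] {s : Set X} {y : X → (Fin d → ℝ)} {z : X → ℂ}
    (hy : ContinuousOn y s) (hz : ContinuousOn z s) (hpos : ∀ x ∈ s, dr (y x) (y x) ≠ 0) :
    ContinuousOn (fun x => g1_rad (y x) (z x)) s := by
  have h1 : ContinuousOn (fun x => dr (y x) (y x)) s := g1_cont_dr.comp_continuousOn (hy.prodMk hy)
  have h2 : ContinuousOn (fun x => (z x).re) s := Complex.continuous_re.comp_continuousOn hz
  have h3 : ContinuousOn (fun x => (z x).im) s := Complex.continuous_im.comp_continuousOn hz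
  unfold g1_rad
  refine (h1.add h2).sub (((h3.div (continuousOn_const.mul h1) ?_).pow 2).mul h1)
  intro x hx
  exact mul_ne_zero two_ne_zero (hpos x hx)

private lemma g1_cont_bm {X : Type} [TopologicalSpace X] {s : Set X} {y ν : X → (Fin d → ℝ)}
    {z : X → ℂ} (hy : ContinuousOn y s) (hν : ContinuousOn ν s) (hz : ContinuousOn z s)
    (hpos : ∀ x ∈ s, dr (y x) (y x) ≠ 0) : ContinuousOn (fun x => g1_bm (y x) (ν x) (z x)) s := by
  rw [continuousOn_pi]
  intro j
  have h1 : ContinuousOn (fun x => dr (y x) (y x)) s := g1_cont_dr.comp_continuousOn (hy.prodMk hy)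
  have h3 : ContinuousOn (fun x => (z x).im) s := Complex.continuous_im.comp_continuousOn hz
  have hyj : ContinuousOn (fun x => y x j) s := (continuous_apply j).comp_continuousOn hy
  have hνj : ContinuousOn (fun x => ν x j) s := (continuous_apply j).comp_continuousOn hν
  have hr := g1_cont_rad hy hz hpos
  unfold g1_bm
  refine ContinuousOn.add (Complex.continuous_ofReal.comp_continuousOn ?_)
    ((Complex.continuous_ofReal.comp_continuousOn hyj).mul continuousOn_const)
  refine ((h3.div (continuousOn_const.mul h1) ?_).mul hyj).add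
    ((Real.continuous_sqrt.comp_continuousOn hr).mul hνj)
  intro x hx
  exact mul_ne_zero two_ne_zero (hpos x hx)

private lemma g1_bm_mem (P : Sc d μ w) {g : ℝ} (hg : 3 / 2 * P.G ≤ g) {y₀ y ν : Fin d → ℝ} {z : ℂ}
    (hy : y ∈ Pc P g y₀) (hν : ν ∈ g1_S y) (hz : ‖z - (μ - w 0)‖ ≤ 1 / 2) :
    g1_bm y ν z ∈ g1_B P g y₀ := by
  have hΛ := P.hΛ
  have hY : 0 < dr y y := lt_of_lt_of_le (by positivity) (g1_big P hg hy)
  refine ⟨?_, ?_⟩
  · rw [g1_im_bm]; exact hy
  · rw [g1_bil_bm hY (g1_rad_pos P hg hy hz).le hν.1 hν.2]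
    exact hz

/-- the normalised projection of the first unit vector -/
private def g1_nu (i : Fin d) (y : Fin d → ℝ) : Fin d → ℝ := fun j =>
  (Real.sqrt (1 - y i ^ 2 / dr y y))⁻¹ * ((if j = i then 1 else 0) - y i / dr y y * y j)

private lemma g1_nu_mem {i : Fin d} {y : Fin d → ℝ} (hy : y i ^ 2 < dr y y) : g1_nu i y ∈ g1_S y := by
  have hY : 0 < dr y y := lt_of_le_of_lt (sq_nonneg _) hy
  have h0 : 0 < 1 - y i ^ 2 / dr y y := by
    rw [sub_pos, div_lt_one hY]; exact hy
  set e : Fin d → ℝ := fun j => if j = i then 1 else 0 with he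
  have hee : dr e e = 1 := by
    unfold dr; simp [he]
  have hye : dr y e = y i := by
    unfold dr; simp [he]
  set S := Real.sqrt (1 - y i ^ 2 / dr y y) with hS
  have hS2 : S ^ 2 = 1 - y i ^ 2 / dr y y := Real.sq_sqrt h0.le
  have hSp : 0 < S := Real.sqrt_pos.2 h0
  have h1 : g1_nu i y = fun j => S⁻¹ * e j + (-(S⁻¹ * (y i / dr y y))) * y j := by
    ext j
    simp only [g1_nu, ← hS, he]
    ring
  constructor
  · rw [h1, g1_dr_sq, hee, g1_dr_comm e y, hye]
    have h2 : S⁻¹ ^ 2 * (1 - y i ^ 2 / dr y y) = 1 := by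
      rw [← hS2, ← mul_pow, inv_mul_cancel₀ hSp.ne', one_pow]
    calc S⁻¹ ^ 2 * 1 + 2 * S⁻¹ * (-(S⁻¹ * (y i / dr y y))) * y i + (-(S⁻¹ * (y i / dr y y))) ^ 2 * dr y y
        = S⁻¹ ^ 2 * (1 - y i ^ 2 / dr y y) := by
          field_simp
          ring
      _ = 1 := h2
  · rw [h1, g1_dr_lin', hye]
    field_simp
    ring

private lemma g1_cont_nu {X : Type} [TopologicalSpace X] {s : Set X} {y : X → (Fin d → ℝ)} (i : Fin d)
    (hy : ContinuousOn y s) (hpos : ∀ x ∈ s, (y x i) ^ 2 < dr (y x) (y x)) :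
    ContinuousOn (fun x => g1_nu i (y x)) s := by
  rw [continuousOn_pi]
  intro j
  have h1 : ContinuousOn (fun x => dr (y x) (y x)) s := g1_cont_dr.comp_continuousOn (hy.prodMk hy)
  have hyj : ContinuousOn (fun x => y x j) s := (continuous_apply j).comp_continuousOn hy
  have hyi : ContinuousOn (fun x => y x i) s := (continuous_apply i).comp_continuousOn hy
  have hne : ∀ x ∈ s, dr (y x) (y x) ≠ 0 := fun x hx => (lt_of_le_of_lt (sq_nonneg _) (hpos x hx)).ne'
  unfold g1_nu
  refine ContinuousOn.mul (ContinuousOn.inv₀ (Real.continuous_sqrt.comp_continuousOn ?_) ?_) ?_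
  · exact continuousOn_const.sub ((hyi.pow 2).div h1 hne)
  · intro x hx
    have hY : 0 < dr (y x) (y x) := lt_of_le_of_lt (sq_nonneg _) (hpos x hx)
    apply (Real.sqrt_pos.2 _).ne'
    rw [sub_pos, div_lt_one hY]; exact hpos x hx
  · exact continuousOn_const.sub ((hyi.div h1 hne).mul hyj)

private lemma g1_i_lt (P : Sc d μ w) {g : ℝ} (hg : 3 / 2 * P.G ≤ g) {y₀ y : Fin d → ℝ}
    (hy : y ∈ Pc P g y₀) {i j : Fin d} (hij : i ≠ j) : y i ^ 2 < dr y y := by
  have hΛ := P.hΛ
  have h1 := g1_coord P hy j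
  have h2 := g1_dr_ge2 y hij
  have hG : 0 < P.G := by
    have : P.G = P.Λ ^ 5 := rfl
    rw [this]; positivity
  have h3 : y j ≠ 0 := by
    intro h
    rw [h] at h1
    simp at h1
    linarith
  have : 0 < y j ^ 2 := by positivity
  linarith

/-- from a point to the standard point over the same `y` -/
private lemma g1_join_std (P : Sc d μ w) {g : ℝ} (hg : 3 / 2 * P.G ≤ g) {y₀ : Fin d → ℝ} {p : Cd d}
    (hp : p ∈ g1_B P g y₀) {i j : Fin d} (hij : i ≠ j) :
    JoinedIn (g1_B P g y₀) p (g1_bm (im p) (g1_nu i (im p)) (μ - w 0)) := by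
  have hΛ := P.hΛ
  set y := im p with hy
  set x := re p with hx
  set z := bil p p with hz
  have hyP : y ∈ Pc P g y₀ := hp.1
  have hY : 0 < dr y y := lt_of_lt_of_le (by positivity) (g1_big P hg hyP)
  have hrad := g1_rad_pos P hg hyP hp.2
  have hzre : z.re = dr x x - dr y y := by
    rw [hz, g1_bil]; simp [hx, hy]
  have hzim : z.im = 2 * dr x y := by
    rw [hz, g1_bil]; simp [hx, hy]
  set α := z.im / (2 * dr y y) with hα
  have hαY : α * dr y y = dr x y := by
    rw [hα, hzim]; field_simp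
  have hradx : g1_rad y z = dr x x - α ^ 2 * dr y y := by
    unfold g1_rad
    rw [← hα, hzre]; ring
  set ρ := Real.sqrt (g1_rad y z) with hρ
  have hρp : 0 < ρ := Real.sqrt_pos.2 hrad
  have hρ2 : ρ ^ 2 = g1_rad y z := Real.sq_sqrt hrad.le
  set ν : Fin d → ℝ := fun j => ρ⁻¹ * x j + (-(ρ⁻¹ * α)) * y j with hν
  have hνS : ν ∈ g1_S y := by
    constructor
    · rw [hν, g1_dr_sq]
      have h1 : ρ⁻¹ ^ 2 * (dr x x - α ^ 2 * dr y y) = 1 := by
        rw [← hradx, ← hρ2, ← mul_pow, inv_mul_cancel₀ hρp.ne', one_pow]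
      rw [← h1, ← hαY]; ring
    · rw [hν, g1_dr_lin', g1_dr_comm y x, ← hαY]; ring
  have hpb : g1_bm y ν z = p := by
    ext k
    unfold g1_bm
    rw [← hα, ← hρ]
    have h1 : α * y k + ρ * ν k = x k := by
      simp only [hν]
      field_simp
      ring
    rw [h1]
    exact Complex.re_add_im (p k)
  have hnuS : g1_nu i y ∈ g1_S y := g1_nu_mem (g1_i_lt P hg hyP hij)
  -- first step: move `z`
  have h1 : JoinedIn (g1_B P g y₀) p (g1_bm y ν (μ - w 0)) := by
    refine JoinedIn.ofLine (f := fun t => g1_bm y ν (z + (t : ℂ) * ((μ - w 0) - z))) ?_ ?_ ?_ ?_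
    · refine g1_cont_bm continuousOn_const continuousOn_const ?_ (fun _ _ => hY.ne')
      exact (by fun_prop : Continuous fun t : ℝ => z + (t : ℂ) * ((μ - w 0) - z)).continuousOn
    · simp [hpb]
    · simp
    · rintro _ ⟨t, ht, rfl⟩
      refine g1_bm_mem P hg hyP hνS ?_
      have h2 : z + (t : ℂ) * ((μ - w 0) - z) - (μ - w 0) = ((1 - t : ℝ) : ℂ) * (z - (μ - w 0)) := by
        push_cast; ring
      rw [h2, norm_mul, Complex.norm_real, Real.norm_eq_abs, abs_of_nonneg (by linarith [ht.2])]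
      have h3 := hp.2
      have h4 := norm_nonneg (z - (μ - w 0))
      have h5 := ht.1
      nlinarith
  -- second step: rotate
  have h2 : JoinedIn (g1_B P g y₀) (g1_bm y ν (μ - w 0)) (g1_bm y (g1_nu i y) (μ - w 0)) := by
    obtain ⟨γ, hγ⟩ := g1_joinS P.hd hνS hnuS
    refine JoinedIn.ofLine (f := fun t => g1_bm y (γ.extend t) (μ - w 0)) ?_ ?_ ?_ ?_
    · exact g1_cont_bm continuousOn_const γ.continuous_extend.continuousOn continuousOn_const
        (fun _ _ => hY.ne')
    · simp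
    · simp
    · rintro _ ⟨t, ht, rfl⟩
      refine g1_bm_mem P hg hyP ?_ (by simp)
      rw [Path.extend_apply γ ht]
      exact hγ _
  exact h1.trans h2

private lemma g1_join_y (P : Sc d μ w) {g : ℝ} (hg : 3 / 2 * P.G ≤ g) {y₀ y y' : Fin d → ℝ}
    (hy : y ∈ Pc P g y₀) (hy' : y' ∈ Pc P g y₀) {i j : Fin d} (hij : i ≠ j) :
    JoinedIn (g1_B P g y₀) (g1_bm y (g1_nu i y) (μ - w 0)) (g1_bm y' (g1_nu i y') (μ - w 0)) := by
  have hΛ := P.hΛ
  set f : ℝ → (Fin d → ℝ) := fun t => (1 - t) • y + t • y' with hf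
  have hfc : Continuous f := by rw [hf]; fun_prop
  have hmem : ∀ t ∈ Icc (0 : ℝ) 1, f t ∈ Pc P g y₀ := by
    intro t ht
    exact convex_Pc P g y₀ hy hy' (by linarith [ht.2]) ht.1 (by ring)
  refine JoinedIn.ofLine (f := fun t => g1_bm (f t) (g1_nu i (f t)) (μ - w 0)) ?_ ?_ ?_ ?_
  · refine g1_cont_bm hfc.continuousOn (g1_cont_nu i hfc.continuousOn ?_) continuousOn_const ?_
    · intro t ht; exact g1_i_lt P hg (hmem t ht) hij
    · intro t ht
      exact (lt_of_lt_of_le (by positivity) (g1_big P hg (hmem t ht))).ne'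
  · simp [hf]
  · simp [hf]
  · rintro _ ⟨t, ht, rfl⟩
    exact g1_bm_mem P hg (hmem t ht) (g1_nu_mem (g1_i_lt P hg (hmem t ht) hij)) (by simp)

/-- all base points over one chamber have the same class -/
theorem conn_Pc (hE : Eff P E) (D : Decomp (FS μ w) A B) {g : ℝ} (hg : 3 / 2 * P.G ≤ g)
    {y₀ : Fin d → ℝ} {p p' : Cd d} (hp : Base P E p) (hp' : Base P E p')
    (hy : im p ∈ Pc P g y₀) (hy' : im p' ∈ Pc P g y₀) : CC P E A p ↔ CC P E A p' := by
  have hd := P.hd
  have hB : ∀ p : Cd d, Base P E p → im p ∈ Pc P g y₀ → p ∈ g1_B P g y₀ := by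
    intro p hp hy
    refine ⟨hy, ?_⟩
    have := hp.2.2
    rw [g1_q0] at this
    have h3 : bil p p - μ + w 0 = bil p p - (μ - w 0) := by ring
    rwa [h3] at this
  have hij : (⟨0, by omega⟩ : Fin d) ≠ ⟨1, by omega⟩ := by
    intro h
    have := congrArg Fin.val h
    simp at this
  have hreg : ∀ b ∈ g1_B P g y₀, Regular P (pm E b) := fun b hb =>
    regular_near_Pc hg hb.1 (pm_near P hE (g1_thick P hg hb))
  have hend : ∀ p : Cd d, Base P E p → im p ∈ Pc P g y₀ → (CC P E A p ↔ CC P E A (pm E p)) :=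
    fun p hp hy => CC_pm P hE D hp (g1_thick P hg (hB p hp hy)) (hreg p (hB p hp hy))
  obtain ⟨γ, hγ⟩ : JoinedIn (g1_B P g y₀) p p' :=
    ((g1_join_std P hg (hB p hp hy) hij).trans (g1_join_y P hg hy hy' hij)).trans
      (g1_join_std P hg (hB p' hp' hy') hij).symm
  have hmem : ∀ t ∈ Icc (0 : ℝ) 1, γ.extend t ∈ g1_B P g y₀ := by
    intro t ht
    rw [Path.extend_apply γ ht]
    exact hγ _
  have hpath := CC_path P hE D (fun t => γ.extend t) γ.continuous_extend.continuousOn
    (fun t ht => g1_thick P hg (hmem t ht)) (fun t ht => hreg _ (hmem t ht))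
  simp only [Path.extend_zero, Path.extend_one] at hpath
  rw [hend p hp hy, hend p' hp' hy']
  exact hpath

end Fermi
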