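import Pool.Agent.Lib.Fermi.Class

/-!
# Definitions of the geometric part
-/

open scoped BigOperators Topology
open Set Filter

noncomputable section

namespace Fermi

variable {d : ℕ} {μ : ℂ} {w : Zd d → ℂ}

namespace Sc
variable (P : Sc d μ w)
/-- half length of the strips in the direction of a slab vector -/
def T1 : ℝ := P.Λ ^ 7
/-- half length of the strips in the direction `e` -/
def T2 : ℝ := P.Λ ^ 22
/-- the line of imaginary parts is `tt • a + σ • e` -/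
def tt : ℝ := P.Λ ^ 20
end Sc

/-- two integer directions in general position with respect to all small lattice vectors -/
structure Dirs (P : Sc d μ w) where
  e : Zd d
  a : Zd d
  he : ∀ l : Zd d, l ≠ 0 → ‖l‖ ≤ P.L → di e l ≠ 0
  hea : ∀ l l' : Zd d, l ≠ 0 → ‖l‖ ≤ P.L → l' ≠ 0 → ‖l'‖ ≤ P.L →
    di e l * di a l' = di e l' * di a l → ∃ i j : ℤ, i ≠ 0 ∧ j ≠ 0 ∧ i • l = j • l'
  be : ∀ l : Zd d, ‖l‖ ≤ P.L → |(di e l : ℝ)| ≤ P.Λ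
  ba : ∀ l : Zd d, ‖l‖ ≤ P.L → |(di a l : ℝ)| ≤ P.Λ
  ne : (di e e : ℝ) ≤ P.Λ
  na : (di a a : ℝ) ≤ P.Λ
  ned : ∀ l : Zd d, ‖l‖ ≤ P.L →
    (di (di e l • a - di a l • e) (di e l • a - di a l • e) : ℝ) ≤ P.Λ

namespace Dirs
variable {P : Sc d μ w} (Q : Dirs P)
/-- the vector `e'` of `l`, orthogonal to `l` -/
def ed (l : Zd d) : Zd d := di Q.e l • Q.a - di Q.a l • Q.e
/-- the line of imaginary parts -/
def yl (σ : ℝ) : Fin d → ℝ := fun j => P.tt * (Q.a j : ℝ) + σ * (Q.e j : ℝ)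
/-- the point of the line orthogonal to `l` -/
def yc (l : Zd d) : Fin d → ℝ := fun j => P.tt / (di Q.e l : ℝ) * (Q.ed l j : ℝ)
end Dirs

/-- a convex piece of the set of good imaginary parts: the chamber of `y₀` at level `g` -/
def Pc (P : Sc d μ w) (g : ℝ) (y₀ : Fin d → ℝ) : Set (Fin d → ℝ) :=
  {y | g ^ 2 * dr y y ≤ P.G ^ 2 * P.R ^ 2 ∧
    ∀ l : Zd d, l ≠ 0 → ‖l‖ ≤ P.L → g ≤ |2 * dt y l| ∧ 0 < dt y l * dt y₀ l}

/-- the union of the chambers met by the line -/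
def PP (P : Sc d μ w) (Q : Dirs P) (g : ℝ) : Set (Fin d → ℝ) :=
  {y | ∃ σ : ℝ, |σ| ≤ 2 * P.T2 ∧ y ∈ Pc P g (Q.yl σ)}

/-- Thomas points for the slab vector `l` -/
def Th (P : Sc d μ w) (Q : Dirs P) (l : Zd d) (k : Cd d) : Prop :=
  ∃ σ : ℝ, |σ| ≤ P.T1 ∧ (∀ j, im k j = Q.yc l j + σ * (l j : ℝ)) ∧
    ∃ z : ℤ, dt (re k) (Q.ed l) = z + 1 / 2

/-- all lattice points on the line through `l` are multiples of `l` -/
def Prim (l : Zd d) : Prop :=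
  l ≠ 0 ∧ ∀ m : Zd d, (∃ i j : ℤ, i ≠ 0 ∧ i • m = j • l) → ∃ k : ℤ, m = k • l

/-- crossing of the slab of `l` -/
def CrossAt (P : Sc d μ w) (Q : Dirs P) (E : Cd d → ℂ) (l : Zd d) : Prop :=
  ∃ p₁ p₂ : Cd d, Base P E p₁ ∧ Base P E p₂ ∧
    im p₁ ∈ Pc P (3 / 2 * P.G) (fun j => Q.yc l j - P.T1 * (l j : ℝ)) ∧
    im p₂ ∈ Pc P (3 / 2 * P.G) (fun j => Q.yc l j + P.T1 * (l j : ℝ)) ∧
    ∀ A B, Decomp (FS μ w) A B → (CC P E A p₁ ↔ CC P E A p₂)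

/-- crossing is possible for every scale with sufficiently small decoupling error -/
def CrossStmt (d : ℕ) : Prop :=
  ∀ cc : ℝ, ∃ p₀ : ℕ, ∀ (μ : ℂ) (w : Zd d → ℂ) (P : Sc d μ w) (Q : Dirs P), P.c ≤ cc → p₀ ≤ P.p →
    p₀ ≤ P.L → ∀ l : Zd d, Prim l → ‖l‖ ≤ P.L → CrossAt P Q (Ehat P) l

end Fermi
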