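import Pool.Agent.Lib.Fermi.GeoConn
import Pool.Agent.Lib.Fermi.GeoAux

/-!
# Chunk H: gluing along the line

`dt (yl σ) l = di e l (σ - sg l)` with `sg l = -tt di a l/di e l`; `yc l = yl (sg l)`; `sg l ≠ sg l'` for nonparallel `l, l'` (`hea`).
`Pc g y₀` only depends on the signs of `dt y₀ l`. Induction on the number of primitive `l` (`‖l‖ ≤ L`) separating `yl σ` and `yl σ'`:
none: `conn_Pc`. Otherwise (σ < σ') take a separating `l` with smallest `sg l`, and `σ₁` slightly larger than `sg l` (no other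
crossing in `(sg l, σ₁]`); `CrossAt` for `l` connects the chamber of `yl σ` (signs of `yc l ∓ T1 l`) with the chamber of `yl σ₁`.
Existence of a base point over the new chamber is part of `CrossAt`.
-/

open scoped BigOperators Topology
open Set Filter

noncomputable section

namespace Fermi

variable {d : ℕ} {μ : ℂ} {w : Zd d → ℂ}
variable {P : Sc d μ w} {Q : Dirs P} {E : Cd d → ℂ} {A B : Set (Cd d)}


lemma h_Pc_congr {g : ℝ} {y₀ y₁ y : Fin d → ℝ}
    (h : ∀ l : Zd d, l ≠ 0 → ‖l‖ ≤ P.L → 0 < dt y₁ l * dt y₀ l) (hy : y ∈ Pc P g y₁) :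
    y ∈ Pc P g y₀ := by
  refine ⟨hy.1, fun l hl hL => ⟨(hy.2 l hl hL).1, ?_⟩⟩
  have h1 := h l hl hL
  have h2 := (hy.2 l hl hL).2
  have h3 := mul_pos h1 h2
  have h4 : dt y₁ l * dt y₀ l * (dt y l * dt y₁ l) = dt y₁ l ^ 2 * (dt y l * dt y₀ l) := by ring
  rw [h4] at h3
  exact (pos_iff_pos_of_mul_pos h3).mp (by
    rcases eq_or_ne (dt y₁ l) 0 with h0 | h0
    · rw [h0] at h1; simp at h1
    · positivity)

/-- small lattice vectors form a finite set -/
lemma h_fin (P : Sc d μ w) : {l : Zd d | l ≠ 0 ∧ ‖l‖ ≤ P.L}.Finite := by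
  refine (Set.finite_Icc (fun _ : Fin d => -(P.L : ℤ)) (fun _ => (P.L : ℤ))).subset ?_
  rintro l ⟨-, hl⟩
  have h1 : ∀ j, |(l j : ℝ)| ≤ P.L := fun j => (ga_abs_le_norm l j).trans hl
  have h2 : ∀ j, |l j| ≤ (P.L : ℤ) := fun j => by exact_mod_cast h1 j
  exact ⟨fun j => (abs_le.mp (h2 j)).1, fun j => (abs_le.mp (h2 j)).2⟩

lemma h_step (hC : ∀ l : Zd d, Prim l → ‖l‖ ≤ P.L → CrossAt P Q E l) {l : Zd d} (hl : Prim l)
    (hL : ‖l‖ ≤ P.L) {σ σ₁ : ℝ} (h1 : σ < sg Q l) (h2 : sg Q l < σ₁)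
    (h3 : ∀ l' : Zd d, l' ≠ 0 → ‖l'‖ ≤ P.L → sg Q l' ≠ sg Q l →
      0 < (σ - sg Q l') * (sg Q l - sg Q l'))
    (h4 : ∀ l' : Zd d, l' ≠ 0 → ‖l'‖ ≤ P.L → sg Q l' ≠ sg Q l →
      0 < (σ₁ - sg Q l') * (sg Q l - sg Q l')) :
    ∃ pa pb : Cd d, Base P E pa ∧ Base P E pb ∧ im pa ∈ Pc P (3 / 2 * P.G) (Q.yl σ) ∧
      im pb ∈ Pc P (3 / 2 * P.G) (Q.yl σ₁) ∧
      ∀ A B, Decomp (FS μ w) A B → (CC P E A pa ↔ CC P E A pb) := by
  obtain ⟨p₁, p₂, b1, b2, i1, i2, hcc⟩ := hC l hl hL
  have hl0 := hl.1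
  have hG0 : |sg Q l - sg Q l| ≤ P.G := by
    rw [sub_self, abs_zero]; exact (ga_G_pos P).le
  have he := Q.he l hl0 hL
  have eqm : (fun j => Q.yc l j - P.T1 * (l j : ℝ)) =
      fun j => Q.yl (sg Q l) j + (-1) * P.T1 * (l j : ℝ) := by
    funext j; rw [ga_yc Q hl0 hL]; ring
  have eqp : (fun j => Q.yc l j + P.T1 * (l j : ℝ)) =
      fun j => Q.yl (sg Q l) j + 1 * P.T1 * (l j : ℝ) := by
    funext j; rw [ga_yc Q hl0 hL]; ring
  rw [eqm] at i1
  rw [eqp] at i2
  rcases lt_or_gt_of_ne he with hneg | hpos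
  · have hneg' : (di Q.e l : ℝ) < 0 := by exact_mod_cast hneg
    refine ⟨p₂, p₁, b2, b1, ?_, ?_, fun A B D => (hcc A B D).symm⟩
    · exact h_Pc_congr (fun l' hl' hL' => (ga_cross Q hl0 hL (Or.inl rfl) hG0
        (by rw [one_mul]; exact mul_pos_of_neg_of_neg hneg' (by linarith)) h3 hl' hL').2) i2
    · exact h_Pc_congr (fun l' hl' hL' => (ga_cross Q hl0 hL (Or.inr rfl) hG0
        (by nlinarith) h4 hl' hL').2) i1
  · have hpos' : (0 : ℝ) < (di Q.e l : ℝ) := by exact_mod_cast hpos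
    refine ⟨p₁, p₂, b1, b2, ?_, ?_, hcc⟩
    · exact h_Pc_congr (fun l' hl' hL' => (ga_cross Q hl0 hL (Or.inr rfl) hG0
        (by nlinarith) h3 hl' hL').2) i1
    · exact h_Pc_congr (fun l' hl' hL' => (ga_cross Q hl0 hL (Or.inl rfl) hG0
        (by rw [one_mul]; exact mul_pos hpos' (by linarith)) h4 hl' hL').2) i2

lemma h_generic {g : ℝ} {y : Fin d → ℝ} {σ : ℝ} (hy : y ∈ Pc P g (Q.yl σ)) {l : Zd d} (hl : l ≠ 0)
    (hL : ‖l‖ ≤ P.L) : σ ≠ sg Q l := by
  intro h
  have h1 := (hy.2 l hl hL).2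
  rw [ga_dt_yl' Q σ hl hL, h, sub_self, mul_zero, mul_zero] at h1
  exact lt_irrefl _ h1

open scoped Classical in
lemma h_aux (hE : Eff P E) (D : Decomp (FS μ w) A B)
    (hC : ∀ l : Zd d, Prim l → ‖l‖ ≤ P.L → CrossAt P Q E l) (V : Finset ℝ)
    (hV : ∀ v, v ∈ V ↔ ∃ l : Zd d, l ≠ 0 ∧ ‖l‖ ≤ P.L ∧ sg Q l = v) :
    ∀ (n : ℕ) (σ σ' : ℝ) (p p' : Cd d), σ ≤ σ' →
      (V.filter (fun v => σ < v ∧ v < σ')).card = n → Base P E p → Base P E p' →
      im p ∈ Pc P (3 / 2 * P.G) (Q.yl σ) → im p' ∈ Pc P (3 / 2 * P.G) (Q.yl σ') →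
      (CC P E A p ↔ CC P E A p') := by
  intro n
  induction n using Nat.strong_induction_on with
  | _ n ih =>
    intro σ σ' p p' hσ hn hp hp' hy hy'
    by_cases hne : (V.filter (fun v => σ < v ∧ v < σ')).Nonempty
    · -- first crossing
      set v := (V.filter (fun v => σ < v ∧ v < σ')).min' hne with hv
      have hvmem := Finset.min'_mem _ hne
      rw [← hv, Finset.mem_filter] at hvmem
      obtain ⟨l, hl, hL, hlv⟩ := (hV v).mp hvmem.1
      obtain ⟨l₀, hprim, hn0, k, hk, hlk⟩ := ga_prim hl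
      have hL₀ : ‖l₀‖ ≤ P.L := hn0.trans hL
      have hsg₀ : sg Q l₀ = v := by
        rw [← hlv]
        refine ga_par_sg Q hl hL hprim.1 hL₀ ?_
        rw [hlk, ga_di_smul_right, ga_di_smul_right]
        ring
      -- next generic parameter
      have hWne : (insert σ' (V.filter (fun u => v < u))).Nonempty := Finset.insert_nonempty _ _
      set m := (insert σ' (V.filter (fun u => v < u))).min' hWne with hm
      have hvm : v < m := by
        have hmm := Finset.min'_mem _ hWne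
        rw [← hm, Finset.mem_insert, Finset.mem_filter] at hmm
        rcases hmm with h | h
        · rw [h]; exact hvmem.2.2
        · exact h.2
      have hmσ : m ≤ σ' := Finset.min'_le _ _ (Finset.mem_insert_self _ _)
      have hmV : ∀ u ∈ V, v < u → m ≤ u := fun u hu hvu => Finset.min'_le _ _
        (Finset.mem_insert_of_mem (Finset.mem_filter.mpr ⟨hu, hvu⟩))
      set σ₁ := (v + m) / 2 with hσ₁
      have h1 : v < σ₁ := by rw [hσ₁]; linarith
      have h2 : σ₁ < m := by rw [hσ₁]; linarith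
      have hstep := h_step (E := E) hC hprim hL₀ (σ := σ) (σ₁ := σ₁) (by rw [hsg₀]; exact hvmem.2.1)
        (by rw [hsg₀]; exact h1) (by
          intro l' hl' hL' hne'
          rw [hsg₀] at hne' ⊢
          have hmem : sg Q l' ∈ V := (hV _).mpr ⟨l', hl', hL', rfl⟩
          have hgen := h_generic hy hl' hL'
          rcases lt_trichotomy (sg Q l') σ with h | h | h
          · exact mul_pos (by linarith) (by linarith [hvmem.2.1])
          · exact absurd h.symm hgen
          · have : v < sg Q l' := by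
              rcases lt_trichotomy (sg Q l') v with h' | h' | h'
              · exfalso
                have h5 : sg Q l' ∈ V.filter (fun v => σ < v ∧ v < σ') :=
                  Finset.mem_filter.mpr ⟨hmem, h, h'.trans hvmem.2.2⟩
                have := Finset.min'_le _ _ h5
                rw [← hv] at this
                linarith
              · exact absurd h' hne'
              · exact h'
            exact mul_pos_of_neg_of_neg (by linarith) (by linarith)) (by
          intro l' hl' hL' hne'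
          rw [hsg₀] at hne' ⊢
          have hmem : sg Q l' ∈ V := (hV _).mpr ⟨l', hl', hL', rfl⟩
          rcases lt_or_gt_of_ne hne' with h | h
          · exact mul_pos (by linarith) (by linarith)
          · have := hmV _ hmem h
            exact mul_pos_of_neg_of_neg (by linarith) (by linarith))
      obtain ⟨pa, pb, ba, bb, ia, ib, hab⟩ := hstep
      rw [conn_Pc hE D le_rfl hp ba hy ia, hab A B D]
      refine ih _ ?_ σ₁ σ' pb p' (by linarith) rfl bb hp' ib hy'
      rw [← hn]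
      apply Finset.card_lt_card
      refine ⟨fun u hu => ?_, fun hsub => ?_⟩
      · rw [Finset.mem_filter] at hu ⊢
        exact ⟨hu.1, by linarith [hvmem.2.1, hu.2.1], hu.2.2⟩
      · have := hsub (Finset.mem_filter.mpr hvmem)
        rw [Finset.mem_filter] at this
        linarith [this.2.1]
    · -- same chamber
      rw [Finset.not_nonempty_iff_eq_empty] at hne
      have hsame : im p' ∈ Pc P (3 / 2 * P.G) (Q.yl σ) := by
        refine h_Pc_congr (fun l hl hL => ?_) hy'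
        have hg1 := h_generic hy hl hL
        have hg2 := h_generic hy' hl hL
        have hmem : sg Q l ∈ V := (hV _).mpr ⟨l, hl, hL, rfl⟩
        rw [ga_dt_yl' Q _ hl hL, ga_dt_yl' Q _ hl hL]
        have h1 : (1 : ℝ) ≤ |(di Q.e l : ℝ)| := ga_di_e_one Q hl hL
        have h2 : (di Q.e l : ℝ) ≠ 0 := by
          intro h0; rw [h0, abs_zero] at h1; linarith
        have h3 : (di Q.e l : ℝ) * (σ' - sg Q l) * ((di Q.e l : ℝ) * (σ - sg Q l)) =
            (di Q.e l : ℝ) ^ 2 * ((σ' - sg Q l) * (σ - sg Q l)) := by ring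
        rw [h3]
        refine mul_pos (by positivity) ?_
        rcases lt_or_gt_of_ne hg1 with h | h
        · rcases lt_or_gt_of_ne hg2 with h' | h'
          · exact mul_pos_of_neg_of_neg (by linarith) (by linarith)
          · exfalso
            have h5 : sg Q l ∈ V.filter (fun v => σ < v ∧ v < σ') :=
              Finset.mem_filter.mpr ⟨hmem, h, h'⟩
            rw [hne] at h5
            simp at h5
        · exact mul_pos (by linarith) (by linarith)
      exact conn_Pc hE D le_rfl hp hp' hy hsame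

/-- all base points over the chambers met by the line have the same class -/
theorem glue (hE : Eff P E) (D : Decomp (FS μ w) A B)
    (hC : ∀ l : Zd d, Prim l → ‖l‖ ≤ P.L → CrossAt P Q E l) {p p' : Cd d}
    (hp : Base P E p) (hp' : Base P E p') (hy : im p ∈ PP P Q (3 / 2 * P.G))
    (hy' : im p' ∈ PP P Q (3 / 2 * P.G)) : CC P E A p ↔ CC P E A p' := by
  classical
  obtain ⟨σ, -, hσ⟩ := hy
  obtain ⟨σ', -, hσ'⟩ := hy'
  set V : Finset ℝ := ((h_fin P).image (sg Q)).toFinset with hVd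
  have hV : ∀ v, v ∈ V ↔ ∃ l : Zd d, l ≠ 0 ∧ ‖l‖ ≤ P.L ∧ sg Q l = v := by
    intro v
    rw [hVd, Set.Finite.mem_toFinset, Set.mem_image]
    constructor
    · rintro ⟨l, ⟨h1, h2⟩, h3⟩
      exact ⟨l, h1, h2, h3⟩
    · rintro ⟨l, h1, h2, h3⟩
      exact ⟨l, ⟨h1, h2⟩, h3⟩
  rcases le_total σ σ' with h | h
  · exact h_aux hE D hC V hV _ σ σ' p p' h rfl hp hp' hσ hσ'
  · exact (h_aux hE D hC V hV _ σ' σ p' p h rfl hp' hp hσ' hσ).symm

end Fermi
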