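import Pool.Agent.Lib.Fermi.Defs

/-!
# Chunk B: elementary pigeonhole lemmas
-/

open scoped BigOperators Topology
open Set Filter

noncomputable section

namespace Fermi

variable {d : ℕ}

/-- A direction transversal to finitely many linear forms. -/
theorem exists_dir {ι : Type*} (I : Finset ι) (b : ι → Cd d) (hb : ∀ i ∈ I, 1 ≤ ‖b i‖) :
    ∃ v : Cd d, ‖v‖ ≤ 1 ∧ (∀ j, (v j).im = 0) ∧
      ∀ i ∈ I, 1 / (2 * ((I.card : ℝ) + 1)) ≤ ‖bil (b i) v‖ := by
  classical
  set N := I.card with hN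
  -- the grid
  let V : (Fin d → Fin (N + 1)) → Cd d := fun x j => (((x j : ℕ) : ℝ) / (N + 1) : ℝ)
  have hNp : (0 : ℝ) < (N : ℝ) + 1 := by positivity
  have hcoord : ∀ i ∈ I, ∃ j, 1 ≤ ‖b i j‖ := by
    intro i hi
    by_contra hcon
    push Not at hcon
    have h1 := hb i hi
    rcases isEmpty_or_nonempty (Fin d) with he | he
    · have : b i = 0 := Subsingleton.elim _ _
      rw [this, norm_zero] at h1
      linarith
    · have : ‖b i‖ < 1 := by
        rw [pi_norm_lt_iff zero_lt_one]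
        exact hcon
      linarith
  let bad : ι → Finset (Fin d → Fin (N + 1)) := fun i =>
    Finset.univ.filter (fun x => ‖bil (b i) (V x)‖ < 1 / (2 * ((N : ℝ) + 1)))
  have hbad : ∀ i ∈ I, (N + 1) * (bad i).card ≤ Fintype.card (Fin d → Fin (N + 1)) := by
    intro i hi
    obtain ⟨j, hj⟩ := hcoord i hi
    have h1 : ((Finset.univ : Finset (Fin (N + 1))) ×ˢ bad i).card ≤
        (Finset.univ : Finset (Fin d → Fin (N + 1))).card := by
      apply Finset.card_le_card_of_injOn (fun p => Function.update p.2 j p.1)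
      · intro _ _; exact Finset.mem_coe.mpr (Finset.mem_univ _)
      · rintro ⟨x, y⟩ hx ⟨x', y'⟩ hx' he
        simp only at he
        rw [Finset.mem_coe, Finset.mem_product] at hx hx'
        have e1 : x = x' := by
          have := congrFun he j
          simpa using this
        have e2 : ∀ j', j' ≠ j → y j' = y' j' := by
          intro j' hj'
          have := congrFun he j'
          simpa [Function.update_of_ne hj'] using this
        have e3 : y j = y' j := by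
          by_contra hne
          have hy := (Finset.mem_filter.mp hx.2).2
          have hy' := (Finset.mem_filter.mp hx'.2).2
          have e4 : bil (b i) (V y) - bil (b i) (V y') = b i j * (V y j - V y' j) := by
            unfold bil
            rw [← Finset.sum_sub_distrib, Finset.sum_eq_single j]
            · ring
            · intro j' _ hj'
              have : V y j' = V y' j' := by
                simp only [V, e2 j' hj']
              rw [this]; ring
            · intro h; exact absurd (Finset.mem_univ _) h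
          have e5 : 1 / ((N : ℝ) + 1) ≤ ‖V y j - V y' j‖ := by
            have e6 : V y j - V y' j = (((((y j : ℕ) : ℝ) - ((y' j : ℕ) : ℝ)) / (N + 1) : ℝ) : ℂ) := by
              simp only [V]
              push_cast
              ring
            rw [e6, Complex.norm_real, Real.norm_eq_abs, abs_div, abs_of_pos hNp]
            apply div_le_div_of_nonneg_right _ hNp.le
            have h7 : ((y j : ℕ) : ℤ) - ((y' j : ℕ) : ℤ) ≠ 0 := by
              intro h
              apply hne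
              apply Fin.ext
              omega
            have h8 := Int.one_le_abs h7
            have h9 : ((1 : ℤ) : ℝ) ≤ ((|((y j : ℕ) : ℤ) - ((y' j : ℕ) : ℤ)| : ℤ) : ℝ) := by exact_mod_cast h8
            push_cast at h9
            exact h9
          have e7 : ‖b i j * (V y j - V y' j)‖ < 1 / ((N : ℝ) + 1) := by
            rw [← e4]
            refine lt_of_le_of_lt (norm_sub_le _ _) ?_
            have : 1 / ((N : ℝ) + 1) = 1 / (2 * ((N : ℝ) + 1)) + 1 / (2 * ((N : ℝ) + 1)) := by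
              field_simp
              ring
            rw [this]
            exact add_lt_add hy hy'
          rw [norm_mul] at e7
          have e8 : ‖V y j - V y' j‖ ≤ ‖b i j‖ * ‖V y j - V y' j‖ :=
            le_mul_of_one_le_left (norm_nonneg _) hj
          linarith
        have e4 : y = y' := by
          funext j'
          by_cases h : j' = j
          · rw [h]; exact e3
          · exact e2 j' h
        rw [e1, e4]
    rw [Finset.card_product, Finset.card_univ, Fintype.card_fin, Finset.card_univ] at h1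
    exact h1
  have hex : ∃ x : Fin d → Fin (N + 1), ∀ i ∈ I, x ∉ bad i := by
    by_contra hcon
    push Not at hcon
    have h1 : (Finset.univ : Finset (Fin d → Fin (N + 1))) ⊆ I.biUnion bad := by
      intro x _
      obtain ⟨i, hi, hx⟩ := hcon x
      exact Finset.mem_biUnion.mpr ⟨i, hi, hx⟩
    have h2 := (Finset.card_le_card h1).trans Finset.card_biUnion_le
    rw [Finset.card_univ] at h2
    have h3 : (N + 1) * ∑ i ∈ I, (bad i).card ≤ N * Fintype.card (Fin d → Fin (N + 1)) := by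
      rw [Finset.mul_sum]
      refine (Finset.sum_le_sum hbad).trans (le_of_eq ?_)
      rw [Finset.sum_const, smul_eq_mul]
    have h4 : 0 < Fintype.card (Fin d → Fin (N + 1)) := Fintype.card_pos
    nlinarith
  obtain ⟨x, hx⟩ := hex
  refine ⟨V x, ?_, ?_, ?_⟩
  · rw [pi_norm_le_iff_of_nonneg zero_le_one]
    intro j
    simp only [V]
    rw [Complex.norm_real, Real.norm_eq_abs, abs_of_nonneg (by positivity), div_le_one hNp]
    have : (x j : ℕ) ≤ N + 1 := by have := (x j).isLt; omega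
    exact_mod_cast this
  · intro j
    exact Complex.ofReal_im _
  · intro i hi
    have h1 := hx i hi
    simp only [bad, Finset.mem_filter, Finset.mem_univ, true_and, not_lt] at h1
    exact h1

/-- A parameter avoiding finitely many sets of small diameter. -/
theorem exists_avoid {ι : Type*} (I : Finset ι) (bad : ι → Set ℝ) {δ ρ : ℝ} (hρ : 0 < ρ)
    (hδ : ∀ i ∈ I, ∀ x ∈ bad i, ∀ y ∈ bad i, |x - y| ≤ δ) (hN : (I.card : ℝ) * δ < ρ) :
    ∃ x ∈ Icc (0 : ℝ) ρ, ∀ i ∈ I, x ∉ bad i := by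
  classical
  rcases I.eq_empty_or_nonempty with hI | hI
  · exact ⟨0, ⟨le_rfl, hρ.le⟩, by simp [hI]⟩
  set N := I.card with hNdef
  have hN0 : 0 < N := Finset.card_pos.mpr hI
  have hNr : (0 : ℝ) < N := by exact_mod_cast hN0
  by_contra hcon
  push Not at hcon
  have h1 : ∀ j : Fin (N + 1), ∃ i ∈ I, ρ * (j : ℕ) / N ∈ bad i := by
    intro j
    apply hcon
    have hj : ((j : ℕ) : ℝ) ≤ N := by
      have := j.isLt
      exact_mod_cast (by omega : (j : ℕ) ≤ N)
    constructor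
    · positivity
    · rw [div_le_iff₀ hNr]
      exact mul_le_mul_of_nonneg_left hj hρ.le
  choose f hf hfb using h1
  obtain ⟨j, _, k, _, hjk, he⟩ := Finset.exists_ne_map_eq_of_card_lt_of_maps_to
    (s := (Finset.univ : Finset (Fin (N + 1)))) (t := I) (f := f)
    (by rw [Finset.card_univ, Fintype.card_fin]; omega) (fun j _ => hf j)
  have h2 := hδ (f j) (hf j) _ (hfb j) _ (he ▸ hfb k)
  have h3 : ρ / N ≤ |ρ * (j : ℕ) / N - ρ * (k : ℕ) / N| := by
    have e1 : ρ * (j : ℕ) / N - ρ * (k : ℕ) / N = (ρ / N) * (((j : ℕ) : ℝ) - ((k : ℕ) : ℝ)) := by ring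
    rw [e1, abs_mul, abs_of_pos (by positivity)]
    apply le_mul_of_one_le_right (by positivity)
    have h7 : ((j : ℕ) : ℤ) - ((k : ℕ) : ℤ) ≠ 0 := by
      intro h
      apply hjk
      apply Fin.ext
      omega
    have h8 := Int.one_le_abs h7
    have h9 : ((1 : ℤ) : ℝ) ≤ ((|((j : ℕ) : ℤ) - ((k : ℕ) : ℤ)| : ℤ) : ℝ) := by exact_mod_cast h8
    push_cast at h9
    exact h9
  have h4 : ρ / N ≤ δ := h3.trans h2
  rw [div_le_iff₀ hNr] at h4
  linarith

theorem b_two {N : ℕ} (hN : 1 ≤ N) {s₁ s₂ y y' t t' : ℝ} {g D : ℂ} (hs : 0 < s₁)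
    (h12 : 26 * ((N : ℝ) + 1) * s₁ ≤ s₂) (hg : s₂ ≤ ‖g‖) (ht : 0 ≤ t) (hy : |y| ≤ 1) (hy' : |y'| ≤ 1)
    (hyy : 1 / (N : ℝ) ≤ |y - y'|)
    (h1 : ‖g + (t : ℂ) * ((1 / 2 : ℝ) + (y : ℝ) * Complex.I) * D‖ < s₁)
    (h2 : ‖g + (t' : ℂ) * ((1 / 2 : ℝ) + (y' : ℝ) * Complex.I) * D‖ < s₁) : False := by
  have hNr : (1 : ℝ) ≤ N := by exact_mod_cast hN
  set w : ℂ := (t : ℂ) * ((1 / 2 : ℝ) + (y : ℝ) * Complex.I) - (t' : ℂ) * ((1 / 2 : ℝ) + (y' : ℝ) * Complex.I) with hw
  have hwD : ‖w‖ * ‖D‖ < 2 * s₁ := by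
    rw [← norm_mul]
    have e1 : w * D = (g + (t : ℂ) * ((1 / 2 : ℝ) + (y : ℝ) * Complex.I) * D)
        - (g + (t' : ℂ) * ((1 / 2 : ℝ) + (y' : ℝ) * Complex.I) * D) := by rw [hw]; ring
    rw [e1]
    refine lt_of_le_of_lt (norm_sub_le _ _) ?_
    linarith
  have hre : |t - t'| ≤ 2 * ‖w‖ := by
    have e1 : w.re = (t - t') / 2 := by
      rw [hw]; simp; ring
    have e2 := Complex.abs_re_le_norm w
    rw [e1, abs_div, abs_of_pos (by norm_num : (0 : ℝ) < 2)] at e2
    linarith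
  have him : |t * y - t' * y'| ≤ ‖w‖ := by
    have e1 : w.im = t * y - t' * y' := by
      rw [hw]; simp
    rw [← e1]
    exact Complex.abs_im_le_norm w
  have hty : t * |y - y'| ≤ 3 * ‖w‖ := by
    have e1 : t * |y - y'| = |t * y - t * y'| := by
      rw [← mul_sub, abs_mul, abs_of_nonneg ht]
    have e2 : t * y - t * y' = (t * y - t' * y') - (t - t') * y' := by ring
    rw [e1, e2]
    have e3 := abs_sub (t * y - t' * y') ((t - t') * y')
    have e4 : |(t - t') * y'| ≤ 2 * ‖w‖ * 1 := by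
      rw [abs_mul]
      exact mul_le_mul hre hy' (abs_nonneg _) (by positivity)
    linarith
  -- `t ‖D‖` is large
  have hz : ‖((1 / 2 : ℝ) + (y : ℝ) * Complex.I : ℂ)‖ ≤ 3 / 2 := by
    refine (norm_add_le _ _).trans ?_
    rw [norm_mul, Complex.norm_I, mul_one, Complex.norm_real, Complex.norm_real, Real.norm_eq_abs, Real.norm_eq_abs]
    have : |(1 / 2 : ℝ)| = 1 / 2 := abs_of_pos (by norm_num)
    linarith
  have hbig : s₂ - s₁ ≤ t * (3 / 2) * ‖D‖ := by
    have e1 : ‖g‖ ≤ ‖g + (t : ℂ) * ((1 / 2 : ℝ) + (y : ℝ) * Complex.I) * D‖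
        + ‖(t : ℂ) * ((1 / 2 : ℝ) + (y : ℝ) * Complex.I) * D‖ := by
      have e2 : g = (g + (t : ℂ) * ((1 / 2 : ℝ) + (y : ℝ) * Complex.I) * D)
          - (t : ℂ) * ((1 / 2 : ℝ) + (y : ℝ) * Complex.I) * D := by ring
      calc ‖g‖ = ‖(g + (t : ℂ) * ((1 / 2 : ℝ) + (y : ℝ) * Complex.I) * D)
          - (t : ℂ) * ((1 / 2 : ℝ) + (y : ℝ) * Complex.I) * D‖ := by rw [← e2]
        _ ≤ _ := norm_sub_le _ _
    have e3 : ‖(t : ℂ) * ((1 / 2 : ℝ) + (y : ℝ) * Complex.I) * D‖ ≤ t * (3 / 2) * ‖D‖ := by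
      rw [norm_mul, norm_mul, Complex.norm_real, Real.norm_eq_abs, abs_of_nonneg ht]
      apply mul_le_mul_of_nonneg_right _ (norm_nonneg _)
      exact mul_le_mul_of_nonneg_left hz ht
    linarith
  have h3 : t * ‖D‖ * (1 / N) ≤ 3 * (‖w‖ * ‖D‖) := by
    calc t * ‖D‖ * (1 / N) ≤ t * ‖D‖ * |y - y'| :=
          mul_le_mul_of_nonneg_left hyy (mul_nonneg ht (norm_nonneg _))
      _ = (t * |y - y'|) * ‖D‖ := by ring
      _ ≤ (3 * ‖w‖) * ‖D‖ := mul_le_mul_of_nonneg_right hty (norm_nonneg _)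
      _ = _ := by ring
  have h4 : t * ‖D‖ < 6 * s₁ * N := by
    have : t * ‖D‖ * (1 / N) < 6 * s₁ := by linarith
    rw [mul_one_div, div_lt_iff₀ (by linarith)] at this
    exact this
  nlinarith

/-- A broken line `0 → z → 1` on which finitely many affine functions stay large. -/
theorem exists_vertex {ι : Type*} (I : Finset ι) (g₀ g₁ : ι → ℂ) {s₁ s₂ : ℝ} (hs : 0 < s₁)
    (h12 : 26 * ((I.card : ℝ) + 1) * s₁ ≤ s₂)
    (h₀ : ∀ i ∈ I, s₂ ≤ ‖g₀ i‖) (h₁ : ∀ i ∈ I, s₂ ≤ ‖g₁ i‖) :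
    ∃ z : ℂ, ‖z‖ ≤ 2 ∧ ∀ i ∈ I, ∀ t ∈ Icc (0 : ℝ) 1,
      s₁ ≤ ‖g₀ i + (t : ℂ) * z * (g₁ i - g₀ i)‖ ∧
      s₁ ≤ ‖g₀ i + (z + (t : ℂ) * (1 - z)) * (g₁ i - g₀ i)‖ := by
  classical
  rcases I.eq_empty_or_nonempty with hI | hI
  · exact ⟨0, by simp, by simp [hI]⟩
  set N := I.card with hNdef
  have hN0 : 0 < N := Finset.card_pos.mpr hI
  have hNr : (0 : ℝ) < N := by exact_mod_cast hN0
  let y : Fin (2 * N + 1) → ℝ := fun j => (j : ℕ) / N - 1
  have hy1 : ∀ j, |y j| ≤ 1 := by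
    intro j
    have hj : ((j : ℕ) : ℝ) ≤ 2 * N := by
      have := j.isLt
      exact_mod_cast (by omega : (j : ℕ) ≤ 2 * N)
    rw [abs_le]
    simp only [y]
    constructor
    · have : (0 : ℝ) ≤ (j : ℕ) / N := by positivity
      linarith
    · have : ((j : ℕ) : ℝ) / N ≤ 2 := by rw [div_le_iff₀ hNr]; exact hj
      linarith
  have hy2 : ∀ j k, j ≠ k → 1 / (N : ℝ) ≤ |y j - y k| := by
    intro j k hjk
    have e1 : y j - y k = (((j : ℕ) : ℝ) - ((k : ℕ) : ℝ)) / N := by simp only [y]; ring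
    rw [e1, abs_div, abs_of_pos hNr]
    apply div_le_div_of_nonneg_right _ hNr.le
    have h7 : ((j : ℕ) : ℤ) - ((k : ℕ) : ℤ) ≠ 0 := by
      intro h
      apply hjk
      apply Fin.ext
      omega
    have h8 := Int.one_le_abs h7
    have h9 : ((1 : ℤ) : ℝ) ≤ ((|((j : ℕ) : ℤ) - ((k : ℕ) : ℤ)| : ℤ) : ℝ) := by exact_mod_cast h8
    push_cast at h9
    exact h9
  let z : Fin (2 * N + 1) → ℂ := fun j => (1 / 2 : ℝ) + (y j : ℝ) * Complex.I
  by_contra hcon
  push Not at hcon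
  have hfail : ∀ j, ∃ p : ι × Bool, p.1 ∈ I ∧
      (p.2 = true → ∃ t : ℝ, 0 ≤ t ∧ ‖g₀ p.1 + (t : ℂ) * z j * (g₁ p.1 - g₀ p.1)‖ < s₁) ∧
      (p.2 = false → ∃ t : ℝ, 0 ≤ t ∧
        ‖g₁ p.1 + (t : ℂ) * ((1 / 2 : ℝ) + ((-(y j) : ℝ) : ℂ) * Complex.I) * (-(g₁ p.1 - g₀ p.1))‖ < s₁) := by
    intro j
    have hzn : ‖z j‖ ≤ 2 := by
      refine (norm_add_le _ _).trans ?_
      rw [norm_mul, Complex.norm_I, mul_one, Complex.norm_real, Complex.norm_real, Real.norm_eq_abs,
        Real.norm_eq_abs]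
      have h1 : |(1 / 2 : ℝ)| = 1 / 2 := abs_of_pos (by norm_num)
      have h2 := hy1 j
      linarith
    obtain ⟨i, hi, t, ht, h⟩ := hcon (z j) hzn
    by_cases h1 : s₁ ≤ ‖g₀ i + (t : ℂ) * z j * (g₁ i - g₀ i)‖
    · have h2 := h h1
      refine ⟨(i, false), hi, by simp, fun _ => ⟨1 - t, by linarith [ht.2], ?_⟩⟩
      have e1 : g₁ i + ((1 - t : ℝ) : ℂ) * ((1 / 2 : ℝ) + ((-(y j) : ℝ) : ℂ) * Complex.I) * (-(g₁ i - g₀ i))
          = g₀ i + (z j + (t : ℂ) * (1 - z j)) * (g₁ i - g₀ i) := by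
        simp only [z]
        push_cast
        ring
      rw [e1]
      exact h2
    · push Not at h1
      exact ⟨(i, true), hi, fun _ => ⟨t, ht.1, h1⟩, by simp⟩
  choose f hf1 hf2 hf3 using hfail
  obtain ⟨j, _, k, _, hjk, he⟩ := Finset.exists_ne_map_eq_of_card_lt_of_maps_to
    (s := (Finset.univ : Finset (Fin (2 * N + 1)))) (t := I ×ˢ (Finset.univ : Finset Bool)) (f := f)
    (by
      rw [Finset.card_product, Finset.card_univ, Finset.card_univ, Fintype.card_fin, Fintype.card_bool]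
      omega)
    (fun j _ => Finset.mem_coe.mpr (Finset.mem_product.mpr ⟨hf1 j, Finset.mem_univ _⟩))
  cases hb : (f j).2 with
  | true =>
    obtain ⟨t, ht, h1⟩ := hf2 j hb
    obtain ⟨t', ht', h2⟩ := hf2 k (he ▸ hb)
    rw [← he] at h2
    exact b_two hN0 hs h12 (h₀ _ (hf1 j)) ht (hy1 j) (hy1 k) (hy2 j k hjk) h1 h2
  | false =>
    obtain ⟨t, ht, h1⟩ := hf3 j hb
    obtain ⟨t', ht', h2⟩ := hf3 k (he ▸ hb)
    rw [← he] at h2
    refine b_two hN0 hs h12 (h₁ _ (hf1 j)) ht (by rw [abs_neg]; exact hy1 j) (by rw [abs_neg]; exact hy1 k) ?_ h1 h2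
    have e1 : -y j - -y k = -(y j - y k) := by ring
    rw [e1, abs_neg]
    exact hy2 j k hjk

end Fermi
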