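import Pool.Agent.Lib.Fermi.LineX1
import Pool.Agent.Lib.Fermi.Pigeon

/-!
# Chunk LX: choice of the vertical line

* `single_exp`: `Ehat (κ + n) = q_n + w 0 + Hh (q_n) (κ + n)`; `ph_lip` for the difference of `q_n`, `Hh_lip` for the rest
  (base point `Ξ₁`: `Cl` from `ph_clean`; `‖κ₁ - κ₂‖ ≤ 2.1 ‖Ξ₁ - Ξ₂‖` and `lam_lb`).
* `exists_line`: grid of centres `Ξ_w = X0 + i wr/2 + I (j wr/2)`, `0 ≤ i ≤ 2/wr + 1`, `|j| ≤ 2 T1 l2/wr + 1`: at most `Λ^52` of them, and every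
  point of the rectangle `[X0, X0+1] × [-T1 l2, T1 l2]` is within `wr` of one. Sites `‖n‖ ≤ Λ^23` (`ph_box`): at most `Λ^(24 d)`.
  Bad sets of real numbers: for `(w, n)` the real parts of
  `{Ξ : ‖Ξ - Ξ_w‖ ≤ wr, im in the range, resonant, (not fast or T1 ≤ |im Ξ|), ‖Ehat (κ + n)‖ < η₁}`: two elements differ by at most
  `4 η₁/‖lam n‖ ≤ 2 Λ η₁`; (sites with `lam n = 0`, `n ≠ 0`, are not resonant by `ph_static`); for `(w, n, i)`, `i < m₂`, `n` fast,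
  `‖ph n Ξ_w‖ < kp`: `|x - re ζ_i| < δ` with `ζ_i` from `cluster`, `δ = Λ^-(24d+54)`, diameter `≤ 2δ`.
  `η₁ = Λ^-(24 d + 56)`. Total number of bad sets `≤ Λ^(24d+52) (m₂ + 1) ≤ Λ^(24d+53)`; `exists_avoid`.
-/

open scoped BigOperators Topology
open Set Filter Complex

noncomputable section

namespace Fermi

variable {d : ℕ} {μ : ℂ} {w : Zd d → ℂ} {P : Sc d μ w} {Q : Dirs P} {l : Zd d} {zh : ℂ → ℂ}

/-- lower bound for the single sites -/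
def et1 (P : Sc d μ w) : ℝ := (P.Λ ^ (24 * d + 56))⁻¹
/-- radius of the excluded discs -/
def de (P : Sc d μ w) : ℝ := (P.Λ ^ (24 * d + 54))⁻¹

/-- a good vertical line -/
structure GoodLine (P : Sc d μ w) (Q : Dirs P) (l : Zd d) (zh : ℂ → ℂ) (X η₂ : ℝ) : Prop where
  hX : |X - Q.X0 l| ≤ 1
  single : ∀ Ξ : ℂ, Ξ.re = X → |Ξ.im| ≤ P.T1 * l2 l → ∀ n : Zd d, n ≠ 0 →
    ‖ph Q l zh n Ξ‖ < 2 * P.c → (¬ Fast Q l n ∨ P.T1 ≤ |Ξ.im|) →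
    et1 P ≤ ‖Ehat P (Q.kap l Ξ (zh Ξ) + zc n)‖
  clus : ∀ Ξ : ℂ, Ξ.re = X → |Ξ.im| ≤ P.T1 * l2 l → ∃ Ξ₀ : ℂ, ‖Ξ - Ξ₀‖ ≤ wr Q l ∧
    Metric.closedBall Ξ₀ (20 * wr Q l) ⊆ Q.Om l ∧
    ∀ n : Zd d, Fast Q l n → ‖ph Q l zh n Ξ‖ < 2 * P.c →
      η₂ ≤ ‖DK w P.c μ P.L (Kf Q l zh Ξ₀ n) (Q.kap l Ξ (zh Ξ))‖

/-! ### the grid -/

/-- centres of the windows -/
def lx_ctr (Q : Dirs P) (l : Zd d) (i : ℕ) (j : ℤ) : ℂ :=
  ((Q.X0 l + i * (wr Q l / 2) : ℝ) : ℂ) + ((j * (wr Q l / 2) : ℝ) : ℂ) * I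

lemma lx_ctr_re (Q : Dirs P) (l : Zd d) (i : ℕ) (j : ℤ) :
    (lx_ctr Q l i j).re = Q.X0 l + i * (wr Q l / 2) := by
  unfold lx_ctr
  simp

lemma lx_ctr_im (Q : Dirs P) (l : Zd d) (i : ℕ) (j : ℤ) :
    (lx_ctr Q l i j).im = j * (wr Q l / 2) := by
  unfold lx_ctr
  simp

/-- every point of the rectangle is close to a centre -/
lemma lx_grid (hP : Prim l) (hlL : ‖l‖ ≤ P.L) {Ξ : ℂ} (h1 : Q.X0 l ≤ Ξ.re) (h2 : Ξ.re ≤ Q.X0 l + 1)
    (h3 : |Ξ.im| ≤ P.T1 * l2 l) :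
    ∃ (i : ℕ) (j : ℤ), (i : ℝ) ≤ 2 / wr Q l ∧ |(j : ℝ)| ≤ P.T1 * l2 l * (2 / wr Q l) + 1 ∧
      ‖Ξ - lx_ctr Q l i j‖ ≤ wr Q l := by
  have hw := wr_pos (Q := Q) hP hlL
  set h : ℝ := wr Q l / 2 with hh
  have hh0 : 0 < h := by positivity
  have e2 : 2 / wr Q l = 1 / h := by rw [hh]; field_simp
  have a1 : 0 ≤ (Ξ.re - Q.X0 l) / h := div_nonneg (by linarith) hh0.le
  have b1 := Nat.floor_le a1
  have b2 := Nat.lt_floor_add_one ((Ξ.re - Q.X0 l) / h)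
  have c1 := Int.floor_le (Ξ.im / h)
  have c2 := Int.lt_floor_add_one (Ξ.im / h)
  set i := ⌊(Ξ.re - Q.X0 l) / h⌋₊ with hi
  set j := ⌊Ξ.im / h⌋ with hj
  have d1 : (i : ℝ) * h ≤ Ξ.re - Q.X0 l := by rwa [le_div_iff₀ hh0] at b1
  have d2 : Ξ.re - Q.X0 l < ((i : ℝ) + 1) * h := by rwa [div_lt_iff₀ hh0] at b2
  have d3 : (j : ℝ) * h ≤ Ξ.im := by rwa [le_div_iff₀ hh0] at c1
  have d4 : Ξ.im < ((j : ℝ) + 1) * h := by rwa [div_lt_iff₀ hh0] at c2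
  refine ⟨i, j, ?_, ?_, ?_⟩
  · rw [e2, le_div_iff₀ hh0]
    linarith
  · rw [e2, mul_one_div]
    have h4 : |Ξ.im / h| ≤ P.T1 * l2 l / h := by
      rw [abs_div, abs_of_pos hh0]
      exact div_le_div_of_nonneg_right h3 hh0.le
    rw [abs_le] at h4 ⊢
    constructor <;> linarith [h4.1, h4.2]
  · have e3 : |(Ξ - lx_ctr Q l i j).re| ≤ h := by
      rw [Complex.sub_re, lx_ctr_re, ← hh, abs_le]
      constructor <;> nlinarith
    have e4 : |(Ξ - lx_ctr Q l i j).im| ≤ h := by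
      rw [Complex.sub_im, lx_ctr_im, ← hh, abs_le]
      constructor <;> nlinarith
    refine (Complex.norm_le_abs_re_add_abs_im _).trans ?_
    linarith

/-- the balls of radius `20 wr` around the centres are in the domain -/
lemma lx_ball (hP : Prim l) (hlL : ‖l‖ ≤ P.L) {Ξ Ξ₀ : ℂ} (h1 : Q.X0 l ≤ Ξ.re)
    (h2 : Ξ.re ≤ Q.X0 l + 1) (h3 : |Ξ.im| ≤ P.T1 * l2 l) (h4 : ‖Ξ - Ξ₀‖ ≤ wr Q l) :
    Metric.closedBall Ξ₀ (20 * wr Q l) ⊆ Q.Om l := by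
  intro Ξ' hΞ'
  rw [Metric.mem_closedBall, dist_eq_norm] at hΞ'
  have hw := wr_pos (Q := Q) hP hlL
  have hw1 := wr_le (Q := Q) hP hlL
  have hw2 : (P.Λ ^ 13)⁻¹ ≤ 1 / 100 := by
    rw [inv_le_comm₀ (pow_pos P.Λ_pos 13) (by norm_num)]
    have := lx_pow P (show 0 < 13 by norm_num)
    rw [pow_zero] at this
    linarith
  have h5 : ‖Ξ' - Ξ‖ ≤ 21 / 100 := by
    have : Ξ' - Ξ = (Ξ' - Ξ₀) - (Ξ - Ξ₀) := by ring
    rw [this]
    refine (norm_sub_le _ _).trans ?_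
    linarith
  have h6 := (Complex.abs_re_le_norm (Ξ' - Ξ)).trans h5
  have h7 := (Complex.abs_im_le_norm (Ξ' - Ξ)).trans h5
  rw [Complex.sub_re, abs_le] at h6
  rw [Complex.sub_im, abs_le] at h7
  have hl2 := one_le_l2 hP.1
  have hT : 1 ≤ P.T1 := one_le_pow₀ (by have := P.Λ_ge; linarith)
  have hTl : 1 ≤ P.T1 * l2 l := by nlinarith
  rw [abs_le] at h3
  refine ⟨?_, ?_⟩
  · rw [abs_lt]
    constructor <;> linarith [h6.1, h6.2]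
  · rw [mul_assoc, abs_lt]
    constructor <;> linarith [h7.1, h7.2, h3.1, h3.2]

/-- the box of lattice points -/
def lx_box (P : Sc d μ w) : Finset (Zd d) :=
  Fintype.piFinset fun _ => Finset.Icc (-(⌊P.Λ ^ 23⌋)) ⌊P.Λ ^ 23⌋

lemma lx_mem_box {n : Zd d} (hn : ‖n‖ ≤ P.Λ ^ 23) : n ∈ lx_box P := by
  unfold lx_box
  rw [Fintype.mem_piFinset]
  intro j
  rw [Finset.mem_Icc]
  have h1 : |((n j : ℤ) : ℝ)| ≤ P.Λ ^ 23 := by
    refine le_trans ?_ hn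
    have := norm_le_pi_norm n j
    rwa [Int.norm_eq_abs] at this
  rw [abs_le] at h1
  constructor
  · rw [neg_le]
    apply Int.le_floor.mpr
    push_cast
    linarith [h1.1]
  · exact Int.le_floor.mpr h1.2

lemma lx_card_box (P : Sc d μ w) : ((lx_box P).card : ℝ) ≤ P.Λ ^ (24 * d) := by
  unfold lx_box
  rw [Fintype.card_piFinset, Finset.prod_const, Finset.card_univ, Fintype.card_fin, pow_mul]
  push_cast
  apply pow_le_pow_left₀ (by positivity)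
  rw [Int.card_Icc]
  have h0 : 0 ≤ P.Λ ^ 23 := pow_nonneg P.Λ_pos.le 23
  have h1 : 0 ≤ ⌊P.Λ ^ 23⌋ := Int.floor_nonneg.mpr h0
  have h2 := Int.floor_le (P.Λ ^ 23)
  have h3 : (((⌊P.Λ ^ 23⌋ + 1 - -⌊P.Λ ^ 23⌋).toNat : ℕ) : ℝ) = 2 * (⌊P.Λ ^ 23⌋ : ℝ) + 1 := by
    have : ((⌊P.Λ ^ 23⌋ + 1 - -⌊P.Λ ^ 23⌋).toNat : ℤ) = 2 * ⌊P.Λ ^ 23⌋ + 1 := by
      rw [Int.toNat_of_nonneg (by linarith)]
      ring
    exact_mod_cast this
  rw [h3]
  have h4 := lx_pow P (show 23 < 24 by norm_num)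
  have h5 : 1 ≤ P.Λ ^ 23 := one_le_pow₀ (by have := P.Λ_ge; linarith)
  linarith

/-- the windows -/
def lx_win (Q : Dirs P) (l : Zd d) : Finset (ℕ × ℤ) :=
  Finset.range (⌊2 / wr Q l⌋₊ + 1) ×ˢ
    Finset.Icc (-⌊P.T1 * l2 l * (2 / wr Q l) + 1⌋) ⌊P.T1 * l2 l * (2 / wr Q l) + 1⌋

lemma lx_mem_win {i : ℕ} {j : ℤ} (h1 : (i : ℝ) ≤ 2 / wr Q l)
    (h2 : |(j : ℝ)| ≤ P.T1 * l2 l * (2 / wr Q l) + 1) : (i, j) ∈ lx_win Q l := by
  unfold lx_win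
  rw [Finset.mem_product, Finset.mem_range, Finset.mem_Icc]
  rw [abs_le] at h2
  refine ⟨?_, ?_, ?_⟩
  · rw [Nat.lt_add_one_iff]
    exact Nat.le_floor h1
  · rw [neg_le]
    apply Int.le_floor.mpr
    push_cast
    linarith [h2.1]
  · exact Int.le_floor.mpr h2.2

lemma lx_card_win (hP : Prim l) (hlL : ‖l‖ ≤ P.L) : ((lx_win Q l).card : ℝ) ≤ P.Λ ^ 52 := by
  have hw := wr_pos (Q := Q) hP hlL
  have hw1 := wr_ge (Q := Q) hP hlL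
  have hΛ := P.Λ_ge
  have hΛ0 := P.Λ_pos
  have hl2 := one_le_l2 hP.1
  have hl2Λ := l2_le P hlL
  have hT : P.T1 = P.Λ ^ 7 := rfl
  have h2w : 2 / wr Q l ≤ 2 * P.Λ ^ 21 := by
    rw [div_le_iff₀ hw]
    have : (P.Λ ^ 21)⁻¹ * P.Λ ^ 21 = 1 := by field_simp
    nlinarith [pow_pos hΛ0 21]
  have h2w0 : 0 ≤ 2 / wr Q l := by positivity
  unfold lx_win
  rw [Finset.card_product, Finset.card_range, Int.card_Icc]
  set A : ℝ := P.T1 * l2 l * (2 / wr Q l) + 1 with hA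
  have hA0 : 0 ≤ A := by
    have : 0 < P.T1 := pow_pos hΛ0 7
    positivity
  have hA1 : A ≤ P.Λ ^ 29 := by
    have h3 : P.T1 * l2 l * (2 / wr Q l) ≤ P.Λ ^ 7 * (P.Λ / 100) * (2 * P.Λ ^ 21) := by
      rw [hT]
      apply mul_le_mul _ h2w h2w0 (by positivity)
      apply mul_le_mul_of_nonneg_left _ (by positivity)
      linarith
    have h4 : P.Λ ^ 7 * (P.Λ / 100) * (2 * P.Λ ^ 21) = P.Λ ^ 29 / 50 := by ring
    have h5 : 10 ≤ P.Λ ^ 29 := by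
      have := lx_pow P (show 0 < 29 by norm_num)
      rw [pow_zero] at this
      linarith
    linarith
  have hfl : 0 ≤ ⌊A⌋ := Int.floor_nonneg.mpr hA0
  have h3 : (((⌊A⌋ + 1 - -⌊A⌋).toNat : ℕ) : ℝ) = 2 * (⌊A⌋ : ℝ) + 1 := by
    have : ((⌊A⌋ + 1 - -⌊A⌋).toNat : ℤ) = 2 * ⌊A⌋ + 1 := by
      rw [Int.toNat_of_nonneg (by linarith)]
      ring
    exact_mod_cast this
  have h6 := Int.floor_le A
  have h7 := Nat.floor_le h2w0
  push_cast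
  rw [h3]
  have h29 : 1 ≤ P.Λ ^ 29 := one_le_pow₀ (by linarith)
  have h21 : 1 ≤ P.Λ ^ 21 := one_le_pow₀ (by linarith)
  calc ((⌊2 / wr Q l⌋₊ : ℝ) + 1) * (2 * (⌊A⌋ : ℝ) + 1) ≤ (3 * P.Λ ^ 21) * (3 * P.Λ ^ 29) := by
        apply mul_le_mul (by linarith) (by linarith) _ (by positivity)
        have : (0 : ℝ) ≤ ⌊A⌋ := by exact_mod_cast hfl
        linarith
    _ = 9 * P.Λ ^ 50 := by ring
    _ ≤ P.Λ ^ 52 := by
        have := lx_pow P (show 50 < 52 by norm_num)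
        have := pow_pos hΛ0 50
        linarith

theorem exists_line (hS : Sheet P Q l zh) (hP : Prim l) (hlL : ‖l‖ ≤ P.L) {cc B : ℝ} {m₁ m₂ : ℕ}
    (hcc : P.c ≤ cc) (hm₁ : 5 * 10 ^ 4 * cc ≤ m₁)
    (hB : m₁.factorial * (10 ^ 9 * cc) ^ m₁ ≤ B) (hm₂ : B ^ 2 ≤ 2 ^ m₂) (hL1 : m₂ + 1 ≤ P.L)
    (hL2 : 10 * P.c ≤ P.L) : ∃ X : ℝ, GoodLine P Q l zh X ((B ^ 19)⁻¹ * de P ^ m₂) := by
  classical
  have hl := hP.1
  have hΛ := P.Λ_ge
  have hΛ0 := P.Λ_pos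
  have hΛ1 : 1 ≤ P.Λ := by linarith
  have hc8 := P.c_ge
  have hcΛ := P.hcΛ
  have hde0 : 0 < de P := by unfold de; positivity
  have het0 : 0 < et1 P := by unfold et1; positivity
  have hw := wr_pos (Q := Q) hP hlL
  have hw1 := wr_le (Q := Q) hP hlL
  have hw2 := wr_ge (Q := Q) hP hlL
  have hdew : de P ≤ wr Q l := by
    refine le_trans ?_ hw2
    unfold de
    exact inv_anti₀ (by positivity) (pow_le_pow_right₀ hΛ1 (by omega))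
  have hw13 : (P.Λ ^ 13)⁻¹ ≤ 1 / 100 := by
    rw [inv_le_comm₀ (pow_pos P.Λ_pos 13) (by norm_num)]
    have := lx_pow P (show 0 < 13 by norm_num)
    rw [pow_zero] at this
    linarith
  have h2cΛ : 2 * P.c ≤ P.Λ ^ 4 := by
    have := lx_pow P (show 1 < 4 by norm_num)
    rw [pow_one] at this
    linarith
  -- the exceptional points of the clusters
  have key : ∀ (Ξ₀ : ℂ) (n : Zd d), ∃ Z : Multiset ℂ, Multiset.card Z ≤ m₂ ∧
      (Metric.closedBall Ξ₀ (20 * wr Q l) ⊆ Q.Om l → Fast Q l n → ‖ph Q l zh n Ξ₀‖ < kp P →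
        ∀ δ : ℝ, 0 < δ → δ ≤ wr Q l →
          ∀ Ξ : ℂ, ‖Ξ - Ξ₀‖ ≤ wr Q l → (∀ ζ ∈ Z, δ ≤ ‖Ξ - ζ‖) →
            (B ^ 19)⁻¹ * δ ^ m₂ ≤
              ‖DK w P.c μ P.L (Kf Q l zh Ξ₀ n) (Q.kap l Ξ (zh Ξ))‖) := by
    intro Ξ₀ n
    by_cases h : Metric.closedBall Ξ₀ (20 * wr Q l) ⊆ Q.Om l ∧ Fast Q l n ∧ ‖ph Q l zh n Ξ₀‖ < kp P
    · obtain ⟨Z, hZ1, hZ2⟩ := cluster hS hP hlL hcc hm₁ hB hm₂ h.1 h.2.1 h.2.2
      exact ⟨Z, hZ1, fun _ _ _ => hZ2⟩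
    · exact ⟨0, by simp, fun h1 h2 h3 => absurd ⟨h1, h2, h3⟩ h⟩
  choose Z hZ1 hZ2 using key
  -- the bad sets
  let bad : ((ℕ × ℤ) × Zd d) × ℕ → Set ℝ := fun t =>
    if t.2 = m₂ then
      {x | ∃ Ξ : ℂ, Ξ.re = Q.X0 l + x ∧ x ∈ Icc (0 : ℝ) 1 ∧ |Ξ.im| ≤ P.T1 * l2 l ∧
        ‖Ξ - lx_ctr Q l t.1.1.1 t.1.1.2‖ ≤ wr Q l ∧ t.1.2 ≠ 0 ∧ ‖ph Q l zh t.1.2 Ξ‖ < 2 * P.c ∧
        (¬ Fast Q l t.1.2 ∨ P.T1 ≤ |Ξ.im|) ∧
        ‖Ehat P (Q.kap l Ξ (zh Ξ) + zc t.1.2)‖ < et1 P}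
    else {x | |Q.X0 l + x - ((Z (lx_ctr Q l t.1.1.1 t.1.1.2) t.1.2).toList.getD t.2 0).re| < de P}
  have hdiam : ∀ t ∈ (lx_win Q l ×ˢ lx_box P) ×ˢ Finset.range (m₂ + 1), ∀ x ∈ bad t,
      ∀ y ∈ bad t, |x - y| ≤ 2 * de P := by
    intro t _ x hx y hy
    by_cases ht : t.2 = m₂
    · simp only [bad, if_pos ht] at hx hy
      obtain ⟨Ξ₁, a1, a2, a3, a4, a5, a6, a7, a8⟩ := hx
      obtain ⟨Ξ₂, b1, b2, b3, b4, b5, b6, b7, b8⟩ := hy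
      have hO : ∀ (Ξ : ℂ) (x : ℝ), Ξ.re = Q.X0 l + x → x ∈ Icc (0 : ℝ) 1 → |Ξ.im| ≤ P.T1 * l2 l →
          ‖Ξ - lx_ctr Q l t.1.1.1 t.1.1.2‖ ≤ wr Q l → Ξ ∈ Q.Om l := by
        intro Ξ x c1 c2 c3 c4
        have := lx_ball hP hlL (by rw [c1]; linarith [c2.1]) (by rw [c1]; linarith [c2.2]) c3 c4
        apply this
        rw [Metric.mem_closedBall, dist_eq_norm]
        linarith
      have hO1 := hO Ξ₁ x a1 a2 a3 a4
      have hO2 := hO Ξ₂ y b1 b2 b3 b4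
      have hlam : Q.lam l t.1.2 ≠ 0 := by
        intro h0
        have := ph_static hS hP hlL a5 h0 hO1
        have hL0 : 10 * P.c ≤ P.L := hL2
        nlinarith
      have hdist : ‖Ξ₁ - Ξ₂‖ ≤ 1 / 4 := by
        have : Ξ₁ - Ξ₂ = (Ξ₁ - lx_ctr Q l t.1.1.1 t.1.1.2) - (Ξ₂ - lx_ctr Q l t.1.1.1 t.1.1.2) := by ring
        rw [this]
        refine (norm_sub_le _ _).trans ?_
        linarith
      have hexp := single_exp hS hP hlL hlam hO1 hO2 hdist a7 a6.le b6.le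
      have hll := lam_lb Q hl hlL hlam
      have hE : ‖Ehat P (Q.kap l Ξ₁ (zh Ξ₁) + zc t.1.2) - Ehat P (Q.kap l Ξ₂ (zh Ξ₂) + zc t.1.2)‖ ≤
          2 * et1 P := by
        refine (norm_sub_le _ _).trans ?_
        linarith
      have h1 : 1 / 2 * (2 / P.Λ) * ‖Ξ₁ - Ξ₂‖ ≤ 2 * et1 P := by
        refine le_trans ?_ (hexp.trans hE)
        apply mul_le_mul_of_nonneg_right _ (norm_nonneg _)
        linarith
      have h2 : ‖Ξ₁ - Ξ₂‖ ≤ 2 * (P.Λ * et1 P) := by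
        have : 1 / 2 * (2 / P.Λ) * ‖Ξ₁ - Ξ₂‖ = ‖Ξ₁ - Ξ₂‖ / P.Λ := by ring
        rw [this, div_le_iff₀ hΛ0] at h1
        linarith
      have h3 : P.Λ * et1 P ≤ de P := by
        unfold et1 de
        rw [← div_eq_mul_inv, div_le_iff₀ (by positivity)]
        have : (P.Λ ^ (24 * d + 54))⁻¹ * P.Λ ^ (24 * d + 56) = P.Λ ^ 2 := by
          have e : P.Λ ^ (24 * d + 56) = P.Λ ^ (24 * d + 54) * P.Λ ^ 2 := by ring
          rw [e, inv_mul_cancel_left₀ (by positivity)]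
        rw [this]
        nlinarith
      have h4 : x - y = (Ξ₁ - Ξ₂).re := by
        rw [Complex.sub_re, a1, b1]; ring
      rw [h4]
      refine (Complex.abs_re_le_norm _).trans ?_
      linarith
    · simp only [bad, if_neg ht, Set.mem_ofPred_eq] at hx hy
      set r₀ : ℝ := ((Z (lx_ctr Q l t.1.1.1 t.1.1.2) t.1.2).toList.getD t.2 0).re with hr₀
      have : x - y = (Q.X0 l + x - r₀) - (Q.X0 l + y - r₀) := by ring
      rw [this]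
      refine (abs_sub _ _).trans ?_
      linarith
  have hcount : (((lx_win Q l ×ˢ lx_box P) ×ˢ Finset.range (m₂ + 1)).card : ℝ) * (2 * de P) < 1 := by
    rw [Finset.card_product, Finset.card_product, Finset.card_range]
    push_cast
    have hm : ((m₂ : ℝ) + 1) ≤ P.Λ := by
      have h1 : ((m₂ + 1 : ℕ) : ℝ) ≤ P.L := by exact_mod_cast hL1
      push_cast at h1
      have h2 : (P.L : ℝ) ≤ P.Λ := by
        obtain ⟨h3, h4⟩ := P.dL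
        have h5 : (3 : ℝ) ≤ d := by exact_mod_cast P.hd
        have h6 : (0 : ℝ) ≤ P.L := Nat.cast_nonneg _
        nlinarith
      linarith
    have h1 := lx_card_win (Q := Q) hP hlL
    have h2 := lx_card_box P
    have h3 : ((lx_win Q l).card : ℝ) * (lx_box P).card * (m₂ + 1) ≤ P.Λ ^ (24 * d + 53) := by
      calc ((lx_win Q l).card : ℝ) * (lx_box P).card * (m₂ + 1)
          ≤ P.Λ ^ 52 * P.Λ ^ (24 * d) * P.Λ := by gcongr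
        _ = P.Λ ^ (24 * d + 53) := by ring
    calc ((lx_win Q l).card : ℝ) * (lx_box P).card * (m₂ + 1) * (2 * de P)
        ≤ P.Λ ^ (24 * d + 53) * (2 * de P) := mul_le_mul_of_nonneg_right h3 (by positivity)
      _ = 2 / P.Λ := by
          unfold de
          have e : P.Λ ^ (24 * d + 54) = P.Λ ^ (24 * d + 53) * P.Λ := by ring
          rw [e]
          field_simp
      _ < 1 := by
          rw [div_lt_one hΛ0]
          linarith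
  obtain ⟨x, hx, hgood⟩ := exists_avoid _ bad one_pos hdiam hcount
  have hX1 : ∀ Ξ : ℂ, Ξ.re = Q.X0 l + x → Q.X0 l ≤ Ξ.re ∧ Ξ.re ≤ Q.X0 l + 1 := by
    intro Ξ h
    rw [h]
    constructor <;> linarith [hx.1, hx.2]
  refine ⟨Q.X0 l + x, ?_, ?_, ?_⟩
  · rw [add_sub_cancel_left, abs_of_nonneg hx.1]
    exact hx.2
  · intro Ξ hre him n hn0 hph hcond
    by_contra hcon
    push Not at hcon
    obtain ⟨h1, h2⟩ := hX1 Ξ hre
    obtain ⟨i, j, hi, hj, hij⟩ := lx_grid hP hlL h1 h2 him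
    have hb := lx_ball hP hlL h1 h2 him hij
    have hO : Ξ ∈ Q.Om l := hb (by rw [Metric.mem_closedBall, dist_eq_norm]; linarith)
    have hbox := ph_box hS hP hlL hO (hph.le.trans h2cΛ)
    have hmem : (((i, j), n), m₂) ∈ (lx_win Q l ×ˢ lx_box P) ×ˢ Finset.range (m₂ + 1) := by
      rw [Finset.mem_product, Finset.mem_product, Finset.mem_range]
      exact ⟨⟨lx_mem_win hi hj, lx_mem_box hbox⟩, Nat.lt_succ_self _⟩
    apply hgood _ hmem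
    simp only [bad, if_true]
    exact ⟨Ξ, hre, hx, him, hij, hn0, hph, hcond, hcon⟩
  · intro Ξ hre him
    obtain ⟨h1, h2⟩ := hX1 Ξ hre
    obtain ⟨i, j, hi, hj, hij⟩ := lx_grid hP hlL h1 h2 him
    have hb := lx_ball hP hlL h1 h2 him hij
    refine ⟨lx_ctr Q l i j, hij, hb, ?_⟩
    intro n hf hph
    have hO : Ξ ∈ Q.Om l := hb (by rw [Metric.mem_closedBall, dist_eq_norm]; linarith)
    have hbox := ph_box hS hP hlL hO (hph.le.trans h2cΛ)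
    have hkp := win_mem hS hP hlL hb hij hf hph
    refine hZ2 _ n hb hf hkp (de P) hde0 hdew Ξ hij ?_
    intro ζ hζ
    have hζ' : ζ ∈ (Z (lx_ctr Q l i j) n).toList := Multiset.mem_toList.mpr hζ
    obtain ⟨k, hk, hkζ⟩ := List.mem_iff_getElem.mp hζ'
    have hk2 : k < m₂ := by
      rw [Multiset.length_toList] at hk
      exact lt_of_lt_of_le hk (hZ1 _ _)
    have hmem : (((i, j), n), k) ∈ (lx_win Q l ×ˢ lx_box P) ×ˢ Finset.range (m₂ + 1) := by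
      rw [Finset.mem_product, Finset.mem_product, Finset.mem_range]
      exact ⟨⟨lx_mem_win hi hj, lx_mem_box hbox⟩, by show k < m₂ + 1; omega⟩
    have hnb := hgood _ hmem
    simp only [bad, if_neg hk2.ne, Set.mem_ofPred_eq, not_lt] at hnb
    rw [List.getD_eq_getElem _ _ hk, hkζ] at hnb
    refine hnb.trans ?_
    have : Q.X0 l + x - ζ.re = (Ξ - ζ).re := by rw [Complex.sub_re, hre]
    rw [this]
    exact Complex.abs_re_le_norm _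

end Fermi
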