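import Pool.Agent.Lib.Fermi.Cluster

/-!
# Chunk LX1: expansion of the effective equation at single sites along the sheet
-/

open scoped BigOperators Topology
open Set Filter Complex

noncomputable section

namespace Fermi

variable {d : ℕ} {μ : ℂ} {w : Zd d → ℂ} {P : Sc d μ w} {Q : Dirs P} {l : Zd d} {zh : ℂ → ℂ}

/-- powers of the large number -/
lemma lx_pow (P : Sc d μ w) {n m : ℕ} (h : n < m) : 10 ^ 7 * P.Λ ^ n ≤ P.Λ ^ m := by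
  have h1 := P.hΛ
  have h0 : 0 < P.Λ := by linarith [show (0 : ℝ) < 10 ^ 7 by norm_num]
  have h2 : P.Λ ^ (n + 1) ≤ P.Λ ^ m := pow_le_pow_right₀ (by linarith [show (1 : ℝ) ≤ 10 ^ 7 by norm_num]) h
  rw [pow_succ] at h2
  have h3 : 0 < P.Λ ^ n := pow_pos h0 n
  nlinarith

/-- the norm of a vector in the moving plane -/
lemma lx_kap_sub (hS : Sheet P Q l zh) (hP : Prim l) (hlL : ‖l‖ ≤ P.L) {Ξ₁ Ξ₂ : ℂ}
    (h1 : Ξ₁ ∈ Q.Om l) (h2 : Ξ₂ ∈ Q.Om l) (h : ‖Ξ₁ - Ξ₂‖ ≤ 1 / 4) :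
    ‖Q.kap l Ξ₁ (zh Ξ₁) - Q.kap l Ξ₂ (zh Ξ₂)‖ ≤ 21 / 10 * ‖Ξ₁ - Ξ₂‖ := by
  have hl := hP.1
  have hΛ := P.Λ_ge
  have hΛ0 := P.Λ_pos
  have hl2 := one_le_l2 hl
  have hso := one_le_so Q hl hlL
  have hso2 := so_sq Q l
  have hed2 := one_le_l2_ed Q hl hlL
  have hedΛ := l2_ed_le Q hlL
  have hn1 := norm_sq_le_l2 l
  have hn2 := norm_sq_le_l2 (Q.ed l)
  have hs0 : 0 < Q.so l := by linarith
  set t : ℝ := ‖Ξ₁ - Ξ₂‖ with ht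
  have ht0 : 0 ≤ t := norm_nonneg _
  have hlip := hS.lip Ξ₁ h1 Ξ₂ h2 h
  have e1 : Q.kap l Ξ₁ (zh Ξ₁) - Q.kap l Ξ₂ (zh Ξ₂) =
      ((Ξ₁ - Ξ₂) / (l2 l : ℂ)) • zc l + (zh Ξ₁ - zh Ξ₂) • zc (Q.ed l) := by
    unfold Dirs.kap
    rw [sub_div, sub_smul, sub_smul]
    abel
  have hz : ∀ n : Zd d, ‖(zc n : Cd d)‖ = ‖n‖ := by
    intro n
    apply le_antisymm
    · rw [pi_norm_le_iff_of_nonneg (norm_nonneg _)]
      intro j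
      have := norm_le_pi_norm n j
      unfold zc
      rwa [Complex.norm_intCast, ← Int.norm_eq_abs]
    · rw [pi_norm_le_iff_of_nonneg (norm_nonneg _)]
      intro j
      have := norm_le_pi_norm (zc n : Cd d) j
      unfold zc at this
      rwa [Complex.norm_intCast, ← Int.norm_eq_abs] at this
  rw [e1]
  refine le_trans (norm_add_le _ _) ?_
  rw [norm_smul, norm_smul, hz, hz, norm_div, Complex.norm_real, Real.norm_of_nonneg (by linarith : 0 ≤ l2 l)]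
  -- first term
  have hA : t / l2 l * ‖l‖ ≤ t := by
    have h3 : ‖l‖ ≤ l2 l := by nlinarith [norm_nonneg l]
    rw [div_mul_eq_mul_div, div_le_iff₀ (by linarith)]
    exact mul_le_mul_of_nonneg_left h3 ht0
  -- second term
  have hB1 : ‖zh Ξ₁ - zh Ξ₂‖ ≤ t / Q.so l + (P.Λ ^ 8)⁻¹ * t := by
    have e2 : zh Ξ₁ - zh Ξ₂ = I * (Ξ₁ - Ξ₂) / (Q.so l : ℂ) +
      (zh Ξ₁ - zh Ξ₂ - I * (Ξ₁ - Ξ₂) / (Q.so l : ℂ)) := by ring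
    rw [e2]
    refine le_trans (norm_add_le _ _) ?_
    apply add_le_add _ hlip
    rw [norm_div, norm_mul, Complex.norm_I, one_mul, Complex.norm_real, Real.norm_of_nonneg hs0.le]
  have hed : ‖Q.ed l‖ ≤ Q.so l := by
    apply le_of_sq_le_sq _ hs0.le
    rw [hso2]
    nlinarith [norm_nonneg (Q.ed l)]
  have hed' : ‖Q.ed l‖ ≤ P.Λ := by
    have h3 : ‖Q.ed l‖ ^ 2 ≤ P.Λ := le_trans hn2 hedΛ
    nlinarith [norm_nonneg (Q.ed l)]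
  have hB : ‖zh Ξ₁ - zh Ξ₂‖ * ‖Q.ed l‖ ≤ t + 1 / 10 * t := by
    refine le_trans (mul_le_mul_of_nonneg_right hB1 (norm_nonneg _)) ?_
    rw [add_mul]
    apply add_le_add
    · rw [div_mul_eq_mul_div, div_le_iff₀ hs0]
      exact mul_le_mul_of_nonneg_left hed ht0
    · have h4 : (P.Λ ^ 8)⁻¹ * ‖Q.ed l‖ ≤ 1 / 10 := by
        rw [inv_mul_le_iff₀ (by positivity)]
        have h5 := lx_pow P (show 1 < 8 by norm_num)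
        rw [pow_one] at h5
        linarith
      calc (P.Λ ^ 8)⁻¹ * t * ‖Q.ed l‖ = (P.Λ ^ 8)⁻¹ * ‖Q.ed l‖ * t := by ring
        _ ≤ 1 / 10 * t := mul_le_mul_of_nonneg_right h4 ht0
  linarith

/-- a single site is clean -/
lemma lx_cl (hS : Sheet P Q l zh) (hP : Prim l) (hlL : ‖l‖ ≤ P.L) {n : Zd d} {Ξ : ℂ}
    (h : Ξ ∈ Q.Om l) (hc : ¬ Fast Q l n ∨ P.T1 ≤ |Ξ.im|) (hn : ‖ph Q l zh n Ξ‖ ≤ P.Λ ^ 4) :
    Cl P (P.Λ ^ 6) (q μ (Q.kap l Ξ (zh Ξ) + zc n) 0) (Q.kap l Ξ (zh Ξ) + zc n) := by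
  intro m hm hmL
  rw [← q_eq, q_shift]
  refine ph_clean hS hP hlL h ?_ hn hm hmL
  rcases hc with hc | hc
  · left
    unfold Fast at hc
    linarith
  · right; exact hc

theorem single_exp (hS : Sheet P Q l zh) (hP : Prim l) (hlL : ‖l‖ ≤ P.L) {n : Zd d}
    (hn : Q.lam l n ≠ 0) {Ξ₁ Ξ₂ : ℂ} (h1 : Ξ₁ ∈ Q.Om l) (h2 : Ξ₂ ∈ Q.Om l)
    (h : ‖Ξ₁ - Ξ₂‖ ≤ 1 / 4) (hc : ¬ Fast Q l n ∨ P.T1 ≤ |Ξ₁.im|)
    (hn1 : ‖ph Q l zh n Ξ₁‖ ≤ 2 * P.c) (hn2 : ‖ph Q l zh n Ξ₂‖ ≤ 2 * P.c) :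
    1 / 2 * ‖Q.lam l n‖ * ‖Ξ₁ - Ξ₂‖ ≤
      ‖Ehat P (Q.kap l Ξ₁ (zh Ξ₁) + zc n) - Ehat P (Q.kap l Ξ₂ (zh Ξ₂) + zc n)‖ := by
  have hl := hP.1
  have hΛ := P.Λ_ge
  have hΛ0 := P.Λ_pos
  have hcΛ := P.hcΛ
  have hc8 := P.c_ge
  have hlam := lam_lb Q hl hlL hn
  have hph := ph_lip hS hP hlL hn h1 h2 h
  have hk := lx_kap_sub hS hP hlL h1 h2 h
  set t : ℝ := ‖Ξ₁ - Ξ₂‖ with ht
  have ht0 : 0 ≤ t := norm_nonneg _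
  have h24 := lx_pow P (show 2 < 4 by norm_num)
  have hLsq : P.Λ ≤ P.Λ ^ 2 := by nlinarith
  have hcl := lx_cl hS hP hlL h1 hc (le_trans hn1 (by nlinarith))
  set p₁ := Q.kap l Ξ₁ (zh Ξ₁) + zc n with hp1
  set p₂ := Q.kap l Ξ₂ (zh Ξ₂) + zc n with hp2
  have e1 : q μ p₁ 0 = ph Q l zh n Ξ₁ := by
    rw [hp1, q_shift, add_zero]; rfl
  have e2 : q μ p₂ 0 = ph Q l zh n Ξ₂ := by
    rw [hp2, q_shift, add_zero]; rfl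
  have hkk : ‖p₂ - p₁‖ ≤ 21 / 10 * t := by
    rw [norm_sub_rev, hp1, hp2, add_sub_add_right_eq_sub]
    exact hk
  have hG : P.G = P.Λ ^ 5 := rfl
  have h15 := lx_pow P (show 1 < 5 by norm_num)
  rw [pow_one] at h15
  have h56 := lx_pow P (show 5 < 6 by norm_num)
  have hq : ‖q μ p₂ 0 - q μ p₁ 0‖ ≤ 101 / 100 * ‖Q.lam l n‖ * t := by
    rw [e1, e2, norm_sub_rev]
    have e3 : ph Q l zh n Ξ₁ - ph Q l zh n Ξ₂ = Q.lam l n * (Ξ₁ - Ξ₂) +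
      (ph Q l zh n Ξ₁ - ph Q l zh n Ξ₂ - Q.lam l n * (Ξ₁ - Ξ₂)) := by ring
    rw [e3]
    refine le_trans (norm_add_le _ _) ?_
    rw [norm_mul]
    linarith
  have hq' : ‖q μ p₂ 0 - q μ p₁ 0‖ ≤ P.G / 32 := by
    rw [e1, e2]
    refine le_trans (norm_sub_le _ _) ?_
    rw [hG]
    linarith
  have hH := Hh_lip P (hcl.mono (by rw [hG]; nlinarith [pow_pos hΛ0 5])) hq' (le_trans hkk (by linarith))
  -- combine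
  have e4 : Ehat P p₁ - Ehat P p₂ = Q.lam l n * (Ξ₁ - Ξ₂) +
      (ph Q l zh n Ξ₁ - ph Q l zh n Ξ₂ - Q.lam l n * (Ξ₁ - Ξ₂)) -
        (Hh P (q μ p₂ 0) p₂ - Hh P (q μ p₁ 0) p₁) := by
    unfold Ehat
    rw [e1, e2]
    ring
  have hH2 : ‖Hh P (q μ p₂ 0) p₂ - Hh P (q μ p₁ 0) p₁‖ ≤ 1 / 100 * ‖Q.lam l n‖ * t := by
    refine le_trans hH ?_
    have hlt : 0 ≤ ‖Q.lam l n‖ * t := by positivity
    have i1 : (P.Λ ^ 6)⁻¹ * ‖q μ p₂ 0 - q μ p₁ 0‖ ≤ 1 / 1000 * ‖Q.lam l n‖ * t := by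
      rw [inv_mul_le_iff₀ (by positivity)]
      have : (2000 : ℝ) ≤ P.Λ ^ 6 := by
        have := lx_pow P (show 0 < 6 by norm_num)
        rw [pow_zero] at this
        linarith
      nlinarith
    have i2 : (P.Λ ^ 2)⁻¹ * ‖p₂ - p₁‖ ≤ 1 / 1000 * ‖Q.lam l n‖ * t := by
      rw [inv_mul_le_iff₀ (by positivity)]
      have h5 : 2 ≤ ‖Q.lam l n‖ * P.Λ := by
        rwa [div_le_iff₀ hΛ0] at hlam
      have h6 : 21 / 10 ≤ P.Λ ^ 2 * (1 / 1000 * ‖Q.lam l n‖) := by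
        have : P.Λ ^ 2 * (1 / 1000 * ‖Q.lam l n‖) = (1 / 1000 * P.Λ) * (‖Q.lam l n‖ * P.Λ) := by ring
        rw [this]
        nlinarith
      calc ‖p₂ - p₁‖ ≤ 21 / 10 * t := hkk
        _ ≤ (P.Λ ^ 2 * (1 / 1000 * ‖Q.lam l n‖)) * t := mul_le_mul_of_nonneg_right h6 ht0
        _ = _ := by ring
    linarith
  have e5 : ‖Q.lam l n * (Ξ₁ - Ξ₂)‖ = ‖Q.lam l n‖ * t := by rw [norm_mul]
  rw [e4]
  have f1 := norm_sub_norm_le (Q.lam l n * (Ξ₁ - Ξ₂)) (-(ph Q l zh n Ξ₁ - ph Q l zh n Ξ₂ - Q.lam l n * (Ξ₁ - Ξ₂) -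
        (Hh P (q μ p₂ 0) p₂ - Hh P (q μ p₁ 0) p₁)))
  rw [sub_neg_eq_add, norm_neg, e5, ← add_sub_assoc] at f1
  have f2 := norm_sub_le (ph Q l zh n Ξ₁ - ph Q l zh n Ξ₂ - Q.lam l n * (Ξ₁ - Ξ₂))
    (Hh P (q μ p₂ 0) p₂ - Hh P (q μ p₁ 0) p₁)
  have hlt : 0 ≤ ‖Q.lam l n‖ * t := by positivity
  linarith

end Fermi
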