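import Pool.Agent.Lib.Fermi.LocalDefs

/-!
# Chunk C2: consequences of the local model, LS2, LS3, LS4
-/

open scoped BigOperators Topology
open Set Filter

noncomputable section

namespace Fermi

namespace C2

variable {d : ℕ}

lemma bil_add (a v w : Cd d) : bil a (v + w) = bil a v + bil a w := by
  simp [bil, mul_add, Finset.sum_add_distrib]

lemma bil_sub (a v w : Cd d) : bil a (v - w) = bil a v - bil a w := by
  simp [bil, mul_sub, Finset.sum_sub_distrib]

lemma bil_smul (a v : Cd d) (z : ℂ) : bil a (z • v) = z * bil a v := by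
  simp only [bil, Pi.smul_apply, smul_eq_mul, Finset.mul_sum]
  exact Finset.sum_congr rfl fun j _ => by ring

lemma sub_bil (a b v : Cd d) : bil (a - b) v = bil a v - bil b v := by
  simp [bil, sub_mul, Finset.sum_sub_distrib]

lemma smul_bil (a v : Cd d) (z : ℂ) : bil (z • a) v = z * bil a v := by
  simp only [bil, Pi.smul_apply, smul_eq_mul, Finset.mul_sum]
  exact Finset.sum_congr rfl fun j _ => by ring

lemma bil_le (a v : Cd d) : ‖bil a v‖ ≤ d * ‖a‖ * ‖v‖ := by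
  calc ‖bil a v‖ ≤ ∑ j, ‖a j * v j‖ := norm_sum_le _ _
    _ ≤ ∑ _j : Fin d, ‖a‖ * ‖v‖ := by
        refine Finset.sum_le_sum fun j _ => ?_
        rw [norm_mul]
        exact mul_le_mul (norm_le_pi_norm a j) (norm_le_pi_norm v j) (norm_nonneg _)
          (norm_nonneg _)
    _ = d * ‖a‖ * ‖v‖ := by simp [mul_assoc]

lemma aff_add (p0 a : Cd d) (c : ℂ) (k w : Cd d) :
    aff p0 a c (k + w) = aff p0 a c k + bil a w := by
  have : k + w - p0 = (k - p0) + w := by abel
  simp only [aff, this, bil_add]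
  ring

/-- componentwise conjugate -/
def cj (a : Cd d) : Cd d := fun j => (starRingEnd ℂ) (a j)

/-- square of the euclidean norm -/
def n2 (a : Cd d) : ℝ := ∑ j, ‖a j‖ ^ 2

lemma cj_norm (a : Cd d) : ‖cj a‖ ≤ ‖a‖ := by
  refine (pi_norm_le_iff_of_nonneg (norm_nonneg _)).2 fun j => ?_
  simp only [cj, RCLike.norm_conj]
  exact norm_le_pi_norm a j

lemma bil_cj (a : Cd d) : bil a (cj a) = (n2 a : ℂ) := by
  simp only [bil, cj, n2, Complex.ofReal_sum]
  refine Finset.sum_congr rfl fun j _ => ?_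
  rw [Complex.mul_conj, Complex.normSq_eq_norm_sq]

lemma n2_ge (a : Cd d) : ‖a‖ ^ 2 ≤ n2 a := by
  have h0 : 0 ≤ n2 a := Finset.sum_nonneg fun j _ => by positivity
  have h : ‖a‖ ≤ Real.sqrt (n2 a) := by
    refine (pi_norm_le_iff_of_nonneg (Real.sqrt_nonneg _)).2 fun j => ?_
    refine Real.le_sqrt_of_sq_le ?_
    exact Finset.single_le_sum (f := fun j => ‖a j‖ ^ 2) (fun i _ => by positivity)
      (Finset.mem_univ j)
  calc ‖a‖ ^ 2 ≤ Real.sqrt (n2 a) ^ 2 := pow_le_pow_left₀ (norm_nonneg _) h 2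
    _ = n2 a := Real.sq_sqrt h0

/-- the transversal direction of a sheet -/
def nv (a : Cd d) : Cd d := ((‖a‖⁻¹ : ℝ) : ℂ) • cj a

lemma nv_norm (a : Cd d) : ‖nv a‖ ≤ 1 := by
  rw [nv, norm_smul, Complex.norm_real, norm_inv, norm_norm]
  rcases eq_or_lt_of_le (norm_nonneg a) with h | h
  · rw [← h]; simp
  · calc ‖a‖⁻¹ * ‖cj a‖ ≤ ‖a‖⁻¹ * ‖a‖ := by gcongr; exact cj_norm a
      _ = 1 := inv_mul_cancel₀ h.ne'

lemma bil_nv {a : Cd d} (ha : 1 ≤ ‖a‖) : 1 ≤ ‖bil a (nv a)‖ := by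
  have h0 : 0 < ‖a‖ := by linarith
  rw [nv, bil_smul, bil_cj, norm_mul, Complex.norm_real, Complex.norm_real, norm_inv, norm_norm]
  have h1 : 0 ≤ n2 a := le_trans (by positivity) (n2_ge a)
  rw [Real.norm_of_nonneg h1]
  have h2 := n2_ge a
  calc (1 : ℝ) ≤ ‖a‖ := ha
    _ = ‖a‖⁻¹ * ‖a‖ ^ 2 := by field_simp
    _ ≤ ‖a‖⁻¹ * n2 a := by gcongr

end C2

open C2

variable {d : ℕ} {F A B : Set (Cd d)} {p0 : Cd d} {r s M N : ℝ} {S : Finset (Zd d)}
  {a : Zd d → Cd d} {c : Zd d → ℂ}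

namespace C2

/-- consequences of `LC` -/
structure Cs (d : ℕ) (r s M N : ℝ) : Prop where
  dM : 1 ≤ (d : ℝ) * M
  s2l : (1000 : ℝ) * (d * M * s) ≤ s2 d N M s
  s2u : s2 d N M s ≤ 546 * ((N + 1) * (d * M * s))
  big : 10 ^ 6 * (d * ((N + 1) ^ 2 * ((N + 1) * (d * M * s)))) ≤ r
  sdM : s ≤ d * M * s
  sr : 10 ^ 6 * s ≤ r

lemma Cs.of (hc : LC d r s M N) (hs : 0 < s) : Cs d r s M N := by
  have hd : (1 : ℝ) ≤ d := by exact_mod_cast hc.d_one
  have hM := hc.M_one
  have hN := hc.N_one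
  have hdM : 1 ≤ (d : ℝ) * M := by nlinarith
  have hsdM : s ≤ d * M * s := by nlinarith
  have hN1 : (1 : ℝ) ≤ N + 1 := by linarith
  have hX : 0 < (d : ℝ) * M * s := by positivity
  have hbig : 10 ^ 6 * (d * ((N + 1) ^ 2 * ((N + 1) * (d * M * s)))) ≤ r := by
    refine le_trans ?_ hc.small
    have e1 : (10 : ℝ) ^ 6 * (d * ((N + 1) ^ 2 * ((N + 1) * (d * M * s))))
        = 10 ^ 6 * (N + 1) ^ 3 * d ^ 2 * M ^ 1 * s := by ring
    rw [e1]
    have h1 : (N + 1) ^ 3 ≤ (N + 1) ^ 8 := pow_le_pow_right₀ hN1 (by norm_num)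
    have h2 : (d : ℝ) ^ 2 ≤ (d : ℝ) ^ 3 := pow_le_pow_right₀ hd (by norm_num)
    have h3 : M ^ 1 ≤ M ^ 3 := pow_le_pow_right₀ hM (by norm_num)
    gcongr <;> norm_num
  refine ⟨hdM, ?_, ?_, hbig, hsdM, ?_⟩
  · unfold s2
    have h1 : (2 : ℝ) ≤ N + 1 := by linarith
    have h2 : 0 ≤ (20 * (d : ℝ) * M + 1) * s := by positivity
    have h3 : 26 * 2 * ((20 * (d : ℝ) * M + 1) * s) ≤ 26 * (N + 1) * ((20 * d * M + 1) * s) := by
      gcongr
    nlinarith
  · unfold s2
    have h2 : (20 * (d : ℝ) * M + 1) * s ≤ 21 * (d * M * s) := by nlinarith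
    have h3 : 26 * (N + 1) * ((20 * d * M + 1) * s) ≤ 26 * (N + 1) * (21 * (d * M * s)) := by
      gcongr
    nlinarith
  · refine le_trans ?_ hbig
    have h1 : (1 : ℝ) ≤ (N + 1) ^ 2 := one_le_pow₀ hN1
    have h2 : s ≤ (N + 1) * (d * M * s) := by nlinarith
    have h3 : (N + 1) * (d * M * s) ≤ (N + 1) ^ 2 * ((N + 1) * (d * M * s)) := by
      have : 0 ≤ (N + 1) * (d * M * s) := by positivity
      nlinarith
    have h4 : (N + 1) ^ 2 * ((N + 1) * (d * M * s))
        ≤ d * ((N + 1) ^ 2 * ((N + 1) * (d * M * s))) := by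
      have : 0 ≤ (N + 1) ^ 2 * ((N + 1) * (d * M * s)) := by positivity
      nlinarith
    linarith

/-- Change of an affine function. -/
lemma aff_move (h : LM F p0 r s M S a c) {m : Zd d} (hm : m ∈ S) (k w : Cd d) :
    ‖aff p0 (a m) (c m) k‖ - d * M * ‖w‖ ≤ ‖aff p0 (a m) (c m) (k + w)‖ := by
  rw [aff_add]
  have h1 : ‖bil (a m) w‖ ≤ d * M * ‖w‖ :=
    (bil_le _ _).trans (by gcongr; exact h.bound m hm)
  have h2 : ‖aff p0 (a m) (c m) k‖
      ≤ ‖aff p0 (a m) (c m) k + bil (a m) w‖ + ‖bil (a m) w‖ := by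
    calc ‖aff p0 (a m) (c m) k‖
        = ‖(aff p0 (a m) (c m) k + bil (a m) w) - bil (a m) w‖ := by rw [add_sub_cancel_right]
      _ ≤ _ := norm_sub_le _ _
  linarith

lemma aff_move_le (h : LM F p0 r s M S a c) {m : Zd d} (hm : m ∈ S) (k w : Cd d) :
    ‖aff p0 (a m) (c m) (k + w)‖ ≤ ‖aff p0 (a m) (c m) k‖ + d * M * ‖w‖ := by
  rw [aff_add]
  have h1 : ‖bil (a m) w‖ ≤ d * M * ‖w‖ :=
    (bil_le _ _).trans (by gcongr; exact h.bound m hm)
  exact (norm_add_le _ _).trans (by linarith)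

/-- the disc in the direction `nv (a n)` is good at `k` -/
lemma bdry (h : LM F p0 r s M S a c) (hc : LC d r s M N) {n : Zd d} (hn : n ∈ S) {k : Cd d}
    (hk : ‖k - p0‖ ≤ 3 / 4 * r) (hkn : ‖aff p0 (a n) (c n) k‖ ≤ 5 * s)
    (hkm : ∀ m ∈ S, m ≠ n → (20 * d * M + 1) * s ≤ ‖aff p0 (a m) (c m) k‖)
    {z : ℂ} (hz : ‖z‖ = 20 * s) : k + z • nv (a n) ∉ F := by
  have hs := h.s_pos
  have C := Cs.of hc hs
  have hv := nv_norm (a n)
  have hzv : ‖z • nv (a n)‖ ≤ 20 * s := by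
    rw [norm_smul, hz]
    nlinarith
  refine h.lm1 _ ?_ ?_
  · calc ‖k + z • nv (a n) - p0‖ = ‖(k - p0) + z • nv (a n)‖ := by congr 1; abel
      _ ≤ ‖k - p0‖ + ‖z • nv (a n)‖ := norm_add_le _ _
      _ ≤ r := by linarith [C.sr]
  · intro m hm
    by_cases hmn : m = n
    · subst hmn
      rw [aff_add, bil_smul]
      have h1 := bil_nv (h.one_le m hm)
      have h2 : ‖z * bil (a m) (nv (a m))‖ ≥ 20 * s := by
        rw [norm_mul, hz]
        nlinarith
      have h3 : ‖z * bil (a m) (nv (a m))‖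
          ≤ ‖aff p0 (a m) (c m) k + z * bil (a m) (nv (a m))‖ + ‖aff p0 (a m) (c m) k‖ := by
        calc ‖z * bil (a m) (nv (a m))‖
            = ‖(aff p0 (a m) (c m) k + z * bil (a m) (nv (a m))) - aff p0 (a m) (c m) k‖ := by
              rw [add_sub_cancel_left]
          _ ≤ _ := norm_sub_le _ _
      linarith
    · have h1 := aff_move h hm k (z • nv (a n))
      have h2 := hkm m hm hmn
      have h3 : (d : ℝ) * M * ‖z • nv (a n)‖ ≤ d * M * (20 * s) := by
        have : 0 ≤ (d : ℝ) * M := by linarith [C.dM]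
        gcongr
      linarith

/-- uniqueness of the point of `F` in the disc in the direction `nv (a n)` -/
lemma uniq (h : LM F p0 r s M S a c) (hc : LC d r s M N) {n : Zd d} (hn : n ∈ S) {k : Cd d}
    (hk : ‖k - p0‖ ≤ 3 / 4 * r)
    (hkm : ∀ m ∈ S, m ≠ n → (40 * d * M + 1) * s ≤ ‖aff p0 (a m) (c m) k‖)
    {z₁ z₂ : ℂ} (hz₁ : ‖z₁‖ ≤ 20 * s) (hz₂ : ‖z₂‖ ≤ 20 * s)
    (h₁ : k + z₁ • nv (a n) ∈ F) (h₂ : k + z₂ • nv (a n) ∈ F) : z₁ = z₂ := by
  have hs := h.s_pos
  have C := Cs.of hc hs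
  have hv := nv_norm (a n)
  refine h.lm2 n hn k (nv (a n)) (40 * s) (by positivity) hv ?_ ?_ ?_ z₁ z₂
    (by linarith) (by linarith) h₁ h₂
  · linarith [C.sr]
  · intro m hm hmn z hz
    have h1 := aff_move h hm k (z • nv (a n))
    have h2 := hkm m hm hmn
    have hzv : ‖z • nv (a n)‖ ≤ 40 * s := by
      rw [norm_smul]
      calc ‖z‖ * ‖nv (a n)‖ ≤ (40 * s) * 1 := by gcongr
        _ = 40 * s := mul_one _
    have h3 : (d : ℝ) * M * ‖z • nv (a n)‖ ≤ d * M * (40 * s) := by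
      have : 0 ≤ (d : ℝ) * M := by linarith [C.dM]
      gcongr
    linarith
  · have h1 := bil_nv (h.one_le n hn)
    nlinarith

/-- a point of `F` isolated on the sheet `n` is near the sheet `n` -/
lemma near (h : LM F p0 r s M S a c) {n : Zd d} {p : Cd d} (hp0 : ‖p - p0‖ ≤ r)
    (hF : p ∈ F) (hiso : ∀ m ∈ S, m ≠ n → s ≤ ‖aff p0 (a m) (c m) p‖) :
    ‖aff p0 (a n) (c n) p‖ ≤ s := by
  by_contra hcon
  push Not at hcon
  refine h.lm1 p hp0 ?_ hF
  intro m hm
  by_cases hmn : m = n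
  · subst hmn; exact hcon.le
  · exact hiso m hm hmn

end C2

/-- LS2: an isolated point cannot be in both `XX F A` and `XX F B`. -/
theorem LS2 (D : Decomp F A B) (h : LM F p0 r s M S a c) (hc : LC d r s M N)
    (hN : (S.card : ℝ) ≤ N) {n : Zd d} (hn : n ∈ S) {p : Cd d} (hp0 : ‖p - p0‖ ≤ r / 4)
    (hiso : IsoOn p0 S a c n (s2 d N M s) p) : ¬ (p ∈ XX F A ∧ p ∈ XX F B) := by
  rintro ⟨hA, hB⟩
  have hs := h.s_pos
  have C := Cs.of hc hs
  have hM := hc.M_one
  have hd : (1 : ℝ) ≤ d := by exact_mod_cast hc.d_one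
  have hdM0 : 0 < (d : ℝ) * M := by linarith [C.dM]
  have hX : s ≤ d * M * s := C.sdM
  have hpF : p ∈ F := XX_subset_F D hA
  have hpn : ‖aff p0 (a n) (c n) p‖ ≤ s := by
    refine near h (by linarith [C.sr]) hpF fun m hm hmn => ?_
    have := hiso m hm hmn
    linarith [C.s2l]
  set ε : ℝ := s / (d * M) with hε
  have hεpos : 0 < ε := by positivity
  have hεs : ε ≤ s := by
    rw [hε, div_le_iff₀ hdM0]
    nlinarith
  have hdMε : (d : ℝ) * M * ε = s := by rw [hε]; field_simp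
  -- the disc at points near `p`
  have hgeo : ∀ q : Cd d, ‖q - p‖ ≤ ε → ‖q - p0‖ ≤ 3 / 4 * r ∧
      ‖aff p0 (a n) (c n) q‖ ≤ 5 * s ∧
      (∀ m ∈ S, m ≠ n → (40 * d * M + 1) * s ≤ ‖aff p0 (a m) (c m) q‖) := by
    intro q hq
    have hqp : q = p + (q - p) := by abel
    have hdq : (d : ℝ) * M * ‖q - p‖ ≤ s := by
      calc (d : ℝ) * M * ‖q - p‖ ≤ d * M * ε := by gcongr
        _ = s := hdMε
    refine ⟨?_, ?_, ?_⟩
    · calc ‖q - p0‖ = ‖(q - p) + (p - p0)‖ := by congr 1; abel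
        _ ≤ ‖q - p‖ + ‖p - p0‖ := norm_add_le _ _
        _ ≤ 3 / 4 * r := by linarith [C.sr]
    · have := aff_move_le h hn p (q - p)
      rw [← hqp] at this
      linarith
    · intro m hm hmn
      have h1 := aff_move h hm p (q - p)
      rw [← hqp] at h1
      have h2 := hiso m hm hmn
      have h3 := C.s2l
      nlinarith
  have key : ∀ q : Cd d, ‖q - p‖ ≤ ε → q ∈ F → q ∈ A := by
    intro q hq hqF
    have hbd : ∀ t ∈ Icc (0 : ℝ) 1, ∀ z : ℂ, ‖z‖ = 20 * s →
        (fun t : ℝ => p + ((t : ℂ)) • (q - p)) t + z • nv (a n) ∉ F := by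
      intro t ht z hz
      have hdist : ‖(p + ((t : ℂ)) • (q - p)) - p‖ ≤ ε := by
        rw [add_sub_cancel_left, norm_smul, Complex.norm_real, Real.norm_of_nonneg ht.1]
        calc t * ‖q - p‖ ≤ 1 * ε := by
              apply mul_le_mul ht.2 hq (norm_nonneg _) zero_le_one
          _ = ε := one_mul _
      obtain ⟨g1, g2, g3⟩ := hgeo _ hdist
      refine bdry h hc hn g1 g2 (fun m hm hmn => ?_) hz
      have := g3 m hm hmn
      nlinarith
    have hcont : ContinuousOn (fun t : ℝ => p + ((t : ℂ)) • (q - p)) (Icc 0 1) := by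
      apply Continuous.continuousOn
      fun_prop
    have hone : (1 : ℝ) ∈ Icc (0 : ℝ) 1 := ⟨zero_le_one, le_rfl⟩
    obtain ⟨z, hz, hzA⟩ := disc_path D (fun t : ℝ => p + ((t : ℂ)) • (q - p)) hcont (nv (a n))
      (by positivity : (0 : ℝ) < 20 * s) hbd ⟨0, by simp; positivity, by simpa using hA⟩ 1 hone
    obtain ⟨z', hz', hzB⟩ := disc_path D.symm (fun t : ℝ => p + ((t : ℂ)) • (q - p)) hcont
      (nv (a n)) (by positivity : (0 : ℝ) < 20 * s) hbd
      ⟨0, by simp; positivity, by simpa using hB⟩ 1 hone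
    have e1 : p + ((1 : ℝ) : ℂ) • (q - p) = q := by simp
    simp only [e1] at hzA hzB
    obtain ⟨g1, g2, g3⟩ := hgeo q hq
    have hz0 : z' = 0 := by
      refine uniq h hc hn g1 g3 hz'.le (by simp; positivity) (XX_subset_F D.symm hzB) ?_
      simpa using hqF
    rw [hz0] at hzB
    have : q ∈ XX F B := by simpa using hzB
    exact XX_subset D.symm this
  -- hence `F \ A` does not accumulate at `p`
  have hcl : p ∈ closure (F \ A) := hA
  rw [Metric.mem_closure_iff] at hcl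
  obtain ⟨q, hq, hdist⟩ := hcl ε hεpos
  refine hq.2 (key q ?_ hq.1)
  rw [dist_comm, dist_eq_norm] at hdist
  exact hdist.le

/-- LS3: two isolated points on the same sheet have the same class. -/
theorem LS3 (D : Decomp F A B) (h : LM F p0 r s M S a c) (hc : LC d r s M N)
    (hN : (S.card : ℝ) ≤ N) {n : Zd d} (hn : n ∈ S) {p p' : Cd d}
    (hp0 : ‖p - p0‖ ≤ r / 8) (hp0' : ‖p' - p0‖ ≤ r / 8)
    (hiso : IsoOn p0 S a c n (s2 d N M s) p) (hiso' : IsoOn p0 S a c n (s2 d N M s) p')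
    (hF : p ∈ F) (hF' : p' ∈ F) (hX : p ∈ XX F A) : p' ∈ XX F A := by
  classical
  have hs := h.s_pos
  have C := Cs.of hc hs
  have hM := hc.M_one
  have hd : (1 : ℝ) ≤ d := by exact_mod_cast hc.d_one
  have hdM0 : 0 < (d : ℝ) * M := by linarith [C.dM]
  have hX0 : s ≤ d * M * s := C.sdM
  have hr : 0 ≤ r := by linarith [C.sr]
  have hpn : ‖aff p0 (a n) (c n) p‖ ≤ s := by
    refine near h (by linarith) hF fun m hm hmn => ?_
    have := hiso m hm hmn
    linarith [C.s2l]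
  have hpn' : ‖aff p0 (a n) (c n) p'‖ ≤ s := by
    refine near h (by linarith) hF' fun m hm hmn => ?_
    have := hiso' m hm hmn
    linarith [C.s2l]
  -- affine functions along the complex line through `p` and `p'`
  have haff : ∀ m : Zd d, ∀ g : ℂ, aff p0 (a m) (c m) (p + g • (p' - p)) =
      aff p0 (a m) (c m) p + g * (aff p0 (a m) (c m) p' - aff p0 (a m) (c m) p) := by
    intro m g
    have e : p' = p + (p' - p) := by abel
    rw [aff_add, bil_smul]
    conv_rhs => rw [e, aff_add]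
    simp
  obtain ⟨z, hz2, hz⟩ := exists_vertex (S.erase n) (fun m => aff p0 (a m) (c m) p)
    (fun m => aff p0 (a m) (c m) p') (s₁ := (20 * d * M + 1) * s) (s₂ := s2 d N M s)
    (by positivity)
    (by
      have h1 : (((S.erase n).card : ℝ)) ≤ N := by
        have : (S.erase n).card ≤ S.card := Finset.card_erase_le
        have : ((S.erase n).card : ℝ) ≤ (S.card : ℝ) := by exact_mod_cast this
        linarith
      unfold s2
      have h2 : 0 ≤ (20 * (d : ℝ) * M + 1) * s := by positivity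
      calc 26 * (((S.erase n).card : ℝ) + 1) * ((20 * (d : ℝ) * M + 1) * s)
          ≤ 26 * (N + 1) * ((20 * (d : ℝ) * M + 1) * s) := by gcongr
        _ = _ := by ring)
    (fun m hm => hiso m (Finset.mem_of_mem_erase hm) (Finset.ne_of_mem_erase hm))
    (fun m hm => hiso' m (Finset.mem_of_mem_erase hm) (Finset.ne_of_mem_erase hm))
  -- the discs along the broken line do not meet `F` in their boundaries
  have hbd : ∀ g : ℂ, ‖g‖ ≤ 2 → (∀ m ∈ S, m ≠ n → (20 * d * M + 1) * s ≤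
      ‖aff p0 (a m) (c m) p + g * (aff p0 (a m) (c m) p' - aff p0 (a m) (c m) p)‖) →
      ∀ w : ℂ, ‖w‖ = 20 * s → (p + g • (p' - p)) + w • nv (a n) ∉ F := by
    intro g hg hgm w hw
    have hpp' : ‖p' - p‖ ≤ r / 4 := by
      calc ‖p' - p‖ = ‖(p' - p0) - (p - p0)‖ := by congr 1; abel
        _ ≤ ‖p' - p0‖ + ‖p - p0‖ := norm_sub_le _ _
        _ ≤ r / 4 := by linarith
    refine bdry h hc hn ?_ ?_ ?_ hw
    · calc ‖p + g • (p' - p) - p0‖ = ‖(p - p0) + g • (p' - p)‖ := by congr 1; abel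
        _ ≤ ‖p - p0‖ + ‖g • (p' - p)‖ := norm_add_le _ _
        _ = ‖p - p0‖ + ‖g‖ * ‖p' - p‖ := by rw [norm_smul]
        _ ≤ r / 8 + 2 * (r / 4) := by gcongr
        _ ≤ 3 / 4 * r := by linarith
    · rw [haff]
      calc ‖aff p0 (a n) (c n) p + g * (aff p0 (a n) (c n) p' - aff p0 (a n) (c n) p)‖
          ≤ ‖aff p0 (a n) (c n) p‖ +
            ‖g‖ * ‖aff p0 (a n) (c n) p' - aff p0 (a n) (c n) p‖ := by
            rw [← norm_mul]; exact norm_add_le _ _
        _ ≤ s + 2 * (s + s) := by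
            have : ‖aff p0 (a n) (c n) p' - aff p0 (a n) (c n) p‖ ≤ s + s :=
              (norm_sub_le _ _).trans (by linarith)
            gcongr
        _ = 5 * s := by ring
    · intro m hm hmn
      rw [haff]
      exact hgm m hm hmn
  have hone : (1 : ℝ) ∈ Icc (0 : ℝ) 1 := ⟨zero_le_one, le_rfl⟩
  -- first half
  obtain ⟨w₁, hw₁, hw₁A⟩ := disc_path D (fun t : ℝ => p + ((t : ℂ) * z) • (p' - p))
    (by apply Continuous.continuousOn; fun_prop) (nv (a n)) (by positivity : (0 : ℝ) < 20 * s)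
    (by
      intro t ht w hw
      refine hbd _ ?_ ?_ w hw
      · rw [norm_mul, Complex.norm_real, Real.norm_of_nonneg ht.1]
        calc t * ‖z‖ ≤ 1 * 2 := mul_le_mul ht.2 hz2 (norm_nonneg _) zero_le_one
          _ = 2 := one_mul _
      · intro m hm hmn
        exact (hz m (Finset.mem_erase.2 ⟨hmn, hm⟩) t ht).1)
    ⟨0, by simp; positivity, by simpa using hX⟩ 1 hone
  -- second half
  obtain ⟨w₂, hw₂, hw₂A⟩ := disc_path D (fun t : ℝ => p + (z + (t : ℂ) * (1 - z)) • (p' - p))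
    (by apply Continuous.continuousOn; fun_prop) (nv (a n)) (by positivity : (0 : ℝ) < 20 * s)
    (by
      intro t ht w hw
      refine hbd _ ?_ ?_ w hw
      · have e : z + (t : ℂ) * (1 - z) = ((1 - t : ℝ) : ℂ) * z + (t : ℂ) := by
          push_cast; ring
        rw [e]
        calc ‖((1 - t : ℝ) : ℂ) * z + (t : ℂ)‖ ≤ ‖((1 - t : ℝ) : ℂ) * z‖ + ‖(t : ℂ)‖ :=
              norm_add_le _ _
          _ = (1 - t) * ‖z‖ + t := by
              rw [norm_mul, Complex.norm_real, Complex.norm_real, Real.norm_of_nonneg ht.1,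
                Real.norm_of_nonneg (by linarith [ht.2] : (0 : ℝ) ≤ 1 - t)]
          _ ≤ (1 - t) * 2 + t := by
              have : 0 ≤ 1 - t := by linarith [ht.2]
              gcongr
          _ ≤ 2 := by linarith [ht.1]
      · intro m hm hmn
        exact (hz m (Finset.mem_erase.2 ⟨hmn, hm⟩) t ht).2)
    ⟨w₁, hw₁.le, by simpa using hw₁A⟩ 1 hone
  have e2 : p + (z + ((1 : ℝ) : ℂ) * (1 - z)) • (p' - p) = p' := by
    have : z + ((1 : ℝ) : ℂ) * (1 - z) = 1 := by push_cast; ring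
    rw [this, one_smul]; abel
  simp only [e2] at hw₂A
  have hw0 : w₂ = 0 := by
    refine uniq h hc hn (by linarith) (fun m hm hmn => ?_) hw₂.le (by simp; positivity)
      (XX_subset_F D hw₂A) (by simpa using hF')
    have h1 := hiso' m hm hmn
    have h2 := C.s2l
    nlinarith
  rw [hw0] at hw₂A
  simpa using hw₂A

/-- LS4: existence of isolated points on a sheet passing near the centre. -/
theorem LS4 (h : LM F p0 r s M S a c) (hc : LC d r s M N)
    (hN : (S.card : ℝ) ≤ N) {n : Zd d} (hn : n ∈ S) (hcn : ‖c n‖ ≤ 4 * s) :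
    ∃ p' ∈ F, ‖p' - p0‖ ≤ r / 16 ∧ IsoOn p0 S a c n (s2 d N M s + s) p' := by
  classical
  have hs := h.s_pos
  have C := Cs.of hc hs
  have hM := hc.M_one
  have hN1 := hc.N_one
  have hd : (1 : ℝ) ≤ d := by exact_mod_cast hc.d_one
  have hdM0 : 0 < (d : ℝ) * M := by linarith [C.dM]
  have hX0 : s ≤ d * M * s := C.sdM
  have hr : 0 ≤ r := by linarith [C.sr]
  have han := h.one_le n hn
  have han0 : 0 < ‖a n‖ := by linarith
  have hn2 : ‖a n‖ ^ 2 ≤ n2 (a n) := n2_ge (a n)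
  have hn2p : 0 < n2 (a n) := lt_of_lt_of_le (by positivity) hn2
  have hn2c : (n2 (a n) : ℂ) ≠ 0 := by exact_mod_cast hn2p.ne'
  set I := S.erase n with hI
  have hIcard : ((I.card : ℝ)) ≤ N := by
    have : I.card ≤ S.card := Finset.card_erase_le
    have : (I.card : ℝ) ≤ (S.card : ℝ) := by exact_mod_cast this
    linarith
  set lam : Zd d → ℂ := fun m => bil (a m) (cj (a n)) / (n2 (a n) : ℂ) with hlam
  obtain ⟨w', hw'1, -, hw'⟩ := exists_dir I (fun m => a m - lam m • a n)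
    (fun m hm => h.sep n hn m (Finset.mem_of_mem_erase hm) (Finset.ne_of_mem_erase hm).symm _)
  set v' : Cd d := w' - (bil (a n) w' / (n2 (a n) : ℂ)) • cj (a n) with hv'
  have hv'n : bil (a n) v' = 0 := by
    rw [hv', bil_sub, bil_smul, bil_cj]
    field_simp
    ring
  have hv'm : ∀ m, bil (a m) v' = bil (a m - lam m • a n) w' := by
    intro m
    rw [hv', bil_sub, bil_smul, sub_bil, smul_bil, hlam]
    ring
  have hv'norm : ‖v'‖ ≤ d + 1 := by
    have h1 : ‖bil (a n) w'‖ ≤ d * ‖a n‖ := by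
      calc ‖bil (a n) w'‖ ≤ d * ‖a n‖ * ‖w'‖ := bil_le _ _
        _ ≤ d * ‖a n‖ * 1 := by gcongr
        _ = d * ‖a n‖ := mul_one _
    have h2 : ‖(bil (a n) w' / (n2 (a n) : ℂ)) • cj (a n)‖ ≤ d := by
      rw [norm_smul, norm_div, Complex.norm_real, Real.norm_of_nonneg hn2p.le]
      rw [div_mul_eq_mul_div, div_le_iff₀ hn2p]
      calc ‖bil (a n) w'‖ * ‖cj (a n)‖ ≤ (d * ‖a n‖) * ‖a n‖ := by
            gcongr
            exact cj_norm _
        _ = d * ‖a n‖ ^ 2 := by ring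
        _ ≤ d * n2 (a n) := by gcongr
    calc ‖v'‖ ≤ ‖w'‖ + ‖(bil (a n) w' / (n2 (a n) : ℂ)) • cj (a n)‖ := norm_sub_le _ _
      _ ≤ d + 1 := by linarith
  -- choice of the parameter
  set L : ℝ := s2 d N M s + s + 10 * (d * M * s) with hL
  have hLpos : 0 < L := by
    have := C.s2l
    nlinarith
  have hLup : L ≤ 557 * ((N + 1) * (d * M * s)) := by
    have h1 := C.s2u
    have h2 : d * M * s ≤ (N + 1) * (d * M * s) := by nlinarith [mul_pos hdM0 hs]
    linarith
  obtain ⟨θ, hθ, hθm⟩ := exists_avoid I (fun m => {x : ℝ | ‖c m + (x : ℂ) * bil (a m) v'‖ < L})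
    (δ := 4 * L * (N + 1)) (ρ := r / (32 * (d + 1)))
    (by
      have : 0 < r := by linarith [C.sr]
      positivity)
    (by
      intro m hm x hx y hy
      have hx' : ‖c m + (x : ℂ) * bil (a m) v'‖ < L := hx
      have hy' : ‖c m + (y : ℂ) * bil (a m) v'‖ < L := hy
      have h1 : |x - y| * ‖bil (a m) v'‖ < 2 * L := by
        calc |x - y| * ‖bil (a m) v'‖ = ‖((x - y : ℝ) : ℂ) * bil (a m) v'‖ := by
              rw [norm_mul, Complex.norm_real, Real.norm_eq_abs]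
          _ = ‖(c m + (x : ℂ) * bil (a m) v') - (c m + (y : ℂ) * bil (a m) v')‖ := by
              congr 1; push_cast; ring
          _ ≤ ‖c m + (x : ℂ) * bil (a m) v'‖ + ‖c m + (y : ℂ) * bil (a m) v'‖ :=
              norm_sub_le _ _
          _ < 2 * L := by linarith
      have h2 : 1 / (2 * (N + 1)) ≤ ‖bil (a m) v'‖ := by
        rw [hv'm]
        refine le_trans ?_ (hw' m hm)
        apply one_div_le_one_div_of_le (by positivity)
        linarith
      have h3 : |x - y| * (1 / (2 * (N + 1))) ≤ 2 * L :=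
        le_trans (by gcongr) h1.le
      rw [mul_one_div, div_le_iff₀ (by positivity)] at h3
      linarith)
    (by
      rw [lt_div_iff₀ (by positivity)]
      have hb := C.big
      have hY : 0 < (N + 1) * (d * M * s) := by
        have := mul_pos hdM0 hs
        positivity
      have h1 : (I.card : ℝ) * (4 * L * (N + 1)) * (32 * (d + 1))
          ≤ (N + 1) * (4 * (557 * ((N + 1) * (d * M * s))) * (N + 1)) * (32 * (2 * d)) := by
        have e1 : (I.card : ℝ) ≤ N + 1 := by linarith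
        have e2 : (d : ℝ) + 1 ≤ 2 * d := by linarith
        gcongr
      have h2 : (N + 1) * (4 * (557 * ((N + 1) * (d * M * s))) * (N + 1)) * (32 * (2 * d))
          = 142592 * (d * ((N + 1) ^ 2 * ((N + 1) * (d * M * s)))) := by ring
      have h3 : 0 < (d : ℝ) * ((N + 1) ^ 2 * ((N + 1) * (d * M * s))) := by positivity
      linarith)
  set k : Cd d := p0 + (θ : ℂ) • v' with hk
  have hkm : ∀ m ∈ S, m ≠ n → L ≤ ‖aff p0 (a m) (c m) k‖ := by
    intro m hm hmn
    have h1 := hθm m (Finset.mem_erase.2 ⟨hmn, hm⟩)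
    simp only [Set.mem_ofPred_eq, not_lt] at h1
    have h2 : aff p0 (a m) (c m) k = c m + (θ : ℂ) * bil (a m) v' := by
      rw [hk, aff, add_sub_cancel_left, bil_smul]
    rw [h2]; exact h1
  have hkn : aff p0 (a n) (c n) k = c n := by
    rw [hk, aff, add_sub_cancel_left, bil_smul, hv'n, mul_zero, add_zero]
  have hk0 : ‖k - p0‖ ≤ r / 32 := by
    rw [hk, add_sub_cancel_left, norm_smul, Complex.norm_real, Real.norm_of_nonneg hθ.1]
    calc θ * ‖v'‖ ≤ r / (32 * (d + 1)) * (d + 1) := by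
          apply mul_le_mul hθ.2 hv'norm (norm_nonneg _) (by positivity)
      _ = r / 32 := by field_simp
  have hv := nv_norm (a n)
  have hbn := bil_nv han
  obtain ⟨z, hz, hzF⟩ := h.lm3 n hn k (nv (a n)) (20 * s) (by positivity) hv
    (by linarith [C.sr])
    (by
      intro m hm hmn z hz
      have h1 := aff_move h hm k (z • nv (a n))
      have h2 := hkm m hm hmn
      have hzv : ‖z • nv (a n)‖ ≤ 20 * s := by
        rw [norm_smul]
        calc ‖z‖ * ‖nv (a n)‖ ≤ (20 * s) * 1 := by gcongr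
          _ = 20 * s := mul_one _
      have h3 : (d : ℝ) * M * ‖z • nv (a n)‖ ≤ d * M * (20 * s) := by gcongr
      have h4 := C.s2l
      nlinarith)
    (by nlinarith)
    (by rw [hkn]; nlinarith)
  have hzv : ‖z • nv (a n)‖ ≤ 10 * s := by
    rw [norm_smul]
    calc ‖z‖ * ‖nv (a n)‖ ≤ (20 * s / 2) * 1 := by gcongr
      _ = 10 * s := by ring
  refine ⟨k + z • nv (a n), hzF, ?_, ?_⟩
  · calc ‖k + z • nv (a n) - p0‖ = ‖(k - p0) + z • nv (a n)‖ := by congr 1; abel
      _ ≤ ‖k - p0‖ + ‖z • nv (a n)‖ := norm_add_le _ _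
      _ ≤ r / 16 := by linarith [C.sr]
  · intro m hm hmn
    have h1 := aff_move h hm k (z • nv (a n))
    have h2 := hkm m hm hmn
    have h3 : (d : ℝ) * M * ‖z • nv (a n)‖ ≤ d * M * (10 * s) := by gcongr
    have h4 : (d : ℝ) * M * (10 * s) = 10 * (d * M * s) := by ring
    linarith

end Fermi
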