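import Pool.Agent.Lib.Fermi.LocalDefs
import Pool.Agent.Lib.Fermi.Local2

/-!
# Chunk C1: LS1 and exists_not_mem
-/

open scoped BigOperators Topology
open Set Filter

noncomputable section

namespace Fermi

open C2

variable {d : ℕ} {F A B : Set (Cd d)} {p0 : Cd d} {r s M N : ℝ} {S : Finset (Zd d)}
  {a : Zd d → Cd d} {c : Zd d → ℂ}

/-- basic inequalities between the constants -/
theorem c1_consts (hc : LC d r s M N) (hs : 0 < s) :
    1 ≤ M ∧ 1 ≤ N ∧ (1 : ℝ) ≤ d ∧ 0 < r ∧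
      10 ^ 7 * (N + 1) ^ 7 * (d * M) ^ 2 * s ≤ r := by
  have hM := hc.M_one
  have hN := hc.N_one
  have hd : (1 : ℝ) ≤ d := by exact_mod_cast hc.d_one
  have h1 : 10 ^ 7 * (N + 1) ^ 7 * ((d : ℝ) * M) ^ 2 * s ≤ 10 ^ 7 * (N + 1) ^ 8 * d ^ 3 * M ^ 3 * s := by
    have e1 : 10 ^ 7 * (N + 1) ^ 8 * (d : ℝ) ^ 3 * M ^ 3 * s
        = (10 ^ 7 * (N + 1) ^ 7 * ((d : ℝ) * M) ^ 2 * s) * ((N + 1) * (d * M)) := by ring
    rw [e1]
    apply le_mul_of_one_le_right (by positivity)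
    have : 1 ≤ (d : ℝ) * M := by nlinarith
    nlinarith
  have h2 := h1.trans hc.small
  refine ⟨hM, hN, hd, lt_of_lt_of_le (by positivity) h2, h2⟩

/-- A transversal line contains points outside `F`. -/
theorem exists_not_mem (h : LM F p0 r s M S a c) (hc : LC d r s M N)
    (hN : (S.card : ℝ) ≤ N) (v : Cd d) (hv : ‖v‖ ≤ 1) (hb : ∀ n ∈ S, 1 ≤ M * ‖bil (a n) v‖) :
    ∃ z : ℂ, p0 + z • v ∉ F := by
  have hs := h.s_pos
  obtain ⟨hM, hN1, hd, hr, hsm⟩ := c1_consts hc hs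
  have hdM : 1 ≤ (d : ℝ) * M := by nlinarith
  obtain ⟨θ, hθ, hav⟩ := exists_avoid S
    (fun n => {θ : ℝ | ‖aff p0 (a n) (c n) (p0 + (θ : ℂ) • v)‖ < s}) (δ := 2 * s * M) (ρ := r / 2)
    (by linarith)
    (by
      intro n hn x hx y hy
      simp only [mem_ofPred_eq] at hx hy
      have e1 : aff p0 (a n) (c n) (p0 + (x : ℂ) • v) - aff p0 (a n) (c n) (p0 + (y : ℂ) • v)
          = ((x - y : ℝ) : ℂ) * bil (a n) v := by
        rw [aff_add, aff_add, bil_smul, bil_smul]; push_cast; ring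
      have e2 : ‖((x - y : ℝ) : ℂ) * bil (a n) v‖ < 2 * s := by
        rw [← e1]
        refine lt_of_le_of_lt (norm_sub_le _ _) ?_
        linarith
      rw [norm_mul, Complex.norm_real, Real.norm_eq_abs] at e2
      have e3 := hb n hn
      have e4 : |x - y| ≤ |x - y| * (M * ‖bil (a n) v‖) := le_mul_of_one_le_right (abs_nonneg _) e3
      calc |x - y| ≤ |x - y| * (M * ‖bil (a n) v‖) := e4
        _ = M * (|x - y| * ‖bil (a n) v‖) := by ring
        _ ≤ M * (2 * s) := by gcongr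
        _ = 2 * s * M := by ring)
    (by
      have e1 : (S.card : ℝ) * (2 * s * M) ≤ N * (2 * s * M) := mul_le_mul_of_nonneg_right hN (by positivity)
      have e2 : 4 * (N * (2 * s * M)) < 10 ^ 7 * (N + 1) ^ 7 * (d * M) ^ 2 * s := by
        have e3 : N ≤ (N + 1) ^ 7 := by
          have : (N + 1) ^ 1 ≤ (N + 1) ^ 7 := pow_le_pow_right₀ (by linarith) (by norm_num)
          linarith
        have e4 : M ≤ (d * M) ^ 2 := by nlinarith
        have e5 : N * M ≤ (N + 1) ^ 7 * (d * M) ^ 2 := mul_le_mul e3 e4 (by linarith) (by positivity)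
        have e6 : N * M * s ≤ (N + 1) ^ 7 * (d * M) ^ 2 * s := mul_le_mul_of_nonneg_right e5 hs.le
        have e7 : 0 < (N + 1) ^ 7 * (d * M) ^ 2 * s := by positivity
        nlinarith
      nlinarith)
  refine ⟨(θ : ℂ), h.lm1 _ ?_ ?_⟩
  · rw [add_sub_cancel_left, norm_smul, Complex.norm_real, Real.norm_eq_abs, abs_of_nonneg hθ.1]
    calc θ * ‖v‖ ≤ θ * 1 := mul_le_mul_of_nonneg_left hv hθ.1
      _ ≤ r := by linarith [hθ.2]
  · intro n hn
    have := hav n hn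
    simp only [mem_ofPred_eq, not_lt] at this
    exact this

/-- LS1: near a point of `XX F A` there is a point of `XX F A` isolated on some sheet. -/
theorem LS1 (D : Decomp F A B) (h : LM F p0 r s M S a c) (hc : LC d r s M N)
    (hN : (S.card : ℝ) ≤ N) {p : Cd d} (hp : p ∈ XX F A) (hp0 : ‖p - p0‖ ≤ r / 16) :
    ∃ n ∈ S, ∃ p' ∈ XX F A, ‖p' - p0‖ ≤ r / 4 ∧ IsoOn p0 S a c n (s2 d N M s + s) p' ∧
      ‖aff p0 (a n) (c n) p'‖ ≤ s := by
  classical
  have hs := h.s_pos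
  obtain ⟨hM, hN1, hd, hr, hsm⟩ := c1_consts hc hs
  have hdM : 1 ≤ (d : ℝ) * M := by nlinarith
  have hNN : (0 : ℝ) < N + 1 := by linarith
  -- direction `w2`
  obtain ⟨w2, hw2, -, hw2b⟩ := exists_dir S a (fun n hn => h.one_le n hn)
  have hβ : ∀ n ∈ S, 1 ≤ 2 * (N + 1) * ‖bil (a n) w2‖ := by
    intro n hn
    have e1 := hw2b n hn
    rw [div_le_iff₀ (by positivity)] at e1
    have e2 : ‖bil (a n) w2‖ * (2 * ((S.card : ℝ) + 1)) ≤ ‖bil (a n) w2‖ * (2 * (N + 1)) := by gcongr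
    linarith
  have hβ2 : ∀ n ∈ S, ‖bil (a n) w2‖ ≤ d * M := by
    intro n hn
    calc ‖bil (a n) w2‖ ≤ d * ‖a n‖ * ‖w2‖ := bil_le _ _
      _ ≤ d * M * 1 := by
          apply mul_le_mul _ hw2 (norm_nonneg _) (by positivity)
          exact mul_le_mul_of_nonneg_left (h.bound n hn) (by positivity)
      _ = d * M := mul_one _
  -- `ρ1`
  set ρ1 : ℝ := r / (256 * (N + 1) ^ 2 * (d * M)) with hρ1
  have hρ1p : 0 < ρ1 := by positivity
  have hρ1eq : ρ1 * (256 * (N + 1) ^ 2 * (d * M)) = r := by rw [hρ1]; field_simp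
  have hρ1r : ρ1 ≤ r / 16 := by
    rw [hρ1]
    apply div_le_div_of_nonneg_left hr.le (by norm_num)
    have e1 : 1 ≤ (N + 1) ^ 2 := by nlinarith
    have e2 : 1 ≤ (N + 1) ^ 2 * (d * M) := by nlinarith
    linarith
  -- the radius `ρ2`
  set s' : ℝ := s + ρ1 * (d * M) with hs'
  have hs'p : 0 < s' := by positivity
  have hs'r : 64 * (N + 1) ^ 2 * s' ≤ r := by
    have e1 : 64 * (N + 1) ^ 2 * s' = 64 * (N + 1) ^ 2 * s + 1 / 4 * (ρ1 * (256 * (N + 1) ^ 2 * (d * M))) := by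
      rw [hs']; ring
    rw [e1, hρ1eq]
    have e2 : 128 * ((N + 1) ^ 2 * s) ≤ 10 ^ 7 * (N + 1) ^ 7 * (d * M) ^ 2 * s := by
      have e3 : (N + 1) ^ 2 ≤ (N + 1) ^ 7 := pow_le_pow_right₀ (by linarith) (by norm_num)
      have e4 : 1 ≤ (d * M : ℝ) ^ 2 := by nlinarith
      have e5 : (N + 1) ^ 2 * 1 ≤ (N + 1) ^ 7 * (d * M) ^ 2 := mul_le_mul e3 e4 (by norm_num) (by positivity)
      have e6 : (N + 1) ^ 2 * 1 * s ≤ (N + 1) ^ 7 * (d * M) ^ 2 * s := mul_le_mul_of_nonneg_right e5 hs.le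
      have e7 : 0 < (N + 1) ^ 7 * (d * M) ^ 2 * s := by positivity
      linarith
    linarith
  obtain ⟨x, hx, hxav⟩ := exists_avoid S
    (fun n => {x : ℝ | ∃ z : ℂ, ‖z‖ = r / 16 + x ∧ ‖aff p0 (a n) (c n) (p + z • w2)‖ < s'})
    (δ := 4 * s' * (N + 1)) (ρ := r / 16) (by linarith)
    (by
      rintro n hn x ⟨z, hz, hz2⟩ y ⟨z', hz', hz2'⟩
      have e1 : ∀ z : ℂ, aff p0 (a n) (c n) (p + z • w2) = aff p0 (a n) (c n) p + z * bil (a n) w2 := by
        intro z; rw [aff_add, bil_smul]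
      rw [e1] at hz2 hz2'
      set q := aff p0 (a n) (c n) p
      set β := bil (a n) w2
      have e2 : |‖z * β‖ - ‖q‖| < s' := by
        refine lt_of_le_of_lt ?_ hz2
        have := abs_norm_sub_norm_le (z * β) (-q)
        rw [norm_neg, sub_neg_eq_add, add_comm] at this
        exact this
      have e3 : |‖z' * β‖ - ‖q‖| < s' := by
        refine lt_of_le_of_lt ?_ hz2'
        have := abs_norm_sub_norm_le (z' * β) (-q)
        rw [norm_neg, sub_neg_eq_add, add_comm] at this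
        exact this
      rw [norm_mul, hz] at e2
      rw [norm_mul, hz'] at e3
      have e4 : |(x - y) * ‖β‖| < 2 * s' := by
        have e5 : (x - y) * ‖β‖ = ((r / 16 + x) * ‖β‖ - ‖q‖) - ((r / 16 + y) * ‖β‖ - ‖q‖) := by ring
        rw [e5]
        refine lt_of_le_of_lt (abs_sub _ _) ?_
        linarith
      rw [abs_mul, abs_of_nonneg (norm_nonneg β)] at e4
      have e5 := hβ n hn
      calc |x - y| ≤ |x - y| * (2 * (N + 1) * ‖β‖) := le_mul_of_one_le_right (abs_nonneg _) e5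
        _ = 2 * (N + 1) * (|x - y| * ‖β‖) := by ring
        _ ≤ 2 * (N + 1) * (2 * s') := by gcongr
        _ = 4 * s' * (N + 1) := by ring)
    (by
      have e1 : (S.card : ℝ) * (4 * s' * (N + 1)) ≤ N * (4 * s' * (N + 1)) := by gcongr
      nlinarith [mul_pos hNN hs'p])
  set ρ2 : ℝ := r / 16 + x with hρ2
  have hρ2p : 0 < ρ2 := by linarith [hx.1]
  have hρ2r : ρ2 ≤ r / 8 := by linarith [hx.2]
  have hcirc : ∀ n ∈ S, ∀ z : ℂ, ‖z‖ = ρ2 → s' ≤ ‖aff p0 (a n) (c n) (p + z • w2)‖ := by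
    intro n hn z hz
    have := hxav n hn
    simp only [mem_ofPred_eq, not_exists, not_and, not_lt] at this
    exact this z hz
  -- direction `w1`
  set lam : Zd d → Zd d → ℂ := fun n m => bil (a m) w2 / bil (a n) w2 with hlam
  obtain ⟨w1, hw1, -, hw1b⟩ := exists_dir S.offDiag (fun nm => a nm.2 - lam nm.1 nm.2 • a nm.1)
    (by
      rintro ⟨n, m⟩ hnm
      rw [Finset.mem_offDiag] at hnm
      exact h.sep n hnm.1 m hnm.2.1 hnm.2.2 _)
  have hcardp : (S.offDiag.card : ℝ) ≤ N ^ 2 := by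
    have e1 : S.offDiag.card ≤ S.card * S.card := by
      rw [Finset.offDiag_card]; exact Nat.sub_le _ _
    have e2 : (S.offDiag.card : ℝ) ≤ (S.card : ℝ) * S.card := by exact_mod_cast e1
    have e3 : (0 : ℝ) ≤ S.card := Nat.cast_nonneg _
    nlinarith
  have hγ : ∀ n ∈ S, ∀ m ∈ S, n ≠ m → 1 ≤ 2 * (N ^ 2 + 1) * ‖bil (a m - lam n m • a n) w1‖ := by
    intro n hn m hm hnm
    have e1 := hw1b (n, m) (Finset.mem_offDiag.mpr ⟨hn, hm, hnm⟩)
    simp only at e1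
    rw [div_le_iff₀ (by positivity)] at e1
    have e2 : ‖bil (a m - lam n m • a n) w1‖ * (2 * ((S.offDiag.card : ℝ) + 1))
        ≤ ‖bil (a m - lam n m • a n) w1‖ * (2 * (N ^ 2 + 1)) := by gcongr
    linarith
  -- the path
  have hpath := disc_path D (fun t : ℝ => p + ((t * ρ1 : ℝ) : ℂ) • w1)
    (by fun_prop) w2 hρ2p
    (by
      intro t ht z hz
      have htρ : 0 ≤ t * ρ1 := mul_nonneg ht.1 hρ1p.le
      have htρ1 : t * ρ1 ≤ ρ1 := by nlinarith [ht.2]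
      have hn1 : ‖((t * ρ1 : ℝ) : ℂ) • w1‖ ≤ ρ1 := by
        rw [norm_smul, Complex.norm_real, Real.norm_eq_abs, abs_of_nonneg htρ]
        calc t * ρ1 * ‖w1‖ ≤ t * ρ1 * 1 := mul_le_mul_of_nonneg_left hw1 htρ
          _ ≤ ρ1 := by linarith
      have hn2 : ‖z • w2‖ ≤ ρ2 := by
        rw [norm_smul, hz]
        calc ρ2 * ‖w2‖ ≤ ρ2 * 1 := mul_le_mul_of_nonneg_left hw2 hρ2p.le
          _ = ρ2 := mul_one _
      apply h.lm1
      · have e1 : p + ((t * ρ1 : ℝ) : ℂ) • w1 + z • w2 - p0 = (p - p0) + ((t * ρ1 : ℝ) : ℂ) • w1 + z • w2 := by abel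
        rw [e1]
        refine (norm_add_le _ _).trans ?_
        have := norm_add_le (p - p0) (((t * ρ1 : ℝ) : ℂ) • w1)
        linarith
      · intro n hn
        have e1 : p + ((t * ρ1 : ℝ) : ℂ) • w1 + z • w2 = (p + z • w2) + ((t * ρ1 : ℝ) : ℂ) • w1 := by abel
        rw [e1]
        have e2 := aff_move h hn (p + z • w2) (((t * ρ1 : ℝ) : ℂ) • w1)
        have e3 := hcirc n hn z hz
        have e4 : d * M * ‖((t * ρ1 : ℝ) : ℂ) • w1‖ ≤ d * M * ρ1 := mul_le_mul_of_nonneg_left hn1 (by positivity)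
        rw [hs'] at e3
        linarith)
    ⟨0, by rw [norm_zero]; exact hρ2p.le, by simpa using hp⟩
  -- choice of `θ`
  set T : ℝ := s2 d N M s + s + 2 * (N + 1) * (d * M) * s with hT
  have hTp : 0 < T := by
    have : 0 < s2 d N M s := by unfold s2; positivity
    positivity
  have hTle : T ≤ 549 * (N + 1) * (d * M) * s := by
    rw [hT]
    unfold s2
    have e1 : 1 ≤ (N + 1) * (d * M) := by nlinarith
    have e2 : (N + 1) * s ≤ (N + 1) * (d * M) * s := by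
      have : (N + 1) * 1 ≤ (N + 1) * (d * M) := by gcongr
      nlinarith
    have e3 : s ≤ (N + 1) * (d * M) * s := by nlinarith
    nlinarith
  obtain ⟨θ, hθ, hθav⟩ := exists_avoid S.offDiag
    (fun nm => {θ : ℝ | ‖aff p0 (a nm.2) (c nm.2) (p + (θ : ℂ) • w1)
      - lam nm.1 nm.2 * aff p0 (a nm.1) (c nm.1) (p + (θ : ℂ) • w1)‖ < T})
    (δ := 4 * T * (N ^ 2 + 1)) (ρ := ρ1) hρ1p
    (by
      rintro ⟨n, m⟩ hnm x hx y hy
      rw [Finset.mem_offDiag] at hnm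
      simp only [mem_ofPred_eq] at hx hy
      have e1 : ∀ θ : ℝ, aff p0 (a m) (c m) (p + (θ : ℂ) • w1)
          - lam n m * aff p0 (a n) (c n) (p + (θ : ℂ) • w1)
          = (aff p0 (a m) (c m) p - lam n m * aff p0 (a n) (c n) p)
            + (θ : ℂ) * bil (a m - lam n m • a n) w1 := by
        intro θ
        rw [aff_add, aff_add, bil_smul, bil_smul, sub_bil, smul_bil]
        ring
      rw [e1] at hx hy
      set κ := bil (a m - lam n m • a n) w1
      set q := aff p0 (a m) (c m) p - lam n m * aff p0 (a n) (c n) p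
      have e2 : ‖((x - y : ℝ) : ℂ) * κ‖ < 2 * T := by
        have e3 : ((x - y : ℝ) : ℂ) * κ = (q + (x : ℂ) * κ) - (q + (y : ℂ) * κ) := by push_cast; ring
        rw [e3]
        refine lt_of_le_of_lt (norm_sub_le _ _) ?_
        linarith
      rw [norm_mul, Complex.norm_real, Real.norm_eq_abs] at e2
      have e5 := hγ n hnm.1 m hnm.2.1 hnm.2.2
      calc |x - y| ≤ |x - y| * (2 * (N ^ 2 + 1) * ‖κ‖) := le_mul_of_one_le_right (abs_nonneg _) e5
        _ = 2 * (N ^ 2 + 1) * (|x - y| * ‖κ‖) := by ring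
        _ ≤ 2 * (N ^ 2 + 1) * (2 * T) := by gcongr
        _ = 4 * T * (N ^ 2 + 1) := by ring)
    (by
      have e1 : (S.offDiag.card : ℝ) * (4 * T * (N ^ 2 + 1)) ≤ N ^ 2 * (4 * T * (N ^ 2 + 1)) := by gcongr
      refine lt_of_le_of_lt e1 ?_
      rw [hρ1, lt_div_iff₀ (by positivity)]
      have e2 : N ^ 2 * (4 * T * (N ^ 2 + 1)) * (256 * (N + 1) ^ 2 * (d * M))
          ≤ N ^ 2 * (4 * (549 * (N + 1) * (d * M) * s) * (N ^ 2 + 1)) * (256 * (N + 1) ^ 2 * (d * M)) := by gcongr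
      have e3 : N ^ 2 * (4 * (549 * (N + 1) * (d * M) * s) * (N ^ 2 + 1)) * (256 * (N + 1) ^ 2 * (d * M))
          = 562176 * (N ^ 2 * (N ^ 2 + 1) * ((N + 1) ^ 3 * (d * M) ^ 2 * s)) := by ring
      have e4 : N ^ 2 * (N ^ 2 + 1) ≤ (N + 1) ^ 4 := by nlinarith [sq_nonneg N]
      have e5 : N ^ 2 * (N ^ 2 + 1) * ((N + 1) ^ 3 * (d * M) ^ 2 * s) ≤ (N + 1) ^ 4 * ((N + 1) ^ 3 * (d * M) ^ 2 * s) :=
        mul_le_mul_of_nonneg_right e4 (by positivity)
      have e6 : (N + 1) ^ 4 * ((N + 1) ^ 3 * (d * M) ^ 2 * s) = (N + 1) ^ 7 * (d * M) ^ 2 * s := by ring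
      have e7 : 0 < (N + 1) ^ 7 * (d * M) ^ 2 * s := by positivity
      nlinarith)
  -- the point
  have hθt : θ / ρ1 ∈ Icc (0 : ℝ) 1 := ⟨by have := hθ.1; positivity, by rw [div_le_one hρ1p]; exact hθ.2⟩
  obtain ⟨z, hz, hzX⟩ := hpath (θ / ρ1) hθt
  rw [div_mul_cancel₀ _ hρ1p.ne'] at hzX
  set k : Cd d := p + (θ : ℂ) • w1 + z • w2 with hk
  have hkn : ‖k - p0‖ ≤ r / 4 := by
    have e1 : k - p0 = (p - p0) + (θ : ℂ) • w1 + z • w2 := by rw [hk]; abel
    rw [e1]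
    refine (norm_add_le _ _).trans ?_
    have e2 := norm_add_le (p - p0) ((θ : ℂ) • w1)
    have e3 : ‖(θ : ℂ) • w1‖ ≤ ρ1 := by
      rw [norm_smul, Complex.norm_real, Real.norm_eq_abs, abs_of_nonneg hθ.1]
      calc θ * ‖w1‖ ≤ θ * 1 := mul_le_mul_of_nonneg_left hw1 hθ.1
        _ ≤ ρ1 := by linarith [hθ.2]
    have e4 : ‖z • w2‖ ≤ ρ2 := by
      rw [norm_smul]
      calc ‖z‖ * ‖w2‖ ≤ ρ2 * 1 := mul_le_mul hz.le hw2 (norm_nonneg _) hρ2p.le
        _ = ρ2 := mul_one _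
    linarith
  have hkF : k ∈ F := XX_subset_F D hzX
  obtain ⟨n, hn, hnk⟩ : ∃ n ∈ S, ‖aff p0 (a n) (c n) k‖ < s := by
    by_contra hcon
    push Not at hcon
    exact h.lm1 k (by linarith) hcon hkF
  refine ⟨n, hn, k, hzX, hkn, ?_, hnk.le⟩
  intro m hm hmn
  have hav := hθav (n, m) (Finset.mem_offDiag.mpr ⟨hn, hm, fun e => hmn e.symm⟩)
  simp only [mem_ofPred_eq, not_lt] at hav
  have hβn : bil (a n) w2 ≠ 0 := by
    intro h0
    have := hβ n hn
    rw [h0, norm_zero] at this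
    linarith
  have hfin : aff p0 (a m) (c m) k - lam n m * aff p0 (a n) (c n) k
      = aff p0 (a m) (c m) (p + (θ : ℂ) • w1) - lam n m * aff p0 (a n) (c n) (p + (θ : ℂ) • w1) := by
    rw [hk, aff_add _ _ _ _ (z • w2), aff_add _ _ _ _ (z • w2), bil_smul, bil_smul, hlam]
    field_simp
    ring
  rw [← hfin] at hav
  have hlamn : ‖lam n m‖ ≤ 2 * (N + 1) * (d * M) := by
    rw [hlam]
    simp only
    rw [norm_div, div_le_iff₀ (norm_pos_iff.mpr hβn)]
    have e1 := hβ n hn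
    have e2 := hβ2 m hm
    calc ‖bil (a m) w2‖ ≤ (d * M) * 1 := by rw [mul_one]; exact e2
      _ ≤ (d * M) * (2 * (N + 1) * ‖bil (a n) w2‖) := mul_le_mul_of_nonneg_left e1 (by positivity)
      _ = 2 * (N + 1) * (d * M) * ‖bil (a n) w2‖ := by ring
  have h1 : ‖lam n m * aff p0 (a n) (c n) k‖ ≤ 2 * (N + 1) * (d * M) * s := by
    rw [norm_mul]
    exact mul_le_mul hlamn hnk.le (norm_nonneg _) (by positivity)
  have h2 := norm_sub_le (aff p0 (a m) (c m) k) (lam n m * aff p0 (a n) (c n) k)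
  rw [hT] at hav
  linarith

end Fermi
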