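import Pool.Agent.Lib.Fermi.LocalDefs
import Pool.Agent.Lib.Fermi.Local1
import Pool.Agent.Lib.Fermi.Local2

/-!
# Chunk C: consequences of the local model (see README, notes on chunk C)

`LocalDefs.lean`: `s2`, `LC`, `IsoOn`. `Local2.lean`: LS2, LS3, LS4. `Local1.lean`: LS1, exists_not_mem.
-/
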