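import Pool.Agent.Lib.Fermi.SCV
import Pool.Agent.Lib.Fermi.Pigeon

/-!
# Chunk C: definitions (constants of the local model, isolated points)
-/

open scoped BigOperators Topology
open Set Filter

noncomputable section

namespace Fermi

variable {d : ℕ}

/-- the isolation level -/
def s2 (d : ℕ) (N M s : ℝ) : ℝ := 26 * (N + 1) * (20 * d * M + 1) * s

/-- hypotheses on the constants -/
structure LC (d : ℕ) (r s M N : ℝ) : Prop where
  M_one : 1 ≤ M
  N_one : 1 ≤ N
  d_one : 1 ≤ d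
  small : 10 ^ 7 * (N + 1) ^ 8 * d ^ 3 * M ^ 3 * s ≤ r

/-- `p` is isolated on the sheet `n` at level `t` -/
def IsoOn (p0 : Cd d) (S : Finset (Zd d)) (a : Zd d → Cd d) (c : Zd d → ℂ) (n : Zd d) (t : ℝ)
    (p : Cd d) : Prop :=
  ∀ m ∈ S, m ≠ n → t ≤ ‖aff p0 (a m) (c m) p‖

end Fermi
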