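import Pool.Agent.Lib.Fermi.GeoDefs

/-!
# Chunk J: existence of scales
-/

open scoped BigOperators Topology
open Set Filter

noncomputable section

namespace Fermi

variable {d : ℕ} {μ : ℂ} {w : Zd d → ℂ}

/-- rapid decay (`V ∈ C^∞`) -/
def Rapid (w : Zd d → ℂ) : Prop := ∀ N : ℕ, ∃ C : ℝ, ∀ n, ‖w n‖ * (1 + ‖n‖) ^ N ≤ C

namespace J

/-! ### Summability -/

theorem summable_int : Summable fun k : ℤ => (1 / (1 + |(k : ℝ)|) ^ 2 : ℝ) := by
  have h0 : Summable fun n : ℕ => (1 / (1 + (n : ℝ)) ^ 2 : ℝ) := by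
    have h1 := (summable_nat_add_iff 1).2 (Real.summable_one_div_nat_pow.2 (one_lt_two : 1 < 2))
    refine h1.congr fun n => ?_
    push_cast
    rw [add_comm]
  refine Summable.of_nat_of_neg ?_ ?_
  · refine h0.congr fun n => ?_
    simp
  · refine h0.congr fun n => ?_
    simp

theorem summable_pi {f : ℤ → ℝ} (hf : Summable f) (h0 : ∀ k, 0 ≤ f k) (d : ℕ) :
    Summable fun n : Fin d → ℤ => ∏ j, f (n j) := by
  refine summable_of_sum_le (c := (∑' k, f k) ^ d) (fun n => Finset.prod_nonneg fun j _ => h0 _) ?_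
  intro u
  classical
  have h1 : u ⊆ Fintype.piFinset fun j : Fin d => u.image fun n => n j := by
    intro n hn
    rw [Fintype.mem_piFinset]
    intro j
    exact Finset.mem_image_of_mem _ hn
  calc ∑ n ∈ u, ∏ j, f (n j)
      ≤ ∑ n ∈ Fintype.piFinset fun j : Fin d => u.image fun n => n j, ∏ j, f (n j) :=
        Finset.sum_le_sum_of_subset_of_nonneg h1 fun n _ _ => Finset.prod_nonneg fun j _ => h0 _
    _ = ∏ j : Fin d, ∑ k ∈ u.image fun n => n j, f k := by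
        rw [Finset.prod_univ_sum]
    _ ≤ ∏ _j : Fin d, ∑' k, f k := by
        refine Finset.prod_le_prod (fun j _ => Finset.sum_nonneg fun k _ => h0 _) fun j _ => ?_
        exact hf.sum_le_tsum _ fun k _ => h0 k
    _ = (∑' k, f k) ^ d := by rw [Finset.prod_const, Finset.card_univ, Fintype.card_fin]

theorem norm_int_le {d : ℕ} (n : Fin d → ℤ) (j : Fin d) : |(n j : ℝ)| ≤ ‖n‖ := by
  have h := norm_le_pi_norm n j
  rwa [Int.norm_eq_abs] at h

theorem summable_norm (d : ℕ) : Summable fun n : Zd d => (1 / (1 + ‖n‖) ^ (2 * d) : ℝ) := by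
  refine Summable.of_nonneg_of_le (fun n => by positivity) (fun n => ?_)
    (summable_pi summable_int (fun k => by positivity) d)
  rw [Finset.prod_div_distrib, Finset.prod_const_one]
  refine one_div_le_one_div_of_le (Finset.prod_pos fun j _ => by positivity) ?_
  calc ∏ j, (1 + |(n j : ℝ)|) ^ 2 ≤ ∏ _j : Fin d, (1 + ‖n‖) ^ 2 := by
        refine Finset.prod_le_prod (fun j _ => by positivity) fun j _ => ?_
        have := norm_int_le n j
        gcongr
    _ = (1 + ‖n‖) ^ (2 * d) := by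
        rw [Finset.prod_const, Finset.card_univ, Fintype.card_fin, pow_mul]

/-- Tail of a rapidly decaying function. -/
theorem tail_le (h : Rapid w) (N : ℕ) : ∃ C : ℝ, 0 ≤ C ∧ ∀ ρ : ℕ,
    ∑' n, (if (ρ : ℝ) < ‖n‖ then ‖w n‖ else 0) ≤ C / (1 + ρ) ^ N := by
  obtain ⟨C, hC⟩ := h (N + 2 * d)
  have hC0 : 0 ≤ C := le_trans (by positivity) (hC 0)
  refine ⟨C * ∑' n : Zd d, (1 / (1 + ‖n‖) ^ (2 * d) : ℝ),
    mul_nonneg hC0 (tsum_nonneg fun n => by positivity), fun ρ => ?_⟩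
  have h1 : ∀ n : Zd d, (if (ρ : ℝ) < ‖n‖ then ‖w n‖ else 0) ≤
      (C / (1 + ρ) ^ N) * (1 / (1 + ‖n‖) ^ (2 * d)) := by
    intro n
    split_ifs with hn
    · have h2 := hC n
      have h3 : ‖w n‖ ≤ C / (1 + ‖n‖) ^ (N + 2 * d) := by
        rw [le_div_iff₀ (by positivity)]
        exact h2
      refine h3.trans ?_
      rw [pow_add, div_mul_div_comm, mul_one]
      refine div_le_div_of_nonneg_left hC0 (by positivity) ?_
      gcongr
    · positivity
  have hs : Summable fun n : Zd d => (C / (1 + ρ) ^ N) * (1 / (1 + ‖n‖) ^ (2 * d) : ℝ) :=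
    (summable_norm d).mul_left _
  have h0 : ∀ n : Zd d, (0 : ℝ) ≤ (if (ρ : ℝ) < ‖n‖ then ‖w n‖ else 0) := by
    intro n
    split_ifs
    · exact norm_nonneg _
    · exact le_rfl
  have h2 := Summable.tsum_le_tsum h1 (Summable.of_nonneg_of_le h0 h1 hs) hs
  rw [tsum_mul_left] at h2
  calc _ ≤ _ := h2
    _ = _ := by ring

/-! ### Digits -/

theorem digits : ∀ (d : ℕ) (B : ℤ) (c : Fin d → ℤ), (∀ j, 2 * |c j| < B) →
    ∑ j, c j * B ^ (j : ℕ) = 0 → ∀ j, c j = 0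
  | 0, _, _, _, _ => fun j => j.elim0
  | d + 1, B, c, hc, h => by
    have h1 : c 0 + B * ∑ j : Fin d, c j.succ * B ^ (j : ℕ) = 0 := by
      rw [← h, Fin.sum_univ_succ, Finset.mul_sum]
      congr 1
      · simp
      · refine Finset.sum_congr rfl fun j _ => ?_
        rw [Fin.val_succ, pow_succ]
        ring
    have hB : 0 < B := lt_of_le_of_lt (by positivity) (hc 0)
    have h0 : c 0 = 0 := by
      have hdvd : B ∣ c 0 := ⟨-∑ j : Fin d, c j.succ * B ^ (j : ℕ), by linarith⟩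
      refine Int.eq_zero_of_abs_lt_dvd hdvd ?_
      have h2 := hc 0
      have h3 := abs_nonneg (c 0)
      linarith
    have h2 : ∑ j : Fin d, c j.succ * B ^ (j : ℕ) = 0 := by
      rw [h0, zero_add] at h1
      rcases mul_eq_zero.1 h1 with h3 | h3
      · exact absurd h3 hB.ne'
      · exact h3
    have h3 := digits d B (fun j => c j.succ) (fun j => hc _) h2
    intro j
    refine Fin.cases h0 (fun i => h3 i) j

/-- The vector of powers. -/
def pv (d K : ℕ) : Zd d := fun j => (K : ℤ) ^ (j : ℕ)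

theorem abs_le {l : Zd d} {L : ℕ} (h : ‖l‖ ≤ L) (j : Fin d) : |l j| ≤ (L : ℤ) := by
  have h1 := (norm_int_le l j).trans h
  exact_mod_cast h1

theorem di_pv (K : ℕ) (l : Zd d) : di (pv d K) l = ∑ j, l j * (K : ℤ) ^ (j : ℕ) := by
  unfold di pv
  exact Finset.sum_congr rfl fun j _ => mul_comm _ _

theorem di_ne {K L : ℕ} (hK : 2 * L < K) {l : Zd d} (hl : l ≠ 0) (hL : ‖l‖ ≤ L) :
    di (pv d K) l ≠ 0 := by
  intro h
  rw [di_pv] at h
  apply hl
  funext j
  refine digits d K l (fun j => ?_) h j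
  have h1 := abs_le hL j
  have h2 : (2 : ℤ) * L < K := by exact_mod_cast hK
  linarith

theorem pv_abs {K : ℕ} (hK : 1 ≤ K) (j : Fin d) : |pv d K j| ≤ (K : ℤ) ^ d := by
  unfold pv
  rw [abs_of_nonneg (by positivity)]
  exact pow_le_pow_right₀ (by exact_mod_cast hK) j.2.le

theorem di_le {n m : Zd d} {a b : ℤ} (ha : 0 ≤ a) (hn : ∀ j, |n j| ≤ a) (hm : ∀ j, |m j| ≤ b) :
    |di n m| ≤ d * (a * b) := by
  unfold di
  calc |∑ j, n j * m j| ≤ ∑ j, |n j * m j| := Finset.abs_sum_le_sum_abs _ _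
    _ ≤ ∑ _j : Fin d, a * b := by
        refine Finset.sum_le_sum fun j _ => ?_
        rw [abs_mul]
        exact mul_le_mul (hn j) (hm j) (abs_nonneg _) ha
    _ = d * (a * b) := by
        rw [Finset.sum_const, Finset.card_univ, Fintype.card_fin, nsmul_eq_mul]

theorem par {K M L : ℕ} (hK : 4 * L ^ 2 < K) (hM : 4 * d * L ^ 2 * K ^ d < M) {l l' : Zd d}
    (hl : l ≠ 0) (hL : ‖l‖ ≤ L) (hl' : l' ≠ 0) (hL' : ‖l'‖ ≤ L)
    (h : di (pv d K) l * di (pv d M) l' = di (pv d K) l' * di (pv d M) l) :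
    ∃ i j : ℤ, i ≠ 0 ∧ j ≠ 0 ∧ i • l = j • l' := by
  have hm : ∀ j k, |l j * l' k - l' j * l k| ≤ 2 * (L : ℤ) ^ 2 := by
    intro j k
    have h1 := abs_le hL j
    have h2 := abs_le hL k
    have h3 := abs_le hL' j
    have h4 := abs_le hL' k
    have h5 : |l j * l' k| ≤ (L : ℤ) * L := by
      rw [abs_mul]
      exact mul_le_mul h1 h4 (abs_nonneg _) (by positivity)
    have h6 : |l' j * l k| ≤ (L : ℤ) * L := by
      rw [abs_mul]
      exact mul_le_mul h3 h2 (abs_nonneg _) (by positivity)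
    have h8 : |l j * l' k - l' j * l k| ≤ |l j * l' k| + |l' j * l k| := by
      have := abs_add_le (l j * l' k) (-(l' j * l k))
      rwa [abs_neg, ← sub_eq_add_neg] at this
    nlinarith
  have hK1 : 1 ≤ K := by omega
  have h1 : ∑ k : Fin d, (∑ j : Fin d, (l j * l' k - l' j * l k) * (K : ℤ) ^ (j : ℕ)) *
      (M : ℤ) ^ (k : ℕ) = 0 := by
    rw [di_pv, di_pv, di_pv, di_pv, Finset.sum_mul_sum, Finset.sum_mul_sum] at h
    rw [← sub_eq_zero, ← Finset.sum_sub_distrib] at h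
    rw [← h]
    simp only [Finset.sum_mul, ← Finset.sum_sub_distrib]
    rw [Finset.sum_comm]
    exact Finset.sum_congr rfl fun x _ => Finset.sum_congr rfl fun j _ => by ring
  have h2 := digits d M _ (fun k => ?_) h1
  · have h3 : ∀ j k, l j * l' k - l' j * l k = 0 := by
      intro j k
      refine digits d K (fun j => l j * l' k - l' j * l k) (fun j => ?_) (h2 k) j
      have h4 := hm j k
      have h5 : (4 : ℤ) * (L : ℤ) ^ 2 < K := by exact_mod_cast hK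
      linarith
    obtain ⟨t, ht⟩ : ∃ t, l t ≠ 0 := by
      by_contra hc
      refine hl (funext fun t => ?_)
      by_contra ht
      exact hc ⟨t, ht⟩
    have ht' : l' t ≠ 0 := by
      intro h0
      apply hl'
      funext k
      have h4 := h3 t k
      rw [h0, zero_mul, sub_zero] at h4
      rcases mul_eq_zero.1 h4 with h5 | h5
      · exact absurd h5 ht
      · exact h5
    refine ⟨l' t, l t, ht', ht, ?_⟩
    funext k
    have h4 := h3 t k
    simp only [Pi.smul_apply, smul_eq_mul]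
    linarith
  · have h3 : |∑ j : Fin d, (l j * l' k - l' j * l k) * (K : ℤ) ^ (j : ℕ)| ≤
        d * (2 * (L : ℤ) ^ 2 * (K : ℤ) ^ d) := by
      calc |∑ j : Fin d, (l j * l' k - l' j * l k) * (K : ℤ) ^ (j : ℕ)|
          ≤ ∑ j : Fin d, |(l j * l' k - l' j * l k) * (K : ℤ) ^ (j : ℕ)| :=
            Finset.abs_sum_le_sum_abs _ _
        _ ≤ ∑ _j : Fin d, 2 * (L : ℤ) ^ 2 * (K : ℤ) ^ d := by
            refine Finset.sum_le_sum fun j _ => ?_
            rw [abs_mul]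
            exact mul_le_mul (hm j k) (pv_abs hK1 j) (abs_nonneg _) (by positivity)
        _ = d * (2 * (L : ℤ) ^ 2 * (K : ℤ) ^ d) := by
            rw [Finset.sum_const, Finset.card_univ, Fintype.card_fin, nsmul_eq_mul]
    have h4 : (4 : ℤ) * d * (L : ℤ) ^ 2 * (K : ℤ) ^ d < M := by exact_mod_cast hM
    nlinarith

end J

theorem Rapid.summable (h : Rapid w) : Summable fun n => ‖w n‖ := by
  obtain ⟨C, hC⟩ := h (2 * d)
  refine Summable.of_nonneg_of_le (fun n => norm_nonneg _) (fun n => ?_)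
    ((J.summable_norm d).mul_left C)
  rw [mul_one_div, le_div_iff₀ (by positivity)]
  exact hC n

namespace J

/-- Bases of the two directions. -/
def KK (L : ℕ) : ℕ := 4 * L ^ 2 + 1
/-- Bases of the two directions. -/
def MM (d L : ℕ) : ℕ := 4 * d * L ^ 2 * KK L ^ d + 1
/-- Bound for all products. -/
def HH (d L : ℕ) : ℕ := 4 * d ^ 3 * L ^ 2 * (KK L ^ d) ^ 2 * (MM d L ^ d) ^ 2

theorem KK_pos (L : ℕ) : 1 ≤ KK L := by unfold KK; omega
theorem MM_pos (d L : ℕ) : 1 ≤ MM d L := by unfold MM; omega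

theorem HH_bounds {L : ℕ} (hd : 1 ≤ d) (hL : 1 ≤ L) :
    d * (KK L ^ d * L) ≤ HH d L ∧ d * (MM d L ^ d * L) ≤ HH d L ∧
      d * (KK L ^ d * KK L ^ d) ≤ HH d L ∧ d * (MM d L ^ d * MM d L ^ d) ≤ HH d L ∧
      d * ((2 * d * L * KK L ^ d * MM d L ^ d) * (2 * d * L * KK L ^ d * MM d L ^ d)) ≤ HH d L := by
  have hX : 1 ≤ KK L ^ d := Nat.one_le_pow _ _ (KK_pos L)
  have hY : 1 ≤ MM d L ^ d := Nat.one_le_pow _ _ (MM_pos d L)
  unfold HH
  generalize KK L ^ d = X at *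
  generalize MM d L ^ d = Y at *
  refine ⟨?_, ?_, ?_, ?_, ?_⟩
  · calc d * (X * L) = 1 * d ^ 1 * L ^ 1 * X ^ 1 * Y ^ 0 := by ring
      _ ≤ 4 * d ^ 3 * L ^ 2 * X ^ 2 * Y ^ 2 := by gcongr <;> norm_num
  · calc d * (Y * L) = 1 * d ^ 1 * L ^ 1 * X ^ 0 * Y ^ 1 := by ring
      _ ≤ 4 * d ^ 3 * L ^ 2 * X ^ 2 * Y ^ 2 := by gcongr <;> norm_num
  · calc d * (X * X) = 1 * d ^ 1 * L ^ 0 * X ^ 2 * Y ^ 0 := by ring
      _ ≤ 4 * d ^ 3 * L ^ 2 * X ^ 2 * Y ^ 2 := by gcongr <;> norm_num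
  · calc d * (Y * Y) = 1 * d ^ 1 * L ^ 0 * X ^ 0 * Y ^ 2 := by ring
      _ ≤ 4 * d ^ 3 * L ^ 2 * X ^ 2 * Y ^ 2 := by gcongr <;> norm_num
  · exact le_of_eq (by ring)

/-- The two directions. -/
def dirs {L : ℕ} (P : Sc d μ w) (hPL : P.L = L) (hd : 1 ≤ d) (hL : 1 ≤ L) (hΛ : (HH d L : ℝ) ≤ P.Λ) :
    Dirs P where
  e := pv d (KK L)
  a := pv d (MM d L)
  he l hl hlL := by
    rw [hPL] at hlL
    refine di_ne ?_ hl hlL
    unfold KK
    nlinarith
  hea l l' hl hlL hl' hlL' h := by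
    rw [hPL] at hlL hlL'
    exact par (K := KK L) (M := MM d L) (L := L) (by unfold KK; omega) (by unfold MM; omega)
      hl hlL hl' hlL' h
  be l hl := by
    rw [hPL] at hl
    have h1 := di_le (b := (L : ℤ)) (by positivity) (pv_abs (d := d) (KK_pos L)) (abs_le hl)
    have h2 := (HH_bounds hd hL).1
    refine le_trans ?_ hΛ
    have h3 : |di (pv d (KK L)) l| ≤ (HH d L : ℤ) := h1.trans (by exact_mod_cast h2)
    exact_mod_cast h3
  ba l hl := by
    rw [hPL] at hl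
    have h1 := di_le (b := (L : ℤ)) (by positivity) (pv_abs (d := d) (MM_pos d L)) (abs_le hl)
    have h2 := (HH_bounds hd hL).2.1
    refine le_trans ?_ hΛ
    have h3 : |di (pv d (MM d L)) l| ≤ (HH d L : ℤ) := h1.trans (by exact_mod_cast h2)
    exact_mod_cast h3
  ne := by
    have h1 := di_le (by positivity) (pv_abs (d := d) (KK_pos L)) (pv_abs (d := d) (KK_pos L))
    have h2 := (HH_bounds hd hL).2.2.1
    refine le_trans ?_ hΛ
    have h3 : di (pv d (KK L)) (pv d (KK L)) ≤ (HH d L : ℤ) :=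
      (le_abs_self _).trans (h1.trans (by exact_mod_cast h2))
    exact_mod_cast h3
  na := by
    have h1 := di_le (by positivity) (pv_abs (d := d) (MM_pos d L)) (pv_abs (d := d) (MM_pos d L))
    have h2 := (HH_bounds hd hL).2.2.2.1
    refine le_trans ?_ hΛ
    have h3 : di (pv d (MM d L)) (pv d (MM d L)) ≤ (HH d L : ℤ) :=
      (le_abs_self _).trans (h1.trans (by exact_mod_cast h2))
    exact_mod_cast h3
  ned l hl := by
    rw [hPL] at hl
    have h1 := di_le (b := (L : ℤ)) (by positivity) (pv_abs (d := d) (KK_pos L)) (abs_le hl)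
    have h1' := di_le (b := (L : ℤ)) (by positivity) (pv_abs (d := d) (MM_pos d L)) (abs_le hl)
    have h2 := (HH_bounds hd hL).2.2.2.2
    have h4 : ∀ j, |(di (pv d (KK L)) l • pv d (MM d L) - di (pv d (MM d L)) l • pv d (KK L)) j| ≤
        2 * (d : ℤ) * L * (KK L : ℤ) ^ d * (MM d L : ℤ) ^ d := by
      intro j
      simp only [Pi.sub_apply, Pi.smul_apply, smul_eq_mul]
      have h5 := pv_abs (d := d) (KK_pos L) j
      have h6 := pv_abs (d := d) (MM_pos d L) j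
      have h7 : |di (pv d (KK L)) l * pv d (MM d L) j| ≤
          (d * ((KK L : ℤ) ^ d * L)) * (MM d L : ℤ) ^ d := by
        rw [abs_mul]
        exact mul_le_mul h1 h6 (abs_nonneg _) (by positivity)
      have h8 : |di (pv d (MM d L)) l * pv d (KK L) j| ≤
          (d * ((MM d L : ℤ) ^ d * L)) * (KK L : ℤ) ^ d := by
        rw [abs_mul]
        exact mul_le_mul h1' h5 (abs_nonneg _) (by positivity)
      have h9 := abs_add_le (di (pv d (KK L)) l * pv d (MM d L) j)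
        (-(di (pv d (MM d L)) l * pv d (KK L) j))
      rw [abs_neg, ← sub_eq_add_neg] at h9
      refine h9.trans ((add_le_add h7 h8).trans (le_of_eq (by ring)))
    have h3 := di_le (by positivity) h4 h4
    refine le_trans ?_ hΛ
    have h10 : di (di (pv d (KK L)) l • pv d (MM d L) - di (pv d (MM d L)) l • pv d (KK L))
        (di (pv d (KK L)) l • pv d (MM d L) - di (pv d (MM d L)) l • pv d (KK L)) ≤
        (HH d L : ℤ) := (le_abs_self _).trans (h3.trans (by exact_mod_cast h2))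
    exact_mod_cast h10

theorem HH_poly (d : ℕ) : ∃ C m : ℕ, 2 ≤ m ∧ ∀ L : ℕ, 1 ≤ L → HH d L ≤ C * L ^ m := by
  refine ⟨4 * d ^ 3 * (5 ^ d) ^ 2 * ((4 * d * 5 ^ d + 1) ^ d) ^ 2,
    2 + 4 * d + (2 * d + 2) * (2 * d), by omega, fun L hL => ?_⟩
  have h1 : KK L ≤ 5 * L ^ 2 := by
    unfold KK
    nlinarith
  have h2 : KK L ^ d ≤ 5 ^ d * L ^ (2 * d) := by
    calc KK L ^ d ≤ (5 * L ^ 2) ^ d := Nat.pow_le_pow_left h1 d
      _ = 5 ^ d * L ^ (2 * d) := by rw [mul_pow, ← pow_mul]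
  have h3 : MM d L ≤ (4 * d * 5 ^ d + 1) * L ^ (2 * d + 2) := by
    unfold MM
    have h4 : 1 ≤ L ^ (2 * d + 2) := Nat.one_le_pow _ _ hL
    have h5 : 4 * d * L ^ 2 * KK L ^ d ≤ 4 * d * L ^ 2 * (5 ^ d * L ^ (2 * d)) :=
      Nat.mul_le_mul le_rfl h2
    calc 4 * d * L ^ 2 * KK L ^ d + 1 ≤ 4 * d * L ^ 2 * (5 ^ d * L ^ (2 * d)) + L ^ (2 * d + 2) :=
          Nat.add_le_add h5 h4
      _ = (4 * d * 5 ^ d + 1) * L ^ (2 * d + 2) := by ring
  calc HH d L ≤ 4 * d ^ 3 * L ^ 2 * (5 ^ d * L ^ (2 * d)) ^ 2 *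
        (((4 * d * 5 ^ d + 1) * L ^ (2 * d + 2)) ^ d) ^ 2 := by
        unfold HH
        gcongr
    _ = 4 * d ^ 3 * (5 ^ d) ^ 2 * ((4 * d * 5 ^ d + 1) ^ d) ^ 2 *
        L ^ (2 + 4 * d + (2 * d + 2) * (2 * d)) := by
        generalize 4 * d * 5 ^ d + 1 = Q
        generalize 5 ^ d = S
        rw [mul_pow Q, mul_pow (Q ^ d), ← pow_mul L, ← pow_mul L, mul_pow S, ← pow_mul L]
        have e : L ^ (2 + 4 * d + (2 * d + 2) * (2 * d)) =
            L ^ 2 * L ^ (2 * d * 2) * L ^ ((2 * d + 2) * d * 2) := by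
          rw [← pow_add, ← pow_add]
          congr 1
          ring
        rw [e]
        ring

end J

/-- There are arbitrarily fine scales. -/
theorem exists_scale (hd : 3 ≤ d) (μ : ℂ) (h : Rapid w) :
    ∃ cc : ℝ, ∀ p₀ L₀ : ℕ, ∃ P : Sc d μ w, P.c ≤ cc ∧ p₀ ≤ P.p ∧ L₀ ≤ P.L ∧
      Nonempty (Dirs P) := by
  set cc : ℝ := 4 * (∑' n, ‖w n‖) + 8 with hcc
  have hω : 0 ≤ ∑' n, ‖w n‖ := tsum_nonneg fun n => norm_nonneg _
  refine ⟨cc, fun p₀ L₀ => ?_⟩
  obtain ⟨p, hp⟩ : ∃ p, p = max p₀ (3000 * d + 3000) := ⟨_, rfl⟩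
  obtain ⟨CH, m, hm, hCH⟩ := J.HH_poly d
  obtain ⟨A, hA⟩ : ∃ A : ℝ, A = cc + ‖μ‖ + 10 ^ 7 := ⟨_, rfl⟩
  have hA0 : 0 ≤ A := by rw [hA]; positivity
  obtain ⟨B, hB⟩ : ∃ B : ℝ, B = A + 100 * (d : ℝ) ^ 2 + CH := ⟨_, rfl⟩
  have hB0 : 0 ≤ B := by rw [hB]; positivity
  obtain ⟨T, hT0, hT⟩ := J.tail_le h (2 * m * p + 1)
  have hlim : Tendsto (fun J : ℕ => ((1 / 2 : ℝ) ^ J +
      ∑' n, (if (J : ℝ) < ‖n‖ then ‖w n‖ else 0)) * (B * (J : ℝ) ^ (2 * m)) ^ p) atTop (𝓝 0) := by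
    have h1 : Tendsto (fun J : ℕ => B ^ p * ((J : ℝ) ^ (2 * m * p) * (1 / 2 : ℝ) ^ J)) atTop
        (𝓝 (B ^ p * 0)) :=
      (tendsto_pow_const_mul_const_pow_of_abs_lt_one _ (by norm_num [abs_of_pos])).const_mul _
    have h2 : Tendsto (fun J : ℕ => B ^ p * T * (1 / ((J : ℝ) + 1))) atTop (𝓝 (B ^ p * T * 0)) :=
      tendsto_one_div_add_atTop_nhds_zero_nat.const_mul _
    have h3 := h1.add h2
    rw [mul_zero, mul_zero, add_zero] at h3
    refine squeeze_zero (fun J => ?_) (fun J => ?_) h3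
    · have : 0 ≤ ∑' n : Zd d, (if (J : ℝ) < ‖n‖ then ‖w n‖ else 0) := by
        refine tsum_nonneg fun n => ?_
        split_ifs
        · exact norm_nonneg _
        · exact le_rfl
      positivity
    · have h4 := hT J
      have h5 : (B * (J : ℝ) ^ (2 * m)) ^ p = B ^ p * (J : ℝ) ^ (2 * m * p) := by
        rw [mul_pow, ← pow_mul]
      rw [h5, add_mul]
      refine add_le_add (le_of_eq (by ring)) ?_
      calc (∑' n, (if (J : ℝ) < ‖n‖ then ‖w n‖ else 0)) * (B ^ p * (J : ℝ) ^ (2 * m * p))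
          ≤ T / (1 + J) ^ (2 * m * p + 1) * (B ^ p * (J : ℝ) ^ (2 * m * p)) := by
            gcongr
        _ ≤ T / (1 + J) ^ (2 * m * p + 1) * (B ^ p * (1 + (J : ℝ)) ^ (2 * m * p)) := by
            gcongr
            linarith
        _ = B ^ p * T * (1 / ((J : ℝ) + 1)) := by
            have : (1 + (J : ℝ)) ≠ 0 := by positivity
            rw [pow_succ, add_comm (J : ℝ) 1]
            field_simp
  have hev := (hlim.eventually (ge_mem_nhds (zero_lt_one' ℝ))).and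
    (eventually_ge_atTop (L₀ + 10 * d + 1))
  obtain ⟨k, hk1, hk2⟩ := hev.exists
  have hk3 : k ≤ k * k := Nat.le_mul_self k
  obtain ⟨L, hL⟩ : ∃ L, L = k * k := ⟨_, rfl⟩
  have hL1 : 1 ≤ L := by omega
  have hL1' : (1 : ℝ) ≤ L := by exact_mod_cast hL1
  obtain ⟨Λ, hΛ⟩ : ∃ Λ : ℝ, Λ = A + 100 * (d : ℝ) ^ 2 * (L : ℝ) ^ 2 + J.HH d L := ⟨_, rfl⟩
  have hΛB : Λ ≤ B * (k : ℝ) ^ (2 * m) := by
    have e : (k : ℝ) ^ (2 * m) = (L : ℝ) ^ m := by
      rw [hL, pow_mul]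
      push_cast
      ring
    rw [e, hΛ, hB]
    have h1 : (1 : ℝ) ≤ (L : ℝ) ^ m := one_le_pow₀ hL1'
    have h2 : (L : ℝ) ^ 2 ≤ (L : ℝ) ^ m := pow_le_pow_right₀ hL1' hm
    have h3 : (J.HH d L : ℝ) ≤ CH * (L : ℝ) ^ m := by exact_mod_cast hCH L hL1
    have h4 : A ≤ A * (L : ℝ) ^ m := le_mul_of_one_le_right hA0 h1
    have h5 : 100 * (d : ℝ) ^ 2 * (L : ℝ) ^ 2 ≤ 100 * (d : ℝ) ^ 2 * (L : ℝ) ^ m := by gcongr
    linarith
  have hH0 : (0 : ℝ) ≤ J.HH d L := Nat.cast_nonneg _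
  have hd2 : 0 ≤ 100 * (d : ℝ) ^ 2 * (L : ℝ) ^ 2 := by positivity
  have hμ0 := norm_nonneg μ
  have hΛ0 : 0 ≤ Λ := by rw [hΛ]; linarith
  have hε0 : 0 ≤ (1 / 2 : ℝ) ^ k + ∑' n : Zd d, (if (k : ℝ) < ‖n‖ then ‖w n‖ else 0) := by
    have : 0 ≤ ∑' n : Zd d, (if (k : ℝ) < ‖n‖ then ‖w n‖ else 0) := by
      refine tsum_nonneg fun n => ?_
      split_ifs
      · exact norm_nonneg _
      · exact le_rfl
    positivity
  let P : Sc d μ w :=
    { c := cc
      L := L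
      Λ := Λ
      ρ := k
      J := k
      ε := (1 / 2 : ℝ) ^ k + ∑' n, (if (k : ℝ) < ‖n‖ then ‖w n‖ else 0)
      p := p
      hd := hd
      hw := h.summable
      hc := le_rfl
      hcΛ := by rw [hΛ, hA]; linarith [show (0 : ℝ) ≤ 10 ^ 7 by norm_num]
      hμ := by rw [hΛ, hA]; linarith [show (0 : ℝ) ≤ 10 ^ 7 by norm_num]
      hL := by omega
      hLΛ := by rw [hΛ]; linarith
      hΛ := by rw [hΛ, hA]; linarith
      hJ := hL.ge
      hε1 := by
        have : 0 ≤ ∑' n : Zd d, (if (k : ℝ) < ‖n‖ then ‖w n‖ else 0) := by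
          refine tsum_nonneg fun n => ?_
          split_ifs
          · exact norm_nonneg _
          · exact le_rfl
        linarith
      hε2 := by
        have : (0 : ℝ) ≤ (1 / 2 : ℝ) ^ k := by positivity
        linarith
      hp := by rw [hp]; exact le_max_right _ _
      hε := by
        refine le_trans ?_ hk1
        gcongr }
  have hΛH : (J.HH d L : ℝ) ≤ P.Λ := by
    show (J.HH d L : ℝ) ≤ Λ
    rw [hΛ]
    linarith
  refine ⟨P, le_rfl, ?_, ?_, ⟨J.dirs P rfl (by omega) hL1 hΛH⟩⟩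
  · show p₀ ≤ p
    rw [hp]
    exact le_max_left _ _
  · show L₀ ≤ L
    omega

end Fermi
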