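import Mathlib

/-!
# Irreducibility of Fermi varieties: the definitions used in the statement

`C(UnitAddTorus (Fin d), ℂ)` are the continuous functions on the torus `T^d = (ℝ/ℤ)^d`.
-/

open scoped BigOperators Topology Real ContDiff
open Set Filter MeasureTheory

noncomputable section

namespace Fermi

variable {d : ℕ}

/-- the probability Haar measure of the torus `T^d` -/
def haar (d : ℕ) : Measure (UnitAddTorus (Fin d)) := Measure.pi fun _ => AddCircle.haarAddCircle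

/-- the symbol `(2π)^2 (n + k)·(n + k)` of `(-i∇ + 2πk)^2` -/
def symb (k : Fin d → ℂ) (n : Fin d → ℤ) : ℂ := (2 * (π : ℂ)) ^ 2 * ∑ j, ((n j : ℂ) + k j) ^ 2

/-- the eigenvalue equation `(-i∇ + 2πk)^2 φ + V φ = lam φ` in Fourier coefficients -/
def EigEq (V φ : UnitAddTorus (Fin d) → ℂ) (lam : ℂ) (k : Fin d → ℂ) : Prop :=
  ∀ n : Fin d → ℤ, symb k n * UnitAddTorus.mFourierCoeff φ n +
    UnitAddTorus.mFourierCoeff (fun x => V x * φ x) n = lam * UnitAddTorus.mFourierCoeff φ n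

/-- The Fermi variety `F_lam(V) ⊆ ℂ^d`: the quasimomenta `k` for which `lam` is an eigenvalue of
`H(k) = (-i∇ + 2πk)^2 + V` on `L²(T^d)`. The eigenvalue equation is written in Fourier
coefficients: `(2π)^2 (n + k)·(n + k) φ̂(n) + (Vφ)^(n) = lam φ̂(n)` for all `n ∈ ℤ^d`. -/
def FermiSet (V : C(UnitAddTorus (Fin d), ℂ)) (lam : ℂ) : Set (Fin d → ℂ) :=
  {k | ∃ φ : Lp ℂ 2 (haar d), φ ≠ 0 ∧ EigEq V φ lam k}

/-- `V ∈ C^∞(T^d)`: the lift of `V` to a periodic function on `ℝ^d` is `C^∞` -/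
def CInf (V : C(UnitAddTorus (Fin d), ℂ)) : Prop :=
  ContDiff ℝ ∞ (fun x : Fin d → ℝ => V (fun j => (x j : UnitAddCircle)))

/-- the covering map `ℂ^d → (ℂ^*)^d`, `k ↦ (e^{2πi k_1}, ..., e^{2πi k_d})` -/
def ex (k : Fin d → ℂ) : Fin d → ℂ := fun j => Complex.exp (2 * π * Complex.I * k j)

/-- analytic subsets of `(ℂ^*)^d`: near every point of `(ℂ^*)^d` the set is the common zero set
of finitely many analytic functions -/
def IsAnSub (Z : Set (Fin d → ℂ)) : Prop :=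
  (∀ z ∈ Z, ∀ j, z j ≠ 0) ∧
  ∀ p : Fin d → ℂ, (∀ j, p j ≠ 0) → ∃ U ∈ 𝓝 p, ∃ (m : ℕ) (g : Fin m → (Fin d → ℂ) → ℂ),
    (∀ i, AnalyticOnNhd ℂ (g i) U) ∧ ∀ z ∈ U, (∀ j, z j ≠ 0) → (z ∈ Z ↔ ∀ i, g i z = 0)

/-- irreducible analytic subsets of `(ℂ^*)^d`: nonempty, analytic, and not the union of two
proper analytic subsets -/
def IrredAn (Z : Set (Fin d → ℂ)) : Prop :=
  Z.Nonempty ∧ IsAnSub Z ∧
    ∀ Z₁ Z₂ : Set (Fin d → ℂ), IsAnSub Z₁ → IsAnSub Z₂ → Z = Z₁ ∪ Z₂ → Z = Z₁ ∨ Z = Z₂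

end Fermi
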