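import Pool.Agent.Lib.Fermi.Defs
import Pool.Agent.Lib.Fermi.Stmt
import Pool.Agent.Lib.Fermi.OpLoc
import Pool.Agent.Lib.Fermi.Param

/-!
# Chunk K2: from the torus to Fourier variables; analytic subsets of `(C^*)^d`

`FermiSet V lam` is the set of `k` such that `lam` is an eigenvalue of
`H(k) = (-i∇ + 2πk)^2 + V` on `L²(T^d)`, written in Fourier coefficients.
-/

open scoped BigOperators Topology Real
open Set Filter MeasureTheory

noncomputable section

namespace Fermi

/-- In this file `ℝ / ℤ` carries its probability Haar measure (as in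
`Mathlib.Analysis.Fourier.AddCircleMulti`). -/
local instance : MeasureSpace UnitAddCircle := ⟨AddCircle.haarAddCircle⟩

local instance : Measure.IsAddHaarMeasure (volume : Measure UnitAddCircle) :=
  inferInstanceAs (Measure.IsAddHaarMeasure AddCircle.haarAddCircle)

local instance : IsProbabilityMeasure (volume : Measure UnitAddCircle) :=
  inferInstanceAs (IsProbabilityMeasure AddCircle.haarAddCircle)

variable {d : ℕ}

/-- the Fermi variety, all definitions unfolded -/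
def FermiSet0 (V : C(UnitAddTorus (Fin d), ℂ)) (lam : ℂ) : Set (Fin d → ℂ) :=
  {k | ∃ φ : Lp ℂ 2 (volume : Measure (UnitAddTorus (Fin d))), φ ≠ 0 ∧ ∀ n : Fin d → ℤ,
    (2 * (π : ℂ)) ^ 2 * (∑ j, ((n j : ℂ) + k j) ^ 2) * UnitAddTorus.mFourierCoeff φ n +
      UnitAddTorus.mFourierCoeff (fun x => V x * φ x) n = lam * UnitAddTorus.mFourierCoeff φ n}

/-- `V ∈ C^∞(T^d)`: the Fourier coefficients decay rapidly -/
def SmoothPot (V : C(UnitAddTorus (Fin d), ℂ)) : Prop :=
  ∀ N : ℕ, ∃ C : ℝ, ∀ n : Fin d → ℤ, ‖UnitAddTorus.mFourierCoeff V n‖ * (1 + ‖n‖) ^ N ≤ C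

/-! ### multiplication in Fourier coefficients -/

/-- Fourier coefficients of a product with a continuous function -/
theorem k2_conv (V : C(UnitAddTorus (Fin d), ℂ))
    (φ : Lp ℂ 2 (volume : Measure (UnitAddTorus (Fin d)))) (n : Fin d → ℤ) :
    HasSum (fun m => UnitAddTorus.mFourierCoeff V (n - m) * UnitAddTorus.mFourierCoeff φ m)
      (UnitAddTorus.mFourierCoeff (fun x => V x * φ x) n) := by
  let F : C(UnitAddTorus (Fin d), ℂ) :=
    ⟨fun x => (starRingEnd ℂ) (V x) * UnitAddTorus.mFourier n x, by fun_prop⟩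
  have h := UnitAddTorus.hasSum_prod_mFourierCoeff (ContinuousMap.toLp 2 volume ℂ F) φ
  have h1 : ∀ m, (starRingEnd ℂ) (UnitAddTorus.mFourierCoeff
      (ContinuousMap.toLp 2 (volume : Measure (UnitAddTorus (Fin d))) ℂ F) m) =
      UnitAddTorus.mFourierCoeff V (n - m) := by
    intro m
    rw [UnitAddTorus.mFourierCoeff_toLp]
    unfold UnitAddTorus.mFourierCoeff
    rw [← integral_conj]
    congr 1
    funext t
    change (starRingEnd ℂ) (UnitAddTorus.mFourier (-m) t *
      ((starRingEnd ℂ) (V t) * UnitAddTorus.mFourier n t)) = UnitAddTorus.mFourier (-(n - m)) t * V t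
    rw [map_mul, map_mul, Complex.conj_conj, UnitAddTorus.mFourier_neg, Complex.conj_conj,
      show -(n - m) = m + -n by abel, UnitAddTorus.mFourier_add, UnitAddTorus.mFourier_neg]
    ring
  have h2 : ∫ t, (starRingEnd ℂ) ((ContinuousMap.toLp 2
      (volume : Measure (UnitAddTorus (Fin d))) ℂ F) t) * φ t =
      UnitAddTorus.mFourierCoeff (fun x => V x * φ x) n := by
    unfold UnitAddTorus.mFourierCoeff
    apply integral_congr_ae
    filter_upwards [F.coeFn_toLp (𝕜 := ℂ) (p := 2) (volume : Measure (UnitAddTorus (Fin d)))]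
      with t ht
    rw [ht]
    change (starRingEnd ℂ) ((starRingEnd ℂ) (V t) * UnitAddTorus.mFourier n t) * φ t =
      UnitAddTorus.mFourier (-n) t * (V t * φ t)
    rw [map_mul, Complex.conj_conj, UnitAddTorus.mFourier_neg]
    ring
  rw [h2] at h
  simpa only [h1] using h

theorem FermiSet0_eq (V : C(UnitAddTorus (Fin d), ℂ)) (hV : SmoothPot V) (lam : ℂ) :
    FermiSet0 V lam = FS (lam / (2 * (π : ℂ)) ^ 2)
      (fun n => UnitAddTorus.mFourierCoeff V n / (2 * (π : ℂ)) ^ 2) := by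
  have hpi : (2 * (π : ℂ)) ^ 2 ≠ 0 := by
    have : (π : ℂ) ≠ 0 := by exact_mod_cast Real.pi_ne_zero
    exact pow_ne_zero 2 (mul_ne_zero two_ne_zero this)
  have key : ∀ (φ : Lp ℂ 2 (volume : Measure (UnitAddTorus (Fin d)))) (k : Fin d → ℂ)
      (n : Fin d → ℤ),
      ((2 * (π : ℂ)) ^ 2 * (∑ j, ((n j : ℂ) + k j) ^ 2) * UnitAddTorus.mFourierCoeff φ n +
        UnitAddTorus.mFourierCoeff (fun x => V x * φ x) n = lam * UnitAddTorus.mFourierCoeff φ n)
      ↔ q (lam / (2 * (π : ℂ)) ^ 2) k n * UnitAddTorus.mFourierBasis.repr φ n +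
        ∑' m, UnitAddTorus.mFourierCoeff V (n - m) / (2 * (π : ℂ)) ^ 2 *
          UnitAddTorus.mFourierBasis.repr φ m = 0 := by
    intro φ k n
    have h1 : ∑' m, UnitAddTorus.mFourierCoeff V (n - m) / (2 * (π : ℂ)) ^ 2 *
          UnitAddTorus.mFourierBasis.repr φ m =
        UnitAddTorus.mFourierCoeff (fun x => V x * φ x) n / (2 * (π : ℂ)) ^ 2 := by
      rw [← ((k2_conv V φ n).div_const ((2 * (π : ℂ)) ^ 2)).tsum_eq]
      apply tsum_congr
      intro m
      rw [UnitAddTorus.mFourierBasis_repr]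
      ring
    have h2 : q (lam / (2 * (π : ℂ)) ^ 2) k n =
        (∑ j, ((n j : ℂ) + k j) ^ 2) - lam / (2 * (π : ℂ)) ^ 2 := by
      unfold q bil zc
      congr 1
      apply Finset.sum_congr rfl
      intro j _
      simp only [Pi.add_apply]
      ring
    rw [h1, h2, UnitAddTorus.mFourierBasis_repr]
    constructor
    · intro h3
      have : ((∑ j, ((n j : ℂ) + k j) ^ 2) - lam / (2 * (π : ℂ)) ^ 2) *
          UnitAddTorus.mFourierCoeff φ n +
          UnitAddTorus.mFourierCoeff (fun x => V x * φ x) n / (2 * (π : ℂ)) ^ 2 =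
          ((2 * (π : ℂ)) ^ 2 * (∑ j, ((n j : ℂ) + k j) ^ 2) * UnitAddTorus.mFourierCoeff φ n +
            UnitAddTorus.mFourierCoeff (fun x => V x * φ x) n -
            lam * UnitAddTorus.mFourierCoeff φ n) / (2 * (π : ℂ)) ^ 2 := by
        field_simp
        ring
      rw [this, h3, sub_self, zero_div]
    · intro h3
      have : ((2 * (π : ℂ)) ^ 2 * (∑ j, ((n j : ℂ) + k j) ^ 2) * UnitAddTorus.mFourierCoeff φ n +
            UnitAddTorus.mFourierCoeff (fun x => V x * φ x) n -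
            lam * UnitAddTorus.mFourierCoeff φ n) = (2 * (π : ℂ)) ^ 2 *
          (((∑ j, ((n j : ℂ) + k j) ^ 2) - lam / (2 * (π : ℂ)) ^ 2) *
          UnitAddTorus.mFourierCoeff φ n +
          UnitAddTorus.mFourierCoeff (fun x => V x * φ x) n / (2 * (π : ℂ)) ^ 2) := by
        field_simp
        ring
      rw [← sub_eq_zero, this, h3, mul_zero]
  ext k
  constructor
  · rintro ⟨φ, hφ, h⟩
    refine ⟨UnitAddTorus.mFourierBasis.repr φ, ?_, fun n => (key φ k n).1 (h n)⟩
    intro h0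
    exact hφ ((LinearIsometryEquiv.map_eq_zero_iff _).1 h0)
  · rintro ⟨u, hu, h⟩
    refine ⟨UnitAddTorus.mFourierBasis.repr.symm u, ?_, fun n => (key _ k n).2 ?_⟩
    · intro h0
      exact hu ((LinearIsometryEquiv.map_eq_zero_iff _).1 h0)
    · rw [LinearIsometryEquiv.apply_symm_apply]
      exact h n

theorem FermiSet_eq0 (V : C(UnitAddTorus (Fin d), ℂ)) (lam : ℂ) :
    FermiSet V lam = FermiSet0 V lam := rfl

theorem FermiSet_eq (V : C(UnitAddTorus (Fin d), ℂ)) (hV : SmoothPot V) (lam : ℂ) :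
    FermiSet V lam = FS (lam / (2 * (π : ℂ)) ^ 2)
      (fun n => UnitAddTorus.mFourierCoeff V n / (2 * (π : ℂ)) ^ 2) := by
  rw [FermiSet_eq0, FermiSet0_eq V hV lam]

theorem rapid_of_smooth (V : C(UnitAddTorus (Fin d), ℂ)) (hV : SmoothPot V) :
    Rapid (fun n => UnitAddTorus.mFourierCoeff V n / (2 * (π : ℂ)) ^ 2) := by
  intro N
  obtain ⟨C, hC⟩ := hV N
  refine ⟨C / ‖(2 * (π : ℂ)) ^ 2‖, fun n => ?_⟩
  rw [norm_div, div_mul_eq_mul_div]
  exact div_le_div_of_nonneg_right (hC n) (norm_nonneg _)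

/-! ### the covering map -/

lemma k2_twopi : 2 * (π : ℂ) * Complex.I ≠ 0 := by
  have : (π : ℂ) ≠ 0 := by exact_mod_cast Real.pi_ne_zero
  simp [this]

lemma k2_ex_ne (k : Fin d → ℂ) (j : Fin d) : ex k j ≠ 0 := Complex.exp_ne_zero _

lemma k2_ex_add (k : Fin d → ℂ) (n : Zd d) : ex (k + zc n) = ex k := by
  funext j
  unfold ex zc
  rw [Pi.add_apply, Complex.exp_eq_exp_iff_exists_int]
  exact ⟨n j, by ring⟩

lemma k2_ex_eq {k k' : Fin d → ℂ} (h : ex k = ex k') : ∃ n : Zd d, k = k' + zc n := by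
  have h1 : ∀ j, ∃ n : ℤ, k j = k' j + n := by
    intro j
    have h2 := congrFun h j
    unfold ex at h2
    rw [Complex.exp_eq_exp_iff_exists_int] at h2
    obtain ⟨n, hn⟩ := h2
    refine ⟨n, ?_⟩
    have : 2 * (π : ℂ) * Complex.I * (k j - (k' j + n)) = 0 := by
      rw [mul_sub, mul_add, hn]
      ring
    rcases mul_eq_zero.1 this with h3 | h3
    · exact absurd h3 k2_twopi
    · exact sub_eq_zero.1 h3
  choose n hn using h1
  exact ⟨n, funext hn⟩

lemma k2_ex_analytic (k : Fin d → ℂ) : AnalyticAt ℂ (ex : (Fin d → ℂ) → (Fin d → ℂ)) k := by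
  rw [analyticAt_pi_iff]
  intro j
  unfold ex
  have h1 : AnalyticAt ℂ (fun k : Fin d → ℂ => k j) k :=
    (ContinuousLinearMap.proj (R := ℂ) (φ := fun _ : Fin d => ℂ) j).analyticAt k
  exact (analyticAt_const.mul h1).cexp

/-- local inverse of the covering map near `p` -/
def k2L (p : Fin d → ℂ) (z : Fin d → ℂ) : Fin d → ℂ :=
  fun j => (Complex.log (z j / p j) + Complex.log (p j)) / (2 * π * Complex.I)

lemma k2_ex_L {p z : Fin d → ℂ} (hp : ∀ j, p j ≠ 0) (hz : ∀ j, z j ≠ 0) : ex (k2L p z) = z := by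
  funext j
  unfold ex k2L
  rw [mul_div_cancel₀ _ k2_twopi, Complex.exp_add, Complex.exp_log (div_ne_zero (hz j) (hp j)),
    Complex.exp_log (hp j), div_mul_cancel₀ _ (hp j)]

lemma k2_L_analytic {p z : Fin d → ℂ} (hz : ∀ j, z j / p j ∈ Complex.slitPlane) :
    AnalyticAt ℂ (k2L p) z := by
  rw [analyticAt_pi_iff]
  intro j
  unfold k2L
  have h1 : AnalyticAt ℂ (fun k : Fin d → ℂ => k j) z :=
    (ContinuousLinearMap.proj (R := ℂ) (φ := fun _ : Fin d => ℂ) j).analyticAt z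
  have h2 : AnalyticAt ℂ (fun k : Fin d → ℂ => k j / p j) z := h1.div_const
  exact ((h2.clog (hz j)).add analyticAt_const).div_const

lemma k2_mem_image {F : Set (Cd d)} (hp : Per F) {k : Cd d} : ex k ∈ ex '' F ↔ k ∈ F := by
  constructor
  · rintro ⟨k', hk', he⟩
    obtain ⟨n, hn⟩ := k2_ex_eq he
    rw [hn] at hk'
    exact (hp k n).1 hk'
  · intro hk
    exact ⟨k, hk, rfl⟩

lemma k2_isAnSub {F : Set (Cd d)} (hF : LocHyp F) (hp : Per F) : IsAnSub (ex '' F) := by
  constructor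
  · rintro z ⟨k, _, rfl⟩ j
    exact k2_ex_ne k j
  · intro p hp0
    obtain ⟨U, hU, f, hf, hUf⟩ := hF (k2L p p)
    let S : Set (Fin d → ℂ) := {z | ∀ j, z j / p j ∈ Complex.slitPlane}
    have hS : IsOpen S := by
      have : S = ⋂ j, {z : Fin d → ℂ | z j / p j ∈ Complex.slitPlane} := by
        ext z; simp [S]
      rw [this]
      refine isOpen_iInter_of_finite fun j => ?_
      exact Complex.isOpen_slitPlane.preimage (by fun_prop)
    have hpS : p ∈ S := by
      intro j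
      rw [div_self (hp0 j)]
      exact Complex.one_mem_slitPlane
    have hcont : ContinuousAt (k2L p) p := (k2_L_analytic hpS).continuousAt
    refine ⟨S ∩ k2L p ⁻¹' U, Filter.inter_mem (hS.mem_nhds hpS) (hcont hU), 1,
      fun _ z => f (k2L p z), ?_, ?_⟩
    · rintro _ z ⟨hz1, hz2⟩
      exact (hf _ hz2).comp (k2_L_analytic hz1)
    · rintro z ⟨hz1, hz2⟩ hz0
      have h1 := k2_mem_image hp (k := k2L p z)
      rw [k2_ex_L hp0 hz0] at h1
      rw [h1, hUf _ hz2]
      simp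

lemma k2_locAn {Z : Set (Fin d → ℂ)} (hZ : IsAnSub Z) : LocAn (ex ⁻¹' Z : Set (Cd d)) := by
  intro p
  obtain ⟨U, hU, m, g, hg, hUg⟩ := hZ.2 (ex p) (k2_ex_ne p)
  refine ⟨ex ⁻¹' U, (k2_ex_analytic p).continuousAt hU, Fin m, fun i k => g i (ex k), ?_, ?_⟩
  · intro i k hk
    exact (hg i _ hk).comp (k2_ex_analytic k)
  · intro k hk
    exact hUg _ hk (k2_ex_ne k)

lemma k2_per {Z : Set (Fin d → ℂ)} : Per (ex ⁻¹' Z : Set (Cd d)) := by
  intro k n
  rw [Set.mem_preimage, Set.mem_preimage, k2_ex_add]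

theorem irredAn_of {F : Set (Cd d)} (hF : LocHyp F) (hp : Per F) (hne : F.Nonempty)
    (h : ∀ A B : Set (Cd d), Decomp F A B → F ⊆ A ∨ F ⊆ B) : IrredAn (ex '' F) := by
  refine ⟨hne.image _, k2_isAnSub hF hp, ?_⟩
  intro Z₁ Z₂ h1 h2 hU
  have hD : Decomp F (ex ⁻¹' Z₁) (ex ⁻¹' Z₂) := by
    refine ⟨hF, k2_locAn h1, k2_locAn h2, ?_, hp, k2_per, k2_per⟩
    rw [← Set.preimage_union, ← hU]
    ext k
    exact k2_mem_image hp
  rcases h _ _ hD with h3 | h3
  · left
    apply Set.Subset.antisymm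
    · rintro z ⟨k, hk, rfl⟩
      exact h3 hk
    · rw [hU]
      exact Set.subset_union_left
  · right
    apply Set.Subset.antisymm
    · rintro z ⟨k, hk, rfl⟩
      exact h3 hk
    · rw [hU]
      exact Set.subset_union_right

end Fermi
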