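import Mathlib

/-!
# Chunk MD: elementary bounds for determinants

* `det_diff`: Leibniz formula and the bound for differences of products.
* `solve_bound`: `x = A⁻¹ y`, the entries of the adjugate are determinants of matrices with one row replaced by a unit vector
  (`Matrix.adjugate_apply`), `Matrix.det_le`.
* `det_lower`: `T` is injective, `T⁻¹` has entries `≤ B` (apply the hypothesis to the columns of `T⁻¹`), so `|det T⁻¹| ≤ n! B^n`.
-/

open scoped BigOperators Topology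
open Set Filter

noncomputable section

namespace Fermi

variable {ι : Type*} [Fintype ι] [DecidableEq ι]

theorem det_bound {A : Matrix ι ι ℂ} {b : ℝ} (hA : ∀ i j, ‖A i j‖ ≤ b) :
    ‖A.det‖ ≤ (Fintype.card ι).factorial * b ^ (Fintype.card ι) := by
  have h := Matrix.det_le (abv := (NormedField.toAbsoluteValue ℂ)) (A := A) (x := b)
    (fun i j => hA i j)
  simpa [NormedField.toAbsoluteValue, nsmul_eq_mul] using h

/-- difference of two products -/
theorem prod_diff {κ : Type*} (s : Finset κ) (a a' : κ → ℂ) {b t : ℝ} (hb : 1 ≤ b) (ht : 0 ≤ t)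
    (ha : ∀ i, ‖a i‖ ≤ b) (ha' : ∀ i, ‖a' i‖ ≤ b) (hd : ∀ i, ‖a i - a' i‖ ≤ t) :
    ‖∏ i ∈ s, a i - ∏ i ∈ s, a' i‖ ≤ s.card * b ^ s.card * t := by
  classical
  induction s using Finset.induction_on with
  | empty => simp
  | insert j s hj ih =>
    rw [Finset.prod_insert hj, Finset.prod_insert hj, Finset.card_insert_of_notMem hj]
    have e : a j * ∏ i ∈ s, a i - a' j * ∏ i ∈ s, a' i
        = a j * (∏ i ∈ s, a i - ∏ i ∈ s, a' i) + (a j - a' j) * ∏ i ∈ s, a' i := by ring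
    have hP : ‖∏ i ∈ s, a' i‖ ≤ b ^ s.card := by
      rw [norm_prod]
      calc ∏ i ∈ s, ‖a' i‖ ≤ ∏ _i ∈ s, b := Finset.prod_le_prod (fun i _ => norm_nonneg _)
            (fun i _ => ha' i)
        _ = b ^ s.card := by simp
    have hb0 : 0 ≤ b := by linarith
    have h1 : ‖a j * (∏ i ∈ s, a i - ∏ i ∈ s, a' i)‖ ≤ b * (s.card * b ^ s.card * t) := by
      rw [norm_mul]
      exact mul_le_mul (ha j) ih (norm_nonneg _) hb0
    have h2 : ‖(a j - a' j) * ∏ i ∈ s, a' i‖ ≤ t * b ^ s.card := by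
      rw [norm_mul]
      exact mul_le_mul (hd j) hP (norm_nonneg _) ht
    have h3 : t * b ^ s.card ≤ t * b ^ (s.card + 1) :=
      mul_le_mul_of_nonneg_left (pow_le_pow_right₀ hb (Nat.le_succ _)) ht
    rw [e]
    calc ‖a j * (∏ i ∈ s, a i - ∏ i ∈ s, a' i) + (a j - a' j) * ∏ i ∈ s, a' i‖
        ≤ b * (s.card * b ^ s.card * t) + t * b ^ (s.card + 1) :=
          (norm_add_le _ _).trans (add_le_add h1 (h2.trans h3))
      _ = ((s.card + 1 : ℕ) : ℝ) * b ^ (s.card + 1) * t := by push_cast; ring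

theorem det_diff {A A' : Matrix ι ι ℂ} {b t : ℝ} (hb : 1 ≤ b) (ht : 0 ≤ t) (hA : ∀ i j, ‖A i j‖ ≤ b)
    (hA' : ∀ i j, ‖A' i j‖ ≤ b) (hd : ∀ i j, ‖A i j - A' i j‖ ≤ t) :
    ‖A.det - A'.det‖ ≤
      (Fintype.card ι) * (Fintype.card ι).factorial * b ^ (Fintype.card ι) * t := by
  rw [Matrix.det_apply', Matrix.det_apply', ← Finset.sum_sub_distrib]
  have h1 : ∀ σ ∈ (Finset.univ : Finset (Equiv.Perm ι)),
      ‖((Equiv.Perm.sign σ : ℤ) : ℂ) * ∏ i, A (σ i) i - ((Equiv.Perm.sign σ : ℤ) : ℂ) * ∏ i, A' (σ i) i‖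
        ≤ (Fintype.card ι) * b ^ (Fintype.card ι) * t := by
    intro σ _
    rw [← mul_sub, norm_mul]
    have hs : ‖((Equiv.Perm.sign σ : ℤ) : ℂ)‖ = 1 := by
      rcases Int.units_eq_one_or (Equiv.Perm.sign σ) with h | h <;> simp [h]
    rw [hs, one_mul]
    exact prod_diff Finset.univ (fun i => A (σ i) i) (fun i => A' (σ i) i) hb ht
      (fun i => hA _ _) (fun i => hA' _ _) (fun i => hd _ _)
  refine (norm_sum_le_of_le _ h1).trans (le_of_eq ?_)
  rw [Finset.sum_const, Finset.card_univ, Fintype.card_perm, nsmul_eq_mul]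
  ring

theorem adj_bound {A : Matrix ι ι ℂ} {b : ℝ} (hb : 1 ≤ b) (hA : ∀ i j, ‖A i j‖ ≤ b) (i j : ι) :
    ‖A.adjugate i j‖ ≤ (Fintype.card ι).factorial * b ^ (Fintype.card ι) := by
  rw [Matrix.adjugate_apply]
  refine det_bound fun k l => ?_
  by_cases hk : k = j
  · subst hk
    rw [Matrix.updateRow_self]
    by_cases hl : l = i
    · subst hl; simpa using hb
    · rw [Pi.single_eq_of_ne hl]; simp; linarith
  · rw [Matrix.updateRow_ne hk]
    exact hA k l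

theorem solve_bound {A : Matrix ι ι ℂ} {b η t : ℝ} (hb : 1 ≤ b) (hη : 0 < η)
    (hA : ∀ i j, ‖A i j‖ ≤ b) (hdet : η ≤ ‖A.det‖) {x y : ι → ℂ} (hxy : A.mulVec x = y)
    (hy : ∀ i, ‖y i‖ ≤ t) (i : ι) :
    ‖x i‖ ≤ (Fintype.card ι) * (Fintype.card ι).factorial * b ^ (Fintype.card ι) * t / η := by
  have h1 : A.adjugate.mulVec y = A.det • x := by
    rw [← hxy, Matrix.mulVec_mulVec, Matrix.adjugate_mul, Matrix.smul_mulVec, Matrix.one_mulVec]
  have h2 : ‖A.det‖ * ‖x i‖ ≤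
      (Fintype.card ι) * (Fintype.card ι).factorial * b ^ (Fintype.card ι) * t := by
    have h3 : (A.det • x) i = ∑ j, A.adjugate i j * y j := by
      rw [← h1]; rfl
    have h4 : ‖A.det‖ * ‖x i‖ = ‖∑ j, A.adjugate i j * y j‖ := by
      rw [← h3, Pi.smul_apply, smul_eq_mul, norm_mul]
    rw [h4]
    have h5 : ∀ j ∈ (Finset.univ : Finset ι), ‖A.adjugate i j * y j‖ ≤
        ((Fintype.card ι).factorial * b ^ (Fintype.card ι)) * t := by
      intro j _
      rw [norm_mul]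
      exact mul_le_mul (adj_bound hb hA i j) (hy j) (norm_nonneg _)
        (by positivity)
    refine (norm_sum_le_of_le _ h5).trans (le_of_eq ?_)
    rw [Finset.sum_const, Finset.card_univ, nsmul_eq_mul]
    ring
  rw [le_div_iff₀ hη]
  have h6 : ‖x i‖ * η ≤ ‖A.det‖ * ‖x i‖ := by
    rw [mul_comm]
    exact mul_le_mul_of_nonneg_right hdet (norm_nonneg _)
  exact h6.trans h2

theorem det_lower {T : Matrix ι ι ℂ} {B : ℝ} (hB : 0 < B)
    (h : ∀ x : ι → ℂ, ∑ i, ‖x i‖ ^ 2 ≤ B ^ 2 * ∑ i, ‖T.mulVec x i‖ ^ 2) :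
    1 / ((Fintype.card ι).factorial * B ^ (Fintype.card ι) : ℝ) ≤ ‖T.det‖ := by
  have hdet : T.det ≠ 0 := by
    intro h0
    obtain ⟨v, hv, hTv⟩ := Matrix.exists_mulVec_eq_zero_iff.mpr h0
    have h1 := h v
    rw [hTv] at h1
    simp only [Pi.zero_apply, norm_zero] at h1
    have h2 : ∑ i, ‖v i‖ ^ 2 ≤ 0 := by simpa using h1
    apply hv
    funext i
    have h3 : ‖v i‖ ^ 2 ≤ ∑ i, ‖v i‖ ^ 2 :=
      Finset.single_le_sum (f := fun i => ‖v i‖ ^ 2) (fun _ _ => sq_nonneg _) (Finset.mem_univ i)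
    have h4 : ‖v i‖ ^ 2 = 0 := le_antisymm (h3.trans h2) (sq_nonneg _)
    have h5 : ‖v i‖ = 0 := by simpa using h4
    simpa using h5
  have hu : IsUnit T.det := isUnit_iff_ne_zero.mpr hdet
  have hmul : T * T⁻¹ = 1 := Matrix.mul_nonsing_inv T hu
  have hent : ∀ i j, ‖T⁻¹ i j‖ ≤ B := by
    intro i j
    have h1 := h (fun k => T⁻¹ k j)
    have h2 : T.mulVec (fun k => T⁻¹ k j) = fun k => (1 : Matrix ι ι ℂ) k j := by
      funext k
      rw [← hmul]
      rfl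
    rw [h2] at h1
    have h3 : ∑ k, ‖(1 : Matrix ι ι ℂ) k j‖ ^ 2 = 1 := by
      rw [Finset.sum_eq_single j]
      · simp
      · intro k _ hk
        rw [Matrix.one_apply_ne hk]; simp
      · intro hj; exact absurd (Finset.mem_univ j) hj
    rw [h3] at h1
    have h4 : ‖T⁻¹ i j‖ ^ 2 ≤ ∑ k, ‖T⁻¹ k j‖ ^ 2 :=
      Finset.single_le_sum (f := fun k => ‖T⁻¹ k j‖ ^ 2) (fun _ _ => sq_nonneg _)
        (Finset.mem_univ i)
    have h5 : ‖T⁻¹ i j‖ ^ 2 ≤ B ^ 2 := by linarith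
    exact abs_le_of_sq_le_sq' h5 hB.le |>.2
  have h7 : ‖T⁻¹.det‖ ≤ (Fintype.card ι).factorial * B ^ (Fintype.card ι) := det_bound hent
  have h8 : ‖T.det‖ * ‖T⁻¹.det‖ = 1 := by
    rw [← norm_mul, ← Matrix.det_mul, hmul, Matrix.det_one, norm_one]
  have hpos : (0 : ℝ) < (Fintype.card ι).factorial * B ^ (Fintype.card ι) := by positivity
  rw [div_le_iff₀ hpos]
  calc (1 : ℝ) = ‖T.det‖ * ‖T⁻¹.det‖ := h8.symm
    _ ≤ ‖T.det‖ * ((Fintype.card ι).factorial * B ^ (Fintype.card ι)) :=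
        mul_le_mul_of_nonneg_left h7 (norm_nonneg _)

end Fermi
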