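import Pool.Agent.Lib.Fermi.OpLMa

/-!
# Chunk D7, part b: the symbols and the effective function near a regular point
-/

open scoped BigOperators Topology
open Set Filter

noncomputable section

namespace Fermi

variable {d : ℕ} {μ : ℂ} {w : Zd d → ℂ}

namespace Sc

variable (P : Sc d μ w)

include P

theorem x_r54 : P.Λ ^ 54 * P.r ≤ 1 / 1000 := by
  have h := P.x_r1 54 (by norm_num)
  have h1 := P.hΛ
  have h2 : (P.Λ ^ 900)⁻¹ ≤ 1 / 1000 := by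
    rw [one_div]
    apply inv_anti₀ (by norm_num)
    calc (1000 : ℝ) ≤ P.Λ := by linarith
      _ = P.Λ ^ 1 := (pow_one _).symm
      _ ≤ P.Λ ^ 900 := pow_le_pow_right₀ P.x_one (by norm_num)
  linarith

theorem x_rle : P.r ≤ 1 / 1000 := by
  have h := P.x_r54
  have h0 := P.x_r
  have h1 : (1 : ℝ) ≤ P.Λ ^ 54 := one_le_pow₀ P.x_one
  nlinarith

end Sc

section

variable {P : Sc d μ w} {p0 : Cd d}

theorem reg_sq (h : Regular P p0) (n : Zd d) :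
    ‖p0 + zc n‖ ^ 2 ≤ ‖q μ p0 n‖ + P.Λ + 2 * P.R ^ 2 := by
  have h1 := norm_le_en (p0 + zc n)
  have h2 := en_sq (p0 + zc n)
  have h3 := lmx_nsq_le (μ := μ) p0 n
  have h4 := P.hμ
  have h5 := h.1
  have h6 : ‖p0 + zc n‖ ^ 2 ≤ en (p0 + zc n) ^ 2 := by gcongr
  linarith

theorem R_sq_ge (P : Sc d μ w) : 10 ^ 7 * P.Λ ≤ P.R ^ 2 := by
  have h1 := P.x_one
  have h0 := P.hΛ
  have : P.R ^ 2 = P.Λ * P.Λ ^ 51 := by unfold Sc.R; ring
  rw [this]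
  have h2 : P.Λ ≤ P.Λ ^ 51 := by
    calc P.Λ = P.Λ ^ 1 := (pow_one _).symm
      _ ≤ P.Λ ^ 51 := pow_le_pow_right₀ h1 (by norm_num)
  nlinarith

theorem reg_size (h : Regular P p0) {n : Zd d} (hn : ‖q μ p0 n‖ < 2 * P.c) :
    ‖p0 + zc n‖ ≤ 3 / 2 * P.R := by
  have h1 := reg_sq h n
  have h2 := P.hcΛ
  have h3 := R_sq_ge P
  have h4 := P.hΛ
  have hR : 0 ≤ P.R := by have := P.x_pos; unfold Sc.R; positivity
  apply le_of_sq_le_sq _ (by positivity)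
  nlinarith

theorem q_lip (h : Regular P p0) (n : Zd d) {k k' : Cd d} (hk : ‖k - p0‖ ≤ P.r)
    (hk' : ‖k' - p0‖ ≤ P.r) :
    ‖q μ k n - q μ k' n‖ ≤ P.Λ ^ 54 * (1 + ‖q μ p0 n‖) * ‖k - k'‖ := by
  rw [lmx_q_diff p0]
  have h1 := lmx_norm_bil (p0 + zc n) (k - k')
  have h2 := lmx_norm_bil (k - k') ((k - p0) + (k' - p0))
  have h3 : ‖(k - p0) + (k' - p0)‖ ≤ 2 := by
    have := norm_add_le (k - p0) (k' - p0)
    have := P.x_rle
    linarith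
  have h4 := reg_sq h n
  have hd := P.x_hd
  have hK := norm_nonneg (k - k')
  set Q := ‖q μ p0 n‖ with hQ
  have hQ0 : 0 ≤ Q := norm_nonneg _
  set K := ‖p0 + zc n‖ with hKK
  have hK0 : 0 ≤ K := norm_nonneg _
  have h5 : K ≤ 1 + (Q + P.Λ + 2 * P.R ^ 2) := by nlinarith [sq_nonneg (K - 1)]
  have h6 : ‖2 * bil (p0 + zc n) (k - k') + bil (k - k') ((k - p0) + (k' - p0))‖ ≤
      2 * (d * K * ‖k - k'‖) + d * ‖k - k'‖ * 2 := by
    refine (norm_add_le _ _).trans ?_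
    rw [norm_mul]
    simp only [RCLike.norm_ofNat]
    gcongr
    exact h2.trans (by gcongr)
  refine h6.trans ?_
  have h7 : 2 * (d * K * ‖k - k'‖) + d * ‖k - k'‖ * 2 = (2 * d * (K + 1)) * ‖k - k'‖ := by ring
  rw [h7]
  apply mul_le_mul_of_nonneg_right _ hK
  have hΛ1 := P.x_one
  have hR2 : P.R ^ 2 = P.Λ ^ 52 := by unfold Sc.R; ring
  rw [hR2] at h5
  have h8 : P.Λ ≤ P.Λ ^ 52 := by
    calc P.Λ = P.Λ ^ 1 := (pow_one _).symm
      _ ≤ P.Λ ^ 52 := pow_le_pow_right₀ hΛ1 (by norm_num)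
  have h9 : (1 : ℝ) ≤ P.Λ ^ 52 := one_le_pow₀ hΛ1
  have h10 : K + 1 ≤ 6 * P.Λ ^ 52 * (1 + Q) := by nlinarith
  have h11 := P.x_d1
  calc 2 * (d : ℝ) * (K + 1) ≤ 2 * (d : ℝ) * (6 * P.Λ ^ 52 * (1 + Q)) := by gcongr
    _ = (12 * d) * (P.Λ ^ 52 * (1 + Q)) := by ring
    _ ≤ (P.Λ) * (P.Λ ^ 52 * (1 + Q)) := by
        gcongr
        linarith
    _ ≤ P.Λ ^ 2 * (P.Λ ^ 52 * (1 + Q)) := by
        gcongr
        nlinarith
    _ = _ := by ring

theorem q_lip_res (h : Regular P p0) {n : Zd d} (hn : ‖q μ p0 n‖ < 2 * P.c) {k k' : Cd d}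
    (hk : ‖k - p0‖ ≤ P.r) (hk' : ‖k' - p0‖ ≤ P.r) :
    ‖q μ k n - q μ k' n‖ ≤ P.Λ ^ 27 * ‖k - k'‖ := by
  rw [lmx_q_diff p0]
  have h1 := lmx_norm_bil (p0 + zc n) (k - k')
  have h2 := lmx_norm_bil (k - k') ((k - p0) + (k' - p0))
  have h3 : ‖(k - p0) + (k' - p0)‖ ≤ 2 := by
    have := norm_add_le (k - p0) (k' - p0)
    have := P.x_rle
    linarith
  have h4 := reg_size h hn
  have hd := P.x_hd
  have hK := norm_nonneg (k - k')
  have hR : 1 ≤ P.R := one_le_pow₀ P.x_one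
  have h6 : ‖2 * bil (p0 + zc n) (k - k') + bil (k - k') ((k - p0) + (k' - p0))‖ ≤
      2 * (d * (3 / 2 * P.R) * ‖k - k'‖) + d * ‖k - k'‖ * 2 := by
    refine (norm_add_le _ _).trans ?_
    rw [norm_mul]
    simp only [RCLike.norm_ofNat]
    gcongr
    · exact h1.trans (by gcongr)
    · exact h2.trans (by gcongr)
  refine h6.trans ?_
  have h7 : 2 * (d * (3 / 2 * P.R) * ‖k - k'‖) + d * ‖k - k'‖ * 2 =
      (d * (3 * P.R + 2)) * ‖k - k'‖ := by ring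
  rw [h7]
  gcongr
  have h11 := P.x_d1
  calc (d : ℝ) * (3 * P.R + 2) ≤ d * (5 * P.R) := by gcongr; linarith
    _ = (5 * d) * P.R := by ring
    _ ≤ P.Λ * P.R := by gcongr; linarith
    _ = P.Λ ^ 27 := by unfold Sc.R; ring

theorem q_near (h : Regular P p0) (n : Zd d) {k : Cd d} (hk : ‖k - p0‖ ≤ P.r) :
    ‖q μ k n - q μ p0 n‖ ≤ 1 / 1000 * (1 + ‖q μ p0 n‖) := by
  have h1 := q_lip h n hk (k' := p0) (by simpa using P.x_r.le)
  refine h1.trans ?_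
  have h2 := P.x_r54
  have h3 : 0 ≤ 1 + ‖q μ p0 n‖ := by positivity
  calc P.Λ ^ 54 * (1 + ‖q μ p0 n‖) * ‖k - p0‖ ≤ P.Λ ^ 54 * (1 + ‖q μ p0 n‖) * P.r := by
        have := P.x_pos
        gcongr
    _ = (P.Λ ^ 54 * P.r) * (1 + ‖q μ p0 n‖) := by ring
    _ ≤ _ := by gcongr

theorem q_ge (h : Regular P p0) (n : Zd d) {k : Cd d} (hk : ‖k - p0‖ ≤ P.r) :
    999 / 1000 * ‖q μ p0 n‖ - 1 / 1000 ≤ ‖q μ k n‖ := by
  have h1 := q_near h n hk
  have h2 : ‖q μ p0 n‖ ≤ ‖q μ k n‖ + ‖q μ k n - q μ p0 n‖ := by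
    have := norm_sub_norm_le (q μ p0 n) (q μ k n)
    rw [norm_sub_rev] at this
    linarith
  linarith

theorem q_le (h : Regular P p0) (n : Zd d) {k : Cd d} (hk : ‖k - p0‖ ≤ P.r) :
    ‖q μ k n‖ ≤ 1001 / 1000 * ‖q μ p0 n‖ + 1 / 1000 := by
  have h1 := q_near h n hk
  have h2 := norm_sub_norm_le (q μ k n) (q μ p0 n)
  linarith

theorem reg_res (h : Regular P p0) (n : Zd d) {k : Cd d} (hk : ‖k - p0‖ ≤ P.r)
    (hq : ‖q μ k n‖ < 3 / 2 * P.c) : ‖q μ p0 n‖ < 2 * P.c := by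
  have h1 := q_ge h n hk
  have := P.x_c
  nlinarith

theorem reg_adm (h : Regular P p0) {S : Finset (Zd d)}
    (hS : ∀ n, n ∈ S ↔ ‖q μ p0 n‖ < 2 * P.c) {k : Cd d} (hk : ‖k - p0‖ ≤ P.r) :
    Adm w P.c (DS P.c μ S k) where
  hw := P.hw
  hc := P.hc
  hD := fun n => by
    have hc := P.x_c
    unfold DS
    split_ifs with hn
    · rw [Complex.norm_real, Real.norm_eq_abs]; exact le_abs_self _
    · rw [hS, not_lt] at hn
      have := q_ge h n hk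
      nlinarith

theorem reg_clean (h : Regular P p0) {n m : Zd d} (hn : ‖q μ p0 n‖ < 2 * P.c)
    (hm : ‖q μ p0 m‖ < 2 * P.c) (hnm : n ≠ m) : (P.L : ℝ) < ‖m - n‖ := by
  by_contra hcon
  have h1 := h.2 n hn (m - n) (sub_ne_zero.2 (Ne.symm hnm)) (not_lt.1 hcon)
  rw [add_sub_cancel] at h1
  have h2 := P.hcΛ
  have h3 := P.hΛ
  have h4 : P.G = P.Λ * P.Λ ^ 4 := by unfold Sc.G; ring
  have h5 : 2 ≤ P.Λ ^ 4 := by
    calc (2 : ℝ) ≤ P.Λ := by linarith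
      _ = P.Λ ^ 1 := (pow_one _).symm
      _ ≤ P.Λ ^ 4 := pow_le_pow_right₀ P.x_one (by norm_num)
  rw [h4] at h1
  nlinarith

theorem Cl_of (h : Regular P p0) {n : Zd d} (hn : ‖q μ p0 n‖ < 2 * P.c) {k : Cd d}
    (hk : ‖k - p0‖ ≤ P.r) : Cl P (9 / 10 * P.G) (q μ k n) (k + zc n) := by
  intro m hm0 hm
  rw [← lmx_q_add]
  have h1 := h.2 n hn m hm0 hm
  have h2 := q_ge h (n + m) hk
  have h3 : 1 ≤ P.G := one_le_pow₀ P.x_one
  nlinarith

theorem Cl_of0 (h : Regular P p0) {n : Zd d} (hn : ‖q μ p0 n‖ < 2 * P.c) :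
    Cl P P.G (q μ p0 n) (p0 + zc n) := by
  intro m hm0 hm
  rw [← lmx_q_add]
  exact h.2 n hn m hm0 hm

theorem G_nonneg (P : Sc d μ w) : 0 ≤ P.G := by
  have := P.x_pos
  unfold Sc.G; positivity

theorem reg_big (h : Regular P p0) {n : Zd d} (hn : ‖q μ p0 n‖ < 2 * P.c) :
    P.Λ ^ 4 ≤ ‖p0 + zc n‖ := by
  have hd := P.hd
  have hL := P.hL
  set j : Fin d := ⟨0, by omega⟩ with hj
  set e : Zd d := Pi.single j 1 with he
  have he0 : e ≠ 0 := by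
    intro h0
    have := congrFun h0 j
    simp [he] at this
  have hbil : ∀ κ : Cd d, bil κ (zc e) = κ j := by
    intro κ
    simp only [bil]
    rw [Finset.sum_eq_single j]
    · simp [zc, he]
    · intro b _ hb
      simp [zc, he, Pi.single_eq_of_ne hb]
    · simp
  have hne : ‖e‖ ≤ (P.L : ℝ) := by
    have h1 : ‖e‖ ≤ 1 := by
      refine (pi_norm_le_iff_of_nonneg zero_le_one).2 fun i => ?_
      by_cases hi : i = j
      · subst hi; simp [he]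
      · simp [he, Pi.single_eq_of_ne hi]
    have h2 : (1 : ℝ) ≤ P.L := by
      have : 1 ≤ P.L := by omega
      exact_mod_cast this
    linarith
  have h1 := Cl_of0 h hn e he0 hne
  rw [hbil, hbil] at h1
  have h2 : (zc e) j = 1 := by simp [zc, he]
  rw [h2] at h1
  have h3 : ‖q μ p0 n + 2 * (p0 + zc n) j + 1‖ ≤ 2 * P.c + 2 * ‖p0 + zc n‖ + 1 := by
    refine norm_add₃_le.trans ?_
    rw [norm_mul]
    simp only [RCLike.norm_ofNat, norm_one]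
    have := norm_le_pi_norm (p0 + zc n) j
    linarith
  have h4 := P.hcΛ
  have h5 := P.hΛ
  have h6 : P.G = P.Λ * P.Λ ^ 4 := by unfold Sc.G; ring
  have h7 : P.Λ ≤ P.Λ ^ 4 := by
    calc P.Λ = P.Λ ^ 1 := (pow_one _).symm
      _ ≤ P.Λ ^ 4 := pow_le_pow_right₀ P.x_one (by norm_num)
  rw [h6] at h1
  nlinarith

/-- `|κ·κ|` is small compared with `|κ|²` -/
theorem reg_iso (h : Regular P p0) {n : Zd d} (hn : ‖q μ p0 n‖ < 2 * P.c) :
    ‖bil (p0 + zc n) (p0 + zc n)‖ ≤ 3 * P.Λ ∧ P.Λ ^ 8 ≤ nsq (p0 + zc n) := by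
  constructor
  · have : bil (p0 + zc n) (p0 + zc n) = q μ p0 n + μ := by simp [q]
    rw [this]
    have h1 := norm_add_le (q μ p0 n) μ
    have h2 := P.hμ
    have h3 := P.hcΛ
    linarith
  · have h1 := reg_big h hn
    have h2 := norm_le_en (p0 + zc n)
    rw [← en_sq]
    have h3 : 0 ≤ P.Λ ^ 4 := by have := P.x_pos; positivity
    calc P.Λ ^ 8 = (P.Λ ^ 4) ^ 2 := by ring
      _ ≤ _ := by gcongr; linarith

theorem reg_iso' (h : Regular P p0) {n : Zd d} (hn : ‖q μ p0 n‖ < 2 * P.c) :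
    ‖bil (p0 + zc n) (p0 + zc n)‖ ≤ 1 / 1000 * nsq (p0 + zc n) := by
  obtain ⟨h1, h2⟩ := reg_iso h hn
  refine h1.trans ?_
  have h3 := P.hΛ
  have h4 : P.Λ ^ 8 = P.Λ * (P.Λ * P.Λ ^ 6) := by ring
  have h5 : 1 ≤ P.Λ ^ 6 := one_le_pow₀ P.x_one
  have h6 : P.Λ ≤ P.Λ * P.Λ ^ 6 := by nlinarith
  have h7 : 10 ^ 7 * P.Λ ≤ P.Λ * (P.Λ * P.Λ ^ 6) := by nlinarith
  linarith

/-- comparability of the resonant vectors -/
theorem reg_cmp (h : Regular P p0) {n m : Zd d} (hn : ‖q μ p0 n‖ < 2 * P.c)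
    (hm : ‖q μ p0 m‖ < 2 * P.c) : nsq (p0 + zc m) ≤ 2 * nsq (p0 + zc n) := by
  have h1 := lmx_nsq_le (μ := μ) p0 m
  have h2 := lmx_le_nsq (μ := μ) p0 n
  have h3 := (reg_iso h hn).2
  have h4 := P.hμ
  have h5 := P.hcΛ
  have h6 : P.Λ ^ 8 = P.Λ * (P.Λ * P.Λ ^ 6) := by ring
  have h7 : 1 ≤ P.Λ ^ 6 := one_le_pow₀ P.x_one
  have h8 := P.hΛ
  have h9 : P.Λ ≤ P.Λ * P.Λ ^ 6 := by nlinarith
  have h10 : 10 ^ 7 * P.Λ ≤ P.Λ * (P.Λ * P.Λ ^ 6) := by nlinarith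
  linarith

theorem reg_sep3 (h : Regular P p0) {n m : Zd d} (hn : ‖q μ p0 n‖ < 2 * P.c)
    (hm : ‖q μ p0 m‖ < 2 * P.c) (hnm : n ≠ m) (l : ℂ) :
    3 ≤ ‖zc (m - n) - l • (p0 + zc n)‖ := by
  have h1 := reg_clean h hn hm hnm
  have h2 := en_sub_smul (p0 + zc n) (zc (m - n)) l (bil_zc_self _) (reg_iso' h hn)
  have h3 := norm_le_en (zc (m - n))
  rw [norm_zc] at h3
  have h4 := P.x_L
  have h5 := P.x_hd
  set X := zc (m - n) - l • (p0 + zc n) with hX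
  have h6 : 33 / 10 * (d : ℝ) ≤ en X := by linarith
  have h7 : en X ^ 2 ≤ d * ‖X‖ ^ 2 := by rw [en_sq]; exact nsq_le_norm X
  have h8 : (33 / 10 * (d : ℝ)) ^ 2 ≤ d * ‖X‖ ^ 2 := by
    refine le_trans ?_ h7
    gcongr
  have h9 : (33 / 10) ^ 2 * (d : ℝ) ≤ ‖X‖ ^ 2 := by
    have : (33 / 10 * (d : ℝ)) ^ 2 = d * ((33 / 10) ^ 2 * (d : ℝ)) := by ring
    rw [this] at h8
    exact le_of_mul_le_mul_left h8 (by linarith)
  have h10 := norm_nonneg X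
  by_contra hcon
  have hcon' := not_le.1 hcon
  nlinarith

/-- finiteness and number of the resonant sites -/
theorem reg_card (h : Regular P p0) :
    ∃ S : Finset (Zd d), (∀ n, n ∈ S ↔ ‖q μ p0 n‖ < 2 * P.c) ∧ (S.card : ℝ) ≤ P.N := by
  classical
  set I : Fin d → Finset ℤ := fun j =>
    Finset.Icc (⌈-(3 / 2 * P.R) - (p0 j).re⌉) (⌊3 / 2 * P.R - (p0 j).re⌋) with hI
  set B : Finset (Zd d) := Fintype.piFinset I with hB
  refine ⟨B.filter fun n => ‖q μ p0 n‖ < 2 * P.c, ?_, ?_⟩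
  · intro n
    rw [Finset.mem_filter]
    refine ⟨fun h => h.2, fun hn => ⟨?_, hn⟩⟩
    rw [hB, Fintype.mem_piFinset]
    intro j
    have h1 := reg_size h hn
    have h2 := (norm_le_pi_norm (p0 + zc n) j).trans h1
    have h3 : |((p0 + zc n) j).re| ≤ 3 / 2 * P.R := (Complex.abs_re_le_norm _).trans h2
    have h4 : ((p0 + zc n) j).re = (p0 j).re + (n j : ℝ) := by simp [zc]
    rw [h4, abs_le] at h3
    rw [hI, Finset.mem_Icc]
    constructor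
    · apply Int.ceil_le.2; linarith [h3.1]
    · apply Int.le_floor.2; linarith [h3.2]
  · have hR : 1 ≤ P.R := one_le_pow₀ P.x_one
    have h1 : ((B.filter fun n => ‖q μ p0 n‖ < 2 * P.c).card : ℝ) ≤ (B.card : ℝ) := by
      exact_mod_cast Finset.card_filter_le _ _
    refine h1.trans ?_
    rw [hB, Fintype.card_piFinset]
    push_cast
    have h2 : ∀ j, ((I j).card : ℝ) ≤ P.Λ ^ 27 := by
      intro j
      rw [hI]
      simp only [Int.card_Icc]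
      have h3 : (⌊3 / 2 * P.R - (p0 j).re⌋ : ℝ) ≤ 3 / 2 * P.R - (p0 j).re := Int.floor_le _
      have h4 : -(3 / 2 * P.R) - (p0 j).re ≤ (⌈-(3 / 2 * P.R) - (p0 j).re⌉ : ℝ) :=
        Int.le_ceil _
      have h5 : (((⌊3 / 2 * P.R - (p0 j).re⌋ + 1 - ⌈-(3 / 2 * P.R) - (p0 j).re⌉).toNat : ℤ) : ℝ)
          ≤ 3 * P.R + 1 := by
        rcases le_total 0 (⌊3 / 2 * P.R - (p0 j).re⌋ + 1 - ⌈-(3 / 2 * P.R) - (p0 j).re⌉) with h6 | h6
        · rw [Int.toNat_of_nonneg h6]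
          push_cast
          linarith
        · rw [Int.toNat_of_nonpos h6]
          push_cast
          linarith
      have h6 : 3 * P.R + 1 ≤ P.Λ ^ 27 := by
        have : P.Λ ^ 27 = P.Λ * P.R := by unfold Sc.R; ring
        rw [this]
        have := P.hΛ
        nlinarith
      refine le_trans ?_ (h5.trans h6)
      exact_mod_cast le_rfl
    calc ∏ j, ((I j).card : ℝ) ≤ ∏ _j : Fin d, P.Λ ^ 27 :=
          Finset.prod_le_prod (fun _ _ => by positivity) fun j _ => h2 j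
      _ = P.N := by simp [Sc.N, pow_mul]

end

end Fermi
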