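import Pool.Agent.Lib.Fermi.LineX
import Pool.Agent.Lib.Fermi.OpLMb

/-!
# Chunk NM: points outside `F` close to the sheet of the site `0`

`κ = kap Ξ (zh Ξ)`, `k = κ + z • zc (ed l)`, `‖z‖ ≤ ρ₁` tiny. Blocks: `R = {n : ‖ph n Ξ‖ < 3c/2}`, `S = R` (if `C` is false) or
`S = R ∪ ⋃_{n ∈ R fast} Kf Ξ₀ n` (if `C`). Label `β m = Kf Ξ₀ m` if `m` is in the string of a fast element of `R` (and `C`), else `{m}`.
(`Kf_eq`: the label is constant on strings.)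
  The string of `0` contains no fast resonant site (`K_lam` with `i = 0`, `n + j l = 0`: `lam 0 = 0`), and all resonant sites in the string of a
  fast resonant `n` are in `Kf Ξ₀ n` (`win_all`). So a single `m ≠ 0` is not fast if `C`.
* all `m ∈ S` have `‖ph m Ξ‖ ≤ 3/2 kp ≤ Λ^4` (`win_near`), so `S` is in the box `‖m‖ ≤ Λ^23` (`ph_box`): `S.card ≤ Λ^(24 d)`, finite.
* `m ∉ S`: `‖ph m Ξ‖ ≥ 3c/2`, so `‖q μ k m‖ ≥ c` (`q_close`): `DS` is admissible. `DB (Kf Ξ₀ n)` is admissible (`win_far` and `q_close`).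
* different labels: `‖m - m'‖ > L`: `far_strings` if the strings are different; if the string is the same then one of the two, say `m`, is a
  single, resonant and clean (`ph_clean`), so all `m + l'` have `‖ph‖ ≥ Λ^6 > 3/2 kp`.
* diagonal: site `0`: `Ehat κ = 0`, `‖Ehat k‖ ≥ ‖z‖` (`q_0` changes by `2 ζ ε z + ε z²`, `|2ζε| ≥ Λ^18`; `Hh_lip`), `single_entry`.
  Other singles: `‖Ehat (k + n)‖ ≥ η₁ - Λ^30 ρ₁ ≥ η₁/2` (`Hh_lip`, `q_close`). Clusters: `h z = DK K (κ + z ed)` is analytic and bounded by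
  `B` on `‖z‖ < Λ^-60`, so `‖h z - h 0‖ ≤ 3 B Λ^60 ‖z‖` (Schwarz, `Complex.dist_le_div_mul_dist_of_mapsTo_ball`), and
  `blk_entry`, `det_diff` to pass from `DK` to the determinant of `MS`.
* `notmem_of_blocks` with `b = 2 kp`, `m₀ = m₁`, `ε₀ = 4ε`, `η = min (ρ₀/(4c)) (min (η₁/(8c)) (η₂/4))`.
-/

open scoped BigOperators Topology
open Set Filter Complex

noncomputable section

namespace Fermi

variable {d : ℕ} {μ : ℂ} {w : Zd d → ℂ} {P : Sc d μ w} {Q : Dirs P} {l : Zd d} {zh : ℂ → ℂ}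

/-- small changes of `k` change all `q_n` by a small relative amount -/
theorem q_close (P : Sc d μ w) {p k : Cd d} (hp : dr (im p) (im p) ≤ P.R ^ 2) {t : ℝ}
    (ht : t ≤ 1) (hk : ‖k - p‖ ≤ t) (n : Zd d) :
    ‖q μ k n - q μ p n‖ ≤ P.Λ ^ 54 * t * (1 + ‖q μ p n‖) := by
  rw [lmx_q_diff p]
  have h1 := lmx_norm_bil (p + zc n) (k - p)
  have h2 := lmx_norm_bil (k - p) ((k - p) + (p - p))
  have ht0 : 0 ≤ t := (norm_nonneg _).trans hk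
  have h3 : ‖(k - p) + (p - p)‖ ≤ 1 := by
    rw [sub_self, add_zero]
    linarith
  have h4 : ‖p + zc n‖ ^ 2 ≤ ‖q μ p n‖ + P.Λ + 2 * P.R ^ 2 := by
    have h1 := norm_le_en (p + zc n)
    have h2 := en_sq (p + zc n)
    have h3 := lmx_nsq_le (μ := μ) p n
    have h4 := P.hμ
    have h6 : ‖p + zc n‖ ^ 2 ≤ en (p + zc n) ^ 2 := pow_le_pow_left₀ (norm_nonneg _) h1 2
    linarith
  have hd := P.x_hd
  have hK := norm_nonneg (k - p)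
  set X := ‖q μ p n‖ with hX
  have hQ0 : 0 ≤ X := norm_nonneg _
  set K := ‖p + zc n‖ with hKK
  have hK0 : 0 ≤ K := norm_nonneg _
  have h5 : K ≤ 1 + (X + P.Λ + 2 * P.R ^ 2) := by nlinarith [sq_nonneg (K - 1)]
  have h6 : ‖2 * bil (p + zc n) (k - p) + bil (k - p) ((k - p) + (p - p))‖ ≤
      2 * (d * K * ‖k - p‖) + d * ‖k - p‖ * 1 := by
    refine (norm_add_le _ _).trans ?_
    rw [norm_mul]
    simp only [RCLike.norm_ofNat]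
    refine add_le_add (mul_le_mul_of_nonneg_left h1 (by norm_num)) (h2.trans ?_)
    exact mul_le_mul_of_nonneg_left h3 (by positivity)
  refine h6.trans ?_
  have h7 : 2 * (d * K * ‖k - p‖) + d * ‖k - p‖ * 1 ≤ (2 * d * (K + 1)) * t := by
    have e1 : 2 * (d * K * ‖k - p‖) + d * ‖k - p‖ * 1 = (2 * d * K + d) * ‖k - p‖ := by ring
    rw [e1]
    have e2 : (2 * d * K + d) * ‖k - p‖ ≤ (2 * d * K + d) * t :=
      mul_le_mul_of_nonneg_left hk (by positivity)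
    refine e2.trans (mul_le_mul_of_nonneg_right ?_ ht0)
    nlinarith
  refine h7.trans ?_
  rw [show P.Λ ^ 54 * t * (1 + X) = P.Λ ^ 54 * (1 + X) * t by ring]
  apply mul_le_mul_of_nonneg_right _ ht0
  have hΛ1 := P.x_one
  have hR2 : P.R ^ 2 = P.Λ ^ 52 := by unfold Sc.R; ring
  rw [hR2] at h5
  have h8 : P.Λ ≤ P.Λ ^ 52 := by
    calc P.Λ = P.Λ ^ 1 := (pow_one _).symm
      _ ≤ P.Λ ^ 52 := pow_le_pow_right₀ hΛ1 (by norm_num)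
  have h9 : (1 : ℝ) ≤ P.Λ ^ 52 := one_le_pow₀ hΛ1
  have h10 : K + 1 ≤ 6 * P.Λ ^ 52 * (1 + X) := by nlinarith
  have h11 := P.x_d1
  calc 2 * (d : ℝ) * (K + 1) ≤ 2 * (d : ℝ) * (6 * P.Λ ^ 52 * (1 + X)) :=
        mul_le_mul_of_nonneg_left h10 (by positivity)
    _ = (12 * d) * (P.Λ ^ 52 * (1 + X)) := by ring
    _ ≤ (P.Λ) * (P.Λ ^ 52 * (1 + X)) :=
        mul_le_mul_of_nonneg_right (by linarith) (by positivity)
    _ ≤ P.Λ ^ 2 * (P.Λ ^ 52 * (1 + X)) :=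
        mul_le_mul_of_nonneg_right (by nlinarith) (by positivity)
    _ = _ := by ring

/-- the size of `zh` -/
theorem nm_zh (hS : Sheet P Q l zh) (hP : Prim l) (hlL : ‖l‖ ≤ P.L) {Ξ : ℂ}
    (hΞ : Ξ ∈ Q.Om l) : P.Λ ^ 18 ≤ ‖zh Ξ‖ ∧ ‖zh Ξ‖ ≤ 2 * P.Λ ^ 20 := by
  have h1 := hS.near Ξ hΞ
  have h2 := Om_norm Q hP.1 hlL hΞ
  have hso := one_le_so Q hP.1 hlL
  have hΛ := P.hΛ
  have hta1 := ta_ge Q hP.1 hlL
  have hta2 := ta_le Q hP.1 hlL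
  have hX : |Q.X0 l| = |Q.ta l| * Q.so l := by
    unfold Dirs.X0
    rw [abs_mul, abs_of_nonneg (by linarith : 0 ≤ Q.so l)]
  have hn : ‖I * Ξ / (Q.so l : ℂ)‖ = ‖Ξ‖ / Q.so l := by
    rw [norm_div, norm_mul, Complex.norm_I, one_mul, Complex.norm_real, Real.norm_eq_abs,
      abs_of_nonneg (by linarith : 0 ≤ Q.so l)]
  have h3 : ‖Ξ‖ / Q.so l ≤ 101 / 100 * |Q.ta l| := by
    rw [div_le_iff₀ (by linarith)]
    rw [hX] at h2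
    linarith [h2.2.2]
  have h4 : 99 / 100 * |Q.ta l| ≤ ‖Ξ‖ / Q.so l := by
    rw [le_div_iff₀ (by linarith)]
    rw [hX] at h2
    linarith [h2.2.1]
  have h5 : (P.Λ ^ 10)⁻¹ ≤ 1 := inv_le_one_of_one_le₀ (one_le_pow₀ P.x_one)
  have h6 := norm_sub_norm_le (zh Ξ) (I * Ξ / (Q.so l : ℂ))
  have h7 := norm_sub_norm_le (I * Ξ / (Q.so l : ℂ)) (zh Ξ)
  rw [norm_sub_rev] at h7
  rw [hn] at h6 h7
  have h8 : P.Λ ^ 19 = P.Λ * P.Λ ^ 18 := by ring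
  have h9 : (1 : ℝ) ≤ P.Λ ^ 18 := one_le_pow₀ P.x_one
  have h10 : (1 : ℝ) ≤ P.Λ ^ 20 := one_le_pow₀ P.x_one
  constructor
  · nlinarith
  · nlinarith

theorem im_sheet (hS : Sheet P Q l zh) (hP : Prim l) (hlL : ‖l‖ ≤ P.L) {Ξ : ℂ}
    (hΞ : Ξ ∈ Q.Om l) :
    dr (im (Q.kap l Ξ (zh Ξ))) (im (Q.kap l Ξ (zh Ξ))) ≤ P.R ^ 2 := by
  have hz := (nm_zh hS hP hlL hΞ).2
  have hl1 := one_le_l2 hP.1
  have hl2 := l2_le P hlL
  have he2 := l2_ed_le Q hlL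
  have hΛ := P.hΛ
  have he1 := one_le_l2_ed Q hP.1 hlL
  set a : ℝ := Ξ.im / l2 l with ha
  set b : ℝ := (zh Ξ).im with hb
  have hb1 : |b| ≤ 2 * P.Λ ^ 20 := (Complex.abs_im_le_norm _).trans hz
  have ha1 : |a| ≤ 3 * P.Λ ^ 7 := by
    rw [ha, abs_div, abs_of_pos (by linarith : 0 < l2 l), div_le_iff₀ (by linarith)]
    have := hΞ.2.le
    unfold Sc.T1 at this
    exact this
  have h1 : dr (im (Q.kap l Ξ (zh Ξ))) (im (Q.kap l Ξ (zh Ξ))) ≤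
      2 * a ^ 2 * l2 l + 2 * b ^ 2 * l2 (Q.ed l) := by
    have e1 : l2 l = ∑ j, ((l j : ℤ) : ℝ) * ((l j : ℤ) : ℝ) := by
      unfold l2 di
      push_cast
      rfl
    have e2 : l2 (Q.ed l) = ∑ j, ((Q.ed l j : ℤ) : ℝ) * ((Q.ed l j : ℤ) : ℝ) := by
      unfold l2 di
      push_cast
      rfl
    rw [e1, e2, Finset.mul_sum, Finset.mul_sum, ← Finset.sum_add_distrib]
    unfold dr
    refine Finset.sum_le_sum fun j _ => ?_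
    rw [im_kap]
    nlinarith [sq_nonneg (a * (l j : ℝ) - b * (Q.ed l j : ℝ))]
  refine h1.trans ?_
  have h2 : a ^ 2 ≤ 9 * P.Λ ^ 14 := by
    have := sq_le_sq' (by linarith [neg_abs_le a]) (le_trans (le_abs_self a) ha1)
    calc a ^ 2 ≤ (3 * P.Λ ^ 7) ^ 2 := this
      _ = 9 * P.Λ ^ 14 := by ring
  have h3 : b ^ 2 ≤ 4 * P.Λ ^ 40 := by
    have := sq_le_sq' (by linarith [neg_abs_le b]) (le_trans (le_abs_self b) hb1)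
    calc b ^ 2 ≤ (2 * P.Λ ^ 20) ^ 2 := this
      _ = 4 * P.Λ ^ 40 := by ring
  have h4 : P.R ^ 2 = P.Λ ^ 52 := by unfold Sc.R; ring
  rw [h4]
  have hΛ1 := P.x_one
  have hp : ∀ i j : ℕ, i ≤ j → P.Λ ^ i ≤ P.Λ ^ j := fun i j h => pow_le_pow_right₀ hΛ1 h
  have h5 : 2 * a ^ 2 * l2 l ≤ P.Λ ^ 15 := by
    have e1 : 2 * a ^ 2 * l2 l ≤ 2 * (9 * P.Λ ^ 14) * (P.Λ / 100) := by
      apply mul_le_mul (by linarith) (by linarith) (by linarith) (by positivity)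
    have e2 : 2 * (9 * P.Λ ^ 14) * (P.Λ / 100) = 18 / 100 * P.Λ ^ 15 := by ring
    have e3 : 0 ≤ P.Λ ^ 15 := pow_nonneg (by linarith) _
    linarith
  have h6 : 2 * b ^ 2 * l2 (Q.ed l) ≤ 8 * P.Λ ^ 41 := by
    have e1 : 2 * b ^ 2 * l2 (Q.ed l) ≤ 2 * (4 * P.Λ ^ 40) * P.Λ := by
      apply mul_le_mul (by linarith) he2 (by linarith) (by positivity)
    have e2 : 2 * (4 * P.Λ ^ 40) * P.Λ = 8 * P.Λ ^ 41 := by ring
    linarith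
  have h7 := hp 15 51 (by norm_num)
  have h8 := hp 41 51 (by norm_num)
  have h9 : P.Λ ^ 52 = P.Λ * P.Λ ^ 51 := by ring
  have h10 : 0 ≤ P.Λ ^ 51 := pow_nonneg (by linarith) _
  nlinarith


/-! ### combinatorics of the blocks -/

/-- fast and resonant at `Ξ` -/
def NmF (Q : Dirs P) (l : Zd d) (zh : ℂ → ℂ) (Ξ : ℂ) (n : Zd d) : Prop :=
  Fast Q l n ∧ ‖ph Q l zh n Ξ‖ < 3 / 2 * P.c

/-- in the string of a fast resonant site -/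
def NmC (Q : Dirs P) (l : Zd d) (zh : ℂ → ℂ) (C : Prop) (Ξ : ℂ) (m : Zd d) : Prop :=
  C ∧ ∃ n, NmF Q l zh Ξ n ∧ ∃ j : ℤ, m = n + j • l

/-- the set of sites treated exactly -/
def NmS (Q : Dirs P) (l : Zd d) (zh : ℂ → ℂ) (C : Prop) (Ξ Ξ₀ : ℂ) (m : Zd d) : Prop :=
  ‖ph Q l zh m Ξ‖ < 3 / 2 * P.c ∨ (C ∧ ∃ n, NmF Q l zh Ξ n ∧ m ∈ Kf Q l zh Ξ₀ n)

open scoped Classical in
/-- the label of a site -/
def nmLab (Q : Dirs P) (l : Zd d) (zh : ℂ → ℂ) (C : Prop) (Ξ Ξ₀ : ℂ) (m : Zd d) : Finset (Zd d) :=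
  if NmC Q l zh C Ξ m then Kf Q l zh Ξ₀ m else {m}

/-- the standing assumptions -/
structure NmX (P : Sc d μ w) (Q : Dirs P) (l : Zd d) (zh : ℂ → ℂ) (C : Prop) (Ξ Ξ₀ : ℂ) :
    Prop where
  hS : Sheet P Q l zh
  hP : Prim l
  hlL : ‖l‖ ≤ P.L
  hΞ : Ξ ∈ Q.Om l
  h1 : C → ‖Ξ - Ξ₀‖ ≤ wr Q l
  h0 : C → Metric.closedBall Ξ₀ (20 * wr Q l) ⊆ Q.Om l

private lemma nm_kp (P : Sc d μ w) : 10 ^ 6 * P.c ≤ kp P := by
  have h := P.x_c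
  unfold kp
  nlinarith

private lemma nm_str {n m m' : Zd d} {j i : ℤ} (h : m = n + j • l) (h' : m' = n + i • l) :
    m' = m + (i - j) • l := by
  rw [h, h', sub_smul]
  abel

section

variable {C : Prop} {Ξ Ξ₀ : ℂ}

private lemma nm_20 (h : NmX P Q l zh C Ξ Ξ₀) (hC : C) : ‖Ξ - Ξ₀‖ ≤ 20 * wr Q l := by
  have h1 := h.h1 hC
  have h2 := wr_pos (Q := Q) h.hP h.hlL
  linarith

private lemma nm_O0 (h : NmX P Q l zh C Ξ Ξ₀) (hC : C) : Ξ₀ ∈ Q.Om l := by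
  have h2 := wr_pos (Q := Q) h.hP h.hlL
  exact h.h0 hC (Metric.mem_closedBall_self (by linarith))

private lemma nm_win (h : NmX P Q l zh C Ξ Ξ₀) (hC : C) {n : Zd d} (hn : NmF Q l zh Ξ n) :
    ‖ph Q l zh n Ξ₀‖ < kp P := by
  have hc := P.x_c
  exact win_mem h.hS h.hP h.hlL (h.h0 hC) (h.h1 hC) hn.1 (by linarith [hn.2])

theorem nm_size (h : NmX P Q l zh C Ξ Ξ₀) {m : Zd d} (hm : NmS Q l zh C Ξ Ξ₀ m) :
    ‖ph Q l zh m Ξ‖ ≤ 3 / 2 * kp P := by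
  have hc := P.x_c
  have hk := nm_kp P
  rcases hm with hm | ⟨hC, n, hn, hm⟩
  · linarith
  · exact win_near h.hS h.hP h.hlL (h.h0 hC) (nm_20 h hC) hn.1 (nm_win h hC hn) hm

theorem nm_size4 (h : NmX P Q l zh C Ξ Ξ₀) {m : Zd d} (hm : NmS Q l zh C Ξ Ξ₀ m) :
    ‖ph Q l zh m Ξ‖ ≤ P.Λ ^ 4 := by
  have h1 := nm_size h hm
  have h2 := kp_le P
  have h3 := nm_kp P
  have h4 := P.x_c
  linarith

theorem nm_own (h : NmX P Q l zh C Ξ Ξ₀) {m : Zd d} (hm : NmS Q l zh C Ξ Ξ₀ m)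
    (hmC : NmC Q l zh C Ξ m) : m ∈ Kf Q l zh Ξ₀ m := by
  have hc := P.x_c
  obtain ⟨hC, n, hn, j, rfl⟩ := hmC
  rcases hm with hm | ⟨-, n', hn', hm⟩
  · rw [Kf_eq ⟨j, rfl⟩]
    exact win_all h.hS h.hP h.hlL (h.h0 hC) (h.h1 hC) hn.1 (by linarith [hn.2]) (by linarith)
  · have h1 := (mem_Kf h.hS h.hP h.hlL (nm_O0 h hC)).1 hm
    rw [Kf_eq h1.1]
    exact hm

theorem nm_mem (h : NmX P Q l zh C Ξ Ξ₀) {n m : Zd d} (hn : NmC Q l zh C Ξ n)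
    (hm : m ∈ Kf Q l zh Ξ₀ n) :
    NmS Q l zh C Ξ Ξ₀ m ∧ NmC Q l zh C Ξ m ∧ Kf Q l zh Ξ₀ m = Kf Q l zh Ξ₀ n := by
  obtain ⟨hC, n', hn', j, hj⟩ := hn
  have hK : Kf Q l zh Ξ₀ n = Kf Q l zh Ξ₀ n' := Kf_eq ⟨j, hj⟩
  rw [hK] at hm ⊢
  have h1 := (mem_Kf h.hS h.hP h.hlL (nm_O0 h hC)).1 hm
  exact ⟨Or.inr ⟨hC, n', hn', hm⟩, ⟨hC, n', hn', h1.1⟩, Kf_eq h1.1⟩

theorem nm_single (h : NmX P Q l zh C Ξ Ξ₀) {m : Zd d} (hm : NmS Q l zh C Ξ Ξ₀ m)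
    (hmC : ¬ NmC Q l zh C Ξ m) : ‖ph Q l zh m Ξ‖ < 3 / 2 * P.c ∧ ¬ (Fast Q l m ∧ C) := by
  rcases hm with hm | ⟨hC, n, hn, hm⟩
  · refine ⟨hm, fun hf => hmC ⟨hf.2, m, ⟨hf.1, hm⟩, 0, by simp⟩⟩
  · exfalso
    have h1 := (mem_Kf h.hS h.hP h.hlL (nm_O0 h hC)).1 hm
    exact hmC ⟨hC, n, hn, h1.1⟩

theorem nm_lab_ne (h : NmX P Q l zh C Ξ Ξ₀) {m m' : Zd d} (hm : NmS Q l zh C Ξ Ξ₀ m)
    (hmC : NmC Q l zh C Ξ m) (hmC' : ¬ NmC Q l zh C Ξ m') :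
    nmLab Q l zh C Ξ Ξ₀ m ≠ nmLab Q l zh C Ξ Ξ₀ m' := by
  unfold nmLab
  rw [if_pos hmC, if_neg hmC']
  intro he
  have h1 := nm_own h hm hmC
  rw [he, Finset.mem_singleton] at h1
  rw [h1] at hmC
  exact hmC' hmC

/-- the site `0` is not fast and its string contains no fast resonant sites -/
theorem nm_zero (h : NmX P Q l zh C Ξ Ξ₀) : ¬ Fast Q l (0 : Zd d) ∧ ¬ NmC Q l zh C Ξ 0 := by
  have hc := P.x_c
  have hX := X0_ge Q h.hP.1 h.hlL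
  have hΛ := P.x_pos
  have hX0 : 0 < |Q.X0 l| := lt_of_lt_of_le (by positivity) hX
  have hl := one_le_l2 h.hP.1
  have hkp := nm_kp P
  have hk4 := kp_le P
  constructor
  · unfold Fast
    have : di (0 : Zd d) l = 0 := by simp [di]
    rw [this, Int.cast_zero, zero_add]
    linarith
  · rintro ⟨hC, n, hn, j, hj⟩
    have h0 := h.hS.q0 Ξ h.hΞ
    have hw0 := P.x_w 0
    have h1 : (P.Λ ^ 2)⁻¹ ≤ 1 := inv_le_one_of_one_le₀ (one_le_pow₀ P.x_one)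
    have h2 : ‖ph Q l zh 0 Ξ‖ ≤ 1 + P.c / 4 := by
      have e : ph Q l zh 0 Ξ = (q μ (Q.kap l Ξ (zh Ξ)) 0 + w 0) - w 0 := by
        unfold ph; ring
      rw [e]
      exact (norm_sub_le _ _).trans (by linarith)
    have h3 := K_lam h.hS h.hP h.hlL h.hΞ hn.1 (by linarith [hn.2]) (j := j) (i := 0)
      (by rw [← hj]; linarith) (by simp)
    rw [add_zero, ← hj] at h3
    have h4 : Q.lam l (0 : Zd d) = 0 := by
      simp [Dirs.lam, di]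
    rw [h4, zero_add, Complex.norm_real, Real.norm_eq_abs, abs_div, abs_mul,
      abs_of_pos (by linarith : 0 < l2 l)] at h3
    have h5 : 0 < |Q.X0 l| / l2 l := div_pos hX0 (by linarith)
    have h6 : |(2 : ℝ)| * |Q.X0 l| / l2 l = 2 * (|Q.X0 l| / l2 l) := by
      rw [abs_of_pos (by norm_num : (0 : ℝ) < 2)]; ring
    rw [h6] at h3
    linarith

/-- cleanness of the singles -/
def NmK (Q : Dirs P) (l : Zd d) (zh : ℂ → ℂ) (C : Prop) (Ξ Ξ₀ : ℂ) : Prop :=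
  ∀ n : Zd d, NmS Q l zh C Ξ Ξ₀ n → ¬ NmC Q l zh C Ξ n → ¬ Fast Q l n ∨ P.T1 ≤ |Ξ.im|

theorem nm_clean (h : NmX P Q l zh C Ξ Ξ₀) (hK : NmK Q l zh C Ξ Ξ₀) {n l' : Zd d}
    (hn : NmS Q l zh C Ξ Ξ₀ n) (hnC : ¬ NmC Q l zh C Ξ n) (hl' : l' ≠ 0) (hl'L : ‖l'‖ ≤ P.L) :
    P.Λ ^ 6 ≤ ‖ph Q l zh (n + l') Ξ‖ := by
  refine ph_clean h.hS h.hP h.hlL h.hΞ ?_ (nm_size4 h hn) hl' hl'L
  rcases hK n hn hnC with h1 | h1
  · left
    unfold Fast at h1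
    exact not_lt.1 h1
  · exact Or.inr h1

private lemma nm_sep_aux (h : NmX P Q l zh C Ξ Ξ₀) (hK : NmK Q l zh C Ξ Ξ₀) {m m' : Zd d}
    (hm : NmS Q l zh C Ξ Ξ₀ m) (hm' : NmS Q l zh C Ξ Ξ₀ m') (hne : m ≠ m')
    (hmC : ¬ NmC Q l zh C Ξ m) : (P.L : ℝ) < ‖m' - m‖ := by
  by_contra hcon
  have h1 := nm_clean h hK hm hmC (l' := m' - m) (sub_ne_zero.2 hne.symm) (not_lt.1 hcon)
  rw [add_sub_cancel] at h1
  have h2 := nm_size4 h hm'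
  have h4 := P.hΛ
  have h3 : P.Λ ^ 4 < P.Λ ^ 6 := pow_lt_pow_right₀ (by linarith) (by norm_num)
  linarith

/-- different labels: the sites are far from each other -/
theorem nm_sep (h : NmX P Q l zh C Ξ Ξ₀) (hK : NmK Q l zh C Ξ Ξ₀) {m m' : Zd d}
    (hm : NmS Q l zh C Ξ Ξ₀ m) (hm' : NmS Q l zh C Ξ Ξ₀ m')
    (hne : nmLab Q l zh C Ξ Ξ₀ m ≠ nmLab Q l zh C Ξ Ξ₀ m') : (P.L : ℝ) < ‖m' - m‖ := by
  have hne' : m ≠ m' := fun he => hne (by rw [he])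
  by_cases hmC : NmC Q l zh C Ξ m
  · by_cases hmC' : NmC Q l zh C Ξ m'
    · by_contra hcon
      have h1 := far_strings h.hS h.hP h.hlL h.hΞ (nm_size4 h hm) (nm_size4 h hm')
        (not_lt.1 hcon)
      apply hne
      unfold nmLab
      rw [if_pos hmC, if_pos hmC', Kf_eq (Ξ := Ξ₀) h1]
    · rw [norm_sub_rev]
      exact nm_sep_aux h hK hm' hm hne'.symm hmC'
  · exact nm_sep_aux h hK hm hm' hne' hmC

/-- the blocks -/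
theorem nm_block (h : NmX P Q l zh C Ξ Ξ₀) {S : Finset (Zd d)}
    (hSm : ∀ m, m ∈ S ↔ NmS Q l zh C Ξ Ξ₀ m) {n : Zd d} (hn : n ∈ S) :
    (S.filter fun m => nmLab Q l zh C Ξ Ξ₀ m = nmLab Q l zh C Ξ Ξ₀ n) =
      nmLab Q l zh C Ξ Ξ₀ n := by
  ext m
  rw [Finset.mem_filter]
  constructor
  · rintro ⟨hm, he⟩
    rw [← he]
    unfold nmLab
    split_ifs with hmC
    · exact nm_own h ((hSm m).1 hm) hmC
    · exact Finset.mem_singleton_self _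
  · intro hm
    by_cases hnC : NmC Q l zh C Ξ n
    · have e1 : nmLab Q l zh C Ξ Ξ₀ n = Kf Q l zh Ξ₀ n := if_pos hnC
      rw [e1] at hm ⊢
      obtain ⟨h1, h2, h3⟩ := nm_mem h hnC hm
      refine ⟨(hSm m).2 h1, ?_⟩
      unfold nmLab
      rw [if_pos h2, h3]
    · have e1 : nmLab Q l zh C Ξ Ξ₀ n = {n} := if_neg hnC
      rw [e1, Finset.mem_singleton] at hm
      subst hm
      exact ⟨hn, rfl⟩

/-- finiteness and number of sites -/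
theorem nm_card (h : NmX P Q l zh C Ξ Ξ₀) :
    ∃ S : Finset (Zd d), (∀ m, m ∈ S ↔ NmS Q l zh C Ξ Ξ₀ m) ∧ (S.card : ℝ) ≤ P.Λ ^ (24 * d) := by
  classical
  set I : Fin d → Finset ℤ := fun _ => Finset.Icc (-⌊P.Λ ^ 23⌋) ⌊P.Λ ^ 23⌋ with hI
  set B : Finset (Zd d) := Fintype.piFinset I with hB
  refine ⟨B.filter fun m => NmS Q l zh C Ξ Ξ₀ m, fun m => ?_, ?_⟩
  · rw [Finset.mem_filter]
    refine ⟨fun h => h.2, fun hm => ⟨?_, hm⟩⟩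
    rw [hB, Fintype.mem_piFinset]
    intro j
    have h1 := ph_box h.hS h.hP h.hlL h.hΞ (nm_size4 h hm)
    have h2 := (norm_le_pi_norm m j).trans h1
    rw [Int.norm_eq_abs, abs_le] at h2
    rw [hI, Finset.mem_Icc]
    constructor
    · have h3 : -m j ≤ ⌊P.Λ ^ 23⌋ := Int.le_floor.2 (by push_cast; linarith [h2.1])
      linarith
    · exact Int.le_floor.2 h2.2
  · have h1 : ((B.filter fun m => NmS Q l zh C Ξ Ξ₀ m).card : ℝ) ≤ (B.card : ℝ) := by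
      exact_mod_cast Finset.card_filter_le _ _
    refine h1.trans ?_
    rw [hB, Fintype.card_piFinset]
    push_cast
    have hΛ := P.hΛ
    have h23 : 1 ≤ P.Λ ^ 23 := one_le_pow₀ P.x_one
    have h2 : ∀ j, ((I j).card : ℝ) ≤ P.Λ ^ 24 := by
      intro j
      rw [hI]
      simp only [Int.card_Icc]
      have h3 : (⌊P.Λ ^ 23⌋ : ℝ) ≤ P.Λ ^ 23 := Int.floor_le _
      have h4 : 0 ≤ ⌊P.Λ ^ 23⌋ := Int.floor_nonneg.2 (by linarith)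
      have h5 : (((⌊P.Λ ^ 23⌋ + 1 - -⌊P.Λ ^ 23⌋).toNat : ℤ) : ℝ) ≤ 2 * P.Λ ^ 23 + 1 := by
        rw [Int.toNat_of_nonneg (by linarith)]
        push_cast
        linarith
      have h6 : 2 * P.Λ ^ 23 + 1 ≤ P.Λ ^ 24 := by
        have : P.Λ ^ 24 = P.Λ * P.Λ ^ 23 := by ring
        rw [this]
        nlinarith
      refine le_trans ?_ (h5.trans h6)
      exact_mod_cast le_rfl
    calc ∏ j, ((I j).card : ℝ) ≤ ∏ _j : Fin d, P.Λ ^ 24 :=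
          Finset.prod_le_prod (fun _ _ => by positivity) fun j _ => h2 j
      _ = P.Λ ^ (24 * d) := by simp [pow_mul]

end


/-! ### the perturbed point -/

section

variable {C : Prop} {Ξ Ξ₀ : ℂ}

/-- the point `κ + z ed` -/
def nmk (Q : Dirs P) (l : Zd d) (zh : ℂ → ℂ) (Ξ z : ℂ) : Cd d :=
  Q.kap l Ξ (zh Ξ) + z • zc (Q.ed l)

private lemma nm_ed (Q : Dirs P) (hlL : ‖l‖ ≤ P.L) : ‖zc (Q.ed l)‖ ≤ P.Λ := by
  rw [norm_zc]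
  have h1 := norm_sq_le_l2 (Q.ed l)
  have h2 := l2_ed_le Q hlL
  have h3 := P.x_one
  have h4 := norm_nonneg (Q.ed l)
  nlinarith

theorem nm_dist (Q : Dirs P) (hlL : ‖l‖ ≤ P.L) (Ξ z : ℂ) :
    ‖nmk Q l zh Ξ z - Q.kap l Ξ (zh Ξ)‖ ≤ P.Λ * ‖z‖ := by
  unfold nmk
  rw [add_sub_cancel_left, norm_smul, mul_comm]
  exact mul_le_mul_of_nonneg_right (nm_ed Q hlL) (norm_nonneg _)

private lemma nm_z1 (P : Sc d μ w) {z : ℂ} (hz : ‖z‖ ≤ (P.Λ ^ 60)⁻¹) : P.Λ * ‖z‖ ≤ 1 := by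
  have h1 := P.x_one
  have h2 : (0 : ℝ) < P.Λ ^ 60 := pow_pos P.x_pos _
  have h3 : P.Λ * ‖z‖ ≤ P.Λ * (P.Λ ^ 60)⁻¹ := mul_le_mul_of_nonneg_left hz P.x_pos.le
  refine h3.trans ?_
  rw [mul_inv_le_iff₀ h2, one_mul]
  calc P.Λ = P.Λ ^ 1 := (pow_one _).symm
    _ ≤ P.Λ ^ 60 := pow_le_pow_right₀ h1 (by norm_num)

theorem nm_close (h : NmX P Q l zh C Ξ Ξ₀) {z : ℂ} (hz : ‖z‖ ≤ (P.Λ ^ 60)⁻¹) (n : Zd d) :
    ‖q μ (nmk Q l zh Ξ z) n - ph Q l zh n Ξ‖ ≤ P.Λ ^ 55 * ‖z‖ * (1 + ‖ph Q l zh n Ξ‖) := by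
  have h1 := q_close P (im_sheet h.hS h.hP h.hlL h.hΞ) (t := P.Λ * ‖z‖) (nm_z1 P hz)
    (nm_dist Q h.hlL Ξ z) n
  have e : P.Λ ^ 54 * (P.Λ * ‖z‖) = P.Λ ^ 55 * ‖z‖ := by ring
  rw [e] at h1
  exact h1

theorem nm_close5 (h : NmX P Q l zh C Ξ Ξ₀) {z : ℂ} (hz : ‖z‖ ≤ (P.Λ ^ 60)⁻¹) (n : Zd d) :
    ‖q μ (nmk Q l zh Ξ z) n - ph Q l zh n Ξ‖ ≤ (P.Λ ^ 5)⁻¹ * (1 + ‖ph Q l zh n Ξ‖) := by
  refine (nm_close h hz n).trans (mul_le_mul_of_nonneg_right ?_ (by positivity))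
  have hp := P.x_pos
  calc P.Λ ^ 55 * ‖z‖ ≤ P.Λ ^ 55 * (P.Λ ^ 60)⁻¹ := mul_le_mul_of_nonneg_left hz (by positivity)
    _ = (P.Λ ^ 5)⁻¹ := by
      field_simp

private lemma nm_inv (P : Sc d μ w) : P.Λ ^ 4 * (P.Λ ^ 5)⁻¹ ≤ 1 / 1000 ∧
    (P.Λ ^ 5)⁻¹ ≤ 1 / 1000 := by
  have hp := P.x_pos
  have h1 : P.Λ ^ 4 * (P.Λ ^ 5)⁻¹ = P.Λ⁻¹ := by field_simp
  have h2 : P.Λ⁻¹ ≤ (10 ^ 7)⁻¹ := inv_anti₀ (by norm_num) P.hΛ
  have h3 : (P.Λ ^ 5)⁻¹ ≤ P.Λ⁻¹ := by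
    apply inv_anti₀ hp
    calc P.Λ = P.Λ ^ 1 := (pow_one _).symm
      _ ≤ P.Λ ^ 5 := pow_le_pow_right₀ P.x_one (by norm_num)
  norm_num at h2
  rw [h1]
  constructor <;> linarith

theorem nm_close1 (h : NmX P Q l zh C Ξ Ξ₀) {z : ℂ} (hz : ‖z‖ ≤ (P.Λ ^ 60)⁻¹) {n : Zd d}
    (hn : ‖ph Q l zh n Ξ‖ ≤ P.Λ ^ 4) :
    ‖q μ (nmk Q l zh Ξ z) n - ph Q l zh n Ξ‖ ≤ 1 / 100 := by
  refine (nm_close5 h hz n).trans ?_
  have h1 := nm_inv P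
  have h2 : 0 ≤ (P.Λ ^ 5)⁻¹ := inv_nonneg.2 (pow_nonneg P.x_pos.le _)
  nlinarith

theorem nm_ge (h : NmX P Q l zh C Ξ Ξ₀) {z : ℂ} (hz : ‖z‖ ≤ (P.Λ ^ 60)⁻¹) (n : Zd d) :
    99 / 100 * ‖ph Q l zh n Ξ‖ - 1 / 100 ≤ ‖q μ (nmk Q l zh Ξ z) n‖ := by
  have h1 := nm_close5 h hz n
  have h2 := nm_inv P
  have h3 := norm_sub_norm_le (ph Q l zh n Ξ) (q μ (nmk Q l zh Ξ z) n)
  rw [norm_sub_rev] at h3
  have h4 := norm_nonneg (ph Q l zh n Ξ)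
  nlinarith

private lemma nm_cn (P : Sc d μ w) : ‖(P.c : ℂ)‖ = P.c := by
  have := P.x_c
  rw [Complex.norm_real, Real.norm_eq_abs, abs_of_nonneg (by linarith)]

theorem nm_adm (h : NmX P Q l zh C Ξ Ξ₀) {S : Finset (Zd d)}
    (hSm : ∀ m, m ∈ S ↔ NmS Q l zh C Ξ Ξ₀ m) {z : ℂ} (hz : ‖z‖ ≤ (P.Λ ^ 60)⁻¹) :
    Adm w P.c (DS P.c μ S (nmk Q l zh Ξ z)) := by
  have hc := P.x_c
  refine ⟨P.hw, P.hc, fun m => ?_⟩
  unfold DS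
  split_ifs with h1
  · exact (nm_cn P).ge
  · have h2 : 3 / 2 * P.c ≤ ‖ph Q l zh m Ξ‖ := by
      by_contra hcon
      exact h1 ((hSm m).2 (Or.inl (not_le.1 hcon)))
    have h3 := nm_ge h hz m
    linarith

theorem nm_far (h : NmX P Q l zh C Ξ Ξ₀) (hC : C) {n : Zd d} (hn : NmF Q l zh Ξ n) {z : ℂ}
    (hz : ‖z‖ ≤ (P.Λ ^ 60)⁻¹) {m : Zd d} (hm : m ∉ Kf Q l zh Ξ₀ n)
    (hm' : ∃ n' ∈ Kf Q l zh Ξ₀ n, ‖m - n'‖ ≤ P.L) : P.c < ‖q μ (nmk Q l zh Ξ z) m‖ := by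
  have hc := P.x_c
  have hk := nm_kp P
  have h1 := win_far h.hS h.hP h.hlL (h.h0 hC) (nm_20 h hC) hn.1 (nm_win h hC hn) hm hm'
  have h3 := nm_ge h hz m
  linarith

theorem nm_admK (h : NmX P Q l zh C Ξ Ξ₀) (hC : C) {n : Zd d} (hn : NmF Q l zh Ξ n) {z : ℂ}
    (hz : ‖z‖ ≤ (P.Λ ^ 60)⁻¹) :
    Adm w P.c (DB P.c μ P.L (Kf Q l zh Ξ₀ n) (nmk Q l zh Ξ z)) := by
  refine ⟨P.hw, P.hc, fun m => ?_⟩
  unfold DB
  split_ifs with h1 h2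
  · exact (nm_cn P).ge
  · exact (nm_far h hC hn hz h1 h2).le
  · exact (nm_cn P).ge

theorem nm_b (h : NmX P Q l zh C Ξ Ξ₀) {z : ℂ} (hz : ‖z‖ ≤ (P.Λ ^ 60)⁻¹) {m : Zd d}
    (hm : NmS Q l zh C Ξ Ξ₀ m) : ‖q μ (nmk Q l zh Ξ z) m - P.c‖ ≤ 2 * kp P := by
  have hc := P.x_c
  have hk := nm_kp P
  have h1 := nm_size h hm
  have h2 := nm_close1 h hz (nm_size4 h hm)
  have h3 := norm_sub_norm_le (q μ (nmk Q l zh Ξ z) m) (ph Q l zh m Ξ)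
  have h4 := norm_sub_le (q μ (nmk Q l zh Ξ z) m) (P.c : ℂ)
  rw [nm_cn P] at h4
  linarith

private lemma nm_small (P : Sc d μ w) {cc : ℝ} (hcc : P.c ≤ cc) :
    1 + 2 * (2 * kp P) / P.c ≤ 10 ^ 9 * cc ∧ 1 ≤ 1 + 2 * (2 * kp P) / P.c := by
  have hc := P.x_c
  have hk := nm_kp P
  have : kp P = 10 ^ 8 * P.c ^ 2 := rfl
  have h5 : 2 * (2 * kp P) / P.c = 4 * 10 ^ 8 * P.c := by
    rw [this]
    field_simp
    ring
  rw [h5]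
  constructor <;> linarith

/-- the effective function at a perturbed site -/
theorem nm_E (h : NmX P Q l zh C Ξ Ξ₀) (hK : NmK Q l zh C Ξ Ξ₀) {n : Zd d}
    (hn : NmS Q l zh C Ξ Ξ₀ n) (hnC : ¬ NmC Q l zh C Ξ n) {z : ℂ} (hz : ‖z‖ ≤ (P.Λ ^ 60)⁻¹) :
    ‖Ehat P (nmk Q l zh Ξ z + zc n) - Ehat P (Q.kap l Ξ (zh Ξ) + zc n) -
      (q μ (nmk Q l zh Ξ z) n - q μ (Q.kap l Ξ (zh Ξ)) n)‖ ≤
      (P.Λ ^ 6)⁻¹ * ‖q μ (nmk Q l zh Ξ z) n - q μ (Q.kap l Ξ (zh Ξ)) n‖ + ‖z‖ := by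
  have hΛ := P.hΛ
  have hΛ0 := P.x_pos
  have hG : P.G = P.Λ ^ 5 := rfl
  have hcl : Cl P (3 / 4 * P.G) (q μ (Q.kap l Ξ (zh Ξ)) n) (Q.kap l Ξ (zh Ξ) + zc n) := by
    intro m hm hmL
    rw [← lmx_q_add]
    have h1 := nm_clean h hK hn hnC hm hmL
    unfold ph at h1
    refine le_trans ?_ h1
    rw [hG]
    have h2 : P.Λ ^ 5 ≤ P.Λ ^ 6 := pow_le_pow_right₀ P.x_one (by norm_num)
    have h3 : 0 ≤ P.Λ ^ 5 := by positivity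
    linarith
  have hq : ‖q μ (nmk Q l zh Ξ z) n - q μ (Q.kap l Ξ (zh Ξ)) n‖ ≤ P.G / 32 := by
    have h1 := nm_close1 h hz (nm_size4 h hn)
    unfold ph at h1
    refine h1.trans ?_
    rw [hG]
    have h2 : P.Λ ≤ P.Λ ^ 5 := by
      calc P.Λ = P.Λ ^ 1 := (pow_one _).symm
        _ ≤ P.Λ ^ 5 := pow_le_pow_right₀ P.x_one (by norm_num)
    linarith
  have hd : ‖(nmk Q l zh Ξ z + zc n) - (Q.kap l Ξ (zh Ξ) + zc n)‖ ≤ P.Λ * ‖z‖ := by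
    rw [add_sub_add_right_eq_sub]
    exact nm_dist Q h.hlL Ξ z
  have h1 := Hh_lip P hcl hq (hd.trans (nm_z1 P hz))
  unfold Ehat
  rw [lmx_q_zero, lmx_q_zero]
  have e : q μ (nmk Q l zh Ξ z) n + w 0 + Hh P (q μ (nmk Q l zh Ξ z) n) (nmk Q l zh Ξ z + zc n) -
      (q μ (Q.kap l Ξ (zh Ξ)) n + w 0 +
        Hh P (q μ (Q.kap l Ξ (zh Ξ)) n) (Q.kap l Ξ (zh Ξ) + zc n)) -
      (q μ (nmk Q l zh Ξ z) n - q μ (Q.kap l Ξ (zh Ξ)) n) =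
      Hh P (q μ (nmk Q l zh Ξ z) n) (nmk Q l zh Ξ z + zc n) -
        Hh P (q μ (Q.kap l Ξ (zh Ξ)) n) (Q.kap l Ξ (zh Ξ) + zc n) := by ring
  rw [e]
  refine h1.trans (add_le_add le_rfl ?_)
  calc (P.Λ ^ 2)⁻¹ * ‖(nmk Q l zh Ξ z + zc n) - (Q.kap l Ξ (zh Ξ) + zc n)‖
      ≤ (P.Λ ^ 2)⁻¹ * (P.Λ * ‖z‖) := mul_le_mul_of_nonneg_left hd (by positivity)
    _ = P.Λ⁻¹ * ‖z‖ := by field_simp
    _ ≤ 1 * ‖z‖ := mul_le_mul_of_nonneg_right (inv_le_one_of_one_le₀ P.x_one) (norm_nonneg _)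
    _ = ‖z‖ := one_mul _

theorem nm_E1 (h : NmX P Q l zh C Ξ Ξ₀) (hK : NmK Q l zh C Ξ Ξ₀) {n : Zd d}
    (hn : NmS Q l zh C Ξ Ξ₀ n) (hnC : ¬ NmC Q l zh C Ξ n) {z : ℂ} (hz : ‖z‖ ≤ (P.Λ ^ 60)⁻¹) :
    ‖Ehat P (Q.kap l Ξ (zh Ξ) + zc n)‖ - P.Λ ^ 60 * ‖z‖ ≤ ‖Ehat P (nmk Q l zh Ξ z + zc n)‖ := by
  have h1 := nm_E h hK hn hnC hz
  have h2 : ‖q μ (nmk Q l zh Ξ z) n - q μ (Q.kap l Ξ (zh Ξ)) n‖ ≤
      P.Λ ^ 55 * ‖z‖ * (1 + ‖ph Q l zh n Ξ‖) := nm_close h hz n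
  have h3 := (nm_single h hn hnC).1
  have hc := P.hcΛ
  have hΛ := P.hΛ
  set D := q μ (nmk Q l zh Ξ z) n - q μ (Q.kap l Ξ (zh Ξ)) n with hD
  set E1 := Ehat P (nmk Q l zh Ξ z + zc n) with hE1
  set E0 := Ehat P (Q.kap l Ξ (zh Ξ) + zc n) with hE0
  have hz0 : 0 ≤ ‖z‖ := norm_nonneg _
  have hΛ0 := P.x_pos
  have h4 : ‖D‖ ≤ 3 * P.Λ ^ 56 * ‖z‖ := by
    calc ‖D‖ ≤ P.Λ ^ 55 * ‖z‖ * (1 + ‖ph Q l zh n Ξ‖) := h2
      _ ≤ P.Λ ^ 55 * ‖z‖ * (3 * P.Λ) :=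
          mul_le_mul_of_nonneg_left (by linarith) (mul_nonneg (pow_nonneg hΛ0.le _) hz0)
      _ = 3 * P.Λ ^ 56 * ‖z‖ := by ring
  have h5 : (P.Λ ^ 6)⁻¹ * ‖D‖ ≤ ‖D‖ := by
    have : (P.Λ ^ 6)⁻¹ ≤ 1 := inv_le_one_of_one_le₀ (one_le_pow₀ P.x_one)
    nlinarith [norm_nonneg D]
  have h6 : ‖E0‖ ≤ ‖E1‖ + ‖E1 - E0 - D‖ + ‖D‖ := by
    have e : E0 = E1 - (E1 - E0 - D) - D := by ring
    calc ‖E0‖ = ‖E1 - (E1 - E0 - D) - D‖ := congrArg norm e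
      _ ≤ ‖E1 - (E1 - E0 - D)‖ + ‖D‖ := norm_sub_le _ _
      _ ≤ ‖E1‖ + ‖E1 - E0 - D‖ + ‖D‖ := by
          have := norm_sub_le E1 (E1 - E0 - D)
          linarith
  have h7 : 6 * P.Λ ^ 56 * ‖z‖ + ‖z‖ ≤ P.Λ ^ 60 * ‖z‖ := by
    have h8 : 6 * P.Λ ^ 56 + 1 ≤ P.Λ ^ 60 := by
      have e : P.Λ ^ 60 = P.Λ ^ 4 * P.Λ ^ 56 := by ring
      have e1 : 1 ≤ P.Λ ^ 56 := one_le_pow₀ P.x_one
      have e2 : 7 ≤ P.Λ ^ 4 := by
        calc (7 : ℝ) ≤ P.Λ := by linarith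
          _ = P.Λ ^ 1 := (pow_one _).symm
          _ ≤ P.Λ ^ 4 := pow_le_pow_right₀ P.x_one (by norm_num)
      rw [e]
      nlinarith
    nlinarith
  linarith

private lemma nm_bilzz (n m : Zd d) : bil (zc n) (zc m) = ((di n m : ℤ) : ℂ) := by
  unfold bil zc di
  push_cast
  rfl

theorem nm_q0 (h : NmX P Q l zh C Ξ Ξ₀) {z : ℂ} (hz : ‖z‖ ≤ (P.Λ ^ 60)⁻¹) :
    P.Λ ^ 18 * ‖z‖ ≤ ‖q μ (nmk Q l zh Ξ z) 0 - q μ (Q.kap l Ξ (zh Ξ)) 0‖ := by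
  have hzh := (nm_zh h.hS h.hP h.hlL h.hΞ).1
  have he := one_le_l2_ed Q h.hP.1 h.hlL
  have e0 : di (Q.ed l) l = 0 := by
    have h1 := di_ed_self Q l
    have h2 : di (Q.ed l) l = di l (Q.ed l) := by
      unfold di
      exact Finset.sum_congr rfl fun j _ => mul_comm _ _
    rw [h2, h1]
  have e1 : ((di (Q.ed l) (Q.ed l) : ℤ) : ℂ) = ((l2 (Q.ed l) : ℝ) : ℂ) := by
    unfold l2
    push_cast
    rfl
  have e2 : q μ (nmk Q l zh Ξ z) 0 - q μ (Q.kap l Ξ (zh Ξ)) 0 =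
      z * ((l2 (Q.ed l) : ℝ) : ℂ) * (2 * zh Ξ + z) := by
    rw [lmx_q_diff (Q.kap l Ξ (zh Ξ)), lmx_zc_zero, add_zero, sub_self, add_zero]
    unfold nmk
    rw [add_sub_cancel_left, lmx_bil_smul_right, lmx_bil_smul_left, lmx_bil_smul_right,
      bil_kap_zc, nm_bilzz, e0, e1]
    push_cast
    ring
  rw [e2, norm_mul, norm_mul, Complex.norm_real, Real.norm_eq_abs,
    abs_of_nonneg (by linarith : 0 ≤ l2 (Q.ed l))]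
  have h1 : ‖z‖ ≤ 1 := hz.trans (inv_le_one_of_one_le₀ (one_le_pow₀ P.x_one))
  have h2 : P.Λ ^ 18 ≤ ‖2 * zh Ξ + z‖ := by
    have h3 := norm_sub_norm_le (2 * zh Ξ) (-z)
    rw [sub_neg_eq_add, norm_neg, norm_mul] at h3
    simp only [RCLike.norm_ofNat] at h3
    have h4 : 1 ≤ P.Λ ^ 18 := one_le_pow₀ P.x_one
    linarith
  have hz0 := norm_nonneg z
  have h5 : ‖z‖ ≤ ‖z‖ * l2 (Q.ed l) := by nlinarith
  have h6 : 0 ≤ P.Λ ^ 18 := pow_nonneg P.x_pos.le _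
  calc P.Λ ^ 18 * ‖z‖ = ‖z‖ * P.Λ ^ 18 := mul_comm _ _
    _ ≤ (‖z‖ * l2 (Q.ed l)) * ‖2 * zh Ξ + z‖ := mul_le_mul h5 h2 h6 (by positivity)

theorem nm_E0 (h : NmX P Q l zh C Ξ Ξ₀) (hK : NmK Q l zh C Ξ Ξ₀)
    (hn : NmS Q l zh C Ξ Ξ₀ 0) {z : ℂ} (hz : ‖z‖ ≤ (P.Λ ^ 60)⁻¹) :
    ‖z‖ ≤ ‖Ehat P (nmk Q l zh Ξ z + zc 0)‖ := by
  have h1 := nm_E h hK hn (nm_zero h).2 hz
  have h2 := nm_q0 h hz
  have h3 : Ehat P (Q.kap l Ξ (zh Ξ) + zc 0) = 0 := by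
    rw [lmx_zc_zero, add_zero]
    exact h.hS.zero Ξ h.hΞ
  rw [h3, sub_zero] at h1
  set D := q μ (nmk Q l zh Ξ z) 0 - q μ (Q.kap l Ξ (zh Ξ)) 0 with hD
  set E1 := Ehat P (nmk Q l zh Ξ z + zc 0) with hE1
  have hz0 : 0 ≤ ‖z‖ := norm_nonneg _
  have h4 : (P.Λ ^ 6)⁻¹ ≤ 1 / 2 := by
    rw [one_div]
    apply inv_anti₀ (by norm_num)
    calc (2 : ℝ) ≤ P.Λ := by linarith [P.hΛ]
      _ = P.Λ ^ 1 := (pow_one _).symm
      _ ≤ P.Λ ^ 6 := pow_le_pow_right₀ P.x_one (by norm_num)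
  have h5 : (P.Λ ^ 6)⁻¹ * ‖D‖ ≤ 1 / 2 * ‖D‖ := mul_le_mul_of_nonneg_right h4 (norm_nonneg _)
  have h6 := norm_sub_norm_le D E1
  rw [norm_sub_rev D E1] at h6
  have h7 : 4 ≤ P.Λ ^ 18 := by
    calc (4 : ℝ) ≤ P.Λ := by linarith [P.hΛ]
      _ = P.Λ ^ 1 := (pow_one _).symm
      _ ≤ P.Λ ^ 18 := pow_le_pow_right₀ P.x_one (by norm_num)
  have h8 : 4 * ‖z‖ ≤ P.Λ ^ 18 * ‖z‖ := mul_le_mul_of_nonneg_right h7 hz0
  linarith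

/-! ### the blocks -/

theorem nm_DK_upper (h : NmX P Q l zh C Ξ Ξ₀) (hC : C) {n : Zd d} (hn : NmF Q l zh Ξ n)
    {cc B : ℝ} {m₁ : ℕ} (hcc : P.c ≤ cc) (hm₁ : 5 * 10 ^ 4 * cc ≤ m₁) (hm₁1 : 1 ≤ m₁)
    (hB : m₁ * m₁.factorial * (10 ^ 9 * cc) ^ m₁ ≤ B) {z : ℂ} (hz : ‖z‖ ≤ (P.Λ ^ 60)⁻¹) :
    ‖DK w P.c μ P.L (Kf Q l zh Ξ₀ n) (nmk Q l zh Ξ z)‖ ≤ B := by
  have hc := P.x_c
  obtain ⟨hs1, hs2⟩ := nm_small P hcc
  have hcard := Kf_card (n := n) h.hS h.hP h.hlL (nm_O0 h hC)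
  have hcm : (Kf Q l zh Ξ₀ n).card ≤ m₁ := by
    have : ((Kf Q l zh Ξ₀ n).card : ℝ) ≤ m₁ := by nlinarith
    exact_mod_cast this
  have h1 := DK_upper (b := 2 * kp P) (nm_admK h hC hn hz)
    (fun m hm => nm_b h hz (Or.inr ⟨hC, n, hn, hm⟩))
  refine h1.trans (le_trans ?_ hB)
  have h7 : ((Kf Q l zh Ξ₀ n).card.factorial : ℝ) ≤ m₁.factorial := by
    exact_mod_cast Nat.factorial_le hcm
  have h8 : (1 + 2 * (2 * kp P) / P.c) ^ (Kf Q l zh Ξ₀ n).card ≤ (10 ^ 9 * cc) ^ m₁ :=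
    (pow_le_pow_left₀ (by linarith) hs1 _).trans (pow_le_pow_right₀ (by linarith) hcm)
  have h9 : (1 : ℝ) ≤ m₁ := by exact_mod_cast hm₁1
  have h10 : (0 : ℝ) ≤ (10 ^ 9 * cc) ^ m₁ := pow_nonneg (by linarith) _
  have h11 : (0 : ℝ) ≤ m₁.factorial := by positivity
  calc ((Kf Q l zh Ξ₀ n).card.factorial : ℝ) * (1 + 2 * (2 * kp P) / P.c) ^ (Kf Q l zh Ξ₀ n).card
      ≤ m₁.factorial * (10 ^ 9 * cc) ^ m₁ := mul_le_mul h7 h8 (pow_nonneg (by linarith) _) h11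
    _ = 1 * (m₁.factorial * (10 ^ 9 * cc) ^ m₁) := (one_mul _).symm
    _ ≤ m₁ * (m₁.factorial * (10 ^ 9 * cc) ^ m₁) :=
        mul_le_mul_of_nonneg_right h9 (mul_nonneg h11 h10)
    _ = m₁ * m₁.factorial * (10 ^ 9 * cc) ^ m₁ := by ring

theorem nm_DK_diff (h : NmX P Q l zh C Ξ Ξ₀) (hC : C) {n : Zd d} (hn : NmF Q l zh Ξ n)
    {cc B : ℝ} {m₁ : ℕ} (hcc : P.c ≤ cc) (hm₁ : 5 * 10 ^ 4 * cc ≤ m₁) (hm₁1 : 1 ≤ m₁)
    (hB : m₁ * m₁.factorial * (10 ^ 9 * cc) ^ m₁ ≤ B) (hB0 : 1 ≤ B) {z : ℂ}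
    (hz : ‖z‖ < (P.Λ ^ 60)⁻¹) :
    ‖DK w P.c μ P.L (Kf Q l zh Ξ₀ n) (nmk Q l zh Ξ z) -
      DK w P.c μ P.L (Kf Q l zh Ξ₀ n) (Q.kap l Ξ (zh Ξ))‖ ≤ 2 * B * P.Λ ^ 60 * ‖z‖ := by
  set r : ℝ := (P.Λ ^ 60)⁻¹ with hr
  have hΛ := P.x_pos
  have hr0 : 0 < r := inv_pos.2 (pow_pos hΛ _)
  set f : ℂ → ℂ := fun z => DK w P.c μ P.L (Kf Q l zh Ξ₀ n) (nmk Q l zh Ξ z) with hf
  have hdiff : DifferentiableOn ℂ f (Metric.ball 0 r) := by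
    intro z hz
    rw [Metric.mem_ball, dist_zero_right] at hz
    have h1 : AnalyticAt ℂ (fun k => DK w P.c μ P.L (Kf Q l zh Ξ₀ n) k) (nmk Q l zh Ξ z) :=
      DK_analytic P.L _ _ (nm_admK h hC hn hz.le) (fun m hm hm' => nm_far h hC hn hz.le hm hm')
    have h2 : AnalyticAt ℂ (fun z => nmk Q l zh Ξ z) z := by
      unfold nmk
      exact analyticAt_const.add (analyticAt_id.smul analyticAt_const)
    exact (AnalyticAt.fun_comp (f := fun z => nmk Q l zh Ξ z) h1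
      h2).differentiableAt.differentiableWithinAt
  have hbd : ∀ z ∈ Metric.ball (0 : ℂ) r, ‖f z‖ ≤ B := by
    intro z hz
    rw [Metric.mem_ball, dist_zero_right] at hz
    exact nm_DK_upper h hC hn hcc hm₁ hm₁1 hB hz.le
  have hmaps : MapsTo f (Metric.ball 0 r) (Metric.closedBall (f 0) (2 * B)) := by
    intro z hz
    rw [Metric.mem_closedBall, dist_eq_norm]
    have h1 := hbd z hz
    have h2 := hbd 0 (Metric.mem_ball_self hr0)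
    exact (norm_sub_le _ _).trans (by linarith)
  have h1 := Complex.dist_le_div_mul_dist_of_mapsTo_ball hdiff hmaps
    (show z ∈ Metric.ball 0 r by rw [Metric.mem_ball, dist_zero_right]; exact hz)
  rw [dist_eq_norm, dist_zero_right] at h1
  have e0 : f 0 = DK w P.c μ P.L (Kf Q l zh Ξ₀ n) (Q.kap l Ξ (zh Ξ)) := by
    simp only [hf, nmk, zero_smul, add_zero]
  rw [e0] at h1
  refine h1.trans (le_of_eq ?_)
  rw [hr]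
  field_simp

theorem nm_det (h : NmX P Q l zh C Ξ Ξ₀) (hK : NmK Q l zh C Ξ Ξ₀) (hC : C) {n : Zd d}
    (hn : NmF Q l zh Ξ n) {S : Finset (Zd d)} (hSm : ∀ m, m ∈ S ↔ NmS Q l zh C Ξ Ξ₀ m)
    {cc B : ℝ} {m₁ : ℕ} (hcc : P.c ≤ cc) (hm₁ : 5 * 10 ^ 4 * cc ≤ m₁) (hm₁1 : 1 ≤ m₁)
    (hB : m₁ * m₁.factorial * (10 ^ 9 * cc) ^ m₁ ≤ B) {z : ℂ} (hz : ‖z‖ ≤ (P.Λ ^ 60)⁻¹) :
    ‖Matrix.det (fun i j : Kf Q l zh Ξ₀ n => MS w P.c μ S (nmk Q l zh Ξ z) i j) -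
      DK w P.c μ P.L (Kf Q l zh Ξ₀ n) (nmk Q l zh Ξ z)‖ ≤ B * (2 * kp P * (4 * P.ε)) := by
  have hc := P.x_c
  have hk := nm_kp P
  have hε := P.x_ε
  have hk0 : 0 < kp P := by linarith
  obtain ⟨hs1, hs2⟩ := nm_small P hcc
  have hcard := Kf_card (n := n) h.hS h.hP h.hlL (nm_O0 h hC)
  have hcm : (Kf Q l zh Ξ₀ n).card ≤ m₁ := by
    have : ((Kf Q l zh Ξ₀ n).card : ℝ) ≤ m₁ := by nlinarith
    exact_mod_cast this
  have hnC : NmC Q l zh C Ξ n := ⟨hC, n, hn, 0, by simp⟩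
  have hmS : ∀ m ∈ Kf Q l zh Ξ₀ n, NmS Q l zh C Ξ Ξ₀ m := fun m hm => (nm_mem h hnC hm).1
  have hadm := nm_adm h hSm hz
  have hadmK := nm_admK h hC hn hz
  have hfar : ∀ a ∈ Kf Q l zh Ξ₀ n, ∀ m ∈ S, m ∉ Kf Q l zh Ξ₀ n → (P.L : ℝ) < ‖m - a‖ := by
    intro a ha m hm hm'
    obtain ⟨h1, h2, h3⟩ := nm_mem h hnC ha
    refine nm_sep h hK h1 ((hSm m).1 hm) ?_
    intro he
    apply hm'
    have e1 : nmLab Q l zh C Ξ Ξ₀ a = Kf Q l zh Ξ₀ a := if_pos h2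
    rw [e1, h3] at he
    by_cases hmC : NmC Q l zh C Ξ m
    · have e2 : nmLab Q l zh C Ξ Ξ₀ m = Kf Q l zh Ξ₀ m := if_pos hmC
      rw [he, e2]
      exact nm_own h ((hSm m).1 hm) hmC
    · have e2 : nmLab Q l zh C Ξ Ξ₀ m = {m} := if_neg hmC
      rw [he, e2]
      exact Finset.mem_singleton_self _
  have hsub : Kf Q l zh Ξ₀ n ⊆ S := fun m hm => (hSm m).2 (hmS m hm)
  have h1 := det_diff (A := (fun i j : Kf Q l zh Ξ₀ n => MS w P.c μ S (nmk Q l zh Ξ z) i j))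
    (A' := (fun i j : Kf Q l zh Ξ₀ n => MK w P.c μ P.L (Kf Q l zh Ξ₀ n) (nmk Q l zh Ξ z) i j))
    (b := 1 + 2 * (2 * kp P) / P.c) (t := 2 * kp P * (4 * P.ε)) hs2 (by positivity)
    (fun i j => MS_bound hadm (nm_b h hz (hmS i i.2)))
    (fun i j => MK_bound hadmK (nm_b h hz (hmS i i.2)))
    (fun i j => blk_entry P hsub hfar hadm hadmK j.2 (nm_b h hz (hmS i i.2)))
  refine h1.trans ?_
  rw [Fintype.card_coe]
  have ht : 0 ≤ 2 * kp P * (4 * P.ε) := by positivity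
  refine mul_le_mul_of_nonneg_right (le_trans ?_ hB) ht
  have h7 : ((Kf Q l zh Ξ₀ n).card.factorial : ℝ) ≤ m₁.factorial := by
    exact_mod_cast Nat.factorial_le hcm
  have h8 : (1 + 2 * (2 * kp P) / P.c) ^ (Kf Q l zh Ξ₀ n).card ≤ (10 ^ 9 * cc) ^ m₁ :=
    (pow_le_pow_left₀ (by linarith) hs1 _).trans (pow_le_pow_right₀ (by linarith) hcm)
  have h9 : ((Kf Q l zh Ξ₀ n).card : ℝ) ≤ m₁ := by exact_mod_cast hcm
  exact mul_le_mul (mul_le_mul h9 h7 (by positivity) (by positivity)) h8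
    (pow_nonneg (by linarith) _) (by positivity)

private lemma nm_det_congr {A A' : Finset (Zd d)} (h : A = A') (f : Zd d → Zd d → ℂ) :
    Matrix.det (fun i j : A => f i j) = Matrix.det (fun i j : A' => f i j) := by
  subst h
  rfl

private lemma nm_det_single (n : Zd d) (f : Zd d → Zd d → ℂ) :
    Matrix.det (fun i j : ({n} : Finset (Zd d)) => f i j) = f n n := by
  have : Subsingleton ({n} : Finset (Zd d)) := by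
    refine ⟨fun a b => Subtype.ext ?_⟩
    rw [Finset.mem_singleton.1 a.2, Finset.mem_singleton.1 b.2]
  exact Matrix.det_eq_elem_of_subsingleton (fun i j : ({n} : Finset (Zd d)) => f i j)
    (⟨n, Finset.mem_singleton_self n⟩ : ({n} : Finset (Zd d)))

end

theorem notmem_sheet (hS : Sheet P Q l zh) (hP : Prim l) (hlL : ‖l‖ ≤ P.L) {cc B : ℝ} {m₁ : ℕ}
    (hcc : P.c ≤ cc) (hm₁ : 5 * 10 ^ 4 * cc ≤ m₁) (hm₁1 : 1 ≤ m₁)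
    (hB : m₁ * m₁.factorial * (10 ^ 9 * cc) ^ m₁ ≤ B) (C : Prop) {Ξ Ξ₀ : ℂ} (hΞ : Ξ ∈ Q.Om l)
    (h1 : C → ‖Ξ - Ξ₀‖ ≤ wr Q l) (h0 : C → Metric.closedBall Ξ₀ (20 * wr Q l) ⊆ Q.Om l)
    {η₁ η₂ : ℝ} (hη₁ : 0 < η₁) (hη₂ : 0 < η₂)
    (hs : ∀ n : Zd d, n ≠ 0 → ‖ph Q l zh n Ξ‖ < 2 * P.c → ¬ (Fast Q l n ∧ C) →
      (¬ Fast Q l n ∨ P.T1 ≤ |Ξ.im|) ∧ η₁ ≤ ‖Ehat P (Q.kap l Ξ (zh Ξ) + zc n)‖)
    (hK : C → ∀ n : Zd d, Fast Q l n → ‖ph Q l zh n Ξ‖ < 2 * P.c →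
      η₂ ≤ ‖DK w P.c μ P.L (Kf Q l zh Ξ₀ n) (Q.kap l Ξ (zh Ξ))‖)
    {ρ₀ ρ₁ : ℝ} (hρ₀ : 0 < ρ₀) (hρ₁ : P.Λ ^ 100 * ρ₁ ≤ η₁) (hρ₁' : ρ₁ ≤ (P.Λ ^ 100)⁻¹)
    (hρ₁'' : C → B * P.Λ ^ 100 * ρ₁ ≤ η₂)
    (hε0 : B * P.Λ ^ (24 * d + 100) * P.ε ≤ ρ₀) (hε1 : B * P.Λ ^ (24 * d + 100) * P.ε ≤ η₁)
    (hε2 : C → B * P.Λ ^ (24 * d + 100) * P.ε ≤ η₂)
    {z : ℂ} (hz0 : ρ₀ ≤ ‖z‖) (hz1 : ‖z‖ ≤ ρ₁) :
    Q.kap l Ξ (zh Ξ) + z • zc (Q.ed l) ∉ FS μ w := by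
  classical
  have h : NmX P Q l zh C Ξ Ξ₀ := ⟨hS, hP, hlL, hΞ, h1, h0⟩
  have hc := P.x_c
  have hkp := nm_kp P
  have hkp0 : 0 < kp P := by linarith
  have hkp4 := kp_le P
  have hΛ := P.hΛ
  have hΛ0 := P.x_pos
  have hΛ1 := P.x_one
  have hε := P.x_ε
  have hcΛ := P.hcΛ
  obtain ⟨hs1, hs2⟩ := nm_small P hcc
  -- sizes
  have hp : ∀ i j : ℕ, i ≤ j → P.Λ ^ i ≤ P.Λ ^ j := fun i j h => pow_le_pow_right₀ hΛ1 h
  have hfac : (1 : ℝ) ≤ m₁.factorial := by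
    exact_mod_cast Nat.one_le_iff_ne_zero.2 (Nat.factorial_ne_zero _)
  have hm1r : (1 : ℝ) ≤ m₁ := by exact_mod_cast hm₁1
  have hpow1 : (1 : ℝ) ≤ (10 ^ 9 * cc) ^ m₁ := one_le_pow₀ (by linarith)
  have hB0 : 1 ≤ B := by
    have e1 : (1 : ℝ) ≤ m₁ * m₁.factorial := by nlinarith
    have e2 : (1 : ℝ) ≤ m₁ * m₁.factorial * (10 ^ 9 * cc) ^ m₁ := by nlinarith
    linarith
  have hρ1p : 0 ≤ ρ₁ := le_trans (norm_nonneg z) hz1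
  have hz60' : ‖z‖ < (P.Λ ^ 60)⁻¹ := by
    refine lt_of_le_of_lt (hz1.trans hρ₁') ?_
    exact inv_strictAnti₀ (pow_pos hΛ0 _) (pow_lt_pow_right₀ (by linarith) (by norm_num))
  have hz60 := hz60'.le
  have hNK : NmK Q l zh C Ξ Ξ₀ := by
    intro n hn hnC
    by_cases hn0 : n = 0
    · left
      rw [hn0]
      exact (nm_zero h).1
    · obtain ⟨h2, h3⟩ := nm_single h hn hnC
      exact (hs n hn0 (by linarith) h3).1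
  obtain ⟨S, hSm, hScard⟩ := nm_card h
  have hadm := nm_adm h hSm hz60
  -- the small quantity
  set e0 : ℝ := B * P.Λ ^ (24 * d + 100) * P.ε with he0
  have he0p : 0 < e0 := by positivity
  have hBε : B * P.Λ ^ (24 * d) * P.Λ ^ 100 * P.ε = e0 := by
    rw [he0, pow_add]; ring
  have hL24 : 1 ≤ P.Λ ^ (24 * d) := one_le_pow₀ hΛ1
  have h100 : P.Λ ^ 100 * P.ε ≤ e0 := by
    rw [← hBε]
    have e1 : 1 ≤ B * P.Λ ^ (24 * d) := by nlinarith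
    have e2 : 0 ≤ P.Λ ^ 100 * P.ε := by positivity
    nlinarith
  have hB100 : B * (P.Λ ^ 100 * P.ε) ≤ e0 := by
    rw [← hBε]
    have e2 : 0 ≤ B * (P.Λ ^ 100 * P.ε) := by positivity
    nlinarith
  -- the third constant
  obtain ⟨η₃, hη₃, hη₃C, hη₃e⟩ : ∃ η₃ : ℝ, 0 < η₃ ∧ (C → η₃ = η₂) ∧ e0 ≤ η₃ := by
    by_cases hC : C
    · exact ⟨η₂, hη₂, fun _ => rfl, hε2 hC⟩
    · exact ⟨η₁, hη₁, fun hC' => absurd hC' hC, hε1⟩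
  set η : ℝ := min (ρ₀ / (4 * P.c)) (min (η₁ / (8 * P.c)) (η₃ / 4)) with hη
  have hη1 : η ≤ ρ₀ / (4 * P.c) := min_le_left _ _
  have hη2 : η ≤ η₁ / (8 * P.c) := (min_le_right _ _).trans (min_le_left _ _)
  have hη3 : η ≤ η₃ / 4 := (min_le_right _ _).trans (min_le_right _ _)
  have hηp : 0 < η := lt_min (by positivity) (lt_min (by positivity) (by positivity))
  have hηe : e0 / (8 * P.c) ≤ η := by
    refine le_min ?_ (le_min ?_ ?_)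
    · rw [div_le_div_iff₀ (by positivity) (by positivity)]
      nlinarith
    · rw [div_le_div_iff₀ (by positivity) (by positivity)]
      nlinarith
    · rw [div_le_div_iff₀ (by positivity) (by positivity)]
      nlinarith
  have hcε : 96 * P.c ^ 2 * P.ε ≤ e0 := by
    refine le_trans ?_ h100
    have e1 : 96 * P.c ^ 2 ≤ P.Λ ^ 100 := by
      have e2 := hp 3 100 (by norm_num)
      have e3 : P.Λ ^ 3 = P.Λ * P.Λ ^ 2 := by ring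
      have e4 : P.c ^ 2 ≤ P.Λ ^ 2 := pow_le_pow_left₀ (by linarith) hcΛ 2
      have e5 : 0 ≤ P.Λ ^ 2 := by positivity
      nlinarith
    nlinarith
  refine notmem_of_blocks S (nmk Q l zh Ξ z) hadm (nmLab Q l zh C Ξ Ξ₀) (η := η)
    (ε₀ := 4 * P.ε) (b := 2 * kp P) (m₀ := m₁) (by positivity) hηp
    (fun n hn => nm_b h hz60 ((hSm n).1 hn)) ?_ ?_ ?_ ?_
  · intro n hn
    rw [nm_block h hSm hn]
    by_cases hnC : NmC Q l zh C Ξ n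
    · have e1 : nmLab Q l zh C Ξ Ξ₀ n = Kf Q l zh Ξ₀ n := if_pos hnC
      rw [e1]
      have hcard := Kf_card (n := n) hS hP hlL (nm_O0 h hnC.1)
      have : ((Kf Q l zh Ξ₀ n).card : ℝ) ≤ m₁ := by nlinarith
      exact_mod_cast this
    · have e1 : nmLab Q l zh C Ξ Ξ₀ n = {n} := if_neg hnC
      rw [e1, Finset.card_singleton]
      exact hm₁1
  · intro n hn
    rw [nm_det_congr (nm_block h hSm hn) (fun i j => MS w P.c μ S (nmk Q l zh Ξ z) i j)]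
    by_cases hnC : NmC Q l zh C Ξ n
    · have e1 : nmLab Q l zh C Ξ Ξ₀ n = Kf Q l zh Ξ₀ n := if_pos hnC
      obtain ⟨hC, n', hn', j, hj⟩ := hnC
      have e2 : nmLab Q l zh C Ξ Ξ₀ n = Kf Q l zh Ξ₀ n' := by
        rw [e1]
        exact Kf_eq ⟨j, hj⟩
      rw [nm_det_congr e2 (fun i j => MS w P.c μ S (nmk Q l zh Ξ z) i j)]
      refine hη3.trans ?_
      rw [hη₃C hC] at hη₃e ⊢
      have a1 := hK hC n' hn'.1 (by linarith [hn'.2])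
      have a2 := nm_DK_diff h hC hn' hcc hm₁ hm₁1 hB hB0 hz60'
      have a3 := nm_det h hNK hC hn' hSm hcc hm₁ hm₁1 hB hz60
      have a4 : 2 * B * P.Λ ^ 60 * ‖z‖ ≤ η₂ / 4 := by
        have b1 : 2 * B * P.Λ ^ 60 * ‖z‖ ≤ 2 * B * P.Λ ^ 60 * ρ₁ :=
          mul_le_mul_of_nonneg_left hz1 (by positivity)
        have b2 : 8 * P.Λ ^ 60 ≤ P.Λ ^ 100 := by
          have b3 := hp 61 100 (by norm_num)
          have b4 : P.Λ ^ 61 = P.Λ * P.Λ ^ 60 := by ring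
          have b5 : 0 ≤ P.Λ ^ 60 := by positivity
          nlinarith
        have b6 : B * (8 * P.Λ ^ 60) * ρ₁ ≤ B * P.Λ ^ 100 * ρ₁ :=
          mul_le_mul_of_nonneg_right (mul_le_mul_of_nonneg_left b2 (by linarith)) hρ1p
        have b7 := hρ₁'' hC
        linarith
      have a5 : B * (2 * kp P * (4 * P.ε)) ≤ η₂ / 4 := by
        have b1 : 2 * kp P * (4 * P.ε) ≤ P.Λ ^ 4 * (4 * P.ε) :=
          mul_le_mul_of_nonneg_right hkp4 (by positivity)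
        have b2 : B * (2 * kp P * (4 * P.ε)) ≤ B * (P.Λ ^ 4 * (4 * P.ε)) :=
          mul_le_mul_of_nonneg_left b1 (by linarith)
        have b3 : 16 * P.Λ ^ 4 ≤ P.Λ ^ 100 := by
          have b3 := hp 5 100 (by norm_num)
          have b4 : P.Λ ^ 5 = P.Λ * P.Λ ^ 4 := by ring
          have b5 : 0 ≤ P.Λ ^ 4 := by positivity
          nlinarith
        have b4 : B * (16 * P.Λ ^ 4 * P.ε) ≤ B * (P.Λ ^ 100 * P.ε) :=
          mul_le_mul_of_nonneg_left (mul_le_mul_of_nonneg_right b3 hε.le) (by linarith)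
        linarith
      set X := DK w P.c μ P.L (Kf Q l zh Ξ₀ n') (Q.kap l Ξ (zh Ξ)) with hX
      set Y := DK w P.c μ P.L (Kf Q l zh Ξ₀ n') (nmk Q l zh Ξ z) with hY
      have c1 := norm_sub_norm_le X Y
      rw [norm_sub_rev X Y] at c1
      have c2 := norm_sub_norm_le Y (Matrix.det
        (fun i j : Kf Q l zh Ξ₀ n' => MS w P.c μ S (nmk Q l zh Ξ z) i j))
      rw [norm_sub_rev Y] at c2
      linarith
    · have e1 : nmLab Q l zh C Ξ Ξ₀ n = {n} := if_neg hnC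
      rw [nm_det_congr e1 (fun i j => MS w P.c μ S (nmk Q l zh Ξ z) i j), nm_det_single]
      have hnS := (hSm n).1 hn
      obtain ⟨hsn, hfn⟩ := nm_single h hnS hnC
      have hfar : ∀ m ∈ S, m ≠ n → (P.L : ℝ) < ‖m - n‖ :=
        fun m hm hmn => nm_sep_aux h hNK hnS ((hSm m).1 hm) hmn.symm hnC
      have hcl : ∀ l' : Zd d, l' ≠ 0 → ‖l'‖ ≤ P.L → P.G ≤ ‖q μ (nmk Q l zh Ξ z) (n + l')‖ := by
        intro l' hl' hl'L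
        have c1 := nm_clean h hNK hnS hnC hl' hl'L
        have c2 := nm_ge h hz60 (n + l')
        have c3 : P.G = P.Λ ^ 5 := rfl
        have c4 : P.Λ ^ 6 = P.Λ * P.Λ ^ 5 := by ring
        have c5 : 1 ≤ P.Λ ^ 5 := one_le_pow₀ hΛ1
        rw [c3]
        nlinarith
      have hb3 : ‖q μ (nmk Q l zh Ξ z) n - P.c‖ ≤ 3 * P.c := by
        have c1 := nm_close1 h hz60 (nm_size4 h hnS)
        have c2 := norm_sub_norm_le (q μ (nmk Q l zh Ξ z) n) (ph Q l zh n Ξ)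
        have c3 := norm_sub_le (q μ (nmk Q l zh Ξ z) n) (P.c : ℂ)
        rw [nm_cn P] at c3
        linarith
      have hse := single_entry P hn hfar hadm hcl hb3
      refine le_trans ?_ hse
      by_cases hn0 : n = 0
      · subst hn0
        refine hη1.trans ?_
        have c1 := nm_E0 h hNK hnS hz60
        have c2 : ρ₀ / (2 * P.c) ≤ ‖Ehat P (nmk Q l zh Ξ z + zc 0)‖ / (2 * P.c) :=
          div_le_div_of_nonneg_right (hz0.trans c1) (by positivity)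
        have c3 : 12 * P.c * P.ε ≤ ρ₀ / (4 * P.c) := by
          rw [le_div_iff₀ (by positivity)]
          nlinarith
        have c4 : ρ₀ / (2 * P.c) = 2 * (ρ₀ / (4 * P.c)) := by
          field_simp
          ring
        linarith
      · refine hη2.trans ?_
        have c0 := (hs n hn0 (by linarith) hfn).2
        have c1 := nm_E1 h hNK hnS hnC hz60
        have c2 : P.Λ ^ 60 * ‖z‖ ≤ η₁ / 2 := by
          have b1 : P.Λ ^ 60 * ‖z‖ ≤ P.Λ ^ 60 * ρ₁ :=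
            mul_le_mul_of_nonneg_left hz1 (by positivity)
          have b2 : 2 * P.Λ ^ 60 ≤ P.Λ ^ 100 := by
            have b3 := hp 61 100 (by norm_num)
            have b4 : P.Λ ^ 61 = P.Λ * P.Λ ^ 60 := by ring
            have b5 : 0 ≤ P.Λ ^ 60 := by positivity
            nlinarith
          have b6 : 2 * P.Λ ^ 60 * ρ₁ ≤ P.Λ ^ 100 * ρ₁ := mul_le_mul_of_nonneg_right b2 hρ1p
          linarith
        have c3 : η₁ / 2 / (2 * P.c) ≤ ‖Ehat P (nmk Q l zh Ξ z + zc n)‖ / (2 * P.c) :=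
          div_le_div_of_nonneg_right (by linarith) (by positivity)
        have c4 : 12 * P.c * P.ε ≤ η₁ / (8 * P.c) := by
          rw [le_div_iff₀ (by positivity)]
          nlinarith
        have c5 : η₁ / 2 / (2 * P.c) = 2 * (η₁ / (8 * P.c)) := by
          field_simp
          ring
        linarith
  · intro n hn m hm hne
    have c1 := nm_sep h hNK ((hSm n).1 hn) ((hSm m).1 hm) hne
    rw [norm_sub_rev] at c1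
    exact off_entry P c1 hadm
  · refine lt_of_lt_of_le ?_ hηe
    have c1 : m₁ * m₁.factorial * (1 + 2 * (2 * kp P) / P.c) ^ m₁ ≤ B := by
      refine le_trans ?_ hB
      exact mul_le_mul_of_nonneg_left (pow_le_pow_left₀ (by linarith) hs1 _) (by positivity)
    have c2 : (S.card : ℝ) * (2 * kp P * (4 * P.ε)) ≤ P.Λ ^ (24 * d) * (P.Λ ^ 4 * (4 * P.ε)) :=
      mul_le_mul hScard (mul_le_mul_of_nonneg_right hkp4 (by positivity)) (by positivity)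
        (by positivity)
    have c3 : m₁ * m₁.factorial * (1 + 2 * (2 * kp P) / P.c) ^ m₁ *
        (S.card * (2 * kp P * (4 * P.ε))) ≤ B * (P.Λ ^ (24 * d) * (P.Λ ^ 4 * (4 * P.ε))) :=
      mul_le_mul c1 c2 (by positivity) (by linarith)
    refine lt_of_le_of_lt c3 ?_
    rw [lt_div_iff₀ (by positivity), ← hBε]
    have c4 : B * (P.Λ ^ (24 * d) * (P.Λ ^ 4 * (4 * P.ε))) * (8 * P.c) =
      (B * P.Λ ^ (24 * d) * P.ε) * (32 * P.c * P.Λ ^ 4) := by ring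
    have c5 : B * P.Λ ^ (24 * d) * P.Λ ^ 100 * P.ε = (B * P.Λ ^ (24 * d) * P.ε) * P.Λ ^ 100 := by
      ring
    rw [c4, c5]
    apply mul_lt_mul_of_pos_left _ (by positivity)
    have c6 : 32 * P.c * P.Λ ^ 4 ≤ 32 * P.Λ * P.Λ ^ 4 :=
      mul_le_mul_of_nonneg_right (by linarith) (by positivity)
    have c7 : 32 * P.Λ * P.Λ ^ 4 = 32 * P.Λ ^ 5 := by ring
    have c8 := hp 6 100 (by norm_num)
    have c9 : P.Λ ^ 6 = P.Λ * P.Λ ^ 5 := by ring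
    have c10 : 0 < P.Λ ^ 5 := by positivity
    nlinarith

end Fermi
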