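import Pool.Agent.Lib.Fermi.OpBasic

/-!
# Chunk D2: analyticity of Green functions
-/

open scoped BigOperators Topology
open Set Filter

noncomputable section

namespace Fermi

variable {d : ℕ} {μ : ℂ} {w : Zd d → ℂ} {c : ℝ}

/-! ### the general principle -/

section core

variable {X : Type*} [NormedAddCommGroup X] [NormedSpace ℂ X]

theorem d2_Dg_apply (a : Zd d → ℂ) (ha : ∃ C, ∀ n, ‖a n‖ ≤ C) (v : H2 d) (n : Zd d) :
    (Dg a ha v) n = a n * v n := Dg_apply a ha v n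

theorem d2_tsum (a : Zd d → ℂ) (ha : ∃ C, ∀ n, ‖a n‖ ≤ C) (v : H2 d) (n : Zd d) :
    ∑' m, w (n - m) * (Dg a ha v) m = ∑' m, w (n - m) * (a m * v m) :=
  tsum_congr fun m => congrArg (fun y => w (n - m) * y) (Dg_apply a ha v m)

omit [NormedAddCommGroup X] [NormedSpace ℂ X] in
theorem d2_sol_iff {a : Zd d → ℂ} (ha : ∃ C, ∀ n, ‖a n‖ ≤ C)
    {D : X → Zd d → ℂ} {T : X → (H2 d →L[ℂ] H2 d)}
    (hT : ∀ x v n, T x v n = D x n * (a n * v n) + ∑' m, w (n - m) * (a m * v m)) (x : X)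
    (f v : H2 d) : Sol w (D x) f (Dg a ha v) ↔ T x v = f := by
  have h1 : ∀ n, D x n * (Dg a ha v) n + ∑' m, w (n - m) * (Dg a ha v) m = T x v n := by
    intro n
    rw [hT, d2_tsum, Dg_apply]
  unfold Sol
  constructor
  · intro h
    ext n
    rw [← h n, h1 n]
  · rintro rfl n
    exact h1 n

theorem d2_dg_inj {a : Zd d → ℂ} (ha : ∃ C, ∀ n, ‖a n‖ ≤ C) (ha0 : ∀ n, a n ≠ 0) {v : H2 d}
    (h : Dg a ha v = 0) : v = 0 := by
  ext n
  have h1 : (Dg a ha v) n = 0 := by rw [h]; rfl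
  rw [Dg_apply] at h1
  rcases mul_eq_zero.1 h1 with h2 | h2
  · exact absurd h2 (ha0 n)
  · exact h2

theorem d2_core (a : Zd d → ℂ) (ha : ∃ C, ∀ n, ‖a n‖ ≤ C)
    (ha0 : ∀ n, a n ≠ 0) {D : X → Zd d → ℂ} {T : X → (H2 d →L[ℂ] H2 d)}
    (hT : ∀ x v n, T x v n = D x n * (a n * v n) + ∑' m, w (n - m) * (a m * v m)) (x₀ : X)
    (hA : AnalyticAt ℂ T x₀) (hdom : ∀ x (f u : H2 d), Sol w (D x) f u → ∃ v, u = Dg a ha v)
    {C : ℝ} (h : Inv w (D x₀) C) (f : H2 d) (m : Zd d) :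
    AnalyticAt ℂ (fun x => (grn w (D x) f) m) x₀ ∧ ∀ᶠ x in 𝓝 x₀, ∃ C', Inv w (D x) C' := by
  have hbij : Function.Bijective (T x₀) := by
    constructor
    · rw [injective_iff_map_eq_zero]
      intro v hv
      have h1 := (d2_sol_iff ha hT x₀ 0 v).2 hv
      have h2 := h.2.2 0 _ h1
      rw [norm_zero, mul_zero] at h2
      exact d2_dg_inj ha ha0 (norm_le_zero_iff.1 h2)
    · intro f
      obtain ⟨u, hu⟩ := h.2.1 f
      obtain ⟨v, rfl⟩ := hdom x₀ f u hu
      exact ⟨v, (d2_sol_iff ha hT x₀ f v).1 hu⟩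
  have hunit : IsUnit (T x₀) := ContinuousLinearMap.isUnit_iff_bijective.2 hbij
  have hev : ∀ᶠ x in 𝓝 x₀, IsUnit (T x) :=
    hA.continuousAt.eventually (Units.isOpen.mem_nhds hunit)
  have hsol : ∀ x, IsUnit (T x) → ∀ f u : H2 d, Sol w (D x) f u →
      u = Dg a ha (Ring.inverse (T x) f) := by
    intro x hx f u hu
    obtain ⟨v, rfl⟩ := hdom x f u hu
    have h1 := (d2_sol_iff ha hT x f v).1 hu
    have h2 : Ring.inverse (T x) f = v := by
      rw [← h1]
      have h3 := Ring.inverse_mul_cancel _ hx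
      have h4 := congrArg (fun S : H2 d →L[ℂ] H2 d => S v) h3
      exact h4
    rw [h2]
  have hex : ∀ x, IsUnit (T x) → ∀ f : H2 d, Sol w (D x) f (Dg a ha (Ring.inverse (T x) f)) := by
    intro x hx f
    rw [d2_sol_iff ha hT]
    have h3 := Ring.mul_inverse_cancel _ hx
    exact congrArg (fun S : H2 d →L[ℂ] H2 d => S f) h3
  have hgrn : ∀ x, IsUnit (T x) → ∀ f : H2 d,
      grn w (D x) f = Dg a ha (Ring.inverse (T x) f) := by
    intro x hx f
    have h1 : ∃ u, Sol w (D x) f u := ⟨_, hex x hx f⟩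
    unfold grn
    rw [dif_pos h1]
    exact hsol x hx f _ h1.choose_spec
  constructor
  · have h1 : AnalyticAt ℂ (fun x => (Dg a ha (Ring.inverse (T x) f)) m) x₀ := by
      have h2 : AnalyticAt ℂ (fun x => Ring.inverse (T x)) x₀ := by
        obtain ⟨U, hU⟩ := hunit
        have h3 : AnalyticAt ℂ Ring.inverse (T x₀) := by
          rw [← hU]
          exact analyticAt_inverse U
        exact h3.comp hA
      have h4 : AnalyticAt ℂ (fun x => (lp.evalCLM ℂ (fun _ : Zd d => ℂ) 2 m).comp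
          ((Dg a ha).comp (Ring.inverse (T x))) f) x₀ := by
        let A : (H2 d →L[ℂ] H2 d) →L[ℂ] ℂ :=
          (((lp.evalCLM ℂ (fun _ : Zd d => ℂ) 2 m).comp (Dg a ha)).comp
            (ContinuousLinearMap.apply ℂ (H2 d) f))
        exact (A.analyticAt _).comp h2
      exact h4
    refine h1.congr ?_
    filter_upwards [hev] with x hx
    rw [hgrn x hx f]
  · filter_upwards [hev] with x hx
    refine ⟨‖Dg a ha‖ * ‖Ring.inverse (T x)‖, by positivity, fun f => ⟨_, hex x hx f⟩, ?_⟩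
    intro f u hu
    rw [hsol x hx f u hu]
    calc ‖Dg a ha (Ring.inverse (T x) f)‖ ≤ ‖Dg a ha‖ * ‖Ring.inverse (T x) f‖ :=
          ContinuousLinearMap.le_opNorm _ _
      _ ≤ ‖Dg a ha‖ * (‖Ring.inverse (T x)‖ * ‖f‖) := by
          gcongr
          exact ContinuousLinearMap.le_opNorm _ _
      _ = _ := by ring

end core

/-! ### elementary facts -/

/-- squared length of an integer vector -/
def d2nn (n : Zd d) : ℝ := ∑ j, (n j : ℝ) ^ 2

lemma d2nn_nonneg (n : Zd d) : 0 ≤ d2nn n := Finset.sum_nonneg fun _ _ => sq_nonneg _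

lemma d2_le_nn (n : Zd d) (j : Fin d) : (n j : ℝ) ^ 2 ≤ d2nn n :=
  Finset.single_le_sum (f := fun j => (n j : ℝ) ^ 2) (fun _ _ => sq_nonneg _) (Finset.mem_univ j)

/-- the weight -/
def d2wt (n : Zd d) : ℂ := ((1 + d2nn n : ℝ) : ℂ)⁻¹

lemma d2wt_ne (n : Zd d) : d2wt n ≠ 0 := by
  have := d2nn_nonneg n
  exact inv_ne_zero (Complex.ofReal_ne_zero.2 (by linarith))

lemma d2wt_norm (n : Zd d) : ‖d2wt n‖ = (1 + d2nn n)⁻¹ := by
  have := d2nn_nonneg n
  rw [d2wt, norm_inv, Complex.norm_real, Real.norm_of_nonneg (by linarith)]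

lemma d2wt_le (n : Zd d) : ‖d2wt n‖ ≤ 1 := by
  have := d2nn_nonneg n
  rw [d2wt_norm]
  exact inv_le_one_of_one_le₀ (by linarith)

lemma d2_q (k : Cd d) (n : Zd d) : q μ k n = (bil k k - μ) + (∑ j, 2 * k j * (n j : ℂ)) +
    ((d2nn n : ℝ) : ℂ) := by
  unfold q bil d2nn zc
  push_cast
  have : ∑ j, (k j + (n j : ℂ)) * (k j + (n j : ℂ)) =
      (∑ j, k j * k j) + (∑ j, 2 * k j * (n j : ℂ)) + ∑ j, (n j : ℂ) ^ 2 := by
    rw [← Finset.sum_add_distrib, ← Finset.sum_add_distrib]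
    apply Finset.sum_congr rfl
    intro j _
    ring
  simp only [Pi.add_apply]
  rw [this]
  ring

/-- lower bound of the symbol -/
lemma d2_q_lower (μ : ℂ) (k : Cd d) : ∃ K : ℝ, 0 < K ∧ ∀ n : Zd d,
    1 + d2nn n ≤ K * (1 + ‖q μ k n‖) := by
  refine ⟨3 + 2 * ‖bil k k - μ‖ + 4 * d * ‖k‖ ^ 2, by positivity, fun n => ?_⟩
  have h1 : ‖∑ j, 2 * k j * (n j : ℂ)‖ ≤ d2nn n / 2 + 2 * d * ‖k‖ ^ 2 := by
    calc ‖∑ j, 2 * k j * (n j : ℂ)‖ ≤ ∑ j, ‖2 * k j * (n j : ℂ)‖ := norm_sum_le _ _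
      _ ≤ ∑ j : Fin d, ((n j : ℝ) ^ 2 / 2 + 2 * ‖k‖ ^ 2) := by
          apply Finset.sum_le_sum
          intro j _
          rw [norm_mul, norm_mul, Complex.norm_ofNat, Complex.norm_intCast]
          have h2 : ‖k j‖ ≤ ‖k‖ := norm_le_pi_norm k j
          have h3 : |(n j : ℝ)| ^ 2 = (n j : ℝ) ^ 2 := sq_abs _
          have h4 : 2 * ‖k j‖ * |(n j : ℝ)| ≤ 2 * ‖k‖ * |(n j : ℝ)| := by
            gcongr
          nlinarith [sq_nonneg (|(n j : ℝ)| - 2 * ‖k‖)]
      _ = d2nn n / 2 + 2 * d * ‖k‖ ^ 2 := by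
          rw [Finset.sum_add_distrib, ← Finset.sum_div, Finset.sum_const, Finset.card_univ,
            Fintype.card_fin, nsmul_eq_mul]
          unfold d2nn
          ring
  have h2 : d2nn n ≤ ‖q μ k n‖ + ‖bil k k - μ‖ + ‖∑ j, 2 * k j * (n j : ℂ)‖ := by
    have h3 : ((d2nn n : ℝ) : ℂ) = q μ k n - (bil k k - μ) - ∑ j, 2 * k j * (n j : ℂ) := by
      rw [d2_q]; ring
    have h4 : ‖((d2nn n : ℝ) : ℂ)‖ = d2nn n := by
      rw [Complex.norm_real, Real.norm_of_nonneg (d2nn_nonneg n)]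
    rw [← h4, h3]
    calc _ ≤ ‖q μ k n - (bil k k - μ)‖ + ‖∑ j, 2 * k j * (n j : ℂ)‖ := norm_sub_le _ _
      _ ≤ _ := by
        gcongr
        exact norm_sub_le _ _
  have h5 := norm_nonneg (q μ k n)
  have h6 := norm_nonneg (bil k k - μ)
  have h7 : 0 ≤ (d : ℝ) * ‖k‖ ^ 2 := by positivity
  have h8 : 0 ≤ ‖bil k k - μ‖ * ‖q μ k n‖ := by positivity
  have h9 : 0 ≤ (d : ℝ) * ‖k‖ ^ 2 * ‖q μ k n‖ := by positivity
  nlinarith

/-- the regularised symbol dominates the weight -/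
lemma d2_DS_lower (c : ℝ) (μ : ℂ) (S : Finset (Zd d)) (k : Cd d) :
    ∃ K : ℝ, 0 < K ∧ ∀ n : Zd d, 1 + d2nn n ≤ K * (1 + ‖DS c μ S k n‖) := by
  obtain ⟨K, hK, h⟩ := d2_q_lower μ k
  have hS : 0 ≤ ∑ n ∈ S, (1 + d2nn n) :=
    Finset.sum_nonneg fun n _ => by have := d2nn_nonneg n; linarith
  refine ⟨K + ∑ n ∈ S, (1 + d2nn n), by linarith, fun n => ?_⟩
  have hn := norm_nonneg (DS c μ S k n)
  by_cases hnS : n ∈ S
  · have h1 : 1 + d2nn n ≤ ∑ n ∈ S, (1 + d2nn n) :=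
      Finset.single_le_sum (f := fun n => 1 + d2nn n)
        (fun n _ => by have := d2nn_nonneg n; linarith) hnS
    nlinarith
  · have h1 : DS c μ S k n = q μ k n := by
      unfold DS
      rw [if_neg hnS]
    rw [h1] at hn ⊢
    have h2 := h n
    nlinarith

/-- a solution for a symbol of order two lies in the domain -/
lemma d2_dom (hw : Summable fun n => ‖w n‖) {D : Zd d → ℂ} {K : ℝ}
    (hD : ∀ n : Zd d, 1 + d2nn n ≤ K * (1 + ‖D n‖))
    (ha : ∃ C, ∀ n : Zd d, ‖d2wt n‖ ≤ C) {f u : H2 d} (h : Sol w D f u) :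
    ∃ v, u = Dg d2wt ha v := by
  let g : H2 d := f - Wop w hw u
  have hg : ∀ n, g n = D n * u n := by
    intro n
    have h1 := h n
    change f n - (Wop w hw u) n = _
    rw [Wop_apply, ← h1]
    ring
  have hmem : Memℓp (fun n => ((1 + d2nn n : ℝ) : ℂ) * u n) 2 := by
    have h2 : Memℓp (fun n : Zd d => K * ‖u n‖ + K * ‖g n‖) 2 := by
      have h3 : Memℓp (fun n : Zd d => ‖u n‖) 2 := (lp.memℓp u).norm
      have h4 : Memℓp (fun n : Zd d => ‖g n‖) 2 := (lp.memℓp g).norm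
      exact (h3.const_smul K).add (h4.const_smul K)
    refine h2.mono fun n => ?_
    have h5 := d2nn_nonneg n
    rw [norm_mul, Complex.norm_real, Real.norm_of_nonneg (by linarith), hg n, norm_mul]
    calc (1 + d2nn n) * ‖u n‖ ≤ K * (1 + ‖D n‖) * ‖u n‖ := by
          gcongr
          exact hD n
      _ = K * ‖u n‖ + K * (‖D n‖ * ‖u n‖) := by ring
  refine ⟨⟨_, hmem⟩, ?_⟩
  ext n
  rw [Dg_apply]
  change u n = d2wt n * (((1 + d2nn n : ℝ) : ℂ) * u n)
  have h5 := d2nn_nonneg n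
  rw [← mul_assoc, d2wt, inv_mul_cancel₀ (Complex.ofReal_ne_zero.2 (by linarith)), one_mul]

lemma d2_coord_analytic {X : Type*} [NormedAddCommGroup X] [NormedSpace ℂ X] {g : X → Cd d}
    {x₀ : X} (hg : AnalyticAt ℂ g x₀) (j : Fin d) : AnalyticAt ℂ (fun x => g x j) x₀ :=
  ((ContinuousLinearMap.proj (R := ℂ) (φ := fun _ : Fin d => ℂ) j).analyticAt (g x₀)).comp hg

lemma d2_bil_analytic {X : Type*} [NormedAddCommGroup X] [NormedSpace ℂ X] {g h : X → Cd d}
    {x₀ : X} (hg : AnalyticAt ℂ g x₀) (hh : AnalyticAt ℂ h x₀) :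
    AnalyticAt ℂ (fun x => bil (g x) (h x)) x₀ := by
  unfold bil
  exact Finset.analyticAt_fun_sum _ fun j _ =>
    (d2_coord_analytic hg j).mul (d2_coord_analytic hh j)

/-- If `D_S(k₀) + W` is invertible then it is for `k` near `k₀` and the Green function is
analytic. -/
theorem DS_analytic (hw : Summable fun n => ‖w n‖) (hc : 0 < c) (S : Finset (Zd d)) (k₀ : Cd d)
    {C : ℝ} (h : Inv w (DS c μ S k₀) C) (f : H2 d) (m : Zd d) :
    AnalyticAt ℂ (fun k => (grn w (DS c μ S k) f) m) k₀ ∧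
    ∀ᶠ k in 𝓝 k₀, ∃ C', Inv w (DS c μ S k) C' := by
  have ha : ∃ C, ∀ n : Zd d, ‖d2wt n‖ ≤ C := ⟨1, d2wt_le⟩
  have hb : ∀ n : Zd d, 0 < 1 + d2nn n := fun n => by have := d2nn_nonneg n; linarith
  have h0 : ∃ C, ∀ n : Zd d, ‖(if n ∈ S then 0 else d2wt n : ℂ)‖ ≤ C := by
    refine ⟨1, fun n => ?_⟩
    split_ifs
    · simp
    · exact d2wt_le n
  have h1 : ∀ j : Fin d, ∃ C, ∀ n : Zd d, ‖(if n ∈ S then 0 else (n j : ℂ) * d2wt n : ℂ)‖ ≤ C := by
    intro j
    refine ⟨1, fun n => ?_⟩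
    split_ifs
    · simp
    · rw [norm_mul, d2wt_norm, Complex.norm_intCast, ← div_eq_mul_inv, div_le_one (hb n)]
      have := d2_le_nn n j
      have h2 : |(n j : ℝ)| ^ 2 = (n j : ℝ) ^ 2 := sq_abs _
      nlinarith [sq_nonneg (|(n j : ℝ)| - 1)]
  have h2 : ∃ C, ∀ n : Zd d, ‖(if n ∈ S then (c : ℂ) * d2wt n else
      ((d2nn n : ℝ) : ℂ) * d2wt n : ℂ)‖ ≤ C := by
    refine ⟨max c 1, fun n => ?_⟩
    split_ifs
    · rw [norm_mul, Complex.norm_real, Real.norm_of_nonneg hc.le]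
      calc c * ‖d2wt n‖ ≤ c * 1 := by
            gcongr
            exact d2wt_le n
        _ ≤ max c 1 := by rw [mul_one]; exact le_max_left _ _
    · rw [norm_mul, d2wt_norm, Complex.norm_real, Real.norm_of_nonneg (d2nn_nonneg n),
        ← div_eq_mul_inv]
      refine le_trans ?_ (le_max_right _ _)
      rw [div_le_one (hb n)]
      linarith
  let T : Cd d → (H2 d →L[ℂ] H2 d) := fun k =>
    (bil k k - μ) • Dg _ h0 + (∑ j, (2 * k j) • Dg _ (h1 j)) + Dg _ h2 +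
      (Wop w hw).comp (Dg d2wt ha)
  refine d2_core (X := Cd d) d2wt ha d2wt_ne (T := T) ?_ k₀ ?_ ?_ h f m
  · intro k v n
    have e1 : (T k v) n = (bil k k - μ) * ((if n ∈ S then 0 else d2wt n) * v n) +
        (∑ j, (2 * k j) * ((if n ∈ S then 0 else (n j : ℂ) * d2wt n) * v n)) +
        (if n ∈ S then (c : ℂ) * d2wt n else ((d2nn n : ℝ) : ℂ) * d2wt n) * v n +
        ∑' m, w (n - m) * (d2wt m * v m) := by
      have e2 : (((∑ j, (2 * k j) • Dg _ (h1 j)) : H2 d →L[ℂ] H2 d) v) n =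
          ∑ j, (2 * k j) * ((if n ∈ S then 0 else (n j : ℂ) * d2wt n) * v n) := by
        have e3 : ∀ s : Finset (Fin d), (((∑ j ∈ s, (2 * k j) • Dg _ (h1 j)) :
            H2 d →L[ℂ] H2 d) v) n =
            ∑ j ∈ s, (2 * k j) * ((if n ∈ S then 0 else (n j : ℂ) * d2wt n) * v n) := by
          intro s
          classical
          induction s using Finset.induction_on with
          | empty => simp
          | insert j s hj ih =>
            rw [Finset.sum_insert hj, Finset.sum_insert hj, ← ih]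
            change (2 * k j) * (Dg _ (h1 j) v) n + _ = _
            rw [Dg_apply]
            rfl
        exact e3 Finset.univ
      change (bil k k - μ) * (Dg _ h0 v) n +
        (((∑ j, (2 * k j) • Dg _ (h1 j)) : H2 d →L[ℂ] H2 d) v) n + (Dg _ h2 v) n +
        (Wop w hw (Dg d2wt ha v)) n = _
      rw [e2, Dg_apply, Dg_apply, Wop_apply, d2_tsum]
    rw [e1]
    congr 1
    unfold DS
    by_cases hn : n ∈ S
    · simp only [if_pos hn, zero_mul, mul_zero, Finset.sum_const_zero, add_zero, zero_add]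
      ring
    · simp only [if_neg hn]
      rw [d2_q]
      have e4 : ∑ j, 2 * k j * ((n j : ℂ) * d2wt n * v n) =
          (∑ j, 2 * k j * (n j : ℂ)) * (d2wt n * v n) := by
        rw [Finset.sum_mul]
        apply Finset.sum_congr rfl
        intro j _
        ring
      rw [e4]
      ring
  · have e1 : AnalyticAt ℂ (fun k : Cd d => bil k k - μ) k₀ :=
      (d2_bil_analytic analyticAt_id analyticAt_id).sub analyticAt_const
    refine ((((e1.smul analyticAt_const).add ?_).add analyticAt_const).add analyticAt_const)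
    refine Finset.analyticAt_fun_sum _ fun j _ => ?_
    exact (analyticAt_const.mul (d2_coord_analytic analyticAt_id j)).smul analyticAt_const
  · intro k f u hu
    obtain ⟨K, hK, hKD⟩ := d2_DS_lower c μ S k
    exact d2_dom hw hKD ha hu

/-- the same for the local symbol, jointly in `(z, κ)` -/
theorem Dloc_analytic (L : ℕ) (z₀ : ℂ) (κ₀ : Cd d) (h : Adm w c (Dloc c L z₀ κ₀))
    (hs : ∀ m : Zd d, m ≠ 0 → ‖m‖ ≤ L → c < ‖z₀ + 2 * bil κ₀ (zc m) + bil (zc m) (zc m)‖) :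
    AnalyticAt ℂ (fun x : ℂ × Cd d => (grn w (Dloc c L x.1 x.2) (dlt 0)) 0) (z₀, κ₀) := by
  classical
  have hfin : {m : Zd d | m ≠ 0 ∧ ‖m‖ ≤ L}.Finite := by
    refine (Set.finite_Icc (fun _ => -(L : ℤ) : Zd d) (fun _ => (L : ℤ))).subset ?_
    rintro m ⟨_, hm⟩
    rw [pi_norm_le_iff_of_nonneg (by positivity)] at hm
    constructor
    · intro j
      have h1 := hm j
      rw [Int.norm_eq_abs, abs_le] at h1
      exact_mod_cast h1.1
    · intro j
      have h1 := hm j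
      rw [Int.norm_eq_abs, abs_le] at h1
      exact_mod_cast h1.2
  let B : Finset (Zd d) := hfin.toFinset
  have hB : ∀ m, m ∈ B ↔ m ≠ 0 ∧ ‖m‖ ≤ L := fun m => by simp [B]
  have ha : ∃ C, ∀ n : Zd d, ‖(fun _ => (1:ℂ)) n‖ ≤ C := ⟨1, fun n => by simp⟩
  have h1 : ∀ m : Zd d, ∃ C, ∀ n : Zd d, ‖(if n = m then 1 else 0 : ℂ)‖ ≤ C := by
    intro m
    refine ⟨1, fun n => ?_⟩
    split_ifs <;> simp
  have h2 : ∃ C, ∀ n : Zd d, ‖(fun _ => (c:ℂ)) n‖ ≤ C := ⟨‖(c:ℂ)‖, fun n => le_rfl⟩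
  let cf : Zd d → ℂ × Cd d → ℂ := fun m x => x.1 + 2 * bil x.2 (zc m) + bil (zc m) (zc m) - c
  let T : ℂ × Cd d → (H2 d →L[ℂ] H2 d) := fun x =>
    (∑ m ∈ B, cf m x • Dg _ (h1 m)) + Dg _ h2 + Wop w h.hw
  have key := d2_core (X := ℂ × Cd d) (w := w) (D := fun x => Dloc c L x.1 x.2)
    (fun _ => (1:ℂ)) ha (fun _ => one_ne_zero) (T := T) ?_ (z₀, κ₀) ?_ ?_ h.inv (dlt 0) 0
  · exact key.1
  · intro x v n
    have e3 : ∀ s : Finset (Zd d), (((∑ m ∈ s, cf m x • Dg _ (h1 m)) :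
        H2 d →L[ℂ] H2 d) v) n = ∑ m ∈ s, cf m x * ((if n = m then 1 else 0) * v n) := by
      intro s
      induction s using Finset.induction_on with
      | empty => simp
      | insert j s hj ih =>
        rw [Finset.sum_insert hj, Finset.sum_insert hj, ← ih]
        change cf j x * (Dg _ (h1 j) v) n + _ = _
        rw [Dg_apply]
        rfl
    change (((∑ m ∈ B, cf m x • Dg _ (h1 m)) : H2 d →L[ℂ] H2 d) v) n + (Dg _ h2 v) n +
      (Wop w h.hw v) n = _
    rw [e3, Dg_apply, Wop_apply]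
    simp only [one_mul]
    congr 1
    have e4 : ∑ m ∈ B, cf m x * ((if n = m then 1 else 0) * v n) =
        if n ∈ B then cf n x * v n else 0 := by
      by_cases hn : n ∈ B
      · rw [if_pos hn, Finset.sum_eq_single n]
        · simp
        · intro b _ hb
          rw [if_neg (Ne.symm hb)]
          ring
        · intro hn'
          exact absurd hn hn'
      · rw [if_neg hn]
        apply Finset.sum_eq_zero
        intro b hb
        rw [if_neg (by rintro rfl; exact hn hb)]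
        ring
    rw [e4]
    unfold Dloc
    by_cases hn0 : n = 0
    · rw [if_neg (by rw [hB]; tauto), if_pos hn0]
      ring
    · by_cases hnL : ‖n‖ ≤ L
      · rw [if_pos ((hB n).2 ⟨hn0, hnL⟩), if_neg hn0, if_pos hnL]
        simp only [cf]
        ring
      · rw [if_neg (by rw [hB]; tauto), if_neg hn0, if_neg hnL]
        ring
  · have e1 : AnalyticAt ℂ (fun x : ℂ × Cd d => x.1) (z₀, κ₀) := analyticAt_fst
    have e2 : AnalyticAt ℂ (fun x : ℂ × Cd d => x.2) (z₀, κ₀) := analyticAt_snd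
    have e6 : ∀ m : Zd d, AnalyticAt ℂ (cf m) (z₀, κ₀) := fun m =>
      (((e1.add (analyticAt_const.mul (d2_bil_analytic e2 analyticAt_const))).add
        analyticAt_const).sub analyticAt_const)
    have e5 : AnalyticAt ℂ (fun x : ℂ × Cd d => (∑ m ∈ B, cf m x • Dg _ (h1 m) :
        H2 d →L[ℂ] H2 d)) (z₀, κ₀) :=
      Finset.analyticAt_fun_sum _ fun m _ => (e6 m).smul analyticAt_const
    exact (e5.add analyticAt_const).add analyticAt_const
  · intro x f u hu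
    refine ⟨u, ?_⟩
    ext n
    rw [Dg_apply, one_mul]

end Fermi
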