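import Pool.Agent.Lib.Fermi.Scale

/-!
# Chunk D1: the operator `D + W` on `ℓ²(Z^d)`
-/

open scoped BigOperators Topology
open Set Filter

noncomputable section

namespace Fermi

variable {d : ℕ} {μ : ℂ} {w : Zd d → ℂ} {c : ℝ} {D : Zd d → ℂ}

/-- `ℓ²(Z^d)` -/
abbrev H2 (d : ℕ) := lp (fun _ : Zd d => ℂ) 2

/-- admissible (diagonally dominant) symbols -/
structure Adm (w : Zd d → ℂ) (c : ℝ) (D : Zd d → ℂ) : Prop where
  hw : Summable fun n => ‖w n‖
  hc : 4 * (∑' n, ‖w n‖) + 8 ≤ c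
  hD : ∀ n, c ≤ ‖D n‖

lemma two_toReal_pos : 0 < (2 : ENNReal).toReal := by norm_num

lemma H2.summable_sq (u : H2 d) : Summable fun n => ‖u n‖ ^ (2 : ENNReal).toReal :=
  (lp.memℓp u).summable two_toReal_pos

lemma H2.norm_apply_le (u : H2 d) (n : Zd d) : ‖u n‖ ≤ ‖u‖ :=
  lp.norm_apply_le_norm (by norm_num) u n

/-- the translate of `u` by `l` -/
def shiftv (l : Zd d) (u : H2 d) : H2 d :=
  ⟨fun n => u (n - l), memℓp_gen
    (((Equiv.subRight l).summable_iff (f := fun n => ‖u n‖ ^ (2 : ENNReal).toReal)).2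
      (H2.summable_sq u))⟩

lemma shiftv_apply (l : Zd d) (u : H2 d) (n : Zd d) : shiftv l u n = u (n - l) := rfl

lemma norm_shiftv (l : Zd d) (u : H2 d) : ‖shiftv l u‖ = ‖u‖ := by
  rw [lp.norm_eq_tsum_rpow two_toReal_pos, lp.norm_eq_tsum_rpow two_toReal_pos]
  congr 1
  exact (Equiv.subRight l).tsum_eq (fun n => ‖u n‖ ^ (2 : ENNReal).toReal)

/-- translation as a bounded operator -/
def ShiftOp (l : Zd d) : H2 d →L[ℂ] H2 d :=
  LinearMap.mkContinuous
    { toFun := shiftv l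
      map_add' := fun u v => by ext n; rfl
      map_smul' := fun a u => by ext n; rfl } 1
    (fun u => by simp [norm_shiftv])

lemma ShiftOp_apply (l : Zd d) (u : H2 d) (n : Zd d) : ShiftOp l u n = u (n - l) := rfl

lemma norm_ShiftOp_le (l : Zd d) : ‖(ShiftOp l : H2 d →L[ℂ] H2 d)‖ ≤ 1 :=
  LinearMap.mkContinuous_norm_le _ zero_le_one _

lemma norm_term_le (w : Zd d → ℂ) (l : Zd d) :
    ‖w l • (ShiftOp l : H2 d →L[ℂ] H2 d)‖ ≤ ‖w l‖ := by
  rw [norm_smul]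
  exact mul_le_of_le_one_right (norm_nonneg _) (norm_ShiftOp_le l)

lemma summable_terms (hw : Summable fun n => ‖w n‖) :
    Summable fun l => w l • (ShiftOp l : H2 d →L[ℂ] H2 d) :=
  Summable.of_norm_bounded hw (norm_term_le w)

/-- convolution with `w` as a bounded operator -/
def Wop (w : Zd d → ℂ) (_hw : Summable fun n => ‖w n‖) : H2 d →L[ℂ] H2 d :=
  ∑' l, w l • (ShiftOp l : H2 d →L[ℂ] H2 d)

lemma hasSum_Wop (hw : Summable fun n => ‖w n‖) (u : H2 d) (n : Zd d) :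
    HasSum (fun l => w l * u (n - l)) (Wop w hw u n) := by
  have h1 : HasSum (fun l => w l • (ShiftOp l : H2 d →L[ℂ] H2 d)) (Wop w hw) :=
    (summable_terms hw).hasSum
  have h2 := h1.mapL (((lp.evalCLM ℂ (fun _ : Zd d => ℂ) 2 n).comp
    (ContinuousLinearMap.apply ℂ (H2 d) u)))
  exact h2

lemma hasSum_conv (hw : Summable fun n => ‖w n‖) (u : H2 d) (n : Zd d) :
    HasSum (fun m => w (n - m) * u m) (Wop w hw u n) := by
  have h := ((Equiv.subLeft n).hasSum_iff (f := fun l => w l * u (n - l))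
    (a := Wop w hw u n)).2 (hasSum_Wop hw u n)
  refine h.congr_fun ?_
  intro m
  simp [Function.comp]

theorem Wop_apply (hw : Summable fun n => ‖w n‖) (u : H2 d) (n : Zd d) :
    Wop w hw u n = ∑' m, w (n - m) * u m := (hasSum_conv hw u n).tsum_eq.symm

theorem norm_Wop_le (hw : Summable fun n => ‖w n‖) : ‖Wop w hw‖ ≤ ∑' n, ‖w n‖ :=
  tsum_of_norm_bounded hw.hasSum (norm_term_le w)

lemma memlp_diag (f : Zd d → ℂ) {C : ℝ} (h : ∀ n, ‖f n‖ ≤ C) (u : H2 d) :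
    Memℓp (fun n => f n * u n) (2 : ENNReal) := by
  have hC : 0 ≤ C := (norm_nonneg _).trans (h 0)
  refine memℓp_gen (Summable.of_nonneg_of_le (fun n => by positivity) (fun n => ?_)
    ((H2.summable_sq u).mul_left (C ^ (2 : ENNReal).toReal)))
  rw [norm_mul, Real.mul_rpow (norm_nonneg _) (norm_nonneg _)]
  exact mul_le_mul_of_nonneg_right
    (Real.rpow_le_rpow (norm_nonneg _) (h n) two_toReal_pos.le) (by positivity)

lemma norm_diag_le (f : Zd d → ℂ) {C : ℝ} (h : ∀ n, ‖f n‖ ≤ C) (u v : H2 d)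
    (hv : ∀ n, v n = f n * u n) : ‖v‖ ≤ C * ‖u‖ := by
  have hC : 0 ≤ C := (norm_nonneg _).trans (h 0)
  have h1 : ‖v‖ ≤ ‖(C : ℂ) • u‖ := by
    refine lp.norm_mono (by norm_num) (fun n => ?_)
    rw [hv n, lp.coeFn_smul, Pi.smul_apply, norm_smul, norm_mul, Complex.norm_real,
      Real.norm_of_nonneg hC]
    exact mul_le_mul_of_nonneg_right (h n) (norm_nonneg _)
  rwa [norm_smul, Complex.norm_real, Real.norm_of_nonneg hC] at h1

/-- diagonal operator with bounded symbol -/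
def Dg (f : Zd d → ℂ) (hf : ∃ C, ∀ n, ‖f n‖ ≤ C) : H2 d →L[ℂ] H2 d :=
  LinearMap.mkContinuous
    { toFun := fun u => ⟨fun n => f n * u n, memlp_diag f hf.choose_spec u⟩
      map_add' := fun u v => by ext n; exact mul_add _ _ _
      map_smul' := fun a u => by ext n; exact mul_left_comm _ _ _ } hf.choose
    (fun u => norm_diag_le f hf.choose_spec u _ (fun _ => rfl))

theorem Dg_apply (f : Zd d → ℂ) (hf : ∃ C, ∀ n, ‖f n‖ ≤ C) (u : H2 d) (n : Zd d) :
    Dg f hf u n = f n * u n := rfl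

theorem norm_Dg_le (f : Zd d → ℂ) (hf : ∃ C, ∀ n, ‖f n‖ ≤ C) {C : ℝ} (hC : 0 ≤ C)
    (h : ∀ n, ‖f n‖ ≤ C) : ‖Dg f hf‖ ≤ C :=
  ContinuousLinearMap.opNorm_le_bound _ hC (fun u => norm_diag_le f h u _ (Dg_apply f hf u))

theorem summable_conv (hw : Summable fun n => ‖w n‖) (u : H2 d) (n : Zd d) :
    Summable fun m => w (n - m) * u m := (hasSum_conv hw u n).summable

/-- pointwise bound of the convolution -/
theorem norm_conv_le (hw : Summable fun n => ‖w n‖) (u : H2 d) (n : Zd d) :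
    ‖∑' m, w (n - m) * u m‖ ≤ (∑' n, ‖w n‖) * ‖u‖ := by
  rw [← Wop_apply hw]
  exact (H2.norm_apply_le _ n).trans
    (((Wop w hw).le_opNorm u).trans (mul_le_mul_of_nonneg_right (norm_Wop_le hw) (norm_nonneg _)))

theorem Sol.add {f g u v : H2 d} (hw : Summable fun n => ‖w n‖) (h : Sol w D f u)
    (h' : Sol w D g v) : Sol w D (f + g) (u + v) := by
  intro n
  have h1 := h n
  have h2 := h' n
  have h3 : ∑' m, w (n - m) * (u + v) m
      = (∑' m, w (n - m) * u m) + ∑' m, w (n - m) * v m := by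
    rw [← (summable_conv hw u n).tsum_add (summable_conv hw v n)]
    exact tsum_congr (fun m => by rw [lp.coeFn_add, Pi.add_apply, mul_add])
  rw [h3, lp.coeFn_add, lp.coeFn_add, Pi.add_apply, Pi.add_apply, ← h1, ← h2]
  ring

theorem Sol.smul {f u : H2 d} (a : ℂ) (h : Sol w D f u) : Sol w D (a • f) (a • u) := by
  intro n
  have h1 := h n
  have h3 : ∑' m, w (n - m) * (a • u) m = a * ∑' m, w (n - m) * u m := by
    rw [← tsum_mul_left]
    exact tsum_congr (fun m => by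
      rw [lp.coeFn_smul, Pi.smul_apply, smul_eq_mul]; ring)
  rw [h3, lp.coeFn_smul, lp.coeFn_smul, Pi.smul_apply, Pi.smul_apply, smul_eq_mul, smul_eq_mul,
    ← h1]
  ring

lemma Adm.c_pos (h : Adm w c D) : 0 < c := by
  have h1 : 0 ≤ ∑' n, ‖w n‖ := tsum_nonneg fun n => norm_nonneg _
  have := h.hc
  linarith

lemma Adm.D_ne (h : Adm w c D) (n : Zd d) : D n ≠ 0 := by
  intro h0
  have h1 := h.hD n
  rw [h0, norm_zero] at h1
  exact absurd h1 (not_le.2 h.c_pos)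

lemma Adm.inv_le (h : Adm w c D) (n : Zd d) : ‖(D n)⁻¹‖ ≤ c⁻¹ := by
  rw [norm_inv]
  exact inv_anti₀ h.c_pos (h.hD n)

/-- the inverse of the diagonal part -/
def Adm.Di (h : Adm w c D) : H2 d →L[ℂ] H2 d := Dg (fun n => (D n)⁻¹) ⟨c⁻¹, h.inv_le⟩

lemma Adm.norm_Di (h : Adm w c D) : ‖h.Di‖ ≤ c⁻¹ :=
  norm_Dg_le _ _ (inv_nonneg.2 h.c_pos.le) h.inv_le

lemma Adm.norm_K (h : Adm w c D) : ‖h.Di * Wop w h.hw‖ ≤ 1 / 4 := by
  have h1 : ‖h.Di * Wop w h.hw‖ ≤ c⁻¹ * ∑' n, ‖w n‖ :=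
    (ContinuousLinearMap.opNorm_comp_le _ _).trans
      (mul_le_mul h.norm_Di (norm_Wop_le h.hw) (norm_nonneg _) (inv_nonneg.2 h.c_pos.le))
  refine h1.trans ?_
  rw [inv_mul_le_iff₀ h.c_pos]
  have := h.hc
  linarith

lemma Adm.sol_iff (h : Adm w c D) {f u : H2 d} :
    Sol w D f u ↔ u + (h.Di * Wop w h.hw) u = h.Di f := by
  constructor
  · intro hu
    ext n
    have h1 := hu n
    have h2 : (u + (h.Di * Wop w h.hw) u) n = u n + (D n)⁻¹ * ∑' m, w (n - m) * u m := by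
      rw [lp.coeFn_add, Pi.add_apply, mul_apply_eq_comp, ← Wop_apply h.hw]
      rfl
    have h3 : (h.Di f) n = (D n)⁻¹ * f n := rfl
    rw [h2, h3, ← h1]
    field_simp [h.D_ne n]
  · intro hu n
    have h0 := congrArg (fun v : H2 d => v n) hu
    have h2 : (u + (h.Di * Wop w h.hw) u) n = u n + (D n)⁻¹ * ∑' m, w (n - m) * u m := by
      rw [lp.coeFn_add, Pi.add_apply, mul_apply_eq_comp, ← Wop_apply h.hw]
      rfl
    have h3 : (h.Di f) n = (D n)⁻¹ * f n := rfl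
    simp only [] at h0
    rw [h2, h3] at h0
    have h4 := congrArg (fun z => D n * z) h0
    simp only [mul_add, mul_inv_cancel_left₀ (h.D_ne n)] at h4
    exact h4

/-- uniqueness and bound -/
theorem Adm.bound (h : Adm w c D) {f u : H2 d} (hu : Sol w D f u) : ‖u‖ ≤ 2 / c * ‖f‖ := by
  have h1 := h.sol_iff.1 hu
  have h2 : u = h.Di f - (h.Di * Wop w h.hw) u := by rw [← h1]; abel
  have h3 : ‖u‖ ≤ c⁻¹ * ‖f‖ + 1 / 4 * ‖u‖ := by
    calc ‖u‖ = ‖h.Di f - (h.Di * Wop w h.hw) u‖ := by rw [← h2]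
      _ ≤ ‖h.Di f‖ + ‖(h.Di * Wop w h.hw) u‖ := norm_sub_le _ _
      _ ≤ c⁻¹ * ‖f‖ + 1 / 4 * ‖u‖ := by
          refine add_le_add ?_ ?_
          · exact (h.Di.le_opNorm f).trans
              (mul_le_mul_of_nonneg_right h.norm_Di (norm_nonneg _))
          · exact ((h.Di * Wop w h.hw).le_opNorm u).trans
              (mul_le_mul_of_nonneg_right h.norm_K (norm_nonneg _))
  have h4 : 0 ≤ c⁻¹ * ‖f‖ := mul_nonneg (inv_nonneg.2 h.c_pos.le) (norm_nonneg _)
  rw [div_eq_mul_inv]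
  linarith

theorem Adm.unique (h : Adm w c D) {f u v : H2 d} (hu : Sol w D f u) (hv : Sol w D f v) :
    u = v := by
  have h1 : Sol w D (f + (-1 : ℂ) • f) (u + (-1 : ℂ) • v) := hu.add h.hw (hv.smul (-1))
  have h2 := h.bound h1
  have h3 : f + (-1 : ℂ) • f = 0 := by rw [neg_one_smul]; abel
  rw [h3, norm_zero, mul_zero] at h2
  have h4 : u + (-1 : ℂ) • v = 0 := norm_le_zero_iff.1 h2
  rw [neg_one_smul] at h4
  exact eq_of_sub_eq_zero (by rw [sub_eq_add_neg]; exact h4)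

theorem Adm.exists_sol (h : Adm w c D) (f : H2 d) : ∃ u, Sol w D f u := by
  set K : H2 d →L[ℂ] H2 d := h.Di * Wop w h.hw with hK
  have hlt : ‖-K‖ < 1 := by
    rw [norm_neg]
    exact lt_of_le_of_lt h.norm_K (by norm_num)
  set U := Units.oneSub (-K) hlt with hU
  refine ⟨(↑U⁻¹ : H2 d →L[ℂ] H2 d) (h.Di f), h.sol_iff.2 ?_⟩
  have h1 : (U : H2 d →L[ℂ] H2 d) = 1 + K := by rw [hU, Units.val_oneSub, sub_neg_eq_add]
  have h2 : (U : H2 d →L[ℂ] H2 d) * (↑U⁻¹ : H2 d →L[ℂ] H2 d) = 1 := U.mul_inv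
  have h3 := congrArg (fun T : H2 d →L[ℂ] H2 d => T (h.Di f)) h2
  simp only [mul_apply_eq_comp, one_apply_eq_self] at h3
  rw [h1] at h3
  exact h3

theorem Adm.grn_spec (h : Adm w c D) (f : H2 d) : Sol w D f (grn w D f) := by
  have h1 := h.exists_sol f
  unfold grn
  rw [dif_pos h1]
  exact h1.choose_spec

theorem Adm.grn_eq (h : Adm w c D) {f u : H2 d} (hu : Sol w D f u) : grn w D f = u :=
  h.unique (h.grn_spec f) hu

theorem Adm.norm_grn (h : Adm w c D) (f : H2 d) : ‖grn w D f‖ ≤ 2 / c * ‖f‖ :=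
  h.bound (h.grn_spec f)

/-- translation covariance -/
theorem Adm.grn_shift (h : Adm w c D) (n : Zd d) :
    (grn w (fun m => D (m - n)) (dlt n)) n = (grn w D (dlt 0)) 0 := by
  have h' : Adm w c (fun m => D (m - n)) := ⟨h.hw, h.hc, fun m => h.hD (m - n)⟩
  have hs := h.grn_spec (dlt 0)
  have h1 : Sol w (fun m => D (m - n)) (dlt n) (shiftv n (grn w D (dlt 0))) := by
    intro k
    have h2 := hs (k - n)
    have h3 : ∑' m, w (k - m) * shiftv n (grn w D (dlt 0)) m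
        = ∑' m, w (k - n - m) * (grn w D (dlt 0)) m := by
      rw [← (Equiv.subRight n).tsum_eq (fun m => w (k - n - m) * (grn w D (dlt 0)) m)]
      refine tsum_congr (fun m => ?_)
      rw [shiftv_apply]
      simp [Equiv.subRight]
    rw [h3, shiftv_apply]
    have h4 : (dlt n : H2 d) k = (dlt 0 : H2 d) (k - n) := by
      unfold dlt
      rw [lp.single_apply, lp.single_apply]
      by_cases hk : k = n
      · subst hk; simp
      · rw [Pi.single_eq_of_ne hk, Pi.single_eq_of_ne (sub_ne_zero.2 hk)]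
    rw [h4]
    exact h2
  rw [h'.grn_eq h1, shiftv_apply, sub_self]

/-- The operator `D + W` is invertible with bound `C`. -/
def Inv (w : Zd d → ℂ) (D : Zd d → ℂ) (C : ℝ) : Prop :=
  0 ≤ C ∧ (∀ f : H2 d, ∃ u, Sol w D f u) ∧ ∀ f u : H2 d, Sol w D f u → ‖u‖ ≤ C * ‖f‖

theorem Adm.inv (h : Adm w c D) : Inv w D (2 / c) :=
  ⟨div_nonneg (by norm_num) h.c_pos.le, h.exists_sol, fun _ _ hu => h.bound hu⟩

/-- the symbol regularised on `S` -/
def DS (c : ℝ) (μ : ℂ) (S : Finset (Zd d)) (k : Cd d) : Zd d → ℂ :=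
  fun n => if n ∈ S then (c : ℂ) else q μ k n

end Fermi
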