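import Pool.Agent.Lib.Fermi.OpEff
import Pool.Agent.Lib.Fermi.OpBlock

/-!
# Chunk D7, part a: elementary facts on the symbols near a regular point
-/

open scoped BigOperators Topology
open Set Filter

noncomputable section

namespace Fermi

variable {d : ℕ} {μ : ℂ} {w : Zd d → ℂ}

/-! ### the bilinear form -/

theorem lmx_bil_add_left (a b c : Cd d) : bil (a + b) c = bil a c + bil b c := by
  simp [bil, add_mul, Finset.sum_add_distrib]

theorem lmx_bil_add_right (a b c : Cd d) : bil a (b + c) = bil a b + bil a c := by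
  simp [bil, mul_add, Finset.sum_add_distrib]

theorem lmx_bil_sub_left (a b c : Cd d) : bil (a - b) c = bil a c - bil b c := by
  simp [bil, sub_mul, Finset.sum_sub_distrib]

theorem lmx_bil_sub_right (a b c : Cd d) : bil a (b - c) = bil a b - bil a c := by
  simp [bil, mul_sub, Finset.sum_sub_distrib]

theorem lmx_bil_comm (a b : Cd d) : bil a b = bil b a := by
  simp only [bil]
  exact Finset.sum_congr rfl fun j _ => mul_comm _ _

theorem lmx_bil_smul_left (z : ℂ) (a b : Cd d) : bil (z • a) b = z * bil a b := by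
  simp [bil, Finset.mul_sum, mul_assoc]

theorem lmx_bil_smul_right (z : ℂ) (a b : Cd d) : bil a (z • b) = z * bil a b := by
  rw [lmx_bil_comm, lmx_bil_smul_left, lmx_bil_comm]

theorem lmx_norm_bil (a b : Cd d) : ‖bil a b‖ ≤ d * ‖a‖ * ‖b‖ := by
  calc ‖bil a b‖ ≤ ∑ j, ‖a j * b j‖ := norm_sum_le _ _
    _ ≤ ∑ _j : Fin d, ‖a‖ * ‖b‖ := Finset.sum_le_sum fun j _ => by
        rw [norm_mul]
        exact mul_le_mul (norm_le_pi_norm a j) (norm_le_pi_norm b j) (norm_nonneg _)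
          (norm_nonneg _)
    _ = _ := by simp; ring

theorem lmx_zc_add (n m : Zd d) : zc (n + m) = zc n + zc m := by
  funext j; simp [zc]

theorem lmx_zc_zero : zc (0 : Zd d) = 0 := by
  funext j; simp [zc]

theorem lmx_q_diff (p k k' : Cd d) (n : Zd d) :
    q μ k n - q μ k' n = 2 * bil (p + zc n) (k - k') + bil (k - k') ((k - p) + (k' - p)) := by
  simp only [q, bil, Finset.mul_sum, ← Finset.sum_add_distrib, sub_sub_sub_cancel_right]
  rw [← Finset.sum_sub_distrib]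
  refine Finset.sum_congr rfl fun j _ => ?_
  simp only [Pi.add_apply, Pi.sub_apply]
  ring

theorem lmx_q_add (k : Cd d) (n m : Zd d) :
    q μ k (n + m) = q μ k n + 2 * bil (k + zc n) (zc m) + bil (zc m) (zc m) := by
  simp only [q, lmx_zc_add, lmx_bil_add_left, lmx_bil_add_right, lmx_bil_comm (zc m)]
  rw [lmx_bil_comm (zc n) k]
  ring

theorem lmx_q_zero (k : Cd d) (n : Zd d) : q μ (k + zc n) 0 = q μ k n := by
  simp [q, lmx_zc_zero]

/-! ### euclidean norms -/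

theorem lmx_nsq_nonneg (b : Cd d) : 0 ≤ nsq b := Finset.sum_nonneg fun _ _ => by positivity

/-- the euclidean norm -/
def en (b : Cd d) : ℝ := Real.sqrt (nsq b)

theorem en_nonneg (b : Cd d) : 0 ≤ en b := Real.sqrt_nonneg _

theorem en_sq (b : Cd d) : en b ^ 2 = nsq b := Real.sq_sqrt (lmx_nsq_nonneg b)

theorem en_eq (b : Cd d) : en b = ‖(WithLp.toLp 2 b : EuclideanSpace ℂ (Fin d))‖ := by
  rw [EuclideanSpace.norm_eq]; rfl

theorem en_add (a b : Cd d) : en (a + b) ≤ en a + en b := by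
  rw [en_eq, en_eq, en_eq, WithLp.toLp_add]; exact norm_add_le _ _

theorem en_sub (a b : Cd d) : en (a - b) ≤ en a + en b := by
  rw [en_eq, en_eq, en_eq, WithLp.toLp_sub]; exact norm_sub_le _ _

theorem en_smul (z : ℂ) (a : Cd d) : en (z • a) = ‖z‖ * en a := by
  rw [en_eq, en_eq, WithLp.toLp_smul, norm_smul]

theorem norm_bil_en (a b : Cd d) : ‖bil a b‖ ≤ en a * en b := by
  calc ‖bil a b‖ ≤ ∑ j, ‖a j * b j‖ := norm_sum_le _ _
    _ = ∑ j, ‖a j‖ * ‖b j‖ := by simp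
    _ ≤ _ := Real.sum_mul_le_sqrt_mul_sqrt _ _ _

theorem norm_le_en (b : Cd d) : ‖b‖ ≤ en b := by
  refine (pi_norm_le_iff_of_nonneg (en_nonneg b)).2 fun i => ?_
  apply Real.le_sqrt_of_sq_le
  exact Finset.single_le_sum (f := fun i => ‖b i‖ ^ 2) (fun _ _ => by positivity)
    (Finset.mem_univ i)

theorem nsq_le_norm (b : Cd d) : nsq b ≤ d * ‖b‖ ^ 2 := by
  calc nsq b ≤ ∑ _j : Fin d, ‖b‖ ^ 2 := Finset.sum_le_sum fun j _ => by
        have := norm_le_pi_norm b j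
        have h0 := norm_nonneg (b j)
        nlinarith
    _ = _ := by simp

theorem norm_zc (n : Zd d) : ‖zc n‖ = ‖n‖ := by
  apply le_antisymm
  · refine (pi_norm_le_iff_of_nonneg (norm_nonneg _)).2 fun i => ?_
    have := norm_le_pi_norm n i
    simpa [zc, Int.norm_eq_abs] using this
  · refine (pi_norm_le_iff_of_nonneg (norm_nonneg _)).2 fun i => ?_
    have := norm_le_pi_norm (zc n) i
    simpa [zc, Int.norm_eq_abs] using this

theorem bil_zc_self (n : Zd d) : bil (zc n) (zc n) = ((nsq (zc n) : ℝ) : ℂ) := by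
  simp only [bil, nsq, zc]
  push_cast
  refine Finset.sum_congr rfl fun j _ => ?_
  have h : (‖((n j : ℤ) : ℂ)‖ : ℝ) = |((n j : ℤ) : ℝ)| := by simp
  rw [h, ← Complex.ofReal_pow, sq_abs]
  push_cast
  ring

/-- the key geometric inequality: an integer vector is far from the complex line of an almost
isotropic vector -/
theorem en_sub_smul (κ x : Cd d) (l : ℂ) (hx : bil x x = ((nsq x : ℝ) : ℂ))
    (hκ : ‖bil κ κ‖ ≤ 1 / 1000 * nsq κ) : 33 / 100 * en x ≤ en (x - l • κ) := by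
  by_contra hcon
  push Not at hcon
  set ρ := x - l • κ with hρ
  have hX := en_nonneg x
  have hK := en_nonneg κ
  have hE := en_nonneg ρ
  have e1 : bil x x = l ^ 2 * bil κ κ + 2 * l * bil κ ρ + bil ρ ρ := by
    have : x = l • κ + ρ := by rw [hρ]; abel
    rw [this]
    simp only [lmx_bil_add_left, lmx_bil_add_right, lmx_bil_smul_left, lmx_bil_smul_right,
      lmx_bil_comm ρ κ]
    ring
  have e2 : ‖bil x x‖ = en x ^ 2 := by
    rw [hx, en_sq, Complex.norm_real, Real.norm_eq_abs, abs_of_nonneg (lmx_nsq_nonneg x)]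
  have e3 : ‖l‖ * en κ ≤ en x + en ρ := by
    rw [← en_smul]
    have : l • κ = x - ρ := by rw [hρ]; abel
    rw [this]; exact en_sub _ _
  have e4 : ‖bil x x‖ ≤ ‖l‖ ^ 2 * ‖bil κ κ‖ + 2 * ‖l‖ * (en κ * en ρ) + en ρ * en ρ := by
    rw [e1]
    refine (norm_add₃_le).trans ?_
    gcongr
    · rw [norm_mul, norm_pow]
    · rw [norm_mul, norm_mul]
      simp only [RCLike.norm_ofNat]
      gcongr
      exact norm_bil_en _ _
    · exact norm_bil_en _ _
  have e5 : ‖l‖ ^ 2 * ‖bil κ κ‖ ≤ 1 / 1000 * (‖l‖ * en κ) ^ 2 := by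
    rw [mul_pow, en_sq]
    have : 0 ≤ ‖l‖ ^ 2 := by positivity
    nlinarith
  set Y := ‖l‖ * en κ with hY
  have hY0 : 0 ≤ Y := by positivity
  have hXpos : 0 < en x := by
    by_contra h
    have : en x = 0 := le_antisymm (not_lt.1 h) hX
    rw [this] at hcon
    linarith
  have e6 : Y ≤ 133 / 100 * en x := by linarith
  have e7 : en x ^ 2 ≤ 1 / 1000 * Y ^ 2 + 2 * (Y * en ρ) + en ρ * en ρ := by
    rw [← e2]
    refine e4.trans ?_
    have : 2 * ‖l‖ * (en κ * en ρ) = 2 * (Y * en ρ) := by rw [hY]; ring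
    rw [this]
    linarith
  have e8 : Y ^ 2 ≤ (133 / 100 * en x) ^ 2 := by gcongr
  have e9 : Y * en ρ ≤ (133 / 100 * en x) * (33 / 100 * en x) := by
    apply mul_le_mul e6 hcon.le hE (by positivity)
  have e10 : en ρ * en ρ ≤ (33 / 100 * en x) * (33 / 100 * en x) := by
    apply mul_le_mul hcon.le hcon.le hE (by positivity)
  nlinarith [mul_pos hXpos hXpos]

/-! ### size of `k + n` in terms of the symbol -/

theorem lmx_nsq_eq (k : Cd d) (n : Zd d) :
    nsq (k + zc n) = (q μ k n + μ).re + 2 * dr (im k) (im k) := by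
  simp only [nsq, q, bil, dr, im, sub_add_cancel, Complex.re_sum, Finset.mul_sum]
  rw [← Finset.sum_add_distrib]
  refine Finset.sum_congr rfl fun j _ => ?_
  rw [← Complex.normSq_eq_norm_sq, Complex.normSq_apply]
  simp [zc]
  ring

theorem lmx_nsq_le (k : Cd d) (n : Zd d) :
    nsq (k + zc n) ≤ ‖q μ k n‖ + ‖μ‖ + 2 * dr (im k) (im k) := by
  rw [lmx_nsq_eq (μ := μ)]
  have := (Complex.re_le_norm (q μ k n + μ)).trans (norm_add_le _ _)
  linarith

theorem lmx_le_nsq (k : Cd d) (n : Zd d) :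
    2 * dr (im k) (im k) - (‖q μ k n‖ + ‖μ‖) ≤ nsq (k + zc n) := by
  rw [lmx_nsq_eq (μ := μ)]
  have h1 := Complex.abs_re_le_norm (q μ k n + μ)
  have h2 := norm_add_le (q μ k n) μ
  have h3 := neg_abs_le (q μ k n + μ).re
  linarith

/-! ### constants -/

namespace Sc

variable (P : Sc d μ w)

include P

theorem x_hd : (3 : ℝ) ≤ d := by exact_mod_cast P.hd

theorem x_L : 10 * (d : ℝ) ≤ P.L := by exact_mod_cast P.hL

theorem x_one : (1 : ℝ) ≤ P.Λ := le_trans (by norm_num) P.hΛ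

theorem x_pos : (0 : ℝ) < P.Λ := lt_of_lt_of_le one_pos P.x_one

theorem x_d : 10000 * (d : ℝ) ^ 4 ≤ P.Λ := by
  have h1 := P.x_hd
  have h2 := P.x_L
  have h3 : (10 * (d : ℝ)) ^ 2 ≤ (P.L : ℝ) ^ 2 := by gcongr
  have h4 := P.hLΛ
  nlinarith [sq_nonneg (d : ℝ)]

theorem x_d1 : 10000 * (d : ℝ) ≤ P.Λ := by
  have h1 := P.x_hd
  have h2 := P.x_d
  have : (d : ℝ) ≤ (d : ℝ) ^ 4 := by
    calc (d : ℝ) = d ^ 1 := (pow_one _).symm
      _ ≤ d ^ 4 := pow_le_pow_right₀ (by linarith) (by norm_num)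
  linarith

theorem x_d2 : 10000 * (d : ℝ) ^ 2 ≤ P.Λ := by
  have h1 := P.x_hd
  have h2 := P.x_d
  have : (d : ℝ) ^ 2 ≤ (d : ℝ) ^ 4 := pow_le_pow_right₀ (by linarith) (by norm_num)
  linarith

theorem x_c : 8 ≤ P.c := by
  have := P.hc
  have h : 0 ≤ ∑' n, ‖w n‖ := tsum_nonneg fun _ => norm_nonneg _
  linarith

theorem x_w (n : Zd d) : ‖w n‖ ≤ P.c / 4 := by
  have h1 := P.hc
  have h2 : ‖w n‖ ≤ ∑' n, ‖w n‖ := P.hw.le_tsum n fun _ _ => norm_nonneg _
  linarith

theorem x_r : 0 < P.r := inv_pos.2 (pow_pos P.x_pos _)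

theorem x_rr : P.r * P.Λ ^ (300 * d + 300) = 1 :=
  inv_mul_cancel₀ (pow_pos P.x_pos _).ne'

theorem x_r1 (j : ℕ) (hj : j ≤ 300) : P.r * P.Λ ^ j ≤ (P.Λ ^ 900)⁻¹ := by
  have h1 := P.x_one
  have h2 := P.x_pos
  rw [le_inv_comm₀ (by have := P.x_r; positivity) (by positivity)]
  rw [← one_div, le_div_iff₀ (by have := P.x_r; positivity)]
  calc P.Λ ^ 900 * (P.r * P.Λ ^ j) = P.r * P.Λ ^ (900 + j) := by rw [pow_add]; ring
    _ ≤ P.r * P.Λ ^ (300 * d + 300) := by
        have hd := P.hd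
        exact mul_le_mul_of_nonneg_left (pow_le_pow_right₀ h1 (by omega)) P.x_r.le
    _ = 1 := P.x_rr

theorem x_s : 0 < P.s := by
  have := P.x_r
  have := P.x_pos
  unfold Sc.s; positivity

theorem x_ε : 0 < P.ε := lt_of_lt_of_le (by positivity) P.hε1

theorem x_εs : P.ε * P.N * P.Λ ^ 100 ≤ P.s := by
  have h1 := P.x_one
  have h2 := P.x_pos
  have h3 := P.x_ε
  have h4 : P.ε * P.Λ ^ (3000 * d + 3000) ≤ 1 := by
    refine le_trans ?_ P.hε
    exact mul_le_mul_of_nonneg_left (pow_le_pow_right₀ h1 P.hp) h3.le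
  have h5 : (P.ε * P.N * P.Λ ^ 100) * (P.Λ ^ (300 * d + 300)) ^ 2 ≤
      P.s * (P.Λ ^ (300 * d + 300)) ^ 2 := by
    have e1 : P.s * (P.Λ ^ (300 * d + 300)) ^ 2 = P.Λ ^ 75 := by
      unfold Sc.s
      calc P.Λ ^ 75 * P.r ^ 2 * (P.Λ ^ (300 * d + 300)) ^ 2
          = P.Λ ^ 75 * (P.r * P.Λ ^ (300 * d + 300)) ^ 2 := by ring
        _ = _ := by rw [P.x_rr]; simp
    rw [e1]
    calc (P.ε * P.N * P.Λ ^ 100) * (P.Λ ^ (300 * d + 300)) ^ 2
        = P.ε * P.Λ ^ (27 * d + 100 + 2 * (300 * d + 300)) := by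
          unfold Sc.N
          rw [← pow_mul, pow_add, pow_add]; ring
      _ ≤ P.ε * P.Λ ^ (3000 * d + 3000) :=
          mul_le_mul_of_nonneg_left (pow_le_pow_right₀ h1 (by omega)) h3.le
      _ ≤ 1 := h4
      _ ≤ P.Λ ^ 75 := one_le_pow₀ h1
  exact le_of_mul_le_mul_right h5 (by positivity)

theorem x_N : 1 ≤ P.N := one_le_pow₀ P.x_one

end Sc

end Fermi
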