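import Pool.Agent.Lib.Fermi.OpLMb

/-!
# Chunk D7, part c: the effective function near a regular point, comparison of Green functions
-/

open scoped BigOperators Topology
open Set Filter

noncomputable section

namespace Fermi

variable {d : ℕ} {μ : ℂ} {w : Zd d → ℂ} {P : Sc d μ w} {p0 : Cd d}

theorem Ehat_eq (P : Sc d μ w) (k : Cd d) (n : Zd d) :
    Ehat P (k + zc n) = q μ k n + w 0 + Hh P (q μ k n) (k + zc n) := by
  rw [Ehat, lmx_q_zero]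

theorem eff_taylor (h : Regular P p0) {n : Zd d} (hn : ‖q μ p0 n‖ < 2 * P.c) :
    ∃ (α : ℂ) (β : Cd d), ‖α‖ ≤ (P.Λ ^ 6)⁻¹ ∧ ‖β‖ ≤ (P.Λ ^ 2)⁻¹ ∧
      ∀ k k', ‖k - p0‖ ≤ P.r → ‖k' - p0‖ ≤ P.r →
        ‖Ehat P (k + zc n) - Ehat P (k' + zc n) -
          bil ((1 + α) • ((2 : ℂ) • (p0 + zc n)) + β) (k - k')‖ ≤
          P.Λ ^ 60 * P.r * ‖k - k'‖ := by
  obtain ⟨α, β, hα, hβ, hT⟩ := Hh_taylor P (Cl_of0 h hn)
  refine ⟨α, β, hα, hβ, fun k k' hk hk' => ?_⟩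
  have hr := P.x_r
  have hΛ := P.x_one
  have hΛ0 := P.x_pos
  have ht1 : P.Λ ^ 27 * P.r ≤ 1 := by
    have h1 := P.x_r54
    have h2 : P.Λ ^ 27 ≤ P.Λ ^ 54 := pow_le_pow_right₀ hΛ (by norm_num)
    nlinarith
  have h27 : 1 ≤ P.Λ ^ 27 := one_le_pow₀ hΛ
  have hrt : P.r ≤ P.Λ ^ 27 * P.r := by nlinarith
  have hpp : ‖p0 - p0‖ ≤ P.r := by simpa using hr.le
  have hq1 : ‖q μ k n - q μ p0 n‖ ≤ P.Λ ^ 27 * P.r :=
    (q_lip_res h hn hk hpp).trans (by gcongr)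
  have hq2 : ‖q μ k' n - q μ p0 n‖ ≤ P.Λ ^ 27 * P.r :=
    (q_lip_res h hn hk' hpp).trans (by gcongr)
  have key := hT (q μ k n) (q μ k' n) (k + zc n) (k' + zc n) (P.Λ ^ 27 * P.r) (by positivity)
    ht1 hq1 hq2 (by rw [add_sub_add_right_eq_sub]; exact hk.trans hrt)
    (by rw [add_sub_add_right_eq_sub]; exact hk'.trans hrt)
  rw [add_sub_add_right_eq_sub] at key
  set D := k - k' with hD
  have hqq := q_lip_res h hn hk hk'
  rw [← hD] at hqq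
  have hqd := lmx_q_diff (μ := μ) p0 k k' n
  rw [← hD] at hqd
  set e := bil D ((k - p0) + (k' - p0)) with he
  have hen : ‖e‖ ≤ d * ‖D‖ * (2 * P.r) := by
    refine (lmx_norm_bil _ _).trans ?_
    gcongr
    exact (norm_add_le _ _).trans (by linarith)
  have hid : Ehat P (k + zc n) - Ehat P (k' + zc n) -
      bil ((1 + α) • ((2 : ℂ) • (p0 + zc n)) + β) D =
      (Hh P (q μ k n) (k + zc n) - Hh P (q μ k' n) (k' + zc n) - α * (q μ k n - q μ k' n)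
        - bil β D) + (1 + α) * e := by
    rw [Ehat_eq, Ehat_eq, lmx_bil_add_left, lmx_bil_smul_left, lmx_bil_smul_left]
    have : q μ k n = q μ k' n + (2 * bil (p0 + zc n) D + e) := by rw [← hqd]; ring
    rw [this]
    ring
  rw [hid]
  have hα2 : ‖1 + α‖ ≤ 2 := by
    refine (norm_add_le _ _).trans ?_
    have : (P.Λ ^ 6)⁻¹ ≤ 1 := inv_le_one_of_one_le₀ (one_le_pow₀ hΛ)
    rw [norm_one]; linarith
  have hDn := norm_nonneg D
  have h1 : ‖(1 + α) * e‖ ≤ 2 * (d * ‖D‖ * (2 * P.r)) := by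
    rw [norm_mul]; gcongr
  refine (norm_add_le _ _).trans ?_
  have h2 : P.Λ ^ 27 * P.r * (‖q μ k n - q μ k' n‖ + ‖D‖) ≤
      P.Λ ^ 27 * P.r * (P.Λ ^ 27 * ‖D‖ + ‖D‖) := by gcongr
  have h3 : P.Λ ^ 27 * P.r * (P.Λ ^ 27 * ‖D‖ + ‖D‖) + 2 * (d * ‖D‖ * (2 * P.r)) =
      (P.Λ ^ 27 * (P.Λ ^ 27 + 1) + 4 * d) * P.r * ‖D‖ := by ring
  have h4 : P.Λ ^ 27 * (P.Λ ^ 27 + 1) + 4 * d ≤ P.Λ ^ 60 := by
    have e1 : (4 : ℝ) * d ≤ P.Λ ^ 54 := by
      have := P.x_d1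
      have h5 : P.Λ ≤ P.Λ ^ 54 := by
        calc P.Λ = P.Λ ^ 1 := (pow_one _).symm
          _ ≤ P.Λ ^ 54 := pow_le_pow_right₀ hΛ (by norm_num)
      linarith
    have e2 : P.Λ ^ 27 * (P.Λ ^ 27 + 1) ≤ 2 * P.Λ ^ 54 := by
      have : P.Λ ^ 54 = P.Λ ^ 27 * P.Λ ^ 27 := by ring
      rw [this]; nlinarith
    have e3 : 3 * P.Λ ^ 54 ≤ P.Λ ^ 60 := by
      have : P.Λ ^ 60 = P.Λ ^ 6 * P.Λ ^ 54 := by ring
      rw [this]
      have h6 : 3 ≤ P.Λ ^ 6 := by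
        have := P.hΛ
        calc (3 : ℝ) ≤ P.Λ := by linarith
          _ = P.Λ ^ 1 := (pow_one _).symm
          _ ≤ P.Λ ^ 6 := pow_le_pow_right₀ hΛ (by norm_num)
      gcongr
    linarith
  calc _ ≤ P.Λ ^ 27 * P.r * (P.Λ ^ 27 * ‖D‖ + ‖D‖) + 2 * (d * ‖D‖ * (2 * P.r)) := by
        gcongr
        exact key.trans h2
    _ = (P.Λ ^ 27 * (P.Λ ^ 27 + 1) + 4 * d) * P.r * ‖D‖ := h3
    _ ≤ P.Λ ^ 60 * P.r * ‖D‖ := by gcongr

/-- the error of the affine approximation -/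
def dlta (P : Sc d μ w) : ℝ := P.Λ ^ 60 * P.r ^ 2

theorem dlta_s (P : Sc d μ w) : P.Λ ^ 15 * dlta P = P.s := by
  unfold dlta Sc.s; ring

theorem dlta_pos (P : Sc d μ w) : 0 < dlta P := by
  have := P.x_r
  have := P.x_pos
  unfold dlta; positivity

theorem dlta_le (P : Sc d μ w) : 1000 * dlta P ≤ P.s := by
  rw [← dlta_s P]
  have h1 : 1000 ≤ P.Λ ^ 15 := by
    have := P.hΛ
    calc (1000 : ℝ) ≤ P.Λ := by linarith
      _ = P.Λ ^ 1 := (pow_one _).symm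
      _ ≤ P.Λ ^ 15 := pow_le_pow_right₀ P.x_one (by norm_num)
  have := dlta_pos P
  gcongr

/-! ### the diagonal Green function -/

theorem c_lt_G (P : Sc d μ w) : P.c < 9 / 10 * P.G := by
  have h1 := P.hcΛ
  have h2 := P.hΛ
  have h4 : P.G = P.Λ * P.Λ ^ 4 := by unfold Sc.G; ring
  have h5 : 2 ≤ P.Λ ^ 4 := by
    calc (2 : ℝ) ≤ P.Λ := by linarith
      _ = P.Λ ^ 1 := (pow_one _).symm
      _ ≤ P.Λ ^ 4 := pow_le_pow_right₀ P.x_one (by norm_num)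
  rw [h4]
  nlinarith

theorem gam_E (h : Regular P p0) {n : Zd d} (hn : ‖q μ p0 n‖ < 2 * P.c) {k : Cd d}
    (hk : ‖k - p0‖ ≤ P.r) :
    1 / (2 * P.c) ≤ ‖gam P (q μ k n) (k + zc n)‖ ∧ ‖gam P (q μ k n) (k + zc n)‖ ≤ 2 / P.c ∧
    1 + (q μ k n - P.c) * gam P (q μ k n) (k + zc n) =
      gam P (q μ k n) (k + zc n) * Ehat P (k + zc n) := by
  have hG := G_nonneg P
  have hC := (Cl_of h hn hk).mono (g' := P.G / 2) (by linarith)
  obtain ⟨h1, h2⟩ := gam_bounds P hC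
  refine ⟨h1, h2, ?_⟩
  have hc := P.x_c
  have h0 : gam P (q μ k n) (k + zc n) ≠ 0 := by
    intro h0
    rw [h0, norm_zero] at h1
    have : 0 < 1 / (2 * P.c) := by positivity
    linarith
  rw [Ehat_eq, Hh]
  field_simp
  ring

theorem Dloc_shift_adm {z : ℂ} {κ : Cd d} (h : Adm w P.c (Dloc P.c P.L z κ)) (n : Zd d) :
    Adm w P.c (fun m => Dloc P.c P.L z κ (m - n)) :=
  ⟨h.hw, h.hc, fun m => h.hD (m - n)⟩

theorem gS_near (h : Regular P p0) {S : Finset (Zd d)}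
    (hS : ∀ n, n ∈ S ↔ ‖q μ p0 n‖ < 2 * P.c) {k : Cd d} (hk : ‖k - p0‖ ≤ P.r) {n : Zd d}
    (hn : n ∈ S) : ‖gS w P.c μ S k n n - gam P (q μ k n) (k + zc n)‖ ≤ 4 * P.ε := by
  have hG := G_nonneg P
  have hn' := (hS n).1 hn
  have hC := (Cl_of h hn' hk).mono (g' := P.G / 2) (by linarith)
  have ha := hC.adm
  have hb := reg_adm h hS hk
  have hcmp := col_cmp hb (Dloc_shift_adm ha n) n (L := P.L) ?_ P.hJ P.hε1 P.hε2
  · have h1 := ha.grn_shift n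
    have h2 : gam P (q μ k n) (k + zc n) =
        (grn w (fun m => Dloc P.c P.L (q μ k n) (k + zc n) (m - n)) (dlt n)) n := by
      rw [gam, h1]
    rw [h2, gS]
    refine le_trans ?_ hcmp
    exact lp.norm_apply_le_norm (p := 2) (by norm_num)
      (grn w (DS P.c μ S k) (dlt n) -
        grn w (fun m => Dloc P.c P.L (q μ k n) (k + zc n) (m - n)) (dlt n)) n
  · intro m hm
    by_cases hmn : m = n
    · subst hmn
      simp [DS, Dloc, hn]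
    · have hmS : m ∉ S := by
        intro hmS
        have := reg_clean h hn' ((hS m).1 hmS) (Ne.symm hmn)
        linarith
      have h0 : m - n ≠ 0 := sub_ne_zero.2 hmn
      simp only [DS, Dloc, if_neg hmS, if_neg h0, if_pos hm]
      rw [← lmx_q_add, add_sub_cancel]

theorem gS_off (h : Regular P p0) {S : Finset (Zd d)}
    (hS : ∀ n, n ∈ S ↔ ‖q μ p0 n‖ < 2 * P.c) {k : Cd d} (hk : ‖k - p0‖ ≤ P.r) {n m : Zd d}
    (hn : n ∈ S) (hm : m ∈ S) (hnm : n ≠ m) : ‖gS w P.c μ S k n m‖ ≤ 4 * P.ε := by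
  have h1 := reg_clean h ((hS m).1 hm) ((hS n).1 hn) (Ne.symm hnm)
  exact col_far (reg_adm h hS hk) m n h1 P.hJ P.hε1 P.hε2

theorem q_sub_c (h : Regular P p0) {n : Zd d} (hn : ‖q μ p0 n‖ < 2 * P.c) {k : Cd d}
    (hk : ‖k - p0‖ ≤ P.r) : ‖q μ k n - P.c‖ ≤ 4 * P.c := by
  have h1 := q_le h n hk
  have hc := P.x_c
  have h2 : ‖((P.c : ℝ) : ℂ)‖ = P.c := by
    rw [Complex.norm_real, Real.norm_eq_abs, abs_of_nonneg (by linarith)]
  have h3 := norm_sub_le (q μ k n) ((P.c : ℝ) : ℂ)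
  rw [h2] at h3
  linarith

theorem eps_small (P : Sc d μ w) : 100000 * P.c ^ 3 * (P.N * P.ε) * P.Λ ^ 30 ≤ P.s := by
  have h1 := P.x_εs
  have hc := P.x_c
  have hcΛ := P.hcΛ
  have hΛ := P.hΛ
  have h3 := P.x_ε
  have h4 := P.x_N
  refine le_trans ?_ h1
  have h5 : P.c ^ 3 ≤ P.Λ ^ 3 := by gcongr
  have h6 : (100000 : ℝ) ≤ P.Λ := by linarith
  have h0 := P.x_pos
  calc 100000 * P.c ^ 3 * (P.N * P.ε) * P.Λ ^ 30
      ≤ P.Λ * P.Λ ^ 3 * (P.N * P.ε) * P.Λ ^ 30 := by gcongr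
    _ = P.ε * P.N * P.Λ ^ 34 := by ring
    _ ≤ P.ε * P.N * P.Λ ^ 100 := by
        have : P.Λ ^ 34 ≤ P.Λ ^ 100 := pow_le_pow_right₀ P.x_one (by norm_num)
        gcongr

theorem eps_small1 (P : Sc d μ w) : 100000 * P.c ^ 3 * P.ε * P.Λ ^ 30 ≤ P.s := by
  refine le_trans ?_ (eps_small P)
  have h3 := P.x_ε
  have h4 := P.x_N
  have hc := P.x_c
  have h0 := P.x_pos
  have : P.ε ≤ P.N * P.ε := by nlinarith
  gcongr

theorem eps_small2 (P : Sc d μ w) : 10000 * P.c ^ 2 * P.ε ≤ P.s := by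
  refine le_trans ?_ (eps_small1 P)
  have h3 := P.x_ε
  have hc := P.x_c
  have h0 := P.x_pos
  have h1 : 1 ≤ P.Λ ^ 30 := one_le_pow₀ P.x_one
  have h2 : 10000 * P.c ^ 2 ≤ 100000 * P.c ^ 3 := by
    have : P.c ^ 3 = P.c * P.c ^ 2 := by ring
    rw [this]
    nlinarith [sq_nonneg P.c]
  calc 10000 * P.c ^ 2 * P.ε ≤ 100000 * P.c ^ 3 * P.ε := by gcongr
    _ = 100000 * P.c ^ 3 * P.ε * 1 := by ring
    _ ≤ _ := by gcongr

theorem diag_lower (h : Regular P p0) {S : Finset (Zd d)}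
    (hS : ∀ n, n ∈ S ↔ ‖q μ p0 n‖ < 2 * P.c) {k : Cd d} (hk : ‖k - p0‖ ≤ P.r) {n : Zd d}
    (hn : n ∈ S) (hE : 3 / 4 * P.s ≤ ‖Ehat P (k + zc n)‖) :
    P.s / (4 * P.c) ≤ ‖1 + (q μ k n - P.c) * gS w P.c μ S k n n‖ := by
  have hn' := (hS n).1 hn
  obtain ⟨h1, h2, h3⟩ := gam_E h hn' hk
  have h4 := gS_near h hS hk hn
  have h5 := q_sub_c h hn' hk
  have hc := P.x_c
  set g := gam P (q μ k n) (k + zc n) with hg
  set E := Ehat P (k + zc n) with hEE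
  set x := gS w P.c μ S k n n with hx
  have h6 : 1 + (q μ k n - P.c) * x = g * E + (q μ k n - P.c) * (x - g) := by
    rw [← h3]; ring
  rw [h6]
  have h7 : ‖(q μ k n - P.c) * (x - g)‖ ≤ 4 * P.c * (4 * P.ε) := by
    rw [norm_mul]; gcongr
  have h8 : 1 / (2 * P.c) * (3 / 4 * P.s) ≤ ‖g * E‖ := by
    rw [norm_mul]
    have := P.x_s
    gcongr
  have h9 : ‖g * E‖ ≤ ‖g * E + (q μ k n - P.c) * (x - g)‖ + ‖(q μ k n - P.c) * (x - g)‖ := by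
    have := norm_sub_le (g * E + (q μ k n - P.c) * (x - g)) ((q μ k n - P.c) * (x - g))
    rwa [add_sub_cancel_right] at this
  have h10 := eps_small2 P
  have h11 : 16 * P.c * P.ε ≤ P.s / (8 * P.c) := by
    rw [le_div_iff₀ (by positivity)]
    have := P.x_ε
    nlinarith [mul_pos (mul_pos (show (0 : ℝ) < P.c by linarith) (show (0 : ℝ) < P.c by linarith)) this]
  have h12 : 1 / (2 * P.c) * (3 / 4 * P.s) = P.s / (8 * P.c) + P.s / (4 * P.c) := by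
    field_simp; ring
  linarith

end Fermi
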