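import Pool.Agent.Lib.Fermi.OpLMc

/-!
# Chunk D7, part d: one site on a disc
-/

open scoped BigOperators Topology
open Set Filter

noncomputable section

namespace Fermi

variable {d : ℕ} {μ : ℂ} {w : Zd d → ℂ} {P : Sc d μ w} {p0 : Cd d}

theorem q_analytic (n : Zd d) (k : Cd d) : AnalyticAt ℂ (fun k : Cd d => q μ k n) k := by
  have hj : ∀ j, AnalyticAt ℂ (fun k : Cd d => (k + zc n) j) k := fun j => by
    have : AnalyticAt ℂ (fun k : Cd d => k j) k :=
      (ContinuousLinearMap.proj (R := ℂ) (φ := fun _ : Fin d => ℂ) j).analyticAt k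
    exact this.add analyticAt_const
  unfold q bil
  exact (Finset.analyticAt_fun_sum _ fun j _ => (hj j).mul (hj j)).sub analyticAt_const

/-- everything about one site on the disc `|z| ≤ ρ` -/
structure Disc (P : Sc d μ w) (n : Zd d) (k v : Cd d) (ρ : ℝ) (f g : ℂ → ℂ) : Prop where
  mem : ∀ z, ‖z‖ ≤ ρ → (k + z • v ∈ FS μ w ↔ f z = 0)
  geq : ∀ z, ‖z‖ ≤ ρ → g z = gam P (q μ (k + z • v) n) (k + z • v + zc n) *
    Ehat P (k + z • v + zc n)
  err : ∀ z, ‖z‖ ≤ ρ → ‖f z - g z‖ ≤ 20 * P.c * P.ε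
  fan : ∀ z, ‖z‖ ≤ ρ → AnalyticAt ℂ f z
  gan : ∀ z, ‖z‖ ≤ ρ → AnalyticAt ℂ g z

theorem ball_mem {k v : Cd d} {ρ : ℝ} (hv : ‖v‖ ≤ 1) (hk : ‖k - p0‖ + ρ ≤ P.r) {z : ℂ}
    (hz : ‖z‖ ≤ ρ) : ‖k + z • v - p0‖ ≤ P.r := by
  have : k + z • v - p0 = (k - p0) + z • v := by abel
  rw [this]
  refine (norm_add_le _ _).trans ?_
  rw [norm_smul]
  have h1 : ‖z‖ * ‖v‖ ≤ ρ * 1 := by
    have := norm_nonneg z
    gcongr
    linarith
  linarith

theorem exists_disc (h : Regular P p0) {S : Finset (Zd d)}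
    (hS : ∀ n, n ∈ S ↔ ‖q μ p0 n‖ < 2 * P.c) (hcard : (S.card : ℝ) ≤ P.N) {n : Zd d}
    (hn : n ∈ S) {k v : Cd d} {ρ : ℝ} (hv : ‖v‖ ≤ 1) (hk : ‖k - p0‖ + ρ ≤ P.r)
    (hother : ∀ m ∈ S, m ≠ n → ∀ z : ℂ, ‖z‖ ≤ ρ → 3 / 4 * P.s ≤ ‖Ehat P (k + z • v + zc m)‖) :
    ∃ f g, Disc P n k v ρ f g := by
  have hn' := (hS n).1 hn
  have hc := P.x_c
  have hε := P.x_ε
  have hs := P.x_s
  set K : ℂ → Cd d := fun z => k + z • v with hK
  have hKa : ∀ z, AnalyticAt ℂ K z := fun z => by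
    simp only [hK]; fun_prop
  -- the one site reduction
  have hone : ∀ z, ‖z‖ ≤ ρ → (∃ C, Inv w (DS P.c μ {n} (K z)) C) ∧
      (K z ∈ FS μ w ↔ 1 + (q μ (K z) n - P.c) * gS w P.c μ {n} (K z) n n = 0) ∧
      ‖gS w P.c μ {n} (K z) n n - gS w P.c μ S (K z) n n‖ ≤
        2 * S.card * (4 * P.c) * (4 * P.ε) ^ 2 / (P.s / (4 * P.c)) := by
    intro z hz
    have hz' := ball_mem hv hk hz
    refine onesite S (K z) (reg_adm h hS hz') hn (by positivity) (by positivity)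
      (by linarith) (fun m hm => q_sub_c h ((hS m).1 hm) hz') ?_ ?_ ?_
    · intro m hm hmn
      exact diag_lower h hS hz' hm (hother m hm hmn z hz)
    · intro m hm m' hm' hne
      exact gS_off h hS hz' hm hm' hne
    · have h1 := eps_small P
      have h2 : 2 * (S.card : ℝ) * (4 * P.c * (4 * P.ε)) ≤ 2 * P.N * (4 * P.c * (4 * P.ε)) := by
        gcongr
      refine h2.trans ?_
      rw [le_div_iff₀ (by positivity)]
      have h3 : 1 ≤ P.Λ ^ 30 := one_le_pow₀ P.x_one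
      have hN := P.x_N
      have h4 : 2 * P.N * (4 * P.c * (4 * P.ε)) * (4 * P.c) = 128 * P.c ^ 2 * (P.N * P.ε) := by
        ring
      rw [h4]
      refine le_trans ?_ h1
      have h5 : 128 * P.c ^ 2 ≤ 100000 * P.c ^ 3 := by
        have : P.c ^ 3 = P.c * P.c ^ 2 := by ring
        rw [this]
        nlinarith [sq_nonneg P.c]
      calc 128 * P.c ^ 2 * (P.N * P.ε) ≤ 100000 * P.c ^ 3 * (P.N * P.ε) := by gcongr
        _ = 100000 * P.c ^ 3 * (P.N * P.ε) * 1 := by ring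
        _ ≤ _ := by gcongr
  have herr2 : 2 * (S.card : ℝ) * (4 * P.c) * (4 * P.ε) ^ 2 / (P.s / (4 * P.c)) ≤ P.ε := by
    rw [div_le_iff₀ (by positivity), ← mul_div_assoc, le_div_iff₀ (by positivity)]
    have h1 := eps_small P
    have h3 : 1 ≤ P.Λ ^ 30 := one_le_pow₀ P.x_one
    have hN := P.x_N
    have h2 : 2 * (S.card : ℝ) * (4 * P.c) * (4 * P.ε) ^ 2 * (4 * P.c) ≤
        2 * P.N * (4 * P.c) * (4 * P.ε) ^ 2 * (4 * P.c) := by gcongr
    refine h2.trans ?_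
    have h4 : 2 * P.N * (4 * P.c) * (4 * P.ε) ^ 2 * (4 * P.c) =
        P.ε * (512 * P.c ^ 2 * (P.N * P.ε)) := by ring
    rw [h4]
    have h5 : 512 * P.c ^ 2 ≤ 100000 * P.c ^ 3 := by
      have : P.c ^ 3 = P.c * P.c ^ 2 := by ring
      rw [this]
      nlinarith [sq_nonneg P.c]
    have h6 : 512 * P.c ^ 2 * (P.N * P.ε) ≤ P.s := by
      refine le_trans ?_ h1
      calc 512 * P.c ^ 2 * (P.N * P.ε) ≤ 100000 * P.c ^ 3 * (P.N * P.ε) := by gcongr
        _ = 100000 * P.c ^ 3 * (P.N * P.ε) * 1 := by ring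
        _ ≤ _ := by gcongr
    gcongr
  refine ⟨fun z => 1 + (q μ (K z) n - P.c) * gS w P.c μ {n} (K z) n n,
    fun z => 1 + (q μ (K z) n - P.c) * gam P (q μ (K z) n) (K z + zc n), ?_, ?_, ?_, ?_, ?_⟩
  · intro z hz
    exact (hone z hz).2.1
  · intro z hz
    exact (gam_E h hn' (ball_mem hv hk hz)).2.2
  · intro z hz
    have hz' := ball_mem hv hk hz
    have h1 := (hone z hz).2.2.trans herr2
    have h2 := gS_near h hS hz' hn
    have h3 := q_sub_c h hn' hz'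
    have h4 : (1 + (q μ (K z) n - P.c) * gS w P.c μ {n} (K z) n n) -
        (1 + (q μ (K z) n - P.c) * gam P (q μ (K z) n) (K z + zc n)) =
        (q μ (K z) n - P.c) * ((gS w P.c μ {n} (K z) n n - gS w P.c μ S (K z) n n) +
          (gS w P.c μ S (K z) n n - gam P (q μ (K z) n) (K z + zc n))) := by ring
    rw [h4, norm_mul]
    calc _ ≤ (4 * P.c) * (P.ε + 4 * P.ε) := by
          gcongr
          exact (norm_add_le _ _).trans (add_le_add h1 h2)
      _ = _ := by ring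
  · intro z hz
    obtain ⟨⟨C, hC⟩, -, -⟩ := hone z hz
    have h1 := (DS_analytic (μ := μ) P.hw (by linarith : 0 < P.c) {n} (K z) hC (dlt n) n).1
    have h2 : AnalyticAt ℂ (fun z => (grn w (DS P.c μ {n} (K z)) (dlt n)) n) z :=
      AnalyticAt.fun_comp (g := fun k => (grn w (DS P.c μ {n} k) (dlt n)) n) h1 (hKa z)
    have h3 : AnalyticAt ℂ (fun z => q μ (K z) n) z :=
      AnalyticAt.fun_comp (g := fun k => q μ k n) (q_analytic n (K z)) (hKa z)
    exact analyticAt_const.add ((h3.sub analyticAt_const).mul h2)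
  · intro z hz
    have hz' := ball_mem hv hk hz
    have hG := G_nonneg P
    have hC := Cl_of h hn' hz'
    have ha := (hC.mono (g' := P.G / 2) (by linarith)).adm
    have h1 := Dloc_analytic P.L (q μ (K z) n) (K z + zc n) ha
      (fun m hm0 hm => (c_lt_G P).trans_le (hC m hm0 hm))
    have h3 : AnalyticAt ℂ (fun z => q μ (K z) n) z :=
      AnalyticAt.fun_comp (g := fun k => q μ k n) (q_analytic n (K z)) (hKa z)
    have h4 : AnalyticAt ℂ (fun z => ((q μ (K z) n, K z + zc n) : ℂ × Cd d)) z :=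
      h3.prod ((hKa z).add analyticAt_const)
    have h2 : AnalyticAt ℂ (fun z => gam P (q μ (K z) n) (K z + zc n)) z :=
      AnalyticAt.fun_comp (g := fun x : ℂ × Cd d => (grn w (Dloc P.c P.L x.1 x.2) (dlt 0)) 0)
        (f := fun z => ((q μ (K z) n, K z + zc n) : ℂ × Cd d)) h1 h4
    exact analyticAt_const.add ((h3.sub analyticAt_const).mul h2)

end Fermi
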