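import Pool.Agent.Lib.Fermi.OpLMd

/-!
# Chunk D7, part e: uniqueness and existence of a point of `F` on a disc
-/

open scoped BigOperators Topology
open Set Filter

noncomputable section

namespace Fermi

variable {d : ℕ} {μ : ℂ} {w : Zd d → ℂ} {P : Sc d μ w} {p0 : Cd d}

theorem gam_lip (h : Regular P p0) {n : Zd d} (hn : ‖q μ p0 n‖ < 2 * P.c) {k k' : Cd d}
    (hk : ‖k - p0‖ ≤ P.r) (hk' : ‖k' - p0‖ ≤ P.r) :
    ‖gam P (q μ k n) (k + zc n) - gam P (q μ k' n) (k' + zc n)‖ ≤ P.Λ ^ 27 * ‖k - k'‖ := by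
  have hG := G_nonneg P
  have hc := P.x_c
  have hr := P.x_r
  have hΛ := P.x_one
  have hΛ0 := P.x_pos
  have hC := (Cl_of h hn hk').mono (g' := 3 / 4 * P.G) (by linarith)
  have hkk : ‖k - k'‖ ≤ 2 * P.r := by
    have : k - k' = (k - p0) - (k' - p0) := by abel
    rw [this]
    exact (norm_sub_le _ _).trans (by linarith)
  have hq := q_lip_res h hn hk hk'
  have h27r : P.Λ ^ 27 * P.r ≤ 1 / 1000 := by
    have h1 := P.x_r54
    have h2 : P.Λ ^ 27 ≤ P.Λ ^ 54 := pow_le_pow_right₀ hΛ (by norm_num)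
    nlinarith
  have hG1 : 32 ≤ P.G := by
    have := P.hΛ
    calc (32 : ℝ) ≤ P.Λ := by linarith
      _ = P.Λ ^ 1 := (pow_one _).symm
      _ ≤ P.Λ ^ 5 := pow_le_pow_right₀ hΛ (by norm_num)
  have h27 : 0 < P.Λ ^ 27 := by positivity
  have h1 : ‖q μ k n - q μ k' n‖ ≤ P.G / 32 := by
    refine hq.trans ?_
    have : P.Λ ^ 27 * ‖k - k'‖ ≤ P.Λ ^ 27 * (2 * P.r) := by gcongr
    nlinarith
  have hrl := P.x_rle
  have h2 : ‖(k + zc n) - (k' + zc n)‖ ≤ 1 := by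
    rw [add_sub_add_right_eq_sub]; linarith
  have h3 := Hh_lip P hC h1 h2
  rw [add_sub_add_right_eq_sub] at h3
  obtain ⟨g1, g2, -⟩ := gam_E h hn hk
  obtain ⟨g1', g2', -⟩ := gam_E h hn hk'
  set a := gam P (q μ k n) (k + zc n) with ha
  set b := gam P (q μ k' n) (k' + zc n) with hb
  have ha0 : a ≠ 0 := by
    intro h0
    rw [h0, norm_zero] at g1
    have : 0 < 1 / (2 * P.c) := by positivity
    linarith
  have hb0 : b ≠ 0 := by
    intro h0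
    rw [h0, norm_zero] at g1'
    have : 0 < 1 / (2 * P.c) := by positivity
    linarith
  have h4 : a - b = a * b * (Hh P (q μ k' n) (k' + zc n) - Hh P (q μ k n) (k + zc n)) := by
    rw [Hh, Hh, ← ha, ← hb]
    field_simp
    ring
  rw [h4, norm_mul, norm_mul, norm_sub_rev]
  have hK := norm_nonneg (k - k')
  have h5 : (P.Λ ^ 6)⁻¹ * ‖q μ k n - q μ k' n‖ + (P.Λ ^ 2)⁻¹ * ‖k - k'‖ ≤
      2 * P.Λ ^ 27 * ‖k - k'‖ := by
    have e1 : (P.Λ ^ 6)⁻¹ ≤ 1 := inv_le_one_of_one_le₀ (one_le_pow₀ hΛ)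
    have e2 : (P.Λ ^ 2)⁻¹ ≤ P.Λ ^ 27 :=
      (inv_le_one_of_one_le₀ (one_le_pow₀ hΛ)).trans (one_le_pow₀ hΛ)
    have e3 : (P.Λ ^ 6)⁻¹ * ‖q μ k n - q μ k' n‖ ≤ 1 * (P.Λ ^ 27 * ‖k - k'‖) := by gcongr
    have e4 : (P.Λ ^ 2)⁻¹ * ‖k - k'‖ ≤ P.Λ ^ 27 * ‖k - k'‖ := by gcongr
    linarith
  have h6 : 2 / P.c ≤ 1 / 4 := by
    rw [div_le_div_iff₀ (by linarith) (by norm_num)]; linarith
  calc ‖a‖ * ‖b‖ * _ ≤ 1 / 4 * (1 / 4) * (2 * P.Λ ^ 27 * ‖k - k'‖) := by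
        gcongr
        · exact g2.trans h6
        · exact g2'.trans h6
        · exact h3.trans h5
    _ ≤ P.Λ ^ 27 * ‖k - k'‖ := by nlinarith [mul_nonneg h27.le hK]

/-- Cauchy estimate for the error -/
theorem Disc.err_lip {n : Zd d} {k v : Cd d} {ρ : ℝ} {f g : ℂ → ℂ} (D : Disc P n k v ρ f g)
    (hρ : 0 < ρ) {z₁ z₂ : ℂ} (h₁ : ‖z₁‖ ≤ ρ / 2) (h₂ : ‖z₂‖ ≤ ρ / 2) :
    ‖(f z₁ - g z₁) - (f z₂ - g z₂)‖ ≤ (20 * P.c * P.ε) / (ρ / 2) * ‖z₁ - z₂‖ := by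
  have hdiff : ∀ z, ‖z‖ ≤ ρ → DifferentiableAt ℂ (fun z => f z - g z) z := fun z hz =>
    (D.fan z hz).differentiableAt.sub (D.gan z hz).differentiableAt
  have key := Convex.norm_image_sub_le_of_norm_deriv_le (𝕜 := ℂ) (f := fun z => f z - g z)
    (s := Metric.closedBall (0 : ℂ) (ρ / 2)) (C := (20 * P.c * P.ε) / (ρ / 2))
    (x := z₂) (y := z₁) ?_ ?_ (convex_closedBall _ _) (by simpa using h₂) (by simpa using h₁)
  · exact key
  · intro z hz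
    rw [mem_closedBall_zero_iff] at hz
    exact hdiff z (by linarith)
  · intro z hz
    rw [mem_closedBall_zero_iff] at hz
    refine Complex.norm_deriv_le_of_forall_mem_sphere_norm_le (by linarith) ?_ ?_
    · refine DifferentiableOn.diffContOnCl ?_
      intro y hy
      have hy' := Metric.closure_ball_subset_closedBall hy
      rw [mem_closedBall_iff_norm] at hy'
      refine (hdiff y ?_).differentiableWithinAt
      have : y = (y - z) + z := by ring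
      rw [this]
      exact (norm_add_le _ _).trans (by linarith)
    · intro y hy
      rw [mem_sphere_iff_norm] at hy
      refine D.err y ?_
      have : y = (y - z) + z := by ring
      rw [this]
      exact (norm_add_le _ _).trans (by linarith)

section
variable (h : Regular P p0) {n : Zd d} (hn : ‖q μ p0 n‖ < 2 * P.c) {a : Cd d}
  (ha : ∀ k k', ‖k - p0‖ ≤ P.r → ‖k' - p0‖ ≤ P.r →
    ‖Ehat P (k + zc n) - Ehat P (k' + zc n) - bil a (k - k')‖ ≤ P.Λ ^ 60 * P.r * ‖k - k'‖)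
include h hn ha

theorem Disc.unique {k v : Cd d} {ρ : ℝ} {f g : ℂ → ℂ} (D : Disc P n k v ρ f g)
    (hρ : 0 < ρ) (hv : ‖v‖ ≤ 1) (hk : ‖k - p0‖ + ρ ≤ P.r) (hA : 4 * P.s ≤ ρ * ‖bil a v‖)
    {z₁ z₂ : ℂ} (h₁ : ‖z₁‖ ≤ ρ / 2) (h₂ : ‖z₂‖ ≤ ρ / 2) (f₁ : f z₁ = 0) (f₂ : f z₂ = 0) :
    z₁ = z₂ := by
  by_contra hne
  have hX : 0 < ‖z₁ - z₂‖ := norm_pos_iff.2 (sub_ne_zero.2 hne)
  set X := ‖z₁ - z₂‖ with hXd
  set A := ‖bil a v‖ with hAd
  have hc := P.x_c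
  have hcΛ := P.hcΛ
  have hΛ := P.x_one
  have hΛ0 := P.x_pos
  have hr := P.x_r
  have hs := P.x_s
  have hε := P.x_ε
  have hρr : ρ ≤ P.r := by have := norm_nonneg (k - p0); linarith
  have hz₁ : ‖z₁‖ ≤ ρ := by linarith
  have hz₂ : ‖z₂‖ ≤ ρ := by linarith
  have hm₁ := ball_mem hv hk hz₁
  have hm₂ := ball_mem hv hk hz₂
  have hsub : (k + z₁ • v) - (k + z₂ • v) = (z₁ - z₂) • v := by rw [sub_smul]; abel
  have hDn : ‖(k + z₁ • v) - (k + z₂ • v)‖ ≤ X := by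
    rw [hsub, norm_smul]
    have := norm_nonneg (z₁ - z₂)
    nlinarith
  have hE := ha _ _ hm₁ hm₂
  have hgl := gam_lip h hn hm₁ hm₂
  have g₁ := D.geq z₁ hz₁
  have g₂ := D.geq z₂ hz₂
  obtain ⟨b₁, -, -⟩ := gam_E h hn hm₁
  obtain ⟨b₂, -, -⟩ := gam_E h hn hm₂
  set E₁ := Ehat P (k + z₁ • v + zc n) with hE₁
  set E₂ := Ehat P (k + z₂ • v + zc n) with hE₂
  set G₁ := gam P (q μ (k + z₁ • v) n) (k + z₁ • v + zc n) with hG₁
  set G₂ := gam P (q μ (k + z₂ • v) n) (k + z₂ • v + zc n) with hG₂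
  -- the slope is huge compared with the quadratic error
  have hAr : 4 * P.Λ ^ 75 * P.r ≤ A := by
    have e1 : 4 * (P.Λ ^ 75 * P.r ^ 2) ≤ P.r * A := by
      have : P.s = P.Λ ^ 75 * P.r ^ 2 := rfl
      rw [← this]
      exact hA.trans (by gcongr)
    have e2 : P.r * (4 * P.Λ ^ 75 * P.r) ≤ P.r * A := by
      calc P.r * (4 * P.Λ ^ 75 * P.r) = 4 * (P.Λ ^ 75 * P.r ^ 2) := by ring
        _ ≤ _ := e1
    exact le_of_mul_le_mul_left e2 hr
  have h6075 : P.Λ ^ 60 * P.r ≤ A / 4 := by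
    have : P.Λ ^ 60 ≤ P.Λ ^ 75 := pow_le_pow_right₀ hΛ (by norm_num)
    have : P.Λ ^ 60 * P.r ≤ P.Λ ^ 75 * P.r := by gcongr
    linarith
  have hA0 : 0 ≤ A := norm_nonneg _
  have hElow : 3 / 4 * A * X ≤ ‖E₁ - E₂‖ := by
    have e1 : bil a ((k + z₁ • v) - (k + z₂ • v)) = (z₁ - z₂) * bil a v := by
      rw [hsub, lmx_bil_smul_right]
    rw [e1] at hE
    have e2 : ‖(z₁ - z₂) * bil a v‖ = X * A := by rw [norm_mul]
    have e3 := norm_sub_norm_le ((z₁ - z₂) * bil a v) (E₁ - E₂)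
    rw [norm_sub_rev ((z₁ - z₂) * bil a v) (E₁ - E₂), e2] at e3
    have e4 : P.Λ ^ 60 * P.r * ‖(k + z₁ • v) - (k + z₂ • v)‖ ≤ A / 4 * X := by gcongr
    linarith
  -- zeros
  have hg₁ : G₁ * E₁ = -(f z₁ - g z₁) := by rw [f₁, g₁]; ring
  have hg₂ : G₂ * E₂ = -(f z₂ - g z₂) := by rw [f₂, g₂]; ring
  have he₂ : ‖f z₂ - g z₂‖ ≤ 20 * P.c * P.ε := D.err z₂ hz₂
  have hE₂b : ‖E₂‖ ≤ 2 * P.c * (20 * P.c * P.ε) := by
    have e1 : ‖G₂‖ * ‖E₂‖ ≤ 20 * P.c * P.ε := by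
      rw [← norm_mul, hg₂, norm_neg]; exact he₂
    have e2 : 1 / (2 * P.c) * ‖E₂‖ ≤ ‖G₂‖ * ‖E₂‖ := by gcongr
    have e3 : 1 / (2 * P.c) * ‖E₂‖ ≤ 20 * P.c * P.ε := e2.trans e1
    rw [one_div, inv_mul_le_iff₀ (by linarith)] at e3
    exact e3
  have hlip := D.err_lip hρ h₁ h₂
  have hmain : G₁ * (E₁ - E₂) = -((f z₁ - g z₁) - (f z₂ - g z₂)) - (G₁ - G₂) * E₂ := by
    have : G₁ * (E₁ - E₂) = G₁ * E₁ - G₂ * E₂ - (G₁ - G₂) * E₂ := by ring
    rw [this, hg₁, hg₂]; ring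
  have hup : ‖G₁ * (E₁ - E₂)‖ ≤ (20 * P.c * P.ε) / (ρ / 2) * X +
      P.Λ ^ 27 * X * (2 * P.c * (20 * P.c * P.ε)) := by
    rw [hmain]
    refine (norm_sub_le _ _).trans ?_
    rw [norm_neg, norm_mul]
    gcongr
    exact hgl.trans (by gcongr)
  have hlow : 1 / (2 * P.c) * (3 / 4 * A * X) ≤ ‖G₁ * (E₁ - E₂)‖ := by
    rw [norm_mul]; gcongr
  have hfin : 1 / (2 * P.c) * (3 / 4 * A) ≤ (20 * P.c * P.ε) / (ρ / 2) +
      P.Λ ^ 27 * (2 * P.c * (20 * P.c * P.ε)) := by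
    have e1 := hlow.trans hup
    have e2 : (1 / (2 * P.c) * (3 / 4 * A)) * X ≤ ((20 * P.c * P.ε) / (ρ / 2) +
        P.Λ ^ 27 * (2 * P.c * (20 * P.c * P.ε))) * X := by
      calc _ = 1 / (2 * P.c) * (3 / 4 * A * X) := by ring
        _ ≤ _ := e1
        _ = _ := by ring
    exact le_of_mul_le_mul_right e2 hX
  -- multiply by ρ * (2c)
  have hf2 : 3 / 4 * (ρ * A) ≤ 80 * P.c ^ 2 * P.ε + P.Λ ^ 27 * (80 * P.c ^ 3 * P.ε) * ρ := by
    have e1 : (2 * P.c * ρ) * (1 / (2 * P.c) * (3 / 4 * A)) ≤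
        (2 * P.c * ρ) * ((20 * P.c * P.ε) / (ρ / 2) +
          P.Λ ^ 27 * (2 * P.c * (20 * P.c * P.ε))) := by gcongr
    have e2 : (2 * P.c * ρ) * (1 / (2 * P.c) * (3 / 4 * A)) = 3 / 4 * (ρ * A) := by
      field_simp
    have e3 : (2 * P.c * ρ) * ((20 * P.c * P.ε) / (ρ / 2) +
          P.Λ ^ 27 * (2 * P.c * (20 * P.c * P.ε))) =
          80 * P.c ^ 2 * P.ε + P.Λ ^ 27 * (80 * P.c ^ 3 * P.ε) * ρ := by
      field_simp
      ring
    rw [e2, e3] at e1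
    exact e1
  have hρ1 : ρ ≤ 1 := hρr.trans (P.x_rle.trans (by norm_num))
  have h30 := eps_small1 P
  have hs2 := eps_small2 P
  have e5 : P.Λ ^ 27 * (80 * P.c ^ 3 * P.ε) * ρ ≤ 1 / 1000 * P.s := by
    have : P.Λ ^ 27 ≤ P.Λ ^ 30 := pow_le_pow_right₀ hΛ (by norm_num)
    calc P.Λ ^ 27 * (80 * P.c ^ 3 * P.ε) * ρ ≤ P.Λ ^ 30 * (80 * P.c ^ 3 * P.ε) * 1 := by gcongr
      _ = 80 / 100000 * (100000 * P.c ^ 3 * P.ε * P.Λ ^ 30) := by ring
      _ ≤ 80 / 100000 * P.s := by gcongr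
      _ ≤ _ := by nlinarith
  nlinarith

theorem Disc.exists_zero {k v : Cd d} {ρ : ℝ} {f g : ℂ → ℂ} (D : Disc P n k v ρ f g)
    (hρ : 0 < ρ) (hv : ‖v‖ ≤ 1) (hk : ‖k - p0‖ + ρ ≤ P.r) (hA : 4 * P.s ≤ ρ * ‖bil a v‖)
    (hsm : ‖aff p0 a (Ehat P (p0 + zc n)) k‖ ≤ ρ * ‖bil a v‖ / 4) :
    ∃ z : ℂ, ‖z‖ ≤ ρ / 2 ∧ f z = 0 := by
  by_contra hcon
  push Not at hcon
  set A := ‖bil a v‖ with hAd
  have hc := P.x_c
  have hs := P.x_s
  have hε := P.x_ε
  have hr := P.x_r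
  have hδ := dlta_pos P
  have hδs := dlta_le P
  have hs2 := eps_small2 P
  have hA0 : 0 < A := by
    by_contra h0
    have : A = 0 := le_antisymm (not_lt.1 h0) (norm_nonneg _)
    rw [this] at hA
    linarith
  have hbv : bil a v ≠ 0 := norm_pos_iff.1 hA0
  set af := aff p0 a (Ehat P (p0 + zc n)) with haf
  have haffz : ∀ z : ℂ, af (k + z • v) = af k + z * bil a v := by
    intro z
    simp only [haf, aff]
    have : k + z • v - p0 = (k - p0) + z • v := by abel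
    rw [this, lmx_bil_add_right, lmx_bil_smul_right]; ring
  -- closeness of Ehat and aff
  have hclose : ∀ k', ‖k' - p0‖ ≤ P.r → ‖Ehat P (k' + zc n) - af k'‖ ≤ dlta P := by
    intro k' hk'
    have h1 := ha k' p0 hk' (by simpa using hr.le)
    have h2 : Ehat P (k' + zc n) - af k' =
        Ehat P (k' + zc n) - Ehat P (p0 + zc n) - bil a (k' - p0) := by
      simp only [haf, aff]; ring
    rw [h2]
    refine h1.trans ?_
    unfold dlta
    have := P.x_pos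
    calc P.Λ ^ 60 * P.r * ‖k' - p0‖ ≤ P.Λ ^ 60 * P.r * P.r := by gcongr
      _ = _ := by ring
  generalize dlta P = δ at hδ hδs hclose
  set z0 : ℂ := -(af k) / bil a v with hz0
  have hz0n : ‖z0‖ ≤ ρ / 4 := by
    rw [hz0, norm_div, norm_neg, div_le_iff₀ hA0]
    calc ‖af k‖ ≤ ρ * A / 4 := hsm
      _ = _ := by ring
  have hz0a : af (k + z0 • v) = 0 := by
    rw [haffz, hz0]; field_simp; ring
  -- upper bound at z0
  have hz0ρ : ‖z0‖ ≤ ρ := by linarith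
  have hup : ‖f z0‖ ≤ 2 / P.c * δ + 20 * P.c * P.ε := by
    have hm := ball_mem hv hk hz0ρ
    have h1 := hclose _ hm
    rw [hz0a, sub_zero] at h1
    have h2 := (gam_E h hn hm).2.1
    have h3 := D.geq z0 hz0ρ
    have h4 := D.err z0 hz0ρ
    have h5 : f z0 = g z0 + (f z0 - g z0) := by ring
    rw [h5]
    refine (norm_add_le _ _).trans ?_
    gcongr
    rw [h3, norm_mul]
    gcongr
  -- lower bound on the circle
  set m : ℝ := 1 / (2 * P.c) * (P.s - δ) - 20 * P.c * P.ε with hm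
  have hmlow : 2 / P.c * δ + 20 * P.c * P.ε < m := by
    have e1 : 2 * P.c * (2 / P.c * δ + 20 * P.c * P.ε) < 2 * P.c * m := by
      have : 2 * P.c * (2 / P.c * δ + 20 * P.c * P.ε) = 4 * δ + 40 * P.c ^ 2 * P.ε := by
        field_simp; ring
      rw [this]
      have : 2 * P.c * m = P.s - δ - 40 * P.c ^ 2 * P.ε := by
        rw [hm]; field_simp; ring
      rw [this]
      linarith
    exact lt_of_mul_lt_mul_left e1 (by linarith)
  have hm0 : 0 < m := lt_of_le_of_lt (by positivity) hmlow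
  have hlow : ∀ z : ℂ, ‖z‖ = ρ / 2 → m ≤ ‖f z‖ := by
    intro z hz
    have hzρ : ‖z‖ ≤ ρ := by linarith
    have hmm := ball_mem hv hk hzρ
    have h1 := hclose _ hmm
    have h2 := (gam_E h hn hmm).1
    have h3 := D.geq z hzρ
    have h4 := D.err z hzρ
    have h5 : P.s ≤ ‖af (k + z • v)‖ := by
      have e1 : af (k + z • v) = (z - z0) * bil a v := by
        rw [haffz, hz0]; field_simp; ring
      rw [e1, norm_mul]
      have e2 : ρ / 4 ≤ ‖z - z0‖ := by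
        have := norm_sub_norm_le z z0
        linarith
      calc P.s ≤ ρ / 4 * A := by linarith
        _ ≤ ‖z - z0‖ * A := by gcongr
    have h6 : P.s - δ ≤ ‖Ehat P (k + z • v + zc n)‖ := by
      have := norm_sub_norm_le (af (k + z • v)) (Ehat P (k + z • v + zc n))
      rw [norm_sub_rev] at this
      linarith
    have h7 : 1 / (2 * P.c) * (P.s - δ) ≤ ‖g z‖ := by
      rw [h3, norm_mul]
      have : 0 ≤ P.s - δ := by linarith
      gcongr
    have h8 := norm_sub_norm_le (g z) (f z)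
    rw [norm_sub_rev] at h8
    linarith
  -- maximum principle for 1/f
  have hfan : ∀ z, ‖z‖ ≤ ρ / 2 → DifferentiableAt ℂ (fun z => (f z)⁻¹) z := fun z hz =>
    ((D.fan z (by linarith)).differentiableAt).inv (hcon z hz)
  have hmax := Complex.norm_le_of_forall_mem_frontier_norm_le (f := fun z => (f z)⁻¹)
    (U := Metric.ball (0 : ℂ) (ρ / 2)) (C := m⁻¹) Metric.isBounded_ball ?_ ?_
    (z := z0) ?_
  · rw [norm_inv] at hmax
    have hf0 : 0 < ‖f z0‖ := norm_pos_iff.2 (hcon z0 (by linarith))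
    have := (inv_le_inv₀ hf0 hm0).1 hmax
    linarith
  · refine DifferentiableOn.diffContOnCl ?_
    intro y hy
    have hy' := Metric.closure_ball_subset_closedBall hy
    rw [mem_closedBall_zero_iff] at hy'
    exact (hfan y hy').differentiableWithinAt
  · intro z hz
    rw [frontier_ball _ (by linarith), mem_sphere_zero_iff_norm] at hz
    rw [norm_inv]
    exact (inv_le_inv₀ (lt_of_lt_of_le hm0 (hlow z hz)) hm0).2 (hlow z hz)
  · apply subset_closure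
    rw [mem_ball_zero_iff]
    linarith

end

end Fermi
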