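import Pool.Agent.Lib.Fermi.SCV0

/-!
# Chunk A1: several complex variables (disc and strip lemmas)
-/

open scoped BigOperators Topology
open Set Filter

noncomputable section

namespace Fermi

variable {d : ℕ} {F A B : Set (Cd d)}

theorem LocHyp.isClosed (h : LocHyp F) : IsClosed F := by
  rw [← isOpen_compl_iff, isOpen_iff_mem_nhds]
  intro p hp
  obtain ⟨U, hU, f, hf, hFU⟩ := h p
  have hpU : p ∈ U := mem_of_mem_nhds hU
  have h1 : f p ≠ 0 := fun h0 => hp ((hFU p hpU).mpr h0)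
  have h2 : ∀ᶠ k in 𝓝 p, f k ≠ 0 := (hf p hpU).continuousAt.eventually_ne h1
  filter_upwards [hU, h2] with k hk hk2 hkF
  exact hk2 ((hFU k hk).mp hkF)

theorem LocAn.isClosed (h : LocAn A) : IsClosed A := by
  rw [← isOpen_compl_iff, isOpen_iff_mem_nhds]
  intro p hp
  obtain ⟨U, hU, ι, g, hg, hAU⟩ := h p
  have hpU : p ∈ U := mem_of_mem_nhds hU
  have h1 : ∃ i, g i p ≠ 0 := by
    by_contra hcon
    push Not at hcon
    exact hp ((hAU p hpU).mpr hcon)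
  obtain ⟨i, hi⟩ := h1
  have h2 : ∀ᶠ k in 𝓝 p, g i k ≠ 0 := (hg i p hpU).continuousAt.eventually_ne hi
  filter_upwards [hU, h2] with k hk hk2 hkA
  exact hk2 ((hAU k hk).mp hkA i)

theorem XX_subset (D : Decomp F A B) : XX F A ⊆ B := by
  apply closure_minimal _ D.hB.isClosed
  rintro k ⟨hk, hkA⟩
  rw [← D.hU] at hk
  exact hk.resolve_left hkA

theorem XX_subset_F (D : Decomp F A B) : XX F A ⊆ F :=
  closure_minimal sdiff_subset D.hF.isClosed

theorem XX_per (D : Decomp F A B) : Per (XX F A) := by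
  intro k n
  have h1 : (Homeomorph.addRight (zc n)) ⁻¹' (F \ A) = F \ A := by
    ext x
    simp only [mem_preimage, Homeomorph.coe_addRight, Set.mem_sdiff]
    rw [D.pF x n, D.pA x n]
  have h2 := (Homeomorph.addRight (zc n : Cd d)).preimage_closure (F \ A)
  rw [h1] at h2
  have h3 : k ∈ (Homeomorph.addRight (zc n : Cd d)) ⁻¹' closure (F \ A) ↔ k ∈ closure (F \ A) := by rw [h2]
  exact h3

theorem a1_line_an (p v : Cd d) (z₁ : ℂ) : AnalyticAt ℂ (fun z : ℂ => p + z • v) z₁ := by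
  fun_prop

theorem a1_line_cont (p v : Cd d) : Continuous (fun z : ℂ => p + z • v) := by
  fun_prop

/-- A complex line is contained in `F` or meets `F` in a discrete set. -/
theorem line_dichotomy (hF : LocHyp F) (p v : Cd d) (h : ∃ z : ℂ, p + z • v ∉ F) (z₁ : ℂ) :
    ∀ᶠ z in 𝓝[≠] z₁, p + z • v ∉ F := by
  have hdich : ∀ z₀ : ℂ, (∀ᶠ z in 𝓝 z₀, p + z • v ∈ F) ∨ (∀ᶠ z in 𝓝[≠] z₀, p + z • v ∉ F) := by
    intro z₀
    obtain ⟨U, hU, f, hf, hFU⟩ := hF (p + z₀ • v)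
    have hpU : p + z₀ • v ∈ U := mem_of_mem_nhds hU
    have hU' : ∀ᶠ z in 𝓝 z₀, p + z • v ∈ U := (a1_line_cont p v).continuousAt.eventually hU
    have han : AnalyticAt ℂ (fun z : ℂ => f (p + z • v)) z₀ :=
      AnalyticAt.fun_comp_of_eq (hf _ hpU) (a1_line_an p v z₀) rfl
    rcases han.eventually_eq_zero_or_eventually_ne_zero with h1 | h1
    · left
      filter_upwards [hU', h1] with z hz hz1
      exact (hFU _ hz).mpr hz1
    · right
      filter_upwards [hU'.filter_mono nhdsWithin_le_nhds, h1] with z hz hz1 hzF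
      exact hz1 ((hFU _ hz).mp hzF)
  set I : Set ℂ := {z₀ | ∀ᶠ z in 𝓝 z₀, p + z • v ∈ F} with hI
  have hIo : IsOpen I := isOpen_setOfPred_eventually_nhds
  have hIc : IsOpen Iᶜ := by
    rw [isOpen_iff_mem_nhds]
    intro z₀ hz₀
    have h1 : ∀ᶠ z in 𝓝[≠] z₀, p + z • v ∉ F := (hdich z₀).resolve_left hz₀
    rw [eventually_nhdsWithin_iff] at h1
    filter_upwards [h1] with z hz
    by_cases hzz : z = z₀
    · rw [hzz]; exact hz₀
    · intro hzI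
      exact hz hzz (mem_of_mem_nhds hzI : z ∈ {z | p + z • v ∈ F})
  have hclopen : IsClopen I := ⟨isOpen_compl_iff.mp hIc, hIo⟩
  rcases isClopen_iff.mp hclopen with h1 | h1
  · exact (hdich z₁).resolve_left (fun h2 => by
      have : z₁ ∈ I := h2
      rw [h1] at this
      exact this)
  · obtain ⟨z, hz⟩ := h
    have : z ∈ I := by rw [h1]; trivial
    exact absurd (mem_of_mem_nhds this : z ∈ {z | p + z • v ∈ F}) hz

/-- The general continuation argument along a path. -/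
theorem a1_path (D : Decomp F A B) (c : ℝ → Cd d) (hc : ContinuousOn c (Icc 0 1)) (v : Cd d)
    (K : Set ℂ) (hK : IsCompact K) (S : Set ℂ)
    (hKS : K ⊆ S)
    (hSK : ∀ t ∈ Icc (0 : ℝ) 1, ∀ z ∈ S, c t + z • v ∈ XX F A → ∃ z' ∈ K, c t + z' • v ∈ XX F A)
    (hint : ∀ t ∈ Icc (0 : ℝ) 1, ∀ z ∈ S, c t + z • v ∈ XX F A → S ∈ 𝓝 z)
    (hn : ∀ t ∈ Icc (0 : ℝ) 1, ∃ z : ℂ, c t + z • v ∉ F)
    (h0 : ∃ z ∈ S, c 0 + z • v ∈ XX F A) :
    ∀ t ∈ Icc (0 : ℝ) 1, ∃ z ∈ K, c t + z • v ∈ XX F A := by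
  set s : Set ℝ := {t | ∃ z ∈ K, c t + z • v ∈ XX F A} with hs
  have hXc : IsClosed (XX F A) := isClosed_closure
  have hclosed : IsClosed (s ∩ Icc 0 1) := by
    have h1 : ContinuousOn (fun x : ℝ × ℂ => c x.1 + x.2 • v) (Icc 0 1 ×ˢ K) := by
      apply ContinuousOn.add
      · exact hc.comp continuousOn_fst (fun x hx => hx.1)
      · exact (continuous_snd.smul continuous_const).continuousOn
    have h2 : IsClosed ((Icc (0 : ℝ) 1 ×ˢ K) ∩ (fun x : ℝ × ℂ => c x.1 + x.2 • v) ⁻¹' (XX F A)) :=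
      h1.preimage_isClosed_of_isClosed (isClosed_Icc.prod hK.isClosed) hXc
    have h3 : IsCompact ((Icc (0 : ℝ) 1 ×ˢ K) ∩ (fun x : ℝ × ℂ => c x.1 + x.2 • v) ⁻¹' (XX F A)) :=
      (isCompact_Icc.prod hK).of_isClosed_subset h2 inter_subset_left
    have h4 := (h3.image continuous_fst).isClosed
    have h5 : Prod.fst '' ((Icc (0 : ℝ) 1 ×ˢ K) ∩ (fun x : ℝ × ℂ => c x.1 + x.2 • v) ⁻¹' (XX F A)) = s ∩ Icc 0 1 := by
      ext t
      constructor
      · rintro ⟨⟨t', z⟩, ⟨⟨h6, h7⟩, h8⟩, rfl⟩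
        exact ⟨⟨z, h7, h8⟩, h6⟩
      · rintro ⟨⟨z, h7, h8⟩, h6⟩
        exact ⟨(t, z), ⟨⟨h6, h7⟩, h8⟩, rfl⟩
    rw [h5] at h4
    exact h4
  have h0s : (0 : ℝ) ∈ s := by
    obtain ⟨z, hz, hz2⟩ := h0
    obtain ⟨z', hz', hz2'⟩ := hSK 0 ⟨le_rfl, zero_le_one⟩ z hz hz2
    exact ⟨z', hz', hz2'⟩
  have hsub := hclosed.Icc_subset_of_forall_mem_nhdsWithin h0s ?_
  · intro t ht
    exact hsub ht
  · rintro t ⟨⟨z₀, hz₀, hX⟩, ht⟩
    have htI : t ∈ Icc (0 : ℝ) 1 := ⟨ht.1, ht.2.le⟩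
    have hSn := hint t htI z₀ (hKS hz₀) hX
    obtain ⟨ε, hε, hball⟩ := Metric.mem_nhds_iff.mp hSn
    have hline : ∀ᶠ z in 𝓝[≠] (0 : ℂ), (c t + z₀ • v) + z • v ∉ F := by
      apply line_dichotomy D.hF
      obtain ⟨z, hz⟩ := hn t htI
      refine ⟨z - z₀, ?_⟩
      have : c t + z₀ • v + (z - z₀) • v = c t + z • v := by rw [sub_smul]; abel
      rw [this]
      exact hz
    have hop := open_proj D hX v hline hε
    have hcont : Tendsto (fun t' => c t' + z₀ • v) (𝓝[>] t) (𝓝 (c t + z₀ • v)) := by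
      have h1 : 𝓝[>] t ≤ 𝓝[Icc 0 1] t := by
        rw [← nhdsWithin_Ioc_eq_nhdsGT ht.2]
        exact nhdsWithin_mono _ (fun x hx => ⟨ht.1.trans hx.1.le, hx.2⟩)
      have h2 : Tendsto c (𝓝[>] t) (𝓝 (c t)) := (hc t htI).mono_left h1
      exact h2.add_const _
    have hev := hcont.eventually hop
    have hI : ∀ᶠ t' in 𝓝[>] t, t' ∈ Icc (0 : ℝ) 1 := by
      filter_upwards [Ioc_mem_nhdsGT ht.2] with t' ht'
      exact ⟨ht.1.trans ht'.1.le, ht'.2⟩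
    filter_upwards [hev, hI] with t' ht' hI'
    obtain ⟨z, hz, hzX⟩ := ht'
    have h1 : c t' + (z₀ + z) • v ∈ XX F A := by
      rw [add_smul, ← add_assoc]; exact hzX
    have h2 : z₀ + z ∈ S := by
      apply hball
      rw [Metric.mem_ball, dist_eq_norm]
      simpa using hz
    exact hSK t' hI' _ h2 h1

/-- Disc lemma along a path of parallel discs. -/
theorem disc_path (D : Decomp F A B) (c : ℝ → Cd d) (hc : ContinuousOn c (Icc 0 1)) (v : Cd d)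
    {ρ : ℝ} (hρ : 0 < ρ)
    (hb : ∀ t ∈ Icc (0 : ℝ) 1, ∀ z : ℂ, ‖z‖ = ρ → c t + z • v ∉ F)
    (h0 : ∃ z : ℂ, ‖z‖ ≤ ρ ∧ c 0 + z • v ∈ XX F A) :
    ∀ t ∈ Icc (0 : ℝ) 1, ∃ z : ℂ, ‖z‖ < ρ ∧ c t + z • v ∈ XX F A := by
  have hlt : ∀ t ∈ Icc (0 : ℝ) 1, ∀ z : ℂ, ‖z‖ ≤ ρ → c t + z • v ∈ XX F A → ‖z‖ < ρ := by
    intro t ht z hz hX
    rcases hz.eq_or_lt with h1 | h1
    · exact absurd (XX_subset_F D hX) (hb t ht z h1)
    · exact h1
  have hmem : ∀ z : ℂ, z ∈ Metric.closedBall (0 : ℂ) ρ ↔ ‖z‖ ≤ ρ := fun z => by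
    rw [Metric.mem_closedBall, dist_zero_right]
  have h1 := a1_path D c hc v (Metric.closedBall 0 ρ) (isCompact_closedBall _ _) (Metric.closedBall 0 ρ)
    subset_rfl (fun t _ z hz hX => ⟨z, hz, hX⟩) (fun t ht z hz hX => by
      have h2 := hlt t ht z ((hmem z).mp hz) hX
      exact Metric.closedBall_mem_nhds_of_mem (by rw [Metric.mem_ball, dist_zero_right]; exact h2))
    (fun t ht => ⟨(ρ : ℂ), hb t ht _ (by rw [Complex.norm_real, Real.norm_eq_abs, abs_of_pos hρ])⟩)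
    (by obtain ⟨z, hz, hX⟩ := h0; exact ⟨z, (hmem z).mpr hz, hX⟩)
  intro t ht
  obtain ⟨z, hz, hX⟩ := h1 t ht
  exact ⟨z, hlt t ht z ((hmem z).mp hz) hX, hX⟩

theorem a1_shift (l : Zd d) (n : ℤ) : (n : ℂ) • zc l = zc (fun j => n * l j) := by
  funext j
  simp [zc]

/-- Strip lemma along a path of parallel strips in an integer direction. -/
theorem strip_path (D : Decomp F A B) (c : ℝ → Cd d) (hc : ContinuousOn c (Icc 0 1)) (l : Zd d)
    {T : ℝ} (hT : 0 < T)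
    (hb : ∀ t ∈ Icc (0 : ℝ) 1, ∀ z : ℂ, |z.im| = T → c t + z • zc l ∉ XX F A)
    (hn : ∀ t ∈ Icc (0 : ℝ) 1, ∃ z : ℂ, c t + z • zc l ∉ F)
    (h0 : ∃ z : ℂ, |z.im| ≤ T ∧ c 0 + z • zc l ∈ XX F A) :
    ∀ t ∈ Icc (0 : ℝ) 1, ∃ z : ℂ, |z.im| < T ∧ c t + z • zc l ∈ XX F A := by
  have hlt : ∀ t ∈ Icc (0 : ℝ) 1, ∀ z : ℂ, |z.im| ≤ T → c t + z • zc l ∈ XX F A → |z.im| < T := by
    intro t ht z hz hX
    rcases hz.eq_or_lt with h1 | h1
    · exact absurd hX (hb t ht z h1)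
    · exact h1
  have hKc : IsCompact (Icc (0 : ℝ) 1 ×ℂ Icc (-T) T) := isCompact_Icc.reProdIm isCompact_Icc
  have h1 := a1_path D c hc (zc l) (Icc (0 : ℝ) 1 ×ℂ Icc (-T) T) hKc {z | |z.im| ≤ T}
    (fun z hz => by
      rw [Complex.mem_reProdIm] at hz
      exact abs_le.mpr hz.2)
    (fun t _ z hz hX => by
      refine ⟨z - (⌊z.re⌋ : ℂ), ?_, ?_⟩
      · rw [Complex.mem_reProdIm]
        have e1 : (z - (⌊z.re⌋ : ℂ)).re = Int.fract z.re := by
          rw [Complex.sub_re, Complex.intCast_re, Int.self_sub_floor]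
        have e2 : (z - (⌊z.re⌋ : ℂ)).im = z.im := by simp
        rw [e1, e2]
        exact ⟨⟨Int.fract_nonneg _, (Int.fract_lt_one _).le⟩, abs_le.mp hz⟩
      · have h2 := (XX_per D (c t + z • zc l) (fun j => (-⌊z.re⌋) * l j)).mpr hX
        rw [← a1_shift] at h2
        have h3 : c t + z • zc l + ((-⌊z.re⌋ : ℤ) : ℂ) • zc l = c t + (z - (⌊z.re⌋ : ℂ)) • zc l := by
          push_cast
          rw [sub_smul, neg_smul]
          abel
        rw [h3] at h2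
        exact h2)
    (fun t ht z hz hX => by
      have h2 := hlt t ht z hz hX
      have h3 : ∀ᶠ z' : ℂ in 𝓝 z, |z'.im| < T :=
        (continuous_abs.comp Complex.continuous_im).continuousAt.eventually_lt_const h2
      filter_upwards [h3] with z' hz'
      exact hz'.le)
    hn (by obtain ⟨z, hz, hX⟩ := h0; exact ⟨z, hz, hX⟩)
  intro t ht
  obtain ⟨z, hz, hX⟩ := h1 t ht
  rw [Complex.mem_reProdIm] at hz
  exact ⟨z, hlt t ht z (abs_le.mpr hz.2) hX, hX⟩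

end Fermi
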