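import Pool.Agent.Lib.Fermi.Defs

/-!
# Chunk A2: openness lemma

Proof of `open_proj`: see README (1). Ingredients:
* weighted argument principle on a disc (`wap`): if `f` is analytic near the closed disc and `f ≠ 0` on the
  circle, then `∮ Q f'/f = 2πi ∑ Q(w)`, sum over the zeros of `f` in the disc with multiplicity;
* `t ↦ ∮ Φ(t, z) dz` is holomorphic if `Φ` is analytic near the circles (`diffAt_circ`);
* identity theorem in `t` on a convex open subset of `ℂ` containing `[0,1]`.
-/

open scoped BigOperators Topology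
open Set Filter

noncomputable section

namespace Fermi

open Metric in
/-- weighted argument principle, auxiliary form (induction over the zero set) -/
theorem wap_aux {ρ : ℝ} (hρ : 0 < ρ) (S : Finset ℂ) : ∀ f : ℂ → ℂ,
    AnalyticOnNhd ℂ f (closedBall 0 ρ) → (∀ z ∈ closedBall (0 : ℂ) ρ, f z = 0 ↔ z ∈ S) →
    (∀ z ∈ S, z ∈ ball (0 : ℂ) ρ) →
    ∃ L : Multiset ℂ, (∀ w, w ∈ L ↔ w ∈ S) ∧
      ∀ Q : ℂ → ℂ, AnalyticOnNhd ℂ Q (closedBall 0 ρ) →
        ∮ z in C(0, ρ), Q z * (deriv f z / f z) = 2 * Real.pi * Complex.I * (L.map Q).sum := by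
  induction S using Finset.induction_on with
  | empty =>
    intro f hf hz _
    refine ⟨0, by simp, fun Q hQ => ?_⟩
    have hne : ∀ z ∈ closedBall (0 : ℂ) ρ, f z ≠ 0 := fun z h0 h1 => by
      simpa using (hz z h0).1 h1
    have han : AnalyticOnNhd ℂ (fun z => Q z * (deriv f z / f z)) (closedBall 0 ρ) :=
      hQ.mul (hf.deriv.div hf hne)
    have : ∮ z in C(0, ρ), Q z * (deriv f z / f z) = 0 := by
      refine Complex.circleIntegral_eq_zero_of_differentiable_on_off_countable hρ.le
        countable_empty han.continuousOn ?_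
      intro z hz
      exact (han z (ball_subset_closedBall hz.1)).differentiableAt
    rw [this]; simp
  | insert z0 S hzS ih =>
    intro f hf hz hS
    have hz0b : z0 ∈ ball (0 : ℂ) ρ := hS z0 (Finset.mem_insert_self _ _)
    have hz0c : z0 ∈ closedBall (0 : ℂ) ρ := ball_subset_closedBall hz0b
    have hfz0 : f z0 = 0 := (hz z0 hz0c).2 (Finset.mem_insert_self _ _)
    have hnz : ¬ ∀ᶠ z in 𝓝 z0, f z = 0 := by
      intro h
      have h1 : {z | f z = 0} ∩ ball (0 : ℂ) ρ ∈ 𝓝 z0 :=
        inter_mem h (isOpen_ball.mem_nhds hz0b)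
      have h2 : ({z | f z = 0} ∩ ball (0 : ℂ) ρ).Infinite := infinite_of_mem_nhds z0 h1
      apply h2
      refine (Finset.finite_toSet (insert z0 S)).subset ?_
      rintro z ⟨h3, h4⟩
      exact (hz z (ball_subset_closedBall h4)).1 h3
    obtain ⟨m, g, hg, hg0, hfg⟩ :=
      (hf z0 hz0c).exists_eventuallyEq_pow_smul_nonzero_iff.2 hnz
    have hm : m ≠ 0 := by
      rintro rfl
      have := hfg.self_of_nhds
      rw [hfz0] at this
      simp at this
      exact hg0 this.symm
    set h : ℂ → ℂ := fun z => if z = z0 then g z0 else f z / (z - z0) ^ m with hh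
    have hfh : f = fun z => (z - z0) ^ m * h z := by
      funext z
      by_cases hzz : z = z0
      · subst hzz
        simp [hh, hfz0, hm]
      · have : (z - z0) ^ m ≠ 0 := pow_ne_zero _ (sub_ne_zero.2 hzz)
        simp only [hh, hzz, if_false]
        field_simp
    have hh0 : h z0 = g z0 := by simp [hh]
    have hzh : ∀ z ∈ closedBall (0 : ℂ) ρ, h z = 0 ↔ z ∈ S := by
      intro z hzz
      by_cases hz1 : z = z0
      · subst hz1
        rw [hh0]
        exact ⟨fun h => absurd h hg0, fun h => absurd h hzS⟩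
      · have h1 : (z - z0) ^ m ≠ 0 := pow_ne_zero _ (sub_ne_zero.2 hz1)
        have h2 := hz z hzz
        rw [Finset.mem_insert] at h2
        simp only [hh, hz1, if_false, div_eq_zero_iff, h1, or_false]
        rw [h2]
        simp [hz1]
    have hhan : AnalyticOnNhd ℂ h (closedBall 0 ρ) := by
      intro z hzz
      by_cases hz1 : z = z0
      · subst hz1
        refine hg.congr ?_
        filter_upwards [hfg] with w hw
        by_cases hw1 : w = z
        · subst hw1; rw [hh0]
        · have h1 : (w - z) ^ m ≠ 0 := pow_ne_zero _ (sub_ne_zero.2 hw1)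
          simp only [hh, hw1, if_false, hw, smul_eq_mul]
          field_simp
      · have h1 : (z - z0) ^ m ≠ 0 := pow_ne_zero _ (sub_ne_zero.2 hz1)
        have h2 : AnalyticAt ℂ (fun w => f w / (w - z0) ^ m) z :=
          (hf z hzz).div ((analyticAt_id.sub analyticAt_const).pow m) h1
        refine h2.congr ?_
        filter_upwards [isOpen_ne.mem_nhds hz1] with w hw
        have hw' : w ≠ z0 := hw
        simp only [hh, hw', if_false]
    obtain ⟨L, hL1, hL2⟩ := ih h hhan hzh (fun z hzz => hS z (Finset.mem_insert_of_mem hzz))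
    refine ⟨L + Multiset.replicate m z0, fun w => ?_, fun Q hQ => ?_⟩
    · rw [Multiset.mem_add, hL1, Multiset.mem_replicate, Finset.mem_insert]
      tauto
    · have hsph : ∀ z ∈ sphere (0 : ℂ) ρ, z ≠ z0 := by
        rintro z hzz rfl
        simp only [mem_sphere, mem_ball] at hzz hz0b
        linarith
      have hsphS : ∀ z ∈ sphere (0 : ℂ) ρ, h z ≠ 0 := by
        intro z hzz h0
        have := (hzh z (sphere_subset_closedBall hzz)).1 h0
        have := hS z (Finset.mem_insert_of_mem this)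
        simp only [mem_sphere, mem_ball] at hzz this
        linarith
      have hcongr : ∮ z in C(0, ρ), Q z * (deriv f z / f z) =
          ∮ z in C(0, ρ), (m * ((z - z0)⁻¹ * Q z) + Q z * (deriv h z / h z)) := by
        refine circleIntegral.integral_congr hρ.le ?_
        intro z hzz
        have h1 : z - z0 ≠ 0 := sub_ne_zero.2 (hsph z hzz)
        have h2 := hsphS z hzz
        have h3 : HasDerivAt h (deriv h z) z :=
          (hhan z (sphere_subset_closedBall hzz)).differentiableAt.hasDerivAt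
        have h4 : HasDerivAt (fun w => (w - z0) ^ m) ((m : ℂ) * (z - z0) ^ (m - 1)) z := by
          simpa using ((hasDerivAt_id z).sub_const z0).fun_pow m
        have h5 : deriv f z = (m : ℂ) * (z - z0) ^ (m - 1) * h z + (z - z0) ^ m * deriv h z := by
          rw [hfh]
          exact (h4.mul h3).deriv
        have h6 : (z - z0) ^ m = (z - z0) * (z - z0) ^ (m - 1) := by
          rw [← pow_succ']
          congr 1
          omega
        have h7 : (z - z0) ^ (m - 1) ≠ 0 := pow_ne_zero _ h1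
        show Q z * (deriv f z / f z) = m * ((z - z0)⁻¹ * Q z) + Q z * (deriv h z / h z)
        rw [h5]
        have h8 : f z = (z - z0) ^ m * h z := by rw [hfh]
        rw [h8, h6]
        field_simp
      have hi1 : CircleIntegrable (fun z => (m : ℂ) * ((z - z0)⁻¹ * Q z)) 0 ρ := by
        refine ContinuousOn.circleIntegrable hρ.le ?_
        refine continuousOn_const.mul (ContinuousOn.mul ?_ ?_)
        · refine ContinuousOn.inv₀ (by fun_prop) ?_
          intro z hzz
          exact sub_ne_zero.2 (hsph z hzz)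
        · exact hQ.continuousOn.mono sphere_subset_closedBall
      have hi2 : CircleIntegrable (fun z => Q z * (deriv h z / h z)) 0 ρ := by
        refine ContinuousOn.circleIntegrable hρ.le ?_
        refine (hQ.continuousOn.mono sphere_subset_closedBall).mul (ContinuousOn.div ?_ ?_ hsphS)
        · exact hhan.deriv.continuousOn.mono sphere_subset_closedBall
        · exact hhan.continuousOn.mono sphere_subset_closedBall
      rw [hcongr, circleIntegral.integral_add hi1 hi2, hL2 Q hQ,
        circleIntegral.integral_const_mul]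
      have hC : ∮ z in C(0, ρ), (z - z0)⁻¹ * Q z = 2 * Real.pi * Complex.I * Q z0 := by
        have := Complex.circleIntegral_sub_inv_smul_of_differentiable_on_off_countable
          (R := ρ) (c := 0) (w := z0) (f := Q) countable_empty hz0b hQ.continuousOn
          (fun z hzz => (hQ z (ball_subset_closedBall hzz.1)).differentiableAt)
        simpa [smul_eq_mul] using this
      rw [hC]
      simp only [Multiset.map_add, Multiset.sum_add, Multiset.map_replicate,
        Multiset.sum_replicate, nsmul_eq_mul]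
      ring

open Metric in
theorem finite_zeros {ρ : ℝ} (hρ : 0 < ρ) {f : ℂ → ℂ}
    (hf : AnalyticOnNhd ℂ f (closedBall 0 ρ)) (h0 : ∀ z ∈ sphere (0 : ℂ) ρ, f z ≠ 0) :
    ({z | f z = 0} ∩ closedBall (0 : ℂ) ρ).Finite := by
  by_contra hinf
  obtain ⟨x, hx, hacc⟩ := Set.Infinite.exists_accPt_of_subset_isCompact
    (s := {z | f z = 0} ∩ closedBall (0 : ℂ) ρ) hinf (isCompact_closedBall 0 ρ)
    inter_subset_right
  have hfr : ∃ᶠ z in 𝓝[≠] x, f z = 0 := by
    rw [accPt_iff_frequently_nhdsNE] at hacc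
    exact hacc.mono fun z hz => hz.1
  have := hf.eqOn_zero_of_preconnected_of_frequently_eq_zero
    (convex_closedBall (0 : ℂ) ρ).isPreconnected hx hfr
  have hmem : (ρ : ℂ) ∈ sphere (0 : ℂ) ρ := by
    simp [abs_of_pos hρ]
  exact h0 _ hmem (this (sphere_subset_closedBall hmem))

open Metric in
/-- weighted argument principle -/
theorem wap {ρ : ℝ} (hρ : 0 < ρ) {f : ℂ → ℂ}
    (hf : AnalyticOnNhd ℂ f (closedBall 0 ρ)) (h0 : ∀ z ∈ sphere (0 : ℂ) ρ, f z ≠ 0) :
    ∃ L : Multiset ℂ, (∀ w, w ∈ L ↔ (w ∈ ball (0 : ℂ) ρ ∧ f w = 0)) ∧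
      ∀ Q : ℂ → ℂ, AnalyticOnNhd ℂ Q (closedBall 0 ρ) →
        ∮ z in C(0, ρ), Q z * (deriv f z / f z) = 2 * Real.pi * Complex.I * (L.map Q).sum := by
  have hfin := finite_zeros hρ hf h0
  have hiff : ∀ z : ℂ, z ∈ hfin.toFinset ↔ (z ∈ ball (0 : ℂ) ρ ∧ f z = 0) := by
    intro z
    rw [Set.Finite.mem_toFinset]
    constructor
    · rintro ⟨h1, h2⟩
      refine ⟨?_, h1⟩
      rcases (mem_closedBall.1 h2).lt_or_eq with h | h
      · exact h
      · exact absurd h1 (h0 z h)
    · rintro ⟨h1, h2⟩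
      exact ⟨h2, ball_subset_closedBall h1⟩
  obtain ⟨L, hL1, hL2⟩ := wap_aux hρ hfin.toFinset f hf
    (fun z hz => by
      rw [Set.Finite.mem_toFinset]
      exact ⟨fun h => ⟨h, hz⟩, fun h => h.1⟩)
    (fun z hz => ((hiff z).1 hz).1)
  exact ⟨L, fun w => by rw [hL1, hiff], hL2⟩

open Metric in
/-- circle integrals with an analytic parameter -/
theorem diffAt_circ {E : Type*} [NormedAddCommGroup E] [NormedSpace ℂ E] {Φ : E → ℂ} {W : Set E}
    (hW : IsOpen W) (hΦ : AnalyticOnNhd ℂ Φ W) (a b v : E) {ρ : ℝ} (hρ : 0 < ρ) {t0 : ℂ}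
    (h : ∀ z ∈ sphere (0 : ℂ) ρ, a + t0 • b + z • v ∈ W) :
    DifferentiableAt ℂ (fun t : ℂ => ∮ z in C(0, ρ), Φ (a + t • b + z • v)) t0 := by
  have hcont : Continuous fun x : ℂ × ℂ => a + x.1 • b + x.2 • v := by fun_prop
  have hev : ∀ᶠ t in 𝓝 t0, ∀ z ∈ sphere (0 : ℂ) ρ, a + t • b + z • v ∈ W := by
    refine (isCompact_sphere (0 : ℂ) ρ).eventually_forall_of_forall_eventually ?_
    intro z hz
    exact hcont.continuousAt.eventually (hW.mem_nhds (h z hz))
  obtain ⟨η, hη, hball⟩ := Metric.eventually_nhds_iff_ball.1 hev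
  have hsub : ∀ t ∈ closedBall t0 (η / 2), ∀ z ∈ sphere (0 : ℂ) ρ, a + t • b + z • v ∈ W := by
    intro t ht z hz
    refine hball t ?_ z hz
    rw [mem_closedBall] at ht
    rw [mem_ball]
    linarith
  have hΦ' : AnalyticOnNhd ℂ (fderiv ℂ Φ) W := hΦ.fderiv
  have hcF' : ContinuousOn (fun x : ℂ × ℂ => fderiv ℂ Φ (a + x.1 • b + x.2 • v) b)
      (closedBall t0 (η / 2) ×ˢ sphere (0 : ℂ) ρ) := by
    have h1 : ContinuousOn (fun x : ℂ × ℂ => fderiv ℂ Φ (a + x.1 • b + x.2 • v))
        (closedBall t0 (η / 2) ×ˢ sphere (0 : ℂ) ρ) :=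
      hΦ'.continuousOn.comp hcont.continuousOn (fun x hx => hsub x.1 hx.1 x.2 hx.2)
    exact h1.clm_apply continuousOn_const
  obtain ⟨C, hC⟩ := ((isCompact_closedBall t0 (η / 2)).prod
    (isCompact_sphere (0 : ℂ) ρ)).exists_bound_of_continuousOn hcF'
  have hcm : ∀ θ : ℝ, circleMap 0 ρ θ ∈ sphere (0 : ℂ) ρ := fun θ =>
    circleMap_mem_sphere _ hρ.le θ
  have hFcont : ∀ t ∈ closedBall t0 (η / 2), Continuous fun θ : ℝ =>
      deriv (circleMap 0 ρ) θ • Φ (a + t • b + circleMap 0 ρ θ • v) := by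
    intro t ht
    have h1 : Continuous fun θ : ℝ => Φ (a + t • b + circleMap 0 ρ θ • v) := by
      rw [continuous_iff_continuousAt]
      intro θ
      have h2 : ContinuousAt Φ (a + t • b + circleMap 0 ρ θ • v) :=
        (hΦ _ (hsub t ht _ (hcm θ))).continuousAt
      have h3 : ContinuousAt (fun θ : ℝ => a + t • b + circleMap 0 ρ θ • v) θ := by
        have : Continuous (circleMap (0 : ℂ) ρ) := continuous_circleMap 0 ρ
        fun_prop
      exact ContinuousAt.comp (f := fun θ : ℝ => a + t • b + circleMap 0 ρ θ • v) h2 h3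
    have h4 : Continuous (deriv (circleMap (0 : ℂ) ρ)) := by
      have : deriv (circleMap (0 : ℂ) ρ) = fun θ => circleMap 0 ρ θ * Complex.I := by
        funext θ; exact deriv_circleMap 0 ρ θ
      rw [this]
      exact (continuous_circleMap 0 ρ).mul continuous_const
    exact h4.smul h1
  have hF'cont : Continuous fun θ : ℝ =>
      deriv (circleMap 0 ρ) θ • (fderiv ℂ Φ (a + t0 • b + circleMap 0 ρ θ • v) b) := by
    have h1 : Continuous fun θ : ℝ => fderiv ℂ Φ (a + t0 • b + circleMap 0 ρ θ • v) b := by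
      rw [continuous_iff_continuousAt]
      intro θ
      have h2 : ContinuousAt (fderiv ℂ Φ) (a + t0 • b + circleMap 0 ρ θ • v) :=
        (hΦ' _ (h _ (hcm θ))).continuousAt
      have h3 : ContinuousAt (fun θ : ℝ => a + t0 • b + circleMap 0 ρ θ • v) θ := by
        have : Continuous (circleMap (0 : ℂ) ρ) := continuous_circleMap 0 ρ
        fun_prop
      have h4 : ContinuousAt (fun θ : ℝ => fderiv ℂ Φ (a + t0 • b + circleMap 0 ρ θ • v)) θ :=
        ContinuousAt.comp (f := fun θ : ℝ => a + t0 • b + circleMap 0 ρ θ • v) h2 h3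
      exact h4.clm_apply continuousAt_const
    have h4 : Continuous (deriv (circleMap (0 : ℂ) ρ)) := by
      have : deriv (circleMap (0 : ℂ) ρ) = fun θ => circleMap 0 ρ θ * Complex.I := by
        funext θ; exact deriv_circleMap 0 ρ θ
      rw [this]
      exact (continuous_circleMap 0 ρ).mul continuous_const
    exact h4.smul h1
  have hs : closedBall t0 (η / 2) ∈ 𝓝 t0 := closedBall_mem_nhds t0 (by positivity)
  have key := (intervalIntegral.hasDerivAt_integral_of_dominated_loc_of_deriv_le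
    (μ := MeasureTheory.volume) (a := 0) (b := 2 * Real.pi) (𝕜 := ℂ) (E := ℂ)
    (F := fun t θ => deriv (circleMap 0 ρ) θ • Φ (a + t • b + circleMap 0 ρ θ • v))
    (F' := fun t θ => deriv (circleMap 0 ρ) θ •
      (fderiv ℂ Φ (a + t • b + circleMap 0 ρ θ • v) b))
    (x₀ := t0) (s := closedBall t0 (η / 2)) (bound := fun _ => ρ * C) hs
    (by
      filter_upwards [hs] with t ht
      exact (hFcont t ht).aestronglyMeasurable)
    ((hFcont t0 (mem_closedBall_self (by positivity))).intervalIntegrable _ _)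
    (hF'cont.aestronglyMeasurable)
    (by
      refine Filter.Eventually.of_forall ?_
      intro θ _ t ht
      have h1 := hC (t, circleMap 0 ρ θ) ⟨ht, hcm θ⟩
      rw [norm_smul]
      have h2 : ‖deriv (circleMap (0 : ℂ) ρ) θ‖ = ρ := by
        rw [deriv_circleMap]; simp [abs_of_pos hρ]
      rw [h2]
      exact mul_le_mul_of_nonneg_left h1 hρ.le)
    (by simp)
    (by
      refine Filter.Eventually.of_forall ?_
      intro θ _ t ht
      have h1 : HasFDerivAt Φ (fderiv ℂ Φ (a + t • b + circleMap 0 ρ θ • v))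
          (a + t • b + circleMap 0 ρ θ • v) :=
        (hΦ _ (hsub t ht _ (hcm θ))).differentiableAt.hasFDerivAt
      have h2 : HasDerivAt (fun t : ℂ => a + t • b + circleMap 0 ρ θ • v) b t := by
        have := ((hasDerivAt_id t).smul_const b).const_add a
        simpa using this.add_const (circleMap 0 ρ θ • v)
      have h3 := h1.comp_hasDerivAt t h2
      exact h3.const_smul (deriv (circleMap (0 : ℂ) ρ) θ))).2
  exact key.differentiableAt

variable {d : ℕ} {F A B : Set (Cd d)}

/-- if all weighted sums vanish, all weights vanish -/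
theorem weights_zero (M : Multiset ℂ)
    (h : ∀ P : Polynomial ℂ, P.eval 0 = 0 → (M.map fun x => P.eval x).sum = 0) :
    ∀ u ∈ M, u = 0 := by
  classical
  intro u hu
  by_contra hu0
  set P : Polynomial ℂ :=
    Polynomial.X * ∏ x ∈ M.toFinset.erase u, (Polynomial.X - Polynomial.C x) with hP
  have h0 : P.eval 0 = 0 := by simp [hP]
  have h1 := h P h0
  rw [Finset.sum_multiset_map_count] at h1
  rw [Finset.sum_eq_single u] at h1
  · have h2 : P.eval u ≠ 0 := by
      rw [hP, Polynomial.eval_mul, Polynomial.eval_X, Polynomial.eval_prod]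
      refine mul_ne_zero hu0 (Finset.prod_ne_zero_iff.2 ?_)
      intro x hx
      simp only [Polynomial.eval_sub, Polynomial.eval_X, Polynomial.eval_C]
      exact sub_ne_zero.2 (Finset.ne_of_mem_erase hx).symm
    rw [nsmul_eq_mul] at h1
    rcases mul_eq_zero.1 h1 with h3 | h3
    · have : M.count u = 0 := by exact_mod_cast h3
      exact (Multiset.count_ne_zero.2 hu) this
    · exact h2 h3
  · intro x hx hxu
    have : P.eval x = 0 := by
      rw [hP, Polynomial.eval_mul, Polynomial.eval_prod]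
      have : ∏ y ∈ M.toFinset.erase u,
          Polynomial.eval x (Polynomial.X - Polynomial.C y) = 0 :=
        Finset.prod_eq_zero (Finset.mem_erase.2 ⟨hxu, hx⟩) (by simp)
      rw [this, mul_zero]
    rw [this, smul_zero]
  · intro hx
    exact absurd (Multiset.mem_toFinset.2 hu) hx

open Metric in
/-- Openness lemma. -/
theorem open_proj (D : Decomp F A B) {p : Cd d} (hp : p ∈ XX F A) (v : Cd d)
    (hv : ∀ᶠ z in 𝓝[≠] (0 : ℂ), p + z • v ∉ F) {ε : ℝ} (hε : 0 < ε) :
    ∀ᶠ p' in 𝓝 p, ∃ z : ℂ, ‖z‖ < ε ∧ p' + z • v ∈ XX F A := by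
  obtain ⟨U1, hU1, f, hf, hfF⟩ := D.hF p
  obtain ⟨U2, hU2, ι, g, hg, hgA⟩ := D.hA p
  obtain ⟨U, hUsub, hUo, hpU⟩ := _root_.mem_nhds_iff.1 (inter_mem hU1 hU2)
  have hf' : AnalyticOnNhd ℂ f U := hf.mono (fun x hx => (hUsub hx).1)
  have hg' : ∀ i, AnalyticOnNhd ℂ (g i) U := fun i => (hg i).mono (fun x hx => (hUsub hx).2)
  have hF' : ∀ k ∈ U, (k ∈ F ↔ f k = 0) := fun k hk => hfF k (hUsub hk).1
  have hA' : ∀ k ∈ U, (k ∈ A ↔ ∀ i, g i k = 0) := fun k hk => hgA k (hUsub hk).2
  -- the open set where `f` does not vanish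
  set W : Set (Cd d) := {k | k ∈ U ∧ f k ≠ 0} with hWdef
  have hWo : IsOpen W := by
    rw [isOpen_iff_mem_nhds]
    rintro k ⟨hk1, hk2⟩
    have h1 : ∀ᶠ x in 𝓝 k, f x ≠ 0 := (hf' k hk1).continuousAt.eventually_ne hk2
    filter_upwards [h1, hUo.mem_nhds hk1] with x hx1 hx2 using ⟨hx2, hx1⟩
  have hWF : ∀ k ∈ W, k ∉ F := fun k hk h => hk.2 ((hF' k hk.1).1 h)
  have hWX : ∀ k ∈ W, k ∉ XX F A := by
    intro k hk h
    obtain ⟨x, hx1, hx2⟩ := mem_closure_iff.1 h W hWo hk
    exact hWF x hx1 hx2.1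
  -- choice of the radius
  have hline : Continuous fun z : ℂ => p + z • v := by fun_prop
  have hev1 : ∀ᶠ z in 𝓝 (0 : ℂ), p + z • v ∈ U := by
    refine hline.continuousAt.eventually (hUo.mem_nhds ?_)
    simpa using hpU
  have hev2 : ∀ᶠ z in 𝓝 (0 : ℂ), z ≠ 0 → p + z • v ∉ F := by
    rw [eventually_nhdsWithin_iff] at hv
    filter_upwards [hv] with z hz h0 using hz h0
  obtain ⟨ρ0, hρ0, hball⟩ := Metric.eventually_nhds_iff_ball.1 (hev1.and hev2)
  set ρ : ℝ := min ρ0 ε / 2 with hρdef
  have hρ : 0 < ρ := by positivity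
  have hρ1 : ρ < ρ0 := by
    have := min_le_left ρ0 ε
    have : 0 < min ρ0 ε := lt_min hρ0 hε
    rw [hρdef]; linarith [min_le_left ρ0 ε]
  have hρ2 : ρ < ε := by
    have : 0 < min ρ0 ε := lt_min hρ0 hε
    rw [hρdef]; linarith [min_le_right ρ0 ε]
  have hcl : ∀ z ∈ closedBall (0 : ℂ) ρ, p + z • v ∈ U := by
    intro z hz
    refine (hball z ?_).1
    rw [mem_ball]; exact lt_of_le_of_lt hz hρ1
  have hsp : ∀ z ∈ sphere (0 : ℂ) ρ, p + z • v ∈ W := by
    intro z hz
    have h1 := hball z (by rw [mem_ball, mem_sphere.1 hz]; exact hρ1)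
    have h2 : z ≠ 0 := by
      rintro rfl
      rw [mem_sphere, dist_self] at hz
      linarith
    exact ⟨h1.1, fun h => h1.2 h2 ((hF' _ h1.1).2 h)⟩
  -- the ball of base points
  have hprod : Continuous fun x : Cd d × ℂ => x.1 + x.2 • v := by fun_prop
  have hevU : ∀ᶠ x in 𝓝 p, ∀ z ∈ closedBall (0 : ℂ) ρ, x + z • v ∈ U := by
    refine (isCompact_closedBall (0 : ℂ) ρ).eventually_forall_of_forall_eventually ?_
    intro z hz
    exact hprod.continuousAt.eventually (hUo.mem_nhds (hcl z hz))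
  have hevW : ∀ᶠ x in 𝓝 p, ∀ z ∈ sphere (0 : ℂ) ρ, x + z • v ∈ W := by
    refine (isCompact_sphere (0 : ℂ) ρ).eventually_forall_of_forall_eventually ?_
    intro z hz
    exact hprod.continuousAt.eventually (hWo.mem_nhds (hsp z hz))
  obtain ⟨δ, hδ, hB⟩ := Metric.eventually_nhds_iff_ball.1 (hevU.and hevW)
  have hbn : ball p δ ∈ 𝓝 p := ball_mem_nhds p hδ
  filter_upwards [hbn] with p1 hp1
  by_contra hno
  push Not at hno
  -- the closed disc over `p1` misses `XX F A`
  have hmiss : ∀ z ∈ closedBall (0 : ℂ) ρ, p1 + z • v ∉ XX F A := by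
    intro z hz
    exact hno z (lt_of_le_of_lt (by simpa using hz) hρ2)
  have hevX : ∀ᶠ x in 𝓝 p1, ∀ z ∈ closedBall (0 : ℂ) ρ, x + z • v ∉ XX F A := by
    refine (isCompact_closedBall (0 : ℂ) ρ).eventually_forall_of_forall_eventually ?_
    intro z hz
    have hXc : IsOpen (XX F A)ᶜ := isClosed_closure.isOpen_compl
    have hmem : (XX F A)ᶜ ∈ 𝓝 (p1 + z • v) := hXc.mem_nhds (hmiss z hz)
    exact (hprod.continuousAt (x := (p1, z))).eventually hmem
  -- claim: every point of `F` in the ball is in `A`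
  have hclaim : ∀ p2 ∈ ball p δ, p2 ∈ F → p2 ∈ A := by
    intro p2 hp2 hp2F
    have hp2U : p2 ∈ U := by
      have := (hB p2 hp2).1 0 (mem_closedBall_self hρ.le)
      simpa using this
    rw [hA' p2 hp2U]
    intro i
    set Ω : Set ℂ := {t : ℂ | p1 + t • (p2 - p1) ∈ ball p δ} with hΩ
    have hct : Continuous fun t : ℂ => p1 + t • (p2 - p1) := by fun_prop
    have hΩo : IsOpen Ω := isOpen_ball.preimage hct
    have hΩc : Convex ℝ Ω := by
      intro s hs t ht a b ha hb hab
      have h1 : p1 + (a • s + b • t) • (p2 - p1) =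
          a • (p1 + s • (p2 - p1)) + b • (p1 + t • (p2 - p1)) := by
        have hb' : b = 1 - a := by linarith
        funext j
        simp only [Pi.add_apply, Pi.smul_apply, Pi.sub_apply, smul_eq_mul, Complex.real_smul, hb']
        push_cast
        ring
      show p1 + (a • s + b • t) • (p2 - p1) ∈ ball p δ
      rw [h1]
      exact (convex_ball p δ) hs ht ha hb hab
    have h0Ω : (0 : ℂ) ∈ Ω := by
      show p1 + (0 : ℂ) • (p2 - p1) ∈ ball p δ
      simpa using hp1
    have h1Ω : (1 : ℂ) ∈ Ω := by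
      show p1 + (1 : ℂ) • (p2 - p1) ∈ ball p δ
      simpa using hp2
    -- one variable functions
    have hφ : ∀ t ∈ Ω, AnalyticOnNhd ℂ (fun z : ℂ => f (p1 + t • (p2 - p1) + z • v))
        (closedBall 0 ρ) := by
      intro t ht z hz
      have h1 : AnalyticAt ℂ (fun z : ℂ => p1 + t • (p2 - p1) + z • v) z := by fun_prop
      exact (hf' _ ((hB _ ht).1 z hz)).comp_of_eq h1 rfl
    have hφ0 : ∀ t ∈ Ω, ∀ z ∈ sphere (0 : ℂ) ρ,
        f (p1 + t • (p2 - p1) + z • v) ≠ 0 := fun t ht z hz => ((hB _ ht).2 z hz).2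
    have hγ : ∀ t ∈ Ω, AnalyticOnNhd ℂ (fun z : ℂ => g i (p1 + t • (p2 - p1) + z • v))
        (closedBall 0 ρ) := by
      intro t ht z hz
      have h1 : AnalyticAt ℂ (fun z : ℂ => p1 + t • (p2 - p1) + z • v) z := by fun_prop
      exact (hg' i _ ((hB _ ht).1 z hz)).comp_of_eq h1 rfl
    -- derivative of `f` along the line
    have hder : ∀ t ∈ Ω, ∀ z ∈ sphere (0 : ℂ) ρ,
        deriv (fun z : ℂ => f (p1 + t • (p2 - p1) + z • v)) z =
          fderiv ℂ f (p1 + t • (p2 - p1) + z • v) v := by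
      intro t ht z hz
      have h1 : HasFDerivAt f (fderiv ℂ f (p1 + t • (p2 - p1) + z • v))
          (p1 + t • (p2 - p1) + z • v) :=
        (hf' _ ((hB _ ht).1 z (sphere_subset_closedBall hz))).differentiableAt.hasFDerivAt
      have h2 : HasDerivAt (fun z : ℂ => p1 + t • (p2 - p1) + z • v) v z := by
        have := ((hasDerivAt_id z).smul_const v).const_add (p1 + t • (p2 - p1))
        simpa using this
      exact (h1.comp_hasDerivAt z h2).deriv
    obtain ⟨L1, hL1, hL1'⟩ := wap hρ (hφ 1 h1Ω) (hφ0 1 h1Ω)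
    have hall : ∀ u ∈ L1.map (fun z : ℂ => g i (p1 + (1 : ℂ) • (p2 - p1) + z • v)), u = 0 := by
      refine weights_zero _ ?_
      intro P hP0
      set Φ : Cd d → ℂ := fun k => P.eval (g i k) * (fderiv ℂ f k v / f k) with hΦdef
      have hPan : ∀ x : ℂ, AnalyticAt ℂ (fun y : ℂ => P.eval y) x := by
        intro x
        have h1 : Differentiable ℂ fun y : ℂ => P.eval y := P.differentiable
        exact h1.analyticAt x
      have hΦan : AnalyticOnNhd ℂ Φ W := by
        intro k hk
        have h1 : AnalyticAt ℂ (fun k => P.eval (g i k)) k :=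
          (hPan (g i k)).comp_of_eq (hg' i k hk.1) rfl
        have h2 : AnalyticAt ℂ (fun k => fderiv ℂ f k v) k := by
          have h3 : AnalyticAt ℂ (fderiv ℂ f) k := hf'.fderiv k hk.1
          exact (ContinuousLinearMap.apply ℂ ℂ v).analyticAt _ |>.comp_of_eq h3 rfl
        exact h1.mul (h2.div (hf' k hk.1) hk.2)
      set I : ℂ → ℂ := fun t => ∮ z in C(0, ρ), Φ (p1 + t • (p2 - p1) + z • v) with hI
      have hIan : AnalyticOnNhd ℂ I Ω := by
        rw [Complex.analyticOnNhd_iff_differentiableOn hΩo]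
        intro t ht
        exact (diffAt_circ hWo hΦan p1 (p2 - p1) v hρ
          (fun z hz => (hB _ ht).2 z hz)).differentiableWithinAt
      have hform : ∀ t ∈ Ω, ∀ L : Multiset ℂ,
          (∀ Q : ℂ → ℂ, AnalyticOnNhd ℂ Q (closedBall 0 ρ) →
            ∮ z in C(0, ρ), Q z * (deriv (fun z : ℂ => f (p1 + t • (p2 - p1) + z • v)) z /
              f (p1 + t • (p2 - p1) + z • v)) = 2 * Real.pi * Complex.I * (L.map Q).sum) →
          I t = 2 * Real.pi * Complex.I *
            (L.map fun z : ℂ => P.eval (g i (p1 + t • (p2 - p1) + z • v))).sum := by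
        intro t ht L hL
        have h1 : AnalyticOnNhd ℂ (fun z : ℂ => P.eval (g i (p1 + t • (p2 - p1) + z • v)))
            (closedBall 0 ρ) := by
          intro z hz
          exact (hPan _).comp_of_eq (hγ t ht z hz) rfl
        rw [← hL _ h1, hI]
        refine circleIntegral.integral_congr hρ.le ?_
        intro z hz
        simp only [hΦdef]
        rw [hder t ht z hz]
      have hI0 : I =ᶠ[𝓝 0] 0 := by
        have h1 : ∀ᶠ t in 𝓝 (0 : ℂ), ∀ z ∈ closedBall (0 : ℂ) ρ,
            p1 + t • (p2 - p1) + z • v ∉ XX F A := by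
          have h2 : Tendsto (fun t : ℂ => p1 + t • (p2 - p1)) (𝓝 0) (𝓝 p1) := by
            have := hct.tendsto 0
            simpa using this
          exact h2.eventually hevX
        filter_upwards [h1, hΩo.mem_nhds h0Ω] with t ht1 ht2
        obtain ⟨L, hL, hL'⟩ := wap hρ (hφ t ht2) (hφ0 t ht2)
        rw [hform t ht2 L hL']
        have h3 : (L.map fun z : ℂ => P.eval (g i (p1 + t • (p2 - p1) + z • v))) =
            L.map fun _ => (0 : ℂ) := by
          refine Multiset.map_congr rfl ?_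
          intro z hz
          obtain ⟨hz1, hz2⟩ := (hL z).1 hz
          have hz3 : z ∈ closedBall (0 : ℂ) ρ := ball_subset_closedBall hz1
          have hkU := (hB _ ht2).1 z hz3
          have hkF := (hF' _ hkU).2 hz2
          have hkA : p1 + t • (p2 - p1) + z • v ∈ A := by
            by_contra hnA
            exact ht1 z hz3 (subset_closure ⟨hkF, hnA⟩)
          rw [(hA' _ hkU).1 hkA i, hP0]
        rw [h3]
        simp
      have hI1 := hIan.eqOn_zero_of_preconnected_of_eventuallyEq_zero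
        hΩc.isPreconnected h0Ω hI0 h1Ω
      rw [hform 1 h1Ω L1 hL1'] at hI1
      rw [Multiset.map_map]
      have h2pi : (2 * Real.pi * Complex.I : ℂ) ≠ 0 := by
        simp [Real.pi_ne_zero]
      have := (mul_eq_zero.1 hI1).resolve_left h2pi
      simpa [Function.comp_def] using this
    have hz0 : (0 : ℂ) ∈ L1 := by
      rw [hL1]
      refine ⟨mem_ball_self hρ, ?_⟩
      have : p1 + (1 : ℂ) • (p2 - p1) + (0 : ℂ) • v = p2 := by simp
      rw [this]
      exact (hF' p2 hp2U).1 hp2F
    have h5 := hall (g i (p1 + (1 : ℂ) • (p2 - p1) + (0 : ℂ) • v))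
      (Multiset.mem_map.2 ⟨0, hz0, rfl⟩)
    simpa using h5
  obtain ⟨x, hx1, hx2⟩ := mem_closure_iff_nhds.1 hp (ball p δ) hbn
  exact hx2.2 (hclaim x hx1 hx2.1)

end Fermi
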