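import Pool.Agent.Lib.Fermi.GeoDefs
import Pool.Agent.Lib.Fermi.OpEff
import Pool.Agent.Lib.Fermi.GeoAux

/-!
# Chunk SD: Stage B (crossing in all dimensions), definitions and elementary facts

The site `0` moves in the complex plane spanned by `l` and `ed l`: `kap Ξ ζ = (Ξ/|l|²) l + ζ ed`, `Ξ = kap · l`.
`Ξ` is close to `X0 = ta * |l||ed|`, `ta = tt / di e l`; on the sheet `ζ ≈ I Ξ/|l||ed|`.
`lam n` is the derivative of `q_n` along the sheet.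
`one_le_l2_ed`: if `ed l = 0` take `l' ∈ {e_1, e_2}` not parallel to `l` and use `Q.hea`.
-/

open scoped BigOperators Topology
open Set Filter Complex

noncomputable section

namespace Fermi

variable {d : ℕ} {μ : ℂ} {w : Zd d → ℂ}

/-- squared euclidean norm of a lattice vector -/
def l2 (l : Zd d) : ℝ := (di l l : ℝ)

namespace Dirs
variable {P : Sc d μ w} (Q : Dirs P)
/-- `|l| |ed l|` -/
def so (l : Zd d) : ℝ := Real.sqrt (l2 l * l2 (Q.ed l))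
/-- the point of the line over the slab is `ta • ed l` -/
def ta (l : Zd d) : ℝ := P.tt / (di Q.e l : ℝ)
/-- centre of the range of `Ξ` -/
def X0 (l : Zd d) : ℝ := Q.ta l * Q.so l
/-- points of the plane spanned by `l` and `ed l` -/
def kap (l : Zd d) (Ξ ζ : ℂ) : Cd d := (Ξ / (l2 l : ℂ)) • zc l + ζ • zc (Q.ed l)
/-- range of the parameter -/
def Om (l : Zd d) : Set ℂ := {Ξ | |Ξ.re - Q.X0 l| < 3 ∧ |Ξ.im| < 3 * P.T1 * l2 l}
/-- the derivative of `q_n` along the sheet -/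
def lam (l n : Zd d) : ℂ :=
  2 * ((di n l : ℂ) / (l2 l : ℂ) + I * (di n (Q.ed l) : ℂ) / (Q.so l : ℂ))
end Dirs

/-- `zh` parametrises the exact sheet `Ehat = 0` over `Om` -/
structure Sheet (P : Sc d μ w) (Q : Dirs P) (l : Zd d) (zh : ℂ → ℂ) : Prop where
  zero : ∀ Ξ ∈ Q.Om l, Ehat P (Q.kap l Ξ (zh Ξ)) = 0
  near : ∀ Ξ ∈ Q.Om l, ‖zh Ξ - I * Ξ / (Q.so l : ℂ)‖ ≤ (P.Λ ^ 10)⁻¹
  q0 : ∀ Ξ ∈ Q.Om l, ‖q μ (Q.kap l Ξ (zh Ξ)) 0 + w 0‖ ≤ (P.Λ ^ 2)⁻¹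
  diff : DifferentiableOn ℂ zh (Q.Om l)
  lip : ∀ Ξ₁ ∈ Q.Om l, ∀ Ξ₂ ∈ Q.Om l, ‖Ξ₁ - Ξ₂‖ ≤ 1 / 4 →
    ‖zh Ξ₁ - zh Ξ₂ - I * (Ξ₁ - Ξ₂) / (Q.so l : ℂ)‖ ≤ (P.Λ ^ 8)⁻¹ * ‖Ξ₁ - Ξ₂‖
  q0lip : ∀ Ξ₁ ∈ Q.Om l, ∀ Ξ₂ ∈ Q.Om l, ‖Ξ₁ - Ξ₂‖ ≤ 1 / 4 →
    ‖q μ (Q.kap l Ξ₁ (zh Ξ₁)) 0 - q μ (Q.kap l Ξ₂ (zh Ξ₂)) 0‖ ≤ 5 * (P.Λ ^ 2)⁻¹ * ‖Ξ₁ - Ξ₂‖

variable {P : Sc d μ w} (Q : Dirs P) {l : Zd d}

theorem one_le_l2 (hl : l ≠ 0) : 1 ≤ l2 l := by
  unfold l2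
  exact_mod_cast Int.add_one_le_iff.mpr (ga_di_self_pos hl)

theorem l2_nonneg (l : Zd d) : 0 ≤ l2 l := by
  unfold l2 di
  push_cast
  exact Finset.sum_nonneg fun i _ => mul_self_nonneg _

theorem l2_le (P : Sc d μ w) (hlL : ‖l‖ ≤ P.L) : 100 * l2 l ≤ P.Λ := by
  have h := ga_di_small P hlL hlL
  have h2 : l2 l ≤ |(di l l : ℝ)| := le_abs_self _
  have h3 : 0 ≤ |(di l l : ℝ)| := abs_nonneg _
  linarith

theorem norm_sq_le_l2 (n : Zd d) : ‖n‖ ^ 2 ≤ l2 n := by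
  have h0 := l2_nonneg n
  have h1 : ‖n‖ ≤ Real.sqrt (l2 n) := by
    refine (pi_norm_le_iff_of_nonneg (Real.sqrt_nonneg _)).mpr fun j => ?_
    apply Real.le_sqrt_of_sq_le
    have h2 : l2 n = ∑ i, (n i : ℝ) * (n i : ℝ) := by
      unfold l2 di
      push_cast
      rfl
    rw [h2, Int.norm_eq_abs, sq_abs, sq]
    exact Finset.single_le_sum (f := fun i => (n i : ℝ) * (n i : ℝ))
      (fun i _ => mul_self_nonneg _) (Finset.mem_univ j)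
  calc ‖n‖ ^ 2 ≤ Real.sqrt (l2 n) ^ 2 := by gcongr
    _ = l2 n := Real.sq_sqrt h0

private lemma sd_norm_single (i : Fin d) : ‖(Pi.single i 1 : Zd d)‖ = 1 := by
  rw [Pi.norm_single]
  simp

private lemma sd_di_single (n : Zd d) (i : Fin d) : di n (Pi.single i 1) = n i := by
  unfold di
  rw [Finset.sum_eq_single i]
  · simp
  · intro b _ hb
    simp [Pi.single_eq_of_ne hb]
  · simp

theorem ed_ne_zero (hl : l ≠ 0) (hlL : ‖l‖ ≤ P.L) : Q.ed l ≠ 0 := by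
  intro h
  have hL : (30 : ℝ) ≤ P.L := ga_L P
  have hd := P.hd
  have key : ∀ i : Fin d, ∃ k : ℝ, ∀ j : Fin d, j ≠ i → l j = 0 := by
    intro i
    refine ⟨0, ?_⟩
    have h1 : (Pi.single i 1 : Zd d) ≠ 0 := by
      intro h'
      have := congrFun h' i
      simp at this
    have h2 : ‖(Pi.single i 1 : Zd d)‖ ≤ P.L := by
      rw [sd_norm_single]
      linarith
    have h3 : di Q.e l * di Q.a (Pi.single i 1) = di Q.e (Pi.single i 1) * di Q.a l := by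
      rw [sd_di_single, sd_di_single]
      have := congrFun h i
      unfold Dirs.ed at this
      simp only [Pi.sub_apply, Pi.smul_apply, smul_eq_mul, Pi.zero_apply] at this
      linarith
    obtain ⟨a, b, ha, hb, hab⟩ := Q.hea l _ hl hlL h1 h2 h3
    intro j hj
    have := congrFun hab j
    simp only [Pi.smul_apply, smul_eq_mul, Pi.single_eq_of_ne hj, mul_zero] at this
    rcases mul_eq_zero.mp this with h' | h'
    · exact absurd h' ha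
    · exact h'
  obtain ⟨_, h1⟩ := key ⟨0, by omega⟩
  obtain ⟨_, h2⟩ := key ⟨1, by omega⟩
  apply hl
  funext j
  by_cases hj : j = ⟨0, by omega⟩
  · apply h2 j
    rw [hj]
    intro h'
    have := Fin.mk.inj h'
    omega
  · exact h1 j hj

theorem one_le_l2_ed (hl : l ≠ 0) (hlL : ‖l‖ ≤ P.L) : 1 ≤ l2 (Q.ed l) :=
  one_le_l2 (ed_ne_zero Q hl hlL)

theorem l2_ed_le (hlL : ‖l‖ ≤ P.L) : l2 (Q.ed l) ≤ P.Λ := Q.ned l hlL

theorem di_ed (m l : Zd d) : di m (Q.ed l) = di Q.e l * di m Q.a - di Q.a l * di m Q.e := by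
  unfold Dirs.ed
  rw [ga_di_comm m, ga_di_sub_left, ga_di_smul_left, ga_di_smul_left, ga_di_comm Q.a m,
    ga_di_comm Q.e m]

theorem di_ed_self (l : Zd d) : di l (Q.ed l) = 0 := by
  rw [di_ed, ga_di_comm l Q.a, ga_di_comm l Q.e]
  ring

theorem so_sq (l : Zd d) : Q.so l ^ 2 = l2 l * l2 (Q.ed l) :=
  Real.sq_sqrt (mul_nonneg (l2_nonneg _) (l2_nonneg _))

theorem so_nonneg (l : Zd d) : 0 ≤ Q.so l := Real.sqrt_nonneg _

theorem one_le_so (hl : l ≠ 0) (hlL : ‖l‖ ≤ P.L) : 1 ≤ Q.so l := by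
  apply Real.le_sqrt_of_sq_le
  have h1 := one_le_l2 hl
  have h2 := one_le_l2_ed Q hl hlL
  nlinarith

theorem so_le (hlL : ‖l‖ ≤ P.L) : 10 * Q.so l ≤ P.Λ := by
  have h1 := l2_le P hlL
  have h2 := l2_ed_le Q hlL
  have h3 := so_sq Q l
  have h4 := l2_nonneg l
  have h5 := ga_Lam_pos P
  have h6 : (10 * Q.so l) ^ 2 ≤ P.Λ ^ 2 := by
    have : l2 l * l2 (Q.ed l) ≤ l2 l * P.Λ := mul_le_mul_of_nonneg_left h2 h4
    nlinarith [mul_le_mul_of_nonneg_right h1 h5.le]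
  exact le_of_sq_le_sq h6 h5.le

theorem ta_ge (hl : l ≠ 0) (hlL : ‖l‖ ≤ P.L) : P.Λ ^ 19 ≤ |Q.ta l| := by
  have h1 := ga_di_e_one Q hl hlL
  have h2 := Q.be l hlL
  unfold Dirs.ta
  rw [abs_div, abs_of_pos (ga_tt_pos P), le_div_iff₀ (by linarith)]
  have h3 : P.tt = P.Λ ^ 19 * P.Λ := by unfold Sc.tt; ring
  rw [h3]
  exact mul_le_mul_of_nonneg_left h2 (ga_pow_pos P 19).le

theorem ta_le (hl : l ≠ 0) (hlL : ‖l‖ ≤ P.L) : |Q.ta l| ≤ P.Λ ^ 20 := by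
  have h1 := ga_di_e_one Q hl hlL
  unfold Dirs.ta
  rw [abs_div, abs_of_pos (ga_tt_pos P), div_le_iff₀ (by linarith)]
  have h3 : P.tt = P.Λ ^ 20 := rfl
  rw [h3]
  have := ga_pow_pos P 20
  nlinarith

theorem X0_ge (hl : l ≠ 0) (hlL : ‖l‖ ≤ P.L) : P.Λ ^ 19 ≤ |Q.X0 l| := by
  have h1 := ta_ge Q hl hlL
  have h2 := one_le_so Q hl hlL
  unfold Dirs.X0
  rw [abs_mul, abs_of_nonneg (so_nonneg Q l)]
  have := abs_nonneg (Q.ta l)
  nlinarith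

theorem X0_le (hl : l ≠ 0) (hlL : ‖l‖ ≤ P.L) : |Q.X0 l| ≤ P.Λ ^ 21 := by
  have h1 := ta_le Q hl hlL
  have h2 := so_le Q hlL
  have h3 := so_nonneg Q l
  unfold Dirs.X0
  rw [abs_mul, abs_of_nonneg h3, pow_succ]
  exact mul_le_mul h1 (by linarith) h3 (ga_pow_pos P 20).le

theorem bil_zc_zc (m n : Zd d) : bil (zc m) (zc n) = (di m n : ℂ) := by
  unfold bil zc di
  push_cast
  rfl

theorem bil_kap_zc (l n : Zd d) (Ξ ζ : ℂ) : bil (Q.kap l Ξ ζ) (zc n) =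
    Ξ * (di n l : ℂ) / (l2 l : ℂ) + ζ * (di n (Q.ed l) : ℂ) := by
  unfold Dirs.kap
  rw [bil_add_left, bil_smul_left, bil_smul_left, bil_zc_zc, bil_zc_zc, ga_di_comm l n,
    ga_di_comm (Q.ed l) n]
  ring

theorem bil_kap (hl : l ≠ 0) (Ξ ζ : ℂ) : bil (Q.kap l Ξ ζ) (Q.kap l Ξ ζ) =
    Ξ ^ 2 / (l2 l : ℂ) + ζ ^ 2 * (l2 (Q.ed l) : ℂ) := by
  have h0 : (l2 l : ℂ) ≠ 0 := by
    have := one_le_l2 hl
    exact_mod_cast (by linarith : (0:ℝ) < l2 l).ne'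
  have h1 : bil (Q.kap l Ξ ζ) (Q.kap l Ξ ζ) =
      (Ξ / (l2 l : ℂ)) * bil (Q.kap l Ξ ζ) (zc l) + ζ * bil (Q.kap l Ξ ζ) (zc (Q.ed l)) := by
    conv_lhs => rw [bil_comm]
    conv_lhs => enter [1]; unfold Dirs.kap
    rw [bil_add_left, bil_smul_left, bil_smul_left, bil_comm (zc l), bil_comm (zc (Q.ed l))]
  rw [h1, bil_kap_zc, bil_kap_zc, di_ed_self, ga_di_comm (Q.ed l) l, di_ed_self]
  have h2 : ((di l l : ℤ) : ℂ) = (l2 l : ℂ) := by unfold l2; push_cast; rfl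
  have h3 : ((di (Q.ed l) (Q.ed l) : ℤ) : ℂ) = (l2 (Q.ed l) : ℂ) := by unfold l2; push_cast; rfl
  rw [h2, h3]
  push_cast
  field_simp
  ring

theorem q_kap (l n : Zd d) (Ξ ζ : ℂ) : q μ (Q.kap l Ξ ζ) n = q μ (Q.kap l Ξ ζ) 0 +
    2 * (Ξ * (di n l : ℂ) / (l2 l : ℂ) + ζ * (di n (Q.ed l) : ℂ)) + (l2 n : ℂ) := by
  rw [q_eq, bil_kap_zc, bil_zc_zc]
  unfold l2
  push_cast
  rfl

theorem im_kap (l : Zd d) (Ξ ζ : ℂ) (j : Fin d) :
    im (Q.kap l Ξ ζ) j = Ξ.im / l2 l * (l j : ℝ) + ζ.im * (Q.ed l j : ℝ) := by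
  unfold im Dirs.kap zc
  simp only [Pi.add_apply, Pi.smul_apply, smul_eq_mul, Complex.add_im]
  have h1 : Ξ / (l2 l : ℂ) * ((l j : ℤ) : ℂ) = Ξ * (((l j : ℝ) / l2 l : ℝ) : ℂ) := by
    push_cast
    ring
  have h2 : ζ * ((Q.ed l j : ℤ) : ℂ) = ζ * ((Q.ed l j : ℝ) : ℂ) := by
    push_cast
    ring
  rw [h1, h2, Complex.im_mul_ofReal, Complex.im_mul_ofReal]
  ring

private lemma lam_form (l n : Zd d) : Q.lam l n = ((2 * ((di n l : ℝ) / l2 l) : ℝ) : ℂ) +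
    ((2 * ((di n (Q.ed l) : ℝ) / Q.so l) : ℝ) : ℂ) * I := by
  unfold Dirs.lam
  push_cast
  ring

theorem lam_re (l n : Zd d) : (Q.lam l n).re = 2 * ((di n l : ℝ) / l2 l) := by
  rw [lam_form, Complex.add_re, Complex.ofReal_re, Complex.mul_I_re, Complex.ofReal_im]
  ring

theorem lam_im (l n : Zd d) : (Q.lam l n).im = 2 * ((di n (Q.ed l) : ℝ) / Q.so l) := by
  rw [lam_form, Complex.add_im, Complex.ofReal_im, Complex.mul_I_im, Complex.ofReal_re]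
  ring

theorem lam_lb (hl : l ≠ 0) (hlL : ‖l‖ ≤ P.L) {n : Zd d} (hn : Q.lam l n ≠ 0) :
    2 / P.Λ ≤ ‖Q.lam l n‖ := by
  have hΛ := ga_Lam_pos P
  have h1 := one_le_l2 hl
  have h2 := l2_le P hlL
  have h3 := one_le_so Q hl hlL
  have h4 := so_le Q hlL
  by_cases hr : di n l = 0
  · by_cases hi : di n (Q.ed l) = 0
    · exfalso
      apply hn
      unfold Dirs.lam
      rw [hr, hi]
      simp
    · refine le_trans ?_ (Complex.abs_im_le_norm _)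
      rw [lam_im, abs_mul, abs_div, abs_of_pos (by linarith : 0 < Q.so l), abs_two, div_eq_mul_inv]
      have h5 := ga_one_le_abs hi
      have h6 : P.Λ⁻¹ ≤ |(di n (Q.ed l) : ℝ)| / Q.so l := by
        rw [le_div_iff₀ (by linarith), inv_mul_le_iff₀ hΛ]
        nlinarith
      linarith
  · refine le_trans ?_ (Complex.abs_re_le_norm _)
    rw [lam_re, abs_mul, abs_div, abs_of_pos (by linarith : 0 < l2 l), abs_two, div_eq_mul_inv]
    have h5 := ga_one_le_abs hr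
    have h6 : P.Λ⁻¹ ≤ |(di n l : ℝ)| / l2 l := by
      rw [le_div_iff₀ (by linarith), inv_mul_le_iff₀ hΛ]
      nlinarith
    linarith

theorem lam_add_smul (hl : l ≠ 0) (n : Zd d) (j : ℤ) :
    Q.lam l (n + j • l) = Q.lam l n + 2 * j := by
  have h0 : (l2 l : ℂ) ≠ 0 := by
    have := one_le_l2 hl
    exact_mod_cast (by linarith : (0:ℝ) < l2 l).ne'
  have h2 : ((di l l : ℤ) : ℂ) = (l2 l : ℂ) := by unfold l2; push_cast; rfl
  unfold Dirs.lam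
  rw [ga_di_add_left, ga_di_add_left, ga_di_smul_left, ga_di_smul_left, di_ed_self]
  push_cast
  rw [h2]
  field_simp
  ring

theorem lam_eq_zero (hl : l ≠ 0) (hlL : ‖l‖ ≤ P.L) {n : Zd d} (h : Q.lam l n = 0) :
    di n l = 0 ∧ di n (Q.ed l) = 0 := by
  have h1 := one_le_l2 hl
  have h3 := one_le_so Q hl hlL
  have hr := lam_re Q l n
  have hi := lam_im Q l n
  rw [h] at hr hi
  simp only [Complex.zero_re, Complex.zero_im] at hr hi
  constructor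
  · have : (di n l : ℝ) / l2 l = 0 := by linarith
    rcases div_eq_zero_iff.mp this with h' | h'
    · exact_mod_cast h'
    · linarith
  · have : (di n (Q.ed l) : ℝ) / Q.so l = 0 := by linarith
    rcases div_eq_zero_iff.mp this with h' | h'
    · exact_mod_cast h'
    · linarith

theorem lam_ed_le (hl : l ≠ 0) (hlL : ‖l‖ ≤ P.L) (n : Zd d) :
    2 * |(di n (Q.ed l) : ℝ)| ≤ Q.so l * ‖Q.lam l n‖ := by
  have h3 := one_le_so Q hl hlL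
  have h4 := Complex.abs_im_le_norm (Q.lam l n)
  rw [lam_im, abs_mul, abs_div, abs_of_pos (by linarith : 0 < Q.so l), abs_two] at h4
  have h5 : Q.so l * (2 * (|(di n (Q.ed l) : ℝ)| / Q.so l)) = 2 * |(di n (Q.ed l) : ℝ)| := by
    field_simp
  rw [← h5]
  exact mul_le_mul_of_nonneg_left h4 (by linarith)

/-- a short vector orthogonal to `ed l` is parallel to `l` -/
theorem par_of_di_ed (hl : l ≠ 0) (hlL : ‖l‖ ≤ P.L) {n : Zd d} (hn : n ≠ 0) (hnL : ‖n‖ ≤ P.L)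
    (h2 : di n (Q.ed l) = 0) : ∃ i j : ℤ, i ≠ 0 ∧ j ≠ 0 ∧ i • l = j • n := by
  apply Q.hea l n hl hlL hn hnL
  rw [di_ed] at h2
  rw [ga_di_comm Q.a n, ga_di_comm Q.e n]
  linarith

/-- `n ⟂ l` and `n ⟂ ed l`, `n ≠ 0` imply that `n` is far away -/
theorem static_far (hl : l ≠ 0) (hlL : ‖l‖ ≤ P.L) {n : Zd d} (hn : n ≠ 0)
    (h1 : di n l = 0) (h2 : di n (Q.ed l) = 0) : (P.L : ℝ) < ‖n‖ := by
  by_contra hc
  push Not at hc
  obtain ⟨i, j, hi, hj, hij⟩ := par_of_di_ed Q hl hlL hn hc h2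
  have h3 : di (i • l) l = di (j • n) l := by rw [hij]
  rw [ga_di_smul_left, ga_di_smul_left, h1, mul_zero] at h3
  rcases mul_eq_zero.mp h3 with h' | h'
  · exact hi h'
  · have := ga_di_self_pos hl
    omega

/-- points of `Om` are close to `X0` -/
theorem Om_norm (hl : l ≠ 0) (hlL : ‖l‖ ≤ P.L) {Ξ : ℂ} (h : Ξ ∈ Q.Om l) :
    ‖Ξ - (Q.X0 l : ℂ)‖ ≤ P.Λ ^ 8 ∧ 99 / 100 * |Q.X0 l| ≤ ‖Ξ‖ ∧ ‖Ξ‖ ≤ 101 / 100 * |Q.X0 l| := by
  obtain ⟨h1, h2⟩ := h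
  have h3 := l2_le P hlL
  have h4 := X0_ge Q hl hlL
  have h5 : ‖Ξ - (Q.X0 l : ℂ)‖ ≤ P.Λ ^ 8 := by
    refine (Complex.norm_le_abs_re_add_abs_im _).trans ?_
    rw [Complex.sub_re, Complex.sub_im, Complex.ofReal_re, Complex.ofReal_im, sub_zero]
    have h6 : P.T1 * l2 l ≤ P.Λ ^ 8 / 100 := by
      have : P.T1 * (100 * l2 l) ≤ P.T1 * P.Λ :=
        mul_le_mul_of_nonneg_left h3 (ga_pow_pos P 7).le
      have h7 : P.T1 * P.Λ = P.Λ ^ 8 := by unfold Sc.T1; ring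
      linarith
    have h8 := ga_pow P (show 0 < 8 by norm_num)
    rw [pow_zero] at h8
    linarith
  have h6 : P.Λ ^ 8 ≤ |Q.X0 l| / 100 := by
    have := ga_pow P (show 8 < 19 by norm_num)
    have := ga_pow_pos P 8
    linarith
  have h7 : ‖(Q.X0 l : ℂ)‖ = |Q.X0 l| := by rw [Complex.norm_real, Real.norm_eq_abs]
  have h8 : ‖(Q.X0 l : ℂ)‖ ≤ ‖Ξ‖ + ‖Ξ - (Q.X0 l : ℂ)‖ := by
    have := norm_sub_le Ξ (Ξ - (Q.X0 l : ℂ))
    rwa [sub_sub_cancel] at this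
  have h9 : ‖Ξ‖ ≤ ‖(Q.X0 l : ℂ)‖ + ‖Ξ - (Q.X0 l : ℂ)‖ := by
    have := norm_add_le (Q.X0 l : ℂ) (Ξ - (Q.X0 l : ℂ))
    rwa [add_sub_cancel] at this
  rw [h7] at h8 h9
  exact ⟨h5, by linarith, by linarith⟩

theorem isOpen_Om (l : Zd d) : IsOpen (Q.Om l) := by
  have h1 : IsOpen {Ξ : ℂ | |Ξ.re - Q.X0 l| < 3} :=
    isOpen_lt (by fun_prop) continuous_const
  have h2 : IsOpen {Ξ : ℂ | |Ξ.im| < 3 * P.T1 * l2 l} :=
    isOpen_lt (by fun_prop) continuous_const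
  exact h1.inter h2

theorem convex_Om (l : Zd d) : Convex ℝ (Q.Om l) := by
  intro x hx y hy a b ha hb hab
  have hb' : b = 1 - a := by linarith
  obtain ⟨hx1, hx2⟩ := hx
  obtain ⟨hy1, hy2⟩ := hy
  rw [abs_lt] at hx1 hx2 hy1 hy2
  have key : ∀ u v r : ℝ, u < r → v < r → a * u + b * v < r := by
    intro u v r hu hv
    rcases eq_or_lt_of_le ha with h0 | h0
    · have : b = 1 := by linarith
      rw [← h0, this]
      linarith
    · have h1 := mul_lt_mul_of_pos_left hu h0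
      have h2 := mul_le_mul_of_nonneg_left hv.le hb
      have h3 : a * r + b * r = r := by rw [← add_mul, hab, one_mul]
      linarith
  constructor
  · rw [abs_lt]
    simp only [Complex.add_re, Complex.real_smul, Complex.mul_re, Complex.ofReal_re,
      Complex.ofReal_im, zero_mul, sub_zero]
    have h1 := key (x.re - Q.X0 l) (y.re - Q.X0 l) 3 hx1.2 hy1.2
    have h2 := key (-(x.re - Q.X0 l)) (-(y.re - Q.X0 l)) 3 (by linarith [hx1.1])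
      (by linarith [hy1.1])
    have h3 : a * x.re + b * y.re - Q.X0 l = a * (x.re - Q.X0 l) + b * (y.re - Q.X0 l) := by
      rw [hb']; ring
    rw [h3]
    constructor <;> linarith
  · rw [abs_lt]
    simp only [Complex.add_im, Complex.real_smul, Complex.mul_im, Complex.ofReal_re,
      Complex.ofReal_im, zero_mul, add_zero]
    have h1 := key x.im y.im _ hx2.2 hy2.2
    have h2 := key (-x.im) (-y.im) (3 * P.T1 * l2 l) (by linarith [hx2.1]) (by linarith [hy2.1])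
    constructor <;> linarith

end Fermi
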