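import Pool.Agent.Lib.Fermi.SitesDefs

/-!
# Chunk ST1: lattice sites along the exact sheet
-/

open scoped BigOperators Topology
open Set Filter Complex

noncomputable section

namespace Fermi

variable {d : ℕ} {μ : ℂ} {w : Zd d → ℂ} {P : Sc d μ w} {Q : Dirs P} {l : Zd d} {zh : ℂ → ℂ}

theorem ph_diff (hS : Sheet P Q l zh) (n : Zd d) :
    DifferentiableOn ℂ (ph Q l zh n) (Q.Om l) := by
  have h := hS.diff
  unfold ph q bil Dirs.kap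
  refine DifferentiableOn.sub_const ?_ μ
  refine DifferentiableOn.fun_sum fun j _ => ?_
  have h1 : DifferentiableOn ℂ (fun Ξ : ℂ => ((Ξ / (l2 l : ℂ)) • zc l + zh Ξ • zc (Q.ed l) + zc n) j)
      (Q.Om l) := by
    simp only [Pi.add_apply, Pi.smul_apply, smul_eq_mul]
    refine DifferentiableOn.add_const _ ?_
    refine DifferentiableOn.add ?_ ?_
    · refine DifferentiableOn.mul_const ?_ _
      exact differentiableOn_id.div_const _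
    · exact h.mul_const _
  exact h1.mul h1

theorem ph_eq (n : Zd d) (Ξ : ℂ) : ph Q l zh n Ξ = ph Q l zh 0 Ξ +
    2 * (Ξ * (di n l : ℂ) / (l2 l : ℂ) + zh Ξ * (di n (Q.ed l) : ℂ)) + (l2 n : ℂ) := by
  unfold ph
  exact q_kap Q l n Ξ (zh Ξ)

theorem ph_sub (n m : Zd d) (Ξ : ℂ) : ph Q l zh m Ξ - ph Q l zh n Ξ =
    2 * (Ξ * (di (m - n) l : ℂ) / (l2 l : ℂ) + zh Ξ * (di (m - n) (Q.ed l) : ℂ)) +
      ((l2 m - l2 n : ℝ) : ℂ) := by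
  rw [ph_eq m, ph_eq n, ga_di_sub_left, ga_di_sub_left]
  push_cast
  ring

theorem ph_sub_im (n m : Zd d) (Ξ : ℂ) : (ph Q l zh m Ξ - ph Q l zh n Ξ).im =
    2 * (Ξ.im * (di (m - n) l : ℝ) / l2 l + (zh Ξ).im * (di (m - n) (Q.ed l) : ℝ)) := by
  have h : ph Q l zh m Ξ - ph Q l zh n Ξ =
      Ξ * ((2 * (di (m - n) l : ℝ) / l2 l : ℝ) : ℂ) +
        zh Ξ * ((2 * (di (m - n) (Q.ed l) : ℝ) : ℝ) : ℂ) + ((l2 m - l2 n : ℝ) : ℂ) := by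
    rw [ph_sub]
    push_cast
    ring
  rw [h, Complex.add_im, Complex.add_im, Complex.im_mul_ofReal, Complex.im_mul_ofReal,
    Complex.ofReal_im]
  ring

theorem l2_add_smul (n l : Zd d) (j : ℤ) :
    l2 (n + j • l) = l2 n + 2 * j * (di n l : ℝ) + j ^ 2 * l2 l := by
  unfold l2
  have h : di (n + j • l) (n + j • l) = di n n + 2 * j * di n l + j ^ 2 * di l l := by
    rw [ga_di_add_left, ga_di_smul_left, ga_di_comm n (n + j • l), ga_di_comm l (n + j • l),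
      ga_di_add_left, ga_di_add_left, ga_di_smul_left, ga_di_smul_left, ga_di_comm l n]
    ring
  rw [h]
  push_cast
  ring

theorem ph_add_smul (hl : l ≠ 0) (n : Zd d) (j : ℤ) (Ξ : ℂ) :
    ph Q l zh (n + j • l) Ξ - ph Q l zh n Ξ =
      2 * j * (Ξ + ((di n l : ℝ) : ℂ)) + ((j ^ 2 * l2 l : ℝ) : ℂ) := by
  have h0 : (l2 l : ℂ) ≠ 0 := by
    have := one_le_l2 hl
    exact_mod_cast (by linarith : (0:ℝ) < l2 l).ne'
  have h2 : ((di l l : ℤ) : ℂ) = (l2 l : ℂ) := by unfold l2; push_cast; rfl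
  rw [ph_sub, add_sub_cancel_left, ga_di_smul_left, ga_di_smul_left, di_ed_self, l2_add_smul]
  push_cast
  rw [h2]
  field_simp
  ring

theorem zh_im (hS : Sheet P Q l zh) (hl : l ≠ 0) (hlL : ‖l‖ ≤ P.L) {Ξ : ℂ} (h : Ξ ∈ Q.Om l) :
    |(zh Ξ).im - Q.ta l| ≤ 4 := by
  have h1 := hS.near Ξ h
  have h3 := one_le_so Q hl hlL
  have h4 : (I * Ξ / (Q.so l : ℂ)).im = Ξ.re / Q.so l := by
    rw [Complex.div_ofReal_im, Complex.I_mul_im]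
  have h5 : |(zh Ξ).im - Ξ.re / Q.so l| ≤ 1 := by
    have h6 := (Complex.abs_im_le_norm _).trans h1
    rw [Complex.sub_im, h4] at h6
    refine h6.trans ?_
    exact inv_le_one_of_one_le₀ (ga_one_le_pow P 10)
  have h6 : |Ξ.re / Q.so l - Q.ta l| ≤ 3 := by
    have h7 : Ξ.re / Q.so l - Q.ta l = (Ξ.re - Q.X0 l) / Q.so l := by
      unfold Dirs.X0
      field_simp
    rw [h7, abs_div, abs_of_pos (by linarith : 0 < Q.so l), div_le_iff₀ (by linarith)]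
    have := h.1
    nlinarith
  have h7 : (zh Ξ).im - Q.ta l = ((zh Ξ).im - Ξ.re / Q.so l) + (Ξ.re / Q.so l - Q.ta l) := by ring
  rw [h7]
  refine (abs_add_le _ _).trans ?_
  linarith

theorem zh_im_ge (hS : Sheet P Q l zh) (hl : l ≠ 0) (hlL : ‖l‖ ≤ P.L) {Ξ : ℂ} (h : Ξ ∈ Q.Om l) :
    P.Λ ^ 19 - 4 ≤ |(zh Ξ).im| := by
  have h1 := zh_im hS hl hlL h
  have h2 := ta_ge Q hl hlL
  have h3 := abs_sub_abs_le_abs_sub (Q.ta l) (zh Ξ).im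
  rw [abs_sub_comm] at h3
  linarith

theorem zh_norm (hS : Sheet P Q l zh) (hl : l ≠ 0) (hlL : ‖l‖ ≤ P.L) {Ξ : ℂ} (h : Ξ ∈ Q.Om l) :
    ‖zh Ξ‖ ≤ 2 * P.Λ ^ 21 := by
  have h1 := hS.near Ξ h
  have h3 := one_le_so Q hl hlL
  have h4 := (Om_norm Q hl hlL h).2.2
  have h5 := X0_le Q hl hlL
  have h6 : ‖I * Ξ / (Q.so l : ℂ)‖ ≤ 101 / 100 * P.Λ ^ 21 := by
    rw [norm_div, norm_mul, Complex.norm_I, one_mul, Complex.norm_real, Real.norm_eq_abs,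
      abs_of_pos (by linarith : 0 < Q.so l), div_le_iff₀ (by linarith)]
    have := ga_pow_pos P 21
    nlinarith
  have h7 : (P.Λ ^ 10)⁻¹ ≤ 1 := inv_le_one_of_one_le₀ (ga_one_le_pow P 10)
  have h8 := norm_le_norm_add_norm_sub' (zh Ξ) (I * Ξ / (Q.so l : ℂ))
  have h9 := ga_pow P (show 0 < 21 by norm_num)
  rw [pow_zero] at h9
  linarith

/-- short vectors which are not multiples of `l` change the imaginary part a lot -/
theorem big_im (hS : Sheet P Q l zh) (hl : l ≠ 0) (hlL : ‖l‖ ≤ P.L) {Ξ : ℂ} (h : Ξ ∈ Q.Om l)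
    {n m : Zd d} (hv : ‖m - n‖ ≤ P.L) (hv' : di (m - n) (Q.ed l) ≠ 0) :
    2 * P.Λ ^ 18 ≤ ‖ph Q l zh m Ξ - ph Q l zh n Ξ‖ := by
  refine le_trans ?_ (Complex.abs_im_le_norm _)
  rw [ph_sub_im, abs_mul, abs_two]
  have h1 := zh_im_ge hS hl hlL h
  have h2 := one_le_l2 hl
  have h3 : |Ξ.im * (di (m - n) l : ℝ) / l2 l| ≤ P.Λ ^ 8 := by
    rw [abs_div, abs_of_pos (by linarith : 0 < l2 l), div_le_iff₀ (by linarith), abs_mul]
    have h4 := h.2.le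
    have h5 := ga_di_small P hv hlL
    have h6 : P.T1 * (300 * |(di (m - n) l : ℝ)|) ≤ P.T1 * P.Λ :=
      mul_le_mul_of_nonneg_left h5 (ga_pow_pos P 7).le
    have h7 : P.T1 * P.Λ = P.Λ ^ 8 := by unfold Sc.T1; ring
    have h8 : |Ξ.im| * |(di (m - n) l : ℝ)| ≤ 3 * P.T1 * l2 l * |(di (m - n) l : ℝ)| :=
      mul_le_mul_of_nonneg_right h4 (abs_nonneg _)
    have h9 : P.T1 * |(di (m - n) l : ℝ)| ≤ P.Λ ^ 8 / 3 := by
      have := ga_pow_pos P 8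
      linarith
    have h10 := mul_le_mul_of_nonneg_left h9 (by linarith : 0 ≤ 3 * l2 l)
    nlinarith
  have h4 : |(zh Ξ).im| ≤ |(zh Ξ).im * (di (m - n) (Q.ed l) : ℝ)| := by
    rw [abs_mul]
    have := ga_one_le_abs hv'
    have := abs_nonneg (zh Ξ).im
    nlinarith
  have h5 := abs_sub_abs_le_abs_sub ((zh Ξ).im * (di (m - n) (Q.ed l) : ℝ))
    (-(Ξ.im * (di (m - n) l : ℝ) / l2 l))
  rw [abs_neg, sub_neg_eq_add, add_comm ((zh Ξ).im * (di (m - n) (Q.ed l) : ℝ))] at h5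
  have h6 := ga_pow P (show 18 < 19 by norm_num)
  have h7 := ga_pow P (show 8 < 18 by norm_num)
  have h8 := ga_pow P (show 0 < 8 by norm_num)
  rw [pow_zero] at h8
  linarith

/-- short vectors orthogonal to `ed l` are multiples of `l` -/
theorem mul_of_di_ed (hP : Prim l) (hlL : ‖l‖ ≤ P.L) {v : Zd d} (hv : ‖v‖ ≤ P.L)
    (h : di v (Q.ed l) = 0) : ∃ j : ℤ, v = j • l := by
  by_cases h0 : v = 0
  · exact ⟨0, by rw [h0, zero_smul]⟩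
  · obtain ⟨i, j, hi, hj, hij⟩ := par_of_di_ed Q hP.1 hlL h0 hv h
    exact hP.2 v ⟨j, i, hj, hij.symm⟩

theorem w0_le (P : Sc d μ w) : ‖w 0‖ ≤ P.c - 8 := by
  have h1 : ‖w 0‖ ≤ ∑' n, ‖w n‖ := P.hw.le_tsum 0 fun _ _ => norm_nonneg _
  have h2 := P.hc
  have h3 := P.om_nonneg
  linarith

theorem ph_zero_le (hS : Sheet P Q l zh) {Ξ : ℂ} (h : Ξ ∈ Q.Om l) :
    ‖ph Q l zh 0 Ξ‖ ≤ P.c - 7 := by
  have h1 := hS.q0 Ξ h
  have h2 := w0_le P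
  have h3 : (P.Λ ^ 2)⁻¹ ≤ 1 := inv_le_one_of_one_le₀ (ga_one_le_pow P 2)
  have h4 : ph Q l zh 0 Ξ = (q μ (Q.kap l Ξ (zh Ξ)) 0 + w 0) - w 0 := by
    unfold ph
    ring
  rw [h4]
  refine (norm_sub_le _ _).trans ?_
  linarith

theorem ph_lip (hS : Sheet P Q l zh) (hP : Prim l) (hlL : ‖l‖ ≤ P.L) {n : Zd d}
    (hn : Q.lam l n ≠ 0) {Ξ₁ Ξ₂ : ℂ} (h1 : Ξ₁ ∈ Q.Om l) (h2 : Ξ₂ ∈ Q.Om l)
    (h : ‖Ξ₁ - Ξ₂‖ ≤ 1 / 4) :
    ‖ph Q l zh n Ξ₁ - ph Q l zh n Ξ₂ - Q.lam l n * (Ξ₁ - Ξ₂)‖ ≤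
      1 / 100 * ‖Q.lam l n‖ * ‖Ξ₁ - Ξ₂‖ := by
  have hΛ := ga_Lam_pos P
  have h3 := one_le_so Q hP.1 hlL
  have h3' : (Q.so l : ℂ) ≠ 0 := by exact_mod_cast (by linarith : (0:ℝ) < Q.so l).ne'
  have e : ph Q l zh n Ξ₁ - ph Q l zh n Ξ₂ - Q.lam l n * (Ξ₁ - Ξ₂) =
      (ph Q l zh 0 Ξ₁ - ph Q l zh 0 Ξ₂) +
      (zh Ξ₁ - zh Ξ₂ - I * (Ξ₁ - Ξ₂) / (Q.so l : ℂ)) * (2 * (di n (Q.ed l) : ℂ)) := by
    rw [ph_eq n Ξ₁, ph_eq n Ξ₂]
    unfold Dirs.lam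
    ring
  rw [e]
  refine (norm_add_le _ _).trans ?_
  have h4 := hS.q0lip Ξ₁ h1 Ξ₂ h2 h
  have h5 := hS.lip Ξ₁ h1 Ξ₂ h2 h
  have h6 := lam_lb Q hP.1 hlL hn
  have h7 := lam_ed_le Q hP.1 hlL n
  have h8 := so_le Q hlL
  have hD := norm_nonneg (Ξ₁ - Ξ₂)
  have e2 : ‖(2 * (di n (Q.ed l) : ℂ))‖ = 2 * |(di n (Q.ed l) : ℝ)| := by
    rw [norm_mul, Complex.norm_ofNat]
    congr 1
    have : ((di n (Q.ed l) : ℤ) : ℂ) = ((di n (Q.ed l) : ℝ) : ℂ) := by push_cast; rfl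
    rw [this, Complex.norm_real, Real.norm_eq_abs]
  rw [norm_mul, e2]
  have h9 : ‖zh Ξ₁ - zh Ξ₂ - I * (Ξ₁ - Ξ₂) / (Q.so l : ℂ)‖ * (2 * |(di n (Q.ed l) : ℝ)|) ≤
      1 / 200 * ‖Q.lam l n‖ * ‖Ξ₁ - Ξ₂‖ := by
    calc _ ≤ ((P.Λ ^ 8)⁻¹ * ‖Ξ₁ - Ξ₂‖) * (Q.so l * ‖Q.lam l n‖) :=
          mul_le_mul h5 h7 (by positivity) (by positivity)
      _ = ((P.Λ ^ 8)⁻¹ * Q.so l) * (‖Q.lam l n‖ * ‖Ξ₁ - Ξ₂‖) := by ring
      _ ≤ 1 / 200 * (‖Q.lam l n‖ * ‖Ξ₁ - Ξ₂‖) := by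
          apply mul_le_mul_of_nonneg_right _ (by positivity)
          rw [inv_mul_le_iff₀ (ga_pow_pos P 8)]
          have h10 := ga_pow P (show 1 < 8 by norm_num)
          rw [pow_one] at h10
          linarith
      _ = _ := by ring
  have h10 : ‖ph Q l zh 0 Ξ₁ - ph Q l zh 0 Ξ₂‖ ≤ 1 / 200 * ‖Q.lam l n‖ * ‖Ξ₁ - Ξ₂‖ := by
    refine h4.trans ?_
    apply mul_le_mul_of_nonneg_right _ hD
    have h11 : 5 * (P.Λ ^ 2)⁻¹ ≤ 1 / 200 * (2 / P.Λ) := by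
      rw [pow_two, mul_inv, ← mul_assoc]
      have h12 : 5 * P.Λ⁻¹ ≤ 1 / 200 * 2 := by
        rw [← div_eq_mul_inv, div_le_iff₀ hΛ]
        linarith [P.hΛ]
      calc 5 * P.Λ⁻¹ * P.Λ⁻¹ ≤ 1 / 200 * 2 * P.Λ⁻¹ :=
            mul_le_mul_of_nonneg_right h12 (by positivity)
        _ = _ := by ring
    refine h11.trans ?_
    exact mul_le_mul_of_nonneg_left h6 (by norm_num)
  linarith

/-- sites with `lam n = 0` are never resonant -/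
theorem ph_static (hS : Sheet P Q l zh) (hP : Prim l) (hlL : ‖l‖ ≤ P.L) {n : Zd d}
    (hn0 : n ≠ 0) (hn : Q.lam l n = 0) {Ξ : ℂ} (h : Ξ ∈ Q.Om l) :
    (P.L : ℝ) ^ 2 - P.c ≤ ‖ph Q l zh n Ξ‖ := by
  obtain ⟨h1, h2⟩ := lam_eq_zero Q hP.1 hlL hn
  have h3 := static_far Q hP.1 hlL hn0 h1 h2
  have h4 := norm_sq_le_l2 n
  have h5 := ph_zero_le hS h
  have h6 : ph Q l zh n Ξ = ph Q l zh 0 Ξ + (l2 n : ℂ) := by
    rw [ph_eq n, h1, h2]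
    push_cast
    ring
  have h7 : ‖(l2 n : ℂ)‖ = l2 n := by
    rw [Complex.norm_real, Real.norm_eq_abs, abs_of_nonneg (l2_nonneg n)]
  have h8 : ‖(l2 n : ℂ)‖ ≤ ‖ph Q l zh n Ξ‖ + ‖ph Q l zh 0 Ξ‖ := by
    have : (l2 n : ℂ) = ph Q l zh n Ξ - ph Q l zh 0 Ξ := by rw [h6]; ring
    rw [this]
    exact norm_sub_le _ _
  have h9 : (P.L : ℝ) ^ 2 ≤ ‖n‖ ^ 2 := by
    have : (0:ℝ) ≤ P.L := Nat.cast_nonneg _
    nlinarith
  linarith

theorem di_le_norm (n m : Zd d) : |(di n m : ℝ)| ≤ d * ‖n‖ * ‖m‖ := by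
  have h := ga_dt_le (x := fun j => (n j : ℝ)) (c := ‖n‖) (fun j => ga_abs_le_norm n j) m
  have h2 : dt (fun j => (n j : ℝ)) m = (di n m : ℝ) := by
    have := ga_dt_int (d := d) 1 n m
    simpa using this
  rwa [h2] at h

theorem ph_box (hS : Sheet P Q l zh) (hP : Prim l) (hlL : ‖l‖ ≤ P.L) {n : Zd d}
    {Ξ : ℂ} (h : Ξ ∈ Q.Om l) (hn : ‖ph Q l zh n Ξ‖ ≤ P.Λ ^ 4) : ‖n‖ ≤ P.Λ ^ 23 := by
  have hl := hP.1
  have hΛ := ga_Lam_pos P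
  have hΛ1 := ga_one_le P
  have h1 := ph_zero_le hS h
  have h2 := norm_sq_le_l2 n
  have h3 := zh_norm hS hl hlL h
  have h4 : ‖Ξ‖ ≤ 2 * P.Λ ^ 21 := by
    have := (Om_norm Q hl hlL h).2.2
    have := X0_le Q hl hlL
    have := ga_pow_pos P 21
    linarith
  have h5 := one_le_l2 hl
  have hN := norm_nonneg n
  have hd : (0:ℝ) ≤ d := Nat.cast_nonneg _
  -- the two products
  have h6 : |(di n l : ℝ)| ≤ ‖n‖ * P.Λ / 9000 := by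
    have h7 := di_le_norm n l
    have h8 := ga_dL P
    have h9 : (d:ℝ) * ‖n‖ * ‖l‖ ≤ ‖n‖ * ((d:ℝ) * P.L) := by
      have := mul_le_mul_of_nonneg_left hlL (mul_nonneg hd hN)
      linarith
    have h10 : ‖n‖ * (9000 * ((d:ℝ) * P.L)) ≤ ‖n‖ * P.Λ := mul_le_mul_of_nonneg_left h8 hN
    linarith
  have h7 : ‖Q.ed l‖ ≤ P.Λ := by
    have h8 := norm_sq_le_l2 (Q.ed l)
    have h9 := l2_ed_le Q hlL
    have h10 : ‖Q.ed l‖ ^ 2 ≤ P.Λ ^ 2 := by nlinarith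
    exact le_of_sq_le_sq h10 hΛ.le
  have h8 : |(di n (Q.ed l) : ℝ)| ≤ ‖n‖ * P.Λ ^ 2 / 270000 := by
    have h9 := di_le_norm n (Q.ed l)
    have h10 := ga_dLam P
    have h11 : (d:ℝ) * ‖n‖ * ‖Q.ed l‖ ≤ (d:ℝ) * ‖n‖ * P.Λ :=
      mul_le_mul_of_nonneg_left h7 (mul_nonneg hd hN)
    have h12 : (270000 * (d:ℝ)) * (‖n‖ * P.Λ) ≤ P.Λ * (‖n‖ * P.Λ) :=
      mul_le_mul_of_nonneg_right h10 (by positivity)
    nlinarith
  -- main identity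
  have e : (l2 n : ℂ) = ph Q l zh n Ξ - ph Q l zh 0 Ξ -
      2 * (Ξ * ((di n l : ℝ) : ℂ) / (l2 l : ℂ) + zh Ξ * ((di n (Q.ed l) : ℝ) : ℂ)) := by
    rw [ph_eq n]
    push_cast
    ring
  have e1 : ‖(l2 n : ℂ)‖ = l2 n := by
    rw [Complex.norm_real, Real.norm_eq_abs, abs_of_nonneg (l2_nonneg n)]
  have e2 : ‖Ξ * ((di n l : ℝ) : ℂ) / (l2 l : ℂ)‖ ≤ ‖n‖ * P.Λ ^ 22 / 4500 := by
    rw [norm_div, norm_mul, Complex.norm_real, Complex.norm_real, Real.norm_eq_abs,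
      Real.norm_eq_abs, abs_of_pos (by linarith : 0 < l2 l)]
    have : ‖Ξ‖ * |(di n l : ℝ)| ≤ (2 * P.Λ ^ 21) * (‖n‖ * P.Λ / 9000) :=
      mul_le_mul h4 h6 (abs_nonneg _) (by positivity)
    refine (div_le_self (by positivity) h5).trans (this.trans (le_of_eq ?_))
    ring
  have e3 : ‖zh Ξ * ((di n (Q.ed l) : ℝ) : ℂ)‖ ≤ ‖n‖ * P.Λ ^ 23 / 135000 := by
    rw [norm_mul, Complex.norm_real, Real.norm_eq_abs]
    have : ‖zh Ξ‖ * |(di n (Q.ed l) : ℝ)| ≤ (2 * P.Λ ^ 21) * (‖n‖ * P.Λ ^ 2 / 270000) :=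
      mul_le_mul h3 h8 (abs_nonneg _) (by positivity)
    refine this.trans (le_of_eq ?_)
    ring
  have e4 : l2 n ≤ P.Λ ^ 4 + P.c + 2 * (‖n‖ * P.Λ ^ 22 / 4500 + ‖n‖ * P.Λ ^ 23 / 135000) := by
    rw [← e1, e]
    refine (norm_sub_le _ _).trans ?_
    have f1 := norm_sub_le (ph Q l zh n Ξ) (ph Q l zh 0 Ξ)
    have f2 : ‖2 * (Ξ * ((di n l : ℝ) : ℂ) / (l2 l : ℂ) + zh Ξ * ((di n (Q.ed l) : ℝ) : ℂ))‖ ≤
        2 * (‖n‖ * P.Λ ^ 22 / 4500 + ‖n‖ * P.Λ ^ 23 / 135000) := by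
      rw [norm_mul, Complex.norm_ofNat]
      have := norm_add_le (Ξ * ((di n l : ℝ) : ℂ) / (l2 l : ℂ)) (zh Ξ * ((di n (Q.ed l) : ℝ) : ℂ))
      linarith
    linarith
  by_contra hc
  push Not at hc
  have g1 := P.hcΛ
  have g2 : P.Λ ^ 22 ≤ P.Λ ^ 23 := pow_le_pow_right₀ hΛ1 (by norm_num)
  have g3 : P.Λ ^ 4 + P.Λ ≤ P.Λ ^ 23 := by
    have a1 := ga_pow P (show 4 < 23 by norm_num)
    have a2 := ga_pow P (show 1 < 23 by norm_num)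
    rw [pow_one] at a2
    have := ga_pow_pos P 4
    linarith
  have g4 : ‖n‖ * P.Λ ^ 22 ≤ ‖n‖ * P.Λ ^ 23 := mul_le_mul_of_nonneg_left g2 hN
  have g5 : 1 < ‖n‖ := lt_of_le_of_lt (ga_one_le_pow P 23) hc
  have g6 : ‖n‖ * P.Λ ^ 23 ≤ ‖n‖ ^ 2 := by
    rw [sq]
    exact mul_le_mul_of_nonneg_left hc.le hN
  have g7 : 2 * P.Λ ^ 23 ≤ ‖n‖ * P.Λ ^ 23 := by
    apply mul_le_mul_of_nonneg_right _ (ga_pow_pos P 23).le
    have := ga_pow P (show 0 < 23 by norm_num)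
    rw [pow_zero] at this
    linarith
  have g8 : 0 < ‖n‖ * P.Λ ^ 23 := by positivity
  linarith

/-- close resonant sites lie in one string -/
theorem far_strings (hS : Sheet P Q l zh) (hP : Prim l) (hlL : ‖l‖ ≤ P.L) {n m : Zd d}
    {Ξ : ℂ} (h : Ξ ∈ Q.Om l) (hn : ‖ph Q l zh n Ξ‖ ≤ P.Λ ^ 4) (hm : ‖ph Q l zh m Ξ‖ ≤ P.Λ ^ 4)
    (hnm : ‖m - n‖ ≤ P.L) : ∃ j : ℤ, m = n + j • l := by
  by_cases h0 : di (m - n) (Q.ed l) = 0
  · obtain ⟨j, hj⟩ := mul_of_di_ed (Q := Q) hP hlL hnm h0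
    exact ⟨j, by rw [← hj]; abel⟩
  · exfalso
    have h1 := big_im hS hP.1 hlL h hnm h0
    have h2 := norm_sub_le (ph Q l zh m Ξ) (ph Q l zh n Ξ)
    have h3 := ga_pow P (show 4 < 18 by norm_num)
    have h4 := ga_pow_pos P 4
    linarith

/-- a site which is not in the string of `n` but close to it is very large -/
theorem off_string (hS : Sheet P Q l zh) (hP : Prim l) (hlL : ‖l‖ ≤ P.L) {n l' : Zd d}
    {Ξ : ℂ} (h : Ξ ∈ Q.Om l) (hn : ‖ph Q l zh n Ξ‖ ≤ P.Λ ^ 4) (hl' : ‖l'‖ ≤ P.L)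
    (hj : ∀ j : ℤ, l' ≠ j • l) : P.Λ ^ 17 ≤ ‖ph Q l zh (n + l') Ξ‖ := by
  have e : n + l' - n = l' := by abel
  have h0 : di (n + l' - n) (Q.ed l) ≠ 0 := by
    intro h0
    rw [e] at h0
    obtain ⟨j, hj'⟩ := mul_of_di_ed (Q := Q) hP hlL hl' h0
    exact hj j hj'
  have h1 := big_im hS hP.1 hlL h (n := n) (m := n + l') (by rw [e]; exact hl') h0
  have h2 := norm_sub_le (ph Q l zh (n + l') Ξ) (ph Q l zh n Ξ)
  have h3 := ga_pow P (show 4 < 18 by norm_num)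
  have h4 := ga_pow_pos P 4
  have h5 := ga_pow P (show 17 < 18 by norm_num)
  have h6 := ga_pow_pos P 17
  linarith

/-- slow sites are clean, and all sites are clean away from the slab -/
theorem ph_clean (hS : Sheet P Q l zh) (hP : Prim l) (hlL : ‖l‖ ≤ P.L) {n l' : Zd d}
    {Ξ : ℂ} (h : Ξ ∈ Q.Om l)
    (hc : |Q.X0 l| / 100 ≤ |(di n l : ℝ) + Q.X0 l| ∨ P.T1 ≤ |Ξ.im|)
    (hn : ‖ph Q l zh n Ξ‖ ≤ P.Λ ^ 4) (hl' : l' ≠ 0) (hl'L : ‖l'‖ ≤ P.L) :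
    P.Λ ^ 6 ≤ ‖ph Q l zh (n + l') Ξ‖ := by
  have hl := hP.1
  by_cases hj : ∀ j : ℤ, l' ≠ j • l
  · have h1 := off_string hS hP hlL h hn hl'L hj
    have h2 := ga_pow P (show 6 < 17 by norm_num)
    have h3 := ga_pow_pos P 6
    linarith
  · push Not at hj
    obtain ⟨j, hj⟩ := hj
    have hj0 : j ≠ 0 := by
      rintro rfl
      exact hl' (by rw [hj, zero_smul])
    have hj1 : (1:ℝ) ≤ |(j:ℝ)| := ga_one_le_abs hj0
    have hl2 := one_le_l2 hl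
    have hl2' := l2_le P hlL
    -- `|j| ≤ L`
    have hjL : |(j:ℝ)| ≤ P.L := by
      obtain ⟨i, hi⟩ : ∃ i, l i ≠ 0 := by
        by_contra hc'
        push Not at hc'
        exact hl (funext hc')
      have a1 := ga_abs_le_norm l' i
      rw [hj] at a1
      simp only [Pi.smul_apply, smul_eq_mul, Int.cast_mul, abs_mul] at a1
      have a2 := ga_one_le_abs hi
      rw [← hj] at a1
      nlinarith [abs_nonneg (j:ℝ)]
    have e := ph_add_smul (Q := Q) (zh := zh) hl n j Ξ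
    rw [← hj] at e
    have h2 := norm_sub_le (ph Q l zh (n + l') Ξ) (ph Q l zh n Ξ)
    have k1 := ga_pow P (show 4 < 6 by norm_num)
    have k2 := ga_pow_pos P 4
    have k3 := ga_pow P (show 6 < 7 by norm_num)
    have k4 := ga_pow_pos P 6
    suffices hs : 2 * P.Λ ^ 7 ≤ ‖ph Q l zh (n + l') Ξ - ph Q l zh n Ξ‖ by linarith
    rw [e]
    rcases hc with hc | hc
    · refine le_trans ?_ (Complex.abs_re_le_norm _)
      have e1 : (2 * (j:ℂ) * (Ξ + ((di n l : ℝ) : ℂ)) + ((j ^ 2 * l2 l : ℝ) : ℂ)).re =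
          j * (2 * (Ξ.re + (di n l : ℝ)) + j * l2 l) := by
        have : 2 * (j:ℂ) * (Ξ + ((di n l : ℝ) : ℂ)) = ((2 * (j:ℝ) : ℝ) : ℂ) * (Ξ + ((di n l : ℝ) : ℂ)) := by
          push_cast
          ring
        rw [Complex.add_re, Complex.ofReal_re, this, Complex.re_ofReal_mul, Complex.add_re,
          Complex.ofReal_re]
        ring
      rw [e1, abs_mul]
      have b1 := h.1
      have b2 : |(di n l : ℝ) + Q.X0 l| ≤ |Ξ.re + (di n l : ℝ)| + 3 := by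
        have : (di n l : ℝ) + Q.X0 l = (Ξ.re + (di n l : ℝ)) + -(Ξ.re - Q.X0 l) := by ring
        rw [this]
        refine (abs_add_le _ _).trans ?_
        rw [abs_neg]
        linarith
      have b3 : 2 * |Ξ.re + (di n l : ℝ)| ≤ |2 * (Ξ.re + (di n l : ℝ)) + j * l2 l| + |(j:ℝ)| * l2 l := by
        have : 2 * |Ξ.re + (di n l : ℝ)| = |2 * (Ξ.re + (di n l : ℝ))| := by
          rw [abs_mul, abs_two]
        rw [this]
        have c1 := abs_add_le (2 * (Ξ.re + (di n l : ℝ)) + j * l2 l) (-(j * l2 l))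
        rw [add_neg_cancel_right, abs_neg, abs_mul (j:ℝ), abs_of_nonneg (l2_nonneg l)] at c1
        exact c1
      have b4 : |(j:ℝ)| * l2 l ≤ P.Λ ^ 2 := by
        have c1 := ga_LLam P
        have c2 : |(j:ℝ)| ≤ P.Λ := by
          have : (0:ℝ) ≤ P.L := Nat.cast_nonneg _
          linarith
        have c3 : l2 l ≤ P.Λ := by linarith
        rw [sq]
        exact mul_le_mul c2 c3 (by linarith) (ga_Lam_pos P).le
      have b5 := X0_ge Q hl hlL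
      have b6 := ga_pow P (show 7 < 19 by norm_num)
      have b7 := ga_pow P (show 2 < 7 by norm_num)
      have b8 := ga_pow P (show 0 < 2 by norm_num)
      rw [pow_zero] at b8
      have b9 : 2 * P.Λ ^ 7 ≤ |2 * (Ξ.re + (di n l : ℝ)) + j * l2 l| := by linarith
      have b10 : 0 ≤ |2 * (Ξ.re + (di n l : ℝ)) + j * l2 l| := abs_nonneg _
      nlinarith
    · refine le_trans ?_ (Complex.abs_im_le_norm _)
      have e1 : (2 * (j:ℂ) * (Ξ + ((di n l : ℝ) : ℂ)) + ((j ^ 2 * l2 l : ℝ) : ℂ)).im =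
          2 * j * Ξ.im := by
        have : 2 * (j:ℂ) * (Ξ + ((di n l : ℝ) : ℂ)) = ((2 * (j:ℝ) : ℝ) : ℂ) * (Ξ + ((di n l : ℝ) : ℂ)) := by
          push_cast
          ring
        rw [Complex.add_im, Complex.ofReal_im, this, Complex.im_ofReal_mul, Complex.add_im,
          Complex.ofReal_im]
        ring
      rw [e1, abs_mul, abs_mul, abs_two]
      have b1 : P.T1 = P.Λ ^ 7 := rfl
      rw [b1] at hc
      have b2 := ga_pow_pos P 7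
      nlinarith

end Fermi
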