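import Pool.Agent.Lib.Fermi.SheetDefs

/-!
# Definitions for chunk ST (lattice sites along the exact sheet)
-/

open scoped BigOperators Topology
open Set Filter Complex

noncomputable section

namespace Fermi

variable {d : ℕ} {μ : ℂ} {w : Zd d → ℂ} {P : Sc d μ w} {Q : Dirs P} {l : Zd d} {zh : ℂ → ℂ}

/-- the value of `q_n` on the sheet -/
def ph (Q : Dirs P) (l : Zd d) (zh : ℂ → ℂ) (n : Zd d) (Ξ : ℂ) : ℂ :=
  q μ (Q.kap l Ξ (zh Ξ)) n

/-- threshold for clusters -/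
def kp (P : Sc d μ w) : ℝ := 10 ^ 8 * P.c ^ 2

open scoped Classical in
/-- the cluster of `n` at the parameter `Ξ` -/
def Kf (Q : Dirs P) (l : Zd d) (zh : ℂ → ℂ) (Ξ : ℂ) (n : Zd d) : Finset (Zd d) :=
  if h : {m : Zd d | (∃ j : ℤ, m = n + j • l) ∧ ‖ph Q l zh m Ξ‖ < kp P}.Finite then h.toFinset
  else ∅

/-- radius of the windows -/
def wr (Q : Dirs P) (l : Zd d) : ℝ := kp P / 100 * (l2 l / |Q.X0 l|)

end Fermi
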