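import Pool.Agent.Lib.Fermi.Main

/-!
# Chunk K3: smooth periodic functions have rapidly decreasing Fourier coefficients
-/

open scoped BigOperators Topology Real ContDiff
open Set Filter MeasureTheory

noncomputable section

namespace Fermi

local instance : MeasureSpace UnitAddCircle := ⟨AddCircle.haarAddCircle⟩

local instance : Measure.IsAddHaarMeasure (volume : Measure UnitAddCircle) :=
  inferInstanceAs (Measure.IsAddHaarMeasure AddCircle.haarAddCircle)

local instance : IsProbabilityMeasure (volume : Measure UnitAddCircle) :=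
  inferInstanceAs (IsProbabilityMeasure AddCircle.haarAddCircle)

variable {d : ℕ}

/-- the covering map `R^d → T^d` -/
def tc (x : Fin d → ℝ) : UnitAddTorus (Fin d) := fun j => (x j : UnitAddCircle)

lemma tc_quot : IsOpenQuotientMap (tc : (Fin d → ℝ) → UnitAddTorus (Fin d)) := by
  have : (tc : (Fin d → ℝ) → UnitAddTorus (Fin d)) =
      Pi.map (fun _ => ((↑) : ℝ → UnitAddCircle)) := rfl
  rw [this]
  exact IsOpenQuotientMap.piMap fun _ => QuotientAddGroup.isOpenQuotientMap_mk

lemma tc_add (x y : Fin d → ℝ) : tc (x + y) = tc x + tc y := rfl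

/-- a continuous function on the torus whose lift is a given periodic function -/
lemma exists_descend (g : (Fin d → ℝ) → ℂ) (hg : Continuous g)
    (hp : ∀ x y, tc x = tc y → g x = g y) :
    ∃ W : C(UnitAddTorus (Fin d), ℂ), ∀ x, W (tc x) = g x := by
  let f : C(Fin d → ℝ, UnitAddTorus (Fin d)) := ⟨tc, tc_quot.continuous⟩
  have hf : Topology.IsQuotientMap f := tc_quot.isQuotientMap
  have hfac : Function.FactorsThrough (⟨g, hg⟩ : C(Fin d → ℝ, ℂ)) f := fun x y h => hp x y h
  refine ⟨hf.lift ⟨g, hg⟩ hfac, fun x => ?_⟩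
  have := congrArg (fun F : C(Fin d → ℝ, ℂ) => F x) (hf.lift_comp ⟨g, hg⟩ hfac)
  exact this

lemma exists_deriv (V : C(UnitAddTorus (Fin d), ℂ)) (hV : CInf V) (j : Fin d) :
    ∃ W : C(UnitAddTorus (Fin d), ℂ), CInf W ∧ ∀ (x : Fin d → ℝ) (h : ℝ),
      HasDerivAt (fun h : ℝ => V (tc x + tc (h • Pi.single j 1)))
        (W (tc x + tc (h • Pi.single j 1))) h := by
  let F : (Fin d → ℝ) → ℂ := fun x => V (tc x)
  have hF : ContDiff ℝ ∞ F := hV
  have hF1 : ContDiff ℝ ∞ (fun x => fderiv ℝ F x (Pi.single j 1)) :=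
    (hF.fderiv_right (m := ∞) (by simp)).clm_apply contDiff_const
  obtain ⟨W, hW⟩ := exists_descend (fun x => fderiv ℝ F x (Pi.single j 1)) hF1.continuous (by
    intro x y hxy
    have h1 : (fun z => F (z + (y - x))) = F := by
      funext z
      change V (tc (z + (y - x))) = V (tc z)
      congr 1
      have h2 : tc (z + (y - x)) = tc z + (tc y - tc x) := rfl
      rw [h2, hxy, sub_self, add_zero]
    have h3 := fderiv_comp_add_right (𝕜 := ℝ) (f := F) (x := x) (y - x)
    rw [h1, add_sub_cancel] at h3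
    change fderiv ℝ F x (Pi.single j 1) = fderiv ℝ F y (Pi.single j 1)
    rw [h3])
  refine ⟨W, ?_, fun x h => ?_⟩
  · have : (fun x : Fin d → ℝ => W (fun j => (x j : UnitAddCircle))) =
        fun x => fderiv ℝ F x (Pi.single j 1) := funext hW
    unfold CInf
    rw [this]
    exact hF1
  · have h1 : (fun h : ℝ => V (tc x + tc (h • Pi.single j 1))) =
        fun h : ℝ => F (x + h • Pi.single j 1) := rfl
    rw [h1, ← tc_add, hW]
    have h2 : HasFDerivAt F (fderiv ℝ F (x + h • Pi.single j 1)) (x + h • Pi.single j 1) :=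
      (hF.differentiable (by simp) _).hasFDerivAt
    have h3 : HasDerivAt (fun h : ℝ => x + h • (Pi.single j 1 : Fin d → ℝ)) (Pi.single j 1) h := by
      have := ((hasDerivAt_id h).smul_const (Pi.single j 1 : Fin d → ℝ)).const_add x
      simpa using this
    exact h2.comp_hasDerivAt h h3

lemma mF_add (n : Fin d → ℤ) (a b : UnitAddTorus (Fin d)) :
    UnitAddTorus.mFourier n (a + b) = UnitAddTorus.mFourier n a * UnitAddTorus.mFourier n b := by
  change ∏ i, fourier (n i) ((a + b) i) = (∏ i, fourier (n i) (a i)) * ∏ i, fourier (n i) (b i)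
  rw [← Finset.prod_mul_distrib]
  refine Finset.prod_congr rfl fun i _ => ?_
  simp only [Pi.add_apply, fourier_apply, smul_add, AddCircle.toCircle_add, Circle.coe_mul]

lemma mF_single (n : Fin d → ℤ) (j : Fin d) (h : ℝ) :
    UnitAddTorus.mFourier n (tc (h • Pi.single j 1)) =
      Complex.exp (2 * π * Complex.I * n j * h) := by
  change ∏ i, fourier (n i) (tc (h • Pi.single j 1) i) = _
  rw [Finset.prod_eq_single j]
  · have : tc (h • (Pi.single j 1 : Fin d → ℝ)) j = (h : UnitAddCircle) := by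
      simp [tc]
    rw [this, fourier_coe_apply]
    congr 1
    push_cast
    ring
  · intro i _ hi
    have : tc (h • (Pi.single j 1 : Fin d → ℝ)) i = ((0 : ℝ) : UnitAddCircle) := by
      simp [tc, hi]
    rw [this, fourier_coe_apply]
    simp
  · intro h; exact absurd (Finset.mem_univ j) h

lemma mF_norm_le (n : Fin d → ℤ) (t : UnitAddTorus (Fin d)) :
    ‖UnitAddTorus.mFourier n t‖ ≤ 1 :=
  ((UnitAddTorus.mFourier n).norm_coe_le_norm t).trans
    (UnitAddTorus.mFourier_norm (d := Fin d) (n := n)).le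

lemma int_deriv (V W : C(UnitAddTorus (Fin d), ℂ)) (e : ℝ → UnitAddTorus (Fin d))
    (hT : ∀ (t : UnitAddTorus (Fin d)) (s : ℝ),
      HasDerivAt (fun h : ℝ => V (t + e h)) (W (t + e s)) s) (n : Fin d → ℤ) :
    HasDerivAt (fun s : ℝ => ∫ t : UnitAddTorus (Fin d), UnitAddTorus.mFourier n t * V (t + e s))
      (∫ t : UnitAddTorus (Fin d), UnitAddTorus.mFourier n t * W (t + e 0)) 0 := by
  have hc : ∀ (F : C(UnitAddTorus (Fin d), ℂ)) (s : ℝ),
      Continuous (fun t : UnitAddTorus (Fin d) => UnitAddTorus.mFourier n t * F (t + e s)) :=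
    fun F s => (UnitAddTorus.mFourier n).continuous.mul
      (F.continuous.comp (continuous_id.add continuous_const))
  refine (hasDerivAt_integral_of_dominated_loc_of_deriv_le (s := Set.univ)
      (bound := fun _ => ‖W‖)
      (F' := fun s t => UnitAddTorus.mFourier n t * W (t + e s))
      Filter.univ_mem ?_ ?_ ?_ ?_ ?_ ?_).2
  · exact Eventually.of_forall fun s => (hc V s).aestronglyMeasurable
  · exact (hc V 0).integrable_of_hasCompactSupport (HasCompactSupport.of_compactSpace _)
  · exact (hc W 0).aestronglyMeasurable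
  · refine Eventually.of_forall fun t s _ => ?_
    rw [norm_mul]
    calc _ ≤ 1 * ‖W‖ := mul_le_mul (mF_norm_le n t) (W.norm_coe_le_norm _) (norm_nonneg _)
          zero_le_one
      _ = ‖W‖ := one_mul _
  · exact integrable_const _
  · exact Eventually.of_forall fun t s _ => (hT t s).const_mul _

lemma int_shift (V : C(UnitAddTorus (Fin d), ℂ)) (a : UnitAddTorus (Fin d)) (n : Fin d → ℤ) :
    ∫ t : UnitAddTorus (Fin d), UnitAddTorus.mFourier n t * V (t + a) =
      UnitAddTorus.mFourier n (-a) * ∫ t : UnitAddTorus (Fin d), UnitAddTorus.mFourier n t * V t := by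
  have h := integral_add_right_eq_self (μ := (volume : Measure (UnitAddTorus (Fin d))))
    (fun t => UnitAddTorus.mFourier n (-a) * (UnitAddTorus.mFourier n t * V t)) a
  rw [← integral_const_mul, ← h]
  congr 1
  funext t
  rw [← mul_assoc, ← mF_add]
  congr 2
  abel

lemma coeff_deriv (V W : C(UnitAddTorus (Fin d), ℂ)) (j : Fin d)
    (h : ∀ (x : Fin d → ℝ) (h : ℝ),
      HasDerivAt (fun h : ℝ => V (tc x + tc (h • Pi.single j 1)))
        (W (tc x + tc (h • Pi.single j 1))) h) (n : Fin d → ℤ) :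
    UnitAddTorus.mFourierCoeff W n = 2 * π * Complex.I * n j * UnitAddTorus.mFourierCoeff V n := by
  have h1 := int_deriv V W (fun s => tc (s • (Pi.single j 1 : Fin d → ℝ))) (by
    intro t s
    obtain ⟨x, rfl⟩ := tc_quot.surjective t
    exact h x s) (-n)
  have h2 : (fun s : ℝ => ∫ t : UnitAddTorus (Fin d),
      UnitAddTorus.mFourier (-n) t * V (t + tc (s • (Pi.single j 1 : Fin d → ℝ)))) =
      fun s : ℝ => Complex.exp (2 * π * Complex.I * n j * s) *
        UnitAddTorus.mFourierCoeff V n := by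
    funext s
    rw [int_shift]
    have h4 : -tc (s • (Pi.single j 1 : Fin d → ℝ)) =
        tc ((-s) • (Pi.single j 1 : Fin d → ℝ)) := by
      rw [neg_smul]
      rfl
    rw [h4, mF_single]
    have h5 : 2 * π * Complex.I * ((-n) j : ℤ) * ((-s : ℝ) : ℂ) =
        2 * π * Complex.I * n j * s := by
      rw [Pi.neg_apply]
      push_cast
      ring
    rw [h5]
    rfl
  rw [h2] at h1
  have h3 : HasDerivAt (fun s : ℝ => Complex.exp (2 * π * Complex.I * n j * s) *
        UnitAddTorus.mFourierCoeff V n)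
      (2 * π * Complex.I * n j * UnitAddTorus.mFourierCoeff V n) 0 := by
    have h5 : HasDerivAt (fun s : ℝ => 2 * π * Complex.I * n j * (s : ℂ))
        (2 * π * Complex.I * n j) 0 := by
      have := (Complex.ofRealCLM.hasDerivAt (x := (0 : ℝ))).const_mul (2 * π * Complex.I * n j)
      simpa using this
    have h4 := (h5.cexp).mul_const (UnitAddTorus.mFourierCoeff V n)
    simpa using h4
  have h4 := h1.unique h3
  rw [← h4]
  have h6 : tc ((0 : ℝ) • (Pi.single j 1 : Fin d → ℝ)) = 0 := by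
    rw [zero_smul]; rfl
  simp only [h6, add_zero]
  rfl

lemma coeff_pow (j : Fin d) (N : ℕ) (V : C(UnitAddTorus (Fin d), ℂ)) (hV : CInf V) :
    ∃ W : C(UnitAddTorus (Fin d), ℂ), CInf W ∧ ∀ n : Fin d → ℤ,
      UnitAddTorus.mFourierCoeff W n =
        (2 * π * Complex.I * n j) ^ N * UnitAddTorus.mFourierCoeff V n := by
  induction N with
  | zero => exact ⟨V, hV, fun n => by rw [pow_zero, one_mul]⟩
  | succ N ih =>
    obtain ⟨W, hW, h⟩ := ih
    obtain ⟨W', hW', h'⟩ := exists_deriv W hW j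
    refine ⟨W', hW', fun n => ?_⟩
    rw [coeff_deriv W W' j h' n, h n, pow_succ]
    ring

lemma coeff_le (V : C(UnitAddTorus (Fin d), ℂ)) (n : Fin d → ℤ) :
    ‖UnitAddTorus.mFourierCoeff V n‖ ≤ ‖V‖ := by
  unfold UnitAddTorus.mFourierCoeff
  have h := norm_integral_le_of_norm_le_const (μ := (volume : Measure (UnitAddTorus (Fin d))))
    (f := fun t => UnitAddTorus.mFourier (-n) t • V t) (C := ‖V‖) (by
      refine Eventually.of_forall fun t => ?_
      rw [norm_smul]
      calc _ ≤ 1 * ‖V‖ := mul_le_mul (mF_norm_le (-n) t) (V.norm_coe_le_norm _) (norm_nonneg _)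
            zero_le_one
        _ = ‖V‖ := one_mul _)
  simpa using h

/-- A `C^∞` function on the torus has rapidly decreasing Fourier coefficients. -/
theorem smoothPot_of_cInf (V : C(UnitAddTorus (Fin d), ℂ)) (hV : CInf V) : SmoothPot V := by
  intro N
  choose W hW h using fun j => coeff_pow j N V hV
  refine ⟨2 ^ N * (‖V‖ + ∑ j, ‖W j‖), fun n => ?_⟩
  have hj : ∀ j, ‖UnitAddTorus.mFourierCoeff V n‖ * ‖n j‖ ^ N ≤ ‖W j‖ := by
    intro j
    have h1 := coeff_le (W j) n
    rw [h j n, norm_mul, norm_pow] at h1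
    have h2 : ‖(n j : ℤ)‖ ≤ ‖(2 * π * Complex.I * n j : ℂ)‖ := by
      have h3 : ‖(2 * π * Complex.I * n j : ℂ)‖ = 2 * π * ‖n j‖ := by
        rw [norm_mul, norm_mul, norm_mul, Complex.norm_I, mul_one, Complex.norm_intCast,
          Complex.norm_real, Real.norm_of_nonneg Real.pi_pos.le, Int.norm_eq_abs]
        norm_num
      rw [h3]
      have : (1 : ℝ) ≤ 2 * π := by linarith [Real.pi_gt_three]
      nlinarith [norm_nonneg (n j)]
    calc _ ≤ ‖UnitAddTorus.mFourierCoeff V n‖ * ‖(2 * π * Complex.I * n j : ℂ)‖ ^ N :=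
          mul_le_mul_of_nonneg_left (pow_le_pow_left₀ (norm_nonneg _) h2 N) (norm_nonneg _)
      _ ≤ ‖W j‖ := by rw [mul_comm]; exact h1
  have hsum : (0 : ℝ) ≤ ∑ j, ‖W j‖ := Finset.sum_nonneg fun _ _ => norm_nonneg _
  rcases le_or_gt ‖n‖ 1 with h1 | h1
  · calc ‖UnitAddTorus.mFourierCoeff V n‖ * (1 + ‖n‖) ^ N ≤ ‖V‖ * 2 ^ N :=
        mul_le_mul (coeff_le V n) (pow_le_pow_left₀ (by positivity) (by linarith) N)
          (by positivity) (norm_nonneg _)
      _ ≤ _ := by nlinarith [pow_pos (two_pos : (0 : ℝ) < 2) N]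
  · have hne : Nonempty (Fin d) := by
      by_contra hne
      rw [not_nonempty_iff] at hne
      have : n = 0 := Subsingleton.elim _ _
      rw [this, norm_zero] at h1
      linarith
    obtain ⟨j, hjn⟩ : ∃ j, ‖n‖ = ‖n j‖ := by
      obtain ⟨j, _, hj⟩ := Finset.exists_max_image Finset.univ (fun j => ‖n j‖)
        Finset.univ_nonempty
      exact ⟨j, le_antisymm ((pi_norm_le_iff_of_nonneg (norm_nonneg _)).2
        fun i => hj i (Finset.mem_univ i)) (norm_le_pi_norm n j)⟩
    have h2 : (1 + ‖n‖) ^ N ≤ 2 ^ N * ‖n j‖ ^ N := by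
      rw [← mul_pow, ← hjn]
      exact pow_le_pow_left₀ (by positivity) (by linarith) N
    calc ‖UnitAddTorus.mFourierCoeff V n‖ * (1 + ‖n‖) ^ N
        ≤ ‖UnitAddTorus.mFourierCoeff V n‖ * (2 ^ N * ‖n j‖ ^ N) :=
          mul_le_mul_of_nonneg_left h2 (norm_nonneg _)
      _ = 2 ^ N * (‖UnitAddTorus.mFourierCoeff V n‖ * ‖n j‖ ^ N) := by ring
      _ ≤ 2 ^ N * ‖W j‖ := mul_le_mul_of_nonneg_left (hj j) (by positivity)
      _ ≤ 2 ^ N * (‖V‖ + ∑ j, ‖W j‖) := by
          refine mul_le_mul_of_nonneg_left ?_ (by positivity)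
          have := Finset.single_le_sum (f := fun j => ‖W j‖) (fun i _ => norm_nonneg _)
            (Finset.mem_univ j)
          linarith [norm_nonneg V]

end Fermi
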